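import Pool.Agent.Work.MP_85f2da_an.Bd.B01
import Pool.Agent.Work.MP_2cde6c_an.Rellich
import Pool.Agent.Work.MP_85f2da_an.StmtsB

/-! Bundle of small proof modules (one section per former module). -/

section

set_option autoImplicit false

/-!
# MP_85f2da_an: S8, local Sobolev functions are locally square integrable
-/

open MeasureTheory Filter Set Metric
open scoped ENNReal Topology ContDiff

namespace Pool.Agent.Work.MP_85f2da_an

variable {d : ℕ}

theorem s8_sq_nonneg (a : Fin d → ℝ) : 0 ≤ sq a := Finset.sum_nonneg fun i _ => sq_nonneg _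

theorem s8_sq_le (a b : Fin d → ℝ) : sq a ≤ 2 * sq (b - a) + 2 * sq b := by
  simp only [sq, Finset.mul_sum, ← Finset.sum_add_distrib, Pi.sub_apply]
  exact Finset.sum_le_sum fun i _ => by nlinarith [sq_nonneg (2 * b i - a i)]

theorem s8_measurable_gr (U : (Fin d → ℝ) → ℝ) : Measurable (gr U) :=
  measurable_pi_lambda _ fun i => measurable_fderiv_apply_const ℝ U _

theorem s8_continuous_sq : Continuous (sq : (Fin d → ℝ) → ℝ) := by
  unfold sq
  fun_prop

theorem s8_measurable_app {u : (Fin d → ℝ) → ℝ} {g : (Fin d → ℝ) → (Fin d → ℝ)}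
    (mu : AEStronglyMeasurable u volume) (mg : AEStronglyMeasurable g volume)
    {U : (Fin d → ℝ) → ℝ} (hU : Lip U) :
    AEStronglyMeasurable (fun x => (U x - u x) ^ 2 + sq (gr U x - g x)) volume := by
  obtain ⟨K, hK⟩ := hU
  have h1 : AEStronglyMeasurable U volume := hK.continuous.aestronglyMeasurable
  have h2 : AEStronglyMeasurable (gr U) volume := (s8_measurable_gr U).aestronglyMeasurable
  exact ((h1.sub mu).pow 2).add (s8_continuous_sq.comp_aestronglyMeasurable (h2.sub mg))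

theorem s8_sq_gr_le {U : (Fin d → ℝ) → ℝ} {K : NNReal} (hK : LipschitzWith K U) (x : Fin d → ℝ) :
    sq (gr U x) ≤ d * (K : ℝ) ^ 2 := by
  have : ∀ i ∈ Finset.univ, gr U x i ^ 2 ≤ (K : ℝ) ^ 2 := by
    intro i _
    have h1 : ‖fderiv ℝ U x (Pi.single i (1 : ℝ))‖ ≤ K * ‖(Pi.single i (1 : ℝ) : Fin d → ℝ)‖ :=
      (fderiv ℝ U x).le_of_opNorm_le (norm_fderiv_le_of_lipschitz ℝ hK) _
    have h2 : ‖(Pi.single i (1 : ℝ) : Fin d → ℝ)‖ ≤ 1 := by
      refine (pi_norm_le_iff_of_nonneg zero_le_one).2 fun j => ?_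
      by_cases h : j = i
      · subst h; simp
      · simp [h]
    have h3 : |gr U x i| ≤ K := by
      rw [← Real.norm_eq_abs]
      exact h1.trans (mul_le_of_le_one_right K.2 h2)
    exact sq_le_sq' (abs_le.1 h3).1 (abs_le.1 h3).2
  calc sq (gr U x) = ∑ i, gr U x i ^ 2 := rfl
    _ ≤ ∑ _i : Fin d, (K : ℝ) ^ 2 := Finset.sum_le_sum this
    _ = d * (K : ℝ) ^ 2 := by simp

theorem sInt : SInt := by
  intro d u g ⟨mu, mg, U, hU, hlim⟩ z R
  have hsub : closedBall z R ⊆ closedBall 0 (‖z‖ + |R|) := by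
    intro x hx
    rw [mem_closedBall_zero_iff]
    rw [mem_closedBall_iff_norm] at hx
    calc ‖x‖ = ‖z + (x - z)‖ := by congr 1; abel
      _ ≤ ‖z‖ + ‖x - z‖ := norm_add_le _ _
      _ ≤ ‖z‖ + |R| := by linarith [le_abs_self R]
  have hev := (hlim (‖z‖ + |R|)).eventually (gt_mem_nhds (zero_lt_one : (0 : ℝ≥0∞) < 1))
  obtain ⟨j, hj⟩ := hev.exists
  obtain ⟨K, hK⟩ := hU j
  have hm := s8_measurable_app mu mg ⟨K, hK⟩
  have hint : IntegrableOn (fun x => (U j x - u x) ^ 2 + sq (gr (U j) x - g x))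
      (closedBall 0 (‖z‖ + |R|)) := by
    refine (lintegral_ofReal_ne_top_iff_integrable hm.restrict ?_).1
      (lt_of_lt_of_le hj le_top).ne
    exact Eventually.of_forall fun x => add_nonneg (sq_nonneg _) (s8_sq_nonneg _)
  have hint' := hint.mono_set hsub
  have hU2 : IntegrableOn (fun x => U j x ^ 2) (closedBall z R) :=
    (hK.continuous.pow 2).continuousOn.integrableOn_compact (isCompact_closedBall _ _)
  have hc : IntegrableOn (fun _ : Fin d → ℝ => 2 * (d * (K : ℝ) ^ 2)) (closedBall z R) :=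
    continuous_const.continuousOn.integrableOn_compact (isCompact_closedBall _ _)
  constructor
  · refine Integrable.mono' ((hint'.const_mul 2).add (hU2.const_mul 2)) (mu.pow 2).restrict
      (Eventually.of_forall fun x => ?_)
    rw [Real.norm_of_nonneg (sq_nonneg _)]
    have := s8_sq_nonneg (gr (U j) x - g x)
    simp only [Pi.add_apply]
    nlinarith [sq_nonneg (u x - 2 * U j x)]
  · refine Integrable.mono' ((hint'.const_mul 2).add hc)
      (s8_continuous_sq.comp_aestronglyMeasurable mg).restrict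
      (Eventually.of_forall fun x => ?_)
    rw [Real.norm_of_nonneg (s8_sq_nonneg _)]
    have h1 := s8_sq_le (g x) (gr (U j) x)
    have h2 := s8_sq_gr_le hK x
    simp only [Pi.add_apply]
    nlinarith [sq_nonneg (U j x - u x)]

end Pool.Agent.Work.MP_85f2da_an

end

section

set_option autoImplicit false

/-!
# MP_85f2da_an, S1: Lipschitz functions are local Sobolev functions
-/

open MeasureTheory Filter Set Metric
open scoped ENNReal Topology ContDiff

namespace Pool.Agent.Work.MP_85f2da_an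

variable {d : ℕ}

theorem s1_sq_cont : Continuous (sq : (Fin d → ℝ) → ℝ) := by
  unfold sq
  fun_prop

theorem s1_sq_nonneg (a : Fin d → ℝ) : 0 ≤ sq a := Finset.sum_nonneg fun _ _ => sq_nonneg _

theorem s1_lip_cont {u : (Fin d → ℝ) → ℝ} (hu : Lip u) : Continuous u := by
  obtain ⟨K, hK⟩ := hu
  exact hK.continuous

theorem s1_gr_meas (u : (Fin d → ℝ) → ℝ) : Measurable (gr u) := by
  refine measurable_pi_lambda _ fun i => ?_
  exact measurable_fderiv_apply_const ℝ u (Pi.single i (1 : ℝ))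

theorem s1_lip_diff {u : (Fin d → ℝ) → ℝ} (hu : Lip u) :
    ∀ᵐ x, DifferentiableAt ℝ u x := by
  obtain ⟨K, hK⟩ := hu
  exact hK.ae_differentiableAt

theorem s1_meas {u U : (Fin d → ℝ) → ℝ} {g : (Fin d → ℝ) → (Fin d → ℝ)}
    (hu : AEStronglyMeasurable u volume) (hg : AEStronglyMeasurable g volume) (hU : Lip U) :
    AEMeasurable (fun x => ENNReal.ofReal ((U x - u x) ^ 2 + sq (gr U x - g x))) := by
  have h1 : AEStronglyMeasurable (fun x => (U x - u x) ^ 2) volume :=
    (((s1_lip_cont hU).aestronglyMeasurable).sub hu).pow 2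
  have h2 : AEStronglyMeasurable (fun x => sq (gr U x - g x)) volume :=
    s1_sq_cont.comp_aestronglyMeasurable ((s1_gr_meas U).aestronglyMeasurable.sub hg)
  exact (h1.add h2).aemeasurable.ennreal_ofReal

theorem sLip : SLip := by
  intro d u hu
  refine ⟨(s1_lip_cont hu).aestronglyMeasurable, (s1_gr_meas u).aestronglyMeasurable,
    fun _ => u, fun _ => hu, fun R => ?_⟩
  have h : ∀ x : Fin d → ℝ, ENNReal.ofReal ((u x - u x) ^ 2 + sq (gr u x - gr u x)) = 0 := by
    intro x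
    simp [sq]
  simp only [h, lintegral_zero]
  exact tendsto_const_nhds

end Pool.Agent.Work.MP_85f2da_an

end

section

set_option autoImplicit false

/-!
# MP_85f2da_an, S13: Rellich for competitors; weak gradients of Lipschitz functions
-/

open MeasureTheory Filter Set Metric
open scoped ENNReal Topology ContDiff

namespace Pool.Agent.Work.MP_85f2da_an

theorem s13_gr_le {d : ℕ} {U : (Fin d → ℝ) → ℝ} {K : NNReal} (hU : LipschitzWith K U)
    (x : Fin d → ℝ) (i : Fin d) : |gr U x i| ≤ K := by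
  unfold gr
  have h1 := (fderiv ℝ U x).le_opNorm (Pi.single i (1 : ℝ))
  have h2 : ‖(Pi.single i (1 : ℝ) : Fin d → ℝ)‖ = 1 := by
    rw [Pi.norm_single]; simp
  have h3 : ‖fderiv ℝ U x‖ ≤ K := norm_fderiv_le_of_lipschitz ℝ hU
  rw [h2, mul_one, Real.norm_eq_abs] at h1
  exact h1.trans h3

theorem s13_gr_meas {d : ℕ} (U : (Fin d → ℝ) → ℝ) (i : Fin d) :
    Measurable (fun x => gr U x i) := measurable_fderiv_apply_const ℝ U _

theorem s13_sq_le {d : ℕ} {U : (Fin d → ℝ) → ℝ} {K : NNReal} (hU : LipschitzWith K U)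
    (x : Fin d → ℝ) : sq (gr U x) ≤ d * (K : ℝ) ^ 2 := by
  unfold sq
  calc ∑ i, gr U x i ^ 2 ≤ ∑ _i : Fin d, (K : ℝ) ^ 2 := Finset.sum_le_sum fun i _ => by
        rw [← sq_abs]; exact pow_le_pow_left₀ (abs_nonneg _) (s13_gr_le hU x i) 2
    _ = d * (K : ℝ) ^ 2 := by simp

theorem s13_sq_meas {d : ℕ} (U : (Fin d → ℝ) → ℝ) : Measurable (fun x => sq (gr U x)) := by
  unfold sq
  exact Finset.measurable_sum _ fun i _ => (s13_gr_meas U i).pow_const 2

theorem s13_sq_nonneg {d : ℕ} (a : Fin d → ℝ) : 0 ≤ sq a :=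
  Finset.sum_nonneg fun i _ => sq_nonneg _

theorem s13_sq_int {d : ℕ} {U : (Fin d → ℝ) → ℝ} (hU : Lip U) (z : Fin d → ℝ) (R : ℝ) :
    IntegrableOn (fun x => sq (gr U x)) (closedBall z R) := by
  obtain ⟨K, hK⟩ := hU
  refine Measure.integrableOn_of_bounded (M := d * (K : ℝ) ^ 2) ?_
    (s13_sq_meas U).aestronglyMeasurable ?_
  · exact measure_closedBall_lt_top.ne
  · filter_upwards with x
    rw [Real.norm_of_nonneg (s13_sq_nonneg _)]
    exact s13_sq_le hK x

/-- the classical gradient of a Lipschitz function is its weak gradient -/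
theorem s13_wk {d : ℕ} {U : (Fin d → ℝ) → ℝ} (hU : Lip U) (i : Fin d)
    {φ : (Fin d → ℝ) → ℝ} (hφ : MP_2cde6c_an.TF φ) :
    ∫ x, U x * fderiv ℝ φ x (Pi.single i (1 : ℝ)) = - ∫ x, gr U x i * φ x := by
  obtain ⟨K, hK⟩ := hU
  obtain ⟨D, hD⟩ := (hφ.1.of_le (by simp : (1 : WithTop ℕ∞) ≤ ((⊤ : ℕ∞) : WithTop ℕ∞))
    ).lipschitzWith_of_hasCompactSupport hφ.2 (by simp)
  have key := LipschitzWith.integral_lineDeriv_mul_eq (μ := (volume : Measure (Fin d → ℝ)))
    hK hD hφ.2 (Pi.single i (1 : ℝ))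
  have e1 : ∫ x, lineDeriv ℝ U x (Pi.single i (1 : ℝ)) * φ x = ∫ x, gr U x i * φ x := by
    apply integral_congr_ae
    filter_upwards [hK.ae_differentiableAt] with x hx
    rw [hx.lineDeriv_eq_fderiv]
    rfl
  have e2 : ∫ x, lineDeriv ℝ φ x (-(Pi.single i (1 : ℝ))) * U x
      = - ∫ x, U x * fderiv ℝ φ x (Pi.single i (1 : ℝ)) := by
    rw [← integral_neg]
    congr 1
    ext x
    rw [((hφ.1.differentiable (by simp)).differentiableAt).lineDeriv_eq_fderiv, map_neg]
    ring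
  rw [e1, e2] at key
  linarith

/-- Lipschitz functions vanishing outside a cube are weak pairs -/
theorem s13_WP {d : ℕ} {U : (Fin d → ℝ) → ℝ} (hU : Lip U) {R : ℝ}
    (h0 : ∀ x, x ∉ closedBall (0 : Fin d → ℝ) R → U x = 0) :
    MP_2cde6c_an.WP U (fun i x => gr U x i) := by
  have hc : Continuous U := by obtain ⟨K, hK⟩ := hU; exact hK.continuous
  have hsupp : HasCompactSupport U := by
    refine HasCompactSupport.intro (isCompact_closedBall (0 : Fin d → ℝ) R) ?_
    intro x hx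
    exact h0 x hx
  refine ⟨hc.memLp_of_hasCompactSupport hsupp, ?_, fun i φ hφ => s13_wk hU i hφ⟩
  intro i
  obtain ⟨K, hK⟩ := hU
  have hgs : ∀ x, x ∉ closedBall (0 : Fin d → ℝ) R → gr U x i = 0 := by
    intro x hx
    have hn : ∀ᶠ y in 𝓝 x, U y = 0 := by
      filter_upwards [isClosed_closedBall.isOpen_compl.mem_nhds hx] with y hy
      exact h0 y hy
    have : fderiv ℝ U x = 0 := by
      have hh : U =ᶠ[𝓝 x] fun _ => (0 : ℝ) := hn
      rw [hh.fderiv_eq]
      simp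
    unfold gr
    rw [this]
    simp
  have hi : (fun x => gr U x i) = (closedBall (0 : Fin d → ℝ) R).indicator (fun x => gr U x i) := by
    funext x
    by_cases hx : x ∈ closedBall (0 : Fin d → ℝ) R
    · rw [indicator_of_mem hx]
    · rw [indicator_of_notMem hx, hgs x hx]
  rw [hi, memLp_indicator_iff_restrict isClosed_closedBall.measurableSet]
  haveI : IsFiniteMeasure (volume.restrict (closedBall (0 : Fin d → ℝ) R)) :=
    ⟨by rw [Measure.restrict_apply_univ]; exact measure_closedBall_lt_top⟩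
  refine MemLp.of_bound (s13_gr_meas U i).aestronglyMeasurable (K : ℝ) ?_
  filter_upwards with x
  exact s13_gr_le hK x i

theorem s13_gr_out {d : ℕ} {U : (Fin d → ℝ) → ℝ} {R : ℝ}
    (h0 : ∀ x, x ∉ closedBall (0 : Fin d → ℝ) R → U x = 0) (x : Fin d → ℝ)
    (hx : x ∉ closedBall (0 : Fin d → ℝ) R) : gr U x = 0 := by
  have hh : U =ᶠ[𝓝 x] fun _ => (0 : ℝ) := by
    filter_upwards [isClosed_closedBall.isOpen_compl.mem_nhds hx] with y hy
    exact h0 y hy
  funext i
  unfold gr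
  rw [hh.fderiv_eq]
  simp

theorem sRellich : SRellich := by
  intro d w ρ C U hU hC
  set v : ℕ → (Fin d → ℝ) → ℝ := fun j x => U j x - U 0 x with hv
  have hlip : ∀ j, Lip (v j) := by
    intro j
    obtain ⟨K, hK⟩ := (hU j).lip
    obtain ⟨K', hK'⟩ := (hU 0).lip
    exact ⟨K + K', hK.sub hK'⟩
  have hout : ∀ j x, x ∉ closedBall (0 : Fin d → ℝ) ρ → v j x = 0 := by
    intro j x hx
    simp only [hv]
    rw [(hU j).out x hx, (hU 0).out x hx, sub_self]
  have hWP : ∀ j, MP_2cde6c_an.WP (v j) (fun i x => gr (v j) x i) := fun j =>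
    s13_WP (hlip j) (hout j)
  have hfin : volume (closedBall (0 : Fin d → ℝ) ρ) ≠ ⊤ := measure_closedBall_lt_top.ne
  -- bounds
  have hb1 : ∀ j, MP_2cde6c_an.nsq (v j) ≤ volume (closedBall (0 : Fin d → ℝ) ρ) := by
    intro j
    unfold MP_2cde6c_an.nsq
    calc ∫⁻ x, ENNReal.ofReal (v j x ^ 2)
        ≤ ∫⁻ x, (closedBall (0 : Fin d → ℝ) ρ).indicator (fun _ => (1 : ℝ≥0∞)) x := by
          refine lintegral_mono fun x => ?_
          by_cases hx : x ∈ closedBall (0 : Fin d → ℝ) ρ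
          · rw [indicator_of_mem hx]
            rw [← ENNReal.ofReal_one]
            apply ENNReal.ofReal_le_ofReal
            have h1 := (hU j).nonneg x
            have h2 := (hU j).le_one x
            have h3 := (hU 0).nonneg x
            have h4 := (hU 0).le_one x
            simp only [hv]
            nlinarith
          · rw [indicator_of_notMem hx, hout j x hx]
            simp
      _ = volume (closedBall (0 : Fin d → ℝ) ρ) := by
          rw [lintegral_indicator isClosed_closedBall.measurableSet]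
          simp
  have hb2 : ∀ j, ∑ i, MP_2cde6c_an.nsq (fun x => gr (v j) x i) ≤ ENNReal.ofReal (4 * C) := by
    intro j
    have hm : ∀ i, Measurable (fun x => ENNReal.ofReal (gr (v j) x i ^ 2)) := fun i =>
      ((s13_gr_meas (v j) i).pow_const 2).ennreal_ofReal
    have e1 : ∑ i, MP_2cde6c_an.nsq (fun x => gr (v j) x i)
        = ∫⁻ x, ENNReal.ofReal (sq (gr (v j) x)) := by
      unfold MP_2cde6c_an.nsq
      rw [← lintegral_finsetSum _ fun i _ => hm i]
      congr 1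
      ext x
      unfold sq
      rw [ENNReal.ofReal_sum_of_nonneg fun i _ => sq_nonneg _]
    have e2 : ∫⁻ x, ENNReal.ofReal (sq (gr (v j) x))
        = ∫⁻ x in closedBall (0 : Fin d → ℝ) ρ, ENNReal.ofReal (sq (gr (v j) x)) := by
      rw [← lintegral_indicator isClosed_closedBall.measurableSet]
      congr 1
      ext x
      by_cases hx : x ∈ closedBall (0 : Fin d → ℝ) ρ
      · rw [indicator_of_mem hx]
      · rw [indicator_of_notMem hx, s13_gr_out (hout j) x hx]
        simp [sq]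
    rw [e1, e2, ← ofReal_integral_eq_lintegral_ofReal (s13_sq_int (hlip j) 0 ρ)
      (Eventually.of_forall fun x => s13_sq_nonneg _)]
    apply ENNReal.ofReal_le_ofReal
    obtain ⟨K, hK⟩ := (hU j).lip
    obtain ⟨K', hK'⟩ := (hU 0).lip
    have hle : ∫ x in closedBall (0 : Fin d → ℝ) ρ, sq (gr (v j) x)
        ≤ ∫ x in closedBall (0 : Fin d → ℝ) ρ, (2 * sq (gr (U j) x) + 2 * sq (gr (U 0) x)) := by
      refine integral_mono_ae (s13_sq_int (hlip j) 0 ρ)
        (((s13_sq_int (hU j).lip 0 ρ).const_mul 2).add ((s13_sq_int (hU 0).lip 0 ρ).const_mul 2)) ?_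
      filter_upwards [ae_restrict_of_ae hK.ae_differentiableAt,
        ae_restrict_of_ae hK'.ae_differentiableAt] with x hx hx'
      have : gr (v j) x = gr (U j) x - gr (U 0) x := by
        funext i
        simp only [gr, hv, Pi.sub_apply]
        rw [fderiv_fun_sub hx hx']
        rfl
      rw [this]
      simp only [sq, Pi.sub_apply]
      rw [Finset.mul_sum, Finset.mul_sum, ← Finset.sum_add_distrib]
      refine Finset.sum_le_sum fun i _ => ?_
      nlinarith [sq_nonneg (gr (U j) x i + gr (U 0) x i)]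
    rw [integral_add ((s13_sq_int (hU j).lip 0 ρ).const_mul 2)
      ((s13_sq_int (hU 0).lip 0 ρ).const_mul 2), integral_const_mul, integral_const_mul] at hle
    have h1 := hC j
    have h2 := hC 0
    linarith
  have hK : volume (closedBall (0 : Fin d → ℝ) ρ) + ENNReal.ofReal (4 * C) ≠ ⊤ :=
    ENNReal.add_ne_top.2 ⟨hfin, ENNReal.ofReal_ne_top⟩
  obtain ⟨φ, hφ, vl, hvl, hlim⟩ := MP_2cde6c_an.rellich (ι := Unit) (u := fun n _ => v n)
    (g := fun n _ i x => gr (v n) x i) (fun n _ => hWP n)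
    (S := closedBall (0 : Fin d → ℝ) ρ) isBounded_closedBall
    (fun n _ => Eventually.of_forall fun x hx => hout n x hx) hK
    (fun n _ => (hb1 n).trans le_self_add) (fun n _ => (hb2 n).trans le_add_self)
  refine ⟨φ, hφ, ?_⟩
  intro ε hε
  have hlim' := hlim ()
  have hmv : MemLp (vl ()) 2 volume := hvl ()
  have ht : ∀ᶠ n in atTop, eLpNorm (fun x => v (φ n) x - vl () x) 2 volume
      < ENNReal.ofReal (Real.sqrt ε / 2) := by
    have := (tendsto_order.1 hlim').2 (ENNReal.ofReal (Real.sqrt ε / 2))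
      (ENNReal.ofReal_pos.2 (by positivity))
    exact this
  obtain ⟨N, hN⟩ := eventually_atTop.1 ht
  refine ⟨N, ?_⟩
  intro i j hi hj
  have hd : MemLp (fun x => v (φ i) x - v (φ j) x) 2 volume := (hWP (φ i)).mu.sub (hWP (φ j)).mu
  have hn : eLpNorm (fun x => v (φ i) x - v (φ j) x) 2 volume ≤ ENNReal.ofReal (Real.sqrt ε) := by
    have e : (fun x => v (φ i) x - v (φ j) x)
        = (fun x => v (φ i) x - vl () x) - (fun x => v (φ j) x - vl () x) := by
      funext x; simp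
    rw [e]
    refine (eLpNorm_sub_le ((hWP (φ i)).mu.1.sub hmv.1) ((hWP (φ j)).mu.1.sub hmv.1)
      (by norm_num)).trans ?_
    refine (add_le_add (hN i hi).le (hN j hj).le).trans ?_
    rw [← ENNReal.ofReal_add (by positivity) (by positivity), add_halves]
  have hnsq : MP_2cde6c_an.nsq (fun x => v (φ i) x - v (φ j) x) ≤ ENNReal.ofReal ε := by
    rw [MP_2cde6c_an.nsq_eq]
    calc eLpNorm (fun x => v (φ i) x - v (φ j) x) 2 volume ^ 2
        ≤ ENNReal.ofReal (Real.sqrt ε) ^ 2 := by gcongr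
      _ = ENNReal.ofReal ε := by
        rw [← ENNReal.ofReal_pow (Real.sqrt_nonneg _), Real.sq_sqrt hε.le]
  rw [MP_2cde6c_an.nsq_ofReal hd] at hnsq
  have h2 := (ENNReal.ofReal_le_ofReal_iff hε.le).1 hnsq
  have e3 : ∀ x, (U (φ i) x - U (φ j) x) ^ 2 = (v (φ i) x - v (φ j) x) ^ 2 := by
    intro x
    simp only [hv]
    ring
  simp only [e3]
  refine le_trans ?_ h2
  exact setIntegral_le_integral hd.integrable_sq (Eventually.of_forall fun x => sq_nonneg _)

end Pool.Agent.Work.MP_85f2da_an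

end

section

set_option autoImplicit false

/-!
# S14: a function with Lipschitz differences almost everywhere has a Lipschitz representative
-/

open MeasureTheory Filter Set Metric
open scoped ENNReal Topology

namespace Pool.Agent.Work.MP_85f2da_an

/-- Fubini: for almost every `x` the bound holds for almost every `z`. -/
theorem s14_fubini {d : ℕ} {u : (Fin d → ℝ) → ℝ} {C r : ℝ} (hu : AEStronglyMeasurable u volume)
    (H : ∀ h : Fin d → ℝ, ‖h‖ ≤ 1 → ∀ᵐ x, x ∈ closedBall 0 r → |u (x + h) - u x| ≤ C * ‖h‖) :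
    ∀ᵐ x : Fin d → ℝ, x ∈ closedBall 0 r →
      ∀ᵐ z : Fin d → ℝ, ‖z - x‖ ≤ 1 → |u z - u x| ≤ C * ‖z - x‖ := by
  set u' := hu.mk u with hu'
  have hm : Measurable u' := hu.stronglyMeasurable_mk.measurable
  have he : ∀ᵐ x, u x = u' x := hu.ae_eq_mk
  set P : (Fin d → ℝ) → (Fin d → ℝ) → Prop :=
    fun h x => ‖h‖ ≤ 1 → x ∈ closedBall (0 : Fin d → ℝ) r → |u' (x + h) - u' x| ≤ C * ‖h‖ with hP
  have h1 : ∀ h : Fin d → ℝ, ∀ᵐ x, P h x := by
    intro h
    by_cases hh : ‖h‖ ≤ 1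
    · have he2 : ∀ᵐ x : Fin d → ℝ, u (x + h) = u' (x + h) :=
        (measurePreserving_add_right volume h).quasiMeasurePreserving.ae he
      filter_upwards [H h hh, he, he2] with x a1 a2 a3 _ hx
      rw [← a2, ← a3]
      exact a1 hx
    · exact Eventually.of_forall fun x h' => absurd h' hh
  have hms : MeasurableSet {z : (Fin d → ℝ) × (Fin d → ℝ) | P z.1 z.2} := by
    have e : {z : (Fin d → ℝ) × (Fin d → ℝ) | P z.1 z.2} =
        {z | ‖z.1‖ ≤ 1}ᶜ ∪ ({z | ‖z.2‖ ≤ r}ᶜ ∪ {z | |u' (z.2 + z.1) - u' z.2| ≤ C * ‖z.1‖}) := by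
      ext z
      simp only [hP, Set.mem_setOf_eq, Set.mem_union, Set.mem_compl_iff, mem_closedBall,
        dist_zero_right]
      tauto
    rw [e]
    refine (measurableSet_le (by fun_prop) measurable_const).compl.union
      ((measurableSet_le (by fun_prop) measurable_const).compl.union (measurableSet_le ?_ ?_))
    · have m1 : Measurable fun z : (Fin d → ℝ) × (Fin d → ℝ) => u' (z.2 + z.1) :=
        hm.comp (measurable_snd.add measurable_fst)
      have m2 : Measurable fun z : (Fin d → ℝ) × (Fin d → ℝ) => u' z.2 := hm.comp measurable_snd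
      exact (m1.sub m2).abs
    · fun_prop
  have h2 : ∀ᵐ x : Fin d → ℝ, ∀ᵐ h : Fin d → ℝ, P h x :=
    (Measure.ae_ae_comm hms).1 (Eventually.of_forall h1)
  filter_upwards [h2, he] with x a1 a2 hx
  have a3 : ∀ᵐ z : Fin d → ℝ, P (z - x) x :=
    (measurePreserving_sub_right volume x).quasiMeasurePreserving.ae a1
  filter_upwards [a3, he] with z b1 b2 hz
  have := b1 hz hx
  rw [add_sub_cancel] at this
  rw [a2, b2]
  exact this

theorem s14_lip {d : ℕ} {u : (Fin d → ℝ) → ℝ} {C r : ℝ} (hC : 0 ≤ C) (hr : 1 < r)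
    (S : Set (Fin d → ℝ)) (hS : ∀ᵐ x, x ∈ S)
    (h : ∀ x ∈ S, x ∈ closedBall (0 : Fin d → ℝ) r →
      ∀ᵐ z : Fin d → ℝ, ‖z - x‖ ≤ 1 → |u z - u x| ≤ C * ‖z - x‖) :
    ∀ x ∈ S ∩ closedBall 0 r, ∀ y ∈ S ∩ closedBall 0 r, |u x - u y| ≤ C * ‖x - y‖ := by
  have hr0 : 0 < r := by linarith
  -- good points are dense
  have hdense : ∀ m ∈ closedBall (0 : Fin d → ℝ) r, ∀ ε : ℝ, 0 < ε →
      ∀ Q : (Fin d → ℝ) → Prop, (∀ᵐ z, Q z) → ∃ z ∈ closedBall (0 : Fin d → ℝ) r,
        ‖z - m‖ < ε ∧ Q z := by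
    intro m hm ε hε Q hQ
    rw [← closure_ball (0 : Fin d → ℝ) hr0.ne'] at hm
    obtain ⟨w, hw1, hw2⟩ := Metric.mem_closure_iff.1 hm ε hε
    have ho : IsOpen (ball m ε ∩ ball (0 : Fin d → ℝ) r) := isOpen_ball.inter isOpen_ball
    have hpos : 0 < volume (ball m ε ∩ ball (0 : Fin d → ℝ) r) :=
      ho.measure_pos volume ⟨w, by rw [mem_ball, dist_comm]; exact hw2, hw1⟩
    obtain ⟨z, hz1, hz2⟩ := Measure.exists_mem_of_measure_ne_zero_of_ae hpos.ne' (ae_restrict_of_ae hQ)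
    exact ⟨z, ball_subset_closedBall hz1.2, by rw [← dist_eq_norm]; exact hz1.1, hz2⟩
  -- short distances
  have h1 : ∀ x ∈ S ∩ closedBall 0 r, ∀ y ∈ S ∩ closedBall 0 r, ‖x - y‖ < 1 →
      |u x - u y| ≤ C * ‖x - y‖ := by
    intro x hx y hy hxy
    refine le_of_forall_pos_le_add fun δ hδ => ?_
    set ε : ℝ := min (1 - ‖x - y‖) (δ / (2 * (C + 1))) with hε
    have hε0 : 0 < ε := lt_min (by linarith) (by positivity)
    have hε1 : ε ≤ 1 - ‖x - y‖ := min_le_left _ _
    have hε2 : ε ≤ δ / (2 * (C + 1)) := min_le_right _ _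
    obtain ⟨z, _, hz2, hz3, hz4⟩ := hdense y hy.2 ε hε0 _
      ((h x hx.1 hx.2).and (h y hy.1 hy.2))
    have n1 : ‖z - x‖ ≤ ‖x - y‖ + ε := by
      have e : z - x = (z - y) - (x - y) := by abel
      rw [e]
      refine (norm_sub_le _ _).trans ?_
      linarith
    have b1 := hz3 (by linarith)
    have b2 := hz4 (by have := norm_nonneg (x - y); linarith)
    have b3 : |u x - u y| ≤ |u z - u x| + |u z - u y| := by
      have e : u x - u y = -(u z - u x) + (u z - u y) := by ring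
      rw [e]
      refine (abs_add_le _ _).trans ?_
      rw [abs_neg]
    have b4 : C * ‖z - x‖ ≤ C * (‖x - y‖ + ε) := mul_le_mul_of_nonneg_left n1 hC
    have b5 : C * ‖z - y‖ ≤ C * ε := mul_le_mul_of_nonneg_left hz2.le hC
    have b6 : 2 * (C + 1) * ε ≤ δ := by
      have := mul_le_mul_of_nonneg_left hε2 (by positivity : 0 ≤ 2 * (C + 1))
      rwa [mul_div_cancel₀ _ (by positivity : (2 * (C + 1)) ≠ 0)] at this
    nlinarith
  -- long distances
  have h2 : ∀ n : ℕ, ∀ x ∈ S ∩ closedBall 0 r, ∀ y ∈ S ∩ closedBall 0 r,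
      ‖x - y‖ < (3 / 2 : ℝ) ^ n → |u x - u y| ≤ C * ‖x - y‖ := by
    intro n
    induction n with
    | zero =>
      intro x hx y hy hxy
      exact h1 x hx y hy (by simpa using hxy)
    | succ n ih =>
      intro x hx y hy hxy
      refine le_of_forall_pos_le_add fun δ hδ => ?_
      have hp : (1 : ℝ) ≤ (3 / 2 : ℝ) ^ n := one_le_pow₀ (by norm_num)
      set ε : ℝ := min (1 / 4) (δ / (2 * (C + 1))) with hε
      have hε0 : 0 < ε := lt_min (by norm_num) (by positivity)
      have hε1 : ε ≤ 1 / 4 := min_le_left _ _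
      have hε2 : ε ≤ δ / (2 * (C + 1)) := min_le_right _ _
      set m : Fin d → ℝ := midpoint ℝ x y with hm
      have hmem : m ∈ closedBall (0 : Fin d → ℝ) r :=
        (convex_closedBall (0 : Fin d → ℝ) r).midpoint_mem hx.2 hy.2
      obtain ⟨z, hz1, hz2, hz3⟩ := hdense m hmem ε hε0 _ hS
      have d1 : ‖x - m‖ = ‖x - y‖ / 2 := by
        rw [← dist_eq_norm, ← dist_eq_norm, hm, dist_left_midpoint (𝕜 := ℝ)]
        simp
        ring
      have d2 : ‖m - y‖ = ‖x - y‖ / 2 := by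
        rw [← dist_eq_norm, ← dist_eq_norm, hm, dist_midpoint_right (𝕜 := ℝ)]
        simp
        ring
      have n1 : ‖x - z‖ ≤ ‖x - y‖ / 2 + ε := by
        have e : x - z = (x - m) - (z - m) := by abel
        rw [e]
        refine (norm_sub_le _ _).trans ?_
        linarith
      have n2 : ‖z - y‖ ≤ ‖x - y‖ / 2 + ε := by
        have e : z - y = (z - m) + (m - y) := by abel
        rw [e]
        refine (norm_add_le _ _).trans ?_
        linarith
      have hlt : ‖x - y‖ / 2 + ε < (3 / 2 : ℝ) ^ n := by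
        rw [pow_succ] at hxy
        linarith
      have b1 := ih x hx z ⟨hz3, hz1⟩ (by linarith)
      have b2 := ih z ⟨hz3, hz1⟩ y hy (by linarith)
      have b3 : |u x - u y| ≤ |u x - u z| + |u z - u y| := abs_sub_le _ _ _
      have b4 : C * ‖x - z‖ ≤ C * (‖x - y‖ / 2 + ε) := mul_le_mul_of_nonneg_left n1 hC
      have b5 : C * ‖z - y‖ ≤ C * (‖x - y‖ / 2 + ε) := mul_le_mul_of_nonneg_left n2 hC
      have b6 : 2 * (C + 1) * ε ≤ δ := by
        have := mul_le_mul_of_nonneg_left hε2 (by positivity : 0 ≤ 2 * (C + 1))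
        rwa [mul_div_cancel₀ _ (by positivity : (2 * (C + 1)) ≠ 0)] at this
      nlinarith
  intro x hx y hy
  obtain ⟨n, hn⟩ := pow_unbounded_of_one_lt ‖x - y‖ (by norm_num : (1 : ℝ) < 3 / 2)
  exact h2 n x hx y hy hn

theorem sRep : SRep := by
  intro d u C r hC hr hu h01 H
  have hF := s14_fubini hu H
  set S : Set (Fin d → ℝ) := {x | x ∈ closedBall (0 : Fin d → ℝ) r →
      ∀ᵐ z : Fin d → ℝ, ‖z - x‖ ≤ 1 → |u z - u x| ≤ C * ‖z - x‖} with hS
  have hlip := s14_lip hC hr S hF fun x hx hx2 => hx hx2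
  have hL : LipschitzOnWith (Real.toNNReal C) u (S ∩ closedBall 0 r) := by
    refine LipschitzOnWith.of_dist_le_mul fun x hx y hy => ?_
    rw [Real.coe_toNNReal C hC, Real.dist_eq, dist_eq_norm]
    exact hlip x hx y hy
  obtain ⟨g, hg1, hg2⟩ := hL.extend_real
  refine ⟨fun x => max 0 (min 1 (g x)), ?_, ?_, ?_⟩
  · have h1 : LipschitzWith (Real.toNNReal C) fun x => max 0 (min 1 (g x)) := by
      refine LipschitzWith.of_dist_le_mul fun x y => ?_
      refine le_trans ?_ (hg1.dist_le_mul x y)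
      rw [Real.dist_eq, Real.dist_eq]
      refine (abs_max_sub_max_le_max 0 _ 0 _).trans ?_
      rw [sub_self, abs_zero, max_eq_right (abs_nonneg _)]
      refine (abs_min_sub_min_le_max 1 _ 1 _).trans ?_
      rw [sub_self, abs_zero, max_eq_right (abs_nonneg _)]
    exact h1.weaken (Real.toNNReal_le_toNNReal (by linarith))
  · intro x
    exact ⟨le_max_left _ _, max_le zero_le_one (min_le_left _ _)⟩
  · filter_upwards [hF] with x hx hx2
    have hx3 : x ∈ closedBall (0 : Fin d → ℝ) r := closedBall_subset_closedBall (by linarith) hx2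
    have : u x = g x := hg2 ⟨hx, hx3⟩
    rw [← this, min_eq_right (h01 x).2, max_eq_right (h01 x).1]

end Pool.Agent.Work.MP_85f2da_an

end

section

set_option autoImplicit false

/-!
# MP_85f2da_an, S2: LSP and translations
-/

open MeasureTheory Filter Set Metric
open scoped ENNReal Topology ContDiff

namespace Pool.Agent.Work.MP_85f2da_an

theorem s2_gr {d : ℕ} (U : (Fin d → ℝ) → ℝ) (h x : Fin d → ℝ) :
    gr (fun y => U (y + h)) x = gr U (x + h) := by
  funext i
  unfold gr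
  rw [fderiv_comp_add_right]

theorem s2_lint {d : ℕ} (F : (Fin d → ℝ) → ℝ≥0∞) (h : Fin d → ℝ) (R : ℝ) :
    ∫⁻ x in closedBall (0 : Fin d → ℝ) R, F (x + h)
      ≤ ∫⁻ x in closedBall (0 : Fin d → ℝ) (R + ‖h‖), F x := by
  have mp : MeasurePreserving (fun x : Fin d → ℝ => x + h) volume volume :=
    measurePreserving_add_right volume h
  have e := mp.setLIntegral_comp_preimage_emb (MeasurableEquiv.addRight h).measurableEmbedding F
    (closedBall (0 : Fin d → ℝ) (R + ‖h‖))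
  rw [← e]
  refine lintegral_mono_set ?_
  intro x hx
  rw [mem_closedBall_zero_iff] at hx
  show x + h ∈ closedBall (0 : Fin d → ℝ) (R + ‖h‖)
  rw [mem_closedBall_zero_iff]
  exact (norm_add_le x h).trans (by linarith)

theorem sShift : SShift := by
  intro d u g h hu
  have mp : MeasurePreserving (fun x : Fin d → ℝ => x + h) volume volume :=
    measurePreserving_add_right volume h
  refine ⟨hu.mu.comp_measurePreserving mp, hu.mg.comp_measurePreserving mp, ?_⟩
  obtain ⟨U, hU, ht⟩ := hu.app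
  refine ⟨fun j x => U j (x + h), ?_, ?_⟩
  · intro j
    obtain ⟨K, hK⟩ := hU j
    refine ⟨K, LipschitzWith.of_dist_le_mul fun x y => ?_⟩
    have := hK.dist_le_mul (x + h) (y + h)
    rwa [dist_add_right] at this
  · intro R
    refine tendsto_of_tendsto_of_tendsto_of_le_of_le tendsto_const_nhds (ht (R + ‖h‖))
      (fun _ => zero_le) ?_
    intro j
    have := s2_lint (fun x => ENNReal.ofReal ((U j x - u x) ^ 2 + sq (gr (U j) x - g x))) h R
    simpa only [s2_gr] using this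

end Pool.Agent.Work.MP_85f2da_an

end

section

set_option autoImplicit false

/-!
# MP_85f2da_an, item S9: uniqueness of the gradient of a local Sobolev pair
-/

open MeasureTheory Filter Set Metric
open scoped ENNReal Topology ContDiff

namespace Pool.Agent.Work.MP_85f2da_an

private lemma s9_sq_cont {d : ℕ} : Continuous (fun a : Fin d → ℝ => sq a) := by
  unfold sq
  fun_prop

private lemma s9_comp_le {d : ℕ} (a : ℝ) (p : Fin d → ℝ) (i : Fin d) : (p i) ^ 2 ≤ a ^ 2 + sq p := by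
  have := Finset.single_le_sum (f := fun i => p i ^ 2) (fun j _ => sq_nonneg (p j))
    (Finset.mem_univ i)
  simp only [sq] at *
  nlinarith [sq_nonneg a]

private lemma s9_fst_le {d : ℕ} (a : ℝ) (p : Fin d → ℝ) : a ^ 2 ≤ a ^ 2 + sq p := by
  have : 0 ≤ sq p := Finset.sum_nonneg (fun i _ => sq_nonneg (p i))
  linarith

/-- `L^2` convergence to zero implies `L^1` convergence to zero on a cube -/
private lemma s9_L1 {d : ℕ} {F : ℕ → (Fin d → ℝ) → ℝ} {R : ℝ}
    (hm : ∀ j, AEStronglyMeasurable (F j) volume)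
    (h : Tendsto (fun j => ∫⁻ x in closedBall (0 : Fin d → ℝ) R, ENNReal.ofReal (F j x ^ 2))
      atTop (𝓝 0)) :
    Tendsto (fun j => ∫⁻ x in closedBall (0 : Fin d → ℝ) R, ‖F j x‖ₑ) atTop (𝓝 0) := by
  set V : ℝ≥0∞ := (volume (closedBall (0 : Fin d → ℝ) R)) ^ (1 / (2:ℝ)) with hV
  have hVt : V ≠ ⊤ := by
    rw [hV]
    exact ENNReal.rpow_ne_top_of_nonneg (by norm_num) measure_closedBall_lt_top.ne
  have hlim : Tendsto (fun j => (∫⁻ x in closedBall (0 : Fin d → ℝ) R,
      ENNReal.ofReal (F j x ^ 2)) ^ (1 / (2:ℝ)) * V) atTop (𝓝 0) := by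
    have h1 : Tendsto (fun j => (∫⁻ x in closedBall (0 : Fin d → ℝ) R,
      ENNReal.ofReal (F j x ^ 2)) ^ (1 / (2:ℝ))) atTop (𝓝 ((0 : ℝ≥0∞) ^ (1 / (2:ℝ)))) :=
      (ENNReal.continuous_rpow_const.tendsto _).comp h
    rw [ENNReal.zero_rpow_of_pos (by norm_num)] at h1
    have h2 := ENNReal.Tendsto.mul_const h1 (Or.inr hVt)
    simpa using h2
  refine tendsto_of_tendsto_of_tendsto_of_le_of_le tendsto_const_nhds hlim
    (fun j => zero_le) (fun j => ?_)
  have hH := ENNReal.lintegral_mul_le_Lp_mul_Lq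
    (volume.restrict (closedBall (0 : Fin d → ℝ) R)) (p := 2) (q := 2)
    Real.HolderConjugate.two_two (f := fun x => ‖F j x‖ₑ) (g := fun _ => 1)
    (hm j).enorm.restrict aemeasurable_const
  simp only [Pi.mul_apply, mul_one, ENNReal.one_rpow, lintegral_const, one_mul,
    Measure.restrict_apply MeasurableSet.univ, univ_inter] at hH
  refine hH.trans ?_
  rw [hV]
  gcongr with x
  rw [← ofReal_norm, ENNReal.ofReal_rpow_of_nonneg (norm_nonneg _) (by norm_num)]
  apply ENNReal.ofReal_le_ofReal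
  rw [Real.norm_eq_abs]
  norm_num

private lemma s9_bd0 {d : ℕ} {φ F : (Fin d → ℝ) → ℝ} {R C : ℝ} (hφ : ∀ x, ‖φ x‖ ≤ C)
    (h0 : ∀ x, x ∉ closedBall (0 : Fin d → ℝ) R → φ x = 0) :
    ∫⁻ x, ‖φ x * F x‖ₑ ≤ ENNReal.ofReal C * ∫⁻ x in closedBall (0 : Fin d → ℝ) R, ‖F x‖ₑ := by
  rw [← lintegral_const_mul' _ _ ENNReal.ofReal_ne_top, ← lintegral_indicator measurableSet_closedBall]
  apply lintegral_mono
  intro x
  by_cases hx : x ∈ closedBall (0 : Fin d → ℝ) R
  · simp only [indicator_of_mem hx]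
    rw [enorm_mul]
    gcongr
    rw [← ofReal_norm]
    exact ENNReal.ofReal_le_ofReal (hφ x)
  · simp [h0 x hx]

private lemma s9_bd {d : ℕ} {φ F : (Fin d → ℝ) → ℝ} {R C : ℝ} (hφ : ∀ x, ‖φ x‖ ≤ C)
    (h0 : ∀ x, x ∉ closedBall (0 : Fin d → ℝ) R → φ x = 0) :
    ‖∫ x, φ x * F x‖ₑ ≤ ENNReal.ofReal C * ∫⁻ x in closedBall (0 : Fin d → ℝ) R, ‖F x‖ₑ :=
  (enorm_integral_le_lintegral_enorm _).trans (s9_bd0 hφ h0)

private lemma s9_single {d : ℕ} (i : Fin d) : ‖(Pi.single i (1 : ℝ) : Fin d → ℝ)‖ = 1 := by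
  rw [Pi.norm_single]
  simp

private lemma s9_gr_meas {d : ℕ} (U : (Fin d → ℝ) → ℝ) (i : Fin d) :
    Measurable (fun x => gr U x i) := by
  unfold gr
  exact measurable_fderiv_apply_const ℝ U _

private lemma s9_gr_bd {d : ℕ} {U : (Fin d → ℝ) → ℝ} {K : NNReal} (hU : LipschitzWith K U)
    (i : Fin d) (x : Fin d → ℝ) : ‖gr U x i‖ ≤ K := by
  unfold gr
  refine ((fderiv ℝ U x).le_opNorm _).trans ?_
  rw [s9_single, mul_one]
  exact norm_fderiv_le_of_lipschitz ℝ hU

private lemma s9_parts {d : ℕ} {U φ : (Fin d → ℝ) → ℝ} {K D : NNReal} (hU : LipschitzWith K U)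
    (hφ : LipschitzWith D φ) (hφc : HasCompactSupport φ) (i : Fin d) :
    ∫ x, φ x * gr U x i = ∫ x, lineDeriv ℝ φ x (-Pi.single i (1 : ℝ)) * U x := by
  rw [← hU.integral_lineDeriv_mul_eq hφ hφc (Pi.single i (1 : ℝ))]
  apply integral_congr_ae
  filter_upwards [hU.ae_differentiableAt] with x hx
  rw [hx.lineDeriv_eq_fderiv, mul_comm]
  rfl

private lemma s9_int {d : ℕ} {φ F : (Fin d → ℝ) → ℝ} {R C : ℝ} (hφm : AEStronglyMeasurable φ volume)
    (hφ : ∀ x, ‖φ x‖ ≤ C)
    (h0 : ∀ x, x ∉ closedBall (0 : Fin d → ℝ) R → φ x = 0) (hF : AEStronglyMeasurable F volume)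
    (hfin : ∫⁻ x in closedBall (0 : Fin d → ℝ) R, ‖F x‖ₑ ≠ ⊤) :
    Integrable (fun x => φ x * F x) := by
  refine ⟨hφm.mul hF, ?_⟩
  rw [hasFiniteIntegral_iff_enorm]
  exact (s9_bd0 hφ h0).trans_lt (ENNReal.mul_lt_top ENNReal.ofReal_lt_top hfin.lt_top)

/-- S9 -/
theorem sUniq : SUniq := by
  intro d u g g' hg hg'
  obtain ⟨U, hU, hUt⟩ := hg.app
  obtain ⟨U', hU', hUt'⟩ := hg'.app
  have hgi : ∀ i, AEStronglyMeasurable (fun x => g x i) volume := fun i =>
    (continuous_apply i).comp_aestronglyMeasurable hg.mg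
  have hgi' : ∀ i, AEStronglyMeasurable (fun x => g' x i) volume := fun i =>
    (continuous_apply i).comp_aestronglyMeasurable hg'.mg
  have hUm : ∀ j, AEStronglyMeasurable (U j) volume := fun j => by
    obtain ⟨K, hK⟩ := hU j
    exact hK.continuous.aestronglyMeasurable
  have hUm' : ∀ j, AEStronglyMeasurable (U' j) volume := fun j => by
    obtain ⟨K, hK⟩ := hU' j
    exact hK.continuous.aestronglyMeasurable
  -- generic convergences
  have conv : ∀ {V : ℕ → (Fin d → ℝ) → ℝ} {v : (Fin d → ℝ) → ℝ} {h : (Fin d → ℝ) → (Fin d → ℝ)},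
      (∀ j, AEStronglyMeasurable (V j) volume) → AEStronglyMeasurable v volume →
      (∀ i, AEStronglyMeasurable (fun x => h x i) volume) →
      (∀ R : ℝ, Tendsto (fun j => ∫⁻ x in closedBall 0 R,
        ENNReal.ofReal ((V j x - v x) ^ 2 + sq (gr (V j) x - h x))) atTop (𝓝 0)) →
      ∀ R : ℝ, Tendsto (fun j => ∫⁻ x in closedBall (0 : Fin d → ℝ) R, ‖V j x - v x‖ₑ) atTop (𝓝 0) ∧
        ∀ i, Tendsto (fun j => ∫⁻ x in closedBall (0 : Fin d → ℝ) R, ‖gr (V j) x i - h x i‖ₑ)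
          atTop (𝓝 0) := by
    intro V v h hV hv hh hT R
    refine ⟨s9_L1 (fun j => (hV j).sub hv) ?_, fun i => s9_L1
      (fun j => (s9_gr_meas (V j) i).aestronglyMeasurable.sub (hh i)) ?_⟩
    · refine tendsto_of_tendsto_of_tendsto_of_le_of_le tendsto_const_nhds (hT R)
        (fun j => zero_le) (fun j => ?_)
      exact lintegral_mono (fun x => ENNReal.ofReal_le_ofReal (s9_fst_le _ _))
    · refine tendsto_of_tendsto_of_tendsto_of_le_of_le tendsto_const_nhds (hT R)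
        (fun j => zero_le) (fun j => ?_)
      refine lintegral_mono (fun x => ENNReal.ofReal_le_ofReal ?_)
      have := s9_comp_le (V j x - v x) (gr (V j) x - h x) i
      simpa only [Pi.sub_apply] using this
  have c1 := conv hUm hg.mu hgi hUt
  have c2 := conv hUm' hg'.mu hgi' hUt'
  -- L1 difference
  have hd : ∀ (R : ℝ) (i : Fin d), Tendsto (fun j => ∫⁻ x in closedBall (0 : Fin d → ℝ) R,
      ‖(g x i - g' x i) - (gr (U j) x i - gr (U' j) x i)‖ₑ) atTop (𝓝 0) := by
    intro R i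
    have h1 := ((c1 R).2 i).add ((c2 R).2 i)
    rw [add_zero] at h1
    refine tendsto_of_tendsto_of_tendsto_of_le_of_le tendsto_const_nhds h1
        (fun j => zero_le) (fun j => ?_)
    have hm2 : AEMeasurable (fun x => ‖gr (U' j) x i - g' x i‖ₑ)
        (volume.restrict (closedBall (0 : Fin d → ℝ) R)) :=
      ((s9_gr_meas (U' j) i).aestronglyMeasurable.sub (hgi' i)).enorm.restrict
    simp only
    rw [← lintegral_add_right' _ hm2]
    refine lintegral_mono (fun x => ?_)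
    have : (g x i - g' x i) - (gr (U j) x i - gr (U' j) x i)
        = -(gr (U j) x i - g x i) + (gr (U' j) x i - g' x i) := by ring
    simp only [this]
    refine (enorm_add_le _ _).trans ?_
    rw [enorm_neg]
  have hdm : ∀ i j, AEStronglyMeasurable (fun x => gr (U j) x i - gr (U' j) x i) volume :=
    fun i j => (s9_gr_meas (U j) i).aestronglyMeasurable.sub (s9_gr_meas (U' j) i).aestronglyMeasurable
  have hfinD : ∀ (R : ℝ) (i : Fin d) (j : ℕ), ∫⁻ x in closedBall (0 : Fin d → ℝ) R,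
      ‖gr (U j) x i - gr (U' j) x i‖ₑ ≠ ⊤ := by
    intro R i j
    obtain ⟨K, hK⟩ := hU j
    obtain ⟨K', hK'⟩ := hU' j
    have hb : ∀ x, ‖gr (U j) x i - gr (U' j) x i‖ₑ ≤ ENNReal.ofReal (K + K') := by
      intro x
      rw [← ofReal_norm]
      apply ENNReal.ofReal_le_ofReal
      exact (norm_sub_le _ _).trans (add_le_add (s9_gr_bd hK i x) (s9_gr_bd hK' i x))
    refine ne_top_of_le_ne_top ?_ (lintegral_mono hb)
    rw [lintegral_const, Measure.restrict_apply MeasurableSet.univ, univ_inter]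
    exact (ENNReal.mul_lt_top ENNReal.ofReal_lt_top measure_closedBall_lt_top).ne
  have hfinH : ∀ (R : ℝ) (i : Fin d), ∫⁻ x in closedBall (0 : Fin d → ℝ) R,
      ‖g x i - g' x i‖ₑ ≠ ⊤ := by
    intro R i
    obtain ⟨N, hN⟩ := (ENNReal.tendsto_atTop_zero.mp (hd R i)) 1 (by norm_num)
    have h1 := hN N le_rfl
    have h2 : ∫⁻ x in closedBall (0 : Fin d → ℝ) R, ‖g x i - g' x i‖ₑ ≤
        (∫⁻ x in closedBall (0 : Fin d → ℝ) R,
          ‖(g x i - g' x i) - (gr (U N) x i - gr (U' N) x i)‖ₑ)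
        + ∫⁻ x in closedBall (0 : Fin d → ℝ) R, ‖gr (U N) x i - gr (U' N) x i‖ₑ := by
      rw [← lintegral_add_right' _ (hdm i N).enorm.restrict]
      refine lintegral_mono (fun x => ?_)
      have h3 := enorm_add_le ((g x i - g' x i) - (gr (U N) x i - gr (U' N) x i))
        (gr (U N) x i - gr (U' N) x i)
      simpa using h3
    exact ne_top_of_le_ne_top (ENNReal.add_ne_top.mpr
      ⟨ne_top_of_le_ne_top (by norm_num) h1, hfinD R i N⟩) h2
  -- the main claim
  have main : ∀ i, ∀ᵐ x ∂(volume : Measure (Fin d → ℝ)), g x i - g' x i = 0 := by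
    intro i
    apply ae_eq_zero_of_integral_contDiff_smul_eq_zero
    · rw [locallyIntegrable_iff]
      intro k hk
      obtain ⟨R, hR⟩ := hk.isBounded.subset_closedBall (0 : Fin d → ℝ)
      refine IntegrableOn.mono_set ⟨((hgi i).sub (hgi' i)).restrict, ?_⟩ hR
      rw [hasFiniteIntegral_iff_enorm]
      exact (hfinH R i).lt_top
    · intro φ hφ hφc
      obtain ⟨D, hD⟩ := ContDiff.lipschitzWith_of_hasCompactSupport hφc hφ (by simp)
      obtain ⟨R, hR⟩ := hφc.isCompact.isBounded.subset_closedBall (0 : Fin d → ℝ)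
      obtain ⟨C, hC⟩ := hφ.continuous.bounded_above_of_compact_support hφc
      have hφ0 : ∀ x, x ∉ closedBall (0 : Fin d → ℝ) R → φ x = 0 := by
        intro x hx
        exact image_eq_zero_of_notMem_tsupport (fun h => hx (hR h))
      set ψ : (Fin d → ℝ) → ℝ := fun x => lineDeriv ℝ φ x (-Pi.single i (1 : ℝ)) with hψ
      have hψb : ∀ x, ‖ψ x‖ ≤ D := by
        intro x
        have := norm_lineDeriv_le_of_lipschitz ℝ (x₀ := x) (v := -Pi.single i (1 : ℝ)) hD
        rw [norm_neg, s9_single, mul_one] at this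
        exact this
      have hψ0 : ∀ x, x ∉ closedBall (0 : Fin d → ℝ) R → ψ x = 0 := by
        intro x hx
        have h1 : fderiv ℝ φ x = 0 := fderiv_of_notMem_tsupport ℝ (fun h => hx (hR h))
        have h2 : DifferentiableAt ℝ φ x := (hφ.differentiable (by simp)).differentiableAt
        simp only [hψ]
        rw [h2.lineDeriv_eq_fderiv, h1]
        simp
      have hψm : AEStronglyMeasurable ψ volume :=
        (measurable_lineDeriv hφ.continuous).aestronglyMeasurable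
      have hφm : AEStronglyMeasurable φ volume := hφ.continuous.aestronglyMeasurable
      have key : ∀ᶠ j in atTop, ‖∫ x, φ x * (g x i - g' x i)‖ₑ ≤
          ENNReal.ofReal C * (∫⁻ x in closedBall (0 : Fin d → ℝ) R,
            ‖(g x i - g' x i) - (gr (U j) x i - gr (U' j) x i)‖ₑ)
          + ENNReal.ofReal D * ((∫⁻ x in closedBall (0 : Fin d → ℝ) R, ‖U j x - u x‖ₑ)
            + ∫⁻ x in closedBall (0 : Fin d → ℝ) R, ‖U' j x - u x‖ₑ) := by
        have e1 := (ENNReal.tendsto_atTop_zero.mp (hd R i)) 1 (by norm_num)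
        have e2 := (ENNReal.tendsto_atTop_zero.mp (c1 R).1) 1 (by norm_num)
        have e3 := (ENNReal.tendsto_atTop_zero.mp (c2 R).1) 1 (by norm_num)
        obtain ⟨N1, hN1⟩ := e1
        obtain ⟨N2, hN2⟩ := e2
        obtain ⟨N3, hN3⟩ := e3
        filter_upwards [eventually_ge_atTop N1, eventually_ge_atTop N2, eventually_ge_atTop N3]
          with j hj1 hj2 hj3
        obtain ⟨K, hK⟩ := hU j
        obtain ⟨K', hK'⟩ := hU' j
        have f1 := ne_top_of_le_ne_top (by norm_num) (hN1 j hj1)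
        have i1 : Integrable (fun x => φ x * ((g x i - g' x i) - (gr (U j) x i - gr (U' j) x i))) :=
          s9_int hφm hC hφ0 (((hgi i).sub (hgi' i)).sub (hdm i j)) f1
        have i2 : Integrable (fun x => φ x * (gr (U j) x i - gr (U' j) x i)) :=
          s9_int hφm hC hφ0 (hdm i j) (hfinD R i j)
        have bU : ∀ {W : (Fin d → ℝ) → ℝ} {K : NNReal}, LipschitzWith K W →
            Integrable (fun x => φ x * gr W x i) := by
          intro W K hW
          refine s9_int hφm hC hφ0 (s9_gr_meas W i).aestronglyMeasurable ?_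
          have hb : ∀ x, ‖gr W x i‖ₑ ≤ ENNReal.ofReal K := by
            intro x
            rw [← ofReal_norm]
            exact ENNReal.ofReal_le_ofReal (s9_gr_bd hW i x)
          refine ne_top_of_le_ne_top ?_ (lintegral_mono hb)
          rw [lintegral_const, Measure.restrict_apply MeasurableSet.univ, univ_inter]
          exact (ENNReal.mul_lt_top ENNReal.ofReal_lt_top measure_closedBall_lt_top).ne
        have bW : ∀ {W : (Fin d → ℝ) → ℝ} {K : NNReal}, LipschitzWith K W →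
            Integrable (fun x => ψ x * W x) := by
          intro W K hW
          refine s9_int hψm hψb hψ0 hW.continuous.aestronglyMeasurable ?_
          have h1 : IntegrableOn W (closedBall (0 : Fin d → ℝ) R) :=
            hW.continuous.continuousOn.integrableOn_compact (isCompact_closedBall _ _)
          exact (hasFiniteIntegral_iff_enorm.mp h1.2).ne
        have eq1 : ∫ x, φ x * (gr (U j) x i - gr (U' j) x i) = ∫ x, ψ x * (U j x - U' j x) := by
          have a1 : ∫ x, φ x * (gr (U j) x i - gr (U' j) x i)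
              = (∫ x, φ x * gr (U j) x i) - ∫ x, φ x * gr (U' j) x i := by
            rw [← integral_sub (bU hK) (bU hK')]
            congr 1; funext x; ring
          have a2 : ∫ x, ψ x * (U j x - U' j x)
              = (∫ x, ψ x * U j x) - ∫ x, ψ x * U' j x := by
            rw [← integral_sub (bW hK) (bW hK')]
            congr 1; funext x; ring
          rw [a1, a2, s9_parts hK hD hφc i, s9_parts hK' hD hφc i]
        have eq2 : ∫ x, φ x * (g x i - g' x i)
            = (∫ x, φ x * ((g x i - g' x i) - (gr (U j) x i - gr (U' j) x i)))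
              + ∫ x, ψ x * (U j x - U' j x) := by
          rw [← eq1, ← integral_add i1 i2]
          congr 1; funext x; ring
        rw [eq2]
        refine (enorm_add_le _ _).trans (add_le_add (s9_bd hC hφ0) ?_)
        refine (s9_bd hψb hψ0).trans ?_
        gcongr
        have hm3 : AEMeasurable (fun x => ‖U' j x - u x‖ₑ)
            (volume.restrict (closedBall (0 : Fin d → ℝ) R)) :=
          ((hUm' j).sub hg.mu).enorm.restrict
        rw [← lintegral_add_right' _ hm3]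
        refine lintegral_mono (fun x => ?_)
        have h3 : U j x - U' j x = (U j x - u x) + -(U' j x - u x) := by ring
        simp only [h3]
        refine (enorm_add_le _ _).trans ?_
        rw [enorm_neg]
      have lim : Tendsto (fun j => ENNReal.ofReal C * (∫⁻ x in closedBall (0 : Fin d → ℝ) R,
            ‖(g x i - g' x i) - (gr (U j) x i - gr (U' j) x i)‖ₑ)
          + ENNReal.ofReal D * ((∫⁻ x in closedBall (0 : Fin d → ℝ) R, ‖U j x - u x‖ₑ)
            + ∫⁻ x in closedBall (0 : Fin d → ℝ) R, ‖U' j x - u x‖ₑ)) atTop (𝓝 0) := by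
        have l1 := ENNReal.Tendsto.const_mul (a := ENNReal.ofReal C) (hd R i)
          (Or.inr ENNReal.ofReal_ne_top)
        have l2 := ENNReal.Tendsto.const_mul (a := ENNReal.ofReal D) ((c1 R).1.add (c2 R).1)
          (Or.inr ENNReal.ofReal_ne_top)
        simpa using l1.add l2
      have hz : ‖∫ x, φ x * (g x i - g' x i)‖ₑ ≤ 0 := ge_of_tendsto lim key
      have hz' : ∫ x, φ x * (g x i - g' x i) = 0 := by
        rw [← enorm_eq_zero]
        exact le_antisymm hz zero_le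
      simpa [smul_eq_mul] using hz'
  rw [← ae_all_iff] at main
  filter_upwards [main] with x hx
  funext i
  exact sub_eq_zero.mp (hx i)

end Pool.Agent.Work.MP_85f2da_an

end

section

set_option autoImplicit false

namespace Pool.Agent.Work.MP_85f2da_an

/-- perturbation of one denominator -/
theorem a7_one (D e P : ℝ) (hD : 1 / 20 ≤ D) (he : 0 ≤ e) (he' : e ≤ 1 / 500) :
    P ^ 2 / (D - e) ≤ P ^ 2 / D + 500 * e * P ^ 2 := by
  have h1 : 0 < D := by linarith
  have h2 : 0 < D - e := by linarith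
  have h3 : 1 / 500 ≤ D * (D - e) := by nlinarith
  have h4 : 1 / (D - e) ≤ 1 / D + 500 * e := by
    rw [div_add' _ _ _ h1.ne', div_le_div_iff₀ h2 h1]
    nlinarith [mul_nonneg he (sub_nonneg.2 h3)]
  have h5 := mul_le_mul_of_nonneg_left h4 (sq_nonneg P)
  calc P ^ 2 / (D - e) = P ^ 2 * (1 / (D - e)) := by ring
    _ ≤ P ^ 2 * (1 / D + 500 * e) := h5
    _ = P ^ 2 / D + 500 * e * P ^ 2 := by ring

theorem aCost : ACost := by
  intro δ y N T hδ hδ' hy
  have hy1 := abs_le.1 hy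
  have hy2 : y ^ 2 ≤ 1 := by nlinarith
  have he : 0 ≤ 2 * δ * y ^ 2 := by positivity
  have he' : 2 * δ * y ^ 2 ≤ 1 / 500 := by nlinarith [mul_nonneg hδ.le (sub_nonneg.2 hy2)]
  have h1 := a7_one (1 + y) (2 * δ * y ^ 2) ((N + T) / 2) (by linarith) he he'
  have h2 := a7_one (1 - y) (2 * δ * y ^ 2) ((N - T) / 2) (by linarith) he he'
  have p1 : 0 < 1 + y := by linarith
  have p2 : 0 < 1 - y := by linarith
  have p3 : 0 < 1 - y ^ 2 := by nlinarith
  have h3 : ((N + T) / 2) ^ 2 / (1 + y) + ((N - T) / 2) ^ 2 / (1 - y)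
      = N ^ 2 / 2 + (T - y * N) ^ 2 / (2 * (1 - y ^ 2)) := by
    have e1 : (1 - y ^ 2) = (1 + y) * (1 - y) := by ring
    rw [e1]
    field_simp
    ring
  have h4 : 500 * (2 * δ * y ^ 2) * ((N + T) / 2) ^ 2 + 500 * (2 * δ * y ^ 2) * ((N - T) / 2) ^ 2
      = 500 * δ * y ^ 2 * (N ^ 2 + T ^ 2) := by ring
  have h5 : 0 ≤ δ * y ^ 2 * (N ^ 2 + T ^ 2) := by positivity
  linarith

end Pool.Agent.Work.MP_85f2da_an

end

section

set_option autoImplicit false

/-!
# Item E2: the unit translation crosses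
-/

open MeasureTheory Filter Set Metric
open scoped ENNReal Topology ContDiff

namespace Pool.Agent.Work.MP_85f2da_an

theorem e2_shift (f : (Fin 4 → ℝ) → ℝ) (c v : Fin 4 → ℝ) (ρ : ℝ) :
    ∫ z in closedBall (c + v) ρ, f z = ∫ z in closedBall c ρ, f (z + v) := by
  have h1 : (fun z : Fin 4 → ℝ => z + v) ⁻¹' closedBall (c + v) ρ = closedBall c ρ := by
    ext z
    simp [dist_eq_norm]
  rw [← h1, (measurePreserving_add_right volume v).setIntegral_preimage_emb
    (measurableEmbedding_addRight v)]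

theorem e2_Hv_mono (a b : ℝ) (ha : 0 ≤ a) (hab : a ≤ b) (hb : b ≤ 1) : Hv a ≤ Hv b := by
  unfold Hv
  have hpi := Real.pi_pos
  have h1 : Real.cos (Real.pi * b) ≤ Real.cos (Real.pi * a) :=
    Real.cos_le_cos_of_nonneg_of_le_pi (by positivity) (by nlinarith) (by nlinarith)
  gcongr

theorem e2_Hv_one : Hv 1 = 2 / Real.pi ^ 2 := by
  unfold Hv
  rw [mul_one, Real.cos_pi]
  norm_num

theorem e2_Hv_cont : Continuous Hv := by
  unfold Hv
  fun_prop

theorem e2_iter (u : (Fin 4 → ℝ) → ℝ) (e : Fin 4 → ℝ) (h : ∀ z, u z ≤ u (z + e)) (n : ℕ)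
    (z : Fin 4 → ℝ) : u z ≤ u (z + (n : ℝ) • e) := by
  induction n with
  | zero => simp
  | succ n ih =>
    refine ih.trans ((h _).trans (le_of_eq ?_))
    congr 1
    push_cast
    rw [add_smul, one_smul, add_assoc]

theorem e2_core (C : ℝ) (u : (Fin 4 → ℝ) → ℝ) (hu : Continuous u) (h01 : ∀ x, 0 ≤ u x ∧ u x ≤ 1)
    (a b : ℕ → Fin 4 → ℝ)
    (hA : ∀ n : ℕ, 4 ≤ n →
      ∫ z in closedBall (a n) ((n : ℝ) / 100), (Hv 1 - Hv (u z)) ≤ C * n)
    (hB : ∀ n : ℕ, 4 ≤ n → ∫ z in closedBall (b n) ((n : ℝ) / 100), Hv (u z) ≤ C * n)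
    (hab : ∀ n z, u z ≤ u (z + (b n - a n))) : False := by
  obtain ⟨n, hn⟩ := exists_nat_gt (max 4 (|C| * Real.pi ^ 2 * 50 ^ 4))
  have hn4 : (4 : ℝ) < n := lt_of_le_of_lt (le_max_left _ _) hn
  have hnC : |C| * Real.pi ^ 2 * 50 ^ 4 < n := lt_of_le_of_lt (le_max_right _ _) hn
  have hn4' : 4 ≤ n := by
    have : 4 < n := by exact_mod_cast hn4
    omega
  have h1 := hA n hn4'
  have h2 := hB n hn4'
  have hbn : b n = a n + (b n - a n) := by abel
  rw [hbn, e2_shift] at h2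
  have hc1 : Continuous fun z => Hv (u z) := e2_Hv_cont.comp hu
  have hc2 : Continuous fun z => Hv (u (z + (b n - a n))) := hc1.comp (by fun_prop)
  have hcomp : IsCompact (closedBall (a n) ((n : ℝ) / 100)) := isCompact_closedBall _ _
  have hi1 : IntegrableOn (fun z => Hv (u z)) (closedBall (a n) ((n : ℝ) / 100)) :=
    hc1.continuousOn.integrableOn_compact hcomp
  have hi2 : IntegrableOn (fun z => Hv (u (z + (b n - a n)))) (closedBall (a n) ((n : ℝ) / 100)) :=
    hc2.continuousOn.integrableOn_compact hcomp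
  have h3 : ∫ z in closedBall (a n) ((n : ℝ) / 100), Hv (u z) ≤
      ∫ z in closedBall (a n) ((n : ℝ) / 100), Hv (u (z + (b n - a n))) :=
    setIntegral_mono hi1 hi2 fun z => e2_Hv_mono _ _ (h01 _).1 (hab n z) (h01 _).2
  have hvol : volume.real (closedBall (a n) ((n : ℝ) / 100)) = (2 * ((n : ℝ) / 100)) ^ 4 := by
    rw [Measure.real, Real.volume_pi_closedBall _ (by positivity)]
    rw [ENNReal.toReal_ofReal (by positivity)]
    simp
  have h4 : ∫ z in closedBall (a n) ((n : ℝ) / 100), (Hv 1 - Hv (u z)) =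
      (2 * ((n : ℝ) / 100)) ^ 4 * Hv 1 - ∫ z in closedBall (a n) ((n : ℝ) / 100), Hv (u z) := by
    have hi0 : IntegrableOn (fun _ : Fin 4 → ℝ => Hv 1) (closedBall (a n) ((n : ℝ) / 100)) :=
      continuousOn_const.integrableOn_compact hcomp
    rw [integral_sub hi0 hi1, setIntegral_const, hvol, smul_eq_mul]
  rw [h4] at h1
  have h5 : (2 * ((n : ℝ) / 100)) ^ 4 * Hv 1 ≤ 2 * (C * n) := by linarith
  rw [e2_Hv_one] at h5
  have hpi : 0 < Real.pi ^ 2 := by positivity
  have hn0 : (0 : ℝ) < n := by linarith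
  have h6 : (2 * ((n : ℝ) / 100)) ^ 4 ≤ C * n * Real.pi ^ 2 := by
    have h7 : (2 * ((n : ℝ) / 100)) ^ 4 * (2 / Real.pi ^ 2) =
      2 * (2 * ((n : ℝ) / 100)) ^ 4 / Real.pi ^ 2 := by ring
    rw [h7, div_le_iff₀ hpi] at h5
    linarith
  have h8 : C * n * Real.pi ^ 2 ≤ |C| * Real.pi ^ 2 * n := by
    have : C * (n * Real.pi ^ 2) ≤ |C| * (n * Real.pi ^ 2) :=
      mul_le_mul_of_nonneg_right (le_abs_self C) (by positivity)
    linarith
  have h9 : (2 * ((n : ℝ) / 100)) ^ 4 * 50 ^ 4 = n ^ 4 := by ring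
  have h10 : (n : ℝ) ^ 4 ≤ |C| * Real.pi ^ 2 * 50 ^ 4 * n := by
    rw [← h9]
    calc (2 * ((n : ℝ) / 100)) ^ 4 * 50 ^ 4 ≤ (|C| * Real.pi ^ 2 * n) * 50 ^ 4 :=
          mul_le_mul_of_nonneg_right (h6.trans h8) (by positivity)
      _ = |C| * Real.pi ^ 2 * 50 ^ 4 * n := by ring
  have h11 : |C| * Real.pi ^ 2 * 50 ^ 4 * n < n * n := mul_lt_mul_of_pos_right hnC hn0
  have h12 : (n : ℝ) * n ≤ n ^ 4 := by
    have : (1 : ℝ) ≤ (n : ℝ) ^ 2 := one_le_pow₀ (by linarith)
    nlinarith [mul_pos hn0 hn0]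
  linarith

theorem eCross : ECross := by
  intro C u hlip h01 hph
  obtain ⟨K, hK⟩ := hlip
  have hu : Continuous u := hK.continuous
  refine ⟨?_, ?_⟩
  · by_contra hcon
    push Not at hcon
    refine e2_core C u hu h01 (fun n => (n : ℝ) • (![(-1) * (36 / 25), 0, 4 / 5, 0] : Fin 4 → ℝ))
      (fun n => (n : ℝ) • (![(-1) * (11 / 25), 0, 4 / 5, 0] : Fin 4 → ℝ))
      (fun n hn => (hph n (-1) (by exact_mod_cast hn) (Or.inr rfl)).1)
      (fun n hn => (hph n (-1) (by exact_mod_cast hn) (Or.inr rfl)).2) ?_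
    intro n z
    have h1 := e2_iter u (Pi.single 0 1) hcon n z
    have h2 : (n : ℝ) • (![(-1) * (11 / 25), 0, 4 / 5, 0] : Fin 4 → ℝ) -
        (n : ℝ) • (![(-1) * (36 / 25), 0, 4 / 5, 0] : Fin 4 → ℝ) =
        (n : ℝ) • (Pi.single 0 1 : Fin 4 → ℝ) := by
      ext i
      fin_cases i
      · simp
        ring
      · simp
      · simp
      · simp
    simp only [h2]
    exact h1
  · by_contra hcon
    push Not at hcon
    refine e2_core C u hu h01 (fun n => (n : ℝ) • (![1 * (36 / 25), 0, 4 / 5, 0] : Fin 4 → ℝ))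
      (fun n => (n : ℝ) • (![1 * (11 / 25), 0, 4 / 5, 0] : Fin 4 → ℝ))
      (fun n hn => (hph n 1 (by exact_mod_cast hn) (Or.inl rfl)).1)
      (fun n hn => (hph n 1 (by exact_mod_cast hn) (Or.inl rfl)).2) ?_
    intro n z
    have h1 := e2_iter u (-(Pi.single 0 1)) (fun w => by
      have := hcon (w + -(Pi.single 0 1))
      simpa using this) n z
    have h2 : (n : ℝ) • (![1 * (11 / 25), 0, 4 / 5, 0] : Fin 4 → ℝ) -
        (n : ℝ) • (![1 * (36 / 25), 0, 4 / 5, 0] : Fin 4 → ℝ) =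
        (n : ℝ) • (-(Pi.single 0 1) : Fin 4 → ℝ) := by
      ext i
      fin_cases i
      · simp
        ring
      · simp
      · simp
      · simp
    simp only [h2]
    exact h1

end Pool.Agent.Work.MP_85f2da_an

end

section

set_option autoImplicit false

namespace Pool.Agent.Work.MP_85f2da_an

theorem a5_neg (δ : ℝ) (p : Fin 4 → ℝ) : Lam4 δ (-p) = Lam4 δ p := by
  simp [Lam4, A1, A2]

theorem a5_zero (δ : ℝ) (hδ : 0 < δ) : Lam4 δ 0 = 0 := by
  have : Real.sqrt (δ ^ 2) = δ := Real.sqrt_sq hδ.le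
  simp [Lam4, A1, A2, this]

theorem a5_gr (δ : ℝ) (hd : DifferentiableAt ℝ (Lam4 δ) 0) : gr (Lam4 δ) 0 = 0 := by
  have h : fderiv ℝ (Lam4 δ) 0 = 0 := by
    have e : (fun p => Lam4 δ (-p)) = Lam4 δ := funext (a5_neg δ)
    have h0 : HasFDerivAt (Lam4 δ) (fderiv ℝ (Lam4 δ) 0) (-0) := by
      rw [neg_zero]
      exact hd.hasFDerivAt
    have h1 := h0.comp (0 : Fin 4 → ℝ) (hasFDerivAt_id (𝕜 := ℝ) (0 : Fin 4 → ℝ)).neg
    have h2 : HasFDerivAt (Lam4 δ) _ (0 : Fin 4 → ℝ) := h1.congr_of_eventuallyEq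
      (Filter.Eventually.of_forall fun p => (a5_neg δ p).symm)
    have h3 := h2.unique hd.hasFDerivAt
    ext ξ
    have h4 := congrArg (fun L : (Fin 4 → ℝ) →L[ℝ] ℝ => L ξ) h3
    simp at h4
    have : fderiv ℝ (Lam4 δ) 0 ξ = 0 := by linarith
    simpa using this
  ext i
  simp [gr, h]

theorem aDatEx (h1 : ASmooth) (h2 : AHess) (h3 : ADat) (h4 : APot) : ADatEx := by
  intro δ hδ hδ'
  obtain ⟨M, hM, hH⟩ := h2 δ hδ hδ'
  have hM1 : (1 : ℝ) ≤ max M 1 := le_max_right _ _
  have hMM : M ≤ max M 1 := le_max_left _ _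
  have hM0 : 0 < max M 1 := by linarith
  have hz : Lam4 δ 0 = 0 := a5_zero δ hδ
  have hg : gr (Lam4 δ) 0 = 0 := a5_gr δ ((h1 δ hδ).differentiable (by simp) 0)
  obtain ⟨c1, c2, c3, c4, c5, c6, c7⟩ := h3 4 (Lam4 δ) (1 / 1000) (max M 1)
    ((h1 δ hδ).of_le (WithTop.coe_le_coe.2 le_top)) (by norm_num) hM0
    (fun p ξ => ⟨(hH p ξ).1, (hH p ξ).2.trans (mul_le_mul_of_nonneg_right hMM
      (Finset.sum_nonneg fun i _ => sq_nonneg _))⟩) hz hg
  obtain ⟨f1, f2, f3, f4, f5, f6, f7, f8, f9, f10⟩ := h4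
  have hFd : Continuous (deriv Fv) := f5.continuous_deriv (by simp)
  refine ⟨⟨Lam4 δ, gr (Lam4 δ), Fv, deriv Fv, 1 / 1000, max M 1, by norm_num, hM0,
    (h1 δ hδ).continuous, c1, f5.continuous, hFd, hz, hg, c2, c3, c4, c5, c6, c7, f1,
    fun v => (f2 v).trans hM1, f3, f4, ?_, ?_, fun v => (f9 v).trans hM1⟩, rfl, rfl⟩
  · intro v s
    refine (f7 v s).trans ?_
    have := mul_le_mul_of_nonneg_right hM1 (sq_nonneg s)
    linarith
  · intro v w
    refine (f8 v w).trans ?_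
    have := mul_le_mul_of_nonneg_right hM1 (abs_nonneg (v - w))
    linarith

end Pool.Agent.Work.MP_85f2da_an

end

section

set_option autoImplicit false

/-!
# C11: decay of the phases
-/

open MeasureTheory Filter Set Metric
open scoped ENNReal Topology ContDiff

namespace Pool.Agent.Work.MP_85f2da_an

/-! ### functions of one variable -/

/-- square of the positive part -/
noncomputable def c11_pp (t : ℝ) : ℝ := (max 0 t) ^ 2

theorem c11_pp_deriv (t : ℝ) : HasDerivAt c11_pp (2 * max 0 t) t := by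
  rcases lt_trichotomy t 0 with ht | rfl | ht
  · rw [max_eq_left ht.le, mul_zero]
    refine (hasDerivAt_const t (0 : ℝ)).congr_of_eventuallyEq ?_
    filter_upwards [eventually_lt_nhds ht] with x hx
    simp only [c11_pp]
    rw [max_eq_left hx.le]
    norm_num
  · rw [max_self, mul_zero, hasDerivAt_iff_isLittleO_nhds_zero]
    have h1 : (fun h : ℝ => c11_pp (0 + h) - c11_pp 0 - h • (0 : ℝ)) =O[𝓝 0] fun h => h ^ 2 := by
      refine Asymptotics.IsBigO.of_bound 1 (Eventually.of_forall fun h => ?_)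
      simp only [c11_pp, zero_add, max_self, smul_zero, sub_zero, one_mul]
      rw [Real.norm_eq_abs, Real.norm_eq_abs, abs_of_nonneg (sq_nonneg h)]
      rcases le_total h 0 with h0 | h0
      · rw [max_eq_left h0, sub_self, abs_zero]
        exact sq_nonneg h
      · rw [max_eq_right h0, zero_pow two_ne_zero, sub_zero, abs_of_nonneg (sq_nonneg h)]
    exact h1.trans_isLittleO (Asymptotics.isLittleO_pow_id one_lt_two)
  · rw [max_eq_right ht.le]
    have h1 := (hasDerivAt_pow 2 t)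
    simp only [Nat.cast_ofNat, Nat.add_one_sub_one, pow_one] at h1
    refine h1.congr_of_eventuallyEq ?_
    filter_upwards [eventually_gt_nhds ht] with x hx
    simp only [c11_pp]
    rw [max_eq_right hx.le]

theorem c11_pp_lip : LocallyLipschitz c11_pp := by
  have h1 : LocallyLipschitz fun t : ℝ => max (0 : ℝ) t :=
    (LocallyLipschitz.const 0).max LocallyLipschitz.id
  have h2 : LocallyLipschitz fun t : ℝ => t ^ 2 :=
    (contDiff_id.pow 2 : ContDiff ℝ 1 fun t : ℝ => t ^ 2).locallyLipschitz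
  exact h2.comp h1

/-- the angular cut off -/
noncomputable def c11_kap (w : ℝ) : ℝ := c11_pp ((w - 1 / 4) * (1 / 3 - w))

theorem c11_kap_nonneg (w : ℝ) : 0 ≤ c11_kap w := sq_nonneg _

theorem c11_kap_le (w : ℝ) : c11_kap w ≤ 1 := by
  unfold c11_kap c11_pp
  have h1 : max 0 ((w - 1 / 4) * (1 / 3 - w)) ≤ 1 :=
    max_le zero_le_one (by nlinarith [sq_nonneg (w - 7 / 24)])
  exact pow_le_one₀ (le_max_left _ _) h1

theorem c11_kap_zero (w : ℝ) (h : ¬ (1 / 4 < w ∧ w < 1 / 3)) : c11_kap w = 0 := by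
  unfold c11_kap c11_pp
  rw [max_eq_left]
  · norm_num
  · rw [not_and_or, not_lt, not_lt] at h
    rcases h with h | h <;> nlinarith

theorem c11_kap_low (w : ℝ) (h1 : 268 / 1000 ≤ w) (h2 : w ≤ 313 / 1000) :
    1 / 10 ^ 8 ≤ c11_kap w := by
  unfold c11_kap c11_pp
  have h3 : (1 : ℝ) / 10 ^ 4 ≤ (w - 1 / 4) * (1 / 3 - w) := by nlinarith
  rw [max_eq_right (by linarith [show (0 : ℝ) < 1 / 10 ^ 4 by norm_num])]
  calc (1 : ℝ) / 10 ^ 8 = (1 / 10 ^ 4) ^ 2 := by norm_num
    _ ≤ _ := pow_le_pow_left₀ (by norm_num) h3 2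

theorem c11_kap_diff (w : ℝ) : ∃ k', HasDerivAt c11_kap k' w := by
  have h1 : HasDerivAt (fun w : ℝ => (w - 1 / 4) * (1 / 3 - w))
      (1 * (1 / 3 - w) + (w - 1 / 4) * (-1)) w :=
    ((hasDerivAt_id w).sub_const _).mul ((hasDerivAt_id w).const_sub _)
  exact ⟨_, (c11_pp_deriv _).comp w h1⟩

/-- the radial function -/
noncomputable def c11_G (u : ℝ) : ℝ := c11_pp (u - 1) - 2 * c11_pp (u - 2) + c11_pp (u - 3)

/-- its derivative -/
noncomputable def c11_G' (u : ℝ) : ℝ :=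
  2 * max 0 (u - 1) - 2 * (2 * max 0 (u - 2)) + 2 * max 0 (u - 3)

theorem c11_G_deriv (u : ℝ) : HasDerivAt c11_G (c11_G' u) u := by
  have h : ∀ c : ℝ, HasDerivAt (fun u => c11_pp (u - c)) (2 * max 0 (u - c)) u := by
    intro c
    have := (c11_pp_deriv (u - c)).comp u ((hasDerivAt_id u).sub_const c)
    rw [mul_one] at this
    exact this
  exact ((h 1).sub ((h 2).const_mul 2)).add (h 3)

theorem c11_G_zero (u : ℝ) (h : u ≤ 1) : c11_G u = 0 := by
  unfold c11_G c11_pp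
  rw [max_eq_left (by linarith), max_eq_left (by linarith), max_eq_left (by linarith)]
  norm_num

theorem c11_G'_zero (u : ℝ) (h : u ≤ 1) : c11_G' u = 0 := by
  unfold c11_G'
  rw [max_eq_left (by linarith), max_eq_left (by linarith), max_eq_left (by linarith)]
  norm_num

theorem c11_G_bd (u : ℝ) : 0 ≤ c11_G u ∧ c11_G u ≤ 2 := by
  unfold c11_G c11_pp
  rcases le_total u 1 with h1 | h1
  · rw [max_eq_left (by linarith), max_eq_left (by linarith), max_eq_left (by linarith)]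
    norm_num
  rcases le_total u 2 with h2 | h2
  · rw [max_eq_right (by linarith), max_eq_left (by linarith), max_eq_left (by linarith)]
    constructor <;> nlinarith
  rcases le_total u 3 with h3 | h3
  · rw [max_eq_right (by linarith), max_eq_right (by linarith), max_eq_left (by linarith)]
    constructor <;> nlinarith
  · rw [max_eq_right (by linarith), max_eq_right (by linarith), max_eq_right (by linarith)]
    constructor <;> nlinarith

theorem c11_G'_bd (u : ℝ) : 0 ≤ c11_G' u ∧ c11_G' u ≤ 2 := by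
  unfold c11_G'
  rcases le_total u 1 with h1 | h1
  · rw [max_eq_left (by linarith), max_eq_left (by linarith), max_eq_left (by linarith)]
    norm_num
  rcases le_total u 2 with h2 | h2
  · rw [max_eq_right (by linarith), max_eq_left (by linarith), max_eq_left (by linarith)]
    constructor <;> linarith
  rcases le_total u 3 with h3 | h3
  · rw [max_eq_right (by linarith), max_eq_right (by linarith), max_eq_left (by linarith)]
    constructor <;> linarith
  · rw [max_eq_right (by linarith), max_eq_right (by linarith), max_eq_right (by linarith)]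
    constructor <;> linarith

theorem c11_G'_low (u : ℝ) (h1 : 6 / 5 ≤ u) (h2 : u ≤ 12 / 5) : 2 / 5 ≤ c11_G' u := by
  unfold c11_G'
  rcases le_total u 2 with h3 | h3
  · rw [max_eq_right (by linarith), max_eq_left (by linarith), max_eq_left (by linarith)]
    linarith
  · rw [max_eq_right (by linarith), max_eq_right (by linarith), max_eq_left (by linarith)]
    linarith

theorem c11_G_lip : LocallyLipschitz c11_G := by
  have hs : ∀ c : ℝ, LocallyLipschitz fun u : ℝ => c11_pp (u - c) := fun c =>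
    c11_pp_lip.comp (contDiff_id.sub contDiff_const :
      ContDiff ℝ 1 fun u : ℝ => u - c).locallyLipschitz
  have h1 : LocallyLipschitz fun q : ℝ × ℝ × ℝ => q.1 - 2 * q.2.1 + q.2.2 :=
    (by fun_prop : ContDiff ℝ 1 fun q : ℝ × ℝ × ℝ => q.1 - 2 * q.2.1 + q.2.2).locallyLipschitz
  exact h1.comp ((hs 1).prodMk ((hs 2).prodMk (hs 3)))

theorem c11_kap_lip : LocallyLipschitz c11_kap :=
  c11_pp_lip.comp (by fun_prop : ContDiff ℝ 1 fun w : ℝ =>
    (w - 1 / 4) * (1 / 3 - w)).locallyLipschitz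

/-! ### the lengths -/

theorem c11_nx_eq (z : Fin 4 → ℝ) : nx z = ‖(⟨z 0, z 1⟩ : ℂ)‖ := by
  rw [nx, Complex.norm_eq_sqrt_sq_add_sq]

theorem c11_ny_eq (z : Fin 4 → ℝ) : ny z = ‖(⟨z 2, z 3⟩ : ℂ)‖ := by
  rw [ny, Complex.norm_eq_sqrt_sq_add_sq]

theorem c11_norm_aux (a b c e : ℝ) (z : ℝ) (h1 : |a - c| ≤ z) (h2 : |b - e| ≤ z) :
    |‖(⟨a, b⟩ : ℂ)‖ - ‖(⟨c, e⟩ : ℂ)‖| ≤ 2 * z := by
  refine (abs_norm_sub_norm_le _ _).trans ((Complex.norm_le_abs_re_add_abs_im _).trans ?_)
  simp only [Complex.sub_re, Complex.sub_im]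
  linarith

theorem c11_nx_lip : LipschitzWith 2 nx := by
  refine LipschitzWith.of_dist_le_mul fun x y => ?_
  rw [Real.dist_eq, c11_nx_eq, c11_nx_eq]
  exact c11_norm_aux _ _ _ _ _ (by rw [← Real.dist_eq]; exact dist_le_pi_dist x y 0)
    (by rw [← Real.dist_eq]; exact dist_le_pi_dist x y 1)

theorem c11_ny_lip : LipschitzWith 2 ny := by
  refine LipschitzWith.of_dist_le_mul fun x y => ?_
  rw [Real.dist_eq, c11_ny_eq, c11_ny_eq]
  exact c11_norm_aux _ _ _ _ _ (by rw [← Real.dist_eq]; exact dist_le_pi_dist x y 2)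
    (by rw [← Real.dist_eq]; exact dist_le_pi_dist x y 3)

theorem c11_nx_diff (z : Fin 4 → ℝ) (h : 0 < nx z) : DifferentiableAt ℝ nx z := by
  have h1 : z 0 ^ 2 + z 1 ^ 2 ≠ 0 := by
    intro h0
    rw [nx, h0, Real.sqrt_zero] at h
    exact lt_irrefl _ h
  have h2 : DifferentiableAt ℝ (fun z : Fin 4 → ℝ => z 0 ^ 2 + z 1 ^ 2) z := by fun_prop
  exact h2.sqrt h1

theorem c11_ny_diff (z : Fin 4 → ℝ) (h : 0 < ny z) : DifferentiableAt ℝ ny z := by
  have h1 : z 2 ^ 2 + z 3 ^ 2 ≠ 0 := by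
    intro h0
    rw [ny, h0, Real.sqrt_zero] at h
    exact lt_irrefl _ h
  have h2 : DifferentiableAt ℝ (fun z : Fin 4 → ℝ => z 2 ^ 2 + z 3 ^ 2) z := by fun_prop
  exact h2.sqrt h1

theorem c11_nx_smul (l : ℝ) (hl : 0 ≤ l) (z : Fin 4 → ℝ) : nx (l • z) = l * nx z := by
  unfold nx
  simp only [Pi.smul_apply, smul_eq_mul]
  rw [show (l * z 0) ^ 2 + (l * z 1) ^ 2 = l ^ 2 * (z 0 ^ 2 + z 1 ^ 2) by ring,
    Real.sqrt_mul (sq_nonneg l), Real.sqrt_sq hl]

theorem c11_ny_smul (l : ℝ) (hl : 0 ≤ l) (z : Fin 4 → ℝ) : ny (l • z) = l * ny z := by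
  unfold ny
  simp only [Pi.smul_apply, smul_eq_mul]
  rw [show (l * z 2) ^ 2 + (l * z 3) ^ 2 = l ^ 2 * (z 2 ^ 2 + z 3 ^ 2) by ring,
    Real.sqrt_mul (sq_nonneg l), Real.sqrt_sq hl]

theorem c11_nx_nonneg (z : Fin 4 → ℝ) : 0 ≤ nx z := Real.sqrt_nonneg _

theorem c11_ny_nonneg (z : Fin 4 → ℝ) : 0 ≤ ny z := Real.sqrt_nonneg _

theorem c11_norm_le (z : Fin 4 → ℝ) : ‖z‖ ≤ Rz z := by
  have h1 : ∀ a b : ℝ, |a| ≤ Real.sqrt (a ^ 2 + b ^ 2) := fun a b =>
    Real.abs_le_sqrt (by nlinarith [sq_nonneg b])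
  have h2 : ∀ a b : ℝ, |b| ≤ Real.sqrt (a ^ 2 + b ^ 2) := fun a b =>
    Real.abs_le_sqrt (by nlinarith [sq_nonneg a])
  have hx := c11_nx_nonneg z
  have hy := c11_ny_nonneg z
  unfold Rz
  rw [pi_norm_le_iff_of_nonneg (add_nonneg hx hy)]
  intro i
  rw [Real.norm_eq_abs]
  fin_cases i
  · exact (h1 (z 0) (z 1)).trans (le_add_of_nonneg_right hy)
  · exact (h2 (z 0) (z 1)).trans (le_add_of_nonneg_right hy)
  · exact (h1 (z 2) (z 3)).trans (le_add_of_nonneg_left hx)
  · exact (h2 (z 2) (z 3)).trans (le_add_of_nonneg_left hx)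


theorem c11_norm_sq (z : Fin 4 → ℝ) : sq z ≤ Rz z ^ 2 := by
  have hx := c11_nx_nonneg z
  have hy := c11_ny_nonneg z
  have h1 : nx z ^ 2 = z 0 ^ 2 + z 1 ^ 2 := Real.sq_sqrt (by positivity)
  have h2 : ny z ^ 2 = z 2 ^ 2 + z 3 ^ 2 := Real.sq_sqrt (by positivity)
  unfold sq Rz
  rw [Fin.sum_univ_four]
  nlinarith [mul_nonneg hx hy]

theorem c11_dot_le {d : ℕ} (a b : Fin d → ℝ) : |dot a b| ≤ Real.sqrt (sq a) * Real.sqrt (sq b) := by
  rw [← Real.sqrt_mul (by unfold sq; positivity)]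
  refine Real.abs_le_sqrt ?_
  exact Finset.sum_mul_sq_le_sq_mul_sq _ _ _

/-! ### the field -/

/-- the weight -/
noncomputable def c11_g (r σ : ℝ) (z : Fin 4 → ℝ) : ℝ :=
  c11_kap (σ * az z / Rz z) * (r / Rz z) ^ 4 * c11_G (Rz z / r)

/-- the field -/
noncomputable def c11_Y (r σ : ℝ) (z : Fin 4 → ℝ) : Fin 4 → ℝ := fun i => c11_g r σ z * z i

/-- its divergence -/
noncomputable def c11_D (r σ : ℝ) (z : Fin 4 → ℝ) : ℝ :=
  c11_kap (σ * az z / Rz z) * (r / Rz z) ^ 3 * c11_G' (Rz z / r)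

theorem c11_mul {f g : (Fin 4 → ℝ) → ℝ} (hf : LocallyLipschitz f) (hg : LocallyLipschitz g) :
    LocallyLipschitz fun x => f x * g x :=
  (by fun_prop : ContDiff ℝ 1 fun q : ℝ × ℝ => q.1 * q.2).locallyLipschitz.comp (hf.prodMk hg)

theorem c11_pow {f : (Fin 4 → ℝ) → ℝ} (hf : LocallyLipschitz f) (n : ℕ) :
    LocallyLipschitz fun x => f x ^ n :=
  (by fun_prop : ContDiff ℝ 1 fun q : ℝ => q ^ n).locallyLipschitz.comp hf

theorem c11_Rz_lip : LocallyLipschitz Rz :=
  (by fun_prop : ContDiff ℝ 1 fun q : ℝ × ℝ => q.1 + q.2).locallyLipschitz.comp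
    (c11_nx_lip.locallyLipschitz.prodMk c11_ny_lip.locallyLipschitz)

theorem c11_az_lip : LocallyLipschitz az :=
  (by fun_prop : ContDiff ℝ 1 fun q : ℝ × ℝ => q.1 - q.2).locallyLipschitz.comp
    (c11_nx_lip.locallyLipschitz.prodMk c11_ny_lip.locallyLipschitz)

theorem c11_inv_lip (r : ℝ) (hr : 0 < r) : LocallyLipschitz fun t : ℝ => (max t r)⁻¹ := by
  have h : LipschitzWith (Real.toNNReal (1 / r ^ 2)) fun t : ℝ => (max t r)⁻¹ := by
    refine LipschitzWith.of_dist_le_mul fun x y => ?_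
    rw [Real.coe_toNNReal _ (by positivity), Real.dist_eq, Real.dist_eq]
    have hx : r ≤ max x r := le_max_right _ _
    have hy : r ≤ max y r := le_max_right _ _
    have hx0 : 0 < max x r := lt_of_lt_of_le hr hx
    have hy0 : 0 < max y r := lt_of_lt_of_le hr hy
    have e1 : (max x r)⁻¹ - (max y r)⁻¹ = (max y r - max x r) / (max x r * max y r) := by
      field_simp
    rw [e1, abs_div, abs_of_pos (mul_pos hx0 hy0), one_div, inv_mul_eq_div]
    have h1 : |max y r - max x r| ≤ |x - y| := by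
      rw [abs_sub_comm]
      exact abs_max_sub_max_le_abs x y r
    have h2 : r ^ 2 ≤ max x r * max y r := by nlinarith
    exact div_le_div₀ (abs_nonneg _) h1 (by positivity) h2
  exact h.locallyLipschitz

theorem c11_g_eq (r σ : ℝ) (hr : 0 < r) (z : Fin 4 → ℝ) : c11_g r σ z =
    c11_kap (σ * (az z * (max (Rz z) r)⁻¹)) * (r * (max (Rz z) r)⁻¹) ^ 4 *
      c11_G (Rz z * r⁻¹) := by
  unfold c11_g
  rcases le_total r (Rz z) with h | h
  · rw [max_eq_left h, mul_div_assoc, div_eq_mul_inv, div_eq_mul_inv, div_eq_mul_inv]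
  · have h1 : Rz z / r ≤ 1 := by rwa [div_le_one hr]
    rw [c11_G_zero _ h1, ← div_eq_mul_inv (Rz z) r, c11_G_zero _ h1]
    ring

theorem c11_Y_lip (r σ : ℝ) (hr : 0 < r) (R : ℝ) :
    ∃ K, LipschitzOnWith K (c11_Y r σ) (closedBall 0 R) := by
  have hM : LocallyLipschitz fun z : Fin 4 → ℝ => (max (Rz z) r)⁻¹ :=
    (c11_inv_lip r hr).comp c11_Rz_lip
  have hg : LocallyLipschitz (c11_g r σ) := by
    have e1 : c11_g r σ = fun z => c11_kap (σ * (az z * (max (Rz z) r)⁻¹)) *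
        (r * (max (Rz z) r)⁻¹) ^ 4 * c11_G (Rz z * r⁻¹) := by
      funext z
      exact c11_g_eq r σ hr z
    rw [e1]
    have h1 : LocallyLipschitz fun z : Fin 4 → ℝ => c11_kap (σ * (az z * (max (Rz z) r)⁻¹)) :=
      c11_kap_lip.comp (c11_mul (LocallyLipschitz.const σ) (c11_mul c11_az_lip hM))
    have h2 : LocallyLipschitz fun z : Fin 4 → ℝ => (r * (max (Rz z) r)⁻¹) ^ 4 :=
      c11_pow (c11_mul (LocallyLipschitz.const r) hM) 4
    have h3 : LocallyLipschitz fun z : Fin 4 → ℝ => c11_G (Rz z * r⁻¹) :=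
      c11_G_lip.comp (c11_mul c11_Rz_lip (LocallyLipschitz.const r⁻¹))
    exact c11_mul (c11_mul h1 h2) h3
  have hc : ∀ i : Fin 4, ∃ K, LipschitzOnWith K (fun z => c11_Y r σ z i) (closedBall 0 R) := by
    intro i
    have hi : LocallyLipschitz fun z : Fin 4 → ℝ => z i :=
      (LipschitzWith.eval i).locallyLipschitz
    have h1 : LocallyLipschitz fun z => c11_Y r σ z i := c11_mul hg hi
    exact LocallyLipschitzOn.exists_lipschitzOnWith_of_compact (isCompact_closedBall 0 R)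
      h1.locallyLipschitzOn
  choose K hK using hc
  refine ⟨∑ i, K i, LipschitzOnWith.of_dist_le_mul fun x hx y hy => ?_⟩
  rw [dist_pi_le_iff (by positivity)]
  intro i
  refine ((hK i).dist_le_mul x hx y hy).trans ?_
  refine mul_le_mul_of_nonneg_right ?_ dist_nonneg
  exact_mod_cast Finset.single_le_sum (f := K) (fun _ _ => zero_le) (Finset.mem_univ i)

theorem c11_g_diff (r σ : ℝ) (z : Fin 4 → ℝ) (hx : 0 < nx z) (hy : 0 < ny z) :
    DifferentiableAt ℝ (c11_g r σ) z := by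
  have h1 := c11_nx_diff z hx
  have h2 := c11_ny_diff z hy
  have hR : DifferentiableAt ℝ Rz z := h1.add h2
  have ha : DifferentiableAt ℝ az z := h1.sub h2
  have hR0 : Rz z ≠ 0 := (add_pos hx hy).ne'
  obtain ⟨k', hk⟩ := c11_kap_diff (σ * az z / Rz z)
  have hRi : DifferentiableAt ℝ (fun z => (Rz z)⁻¹) z := (differentiableAt_inv hR0).comp z hR
  have h3 : DifferentiableAt ℝ (fun z => c11_kap (σ * az z / Rz z)) z := by
    have h6 : DifferentiableAt ℝ (fun z => σ * az z / Rz z) z := (ha.const_mul σ).mul hRi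
    exact DifferentiableAt.comp (g := c11_kap) z hk.differentiableAt h6
  have h4 : DifferentiableAt ℝ (fun z => (r / Rz z) ^ 4) z := by
    have h6 : DifferentiableAt ℝ (fun z => r / Rz z) z := hRi.const_mul r
    exact h6.pow 4
  have h5 : DifferentiableAt ℝ (fun z => c11_G (Rz z / r)) z :=
    DifferentiableAt.comp (g := c11_G) z (c11_G_deriv (Rz z / r)).differentiableAt
      (hR.mul_const r⁻¹)
  exact (h3.mul h4).mul h5

theorem c11_div (r σ : ℝ) (hr : 0 < r) (z : Fin 4 → ℝ) (hx : 0 < nx z) (hy : 0 < ny z) :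
    dv (c11_Y r σ) z = c11_D r σ z := by
  have hd := c11_g_diff r σ z hx hy
  obtain ⟨g', hg'⟩ : ∃ g', g' = fderiv ℝ (c11_g r σ) z := ⟨_, rfl⟩
  have hg : HasFDerivAt (c11_g r σ) g' z := by
    rw [hg']
    exact hd.hasFDerivAt
  have hR : 0 < Rz z := add_pos hx hy
  -- the derivative along the ray
  have hray : g' z = -4 * c11_g r σ z + c11_D r σ z := by
    have h1 : HasDerivAt (fun l : ℝ => c11_g r σ (l • z)) (g' z) 1 := by
      have h2 : HasDerivAt (fun l : ℝ => l • z) z 1 := by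
        simpa using (hasDerivAt_id (1 : ℝ)).smul_const z
      have h3 : HasFDerivAt (c11_g r σ) g' ((1 : ℝ) • z) := by rwa [one_smul]
      exact h3.comp_hasDerivAt 1 h2
    have h4 : HasDerivAt (fun l : ℝ => c11_g r σ (l • z))
        (-4 * c11_g r σ z + c11_D r σ z) 1 := by
      have h5 : (fun l : ℝ => c11_kap (σ * az z / Rz z) * (r / Rz z) ^ 4 *
          ((l⁻¹) ^ 4 * c11_G (l * (Rz z / r)))) =ᶠ[𝓝 1] fun l : ℝ => c11_g r σ (l • z) := by
        filter_upwards [eventually_gt_nhds (zero_lt_one : (0 : ℝ) < 1)] with l hl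
        unfold c11_g Rz az
        rw [c11_nx_smul l hl.le, c11_ny_smul l hl.le]
        have e1 : σ * (l * nx z - l * ny z) / (l * nx z + l * ny z) =
            σ * (nx z - ny z) / (nx z + ny z) := by
          rw [← mul_sub, ← mul_add, ← mul_assoc, mul_comm σ l, mul_assoc,
            mul_div_mul_left _ _ hl.ne']
        have e2 : r / (l * nx z + l * ny z) = r / (nx z + ny z) * l⁻¹ := by
          rw [← mul_add, div_mul_eq_div_div, div_div, mul_comm l, ← div_div, div_eq_mul_inv _ l]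
        have e3 : (l * nx z + l * ny z) / r = l * ((nx z + ny z) / r) := by ring
        rw [e1, e2, e3]
        ring
      refine HasDerivAt.congr_of_eventuallyEq ?_ h5.symm
      have h6 : HasDerivAt (fun l : ℝ => (l⁻¹) ^ 4) (-4) 1 := by
        have h11 := (hasDerivAt_inv (one_ne_zero : (1 : ℝ) ≠ 0)).pow 4
        norm_num at h11
        exact h11
      have h7 : HasDerivAt (fun l : ℝ => c11_G (l * (Rz z / r)))
          (c11_G' (Rz z / r) * (Rz z / r)) 1 := by
        have h8 : HasDerivAt (fun l : ℝ => l * (Rz z / r)) (Rz z / r) 1 := by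
          simpa using (hasDerivAt_id (1 : ℝ)).mul_const (Rz z / r)
        have h9 : HasDerivAt c11_G (c11_G' (Rz z / r)) (1 * (Rz z / r)) := by
          rw [one_mul]
          exact c11_G_deriv _
        exact h9.comp (1 : ℝ) h8
      have h10 := (h6.mul h7).const_mul (c11_kap (σ * az z / Rz z) * (r / Rz z) ^ 4)
      refine h10.congr_deriv ?_
      unfold c11_g c11_D
      simp only [inv_one, one_pow, one_mul]
      have e4 : (r / Rz z) ^ 4 * (Rz z / r) = (r / Rz z) ^ 3 := by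
        field_simp
      linear_combination (c11_kap (σ * az z / Rz z) * c11_G' (Rz z / r)) * e4
    exact h1.unique h4
  have hcomp : ∀ i : Fin 4, fderiv ℝ (fun y => c11_Y r σ y i) z (Pi.single i (1 : ℝ)) =
      c11_g r σ z + z i * g' (Pi.single i 1) := by
    intro i
    have h1 : HasFDerivAt (fun y => c11_Y r σ y i)
        (c11_g r σ z • ContinuousLinearMap.proj (R := ℝ) (φ := fun _ : Fin 4 => ℝ) i +
          z i • g') z :=
      hg.mul (hasFDerivAt_apply i z)
    rw [h1.fderiv]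
    simp
  unfold dv
  rw [Finset.sum_congr rfl fun i _ => hcomp i, Finset.sum_add_distrib]
  have h2 : ∑ i, z i * g' (Pi.single i 1) = g' z := by
    conv_rhs => rw [← Finset.univ_sum_single z, map_sum]
    refine Finset.sum_congr rfl fun i _ => ?_
    rw [← smul_eq_mul, ← map_smul]
    congr 1
    rw [← Pi.single_smul, smul_eq_mul, mul_one]
  rw [h2, hray]
  simp


/-! ### supports, bounds, measurability -/

theorem c11_kap_cont : Continuous c11_kap := c11_kap_lip.continuous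

theorem c11_G'_cont : Continuous c11_G' := by
  unfold c11_G'
  fun_prop

theorem c11_Rz_cont : Continuous Rz := c11_Rz_lip.continuous

theorem c11_az_cont : Continuous az := c11_az_lip.continuous

theorem c11_D_meas (r σ : ℝ) : Measurable (c11_D r σ) := by
  have h1 : Measurable fun z : Fin 4 → ℝ => σ * az z / Rz z :=
    (c11_az_cont.measurable.const_mul σ).div c11_Rz_cont.measurable
  have h2 : Measurable fun z : Fin 4 → ℝ => (r / Rz z) ^ 3 :=
    (measurable_const.div c11_Rz_cont.measurable).pow_const 3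
  have h3 : Measurable fun z : Fin 4 → ℝ => Rz z / r :=
    c11_Rz_cont.measurable.div_const r
  exact ((c11_kap_cont.measurable.comp h1).mul h2).mul (c11_G'_cont.measurable.comp h3)

theorem c11_Zs_meas : MeasurableSet Zs := by
  have h1 : Measurable fun z : Fin 4 → ℝ => |az z| / Rz z :=
    c11_az_cont.measurable.norm.div c11_Rz_cont.measurable
  exact (measurableSet_lt measurable_const c11_Rz_cont.measurable).inter
    ((measurableSet_le measurable_const h1).inter (measurableSet_le h1 measurable_const))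

theorem c11_null : ∀ᵐ z : Fin 4 → ℝ, 0 < nx z ∧ 0 < ny z := by
  have h0 : ∀ i : Fin 4, ∀ᵐ z : Fin 4 → ℝ, z i ≠ 0 := by
    intro i
    have h1 : volume ((LinearMap.ker (LinearMap.proj i : (Fin 4 → ℝ) →ₗ[ℝ] ℝ) :
        Submodule ℝ (Fin 4 → ℝ)) : Set (Fin 4 → ℝ)) = 0 := by
      refine Measure.addHaar_submodule volume _ fun htop => ?_
      have h2 : (Pi.single i (1 : ℝ) : Fin 4 → ℝ) ∈
          LinearMap.ker (LinearMap.proj i : (Fin 4 → ℝ) →ₗ[ℝ] ℝ) := by
        rw [htop]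
        exact Submodule.mem_top
      simp at h2
    rw [ae_iff]
    convert h1 using 2
    ext z
    simp
  filter_upwards [h0 0, h0 2] with z hz0 hz2
  constructor
  · exact Real.sqrt_pos.2 (by positivity)
  · exact Real.sqrt_pos.2 (by positivity)

theorem c11_supp (r σ : ℝ) (hr : 4 ≤ r) (hσ : σ = 1 ∨ σ = -1) (z : Fin 4 → ℝ)
    (hk : c11_kap (σ * az z / Rz z) ≠ 0) (hG : r < Rz z) : z ∈ Zs ∧ 1 / 4 * Rz z < σ * az z := by
  have hR : 0 < Rz z := by linarith
  have h1 : 1 / 4 < σ * az z / Rz z ∧ σ * az z / Rz z < 1 / 3 := by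
    by_contra hc
    exact hk (c11_kap_zero _ hc)
  obtain ⟨h1, h2⟩ := h1
  have h3 : |az z| = σ * az z := by
    have h4 : 0 < σ * az z := by
      by_contra hc
      have : σ * az z / Rz z ≤ 0 := div_nonpos_of_nonpos_of_nonneg (not_lt.1 hc) hR.le
      linarith
    rcases hσ with rfl | rfl
    · rw [one_mul] at h4 ⊢
      exact abs_of_pos h4
    · rw [neg_one_mul] at h4 ⊢
      exact abs_of_neg (by linarith)
  refine ⟨⟨by linarith, ?_, ?_⟩, ?_⟩
  · rw [h3]
    exact h1.le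
  · rw [h3]
    exact h2.le
  · rwa [lt_div_iff₀ hR] at h1

theorem c11_ratio (r R : ℝ) (hr : 0 < r) (h : r < R) : 0 ≤ r / R ∧ r / R ≤ 1 := by
  have hR : 0 < R := hr.trans h
  exact ⟨by positivity, by rw [div_le_one hR]; exact h.le⟩

theorem c11_D_zero (r σ : ℝ) (hr : 0 < r) (z : Fin 4 → ℝ) (h : Rz z ≤ r) : c11_D r σ z = 0 := by
  unfold c11_D
  rw [c11_G'_zero _ (by rwa [div_le_one hr]), mul_zero]

theorem c11_D_bd (r σ : ℝ) (hr : 0 < r) (z : Fin 4 → ℝ) : 0 ≤ c11_D r σ z ∧ c11_D r σ z ≤ 2 := by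
  rcases le_or_gt (Rz z) r with h | h
  · rw [c11_D_zero r σ hr z h]
    norm_num
  · obtain ⟨h1, h2⟩ := c11_ratio r (Rz z) hr h
    have h3 := c11_kap_nonneg (σ * az z / Rz z)
    have h4 := c11_kap_le (σ * az z / Rz z)
    obtain ⟨h5, h6⟩ := c11_G'_bd (Rz z / r)
    have h7 : (r / Rz z) ^ 3 ≤ 1 := pow_le_one₀ h1 h2
    have h8 : 0 ≤ (r / Rz z) ^ 3 := by positivity
    unfold c11_D
    refine ⟨by positivity, ?_⟩
    calc c11_kap (σ * az z / Rz z) * (r / Rz z) ^ 3 * c11_G' (Rz z / r) ≤ 1 * 1 * 2 := by gcongr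
      _ = 2 := by norm_num

theorem c11_g_zero (r σ : ℝ) (hr : 0 < r) (z : Fin 4 → ℝ) (h : Rz z ≤ r) : c11_g r σ z = 0 := by
  unfold c11_g
  rw [c11_G_zero _ (by rwa [div_le_one hr]), mul_zero]

theorem c11_Y_bd (r σ : ℝ) (hr : 4 ≤ r) (hσ : σ = 1 ∨ σ = -1) (z p : Fin 4 → ℝ) :
    |dot (c11_Y r σ z) p| ≤ Zs.indicator (fun _ => 2 * r * Real.sqrt (sq p)) z := by
  have hr0 : 0 < r := by linarith
  have hY : ∀ c : ℝ, c11_g r σ z = 0 → dot (c11_Y r σ z) p = 0 := by
    intro _ h0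
    unfold dot c11_Y
    rw [h0]
    simp
  by_cases hz : c11_g r σ z = 0
  · rw [hY 0 hz, abs_zero]
    exact indicator_nonneg (fun _ _ => by positivity) z
  · have hG : r < Rz z := by
      by_contra hc
      exact hz (c11_g_zero r σ hr0 z (not_lt.1 hc))
    have hk : c11_kap (σ * az z / Rz z) ≠ 0 := by
      intro h0
      apply hz
      unfold c11_g
      rw [h0]
      ring
    rw [indicator_of_mem (c11_supp r σ hr hσ z hk hG).1]
    refine (c11_dot_le _ _).trans ?_
    refine mul_le_mul_of_nonneg_right ?_ (Real.sqrt_nonneg _)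
    have hR : 0 < Rz z := by linarith
    obtain ⟨h1, h2⟩ := c11_ratio r (Rz z) hr0 hG
    have h3 := c11_kap_nonneg (σ * az z / Rz z)
    have h4 := c11_kap_le (σ * az z / Rz z)
    obtain ⟨h5, h6⟩ := c11_G_bd (Rz z / r)
    have h9 : 0 ≤ c11_g r σ z := by
      unfold c11_g
      positivity
    have h10 : c11_g r σ z * Rz z ≤ 2 * r := by
      have h11 : (r / Rz z) ^ 4 * Rz z = (r / Rz z) ^ 3 * r := by
        field_simp
      have h12 : (r / Rz z) ^ 3 ≤ 1 := pow_le_one₀ h1 h2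
      have h13 : 0 ≤ (r / Rz z) ^ 3 := by positivity
      unfold c11_g
      calc c11_kap (σ * az z / Rz z) * (r / Rz z) ^ 4 * c11_G (Rz z / r) * Rz z =
            c11_kap (σ * az z / Rz z) * ((r / Rz z) ^ 4 * Rz z) * c11_G (Rz z / r) := by ring
        _ = c11_kap (σ * az z / Rz z) * ((r / Rz z) ^ 3 * r) * c11_G (Rz z / r) := by rw [h11]
        _ ≤ 1 * (1 * r) * 2 := by gcongr
        _ = 2 * r := by ring
    have h14 : sq (c11_Y r σ z) ≤ (2 * r) ^ 2 := by
      have h15 : sq (c11_Y r σ z) = c11_g r σ z ^ 2 * sq z := by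
        unfold sq c11_Y
        rw [Finset.mul_sum]
        refine Finset.sum_congr rfl fun i _ => ?_
        ring
      rw [h15]
      calc c11_g r σ z ^ 2 * sq z ≤ c11_g r σ z ^ 2 * Rz z ^ 2 :=
            mul_le_mul_of_nonneg_left (c11_norm_sq z) (sq_nonneg _)
        _ = (c11_g r σ z * Rz z) ^ 2 := by ring
        _ ≤ (2 * r) ^ 2 := pow_le_pow_left₀ (by positivity) h10 2
    calc Real.sqrt (sq (c11_Y r σ z)) ≤ Real.sqrt ((2 * r) ^ 2) := Real.sqrt_le_sqrt h14
      _ = 2 * r := Real.sqrt_sq (by positivity)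

/-- the integrable majorant -/
theorem c11_exp_int : Integrable fun z : Fin 4 → ℝ => Real.exp (-(‖z‖ / 4)) := by
  have h1 : Integrable (fun z : Fin 4 → ℝ => (1 + ‖z‖) ^ (-(5 : ℝ))) := by
    refine integrable_one_add_norm ?_
    simp
    norm_num
  refine (h1.const_mul (20 ^ 5)).mono' (by fun_prop) (Eventually.of_forall fun z => ?_)
  have h0 : 0 ≤ ‖z‖ := norm_nonneg z
  rw [Real.norm_eq_abs, abs_of_pos (Real.exp_pos _)]
  have h2 : (1 + ‖z‖) / 20 ≤ Real.exp (‖z‖ / 20) := by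
    have := Real.add_one_le_exp (‖z‖ / 20)
    linarith
  have h3 : ((1 + ‖z‖) / 20) ^ 5 ≤ Real.exp (‖z‖ / 4) := by
    calc ((1 + ‖z‖) / 20) ^ 5 ≤ Real.exp (‖z‖ / 20) ^ 5 := by gcongr
      _ = Real.exp (‖z‖ / 4) := by
        rw [← Real.exp_nat_mul]
        congr 1
        push_cast
        ring
  have h4 : (1 + ‖z‖) ^ (-(5 : ℝ)) = ((1 + ‖z‖) ^ 5)⁻¹ := by
    rw [Real.rpow_neg (by positivity)]
    congr 1
    exact_mod_cast Real.rpow_natCast (1 + ‖z‖) 5
  rw [h4, Real.exp_neg]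
  have h5 : 0 < (1 + ‖z‖) ^ 5 := by positivity
  rw [← div_eq_mul_inv, inv_eq_one_div, div_le_div_iff₀ (Real.exp_pos _) h5, one_mul]
  rw [div_pow, div_le_iff₀ (by positivity)] at h3
  linarith


/-! ### the energy argument -/

/-- functions of the phase -/
structure c11_Ph (σ : ℝ) (P P' : ℝ → ℝ) : Prop where
  der : ∀ v, HasDerivAt P (P' v) v
  cont : Continuous P'
  nn : ∀ v, 0 ≤ P v
  le : ∀ v, P v ≤ 1
  bd : ∀ v, 0 ≤ v → v ≤ 1 → |P' v| ≤ hv v
  dec : ∀ z, 1 / 4 * Rz z < σ * az z → P (wz z) ≤ Real.exp (-(Rz z / 4))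

theorem c11_F (r σ : ℝ) (hr : 4 ≤ r) (hσ : σ = 1 ∨ σ = -1) (P P' : ℝ → ℝ) (h : c11_Ph σ P P')
    (B : Set (Fin 4 → ℝ)) (u : (Fin 4 → ℝ) → ℝ) (h0 : ∀ x, 0 ≤ u x) (h1 : ∀ x, u x ≤ 1)
    (T : ℝ) (hT : 0 ≤ T)
    (hTV : ∫⁻ z in Zs, ENNReal.ofReal (hv (u z) * Real.sqrt (sq (gr u z))) ≤ ENNReal.ofReal T) :
    |∫ x in B, P' (u x) * dot (c11_Y r σ x) (gr u x)| ≤ 2 * r * T := by
  have hr0 : 0 ≤ 2 * r := by linarith
  rw [← Real.norm_eq_abs]
  refine (norm_integral_le_lintegral_norm _).trans ?_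
  refine ENNReal.toReal_le_of_le_ofReal (by positivity) ?_
  calc ∫⁻ x in B, ENNReal.ofReal ‖P' (u x) * dot (c11_Y r σ x) (gr u x)‖ ≤
        ∫⁻ x, ENNReal.ofReal ‖P' (u x) * dot (c11_Y r σ x) (gr u x)‖ :=
        setLIntegral_le_lintegral _ _
    _ ≤ ∫⁻ x, Zs.indicator (fun x => ENNReal.ofReal (2 * r) *
          ENNReal.ofReal (hv (u x) * Real.sqrt (sq (gr u x)))) x := by
        refine lintegral_mono fun x => ?_
        have hb := h.bd (u x) (h0 x) (h1 x)
        have hv0 : 0 ≤ hv (u x) := (abs_nonneg _).trans hb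
        have hY := c11_Y_bd r σ hr hσ x (gr u x)
        by_cases hx : x ∈ Zs
        · rw [indicator_of_mem hx] at hY ⊢
          rw [← ENNReal.ofReal_mul hr0]
          refine ENNReal.ofReal_le_ofReal ?_
          rw [norm_mul, Real.norm_eq_abs, Real.norm_eq_abs]
          calc |P' (u x)| * |dot (c11_Y r σ x) (gr u x)| ≤
                hv (u x) * (2 * r * Real.sqrt (sq (gr u x))) :=
                mul_le_mul hb hY (abs_nonneg _) hv0
            _ = 2 * r * (hv (u x) * Real.sqrt (sq (gr u x))) := by ring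
        · rw [indicator_of_notMem hx] at hY ⊢
          have h2 : dot (c11_Y r σ x) (gr u x) = 0 := by
            rw [← abs_eq_zero]
            exact le_antisymm hY (abs_nonneg _)
          rw [h2, mul_zero, norm_zero, ENNReal.ofReal_zero]
    _ = ENNReal.ofReal (2 * r) *
          ∫⁻ x in Zs, ENNReal.ofReal (hv (u x) * Real.sqrt (sq (gr u x))) := by
        rw [lintegral_indicator c11_Zs_meas, lintegral_const_mul' _ _ ENNReal.ofReal_ne_top]
    _ ≤ ENNReal.ofReal (2 * r) * ENNReal.ofReal T := by gcongr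
    _ = ENNReal.ofReal (2 * r * T) := (ENNReal.ofReal_mul hr0).symm

theorem c11_exp_le (z : Fin 4 → ℝ) : Real.exp (-(Rz z / 4)) ≤ Real.exp (-(‖z‖ / 4)) := by
  rw [Real.exp_le_exp]
  have := c11_norm_le z
  linarith

/-- the total variation of the boundary function -/
theorem c11_TVw (hW : CW) (hP : BProf) (hH : BHh) :
    ∫⁻ z in Zs, ENNReal.ofReal (hv (wz z) * Real.sqrt (sq (gr wz z))) ≤
      ENNReal.ofReal (∫ z : Fin 4 → ℝ, Real.exp (-(‖z‖ / 4))) := by
  rw [ofReal_integral_eq_lintegral_ofReal c11_exp_int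
    (Eventually.of_forall fun z => (Real.exp_pos _).le)]
  refine le_trans ?_ (setLIntegral_le_lintegral Zs _)
  refine lintegral_mono_ae ?_
  filter_upwards [ae_restrict_mem c11_Zs_meas, ae_restrict_of_ae c11_null] with z hz hzn
  refine ENNReal.ofReal_le_ofReal (le_trans ?_ (c11_exp_le z))
  obtain ⟨hx, hy⟩ := hzn
  have hR : 0 < Rz z := add_pos hx hy
  obtain ⟨hz1, hz2, hz3⟩ := hz
  have h1 : hv (wz z) = hh (az z) := hP.2.2.2.2.1 _
  obtain ⟨b1, b2, b3, b4⟩ := hH (az z)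
  have h2 : sq (gr wz z) = 2 * hh (az z) ^ 2 := by
    rw [hW.2.2 z hx hy]
    unfold sq
    rw [Fin.sum_univ_four]
    simp only [Pi.smul_apply, smul_eq_mul]
    have e1 : nx z ^ 2 = z 0 ^ 2 + z 1 ^ 2 := Real.sq_sqrt (by positivity)
    have e2 : ny z ^ 2 = z 2 ^ 2 + z 3 ^ 2 := Real.sq_sqrt (by positivity)
    have e3 : (z 0 / nx z) ^ 2 + (z 1 / nx z) ^ 2 = 1 := by
      rw [div_pow, div_pow, ← add_div, ← e1, div_self (by positivity)]
    have e4 : (z 2 / ny z) ^ 2 + (z 3 / ny z) ^ 2 = 1 := by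
      rw [div_pow, div_pow, ← add_div, ← e2, div_self (by positivity)]
    simp only [Matrix.cons_val_zero, Matrix.cons_val_one, Matrix.cons_val]
    linear_combination (hh (az z) ^ 2) * e3 + (hh (az z) ^ 2) * e4
  have h3 : Real.sqrt (sq (gr wz z)) ≤ 2 * hh (az z) := by
    rw [h2]
    refine Real.sqrt_le_iff.2 ⟨by positivity, ?_⟩
    nlinarith [sq_nonneg (hh (az z))]
  have hpi : 2 / Real.pi ≤ 2 / 3 := by
    have := Real.pi_gt_three
    gcongr
  have h4 : hh (az z) ≤ 2 / 3 * Real.exp (-|az z|) := by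
    refine b3.trans ?_
    gcongr
  have h5 : Rz z / 8 ≤ |az z| := by
    rw [le_div_iff₀ hR] at hz2
    linarith
  rw [h1]
  calc hh (az z) * Real.sqrt (sq (gr wz z)) ≤ hh (az z) * (2 * hh (az z)) := by gcongr
    _ = 2 * hh (az z) ^ 2 := by ring
    _ ≤ 2 * (2 / 3 * Real.exp (-|az z|)) ^ 2 := by gcongr
    _ = 8 / 9 * Real.exp (-|az z|) ^ 2 := by ring
    _ ≤ 1 * Real.exp (-|az z|) ^ 2 := by gcongr; norm_num
    _ = Real.exp (2 * -|az z|) := by
        rw [one_mul, ← Real.exp_nat_mul]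
        norm_num
    _ ≤ Real.exp (-(Rz z / 4)) := by
        rw [Real.exp_le_exp]
        linarith

theorem c11_main (hN : CNullLag) (hW : CW) (hP : BProf) (hH : BHh) (δ C : ℝ) :
    ∃ C' : ℝ, 0 ≤ C' ∧ ∀ (σ : ℝ) (P P' : ℝ → ℝ), (σ = 1 ∨ σ = -1) → c11_Ph σ P P' →
    ∀ (ρ : ℝ) (U : (Fin 4 → ℝ) → ℝ), Adm δ ρ U →
    ∫⁻ z in Zs, ENNReal.ofReal (hv (U z) * Real.sqrt (sq (gr U z))) ≤ ENNReal.ofReal C →
    ∀ r : ℝ, 4 ≤ r → ∫⁻ z, ENNReal.ofReal (c11_D r σ z * P (U z)) ≤ ENNReal.ofReal (C' * r) := by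
  obtain ⟨J, hJ⟩ : ∃ J, J = ∫ z : Fin 4 → ℝ, Real.exp (-(‖z‖ / 4)) := ⟨_, rfl⟩
  have hJ0 : 0 ≤ J := by
    rw [hJ]
    exact integral_nonneg fun z => (Real.exp_pos _).le
  refine ⟨3 * J + 2 * max C 0, by positivity, fun σ P P' hσ h ρ U hU hTV r hr => ?_⟩
  have hr0 : 0 < r := by linarith
  obtain ⟨KU, hKU⟩ := hU.comp.lip
  obtain ⟨Kw, hKw⟩ := hW.1
  have hUc : Continuous U := hKU.continuous
  have hwc : Continuous wz := hKw.continuous
  have hPc : Continuous P := continuous_iff_continuousAt.2 fun v => (h.der v).continuousAt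
  obtain ⟨i1, i2⟩ := hN 4 P P' (c11_Y r σ) U wz ρ h.der h.cont (c11_Y_lip r σ hr0) hU.comp.lip
    hW.1 hU.comp.out
  obtain ⟨i3, -⟩ := hN 4 P P' (c11_Y r σ) wz wz ρ h.der h.cont (c11_Y_lip r σ hr0) hW.1
    hW.1 (fun _ _ => rfl)
  -- the functions `A`
  have hA : ∀ u : (Fin 4 → ℝ) → ℝ, Continuous u →
      IntegrableOn (fun z => c11_D r σ z * P (u z)) (closedBall 0 ρ) := by
    intro u hu
    refine Measure.integrableOn_of_bounded (M := 2) measure_closedBall_lt_top.ne
      ((c11_D_meas r σ).mul (hPc.comp hu).measurable).aestronglyMeasurable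
      (Eventually.of_forall fun z => ?_)
    obtain ⟨d1, d2⟩ := c11_D_bd r σ hr0 z
    rw [Real.norm_eq_abs, abs_of_nonneg (mul_nonneg d1 (h.nn _))]
    calc c11_D r σ z * P (u z) ≤ 2 * 1 := mul_le_mul d2 (h.le _) (h.nn _) (by norm_num)
      _ = 2 := by norm_num
  have hsplit : ∀ u : (Fin 4 → ℝ) → ℝ, Continuous u →
      IntegrableOn (fun x => P' (u x) * dot (c11_Y r σ x) (gr u x) + P (u x) *
        dv (c11_Y r σ) x) (closedBall 0 ρ) →
      ∫ x in closedBall 0 ρ, (P' (u x) * dot (c11_Y r σ x) (gr u x) + P (u x) *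
        dv (c11_Y r σ) x) = (∫ x in closedBall 0 ρ, P' (u x) * dot (c11_Y r σ x) (gr u x)) +
        ∫ x in closedBall 0 ρ, c11_D r σ x * P (u x) := by
    intro u hu hi
    have hae : ∀ᵐ x ∂(volume.restrict (closedBall (0 : Fin 4 → ℝ) ρ)),
        P' (u x) * dot (c11_Y r σ x) (gr u x) + P (u x) * dv (c11_Y r σ) x =
        P' (u x) * dot (c11_Y r σ x) (gr u x) + c11_D r σ x * P (u x) := by
      filter_upwards [ae_restrict_of_ae c11_null] with x hx
      rw [c11_div r σ hr0 x hx.1 hx.2]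
      ring
    rw [integral_congr_ae hae]
    have hi2 : IntegrableOn (fun x => P' (u x) * dot (c11_Y r σ x) (gr u x) +
        c11_D r σ x * P (u x)) (closedBall 0 ρ) := hi.congr hae
    have hi3 : IntegrableOn (fun x => P' (u x) * dot (c11_Y r σ x) (gr u x))
        (closedBall 0 ρ) := by
      refine (hi2.sub (hA u hu)).congr (Eventually.of_forall fun x => ?_)
      simp
    exact integral_add hi3 (hA u hu)
  rw [hsplit U hUc i1, hsplit wz hwc i3] at i2
  have hFU := c11_F r σ hr hσ P P' h (closedBall 0 ρ) U hU.comp.nonneg hU.comp.le_one (max C 0)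
    (le_max_right _ _) (hTV.trans (ENNReal.ofReal_le_ofReal (le_max_left _ _)))
  have hFw := c11_F r σ hr hσ P P' h (closedBall 0 ρ) wz (fun x => (hW.2.1 x).1)
    (fun x => (hW.2.1 x).2) J hJ0 (by rw [hJ]; exact c11_TVw hW hP hH)
  -- the boundary function
  have hAw : ∀ z, c11_D r σ z * P (wz z) ≤ 2 * Real.exp (-(‖z‖ / 4)) := by
    intro z
    obtain ⟨d1, d2⟩ := c11_D_bd r σ hr0 z
    by_cases hz : c11_D r σ z = 0
    · rw [hz, zero_mul]
      positivity
    · have hG : r < Rz z := by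
        by_contra hc
        exact hz (c11_D_zero r σ hr0 z (not_lt.1 hc))
      have hk : c11_kap (σ * az z / Rz z) ≠ 0 := by
        intro h0
        apply hz
        unfold c11_D
        rw [h0]
        ring
      have h1 := h.dec z (c11_supp r σ hr hσ z hk hG).2
      exact mul_le_mul d2 (h1.trans (c11_exp_le z)) (h.nn _) (by norm_num)
  have hAwl : ∫⁻ z, ENNReal.ofReal (c11_D r σ z * P (wz z)) ≤ ENNReal.ofReal (2 * J) := by
    calc ∫⁻ z, ENNReal.ofReal (c11_D r σ z * P (wz z)) ≤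
          ∫⁻ z : Fin 4 → ℝ, ENNReal.ofReal (2 * Real.exp (-(‖z‖ / 4))) :=
          lintegral_mono fun z => ENNReal.ofReal_le_ofReal (hAw z)
      _ = ENNReal.ofReal (∫ z : Fin 4 → ℝ, 2 * Real.exp (-(‖z‖ / 4))) :=
          (ofReal_integral_eq_lintegral_ofReal (c11_exp_int.const_mul 2)
            (Eventually.of_forall fun z => by positivity)).symm
      _ = ENNReal.ofReal (2 * J) := by rw [integral_const_mul, hJ]
  have hAwi : ∫ z in closedBall 0 ρ, c11_D r σ z * P (wz z) ≤ 2 * J := by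
    calc ∫ z in closedBall 0 ρ, c11_D r σ z * P (wz z) ≤
          ∫ z in closedBall (0 : Fin 4 → ℝ) ρ, 2 * Real.exp (-(‖z‖ / 4)) :=
          integral_mono (hA wz hwc) (c11_exp_int.const_mul 2).integrableOn hAw
      _ ≤ ∫ z : Fin 4 → ℝ, 2 * Real.exp (-(‖z‖ / 4)) :=
          setIntegral_le_integral (c11_exp_int.const_mul 2)
            (Eventually.of_forall fun z => by positivity)
      _ = 2 * J := by rw [integral_const_mul, hJ]
  have hAU : ∫ z in closedBall 0 ρ, c11_D r σ z * P (U z) ≤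
      2 * J + 2 * r * J + 2 * r * max C 0 := by
    have h1 := (abs_le.1 hFU).1
    have h2 := (abs_le.1 hFw).2
    linarith
  have hB : MeasurableSet (closedBall (0 : Fin 4 → ℝ) ρ) := isClosed_closedBall.measurableSet
  rw [← lintegral_add_compl _ hB]
  have hin : ∫⁻ z in closedBall 0 ρ, ENNReal.ofReal (c11_D r σ z * P (U z)) ≤
      ENNReal.ofReal (2 * J + 2 * r * J + 2 * r * max C 0) := by
    rw [← ofReal_integral_eq_lintegral_ofReal (hA U hUc)
      (Eventually.of_forall fun z => mul_nonneg (c11_D_bd r σ hr0 z).1 (h.nn _))]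
    exact ENNReal.ofReal_le_ofReal hAU
  have hout : ∫⁻ z in (closedBall 0 ρ)ᶜ, ENNReal.ofReal (c11_D r σ z * P (U z)) ≤
      ENNReal.ofReal (2 * J) := by
    refine le_trans (le_of_eq ?_)
      ((setLIntegral_le_lintegral (closedBall (0 : Fin 4 → ℝ) ρ)ᶜ _).trans hAwl)
    refine setLIntegral_congr_fun hB.compl fun z hz => ?_
    rw [hU.comp.out z hz]
  refine (add_le_add hin hout).trans ?_
  rw [← ENNReal.ofReal_add (by positivity) (by positivity)]
  refine ENNReal.ofReal_le_ofReal ?_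
  nlinarith


/-! ### the two phases -/

theorem c11_Hv_der (v : ℝ) : HasDerivAt Hv (hv v) v := by
  have h1 : HasDerivAt (fun v : ℝ => Real.pi * v) Real.pi v := by
    simpa using (hasDerivAt_id v).const_mul Real.pi
  have h2 := ((Real.hasDerivAt_cos (Real.pi * v)).comp v h1).const_sub 1
  have h3 := h2.div_const (Real.pi ^ 2)
  refine h3.congr_deriv ?_
  unfold hv
  have := Real.pi_ne_zero
  field_simp

theorem c11_hv_cont : Continuous hv := by
  unfold hv
  fun_prop

theorem c11_hv_nonneg (v : ℝ) (h0 : 0 ≤ v) (h1 : v ≤ 1) : 0 ≤ hv v := by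
  unfold hv
  have hpi := Real.pi_pos
  refine div_nonneg (Real.sin_nonneg_of_nonneg_of_le_pi (by positivity) ?_) hpi.le
  nlinarith

theorem c11_Hv_one : Hv 1 = 2 / Real.pi ^ 2 := by
  unfold Hv
  rw [mul_one, Real.cos_pi]
  norm_num

theorem c11_Hv_sub (v : ℝ) : Hv 1 - Hv v = (1 + Real.cos (Real.pi * v)) / Real.pi ^ 2 := by
  rw [c11_Hv_one]
  unfold Hv
  ring

theorem c11_pi_sq : (4 : ℝ) ≤ Real.pi ^ 2 := by
  nlinarith [Real.pi_gt_three]

theorem c11_ph_pos (hP : BProf) : c11_Ph 1 (fun v => Hv 1 - Hv v) (fun v => -(hv v)) where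
  der v := (c11_Hv_der v).const_sub _
  cont := c11_hv_cont.neg
  nn v := by
    have := Real.neg_one_le_cos (Real.pi * v)
    rw [c11_Hv_sub]
    exact div_nonneg (by linarith) (sq_nonneg _)
  le v := by
    have h1 := Real.cos_le_one (Real.pi * v)
    have h2 := c11_pi_sq
    rw [c11_Hv_sub, div_le_one (by positivity)]
    linarith
  bd v h0 h1 := by
    rw [abs_neg, abs_of_nonneg (c11_hv_nonneg v h0 h1)]
  dec z hz := by
    obtain ⟨p1, p2, p3, p4, p5, p6, p7, p8, p9, p10⟩ := hP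
    rw [c11_Hv_sub]
    unfold wz
    obtain ⟨t, ht⟩ : ∃ t, t = az z := ⟨_, rfl⟩
    rw [← ht] at hz ⊢
    obtain ⟨v, hv⟩ : ∃ v, v = gv t := ⟨_, rfl⟩
    have h1 := (p9 t).2
    have h0 := (p9 t).1
    have h2 := (p2 t).1
    rw [← hv] at h0 h1 h2 ⊢
    have h3 := Real.one_sub_sq_div_two_le_cos (x := Real.pi - Real.pi * v)
    rw [Real.cos_pi_sub] at h3
    have hpi := Real.pi_pos
    have h4 : (1 + Real.cos (Real.pi * v)) / Real.pi ^ 2 ≤ 1 - v := by
      rw [div_le_iff₀ (by positivity)]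
      have h5 : (Real.pi - Real.pi * v) ^ 2 = Real.pi ^ 2 * ((1 - v) * (1 - v)) := by ring
      rw [h5] at h3
      have h6 : (1 - v) * (1 - v) ≤ (1 - v) := by nlinarith
      have h7 : Real.pi ^ 2 * ((1 - v) * (1 - v)) ≤ Real.pi ^ 2 * (1 - v) :=
        mul_le_mul_of_nonneg_left h6 (by positivity)
      have h8 : 0 ≤ Real.pi ^ 2 * (1 - v) := by positivity
      linarith
    refine h4.trans (h1.trans ?_)
    rw [Real.exp_le_exp]
    linarith

theorem c11_ph_neg (hP : BProf) : c11_Ph (-1) Hv hv where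
  der v := c11_Hv_der v
  cont := c11_hv_cont
  nn v := by
    have := Real.cos_le_one (Real.pi * v)
    unfold Hv
    exact div_nonneg (by linarith) (sq_nonneg _)
  le v := by
    have h1 := Real.neg_one_le_cos (Real.pi * v)
    have h2 := c11_pi_sq
    unfold Hv
    rw [div_le_one (by positivity)]
    linarith
  bd v h0 h1 := by
    rw [abs_of_nonneg (c11_hv_nonneg v h0 h1)]
  dec z hz := by
    obtain ⟨p1, p2, p3, p4, p5, p6, p7, p8, p9, p10⟩ := hP
    unfold wz Hv
    obtain ⟨t, ht⟩ : ∃ t, t = az z := ⟨_, rfl⟩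
    rw [← ht] at hz ⊢
    obtain ⟨v, hv⟩ : ∃ v, v = gv t := ⟨_, rfl⟩
    have h1 := p10 t
    have h2 := (p2 t).1
    have h0 := (p2 t).2
    rw [← hv] at h0 h1 h2 ⊢
    have h3 := Real.one_sub_sq_div_two_le_cos (x := Real.pi * v)
    have hpi := Real.pi_pos
    have h4 : (1 - Real.cos (Real.pi * v)) / Real.pi ^ 2 ≤ v := by
      rw [div_le_iff₀ (by positivity)]
      have h5 : (Real.pi * v) ^ 2 = Real.pi ^ 2 * (v * v) := by ring
      rw [h5] at h3
      have h6 : v * v ≤ v := by nlinarith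
      have h7 : Real.pi ^ 2 * (v * v) ≤ Real.pi ^ 2 * v :=
        mul_le_mul_of_nonneg_left h6 (by positivity)
      have h8 : 0 ≤ Real.pi ^ 2 * v := by positivity
      linarith
    refine h4.trans (h1.trans ?_)
    rw [Real.exp_le_exp]
    linarith

/-! ### the cubes -/

theorem c11_len (a b r m : ℝ) (hr : 0 < r) (hm : 2 / 5 ≤ m) (h1 : r * (m - 1 / 100) ≤ |a|)
    (h2 : |a| ≤ r * (m + 1 / 100)) (hb : |b| ≤ r / 100) :
    r * (m - 1 / 100) ≤ Real.sqrt (a ^ 2 + b ^ 2) ∧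
      Real.sqrt (a ^ 2 + b ^ 2) ≤ r * (m + 11 / 1000) := by
  constructor
  · refine h1.trans (Real.abs_le_sqrt ?_)
    nlinarith [sq_nonneg b]
  · refine Real.sqrt_le_iff.2 ⟨by positivity, ?_⟩
    have e1 : a ^ 2 ≤ (r * (m + 1 / 100)) ^ 2 := by
      rw [← sq_abs]
      exact pow_le_pow_left₀ (abs_nonneg _) h2 2
    have e2 : b ^ 2 ≤ (r / 100) ^ 2 := by
      rw [← sq_abs]
      exact pow_le_pow_left₀ (abs_nonneg _) hb 2
    have e3 : 0 ≤ r ^ 2 * (m - 2 / 5) := mul_nonneg (sq_nonneg r) (by linarith)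
    nlinarith [sq_nonneg r]

theorem c11_cube (r s m : ℝ) (hr : 0 < r) (hs : s = 1 ∨ s = -1) (hm : 2 / 5 ≤ m)
    (z : Fin 4 → ℝ) (hz : z ∈ closedBall (r • (![s * m, 0, 4 / 5, 0] : Fin 4 → ℝ)) (r / 100)) :
    (r * (m - 1 / 100) ≤ nx z ∧ nx z ≤ r * (m + 11 / 1000)) ∧
    (r * (79 / 100) ≤ ny z ∧ ny z ≤ r * (811 / 1000)) := by
  rw [mem_closedBall, dist_pi_le_iff (by positivity)] at hz
  have h0 := hz 0
  have h1 := hz 1
  have h2 := hz 2
  have h3 := hz 3
  simp only [Pi.smul_apply, smul_eq_mul, Real.dist_eq, Matrix.cons_val_zero, Matrix.cons_val_one,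
    Matrix.cons_val, mul_zero, sub_zero] at h0 h1 h2 h3
  have hrm : 0 ≤ r * m := by positivity
  constructor
  · have h4 : |(|z 0| - r * m)| ≤ r / 100 := by
      have h5 : |r * (s * m)| = r * m := by
        rcases hs with rfl | rfl
        · rw [one_mul, abs_of_nonneg hrm]
        · rw [neg_one_mul, mul_neg, abs_neg, abs_of_nonneg hrm]
      calc |(|z 0| - r * m)| = |(|z 0| - |r * (s * m)|)| := by rw [h5]
        _ ≤ |z 0 - r * (s * m)| := abs_abs_sub_abs_le _ _
        _ ≤ r / 100 := h0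
    obtain ⟨h5, h6⟩ := abs_le.1 h4
    exact c11_len (z 0) (z 1) r m hr hm (by linarith) (by linarith) h1
  · have h4 : |(|z 2| - r * (4 / 5))| ≤ r / 100 := by
      have h5 : |r * (4 / 5)| = r * (4 / 5) := abs_of_nonneg (by positivity)
      calc |(|z 2| - r * (4 / 5))| = |(|z 2| - |r * (4 / 5)|)| := by rw [h5]
        _ ≤ |z 2 - r * (4 / 5)| := abs_abs_sub_abs_le _ _
        _ ≤ r / 100 := h2
    obtain ⟨h5, h6⟩ := abs_le.1 h4
    have h7 := c11_len (z 2) (z 3) r (4 / 5) hr (by norm_num) (by linarith) (by linarith) h3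
    norm_num at h7
    exact h7

/-- the lower bound for the divergence on the cubes -/
theorem c11_D_low (r σ : ℝ) (hr : 0 < r) (z : Fin 4 → ℝ) (h1 : r * (6 / 5) ≤ Rz z)
    (h2 : Rz z ≤ r * (12 / 5)) (h3 : 268 / 1000 * Rz z ≤ σ * az z)
    (h4 : σ * az z ≤ 313 / 1000 * Rz z) : 1 / 10 ^ 10 ≤ c11_D r σ z := by
  have hR : 0 < Rz z := lt_of_lt_of_le (by positivity) h1
  have e1 := c11_kap_low (σ * az z / Rz z) (by rwa [le_div_iff₀ hR]) (by rwa [div_le_iff₀ hR])
  have e2 : (5 : ℝ) / 12 ≤ r / Rz z := by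
    rw [le_div_iff₀ hR]
    linarith
  have e3 := c11_G'_low (Rz z / r) (by rw [le_div_iff₀ hr]; linarith)
    (by rw [div_le_iff₀ hr]; linarith)
  unfold c11_D
  have e4 : ((5 : ℝ) / 12) ^ 3 ≤ (r / Rz z) ^ 3 := pow_le_pow_left₀ (by norm_num) e2 3
  calc (1 : ℝ) / 10 ^ 10 ≤ 1 / 10 ^ 8 * (5 / 12) ^ 3 * (2 / 5) := by norm_num
    _ ≤ _ := by gcongr

theorem c11_fin (r σ : ℝ) (hr : 0 < r) (P : ℝ → ℝ) (hPc : Continuous P) (hP0 : ∀ v, 0 ≤ P v)
    (U : (Fin 4 → ℝ) → ℝ) (hU : Continuous U) (C' : ℝ) (hC' : 0 ≤ C')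
    (hI : ∫⁻ z, ENNReal.ofReal (c11_D r σ z * P (U z)) ≤ ENNReal.ofReal (C' * r))
    (S : Set (Fin 4 → ℝ)) (hS : MeasurableSet S) (hD : ∀ z ∈ S, 1 / 10 ^ 10 ≤ c11_D r σ z) :
    ∫ z in S, P (U z) ≤ 10 ^ 10 * C' * r := by
  rw [integral_eq_lintegral_of_nonneg_ae (Eventually.of_forall fun z => hP0 _)
    (hPc.comp hU).aestronglyMeasurable]
  refine ENNReal.toReal_le_of_le_ofReal (by positivity) ?_
  calc ∫⁻ z in S, ENNReal.ofReal (P (U z)) ≤
        ∫⁻ z in S, ENNReal.ofReal (10 ^ 10) * ENNReal.ofReal (c11_D r σ z * P (U z)) := by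
        refine setLIntegral_mono' hS fun z hz => ?_
        rw [← ENNReal.ofReal_mul (by positivity)]
        refine ENNReal.ofReal_le_ofReal ?_
        have h1 : (1 : ℝ) ≤ 10 ^ 10 * c11_D r σ z := by
          have := hD z hz
          rw [div_le_iff₀ (by positivity)] at this
          linarith
        calc P (U z) = 1 * P (U z) := (one_mul _).symm
          _ ≤ (10 ^ 10 * c11_D r σ z) * P (U z) := mul_le_mul_of_nonneg_right h1 (hP0 _)
          _ = 10 ^ 10 * (c11_D r σ z * P (U z)) := by ring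
    _ ≤ ENNReal.ofReal (10 ^ 10) * ∫⁻ z, ENNReal.ofReal (c11_D r σ z * P (U z)) := by
        rw [lintegral_const_mul' _ _ ENNReal.ofReal_ne_top]
        gcongr
        exact Measure.restrict_le_self
    _ ≤ ENNReal.ofReal (10 ^ 10) * ENNReal.ofReal (C' * r) := by gcongr
    _ = ENNReal.ofReal (10 ^ 10 * C' * r) := by
        rw [← ENNReal.ofReal_mul (by positivity)]
        congr 1
        ring

theorem cDecay : CNullLag → CW → BProf → BHh → CDecay := by
  intro hN hW hP hH δ C _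
  obtain ⟨C', hC'0, hC'⟩ := c11_main hN hW hP hH δ C
  refine ⟨10 ^ 10 * C', fun ρ U hU hTV r s hr hs => ?_⟩
  have hr0 : 0 < r := by linarith
  obtain ⟨KU, hKU⟩ := hU.comp.lip
  have hUc : Continuous U := hKU.continuous
  have hp := c11_ph_pos hP
  have hn := c11_ph_neg hP
  constructor
  · refine c11_fin r 1 hr0 (fun v => Hv 1 - Hv v)
      (continuous_iff_continuousAt.2 fun v => (hp.der v).continuousAt) hp.nn U hUc C' hC'0
      (hC' 1 _ _ (Or.inl rfl) hp ρ U hU hTV r hr) _ isClosed_closedBall.measurableSet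
      fun z hz => ?_
    obtain ⟨⟨a1, a2⟩, a3, a4⟩ := c11_cube r s (36 / 25) hr0 hs (by norm_num) z hz
    refine c11_D_low r 1 hr0 z ?_ ?_ ?_ ?_
    · unfold Rz
      linarith
    · unfold Rz
      linarith
    · unfold Rz az
      linarith
    · unfold Rz az
      linarith
  · refine c11_fin r (-1) hr0 Hv
      (continuous_iff_continuousAt.2 fun v => (hn.der v).continuousAt) hn.nn U hUc C' hC'0
      (hC' (-1) _ _ (Or.inr rfl) hn ρ U hU hTV r hr) _ isClosed_closedBall.measurableSet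
      fun z hz => ?_
    obtain ⟨⟨a1, a2⟩, a3, a4⟩ := c11_cube r s (11 / 25) hr0 hs (by norm_num) z hz
    refine c11_D_low r (-1) hr0 z ?_ ?_ ?_ ?_
    · unfold Rz
      linarith
    · unfold Rz
      linarith
    · unfold Rz az
      linarith
    · unfold Rz az
      linarith

end Pool.Agent.Work.MP_85f2da_an

end

section

set_option autoImplicit false

/-!
# MP_85f2da_an: item A6, the dual bound
-/

namespace Pool.Agent.Work.MP_85f2da_an

theorem a6_young (P α D : ℝ) (hD : 0 < D) : |P| * α ≤ P ^ 2 / D + D * α ^ 2 / 4 := by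
  have h1 : P ^ 2 / D + D * α ^ 2 / 4 - |P| * α = (|P| - D * α / 2) ^ 2 / D := by
    rw [← sq_abs P]
    field_simp
    ring
  have h2 : 0 ≤ (|P| - D * α / 2) ^ 2 / D := by positivity
  linarith

theorem a6_sqrt (c X Y : ℝ) (hc : c ^ 2 ≤ 1) :
    c * X + (1 - c ^ 2) * Y ≤ Real.sqrt (X ^ 2 + Y ^ 2) := by
  have h : (c * X + (1 - c ^ 2) * Y) ^ 2 ≤ X ^ 2 + Y ^ 2 := by
    have h1 : X ^ 2 + Y ^ 2 - (c * X + (1 - c ^ 2) * Y) ^ 2
        = (1 - c ^ 2) * (X - c * Y) ^ 2 + c ^ 2 * Y ^ 2 := by ring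
    have h2 : 0 ≤ (1 - c ^ 2) * (X - c * Y) ^ 2 := mul_nonneg (by linarith) (sq_nonneg _)
    have h3 : 0 ≤ c ^ 2 * Y ^ 2 := by positivity
    linarith
  exact (le_abs_self _).trans (Real.abs_le_sqrt h)

theorem aDual : ADual := by
  intro δ y P Q α β hδ hδ1 hy hα hβ
  have hy2 : y ^ 2 ≤ 361 / 400 := by
    have := abs_le.mp hy
    nlinarith
  have hy' := abs_le.mp hy
  have hdy : 2 * δ * y ^ 2 ≤ 1 / 500 := by
    have : 0 ≤ y ^ 2 := sq_nonneg y
    nlinarith
  have hdy0 : 0 ≤ 2 * δ * y ^ 2 := by positivity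
  have hD1 : 0 < 1 + y - 2 * δ * y ^ 2 := by linarith
  have hD2 : 0 < 1 - y - 2 * δ * y ^ 2 := by linarith
  have h1 := a6_young P α _ hD1
  have h2 := a6_young Q β _ hD2
  have hY : 0 ≤ δ * (1 + α ^ 2 + β ^ 2) := by positivity
  have h3 := a6_sqrt (100 / 99 * y) (α ^ 2 - β ^ 2) (δ * (1 + α ^ 2 + β ^ 2))
    (by nlinarith)
  have h4 : (α ^ 2 - β ^ 2) ^ 2 + (δ * (1 + α ^ 2 + β ^ 2)) ^ 2
      = (α ^ 2 - β ^ 2) ^ 2 + δ ^ 2 * (1 + α ^ 2 + β ^ 2) ^ 2 := by ring
  rw [h4] at h3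
  have h5 : (100 / 99 * y) ^ 2 * (δ * (1 + α ^ 2 + β ^ 2))
      ≤ 200 / 99 * y ^ 2 * (δ * (1 + α ^ 2 + β ^ 2)) := by
    apply mul_le_mul_of_nonneg_right _ hY
    nlinarith [sq_nonneg y]
  unfold lamr
  have h6 : (1 + y - 2 * δ * y ^ 2) * α ^ 2 / 4 + (1 - y - 2 * δ * y ^ 2) * β ^ 2 / 4
      = (α ^ 2 + β ^ 2) / 4 + y * (α ^ 2 - β ^ 2) / 4
        - y ^ 2 * (δ * (1 + α ^ 2 + β ^ 2)) / 2 + δ * y ^ 2 / 2 := by ring
  nlinarith

end Pool.Agent.Work.MP_85f2da_an

end

section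

set_option autoImplicit false

/-!
# MP_85f2da_an: N1, the Lagrangian in dimension `4 + m` satisfies the standard conditions
-/

open MeasureTheory Filter Set Metric
open scoped ENNReal Topology ContDiff

namespace Pool.Agent.Work.MP_85f2da_an

/-- the projection to the first four coordinates -/
private def n1_P (m : ℕ) : (Fin (4 + m) → ℝ) →L[ℝ] (Fin 4 → ℝ) :=
  ContinuousLinearMap.pi (fun i => ContinuousLinearMap.proj (Fin.castAdd m i))

private lemma n1_P_apply (m : ℕ) (p : Fin (4 + m) → ℝ) :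
    n1_P m p = fun i => p (Fin.castAdd m i) := by
  ext i
  simp [n1_P]

private abbrev n1_E (m : ℕ) := (Fin (4 + m) → ℝ) × ℝ × (Fin (4 + m) → ℝ)

/-- the second component -/
private def n1_v (m : ℕ) : n1_E m →L[ℝ] ℝ :=
  (ContinuousLinearMap.fst ℝ ℝ (Fin (4 + m) → ℝ)).comp
    (ContinuousLinearMap.snd ℝ (Fin (4 + m) → ℝ) (ℝ × (Fin (4 + m) → ℝ)))

/-- the first four coordinates of the third component -/
private def n1_p (m : ℕ) : n1_E m →L[ℝ] (Fin 4 → ℝ) :=
  (n1_P m).comp ((ContinuousLinearMap.snd ℝ ℝ (Fin (4 + m) → ℝ)).comp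
    (ContinuousLinearMap.snd ℝ (Fin (4 + m) → ℝ) (ℝ × (Fin (4 + m) → ℝ))))

/-- the coordinate `j` of the last coordinates of the third component -/
private def n1_q (m : ℕ) (j : Fin m) : n1_E m →L[ℝ] ℝ :=
  (ContinuousLinearMap.proj (Fin.natAdd 4 j) : (Fin (4 + m) → ℝ) →L[ℝ] ℝ).comp
    ((ContinuousLinearMap.snd ℝ ℝ (Fin (4 + m) → ℝ)).comp
    (ContinuousLinearMap.snd ℝ (Fin (4 + m) → ℝ) (ℝ × (Fin (4 + m) → ℝ))))

private lemma n1_G (δ : ℝ) (m : ℕ) :
    (fun q : n1_E m => Ln δ m q.1 q.2.1 q.2.2) = fun q => Fv (n1_v m q)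
      + Lam4 δ (n1_p m q) + 1 / 2 * ∑ j, (n1_q m j q) ^ 2 := by
  funext q
  simp [Ln, n1_v, n1_p, n1_q, n1_P_apply]

private lemma n1_d1 (δ : ℝ) (m : ℕ) (hF : Differentiable ℝ Fv)
    (hL : Differentiable ℝ (Lam4 δ)) (q X : n1_E m) :
    fderiv ℝ (fun q : n1_E m => Ln δ m q.1 q.2.1 q.2.2) q X
      = deriv Fv (n1_v m q) * n1_v m X + fderiv ℝ (Lam4 δ) (n1_p m q) (n1_p m X)
        + ∑ j, n1_q m j q * n1_q m j X := by
  rw [n1_G]
  have h1 : HasFDerivAt (fun q : n1_E m => Fv (n1_v m q))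
      ((fderiv ℝ Fv (n1_v m q)).comp (n1_v m)) q :=
    (hF (n1_v m q)).hasFDerivAt.comp q (n1_v m).hasFDerivAt
  have h2 : HasFDerivAt (fun q : n1_E m => Lam4 δ (n1_p m q))
      ((fderiv ℝ (Lam4 δ) (n1_p m q)).comp (n1_p m)) q :=
    (hL (n1_p m q)).hasFDerivAt.comp q (n1_p m).hasFDerivAt
  have h3 : HasFDerivAt (fun q : n1_E m => ∑ j, (n1_q m j q) ^ 2)
      (∑ j, ((2 * (n1_q m j q)) • n1_q m j)) q := by
    apply HasFDerivAt.fun_sum
    intro j _
    have := ((n1_q m j).hasFDerivAt (x := q)).pow 2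
    simpa using this
  have h4 := (h1.add h2).add (h3.const_mul (1 / 2 : ℝ))
  have h5 := h4.fderiv
  have e : (fun q : n1_E m => Fv (n1_v m q) + Lam4 δ (n1_p m q)
      + 1 / 2 * ∑ j, (n1_q m j q) ^ 2)
      = ((fun q : n1_E m => Fv (n1_v m q)) + fun q => Lam4 δ (n1_p m q))
        + fun q => 1 / 2 * ∑ j, (n1_q m j q) ^ 2 := by
    funext q
    simp
  rw [e, h5]
  simp only [add_apply, ContinuousLinearMap.comp_apply,
    smul_apply, sum_apply, smul_eq_mul]
  have h6 : fderiv ℝ Fv (n1_v m q) (n1_v m X) = deriv Fv (n1_v m q) * n1_v m X := by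
    rw [fderiv_eq_smul_deriv, smul_eq_mul, mul_comm]
  rw [h6, Finset.mul_sum]
  congr 1
  apply Finset.sum_congr rfl
  intro j _
  ring

private lemma n1_D2 (δ : ℝ) (m : ℕ) (hF : ContDiff ℝ ((⊤ : ℕ∞) : WithTop ℕ∞) Fv)
    (hL : ContDiff ℝ ((⊤ : ℕ∞) : WithTop ℕ∞) (Lam4 δ)) (q X Y : n1_E m) :
    D2 (Ln δ m) q X Y
      = deriv (deriv Fv) (n1_v m q) * n1_v m Y * n1_v m X
        + fderiv ℝ (fun p => fderiv ℝ (Lam4 δ) p (n1_p m X)) (n1_p m q) (n1_p m Y)
        + ∑ j, n1_q m j Y * n1_q m j X := by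
  have hF1 : Differentiable ℝ Fv := hF.differentiable (by simp)
  have hL1 : Differentiable ℝ (Lam4 δ) := hL.differentiable (by simp)
  have hF2 : Differentiable ℝ (deriv Fv) := by
    have : ContDiff ℝ 1 (deriv Fv) := by
      have h : ContDiff ℝ (1 + 1) Fv := hF.of_le (by norm_cast)
      exact (contDiff_succ_iff_deriv.1 h).2.2
    exact this.differentiable (by simp)
  have hL2 : Differentiable ℝ (fun p => fderiv ℝ (Lam4 δ) p (n1_p m X)) := by
    have : ContDiff ℝ 1 (fun p => fderiv ℝ (Lam4 δ) p (n1_p m X)) := by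
      have h : ContDiff ℝ (1 + 1) (Lam4 δ) := hL.of_le (by norm_cast)
      exact ((contDiff_succ_iff_fderiv.1 h).2.2).clm_apply contDiff_const
    exact this.differentiable (by simp)
  unfold D2
  have e0 : (fun q' : n1_E m => fderiv ℝ (fun q'' : n1_E m =>
      Ln δ m q''.1 q''.2.1 q''.2.2) q' X)
      = fun q' => deriv Fv (n1_v m q') * n1_v m X
        + fderiv ℝ (Lam4 δ) (n1_p m q') (n1_p m X) + ∑ j, n1_q m j q' * n1_q m j X := by
    funext q'
    exact n1_d1 δ m hF1 hL1 q' X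
  rw [e0]
  have h1 : HasFDerivAt (fun q' : n1_E m => deriv Fv (n1_v m q') * n1_v m X)
      ((n1_v m X) • (fderiv ℝ (deriv Fv) (n1_v m q)).comp (n1_v m)) q :=
    ((hF2 (n1_v m q)).hasFDerivAt.comp q (n1_v m).hasFDerivAt).mul_const (n1_v m X)
  have h2 : HasFDerivAt (fun q' : n1_E m => fderiv ℝ (Lam4 δ) (n1_p m q') (n1_p m X))
      ((fderiv ℝ (fun p => fderiv ℝ (Lam4 δ) p (n1_p m X)) (n1_p m q)).comp (n1_p m)) q :=
    (hL2 (n1_p m q)).hasFDerivAt.comp q (n1_p m).hasFDerivAt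
  have h3 : HasFDerivAt (fun q' : n1_E m => ∑ j, n1_q m j q' * n1_q m j X)
      (∑ j, (n1_q m j X) • n1_q m j) q := by
    apply HasFDerivAt.fun_sum
    intro j _
    exact ((n1_q m j).hasFDerivAt (x := q)).mul_const (n1_q m j X)
  have h4 := ((h1.add h2).add h3).fderiv
  have e : (fun q' : n1_E m => deriv Fv (n1_v m q') * n1_v m X
        + fderiv ℝ (Lam4 δ) (n1_p m q') (n1_p m X) + ∑ j, n1_q m j q' * n1_q m j X)
      = ((fun q' : n1_E m => deriv Fv (n1_v m q') * n1_v m X)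
        + fun q' => fderiv ℝ (Lam4 δ) (n1_p m q') (n1_p m X))
        + fun q' => ∑ j, n1_q m j q' * n1_q m j X := by
    funext q'
    simp
  rw [e, h4]
  simp only [add_apply, ContinuousLinearMap.comp_apply,
    smul_apply, sum_apply, smul_eq_mul]
  have h6 : fderiv ℝ (deriv Fv) (n1_v m q) (n1_v m Y)
      = deriv (deriv Fv) (n1_v m q) * n1_v m Y := by
    rw [fderiv_eq_smul_deriv, smul_eq_mul, mul_comm]
  rw [h6]
  have h7 : n1_v m X * (deriv (deriv Fv) (n1_v m q) * n1_v m Y)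
      = deriv (deriv Fv) (n1_v m q) * n1_v m Y * n1_v m X := by ring
  rw [h7]
  congr 1
  apply Finset.sum_congr rfl
  intro j _
  ring

theorem nLag : ASmooth → AHess → APot → NLag := by
  intro hS hH hP δ m hδ hδ1
  obtain ⟨-, -, -, -, hF, hper, -, -, -, hF2⟩ := hP
  have hL := hS δ hδ
  obtain ⟨M, hM, hM2⟩ := hH δ hδ hδ1
  refine ⟨?_, ?_, ?_⟩
  · have e := n1_G δ m
    rw [e]
    refine ((hF.comp (n1_v m).contDiff).add (hL.comp (n1_p m).contDiff)).add
      (contDiff_const.mul (ContDiff.sum (fun j _ => ((n1_q m j).contDiff).pow 2)))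
  · intro x v p k l
    have hp : Function.Periodic Fv 1 := hper
    have := hp.int_mul l v
    simp only [mul_one] at this
    simp only [Ln, this]
  · refine ⟨max 1000 M, lt_of_lt_of_le (by norm_num) (le_max_left _ _), ?_⟩
    intro x v p
    set c : ℝ := max 1000 M with hc
    have hc1 : (1000 : ℝ) ≤ c := le_max_left _ _
    have hc2 : M ≤ c := le_max_right _ _
    have hc0 : 0 < c := by linarith
    have hci : c⁻¹ ≤ 1 / 1000 := by
      rw [inv_eq_one_div]
      exact one_div_le_one_div_of_le (by norm_num) hc1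
    have key : ∀ (a b : Fin (4 + m) → ℝ) (s t : ℝ) (ξ η : Fin (4 + m) → ℝ),
        D2 (Ln δ m) (x, v, p) (a, s, ξ) (b, t, η)
          = deriv (deriv Fv) v * t * s
            + fderiv ℝ (fun p => fderiv ℝ (Lam4 δ) p (n1_P m ξ)) (n1_P m p) (n1_P m η)
            + ∑ j, η (Fin.natAdd 4 j) * ξ (Fin.natAdd 4 j) := by
      intro a b s t ξ η
      rw [n1_D2 δ m hF hL]
      rfl
    refine ⟨?_, ?_, ?_, ?_, ?_, ?_⟩
    · intro ξ
      rw [key]
      have h1 : fderiv ℝ (fun p => fderiv ℝ (Lam4 δ) p (n1_P m ξ)) (n1_P m p) (n1_P m ξ)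
          = Hs (Lam4 δ) (n1_P m p) (n1_P m ξ) := rfl
      rw [h1]
      obtain ⟨h2, h3⟩ := hM2 (n1_P m p) (n1_P m ξ)
      have h4 : ∑ i, ξ i ^ 2 = sq (n1_P m ξ) + ∑ j, ξ (Fin.natAdd 4 j) ^ 2 := by
        rw [Fin.sum_univ_add]
        rfl
      have h5 : ∑ j, ξ (Fin.natAdd 4 j) * ξ (Fin.natAdd 4 j)
          = ∑ j, ξ (Fin.natAdd 4 j) ^ 2 := by
        apply Finset.sum_congr rfl
        intro j _
        ring
      have h6 : 0 ≤ sq (n1_P m ξ) := Finset.sum_nonneg (fun i _ => sq_nonneg _)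
      have h7 : 0 ≤ ∑ j, ξ (Fin.natAdd 4 j) ^ 2 :=
        Finset.sum_nonneg (fun i _ => sq_nonneg _)
      rw [h4, h5]
      constructor
      · have h8 : c⁻¹ * (sq (n1_P m ξ) + ∑ j, ξ (Fin.natAdd 4 j) ^ 2)
            ≤ 1 / 1000 * (sq (n1_P m ξ) + ∑ j, ξ (Fin.natAdd 4 j) ^ 2) :=
          mul_le_mul_of_nonneg_right hci (by linarith)
        nlinarith
      · have h9 : M * sq (n1_P m ξ) ≤ c * sq (n1_P m ξ) :=
          mul_le_mul_of_nonneg_right hc2 h6
        have h10 : 1 * ∑ j, ξ (Fin.natAdd 4 j) ^ 2 ≤ c * ∑ j, ξ (Fin.natAdd 4 j) ^ 2 :=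
          mul_le_mul_of_nonneg_right (by linarith) h7
        nlinarith
    · intro ξ y
      rw [key]
      simp only [map_zero, mul_zero, Pi.zero_apply, zero_mul, Finset.sum_const_zero, add_zero,
        abs_zero]
      positivity
    · intro ξ s
      rw [key]
      simp only [map_zero, mul_zero, Pi.zero_apply, zero_mul, Finset.sum_const_zero, add_zero,
        abs_zero]
      positivity
    · intro y y'
      rw [key]
      simp only [map_zero, mul_zero, Pi.zero_apply, Finset.sum_const_zero, add_zero,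
        abs_zero]
      positivity
    · intro y s
      rw [key]
      simp only [map_zero, mul_zero, Pi.zero_apply, Finset.sum_const_zero, add_zero,
        abs_zero]
      positivity
    · intro s s'
      rw [key]
      simp only [map_zero, mul_zero, Pi.zero_apply, Finset.sum_const_zero, add_zero]
      rw [abs_mul, abs_mul]
      have h1 := hF2 v
      have h2 : 0 ≤ ∑ i, p i ^ 2 := Finset.sum_nonneg (fun i _ => sq_nonneg _)
      have h3 : |deriv (deriv Fv) v| ≤ c * (1 + ∑ i, p i ^ 2) := by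
        have h4 : c * 1 ≤ c * (1 + ∑ i, p i ^ 2) :=
          mul_le_mul_of_nonneg_left (by linarith) hc0.le
        linarith
      have h5 : |deriv (deriv Fv) v| * (|s'| * |s|) ≤ c * (1 + ∑ i, p i ^ 2) * (|s'| * |s|) :=
        mul_le_mul_of_nonneg_right h3 (by positivity)
      nlinarith

end Pool.Agent.Work.MP_85f2da_an

end

section

set_option autoImplicit false

/-!
# MP_85f2da_an, N2: minimality in dimension `4 + m` by slicing
-/

open MeasureTheory Filter Set Metric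
open scoped ENNReal Topology ContDiff

namespace Pool.Agent.Work.MP_85f2da_an

/-- the product structure of `ℝ^(4+m)` -/
noncomputable def n2_T (m : ℕ) : ((Fin m → ℝ) × (Fin 4 → ℝ)) ≃ᵐ (Fin (4 + m) → ℝ) :=
  MeasurableEquiv.prodComm.trans
    ((MeasurableEquiv.sumPiEquivProdPi (fun _ : Fin 4 ⊕ Fin m => ℝ)).symm.trans
      (MeasurableEquiv.piCongrLeft (fun _ : Fin (4 + m) => ℝ) finSumFinEquiv))

lemma n2_T_left (m : ℕ) (y : Fin m → ℝ) (x : Fin 4 → ℝ) (i : Fin 4) :
    n2_T m (y, x) (Fin.castAdd m i) = x i := by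
  have h := Equiv.piCongrLeft_apply_apply (P := fun _ : Fin (4 + m) => ℝ)
    (e := (finSumFinEquiv : Fin 4 ⊕ Fin m ≃ Fin (4 + m)))
    ((MeasurableEquiv.sumPiEquivProdPi (fun _ : Fin 4 ⊕ Fin m => ℝ)).symm (x, y)) (Sum.inl i)
  rw [finSumFinEquiv_apply_left] at h
  exact h

lemma n2_T_right (m : ℕ) (y : Fin m → ℝ) (x : Fin 4 → ℝ) (j : Fin m) :
    n2_T m (y, x) (Fin.natAdd 4 j) = y j := by
  have h := Equiv.piCongrLeft_apply_apply (P := fun _ : Fin (4 + m) => ℝ)
    (e := (finSumFinEquiv : Fin 4 ⊕ Fin m ≃ Fin (4 + m)))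
    ((MeasurableEquiv.sumPiEquivProdPi (fun _ : Fin 4 ⊕ Fin m => ℝ)).symm (x, y)) (Sum.inr j)
  rw [finSumFinEquiv_apply_right] at h
  exact h

lemma n2_T_mp (m : ℕ) : MeasurePreserving (n2_T m) (volume.prod volume) volume := by
  have h1 := volume_measurePreserving_piCongrLeft (fun _ : Fin (4 + m) => ℝ)
    (finSumFinEquiv : Fin 4 ⊕ Fin m ≃ Fin (4 + m))
  have h2 := volume_measurePreserving_sumPiEquivProdPi_symm (fun _ : Fin 4 ⊕ Fin m => ℝ)
  have h3 : MeasurePreserving (MeasurableEquiv.prodComm :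
      ((Fin m → ℝ) × (Fin 4 → ℝ)) ≃ᵐ ((Fin 4 → ℝ) × (Fin m → ℝ)))
      (volume.prod volume) (volume.prod volume) := Measure.measurePreserving_swap
  exact h1.comp (h2.comp h3)

lemma n2_T_dist (m : ℕ) (y : Fin m → ℝ) (x x' : Fin 4 → ℝ) :
    dist (n2_T m (y, x)) (n2_T m (y, x')) ≤ dist x x' := by
  rw [dist_pi_le_iff dist_nonneg]
  intro i
  refine Fin.addCases (fun i => ?_) (fun j => ?_) i
  · rw [n2_T_left, n2_T_left]
    exact dist_le_pi_dist x x' i
  · rw [n2_T_right, n2_T_right, dist_self]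
    exact dist_nonneg

lemma n2_T_ball (m : ℕ) (y : Fin m → ℝ) (x : Fin 4 → ℝ) (r : ℝ)
    (h : n2_T m (y, x) ∈ closedBall (0 : Fin (4 + m) → ℝ) r) : x ∈ closedBall (0 : Fin 4 → ℝ) r := by
  rw [mem_closedBall_zero_iff] at h ⊢
  have hr : 0 ≤ r := (norm_nonneg _).trans h
  rw [pi_norm_le_iff_of_nonneg hr] at h ⊢
  intro i
  have := h (Fin.castAdd m i)
  rwa [n2_T_left] at this

/-- the linear part of the slices -/
noncomputable def n2_emb (m : ℕ) : (Fin 4 → ℝ) →L[ℝ] (Fin (4 + m) → ℝ) :=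
  LinearMap.toContinuousLinearMap
    { toFun := fun x => n2_T m (0, x)
      map_add' := fun x x' => by
        funext i
        refine Fin.addCases (fun i => ?_) (fun j => ?_) i
        · simp only [Pi.add_apply, n2_T_left]
        · simp only [Pi.add_apply, n2_T_right, Pi.zero_apply, add_zero]
      map_smul' := fun c x => by
        funext i
        refine Fin.addCases (fun i => ?_) (fun j => ?_) i
        · simp only [Pi.smul_apply, n2_T_left, RingHom.id_apply]
        · simp only [Pi.smul_apply, n2_T_right, Pi.zero_apply, RingHom.id_apply, smul_zero] }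

lemma n2_emb_single (m : ℕ) (i : Fin 4) :
    n2_emb m (Pi.single i (1 : ℝ)) = Pi.single (Fin.castAdd m i) (1 : ℝ) := by
  funext l
  show n2_T m (0, Pi.single i (1 : ℝ)) l = _
  refine Fin.addCases (fun j => ?_) (fun j => ?_) l
  · rw [n2_T_left]
    by_cases h : j = i
    · subst h
      simp
    · rw [Pi.single_eq_of_ne h, Pi.single_eq_of_ne]
      intro h'
      exact h (Fin.castAdd_injective 4 m h')
  · rw [n2_T_right, Pi.zero_apply, Pi.single_eq_of_ne]
    intro h'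
    have := congrArg Fin.val h'
    simp at this
    omega

lemma n2_slice_fderiv (m : ℕ) (y : Fin m → ℝ) (x : Fin 4 → ℝ) :
    HasFDerivAt (fun x' : Fin 4 → ℝ => n2_T m (y, x')) (n2_emb m) x := by
  have h1 : (fun x' : Fin 4 → ℝ => n2_T m (y, x')) =
      fun x' => n2_emb m x' + n2_T m (y, 0) := by
    funext x' i
    show n2_T m (y, x') i = n2_T m (0, x') i + n2_T m (y, 0) i
    refine Fin.addCases (fun i => ?_) (fun j => ?_) i
    · simp only [n2_T_left, Pi.zero_apply, add_zero]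
    · simp only [n2_T_right, Pi.zero_apply, zero_add]
  rw [h1]
  exact (n2_emb m).hasFDerivAt.add_const _

lemma n2_slice (m : ℕ) (F : (Fin (4 + m) → ℝ) → ℝ) (y : Fin m → ℝ) (x : Fin 4 → ℝ)
    (hF : DifferentiableAt ℝ F (n2_T m (y, x))) (i : Fin 4) :
    gr (fun x' => F (n2_T m (y, x'))) x i =
      fderiv ℝ F (n2_T m (y, x)) (Pi.single (Fin.castAdd m i) 1) := by
  have h := HasFDerivAt.comp x hF.hasFDerivAt (n2_slice_fderiv m y x)
  unfold gr
  have h2 : fderiv ℝ (fun x' => F (n2_T m (y, x'))) x =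
      (fderiv ℝ F (n2_T m (y, x))).comp (n2_emb m) := h.fderiv
  rw [h2, ContinuousLinearMap.comp_apply, n2_emb_single]

/-- the extension of `u` to dimension `4 + m` -/
def n2_ext (m : ℕ) (u : (Fin 4 → ℝ) → ℝ) : (Fin (4 + m) → ℝ) → ℝ :=
  fun x => u (fun i => x (Fin.castAdd m i))

lemma n2_ext_T (m : ℕ) (u : (Fin 4 → ℝ) → ℝ) (y : Fin m → ℝ) (x : Fin 4 → ℝ) :
    n2_ext m u (n2_T m (y, x)) = u x := by
  unfold n2_ext
  congr 1
  funext i
  rw [n2_T_left]

lemma n2_ext_lip (m : ℕ) (u : (Fin 4 → ℝ) → ℝ) (K : NNReal) (hu : LipschitzWith K u) :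
    LipschitzWith K (n2_ext m u) := by
  refine LipschitzWith.of_dist_le_mul fun x x' => ?_
  refine (hu.dist_le_mul _ _).trans ?_
  refine mul_le_mul_of_nonneg_left ?_ K.coe_nonneg
  rw [dist_pi_le_iff dist_nonneg]
  intro i
  exact dist_le_pi_dist x x' _

lemma n2_ext_right (m : ℕ) (u : (Fin 4 → ℝ) → ℝ) (x : Fin (4 + m) → ℝ)
    (h : DifferentiableAt ℝ (n2_ext m u) x) (j : Fin m) :
    fderiv ℝ (n2_ext m u) x (Pi.single (Fin.natAdd 4 j) 1) = 0 := by
  have h1 := h.hasFDerivAt.hasLineDerivAt (Pi.single (Fin.natAdd 4 j) (1 : ℝ))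
  have h2 : HasLineDerivAt ℝ (n2_ext m u) 0 x (Pi.single (Fin.natAdd 4 j) (1 : ℝ)) := by
    unfold HasLineDerivAt
    have : (fun t : ℝ => n2_ext m u (x + t • Pi.single (Fin.natAdd 4 j) (1 : ℝ))) =
        fun _ => n2_ext m u x := by
      funext t
      unfold n2_ext
      congr 1
      funext i
      have hne : Fin.castAdd m i ≠ Fin.natAdd 4 j := by
        intro h'
        have := congrArg Fin.val h'
        simp at this
        omega
      rw [Pi.add_apply, Pi.smul_apply, Pi.single_eq_of_ne hne, smul_zero, add_zero]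
    rw [this]
    exact hasDerivAt_const _ _
  exact h1.unique h2

/-- the integrand in dimension `4 + m` -/
noncomputable def n2_W (δ : ℝ) (m : ℕ) (v : (Fin (4 + m) → ℝ) → ℝ) (x : Fin (4 + m) → ℝ) : ℝ :=
  Ln δ m x (v x) (fun i => fderiv ℝ v x (Pi.single i 1))

lemma n2_W_eq (δ : ℝ) (m : ℕ) (D : Dat 4) (hL : D.Lam = Lam4 δ) (hF : D.F = Fv)
    (v : (Fin (4 + m) → ℝ) → ℝ) (x : Fin (4 + m) → ℝ) :
    n2_W δ m v x = D.L (v x) (fun i => gr v x (Fin.castAdd m i)) +
      1 / 2 * ∑ j, gr v x (Fin.natAdd 4 j) ^ 2 := by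
  unfold n2_W Ln Dat.L
  rw [hL, hF]
  unfold gr
  ring

lemma n2_W_int (δ : ℝ) (m : ℕ) (D : Dat 4) (hL : D.Lam = Lam4 δ) (hF : D.F = Fv)
    (v : (Fin (4 + m) → ℝ) → ℝ) (hv : Lip v) (K : Set (Fin (4 + m) → ℝ)) (hK : IsCompact K) :
    IntegrableOn (n2_W δ m v) K := by
  obtain ⟨C, hC0, hC⟩ := q41_gr_sq_le v hv
  obtain ⟨Kv, hKv⟩ := hv
  have hm : Measurable (gr v) := q41_gr_meas v
  have hmeas : AEStronglyMeasurable (n2_W δ m v) volume := by
    have h1 : n2_W δ m v = fun x => D.L (v x) (fun i => gr v x (Fin.castAdd m i)) +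
        1 / 2 * ∑ j, gr v x (Fin.natAdd 4 j) ^ 2 := funext fun x => n2_W_eq δ m D hL hF v x
    rw [h1]
    apply Measurable.aestronglyMeasurable
    unfold Dat.L
    have a1 : Measurable fun x => D.Lam (fun i => gr v x (Fin.castAdd m i)) := by
      apply D.Lam_cont.measurable.comp
      rw [measurable_pi_iff]
      intro i
      exact measurable_pi_iff.1 hm (Fin.castAdd m i)
    have a2 : Measurable fun x => D.F (v x) := D.F_cont.measurable.comp hKv.continuous.measurable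
    have a3 : Measurable fun x => 1 / 2 * ∑ j, gr v x (Fin.natAdd 4 j) ^ 2 := by
      apply Measurable.const_mul
      apply Finset.measurable_fun_sum
      intro j _
      exact (measurable_pi_iff.1 hm (Fin.natAdd 4 j)).pow_const 2
    exact (a1.add a2).add a3
  have hc : IntegrableOn (fun _ : Fin (4 + m) → ℝ => D.M0 / 2 * C + D.M0 + 1 / 2 * C) K :=
    integrableOn_const hK.measure_lt_top.ne
  refine Integrable.mono' hc hmeas.restrict ?_
  filter_upwards with x
  rw [n2_W_eq δ m D hL hF, Real.norm_eq_abs]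
  have hsum : sq (gr v x) = sq (fun i : Fin 4 => gr v x (Fin.castAdd m i)) +
      ∑ j, gr v x (Fin.natAdd 4 j) ^ 2 := by
    unfold sq
    rw [Fin.sum_univ_add]
  have h1 := hC x
  rw [hsum] at h1
  have h2 := q41_sq_nonneg (fun i : Fin 4 => gr v x (Fin.castAdd m i))
  have h3 : 0 ≤ ∑ j, gr v x (Fin.natAdd 4 j) ^ 2 := by positivity
  have h4 := q41_L_abs_le D (v x) (fun i => gr v x (Fin.castAdd m i))
  have h5 : D.M0 / 2 * sq (fun i : Fin 4 => gr v x (Fin.castAdd m i)) ≤ D.M0 / 2 * C :=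
    mul_le_mul_of_nonneg_left (by linarith) (by linarith [D.M0_pos])
  refine (abs_add_le _ _).trans ?_
  rw [abs_of_nonneg (by positivity : 0 ≤ 1 / 2 * ∑ j, gr v x (Fin.natAdd 4 j) ^ 2)]
  linarith

/-- one slice -/
lemma n2_one (δ : ℝ) (m : ℕ) (D : Dat 4) (hL : D.Lam = Lam4 δ) (hF : D.F = Fv)
    (u : (Fin 4 → ℝ) → ℝ) (hu : Lip u) (hmin : MinAut D u) (φ : (Fin (4 + m) → ℝ) → ℝ)
    (hφ : Lip φ) (r : ℝ) (hr : ∀ x, x ∉ closedBall (0 : Fin (4 + m) → ℝ) r → φ x = 0)
    (y : Fin m → ℝ)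
    (hd : ∀ᵐ x : Fin 4 → ℝ, DifferentiableAt ℝ (fun z => n2_ext m u z + φ z) (n2_T m (y, x)) ∧
      DifferentiableAt ℝ (n2_ext m u) (n2_T m (y, x))) :
    0 ≤ ∫ x : Fin 4 → ℝ, (n2_W δ m (fun z => n2_ext m u z + φ z) (n2_T m (y, x)) -
      n2_W δ m (n2_ext m u) (n2_T m (y, x))) := by
  by_cases hint : Integrable fun x : Fin 4 → ℝ =>
      (n2_W δ m (fun z => n2_ext m u z + φ z) (n2_T m (y, x)) -
        n2_W δ m (n2_ext m u) (n2_T m (y, x)))
  swap
  · rw [integral_undef hint]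
  set ψ : (Fin 4 → ℝ) → ℝ := fun x => φ (n2_T m (y, x)) with hψ
  have hψl : Lip ψ := by
    obtain ⟨K, hK⟩ := hφ
    refine ⟨K, LipschitzWith.of_dist_le_mul fun x x' => ?_⟩
    exact (hK.dist_le_mul _ _).trans (mul_le_mul_of_nonneg_left (n2_T_dist m y x x') K.coe_nonneg)
  have hψ0 : ∀ x, x ∉ closedBall (0 : Fin 4 → ℝ) r → ψ x = 0 := fun x hx =>
    hr _ fun h => hx (n2_T_ball m y x r h)
  have hm := hmin ψ hψl r hψ0
  have hsl : Lip (fun x => u x + ψ x) := by
    obtain ⟨K, hK⟩ := hu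
    obtain ⟨K', hK'⟩ := hψl
    exact ⟨K + K', hK.add hK'⟩
  have i1 : IntegrableOn (fun x => D.L (u x) (gr u x)) (closedBall 0 r) :=
    q41_L_int D u (gr u) hu.choose_spec.continuous.aestronglyMeasurable
      (q41_gr_meas u).aestronglyMeasurable 0 r (q41_sq_gr_int u hu 0 r)
  have i2 : IntegrableOn (fun x => D.L (u x + ψ x) (gr (fun y => u y + ψ y) x))
      (closedBall 0 r) :=
    q41_L_int D (fun x => u x + ψ x) (gr (fun y => u y + ψ y))
      hsl.choose_spec.continuous.aestronglyMeasurable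
      (q41_gr_meas _).aestronglyMeasurable 0 r (q41_sq_gr_int _ hsl 0 r)
  set g : (Fin 4 → ℝ) → ℝ := fun x => D.L (u x + ψ x) (gr (fun y => u y + ψ y) x) -
    D.L (u x) (gr u x) with hg
  have hg0 : ∀ x, x ∉ closedBall (0 : Fin 4 → ℝ) r → g x = 0 := by
    intro x hx
    have h1 : (fun y => u y + ψ y) =ᶠ[𝓝 x] u := by
      filter_upwards [isClosed_closedBall.isOpen_compl.mem_nhds hx] with z hz
      rw [hψ0 z hz, add_zero]
    have h2 : gr (fun y => u y + ψ y) x = gr u x := by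
      funext i
      unfold gr
      rw [h1.fderiv_eq]
    rw [hg]
    simp only
    rw [h2, hψ0 x hx, add_zero, sub_self]
  have hgi : IntegrableOn g (closedBall 0 r) := i2.sub i1
  have hgi' : Integrable g := by
    rw [← integrableOn_iff_integrable_of_support_subset (s := closedBall (0 : Fin 4 → ℝ) r)]
    · exact hgi
    · intro x hx
      by_contra h
      exact hx (hg0 x h)
  have h1 : 0 ≤ ∫ x, g x := by
    rw [← setIntegral_eq_integral_of_forall_compl_eq_zero hg0]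
    rw [hg, integral_sub i2 i1]
    linarith
  refine h1.trans (integral_mono_ae hgi' hint ?_)
  filter_upwards [hd] with x hx
  obtain ⟨hx1, hx2⟩ := hx
  rw [n2_W_eq δ m D hL hF, n2_W_eq δ m D hL hF]
  have e1 : (fun i => gr (fun z => n2_ext m u z + φ z) (n2_T m (y, x)) (Fin.castAdd m i)) =
      gr (fun y => u y + ψ y) x := by
    funext i
    have h := n2_slice m (fun z => n2_ext m u z + φ z) y x hx1 i
    have h' : (fun x' => (fun z => n2_ext m u z + φ z) (n2_T m (y, x'))) =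
        fun y => u y + ψ y := by
      funext x'
      simp only [n2_ext_T]
      rfl
    rw [h'] at h
    exact h.symm
  have e2 : (fun i => gr (n2_ext m u) (n2_T m (y, x)) (Fin.castAdd m i)) = gr u x := by
    funext i
    have h := n2_slice m (n2_ext m u) y x hx2 i
    have h' : (fun x' => n2_ext m u (n2_T m (y, x'))) = u := by
      funext x'
      rw [n2_ext_T]
    rw [h'] at h
    exact h.symm
  have e3 : ∀ j, gr (n2_ext m u) (n2_T m (y, x)) (Fin.natAdd 4 j) = 0 := fun j =>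
    n2_ext_right m u _ hx2 j
  rw [e1, e2]
  simp only [n2_ext_T, e3]
  have e4 : 0 ≤ 1 / 2 * ∑ j, gr (fun z => n2_ext m u z + φ z) (n2_T m (y, x))
      (Fin.natAdd 4 j) ^ 2 := by positivity
  have e5 : φ (n2_T m (y, x)) = ψ x := rfl
  rw [e5, hg]
  simp only
  have e6 : (1 / 2 * ∑ _j : Fin m, (0 : ℝ) ^ 2) = 0 := by simp
  rw [e6]
  linarith

theorem nMin : NMin := by
  intro δ m D u _ hL hF hu hmin
  obtain ⟨K, hK⟩ := hu
  have hK' : LipschitzWith K (n2_ext m u) := n2_ext_lip m u K hK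
  refine ⟨hK'.locallyLipschitz, ?_⟩
  rintro φ ⟨Kφ, hφ⟩ hsupp
  have hv1 : Lip (fun z => n2_ext m u z + φ z) := ⟨K + Kφ, hK'.add hφ⟩
  have hv0 : Lip (n2_ext m u) := ⟨K, hK'⟩
  have hc : IsCompact (tsupport φ) := hsupp
  obtain ⟨r, hr⟩ := hc.isBounded.subset_closedBall (0 : Fin (4 + m) → ℝ)
  have hφ0 : ∀ x, x ∉ closedBall (0 : Fin (4 + m) → ℝ) r → φ x = 0 := by
    intro x hx
    exact image_eq_zero_of_notMem_tsupport fun h => hx (hr h)
  have i1 := n2_W_int δ m D hL hF _ hv1 (tsupport φ) hc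
  have i0 := n2_W_int δ m D hL hF _ hv0 (tsupport φ) hc
  show ∫ x in tsupport φ, n2_W δ m (n2_ext m u) x ≤
    ∫ x in tsupport φ, n2_W δ m (fun z => n2_ext m u z + φ z) x
  rw [← sub_nonneg, ← integral_sub i1 i0]
  set G : (Fin (4 + m) → ℝ) → ℝ := fun x => n2_W δ m (fun z => n2_ext m u z + φ z) x -
    n2_W δ m (n2_ext m u) x with hG
  have hG0 : ∀ x, x ∉ tsupport φ → G x = 0 := by
    intro x hx
    have h0 : φ =ᶠ[𝓝 x] 0 := notMem_tsupport_iff_eventuallyEq.1 hx
    have h1 : (fun z => n2_ext m u z + φ z) =ᶠ[𝓝 x] n2_ext m u := by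
      filter_upwards [h0] with z hz
      rw [hz, Pi.zero_apply, add_zero]
    rw [hG]
    simp only [n2_W]
    rw [h1.fderiv_eq, h1.eq_of_nhds, sub_self]
  have hGi : Integrable G := by
    rw [← integrableOn_iff_integrable_of_support_subset (s := tsupport φ)]
    · exact i1.sub i0
    · intro x hx
      by_contra h
      exact hx (hG0 x h)
  show 0 ≤ ∫ x in tsupport φ, G x
  rw [setIntegral_eq_integral_of_forall_compl_eq_zero hG0, ← (n2_T_mp m).integral_comp']
  have hGT : Integrable (fun p => G (n2_T m p)) (volume.prod volume) :=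
    ((n2_T_mp m).integrable_comp_emb (n2_T m).measurableEmbedding).2 hGi
  rw [integral_prod _ hGT]
  apply integral_nonneg_of_ae
  have hd : ∀ᵐ p : (Fin m → ℝ) × (Fin 4 → ℝ) ∂(volume.prod volume),
      DifferentiableAt ℝ (fun z => n2_ext m u z + φ z) (n2_T m p) ∧
      DifferentiableAt ℝ (n2_ext m u) (n2_T m p) := by
    have h1 : ∀ᵐ x : Fin (4 + m) → ℝ, DifferentiableAt ℝ (fun z => n2_ext m u z + φ z) x ∧
        DifferentiableAt ℝ (n2_ext m u) x := by
      filter_upwards [hv1.choose_spec.ae_differentiableAt, hK'.ae_differentiableAt] with x h1 h2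
      exact ⟨h1, h2⟩
    exact (n2_T_mp m).quasiMeasurePreserving.ae h1
  filter_upwards [Measure.ae_ae_of_ae_prod hd] with y hy
  exact n2_one δ m D hL hF u ⟨K, hK⟩ hmin φ ⟨Kφ, hφ⟩ r hφ0 y hy

end Pool.Agent.Work.MP_85f2da_an

end

section

set_option autoImplicit false

/-!
# MP_85f2da_an, C5: null sets
-/

open MeasureTheory Filter Set Metric
open scoped ENNReal Topology ContDiff

namespace Pool.Agent.Work.MP_85f2da_an

theorem c5_ae (j : Fin 4) : ∀ᵐ z : Fin 4 → ℝ, z j ≠ 0 := by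
  have h : (volume : Measure (Fin 4 → ℝ))
      (LinearMap.ker (LinearMap.proj j : (Fin 4 → ℝ) →ₗ[ℝ] ℝ) : Set (Fin 4 → ℝ)) = 0 := by
    refine Measure.addHaar_submodule _ _ ?_
    intro h
    have h1 : (Pi.single j (1 : ℝ) : Fin 4 → ℝ) ∈
        LinearMap.ker (LinearMap.proj j : (Fin 4 → ℝ) →ₗ[ℝ] ℝ) := by
      rw [h]
      exact Submodule.mem_top
    rw [LinearMap.mem_ker, LinearMap.proj_apply, Pi.single_eq_same] at h1
    exact one_ne_zero h1
  filter_upwards [measure_eq_zero_iff_ae_notMem.1 h] with z hz hz0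
  exact hz (by rw [SetLike.mem_coe, LinearMap.mem_ker, LinearMap.proj_apply]; exact hz0)

theorem cNull : CNull := by
  filter_upwards [c5_ae 0, c5_ae 2] with z h0 h2
  have p0 : 0 < z 0 ^ 2 := by positivity
  have p2 : 0 < z 2 ^ 2 := by positivity
  refine ⟨Real.sqrt_pos.2 ?_, Real.sqrt_pos.2 ?_⟩
  · nlinarith [sq_nonneg (z 1)]
  · nlinarith [sq_nonneg (z 3)]

end Pool.Agent.Work.MP_85f2da_an

end
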