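import Pool.Agent.Work.MP_85f2da_an.StmtsB
import Pool.Agent.Work.MP_2cde6c_an.Cutoff

/-! Bundle of small proof modules (one section per former module). -/

section

set_option autoImplicit false

/-!
# MP_85f2da_an, N3: the final theorem
-/

open MeasureTheory Filter Set Metric
open scoped ENNReal Topology ContDiff

namespace Pool.Agent.Work.MP_85f2da_an

theorem nFinal (hE : EFour) (hL : NLag) (hM : NMin) : NFinal := by
  intro n hn
  obtain ⟨m, rfl⟩ := Nat.exists_eq_add_of_le hn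
  obtain ⟨δ, D, u, hδ, hδ1, hDL, hDF, hu, hmin, ⟨z1, hz1⟩, ⟨z2, hz2⟩⟩ := hE
  refine ⟨Ln δ m, fun x => u (fun i => x (Fin.castAdd m i)), hL δ m hδ hδ1,
    hM δ m D u hδ hDL hDF hu hmin, ?_, ?_⟩
  · obtain ⟨K, hK⟩ := hu
    refine ⟨K * 1, hK.comp ?_⟩
    refine LipschitzWith.of_dist_le_mul fun x y => ?_
    rw [NNReal.coe_one, one_mul]
    refine (dist_pi_le_iff dist_nonneg).2 fun i => ?_
    exact dist_le_pi_dist x y (Fin.castAdd m i)
  · intro hN
    have hcont : Continuous u := by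
      obtain ⟨K, hK⟩ := hu
      exact hK.continuous
    let k : Fin (4 + m) → ℤ := fun i => if i = Fin.castAdd m 0 then 1 else 0
    have key : ∀ x : Fin 4 → ℝ, ∃ y : Fin (4 + m) → ℝ,
        (fun i => y (Fin.castAdd m i)) = x ∧
        (fun i => (fun i => y i + (k i : ℝ)) (Fin.castAdd m i)) = x + Pi.single 0 1 := by
      intro x
      refine ⟨fun i => Fin.addCases (motive := fun _ => ℝ) x (fun _ => 0) i, ?_, ?_⟩
      · funext i
        exact Fin.addCases_left i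
      · funext i
        show Fin.addCases (motive := fun _ => ℝ) x (fun _ => 0) (Fin.castAdd m i) +
          ((if Fin.castAdd m i = Fin.castAdd m 0 then (1 : ℤ) else 0 : ℤ) : ℝ) = _
        rw [Fin.addCases_left, Pi.add_apply]
        congr 1
        by_cases hi : i = 0
        · subst hi
          simp
        · rw [if_neg (fun h => hi (Fin.castAdd_injective 4 m h)), Pi.single_eq_of_ne hi]
          simp
    have hval : ∀ x : Fin 4 → ℝ, ∃ y : Fin (4 + m) → ℝ,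
        (fun x : Fin (4 + m) → ℝ => u (fun i => x (Fin.castAdd m i))) (fun i => y i + (k i : ℝ)) +
          ((0 : ℤ) : ℝ) - (fun x : Fin (4 + m) → ℝ => u (fun i => x (Fin.castAdd m i))) y =
          u (x + Pi.single 0 1) - u x := by
      intro x
      obtain ⟨y, h1, h2⟩ := key x
      refine ⟨y, ?_⟩
      show u (fun i => (fun i => y i + (k i : ℝ)) (Fin.castAdd m i)) + ((0 : ℤ) : ℝ) -
        u (fun i => y (Fin.castAdd m i)) = _
      rw [h1, h2]
      simp
    rcases hN k 0 with h | h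
    · obtain ⟨y, hy⟩ := hval z1
      have := h y
      rw [hy] at this
      linarith
    · have hf : Continuous fun x : Fin 4 → ℝ => u (x + Pi.single 0 1) - u x :=
        (hcont.comp (continuous_id.add continuous_const)).sub hcont
      obtain ⟨x, hx⟩ := mem_range_of_exists_le_of_exists_ge hf (c := 0) ⟨z1, by linarith⟩
        ⟨z2, by linarith⟩
      obtain ⟨y, hy⟩ := hval x
      exact h y (hy.trans hx)

end Pool.Agent.Work.MP_85f2da_an

end

section

set_option autoImplicit false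

/-!
# Item C4: bounds of the fields
-/

open MeasureTheory Filter Set Metric
open scoped ENNReal Topology ContDiff

namespace Pool.Agent.Work.MP_85f2da_an

/-! ### the coefficients -/

/-- normal components in the variables `w = a / R`, `r = 1 / R` -/
noncomputable def c4_gN (q : ℝ × ℝ) : Fin 6 → ℝ :=
  ![(8 * (1 - q.1 ^ 2) ^ 2 - 5 * (1 - q.1 ^ 2) ^ 3) / 3, 0,
    q.1 * q.2 * (6 * (1 - q.1 ^ 2) - 5 * (1 - q.1 ^ 2) ^ 2),
    (6 * (1 - q.1 ^ 2) - 5 * (1 - q.1 ^ 2) ^ 2) * q.2 ^ 2,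
    q.1 * q.2 * (1 - q.1 ^ 2) ^ 2,
    (1 - q.1 ^ 2) ^ 2 * q.2 ^ 2]

/-- tangential components -/
noncomputable def c4_gT (q : ℝ × ℝ) : Fin 6 → ℝ :=
  ![0, 8 / 3 * q.1 * (1 - q.1 ^ 2) ^ 2,
    -((1 - q.1 ^ 2) ^ 2 - 6 * q.1 ^ 2 * (1 - q.1 ^ 2)) * q.2,
    6 * (q.1 * q.2 ^ 2) * (1 - q.1 ^ 2), 0, 0]

/-- divergences -/
noncomputable def c4_gD (q : ℝ × ℝ) : Fin 6 → ℝ :=
  ![8 / 3 * (q.1 * q.2) * (1 - q.1 ^ 2) * (5 * (1 - q.1 ^ 2) - 6),
    -(8 / 3 * (q.1 * q.2) * (1 - q.1 ^ 2) * (5 * (1 - q.1 ^ 2) - 6)), 0, 0,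
    ((1 - q.1 ^ 2) ^ 2 - 6 * q.1 ^ 2 * (1 - q.1 ^ 2)) * q.2 ^ 2,
    -(6 * (q.1 * q.2 ^ 3) * (1 - q.1 ^ 2))]

theorem c4_fN_eq (i : Fin 6) (R a : ℝ) (hR : R ≠ 0) : fN i R a = c4_gN (a / R, 1 / R) i := by
  unfold fN c4_gN
  fin_cases i
  · simp
  · simp
  · simp [-mul_eq_mul_right_iff, -mul_eq_mul_left_iff, -neg_inj]
    field_simp
  · simp [-mul_eq_mul_right_iff, -mul_eq_mul_left_iff, -neg_inj]
    field_simp
  · simp [-mul_eq_mul_right_iff, -mul_eq_mul_left_iff, -neg_inj]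
    field_simp
  · simp [-mul_eq_mul_right_iff, -mul_eq_mul_left_iff, -neg_inj]
    field_simp

theorem c4_fT_eq (i : Fin 6) (R a : ℝ) (hR : R ≠ 0) : fT i R a = c4_gT (a / R, 1 / R) i := by
  unfold fT c4_gT
  fin_cases i
  · simp
  · simp
  · simp [-mul_eq_mul_right_iff, -mul_eq_mul_left_iff, -neg_inj]
    field_simp
  · simp [-mul_eq_mul_right_iff, -mul_eq_mul_left_iff, -neg_inj]
    field_simp
  · simp
  · simp

theorem c4_fD_eq (i : Fin 6) (R a : ℝ) (hR : R ≠ 0) : fD i R a = c4_gD (a / R, 1 / R) i := by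
  unfold fD c4_gD
  fin_cases i
  · simp [-mul_eq_mul_right_iff, -mul_eq_mul_left_iff, -neg_inj]
    field_simp
  · simp [-mul_eq_mul_right_iff, -mul_eq_mul_left_iff, -neg_inj]
    field_simp
  · simp
  · simp
  · simp [-mul_eq_mul_right_iff, -mul_eq_mul_left_iff, -neg_inj]
    field_simp
  · simp [-mul_eq_mul_right_iff, -mul_eq_mul_left_iff, -neg_inj]
    field_simp

theorem c4_gN_cont : Continuous c4_gN := by
  refine continuous_pi fun i => ?_
  unfold c4_gN
  fin_cases i <;> simp <;> fun_prop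

theorem c4_gT_cont : Continuous c4_gT := by
  refine continuous_pi fun i => ?_
  unfold c4_gT
  fin_cases i <;> simp <;> fun_prop

theorem c4_gD_cont : Continuous c4_gD := by
  refine continuous_pi fun i => ?_
  unfold c4_gD
  fin_cases i <;> simp <;> fun_prop

theorem c4_coef : ∃ C : ℝ, 0 < C ∧ ∀ (i : Fin 6) (R a : ℝ), 1 ≤ R → |a| ≤ R →
    |fN i R a| ≤ C ∧ |fT i R a| ≤ C ∧ |fD i R a| ≤ C := by
  have hK : IsCompact (Icc (-1 : ℝ) 1 ×ˢ Icc (0 : ℝ) 1) := isCompact_Icc.prod isCompact_Icc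
  obtain ⟨CN, hCN⟩ := hK.exists_bound_of_continuousOn c4_gN_cont.continuousOn
  obtain ⟨CT, hCT⟩ := hK.exists_bound_of_continuousOn c4_gT_cont.continuousOn
  obtain ⟨CD, hCD⟩ := hK.exists_bound_of_continuousOn c4_gD_cont.continuousOn
  refine ⟨|CN| + |CT| + |CD| + 1, by positivity, fun i R a hR ha => ?_⟩
  have hR0 : 0 < R := by linarith
  have hq : (a / R, 1 / R) ∈ Icc (-1 : ℝ) 1 ×ˢ Icc (0 : ℝ) 1 := by
    refine ⟨abs_le.1 ?_, by positivity, ?_⟩
    · rw [abs_div, abs_of_pos hR0]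
      exact (div_le_one hR0).2 ha
    · exact (div_le_one hR0).2 hR
  have h1 := (norm_le_pi_norm (c4_gN (a / R, 1 / R)) i).trans (hCN _ hq)
  have h2 := (norm_le_pi_norm (c4_gT (a / R, 1 / R)) i).trans (hCT _ hq)
  have h3 := (norm_le_pi_norm (c4_gD (a / R, 1 / R)) i).trans (hCD _ hq)
  rw [Real.norm_eq_abs, ← c4_fN_eq i R a hR0.ne'] at h1
  rw [Real.norm_eq_abs, ← c4_fT_eq i R a hR0.ne'] at h2
  rw [Real.norm_eq_abs, ← c4_fD_eq i R a hR0.ne'] at h3
  have a1 := le_abs_self CN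
  have a2 := le_abs_self CT
  have a3 := le_abs_self CD
  have b1 := abs_nonneg CN
  have b2 := abs_nonneg CT
  have b3 := abs_nonneg CD
  refine ⟨by linarith, by linarith, by linarith⟩

/-! ### lengths -/

theorem c4_len (a b : ℝ) : |a| ≤ Real.sqrt (a ^ 2 + b ^ 2) ∧ |b| ≤ Real.sqrt (a ^ 2 + b ^ 2) := by
  constructor
  · rw [← Real.sqrt_sq_eq_abs]
    exact Real.sqrt_le_sqrt (by nlinarith [sq_nonneg b])
  · rw [← Real.sqrt_sq_eq_abs]
    exact Real.sqrt_le_sqrt (by nlinarith [sq_nonneg a])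

theorem c4_az_le (z : Fin 4 → ℝ) : |az z| ≤ Rz z := by
  have h1 : 0 ≤ nx z := Real.sqrt_nonneg _
  have h2 : 0 ≤ ny z := Real.sqrt_nonneg _
  unfold az Rz
  rw [abs_le]
  constructor
  · linarith
  · linarith

theorem c4_div_mul (c n x C : ℝ) (hn : 0 ≤ n) (hx : |x| ≤ n) (hc : |c| ≤ C) (hC : 0 ≤ C) :
    |c / n * x| ≤ C := by
  rcases hn.eq_or_lt with h | h
  · rw [← h]
    simpa using hC
  · rw [div_mul_eq_mul_div, abs_div, abs_mul, abs_of_pos h, div_le_iff₀ h]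
    exact mul_le_mul hc hx (abs_nonneg _) hC

theorem c4_Ez (C : ℝ) (hC : 0 ≤ C) (i : Fin 6) (z : Fin 4 → ℝ)
    (hN : |fN i (Rz z) (az z)| ≤ C) (hT : |fT i (Rz z) (az z)| ≤ C) (j : Fin 4) :
    |Ez i z j| ≤ C := by
  have hn1 : 0 ≤ nx z := Real.sqrt_nonneg _
  have hn2 : 0 ≤ ny z := Real.sqrt_nonneg _
  have h0 := (c4_len (z 0) (z 1)).1
  have h1 := (c4_len (z 0) (z 1)).2
  have h2 := (c4_len (z 2) (z 3)).1
  have h3 := (c4_len (z 2) (z 3)).2
  have hp : |(fN i (Rz z) (az z) + fT i (Rz z) (az z)) / 2| ≤ C := by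
    rw [abs_div, abs_two, div_le_iff₀ (by norm_num)]
    exact (abs_add_le _ _).trans (by linarith)
  have hm : |(fN i (Rz z) (az z) - fT i (Rz z) (az z)) / 2| ≤ C := by
    rw [abs_div, abs_two, div_le_iff₀ (by norm_num)]
    exact (abs_sub _ _).trans (by linarith)
  unfold Ez vf
  fin_cases j
  · exact c4_div_mul _ _ _ _ hn1 h0 hp hC
  · exact c4_div_mul _ _ _ _ hn1 h1 hp hC
  · simp only [Fin.reduceFinMk, Matrix.cons_val]
    rw [abs_neg]
    exact c4_div_mul _ _ _ _ hn2 h2 hm hC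
  · simp only [Fin.reduceFinMk, Matrix.cons_val]
    rw [abs_neg]
    exact c4_div_mul _ _ _ _ hn2 h3 hm hC

/-! ### the gradient of `R` -/

theorem c4_sqrt (k l : Fin 4) (z : Fin 4 → ℝ) (h : 0 < Real.sqrt (z k ^ 2 + z l ^ 2)) :
    HasFDerivAt (fun y : Fin 4 → ℝ => Real.sqrt (y k ^ 2 + y l ^ 2))
      ((1 / (2 * Real.sqrt (z k ^ 2 + z l ^ 2))) •
        ((2 * z k) • (ContinuousLinearMap.proj k : (Fin 4 → ℝ) →L[ℝ] ℝ) +
          (2 * z l) • (ContinuousLinearMap.proj l : (Fin 4 → ℝ) →L[ℝ] ℝ))) z := by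
  have hne : z k ^ 2 + z l ^ 2 ≠ 0 := by
    intro h0
    rw [h0, Real.sqrt_zero] at h
    exact lt_irrefl 0 h
  refine HasFDerivAt.sqrt ?_ hne
  have hk : HasFDerivAt (fun y : Fin 4 → ℝ => y k)
      (ContinuousLinearMap.proj k : (Fin 4 → ℝ) →L[ℝ] ℝ) z :=
    (ContinuousLinearMap.proj k : (Fin 4 → ℝ) →L[ℝ] ℝ).hasFDerivAt
  have hl : HasFDerivAt (fun y : Fin 4 → ℝ => y l)
      (ContinuousLinearMap.proj l : (Fin 4 → ℝ) →L[ℝ] ℝ) z :=
    (ContinuousLinearMap.proj l : (Fin 4 → ℝ) →L[ℝ] ℝ).hasFDerivAt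
  have h1 := (hk.pow 2).add (hl.pow 2)
  refine h1.congr_fderiv ?_
  simp

theorem c4_sqrt_le (k l : Fin 4) (hkl : k ≠ l) (z : Fin 4 → ℝ)
    (h : 0 < Real.sqrt (z k ^ 2 + z l ^ 2)) (j : Fin 4) :
    |((1 / (2 * Real.sqrt (z k ^ 2 + z l ^ 2))) •
        ((2 * z k) • (ContinuousLinearMap.proj k : (Fin 4 → ℝ) →L[ℝ] ℝ) +
          (2 * z l) • (ContinuousLinearMap.proj l : (Fin 4 → ℝ) →L[ℝ] ℝ)) :
      (Fin 4 → ℝ) →L[ℝ] ℝ) (Pi.single j 1)| ≤ 1 := by
  have hlen := c4_len (z k) (z l)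
  simp only [_root_.smul_apply, _root_.add_apply,
    ContinuousLinearMap.proj_apply, smul_eq_mul]
  set s := Real.sqrt (z k ^ 2 + z l ^ 2) with hs
  by_cases hj : j = k
  · subst hj
    rw [Pi.single_eq_same, Pi.single_eq_of_ne (Ne.symm hkl)]
    have h1 : 1 / (2 * s) * (2 * z j * 1 + 2 * z l * 0) = z j / s := by
      field_simp
      ring
    rw [h1, abs_div, abs_of_pos h]
    exact (div_le_one h).2 hlen.1
  · rw [Pi.single_eq_of_ne (Ne.symm hj)]
    by_cases hj2 : j = l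
    · subst hj2
      rw [Pi.single_eq_same]
      have h1 : 1 / (2 * s) * (2 * z k * 0 + 2 * z j * 1) = z j / s := by
        field_simp
        ring
      rw [h1, abs_div, abs_of_pos h]
      exact (div_le_one h).2 hlen.2
    · rw [Pi.single_eq_of_ne (Ne.symm hj2)]
      simp

theorem c4_Rz (z : Fin 4 → ℝ) (hx : 0 < nx z) (hy : 0 < ny z) :
    ∃ L : (Fin 4 → ℝ) →L[ℝ] ℝ, HasFDerivAt Rz L z ∧ ∀ j, |L (Pi.single j 1)| ≤ 2 := by
  have h1 := c4_sqrt 0 1 z hx
  have h2 := c4_sqrt 2 3 z hy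
  refine ⟨_, h1.add h2, fun j => ?_⟩
  have h3 := c4_sqrt_le 0 1 (by decide) z hx j
  have h4 := c4_sqrt_le 2 3 (by decide) z hy j
  rw [_root_.add_apply]
  exact (abs_add_le _ _).trans (by linarith)

theorem c4_deriv_neg (x : ℝ) (hx : x < 0) : deriv Real.smoothTransition x = 0 := by
  have h1 : Real.smoothTransition =ᶠ[𝓝 x] fun _ => (0 : ℝ) := by
    filter_upwards [Iio_mem_nhds hx] with y hy
    exact Real.smoothTransition.zero_of_nonpos (le_of_lt hy)
  rw [h1.deriv_eq, deriv_const]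

theorem cBd : CDiv → CBd := by
  intro hdiv
  obtain ⟨C0, hC0, hcoef⟩ := c4_coef
  obtain ⟨C1, hC1, hder⟩ := MP_2cde6c_an.smoothTransition_deriv_bound
  refine ⟨C0 + C1 * (8 * C0) + C0, by positivity, fun i z => ⟨fun j => ?_, fun hx hy => ?_⟩⟩
  · unfold Ec
    rw [Pi.smul_apply, smul_eq_mul]
    rcases le_or_gt (Rz z) 1 with h | h
    · rw [Real.smoothTransition.zero_of_nonpos (by linarith), zero_mul, abs_zero]
      positivity
    · obtain ⟨h1, h2, h3⟩ := hcoef i (Rz z) (az z) h.le (c4_az_le z)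
      have h4 := c4_Ez C0 hC0.le i z h1 h2 j
      rw [abs_mul, abs_of_nonneg (Real.smoothTransition.nonneg _)]
      have h5 := Real.smoothTransition.le_one (Rz z - 1)
      have h6 := Real.smoothTransition.nonneg (Rz z - 1)
      have h7 : Real.smoothTransition (Rz z - 1) * |Ez i z j| ≤ 1 * C0 :=
        mul_le_mul h5 h4 (abs_nonneg _) zero_le_one
      have h8 : 0 ≤ C1 * (8 * C0) := by positivity
      linarith
  · obtain ⟨hdE, hdvE⟩ := hdiv i z hx hy
    obtain ⟨L, hL, hLb⟩ := c4_Rz z hx hy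
    have hχ : HasDerivAt Real.smoothTransition (deriv Real.smoothTransition (Rz z - 1)) (Rz z - 1) :=
      ((Real.smoothTransition.contDiff (n := 1)).differentiable (by norm_num) _).hasDerivAt
    have hχR : HasFDerivAt (fun y => Real.smoothTransition (Rz y - 1))
        (deriv Real.smoothTransition (Rz z - 1) • L) z := by
      have h1 : HasFDerivAt (fun y => Rz y - 1) L z := hL.sub_const 1
      exact hχ.comp_hasFDerivAt z h1
    have hprod : ∀ j : Fin 4, fderiv ℝ (fun y => Ec i y j) z (Pi.single j 1) =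
        Real.smoothTransition (Rz z - 1) * fderiv ℝ (fun y => Ez i y j) z (Pi.single j 1) +
          Ez i z j * (deriv Real.smoothTransition (Rz z - 1) * L (Pi.single j 1)) := by
      intro j
      have h1 : HasFDerivAt (fun y => Ez i y j) (fderiv ℝ (fun y => Ez i y j) z) z :=
        (differentiableAt_pi.1 hdE j).hasFDerivAt
      have h2 := hχR.mul h1
      have h3 : (fun y => Ec i y j) = fun y => Real.smoothTransition (Rz y - 1) * Ez i y j := by
        funext y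
        unfold Ec
        rw [Pi.smul_apply, smul_eq_mul]
      rw [h3]
      have h4 := h2.fderiv
      erw [h4]
      simp
    have hsum : dv (Ec i) z = Real.smoothTransition (Rz z - 1) * fD i (Rz z) (az z) +
        deriv Real.smoothTransition (Rz z - 1) * ∑ j, Ez i z j * L (Pi.single j 1) := by
      unfold dv
      rw [Finset.sum_congr rfl fun j _ => hprod j, Finset.sum_add_distrib, ← Finset.mul_sum,
        ← hdvE]
      unfold dv
      congr 1
      rw [Finset.mul_sum]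
      refine Finset.sum_congr rfl fun j _ => ?_
      ring
    rcases lt_or_ge (Rz z) 1 with h | h
    · rw [hsum, Real.smoothTransition.zero_of_nonpos (by linarith), c4_deriv_neg _ (by linarith)]
      simp only [zero_mul, add_zero, abs_zero]
      positivity
    · obtain ⟨h1, h2, h3⟩ := hcoef i (Rz z) (az z) h (c4_az_le z)
      have h4 : |∑ j, Ez i z j * L (Pi.single j 1)| ≤ 8 * C0 := by
        refine (Finset.abs_sum_le_sum_abs _ _).trans ?_
        have h5 : ∀ j ∈ (Finset.univ : Finset (Fin 4)), |Ez i z j * L (Pi.single j 1)| ≤ C0 * 2 := by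
          intro j _
          rw [abs_mul]
          exact mul_le_mul (c4_Ez C0 hC0.le i z h1 h2 j) (hLb j) (abs_nonneg _) hC0.le
        refine (Finset.sum_le_sum h5).trans (le_of_eq ?_)
        rw [Finset.sum_const, Finset.card_univ, Fintype.card_fin]
        simp
        ring
      rw [hsum]
      refine (abs_add_le _ _).trans ?_
      rw [abs_mul, abs_mul, abs_of_nonneg (Real.smoothTransition.nonneg _)]
      have h6 : Real.smoothTransition (Rz z - 1) * |fD i (Rz z) (az z)| ≤ 1 * C0 :=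
        mul_le_mul (Real.smoothTransition.le_one _) h3 (abs_nonneg _) zero_le_one
      have h7 : |deriv Real.smoothTransition (Rz z - 1)| * |∑ j, Ez i z j * L (Pi.single j 1)| ≤
          C1 * (8 * C0) := mul_le_mul (hder _) h4 (abs_nonneg _) hC1.le
      linarith

end Pool.Agent.Work.MP_85f2da_an

end

section

/-!
# MP_85f2da_an: away from the cut off
-/

namespace Pool.Agent.Work.MP_85f2da_an

theorem c3_eq (i : Fin 6) (z : Fin 4 → ℝ) (h : 2 < Rz z) : Ec i z = Ez i z := by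
  unfold Ec
  rw [Real.smoothTransition.one_of_one_le (by linarith), one_smul]

theorem c3_cont : Continuous Rz := by
  unfold Rz nx ny
  fun_prop

theorem cCut : CCut := by
  intro i z hz
  refine ⟨c3_eq i z hz, ?_⟩
  have h1 : ∀ᶠ y in nhds z, Ec i y = Ez i y := by
    have h2 : ∀ᶠ y in nhds z, 2 < Rz y := c3_cont.continuousAt.eventually (lt_mem_nhds hz)
    exact h2.mono fun y hy => c3_eq i y hy
  unfold dv
  refine Finset.sum_congr rfl fun j _ => ?_
  have h3 : (fun y => Ec i y j) =ᶠ[nhds z] fun y => Ez i y j := h1.mono fun y hy => by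
    simp only [hy]
  rw [h3.fderiv_eq]

end Pool.Agent.Work.MP_85f2da_an

end

section

set_option autoImplicit false

/-!
# MP_85f2da_an, C2: divergences of the six fields
-/

open MeasureTheory Filter Set Metric
open scoped ENNReal Topology ContDiff

namespace Pool.Agent.Work.MP_85f2da_an

theorem c2_hasF2 (i j : Fin 4) (z : Fin 4 → ℝ) (h : 0 < Real.sqrt (z i ^ 2 + z j ^ 2)) :
    HasFDerivAt (fun z : Fin 4 → ℝ => Real.sqrt (z i ^ 2 + z j ^ 2))
      ((1 / (2 * Real.sqrt (z i ^ 2 + z j ^ 2))) •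
        ((2 * z i) • (ContinuousLinearMap.proj i : (Fin 4 → ℝ) →L[ℝ] ℝ) +
          (2 * z j) • (ContinuousLinearMap.proj j : (Fin 4 → ℝ) →L[ℝ] ℝ))) z := by
  have hi : HasFDerivAt (fun z : Fin 4 → ℝ => z i)
      (ContinuousLinearMap.proj i : (Fin 4 → ℝ) →L[ℝ] ℝ) z :=
    (ContinuousLinearMap.proj i : (Fin 4 → ℝ) →L[ℝ] ℝ).hasFDerivAt
  have hj : HasFDerivAt (fun z : Fin 4 → ℝ => z j)
      (ContinuousLinearMap.proj j : (Fin 4 → ℝ) →L[ℝ] ℝ) z :=
    (ContinuousLinearMap.proj j : (Fin 4 → ℝ) →L[ℝ] ℝ).hasFDerivAt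
  have h1 : HasFDerivAt (fun z : Fin 4 → ℝ => z i ^ 2 + z j ^ 2)
      ((2 * z i) • (ContinuousLinearMap.proj i : (Fin 4 → ℝ) →L[ℝ] ℝ) +
          (2 * z j) • (ContinuousLinearMap.proj j : (Fin 4 → ℝ) →L[ℝ] ℝ)) z := by
    have h0 := (hi.pow 2).add (hj.pow 2)
    simp only [Nat.add_one_sub_one, pow_one, nsmul_eq_mul, Nat.cast_ofNat] at h0
    exact h0
  have hne : (z i ^ 2 + z j ^ 2) ≠ 0 := by
    intro h0
    rw [h0, Real.sqrt_zero] at h
    exact lt_irrefl _ h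
  exact h1.sqrt hne

/-- Derivatives along a coordinate line. -/
theorem c2_line (z : Fin 4 → ℝ) (j : Fin 4) :
    HasDerivAt (fun h : ℝ => z + h • (Pi.single j (1 : ℝ) : Fin 4 → ℝ)) (Pi.single j 1) 0 := by
  have h := ((hasDerivAt_id (0 : ℝ)).smul_const (Pi.single j (1 : ℝ) : Fin 4 → ℝ)).const_add z
  simp only [one_smul] at h
  exact h

theorem c2_comp {g : (Fin 4 → ℝ) → ℝ} {g' : (Fin 4 → ℝ) →L[ℝ] ℝ} {z : Fin 4 → ℝ}
    (hg : HasFDerivAt g g' z) (j : Fin 4) :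
    HasDerivAt (fun h : ℝ => g (z + h • (Pi.single j (1 : ℝ) : Fin 4 → ℝ)))
      (g' (Pi.single j 1)) 0 := by
  have hz : z = z + (0 : ℝ) • (Pi.single j (1 : ℝ) : Fin 4 → ℝ) := by simp
  rw [hz] at hg
  exact hg.comp_hasDerivAt 0 (c2_line z j)

/-- The general divergence formula. -/
theorem c2_div {n τ : ℝ × ℝ → ℝ} {z : Fin 4 → ℝ} (hx : 0 < nx z) (hy : 0 < ny z)
    (hn : DifferentiableAt ℝ n (Rz z, az z)) (hτ : DifferentiableAt ℝ τ (Rz z, az z)) :
    DifferentiableAt ℝ (fun y => vf (n (Rz y, az y)) (τ (Rz y, az y)) y) z ∧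
    dv (fun y => vf (n (Rz y, az y)) (τ (Rz y, az y)) y) z =
      fderiv ℝ n (Rz z, az z) (0, 1) + fderiv ℝ τ (Rz z, az z) (1, 0) +
      (n (Rz z, az z) + τ (Rz z, az z)) / (2 * nx z) -
      (n (Rz z, az z) - τ (Rz z, az z)) / (2 * ny z) := by
  have dx : HasFDerivAt nx _ z := c2_hasF2 0 1 z hx
  have dy : HasFDerivAt ny _ z := c2_hasF2 2 3 z hy
  have dR : HasFDerivAt Rz _ z := dx.add dy
  have da : HasFDerivAt az _ z := dx.sub dy
  have dRa : HasFDerivAt (fun y => (Rz y, az y)) _ z := dR.prodMk da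
  have dn : HasFDerivAt (fun y => n (Rz y, az y)) _ z :=
    HasFDerivAt.comp (g := n) z hn.hasFDerivAt dRa
  have dτ : HasFDerivAt (fun y => τ (Rz y, az y)) _ z :=
    HasFDerivAt.comp (g := τ) z hτ.hasFDerivAt dRa
  set N := n (Rz z, az z) with hN
  set T := τ (Rz z, az z) with hT
  have hs : Real.sqrt (z 0 ^ 2 + z 1 ^ 2) = nx z := rfl
  have ht : Real.sqrt (z 2 ^ 2 + z 3 ^ 2) = ny z := rfl
  -- differentiability
  have cj : ∀ j : Fin 4, DifferentiableAt ℝ (fun y : Fin 4 → ℝ => y j) z := fun j =>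
    (ContinuousLinearMap.proj j : (Fin 4 → ℝ) →L[ℝ] ℝ).differentiableAt
  have e0 : DifferentiableAt ℝ (fun y => (n (Rz y, az y) + τ (Rz y, az y)) / 2 / nx y) z := by
    have e : (fun y => (n (Rz y, az y) + τ (Rz y, az y)) / 2 / nx y) =
        fun y => (n (Rz y, az y) + τ (Rz y, az y)) * (1 / 2) * (nx y)⁻¹ := by
      funext y
      ring
    rw [e]
    exact ((dn.differentiableAt.add dτ.differentiableAt).mul_const (1 / 2)).mul
      (dx.differentiableAt.inv hx.ne')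
  have e2 : DifferentiableAt ℝ (fun y => (n (Rz y, az y) - τ (Rz y, az y)) / 2 / ny y) z := by
    have e : (fun y => (n (Rz y, az y) - τ (Rz y, az y)) / 2 / ny y) =
        fun y => (n (Rz y, az y) - τ (Rz y, az y)) * (1 / 2) * (ny y)⁻¹ := by
      funext y
      ring
    rw [e]
    exact ((dn.differentiableAt.sub dτ.differentiableAt).mul_const (1 / 2)).mul
      (dy.differentiableAt.inv hy.ne')
  have hE : DifferentiableAt ℝ (fun y => vf (n (Rz y, az y)) (τ (Rz y, az y)) y) z := by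
    rw [differentiableAt_pi]
    intro i
    fin_cases i
    · exact e0.mul (cj 0)
    · exact e0.mul (cj 1)
    · exact (e2.mul (cj 2)).neg
    · exact (e2.mul (cj 3)).neg
  refine ⟨hE, ?_⟩
  -- directional derivatives of the lengths
  have lin : ∀ (L : ℝ × ℝ →L[ℝ] ℝ) (u v : ℝ), L (u, v) = u * L (1, 0) + v * L (0, 1) := by
    intro L u v
    have : ((u, v) : ℝ × ℝ) = u • (1, 0) + v • (0, 1) := by
      ext <;> simp
    rw [this, map_add, map_smul, map_smul, smul_eq_mul, smul_eq_mul]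
  set nR := fderiv ℝ n (Rz z, az z) (1, 0) with hnR
  set na := fderiv ℝ n (Rz z, az z) (0, 1) with hna
  set τR := fderiv ℝ τ (Rz z, az z) (1, 0) with hτR
  set τa := fderiv ℝ τ (Rz z, az z) (0, 1) with hτa
  have comp : ∀ j : Fin 4, HasDerivAt
      (fun h : ℝ => (z + h • (Pi.single j (1 : ℝ) : Fin 4 → ℝ)) j) 1 0 := by
    intro j
    have h1 : HasFDerivAt (fun y : Fin 4 → ℝ => y j)
      (ContinuousLinearMap.proj j : (Fin 4 → ℝ) →L[ℝ] ℝ) z :=
      (ContinuousLinearMap.proj j : (Fin 4 → ℝ) →L[ℝ] ℝ).hasFDerivAt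
    have h2 := c2_comp h1 j
    simpa using h2
  -- the two first components
  have xcomp : ∀ j : Fin 4, (j = 0 ∨ j = 1) →
      fderiv ℝ (fun y : Fin 4 → ℝ => (n (Rz y, az y) + τ (Rz y, az y)) / 2 / nx y * y j) z
        (Pi.single j 1) =
      (z j / nx z * (nR + na + τR + τa) / 2 * nx z - (N + T) / 2 * (z j / nx z)) / nx z ^ 2 * z j +
        (N + T) / 2 / nx z := by
    intro j hj
    have hd := c2_comp (e0.mul (cj j)).hasFDerivAt j
    have hzj : z + (0 : ℝ) • (Pi.single j (1 : ℝ) : Fin 4 → ℝ) = z := by simp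
    have k1 := c2_comp dn j
    have k2 := c2_comp dτ j
    have k3 := c2_comp dx j
    have k4 := comp j
    have k5 := (((k1.add k2).div_const 2).div k3 (by rw [hzj]; exact hx.ne')).mul k4
    refine (hd.unique k5).trans ?_
    have v3 : ((1 / (2 * nx z)) • ((2 * z 0) • (ContinuousLinearMap.proj 0 : (Fin 4 → ℝ) →L[ℝ] ℝ) +
        (2 * z 1) • (ContinuousLinearMap.proj 1 : (Fin 4 → ℝ) →L[ℝ] ℝ))) (Pi.single j 1) =
        z j / nx z := by
      rcases hj with rfl | rfl <;> simp <;> field_simp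
    have v4 : ((1 / (2 * ny z)) • ((2 * z 2) • (ContinuousLinearMap.proj 2 : (Fin 4 → ℝ) →L[ℝ] ℝ) +
        (2 * z 3) • (ContinuousLinearMap.proj 3 : (Fin 4 → ℝ) →L[ℝ] ℝ))) (Pi.single j 1) = 0 := by
      rcases hj with rfl | rfl <;> simp
    simp only [hs, ht, ContinuousLinearMap.comp_apply, ContinuousLinearMap.prod_apply,
      _root_.add_apply, _root_.sub_apply, zero_smul, Pi.zero_apply, v3, v4, Pi.add_apply,
      Pi.div_apply, add_zero, sub_zero]
    rw [lin (fderiv ℝ n (Rz z, az z)), lin (fderiv ℝ τ (Rz z, az z))]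
    rw [← hnR, ← hna, ← hτR, ← hτa, ← hN, ← hT]
    ring
  have ycomp : ∀ j : Fin 4, (j = 2 ∨ j = 3) →
      fderiv ℝ (fun y : Fin 4 → ℝ => -((n (Rz y, az y) - τ (Rz y, az y)) / 2 / ny y * y j)) z
        (Pi.single j 1) =
      -((z j / ny z * (nR - na - τR + τa) / 2 * ny z - (N - T) / 2 * (z j / ny z)) /
        ny z ^ 2 * z j + (N - T) / 2 / ny z) := by
    intro j hj
    have hd := c2_comp (e2.mul (cj j)).neg.hasFDerivAt j
    have hzj : z + (0 : ℝ) • (Pi.single j (1 : ℝ) : Fin 4 → ℝ) = z := by simp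
    have k1 := c2_comp dn j
    have k2 := c2_comp dτ j
    have k3 := c2_comp dy j
    have k4 := comp j
    have k5 := ((((k1.sub k2).div_const 2).div k3 (by rw [hzj]; exact hy.ne')).mul k4).neg
    refine (hd.unique k5).trans ?_
    have v3 : ((1 / (2 * nx z)) • ((2 * z 0) • (ContinuousLinearMap.proj 0 : (Fin 4 → ℝ) →L[ℝ] ℝ) +
        (2 * z 1) • (ContinuousLinearMap.proj 1 : (Fin 4 → ℝ) →L[ℝ] ℝ))) (Pi.single j 1) = 0 := by
      rcases hj with rfl | rfl <;> simp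
    have v4 : ((1 / (2 * ny z)) • ((2 * z 2) • (ContinuousLinearMap.proj 2 : (Fin 4 → ℝ) →L[ℝ] ℝ) +
        (2 * z 3) • (ContinuousLinearMap.proj 3 : (Fin 4 → ℝ) →L[ℝ] ℝ))) (Pi.single j 1) =
        z j / ny z := by
      rcases hj with rfl | rfl <;> simp <;> field_simp
    simp only [hs, ht, ContinuousLinearMap.comp_apply, ContinuousLinearMap.prod_apply,
      _root_.add_apply, _root_.sub_apply, zero_smul, Pi.zero_apply, v3, v4, Pi.sub_apply,
      Pi.div_apply, add_zero, zero_add, zero_sub]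
    rw [lin (fderiv ℝ n (Rz z, az z)), lin (fderiv ℝ τ (Rz z, az z))]
    rw [← hnR, ← hna, ← hτR, ← hτa, ← hN, ← hT]
    ring
  have hsq1 : z 0 ^ 2 + z 1 ^ 2 = nx z ^ 2 := (Real.sq_sqrt (by positivity)).symm
  have hsq2 : z 2 ^ 2 + z 3 ^ 2 = ny z ^ 2 := (Real.sq_sqrt (by positivity)).symm
  unfold dv
  rw [Fin.sum_univ_four]
  have s0 : (fun y => vf (n (Rz y, az y)) (τ (Rz y, az y)) y 0) =
      fun y : Fin 4 → ℝ => (n (Rz y, az y) + τ (Rz y, az y)) / 2 / nx y * y 0 := rfl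
  have s1 : (fun y => vf (n (Rz y, az y)) (τ (Rz y, az y)) y 1) =
      fun y : Fin 4 → ℝ => (n (Rz y, az y) + τ (Rz y, az y)) / 2 / nx y * y 1 := rfl
  have s2 : (fun y => vf (n (Rz y, az y)) (τ (Rz y, az y)) y 2) =
      fun y : Fin 4 → ℝ => -((n (Rz y, az y) - τ (Rz y, az y)) / 2 / ny y * y 2) := rfl
  have s3 : (fun y => vf (n (Rz y, az y)) (τ (Rz y, az y)) y 3) =
      fun y : Fin 4 → ℝ => -((n (Rz y, az y) - τ (Rz y, az y)) / 2 / ny y * y 3) := rfl
  rw [s0, s1, s2, s3, xcomp 0 (Or.inl rfl), xcomp 1 (Or.inr rfl), ycomp 2 (Or.inl rfl),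
    ycomp 3 (Or.inr rfl)]
  have a1 : ∀ P Q : ℝ, (z 0 / nx z * P / 2 * nx z - Q / 2 * (z 0 / nx z)) / nx z ^ 2 * z 0 +
      (z 1 / nx z * P / 2 * nx z - Q / 2 * (z 1 / nx z)) / nx z ^ 2 * z 1 =
      P / 2 - Q / (2 * nx z) := by
    intro P Q
    have : (z 0 / nx z * P / 2 * nx z - Q / 2 * (z 0 / nx z)) / nx z ^ 2 * z 0 +
      (z 1 / nx z * P / 2 * nx z - Q / 2 * (z 1 / nx z)) / nx z ^ 2 * z 1 =
      (z 0 ^ 2 + z 1 ^ 2) * ((P * nx z - Q) / (2 * nx z ^ 3)) := by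
      field_simp
    rw [this, hsq1]
    field_simp
  have a2 : ∀ P Q : ℝ, (z 2 / ny z * P / 2 * ny z - Q / 2 * (z 2 / ny z)) / ny z ^ 2 * z 2 +
      (z 3 / ny z * P / 2 * ny z - Q / 2 * (z 3 / ny z)) / ny z ^ 2 * z 3 =
      P / 2 - Q / (2 * ny z) := by
    intro P Q
    have : (z 2 / ny z * P / 2 * ny z - Q / 2 * (z 2 / ny z)) / ny z ^ 2 * z 2 +
      (z 3 / ny z * P / 2 * ny z - Q / 2 * (z 3 / ny z)) / ny z ^ 2 * z 3 =
      (z 2 ^ 2 + z 3 ^ 2) * ((P * ny z - Q) / (2 * ny z ^ 3)) := by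
      field_simp
    rw [this, hsq2]
    field_simp
  have b1 := a1 (nR + na + τR + τa) (N + T)
  have b2 := a2 (nR - na - τR + τa) (N - T)
  have c1 : (N + T) / 2 / nx z = (N + T) / (2 * nx z) := by rw [div_div]
  have c2 : (N - T) / 2 / ny z = (N - T) / (2 * ny z) := by rw [div_div]
  rw [c1, c2]
  linarith

/-- Partial derivatives of a differentiable function of two variables. -/
theorem c2_part {n : ℝ × ℝ → ℝ} {R a : ℝ} (hn : DifferentiableAt ℝ n (R, a)) :
    HasDerivAt (fun a' => n (R, a')) (fderiv ℝ n (R, a) (0, 1)) a ∧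
    HasDerivAt (fun R' => n (R', a)) (fderiv ℝ n (R, a) (1, 0)) R := by
  constructor
  · have h1 : HasDerivAt (fun a' : ℝ => ((R, a') : ℝ × ℝ)) (0, 1) a :=
      (hasDerivAt_const a R).prodMk (hasDerivAt_id a)
    exact HasFDerivAt.comp_hasDerivAt (f := fun a' : ℝ => ((R, a') : ℝ × ℝ)) a hn.hasFDerivAt h1
  · have h1 : HasDerivAt (fun R' : ℝ => ((R', a) : ℝ × ℝ)) (1, 0) R :=
      (hasDerivAt_id R).prodMk (hasDerivAt_const R a)
    exact HasFDerivAt.comp_hasDerivAt (f := fun R' : ℝ => ((R', a) : ℝ × ℝ)) R hn.hasFDerivAt h1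

theorem c2_qa {R a : ℝ} : HasDerivAt (fun a' : ℝ => a' / R) (1 / R) a :=
  (hasDerivAt_id a).div_const R

theorem c2_qR {R a : ℝ} (hR : R ≠ 0) : HasDerivAt (fun R' : ℝ => a / R') (-(a / R ^ 2)) R := by
  have h := (hasDerivAt_const R a).div (hasDerivAt_id R) hR
  refine (h.congr_deriv ?_)
  simp only [id]
  field_simp
  ring

theorem c2_fa {R a : ℝ} : HasDerivAt (fun a' : ℝ => 1 - (a' / R) ^ 2) (-(2 * (a / R) * (1 / R))) a := by
  have h := (c2_qa (R := R) (a := a)).pow 2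
  have h2 := h.const_sub 1
  refine h2.congr_deriv ?_
  push_cast
  ring

theorem c2_fR {R a : ℝ} (hR : R ≠ 0) :
    HasDerivAt (fun R' : ℝ => 1 - (a / R') ^ 2) (2 * (a / R) * (a / R ^ 2)) R := by
  have h := (c2_qR (a := a) hR).pow 2
  have h2 := h.const_sub 1
  refine h2.congr_deriv ?_
  push_cast
  ring

/-- `∂_a N`. -/
noncomputable def c2_Na (i : Fin 6) (R a : ℝ) : ℝ :=
  (![(8 * (2 * (1 - (a / R) ^ 2)) - 5 * (3 * (1 - (a / R) ^ 2) ^ 2)) / 3 *
      (-(2 * (a / R) * (1 / R))), 0,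
    (6 * (1 - (a / R) ^ 2) - 5 * (1 - (a / R) ^ 2) ^ 2) / R ^ 2 +
      a / R ^ 2 * ((6 - 5 * (2 * (1 - (a / R) ^ 2))) * (-(2 * (a / R) * (1 / R)))),
    (6 - 5 * (2 * (1 - (a / R) ^ 2))) * (-(2 * (a / R) * (1 / R))) / R ^ 2,
    (1 - (a / R) ^ 2) ^ 2 / R ^ 2 +
      a / R ^ 2 * (2 * (1 - (a / R) ^ 2) * (-(2 * (a / R) * (1 / R)))),
    2 * (1 - (a / R) ^ 2) * (-(2 * (a / R) * (1 / R))) / R ^ 2] : Fin 6 → ℝ) i

/-- `∂_R T`. -/
noncomputable def c2_TR (i : Fin 6) (R a : ℝ) : ℝ :=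
  (![0, 8 / 3 * (-(a / R ^ 2)) * (1 - (a / R) ^ 2) ^ 2 +
      8 / 3 * (a / R) * (2 * (1 - (a / R) ^ 2) * (2 * (a / R) * (a / R ^ 2))),
    (-(2 * (1 - (a / R) ^ 2) * (2 * (a / R) * (a / R ^ 2)) -
      6 * (2 * (a / R) * (-(a / R ^ 2)) * (1 - (a / R) ^ 2) +
        (a / R) ^ 2 * (2 * (a / R) * (a / R ^ 2)))) * R -
      (-((1 - (a / R) ^ 2) ^ 2 - 6 * (a / R) ^ 2 * (1 - (a / R) ^ 2)))) / R ^ 2,
    -(18 * a / R ^ 4) * (1 - (a / R) ^ 2) + 6 * a / R ^ 3 * (2 * (a / R) * (a / R ^ 2)),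
    0, 0] : Fin 6 → ℝ) i

theorem c2_hNa (i : Fin 6) {R a : ℝ} : HasDerivAt (fun a' => fN i R a') (c2_Na i R a) a := by
  have f := c2_fa (R := R) (a := a)
  have f2 := f.pow 2
  have f3 := f.pow 3
  have g : HasDerivAt (fun a' : ℝ => a' / R ^ 2) (1 / R ^ 2) a := (hasDerivAt_id a).div_const _
  fin_cases i
  · have h := (((f2.const_mul 8).sub (f3.const_mul 5)).div_const 3)
    refine HasDerivAt.congr_deriv (f := fun a' => fN 0 R a') h ?_
    simp [c2_Na]
    ring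
  · exact hasDerivAt_const a (0 : ℝ)
  · have h := g.mul ((f.const_mul 6).sub (f2.const_mul 5))
    refine HasDerivAt.congr_deriv (f := fun a' => fN 2 R a') h ?_
    simp [c2_Na]
    ring
  · have h := ((f.const_mul 6).sub (f2.const_mul 5)).div_const (R ^ 2)
    refine HasDerivAt.congr_deriv (f := fun a' => fN 3 R a') h ?_
    simp [c2_Na]
    ring
  · have h := g.mul f2
    refine HasDerivAt.congr_deriv (f := fun a' => fN 4 R a') h ?_
    simp [c2_Na]
    ring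
  · have h := f2.div_const (R ^ 2)
    refine HasDerivAt.congr_deriv (f := fun a' => fN 5 R a') h ?_
    simp [c2_Na]

theorem c2_hTR (i : Fin 6) {R a : ℝ} (hR : R ≠ 0) :
    HasDerivAt (fun R' => fT i R' a) (c2_TR i R a) R := by
  have f := c2_fR (R := R) (a := a) hR
  have f2 := f.pow 2
  have q := c2_qR (R := R) (a := a) hR
  have q2 := q.pow 2
  fin_cases i
  · exact hasDerivAt_const R (0 : ℝ)
  · have h := (q.const_mul (8 / 3)).mul f2
    refine HasDerivAt.congr_deriv (f := fun R' => fT 1 R' a) h ?_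
    simp [c2_TR]
  · have h := ((f2.sub ((q2.const_mul 6).mul f)).neg).div (hasDerivAt_id R) hR
    refine HasDerivAt.congr_deriv (f := fun R' => fT 2 R' a) h ?_
    simp [c2_TR]
    ring
  · have c : HasDerivAt (fun R' : ℝ => 6 * a / R' ^ 3) (-(18 * a / R ^ 4)) R := by
      have h := (hasDerivAt_const R (6 * a)).div ((hasDerivAt_id R).pow 3) (pow_ne_zero 3 hR)
      refine h.congr_deriv ?_
      simp
      field_simp
      ring
    have h := c.mul f
    refine HasDerivAt.congr_deriv (f := fun R' => fT 3 R' a) h ?_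
    simp [c2_TR]
  · exact hasDerivAt_const R (0 : ℝ)
  · exact hasDerivAt_const R (0 : ℝ)

theorem c2_diffN (i : Fin 6) {R a : ℝ} (hR : R ≠ 0) :
    DifferentiableAt ℝ (fun q : ℝ × ℝ => fN i q.1 q.2) (R, a) := by
  have h1 : DifferentiableAt ℝ (fun q : ℝ × ℝ => (q.1)⁻¹) (R, a) := by
    have : DifferentiableAt ℝ (fun q : ℝ × ℝ => q.1) (R, a) := differentiableAt_fst
    exact this.inv hR
  have h2 : DifferentiableAt ℝ (fun q : ℝ × ℝ => q.2) (R, a) := differentiableAt_snd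
  unfold fN
  simp only [div_eq_mul_inv, ← inv_pow]
  fin_cases i
  · show DifferentiableAt ℝ (fun q : ℝ × ℝ => (8 * (1 - (q.2 * q.1⁻¹) ^ 2) ^ 2 -
      5 * (1 - (q.2 * q.1⁻¹) ^ 2) ^ 3) * 3⁻¹) (R, a)
    fun_prop
  · exact differentiableAt_const _
  · show DifferentiableAt ℝ (fun q : ℝ × ℝ => q.2 * q.1⁻¹ ^ 2 * (6 * (1 - (q.2 * q.1⁻¹) ^ 2) -
      5 * (1 - (q.2 * q.1⁻¹) ^ 2) ^ 2)) (R, a)
    fun_prop
  · show DifferentiableAt ℝ (fun q : ℝ × ℝ => (6 * (1 - (q.2 * q.1⁻¹) ^ 2) -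
      5 * (1 - (q.2 * q.1⁻¹) ^ 2) ^ 2) * q.1⁻¹ ^ 2) (R, a)
    fun_prop
  · show DifferentiableAt ℝ (fun q : ℝ × ℝ => q.2 * q.1⁻¹ ^ 2 * (1 - (q.2 * q.1⁻¹) ^ 2) ^ 2)
      (R, a)
    fun_prop
  · show DifferentiableAt ℝ (fun q : ℝ × ℝ => (1 - (q.2 * q.1⁻¹) ^ 2) ^ 2 * q.1⁻¹ ^ 2) (R, a)
    fun_prop

theorem c2_diffT (i : Fin 6) {R a : ℝ} (hR : R ≠ 0) :
    DifferentiableAt ℝ (fun q : ℝ × ℝ => fT i q.1 q.2) (R, a) := by
  have h1 : DifferentiableAt ℝ (fun q : ℝ × ℝ => (q.1)⁻¹) (R, a) := by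
    have : DifferentiableAt ℝ (fun q : ℝ × ℝ => q.1) (R, a) := differentiableAt_fst
    exact this.inv hR
  have h2 : DifferentiableAt ℝ (fun q : ℝ × ℝ => q.2) (R, a) := differentiableAt_snd
  unfold fT
  simp only [div_eq_mul_inv, ← inv_pow]
  fin_cases i
  · exact differentiableAt_const _
  · show DifferentiableAt ℝ (fun q : ℝ × ℝ => 8 * 3⁻¹ * (q.2 * q.1⁻¹) *
      (1 - (q.2 * q.1⁻¹) ^ 2) ^ 2) (R, a)
    fun_prop
  · show DifferentiableAt ℝ (fun q : ℝ × ℝ => -((1 - (q.2 * q.1⁻¹) ^ 2) ^ 2 -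
      6 * (q.2 * q.1⁻¹) ^ 2 * (1 - (q.2 * q.1⁻¹) ^ 2)) * q.1⁻¹) (R, a)
    fun_prop
  · show DifferentiableAt ℝ (fun q : ℝ × ℝ => 6 * q.2 * q.1⁻¹ ^ 3 *
      (1 - (q.2 * q.1⁻¹) ^ 2)) (R, a)
    fun_prop
  · exact differentiableAt_const _
  · exact differentiableAt_const _

/-- The algebraic identity. -/
theorem c2_alg (i : Fin 6) {s t : ℝ} (hs : 0 < s) (ht : 0 < t) :
    c2_Na i (s + t) (s - t) + c2_TR i (s + t) (s - t) +
      (fN i (s + t) (s - t) + fT i (s + t) (s - t)) / (2 * s) -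
      (fN i (s + t) (s - t) - fT i (s + t) (s - t)) / (2 * t) = fD i (s + t) (s - t) := by
  have hst : s + t ≠ 0 := by positivity
  fin_cases i <;> simp [c2_Na, c2_TR, fN, fT, fD] <;> field_simp <;> ring

theorem cDiv : CDiv := by
  intro i z hx hy
  have hR : Rz z ≠ 0 := by
    unfold Rz
    positivity
  obtain ⟨h1, h2⟩ := c2_div (n := fun q => fN i q.1 q.2) (τ := fun q => fT i q.1 q.2) hx hy
    (c2_diffN i hR) (c2_diffT i hR)
  refine ⟨h1, ?_⟩
  have h3 : dv (Ez i) z = _ := h2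
  rw [h3, (c2_part (c2_diffN i hR)).1.unique (c2_hNa i),
    (c2_part (c2_diffT i hR)).2.unique (c2_hTR i hR)]
  exact c2_alg i hx hy

end Pool.Agent.Work.MP_85f2da_an

end

section

set_option autoImplicit false

open MeasureTheory Filter Set Metric
open scoped ENNReal Topology ContDiff

namespace Pool.Agent.Work.MP_85f2da_an

/-- normal components divided by `1 - (a/R)^2` -/
noncomputable def c1_pN (i : Fin 6) (R a : ℝ) : ℝ :=
  (![(8 * (1 - (a / R) ^ 2) - 5 * (1 - (a / R) ^ 2) ^ 2) / 3, 0,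
    a / R ^ 2 * (6 - 5 * (1 - (a / R) ^ 2)),
    (6 - 5 * (1 - (a / R) ^ 2)) / R ^ 2,
    a / R ^ 2 * (1 - (a / R) ^ 2),
    (1 - (a / R) ^ 2) / R ^ 2] : Fin 6 → ℝ) i

/-- tangential components divided by `1 - (a/R)^2` -/
noncomputable def c1_pT (i : Fin 6) (R a : ℝ) : ℝ :=
  (![0, 8 / 3 * (a / R) * (1 - (a / R) ^ 2),
    -((1 - (a / R) ^ 2) - 6 * (a / R) ^ 2) / R,
    6 * a / R ^ 3, 0, 0] : Fin 6 → ℝ) i

theorem c1_fN (i : Fin 6) (R a : ℝ) : fN i R a = (1 - (a / R) ^ 2) * c1_pN i R a := by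
  fin_cases i <;> simp [fN, c1_pN] <;> ring

theorem c1_fT (i : Fin 6) (R a : ℝ) : fT i R a = (1 - (a / R) ^ 2) * c1_pT i R a := by
  fin_cases i <;> simp [fT, c1_pT] <;> ring

theorem c1_smN (i : Fin 6) (q : ℝ × ℝ) (h : 0 < q.1 + q.2) :
    ContDiffAt ℝ 1 (fun q : ℝ × ℝ => c1_pN i (q.1 + q.2) (q.1 - q.2)) q := by
  have h0 : q.1 + q.2 ≠ 0 := h.ne'
  have h2 : (q.1 + q.2) ^ 2 ≠ 0 := pow_ne_zero _ h0
  fin_cases i <;> simp [c1_pN] <;> fun_prop (disch := assumption)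

theorem c1_smT (i : Fin 6) (q : ℝ × ℝ) (h : 0 < q.1 + q.2) :
    ContDiffAt ℝ 1 (fun q : ℝ × ℝ => c1_pT i (q.1 + q.2) (q.1 - q.2)) q := by
  have h0 : q.1 + q.2 ≠ 0 := h.ne'
  have h3 : (q.1 + q.2) ^ 3 ≠ 0 := pow_ne_zero _ h0
  fin_cases i <;> simp [c1_pT] <;> fun_prop (disch := assumption)

/-- the cut off coefficient, `c1_P = c1_pN ± c1_pT`, `l = s` or `t` -/
theorem c1_cut (P l : ℝ × ℝ → ℝ) (hP : ∀ q : ℝ × ℝ, 0 < q.1 + q.2 → ContDiffAt ℝ 1 P q)
    (hl : ContDiff ℝ 1 l) : ContDiff ℝ 1 (fun q : ℝ × ℝ =>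
      Real.smoothTransition (q.1 + q.2 - 1) * (P q * (2 * l q / (q.1 + q.2) ^ 2))) := by
  rw [contDiff_iff_contDiffAt]
  intro q
  rcases lt_or_ge 0 (q.1 + q.2) with h | h
  · have h0 : (q.1 + q.2) ^ 2 ≠ 0 := pow_ne_zero _ h.ne'
    have h1 : ContDiffAt ℝ 1 (fun q : ℝ × ℝ => Real.smoothTransition (q.1 + q.2 - 1)) q :=
      (Real.smoothTransition.contDiff.comp (by fun_prop)).contDiffAt
    refine h1.mul ((hP q h).mul ?_)
    exact ContDiffAt.div (contDiffAt_const.mul hl.contDiffAt) (by fun_prop) h0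
  · have h1 : ∀ᶠ q' : ℝ × ℝ in 𝓝 q, q'.1 + q'.2 < 1 := by
      have hc : Continuous (fun q : ℝ × ℝ => q.1 + q.2) := by fun_prop
      exact hc.continuousAt.eventually_lt continuousAt_const (by linarith)
    have h2 : (fun q : ℝ × ℝ =>
        Real.smoothTransition (q.1 + q.2 - 1) * (P q * (2 * l q / (q.1 + q.2) ^ 2)))
        =ᶠ[𝓝 q] fun _ => 0 := by
      filter_upwards [h1] with q' hq'
      rw [Real.smoothTransition.zero_of_nonpos (by linarith), zero_mul]
    exact contDiffAt_const.congr_of_eventuallyEq h2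

theorem c1_lip2 (i j : Fin 4) : LipschitzWith 2 (fun z : Fin 4 → ℝ =>
    Real.sqrt (z i ^ 2 + z j ^ 2)) := by
  refine LipschitzWith.of_dist_le_mul fun z z' => ?_
  rw [← Complex.norm_add_mul_I, ← Complex.norm_add_mul_I, Real.dist_eq]
  refine (abs_norm_sub_norm_le _ _).trans ?_
  have h1 := Complex.norm_le_abs_re_add_abs_im
    ((z i : ℂ) + z j * Complex.I - ((z' i : ℂ) + z' j * Complex.I))
  refine h1.trans ?_
  have h2 : ((z i : ℂ) + z j * Complex.I - ((z' i : ℂ) + z' j * Complex.I)).re = z i - z' i := by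
    simp
  have h3 : ((z i : ℂ) + z j * Complex.I - ((z' i : ℂ) + z' j * Complex.I)).im = z j - z' j := by
    simp
  rw [h2, h3]
  have h4 : |z i - z' i| ≤ dist z z' := by
    rw [← Real.dist_eq]; exact dist_le_pi_dist z z' i
  have h5 : |z j - z' j| ≤ dist z z' := by
    rw [← Real.dist_eq]; exact dist_le_pi_dist z z' j
  push_cast
  linarith

theorem c1_nx : LocallyLipschitz nx := (c1_lip2 0 1).locallyLipschitz

theorem c1_ny : LocallyLipschitz ny := (c1_lip2 2 3).locallyLipschitz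

theorem c1_mul {f g : (Fin 4 → ℝ) → ℝ} (hf : LocallyLipschitz f) (hg : LocallyLipschitz g) :
    LocallyLipschitz (fun z => f z * g z) := by
  have h : ContDiff ℝ 1 (fun q : ℝ × ℝ => q.1 * q.2) := by fun_prop
  exact h.locallyLipschitz.comp (hf.prodMk hg)

theorem c1_coord (j : Fin 4) : LocallyLipschitz (fun z : Fin 4 → ℝ => z j) := by
  refine LipschitzWith.locallyLipschitz (K := 1) (LipschitzWith.of_dist_le_mul fun z z' => ?_)
  rw [NNReal.coe_one, one_mul]
  exact dist_le_pi_dist z z' j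

/-- a coefficient times a coordinate -/
theorem c1_comp (P l : ℝ × ℝ → ℝ) (hP : ∀ q : ℝ × ℝ, 0 < q.1 + q.2 → ContDiffAt ℝ 1 P q)
    (hl : ContDiff ℝ 1 l) (j : Fin 4) : LocallyLipschitz (fun z : Fin 4 → ℝ =>
      Real.smoothTransition (nx z + ny z - 1) * (P (nx z, ny z) *
        (2 * l (nx z, ny z) / (nx z + ny z) ^ 2)) * z j) := by
  have h := (c1_cut P l hP hl).locallyLipschitz
  have key : ∀ g : ℝ × ℝ → ℝ, LocallyLipschitz g →
      LocallyLipschitz (fun z : Fin 4 → ℝ => g (nx z, ny z) * z j) := fun g hg =>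
    c1_mul (hg.comp (c1_nx.prodMk c1_ny)) (c1_coord j)
  exact key _ h

/-- the algebra -/
theorem c1_alg1 (i : Fin 6) (χ : ℝ → ℝ) (s t x : ℝ)
    (hs : 0 ≤ s) (ht : 0 ≤ t) (hx : s = 0 → x = 0) :
    χ (s + t - 1) * ((fN i (s + t) (s - t) + fT i (s + t) (s - t)) / 2 / s * x) =
    χ (s + t - 1) * ((c1_pN i (s + t) (s - t) + c1_pT i (s + t) (s - t)) *
      (2 * t / (s + t) ^ 2)) * x := by
  rcases eq_or_lt_of_le hs with h0 | h0
  · rw [hx h0.symm]; simp
  · have hR : s + t ≠ 0 := by positivity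
    rw [c1_fN, c1_fT]
    have h1 : 1 - ((s - t) / (s + t)) ^ 2 = 4 * s * t / (s + t) ^ 2 := by
      field_simp; ring
    rw [h1]
    generalize c1_pN i (s + t) (s - t) = A
    generalize c1_pT i (s + t) (s - t) = B
    generalize χ (s + t - 1) = c
    have hs0 : s ≠ 0 := h0.ne'
    field_simp
    ring

theorem c1_alg2 (i : Fin 6) (χ : ℝ → ℝ) (s t x : ℝ)
    (hs : 0 ≤ s) (ht : 0 ≤ t) (hx : t = 0 → x = 0) :
    χ (s + t - 1) * (-((fN i (s + t) (s - t) - fT i (s + t) (s - t)) / 2 / t * x)) =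
    χ (s + t - 1) * ((c1_pT i (s + t) (s - t) - c1_pN i (s + t) (s - t)) *
      (2 * s / (s + t) ^ 2)) * x := by
  rcases eq_or_lt_of_le ht with h0 | h0
  · rw [hx h0.symm]; simp
  · have hR : s + t ≠ 0 := by positivity
    rw [c1_fN, c1_fT]
    have h1 : 1 - ((s - t) / (s + t)) ^ 2 = 4 * s * t / (s + t) ^ 2 := by
      field_simp; ring
    rw [h1]
    generalize c1_pN i (s + t) (s - t) = A
    generalize c1_pT i (s + t) (s - t) = B
    generalize χ (s + t - 1) = c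
    have ht0 : t ≠ 0 := h0.ne'
    field_simp
    ring

theorem c1_zero {a b : ℝ} (h : Real.sqrt (a ^ 2 + b ^ 2) = 0) : a = 0 ∧ b = 0 := by
  rw [Real.sqrt_eq_zero (by positivity)] at h
  constructor <;> nlinarith [sq_nonneg a, sq_nonneg b]

theorem c1_loc (i : Fin 6) (j : Fin 4) : LocallyLipschitz (fun z => Ec i z j) := by
  have hp : ∀ q : ℝ × ℝ, 0 < q.1 + q.2 → ContDiffAt ℝ 1 (fun q : ℝ × ℝ =>
      c1_pN i (q.1 + q.2) (q.1 - q.2) + c1_pT i (q.1 + q.2) (q.1 - q.2)) q := fun q hq =>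
    (c1_smN i q hq).add (c1_smT i q hq)
  have hm : ∀ q : ℝ × ℝ, 0 < q.1 + q.2 → ContDiffAt ℝ 1 (fun q : ℝ × ℝ =>
      c1_pT i (q.1 + q.2) (q.1 - q.2) - c1_pN i (q.1 + q.2) (q.1 - q.2)) q := fun q hq =>
    (c1_smT i q hq).sub (c1_smN i q hq)
  have h1 := fun j => c1_comp _ (fun q : ℝ × ℝ => q.2) hp (by fun_prop) j
  have h2 := fun j => c1_comp _ (fun q : ℝ × ℝ => q.1) hm (by fun_prop) j
  have hnx : ∀ z, 0 ≤ nx z := fun z => Real.sqrt_nonneg _
  have hny : ∀ z, 0 ≤ ny z := fun z => Real.sqrt_nonneg _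
  have key1 : ∀ j : Fin 4, (∀ z, nx z = 0 → z j = 0) → (∀ z, Ec i z j =
      Real.smoothTransition (nx z + ny z - 1) *
        ((fN i (nx z + ny z) (nx z - ny z) + fT i (nx z + ny z) (nx z - ny z)) / 2 / nx z * z j)) →
      LocallyLipschitz (fun z => Ec i z j) := by
    intro j hj he
    have : (fun z => Ec i z j) = _ := funext fun z =>
      (he z).trans (c1_alg1 i _ (nx z) (ny z) (z j) (hnx z) (hny z) (hj z))
    rw [this]
    exact h1 j
  have key2 : ∀ j : Fin 4, (∀ z, ny z = 0 → z j = 0) → (∀ z, Ec i z j =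
      Real.smoothTransition (nx z + ny z - 1) *
        (-((fN i (nx z + ny z) (nx z - ny z) - fT i (nx z + ny z) (nx z - ny z)) / 2 / ny z
          * z j))) →
      LocallyLipschitz (fun z => Ec i z j) := by
    intro j hj he
    have : (fun z => Ec i z j) = _ := funext fun z =>
      (he z).trans (c1_alg2 i _ (nx z) (ny z) (z j) (hnx z) (hny z) (hj z))
    rw [this]
    exact h2 j
  fin_cases j
  · exact key1 0 (fun z hz => (c1_zero hz).1) (fun z => by simp [Ec, Ez, vf, Rz, az])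
  · exact key1 1 (fun z hz => (c1_zero hz).2) (fun z => by simp [Ec, Ez, vf, Rz, az])
  · exact key2 2 (fun z hz => (c1_zero hz).1) (fun z => by simp [Ec, Ez, vf, Rz, az])
  · exact key2 3 (fun z hz => (c1_zero hz).2) (fun z => by simp [Ec, Ez, vf, Rz, az])

theorem cLip : CLip := by
  intro i ρ
  have h : ∀ j, ∃ K, LipschitzOnWith K (fun z => Ec i z j) (closedBall (0 : Fin 4 → ℝ) ρ) :=
    fun j => (c1_loc i j).locallyLipschitzOn.exists_lipschitzOnWith_of_compact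
      (isCompact_closedBall _ _)
  choose K hK using h
  refine ⟨∑ j, K j, LipschitzOnWith.of_dist_le_mul fun z hz z' hz' => ?_⟩
  rw [dist_pi_le_iff (by positivity)]
  intro j
  refine ((hK j).dist_le_mul z hz z' hz').trans ?_
  refine mul_le_mul_of_nonneg_right ?_ dist_nonneg
  exact_mod_cast Finset.single_le_sum (f := K) (fun _ _ => zero_le) (Finset.mem_univ j)

end Pool.Agent.Work.MP_85f2da_an

end

section

set_option autoImplicit false

/-!
# MP_85f2da_an, C6: the boundary function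
-/

open MeasureTheory Filter Set Metric
open scoped ENNReal Topology ContDiff

namespace Pool.Agent.Work.MP_85f2da_an

theorem c6_hh (t : ℝ) : 0 < hh t ∧ hh t ≤ 1 := by
  unfold hh
  have h1 := Real.one_le_cosh t
  have h2 := Real.pi_gt_three
  have h3 : 1 ≤ Real.pi * Real.cosh t := by nlinarith
  exact ⟨by positivity, by rw [div_le_one (by positivity)]; exact h3⟩

theorem c6_norm (x y : ℝ) : Real.sqrt (x ^ 2 + y ^ 2) = ‖(⟨x, y⟩ : ℂ)‖ := by
  rw [Complex.norm_def, Complex.normSq_mk]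
  congr 1
  ring

theorem c6_lip2 (x y x' y' : ℝ) :
    |Real.sqrt (x ^ 2 + y ^ 2) - Real.sqrt (x' ^ 2 + y' ^ 2)| ≤ |x - x'| + |y - y'| := by
  rw [c6_norm, c6_norm]
  refine (abs_norm_sub_norm_le _ _).trans ?_
  refine (Complex.norm_le_abs_re_add_abs_im _).trans ?_
  simp

theorem c6_nx_lip (z z' : Fin 4 → ℝ) : |nx z - nx z'| ≤ 2 * ‖z - z'‖ := by
  unfold nx
  refine (c6_lip2 _ _ _ _).trans ?_
  have h0 := norm_le_pi_norm (z - z') 0
  have h1 := norm_le_pi_norm (z - z') 1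
  rw [Real.norm_eq_abs, Pi.sub_apply] at h0 h1
  linarith

theorem c6_ny_lip (z z' : Fin 4 → ℝ) : |ny z - ny z'| ≤ 2 * ‖z - z'‖ := by
  unfold ny
  refine (c6_lip2 _ _ _ _).trans ?_
  have h0 := norm_le_pi_norm (z - z') 2
  have h1 := norm_le_pi_norm (z - z') 3
  rw [Real.norm_eq_abs, Pi.sub_apply] at h0 h1
  linarith

theorem c6_hasF2 (i j : Fin 4) (z : Fin 4 → ℝ) (h : 0 < Real.sqrt (z i ^ 2 + z j ^ 2)) :
    HasFDerivAt (fun z : Fin 4 → ℝ => Real.sqrt (z i ^ 2 + z j ^ 2))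
      ((1 / (2 * Real.sqrt (z i ^ 2 + z j ^ 2))) •
        ((2 * z i) • (ContinuousLinearMap.proj i : (Fin 4 → ℝ) →L[ℝ] ℝ) +
          (2 * z j) • (ContinuousLinearMap.proj j : (Fin 4 → ℝ) →L[ℝ] ℝ))) z := by
  have hi : HasFDerivAt (fun z : Fin 4 → ℝ => z i)
      (ContinuousLinearMap.proj i : (Fin 4 → ℝ) →L[ℝ] ℝ) z :=
    (ContinuousLinearMap.proj i : (Fin 4 → ℝ) →L[ℝ] ℝ).hasFDerivAt
  have hj : HasFDerivAt (fun z : Fin 4 → ℝ => z j)
      (ContinuousLinearMap.proj j : (Fin 4 → ℝ) →L[ℝ] ℝ) z :=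
    (ContinuousLinearMap.proj j : (Fin 4 → ℝ) →L[ℝ] ℝ).hasFDerivAt
  have h1 : HasFDerivAt (fun z : Fin 4 → ℝ => z i ^ 2 + z j ^ 2)
      ((2 * z i) • (ContinuousLinearMap.proj i : (Fin 4 → ℝ) →L[ℝ] ℝ) +
          (2 * z j) • (ContinuousLinearMap.proj j : (Fin 4 → ℝ) →L[ℝ] ℝ)) z := by
    have h0 := (hi.pow 2).add (hj.pow 2)
    simp only [Nat.add_one_sub_one, pow_one, nsmul_eq_mul, Nat.cast_ofNat] at h0
    exact h0
  have hne : (z i ^ 2 + z j ^ 2) ≠ 0 := by
    intro h0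
    rw [h0, Real.sqrt_zero] at h
    exact lt_irrefl _ h
  exact h1.sqrt hne

theorem cW (hB : BProf) : CW := by
  obtain ⟨hder, hval, -⟩ := hB
  refine ⟨?_, fun z => ⟨(hval _).1.le, (hval _).2.le⟩, ?_⟩
  · have h1 : LipschitzWith 1 gv := by
      refine lipschitzWith_of_nnnorm_deriv_le (fun t => (hder t).differentiableAt) fun t => ?_
      rw [(hder t).deriv]
      obtain ⟨a, b⟩ := c6_hh t
      rw [← NNReal.coe_le_coe, coe_nnnorm, Real.norm_eq_abs, abs_of_pos a]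
      exact b
    have h2 : LipschitzWith 4 az := by
      refine LipschitzWith.of_dist_le_mul fun z z' => ?_
      rw [Real.dist_eq, dist_eq_norm]
      have a := c6_nx_lip z z'
      have b := c6_ny_lip z z'
      have e : az z - az z' = (nx z - nx z') - (ny z - ny z') := by
        unfold az
        ring
      rw [e]
      refine (abs_sub _ _).trans ?_
      push_cast
      linarith
    exact ⟨_, h1.comp h2⟩
  · intro z hx hy
    have dx := c6_hasF2 0 1 z hx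
    have dy := c6_hasF2 2 3 z hy
    have da : HasFDerivAt az _ z := dx.sub dy
    have dw : HasFDerivAt wz _ z := (hder (az z)).comp_hasFDerivAt z da
    funext i
    unfold gr
    rw [dw.fderiv]
    have ex : Real.sqrt (z 0 ^ 2 + z 1 ^ 2) = nx z := rfl
    have ey : Real.sqrt (z 2 ^ 2 + z 3 ^ 2) = ny z := rfl
    rw [ex, ey]
    fin_cases i <;> simp <;> field_simp <;> simp

end Pool.Agent.Work.MP_85f2da_an

end

section

set_option autoImplicit false

/-!
# MP_85f2da_an: item A3, from Hessian bounds to the data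
-/

open MeasureTheory Filter Set Metric
open scoped ENNReal Topology ContDiff

namespace Pool.Agent.Work.MP_85f2da_an

variable {d : ℕ}

private lemma a3_one {f f' f'' : ℝ → ℝ} {m M : ℝ} (h1 : ∀ t, HasDerivAt f (f' t) t)
    (h2 : ∀ t, HasDerivAt f' (f'' t) t) (hm : ∀ t, m ≤ f'' t) (hM : ∀ t, f'' t ≤ M) :
    (m ≤ f' 1 - f' 0 ∧ f' 1 - f' 0 ≤ M) ∧
      (m / 2 ≤ f 1 - f 0 - f' 0 ∧ f 1 - f 0 - f' 0 ≤ M / 2) := by
  have mono1 : Monotone fun t => f' t - m * t := by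
    apply monotone_of_hasDerivAt_nonneg (f' := fun t => f'' t - m)
    · intro t
      have e := (h2 t).sub ((hasDerivAt_id t).const_mul m)
      exact e.congr_deriv (by rw [mul_one])
    · intro t
      have := hm t
      simp only [Pi.zero_apply]
      linarith
  have mono2 : Monotone fun t => M * t - f' t := by
    apply monotone_of_hasDerivAt_nonneg (f' := fun t => M - f'' t)
    · intro t
      have e := ((hasDerivAt_id t).const_mul M).sub (h2 t)
      exact e.congr_deriv (by rw [mul_one])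
    · intro t
      have := hM t
      simp only [Pi.zero_apply]
      linarith
  refine ⟨⟨?_, ?_⟩, ?_, ?_⟩
  · have := mono1 (show (0 : ℝ) ≤ 1 by norm_num)
    simp only [mul_zero, mul_one, sub_zero] at this
    linarith
  · have := mono2 (show (0 : ℝ) ≤ 1 by norm_num)
    simp only [mul_zero, mul_one, zero_sub] at this
    linarith
  · have hmono : MonotoneOn (fun t => f t - f' 0 * t - m / 2 * t ^ 2) (Icc 0 1) := by
      have hd : ∀ t, HasDerivAt (fun t => f t - f' 0 * t - m / 2 * t ^ 2)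
          (f' t - f' 0 - m * t) t := by
        intro t
        have e1 := ((h1 t).sub ((hasDerivAt_id t).const_mul (f' 0))).sub
          ((hasDerivAt_pow 2 t).const_mul (m / 2))
        refine e1.congr_deriv ?_
        norm_num
        ring
      apply monotoneOn_of_deriv_nonneg (convex_Icc 0 1)
      · exact fun t _ => (hd t).continuousAt.continuousWithinAt
      · exact fun t _ => (hd t).differentiableAt.differentiableWithinAt
      · intro t ht
        rw [interior_Icc] at ht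
        rw [(hd t).deriv]
        have := mono1 ht.1.le
        simp only [mul_zero, sub_zero] at this
        linarith
    have := hmono (left_mem_Icc.mpr zero_le_one) (right_mem_Icc.mpr zero_le_one) zero_le_one
    simp only [mul_zero, mul_one, sub_zero, one_pow, ne_eq, OfNat.ofNat_ne_zero,
      not_false_eq_true, zero_pow] at this
    linarith
  · have hmono : MonotoneOn (fun t => M / 2 * t ^ 2 + f' 0 * t - f t) (Icc 0 1) := by
      have hd : ∀ t, HasDerivAt (fun t => M / 2 * t ^ 2 + f' 0 * t - f t)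
          (M * t + f' 0 - f' t) t := by
        intro t
        have e1 := (((hasDerivAt_pow 2 t).const_mul (M / 2)).add
          ((hasDerivAt_id t).const_mul (f' 0))).sub (h1 t)
        refine e1.congr_deriv ?_
        norm_num
        ring
      apply monotoneOn_of_deriv_nonneg (convex_Icc 0 1)
      · exact fun t _ => (hd t).continuousAt.continuousWithinAt
      · exact fun t _ => (hd t).differentiableAt.differentiableWithinAt
      · intro t ht
        rw [interior_Icc] at ht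
        rw [(hd t).deriv]
        have := mono2 ht.1.le
        simp only [mul_zero, zero_sub] at this
        linarith
    have := hmono (left_mem_Icc.mpr zero_le_one) (right_mem_Icc.mpr zero_le_one) zero_le_one
    simp only [mul_zero, mul_one, zero_sub, one_pow, ne_eq, OfNat.ofNat_ne_zero,
      not_false_eq_true, zero_pow, zero_add] at this
    linarith

private lemma a3_fderiv (Λ : (Fin d → ℝ) → ℝ) (p ξ : Fin d → ℝ) :
    fderiv ℝ Λ p ξ = dot (gr Λ p) ξ := by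
  have hξ : ξ = ∑ i, ξ i • (Pi.single i (1 : ℝ) : Fin d → ℝ) := by
    funext j
    simp [Finset.sum_apply, Pi.single_apply]
  unfold dot gr
  conv_lhs => rw [hξ]
  rw [map_sum]
  refine Finset.sum_congr rfl fun i _ => ?_
  rw [map_smul, smul_eq_mul, mul_comm]

private lemma a3_key (Λ : (Fin d → ℝ) → ℝ) (m0 M0 : ℝ) (hC : ContDiff ℝ 2 Λ)
    (hH : ∀ p ξ, m0 * sq ξ ≤ Hs Λ p ξ ∧ Hs Λ p ξ ≤ M0 * sq ξ) (p ξ : Fin d → ℝ) :
    (m0 * sq ξ ≤ dot (gr Λ (p + ξ)) ξ - dot (gr Λ p) ξ ∧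
      dot (gr Λ (p + ξ)) ξ - dot (gr Λ p) ξ ≤ M0 * sq ξ) ∧
    (m0 / 2 * sq ξ ≤ Λ (p + ξ) - Λ p - dot (gr Λ p) ξ ∧
      Λ (p + ξ) - Λ p - dot (gr Λ p) ξ ≤ M0 / 2 * sq ξ) := by
  have hline : ∀ t : ℝ, HasDerivAt (fun t : ℝ => p + t • ξ) ξ t := by
    intro t
    have := ((hasDerivAt_id t).smul_const ξ).const_add p
    simpa using this
  have hd1 : Differentiable ℝ Λ := hC.differentiable (by norm_num)
  have hc1 : ContDiff ℝ 1 (fderiv ℝ Λ) := hC.fderiv_right (by norm_num)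
  have hc1' : ContDiff ℝ 1 (fun q => fderiv ℝ Λ q ξ) := hc1.clm_apply contDiff_const
  have hd2 : Differentiable ℝ (fun q => fderiv ℝ Λ q ξ) := hc1'.differentiable (by norm_num)
  have h1 : ∀ t : ℝ, HasDerivAt (fun t : ℝ => Λ (p + t • ξ)) (fderiv ℝ Λ (p + t • ξ) ξ) t := by
    intro t
    exact (hd1 (p + t • ξ)).hasFDerivAt.comp_hasDerivAt t (hline t)
  have h2 : ∀ t : ℝ, HasDerivAt (fun t : ℝ => fderiv ℝ Λ (p + t • ξ) ξ)
      (Hs Λ (p + t • ξ) ξ) t := by
    intro t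
    exact (hd2 (p + t • ξ)).hasFDerivAt.comp_hasDerivAt t (hline t)
  have := a3_one h1 h2 (fun t => (hH (p + t • ξ) ξ).1) (fun t => (hH (p + t • ξ) ξ).2)
  simp only [one_smul, zero_smul, add_zero, a3_fderiv] at this
  obtain ⟨⟨A, B⟩, C, D⟩ := this
  refine ⟨⟨A, B⟩, by linarith, by linarith⟩

private lemma a3_sq_nonneg (a : Fin d → ℝ) : 0 ≤ sq a := Finset.sum_nonneg fun _ _ => sq_nonneg _

private lemma a3_dot_self (a : Fin d → ℝ) : dot a a = sq a := by
  unfold dot sq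
  exact Finset.sum_congr rfl fun i _ => by ring

private lemma a3_dot_smul (a b : Fin d → ℝ) (c : ℝ) : dot a (c • b) = c * dot a b := by
  unfold dot
  rw [Finset.mul_sum]
  exact Finset.sum_congr rfl fun i _ => by simp only [Pi.smul_apply, smul_eq_mul]; ring

private lemma a3_dot_add (a b c : Fin d → ℝ) : dot a (b + c) = dot a b + dot a c := by
  unfold dot
  rw [← Finset.sum_add_distrib]
  exact Finset.sum_congr rfl fun i _ => by simp only [Pi.add_apply]; ring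

private lemma a3_dot_sub_left (a b c : Fin d → ℝ) : dot (a - b) c = dot a c - dot b c := by
  unfold dot
  rw [← Finset.sum_sub_distrib]
  exact Finset.sum_congr rfl fun i _ => by simp only [Pi.sub_apply]; ring

private lemma a3_sq_smul (a : Fin d → ℝ) (c : ℝ) : sq (c • a) = c ^ 2 * sq a := by
  unfold sq
  rw [Finset.mul_sum]
  exact Finset.sum_congr rfl fun i _ => by simp only [Pi.smul_apply, smul_eq_mul]; ring

private lemma a3_cs (a b : Fin d → ℝ) : dot a b ^ 2 ≤ sq a * sq b := by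
  unfold dot sq
  exact Finset.sum_mul_sq_le_sq_mul_sq _ _ _

theorem aDat : ADat := by
  intro d Λ m0 M0 hC hm0 hM0 hH h0 hg0
  have K := a3_key Λ m0 M0 hC hH
  refine ⟨?_, ?_, ?_, ?_, ?_, ?_, ?_⟩
  · refine continuous_pi fun i => ?_
    exact (hC.continuous_fderiv (by norm_num)).clm_apply continuous_const
  · intro p
    have := (K 0 p).2.1
    rw [zero_add, h0, hg0] at this
    have hz : dot (0 : Fin d → ℝ) p = 0 := by simp [dot]
    rw [hz] at this
    linarith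
  · intro p
    have := (K 0 p).2.2
    rw [zero_add, h0, hg0] at this
    have hz : dot (0 : Fin d → ℝ) p = 0 := by simp [dot]
    rw [hz] at this
    linarith
  · intro p q
    have e1 := (K ((1 / 2 : ℝ) • (p + q)) ((1 / 2 : ℝ) • (p - q))).2.1
    have e2 := (K ((1 / 2 : ℝ) • (p + q)) ((-(1 / 2) : ℝ) • (p - q))).2.1
    have f1 : (1 / 2 : ℝ) • (p + q) + (1 / 2 : ℝ) • (p - q) = p := by
      funext i; simp only [Pi.add_apply, Pi.smul_apply, Pi.sub_apply, smul_eq_mul]; ring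
    have f2 : (1 / 2 : ℝ) • (p + q) + (-(1 / 2) : ℝ) • (p - q) = q := by
      funext i; simp only [Pi.add_apply, Pi.smul_apply, Pi.sub_apply, smul_eq_mul]; ring
    rw [f1, a3_dot_smul, a3_sq_smul] at e1
    rw [f2, a3_dot_smul, a3_sq_smul] at e2
    linarith
  · intro p ξ
    have := (K p ξ).2
    have hs := a3_sq_nonneg ξ
    rw [abs_le]
    constructor
    · have : 0 ≤ M0 / 2 * sq ξ := by positivity
      have : 0 ≤ m0 / 2 * sq ξ := by positivity
      linarith [(K p ξ).2.1]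
    · exact (K p ξ).2.2
  · intro p q
    have := (K q (p - q)).1.1
    rw [add_sub_cancel] at this
    rw [a3_dot_sub_left]
    exact this
  · intro p q
    -- cocoercivity
    have coc : ∀ p q : Fin d → ℝ, sq (gr Λ p - gr Λ q) / (2 * M0) ≤
        Λ p - Λ q - dot (gr Λ q) (p - q) := by
      intro p q
      set v := gr Λ p - gr Λ q with hv
      have e1 := (K p ((-(1 / M0) : ℝ) • v)).2.2
      have e2 := (K q ((p - q) + (-(1 / M0) : ℝ) • v)).2.1
      have f1 : q + ((p - q) + (-(1 / M0) : ℝ) • v) = p + (-(1 / M0) : ℝ) • v := by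
        funext i; simp only [Pi.add_apply, Pi.smul_apply, Pi.sub_apply, smul_eq_mul]; ring
      rw [f1, a3_dot_add, a3_dot_smul] at e2
      rw [a3_dot_smul, a3_sq_smul] at e1
      have hpos : 0 ≤ m0 / 2 * sq ((p - q) + (-(1 / M0) : ℝ) • v) :=
        mul_nonneg (by positivity) (a3_sq_nonneg _)
      have hvv : dot (gr Λ p) v - dot (gr Λ q) v = sq v := by
        rw [← a3_dot_sub_left, ← hv, a3_dot_self]
      have hM : M0 / 2 * ((-(1 / M0)) ^ 2 * sq v) = sq v / (2 * M0) := by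
        field_simp
      rw [hM] at e1
      have h3 : (1 / M0) * dot (gr Λ p) v - (1 / M0) * dot (gr Λ q) v = 2 * (sq v / (2 * M0)) := by
        rw [← mul_sub, hvv]
        field_simp
      linarith
    set v := gr Λ p - gr Λ q with hv
    have c1 := coc p q
    have c2 := coc q p
    have hsym : sq (gr Λ q - gr Λ p) = sq v := by
      unfold sq
      refine Finset.sum_congr rfl fun i _ => ?_
      simp only [hv, Pi.sub_apply]
      ring
    rw [hsym] at c2
    rw [← hv] at c1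
    have hqp : dot (gr Λ p) (q - p) = - dot (gr Λ p) (p - q) := by
      have : q - p = (-1 : ℝ) • (p - q) := by
        funext i; simp only [Pi.smul_apply, Pi.sub_apply, smul_eq_mul]; ring
      rw [this, a3_dot_smul]
      ring
    rw [hqp] at c2
    have hd : dot v (p - q) = dot (gr Λ p) (p - q) - dot (gr Λ q) (p - q) := by
      rw [hv, a3_dot_sub_left]
    have key : sq v ≤ M0 * dot v (p - q) := by
      have : sq v / (2 * M0) + sq v / (2 * M0) ≤ dot v (p - q) := by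
        rw [hd]
        linarith
      have h4 : sq v / (2 * M0) + sq v / (2 * M0) = sq v / M0 := by
        field_simp
        ring
      rw [h4, div_le_iff₀ hM0] at this
      linarith
    have hcs := a3_cs v (p - q)
    have hv0 := a3_sq_nonneg v
    have hw0 := a3_sq_nonneg (p - q)
    rcases hv0.eq_or_lt with h | h
    · rw [← h]
      positivity
    · have h5 : sq v ^ 2 ≤ (M0 * dot v (p - q)) ^ 2 := by
        apply pow_le_pow_left₀ hv0 key
      have h6 : sq v * sq v ≤ sq v * (M0 ^ 2 * sq (p - q)) := by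
        calc sq v * sq v = sq v ^ 2 := by ring
          _ ≤ (M0 * dot v (p - q)) ^ 2 := h5
          _ = M0 ^ 2 * dot v (p - q) ^ 2 := by ring
          _ ≤ M0 ^ 2 * (sq v * sq (p - q)) := by gcongr
          _ = sq v * (M0 ^ 2 * sq (p - q)) := by ring
      exact le_of_mul_le_mul_left h6 h

end Pool.Agent.Work.MP_85f2da_an

end

section

set_option autoImplicit false

/-!
# MP_85f2da_an: A2, Hessian bounds of the Lagrangian
-/

open MeasureTheory Filter Set Metric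
open scoped ENNReal Topology ContDiff

namespace Pool.Agent.Work.MP_85f2da_an

/-- second derivative along a line -/
private theorem a2_line {Λ : (Fin 4 → ℝ) → ℝ} (hΛ : ContDiff ℝ 2 Λ) (p ξ : Fin 4 → ℝ)
    {ψ ψ1 : ℝ → ℝ} {ψ2 : ℝ} (h0 : ∀ t, Λ (p + t • ξ) = ψ t)
    (h1 : ∀ t, HasDerivAt ψ (ψ1 t) t) (h2 : HasDerivAt ψ1 ψ2 0) : Hs Λ p ξ = ψ2 := by
  have hc : ∀ t : ℝ, HasDerivAt (fun t : ℝ => p + t • ξ) ξ t := by
    intro t
    have h3 : HasDerivAt (fun t : ℝ => t • ξ) ((1 : ℝ) • ξ) t := (hasDerivAt_id t).smul_const ξ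
    rw [one_smul] at h3
    exact h3.const_add p
  have hd : ∀ t : ℝ, fderiv ℝ Λ (p + t • ξ) ξ = ψ1 t := by
    intro t
    have h3 : HasFDerivAt Λ (fderiv ℝ Λ (p + t • ξ)) (p + t • ξ) :=
      (hΛ.differentiable (by norm_num)).differentiableAt.hasFDerivAt
    have h4 := h3.comp_hasDerivAt t (hc t)
    have h5 : (Λ ∘ fun t : ℝ => p + t • ξ) = ψ := funext h0
    rw [h5] at h4
    exact h4.unique (h1 t)
  have hG : Differentiable ℝ (fun q => fderiv ℝ Λ q ξ) := by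
    have h6 : ContDiff ℝ 1 (fderiv ℝ Λ) := hΛ.fderiv_right (by norm_num)
    exact (h6.clm_apply contDiff_const).differentiable (by norm_num)
  have h7 : HasFDerivAt (fun q => fderiv ℝ Λ q ξ) (fderiv ℝ (fun q => fderiv ℝ Λ q ξ) p)
      (p + (0 : ℝ) • ξ) := by
    have h8 : p + (0 : ℝ) • ξ = p := by rw [zero_smul, add_zero]
    rw [h8]
    exact hG.differentiableAt.hasFDerivAt
  have h9 := h7.comp_hasDerivAt (0 : ℝ) (hc 0)
  have h10 : ((fun q => fderiv ℝ Λ q ξ) ∘ fun t : ℝ => p + t • ξ) = ψ1 := funext hd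
  rw [h10] at h9
  exact h9.unique h2

/-- the scalar functions -/
private theorem a2_scal {δ w0 w1 w2 s0 s1 s2 : ℝ} (hδ : 0 < δ) (hs0 : 0 ≤ s0)
    (hpos : ∀ t : ℝ, 0 < 1 + (s0 + 2 * s1 * t + s2 * t ^ 2)) :
    ∃ (G X : ℝ), 0 < G ∧ G ^ 2 = w0 ^ 2 + δ ^ 2 * (1 + s0) ^ 2 ∧
      X = ((2 * w1) ^ 2 + w0 * (2 * w2) + δ ^ 2 * (2 * s1) ^ 2 + δ ^ 2 * (1 + s0) * (2 * s2)) / G -
        (w0 * (2 * w1) + δ ^ 2 * (1 + s0) * (2 * s1)) ^ 2 / G ^ 3 ∧
      ∃ ψ1 : ℝ → ℝ, (∀ t, HasDerivAt (fun t => (s0 + 2 * s1 * t + s2 * t ^ 2) / 4 + 99 / 400 *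
        (Real.sqrt ((w0 + 2 * w1 * t + w2 * t ^ 2) ^ 2 +
          δ ^ 2 * (1 + (s0 + 2 * s1 * t + s2 * t ^ 2)) ^ 2) -
          δ * (1 + (s0 + 2 * s1 * t + s2 * t ^ 2)))) (ψ1 t) t) ∧
        HasDerivAt ψ1 (2 * s2 / 4 + 99 / 400 * (X - δ * (2 * s2))) 0 := by
  set a : ℝ → ℝ := fun t => s0 + 2 * s1 * t + s2 * t ^ 2 with ha
  set W : ℝ → ℝ := fun t => w0 + 2 * w1 * t + w2 * t ^ 2 with hW
  set a' : ℝ → ℝ := fun t => 2 * s1 + 2 * s2 * t with ha'
  set W' : ℝ → ℝ := fun t => 2 * w1 + 2 * w2 * t with hW'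
  have da : ∀ t, HasDerivAt a (a' t) t := by
    intro t
    have h := (((hasDerivAt_id t).const_mul (2 * s1)).const_add s0).add
      (((hasDerivAt_id t).pow 2).const_mul s2)
    refine h.congr_deriv ?_
    simp only [ha', id]
    ring
  have dW : ∀ t, HasDerivAt W (W' t) t := by
    intro t
    have h := (((hasDerivAt_id t).const_mul (2 * w1)).const_add w0).add
      (((hasDerivAt_id t).pow 2).const_mul w2)
    refine h.congr_deriv ?_
    simp only [hW', id]
    ring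
  have da' : HasDerivAt a' (2 * s2) 0 := by
    have h := ((hasDerivAt_id (0 : ℝ)).const_mul (2 * s2)).const_add (2 * s1)
    exact h.congr_deriv (by ring)
  have dW' : HasDerivAt W' (2 * w2) 0 := by
    have h := ((hasDerivAt_id (0 : ℝ)).const_mul (2 * w2)).const_add (2 * w1)
    exact h.congr_deriv (by ring)
  set g : ℝ → ℝ := fun t => W t ^ 2 + δ ^ 2 * (1 + a t) ^ 2 with hg
  have gpos : ∀ t, 0 < g t := by
    intro t
    have h1 : 0 < δ ^ 2 * (1 + a t) ^ 2 := by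
      have := hpos t
      positivity
    have h2 : 0 ≤ W t ^ 2 := sq_nonneg _
    simp only [hg]
    linarith
  set N : ℝ → ℝ := fun t => 2 * (W t * W' t + δ ^ 2 * (1 + a t) * a' t) with hN
  have dg : ∀ t, HasDerivAt g (N t) t := by
    intro t
    have h := ((dW t).pow 2).add ((((da t).const_add 1).pow 2).const_mul (δ ^ 2))
    refine h.congr_deriv ?_
    simp only [hN]
    ring
  set G : ℝ → ℝ := fun t => Real.sqrt (g t) with hG
  have Gpos : ∀ t, 0 < G t := fun t => Real.sqrt_pos.2 (gpos t)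
  have Gsq : ∀ t, G t ^ 2 = g t := fun t => Real.sq_sqrt (gpos t).le
  have dG : ∀ t, HasDerivAt G (N t / (2 * G t)) t := fun t => (dg t).sqrt (gpos t).ne'
  have a0 : a 0 = s0 := by simp [ha]
  have W0 : W 0 = w0 := by simp [hW]
  have a'0 : a' 0 = 2 * s1 := by simp [ha']
  have W'0 : W' 0 = 2 * w1 := by simp [hW']
  have dN : HasDerivAt N (2 * ((2 * w1) ^ 2 + w0 * (2 * w2) + δ ^ 2 * (2 * s1) ^ 2 +
      δ ^ 2 * (1 + s0) * (2 * s2))) 0 := by
    have h := (((dW 0).mul dW').add ((((da 0).const_add 1).const_mul (δ ^ 2)).mul da')).const_mul 2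
    refine h.congr_deriv ?_
    rw [W0, a0, W'0, a'0]
    ring
  refine ⟨G 0, ((2 * w1) ^ 2 + w0 * (2 * w2) + δ ^ 2 * (2 * s1) ^ 2 +
      δ ^ 2 * (1 + s0) * (2 * s2)) / G 0 -
      (w0 * (2 * w1) + δ ^ 2 * (1 + s0) * (2 * s1)) ^ 2 / G 0 ^ 3, Gpos 0, ?_, rfl,
    fun t => a' t / 4 + 99 / 400 * (N t / (2 * G t) - δ * a' t), ?_, ?_⟩
  · rw [Gsq 0]
    simp only [hg]
    rw [W0, a0]
  · intro t
    exact ((da t).div_const 4).add (((dG t).sub (((da t).const_add 1).const_mul δ)).const_mul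
      (99 / 400))
  · have h1 : (2 * G 0) ≠ 0 := by
      have := Gpos 0
      positivity
    have h := (da'.div_const 4).add (((dN.div ((dG 0).const_mul 2) h1).sub
      (da'.const_mul δ)).const_mul (99 / 400))
    refine h.congr_deriv ?_
    have hN0 : N 0 = 2 * (w0 * (2 * w1) + δ ^ 2 * (1 + s0) * (2 * s1)) := by
      simp only [hN]
      rw [W0, a0, W'0, a'0]
    rw [hN0]
    have hG0 := (Gpos 0).ne'
    field_simp

/-- the lower bound -/
private theorem a2_lo {δ w0 w1 w2 s0 s1 s2 G X : ℝ} (hδ : 0 < δ) (hδ1 : δ ≤ 1 / 1000)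
    (hs0 : 0 ≤ s0) (hs2 : 0 ≤ s2) (hw2 : |w2| ≤ s2) (hG : 0 < G)
    (hG2 : G ^ 2 = w0 ^ 2 + δ ^ 2 * (1 + s0) ^ 2)
    (hX : X = ((2 * w1) ^ 2 + w0 * (2 * w2) + δ ^ 2 * (2 * s1) ^ 2 +
      δ ^ 2 * (1 + s0) * (2 * s2)) / G - (w0 * (2 * w1) + δ ^ 2 * (1 + s0) * (2 * s1)) ^ 2 / G ^ 3) :
    1 / 1000 * s2 ≤ 2 * s2 / 4 + 99 / 400 * (X - δ * (2 * s2)) := by
  have h1 : |w0| ≤ G := by
    apply abs_le_of_sq_le_sq _ hG.le
    rw [hG2]
    have : 0 ≤ δ ^ 2 * (1 + s0) ^ 2 := by positivity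
    linarith
  have h2 : |w0 * (2 * w2)| ≤ G * (2 * s2) := by
    rw [abs_mul, abs_mul, abs_of_pos (by norm_num : (0 : ℝ) < 2)]
    exact mul_le_mul h1 (by linarith) (by positivity) hG.le
  have h3 : -(G * (2 * s2)) ≤ w0 * (2 * w2) := (abs_le.1 h2).1
  have h4 : 0 ≤ δ ^ 2 * (1 + s0) * (2 * s2) := by positivity
  have h5 : 0 ≤ G ^ 2 * ((2 * w1) ^ 2 + δ ^ 2 * (2 * s1) ^ 2) -
      (w0 * (2 * w1) + δ ^ 2 * (1 + s0) * (2 * s1)) ^ 2 := by
    have h6 : G ^ 2 * ((2 * w1) ^ 2 + δ ^ 2 * (2 * s1) ^ 2) -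
      (w0 * (2 * w1) + δ ^ 2 * (1 + s0) * (2 * s1)) ^ 2 =
      (δ * (w0 * (2 * s1) - (1 + s0) * (2 * w1))) ^ 2 := by
      rw [hG2]
      ring
    rw [h6]
    exact sq_nonneg _
  have h7 : -(2 * s2) ≤ X := by
    have h8 : X = (G ^ 2 * ((2 * w1) ^ 2 + w0 * (2 * w2) + δ ^ 2 * (2 * s1) ^ 2 +
        δ ^ 2 * (1 + s0) * (2 * s2)) - (w0 * (2 * w1) + δ ^ 2 * (1 + s0) * (2 * s1)) ^ 2) /
        G ^ 3 := by
      rw [hX]
      field_simp
    rw [h8, le_div_iff₀ (by positivity)]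
    have h9 : G ^ 2 * (-(G * (2 * s2))) ≤ G ^ 2 * (w0 * (2 * w2) + δ ^ 2 * (1 + s0) * (2 * s2)) :=
      mul_le_mul_of_nonneg_left (by linarith) (by positivity)
    have h10 : -(2 * s2) * G ^ 3 = G ^ 2 * (-(G * (2 * s2))) := by ring
    rw [h10]
    linarith
  have h11 : δ * (2 * s2) ≤ 1 / 1000 * (2 * s2) := mul_le_mul_of_nonneg_right hδ1 (by positivity)
  linarith

/-- the upper bound -/
private theorem a2_up {δ w0 w1 w2 s0 s1 s2 G X : ℝ} (hδ : 0 < δ) (hδ1 : δ ≤ 1 / 1000)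
    (hs0 : 0 ≤ s0) (hs2 : 0 ≤ s2) (hw2 : |w2| ≤ s2) (hw1 : w1 ^ 2 ≤ s0 * s2)
    (hs1 : s1 ^ 2 ≤ s0 * s2) (hG : 0 < G)
    (hG2 : G ^ 2 = w0 ^ 2 + δ ^ 2 * (1 + s0) ^ 2)
    (hX : X = ((2 * w1) ^ 2 + w0 * (2 * w2) + δ ^ 2 * (2 * s1) ^ 2 +
      δ ^ 2 * (1 + s0) * (2 * s2)) / G - (w0 * (2 * w1) + δ ^ 2 * (1 + s0) * (2 * s1)) ^ 2 / G ^ 3) :
    2 * s2 / 4 + 99 / 400 * (X - δ * (2 * s2)) ≤ 100 / δ * s2 := by
  have h1 : |w0| ≤ G := by
    apply abs_le_of_sq_le_sq _ hG.le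
    rw [hG2]
    have : 0 ≤ δ ^ 2 * (1 + s0) ^ 2 := by positivity
    linarith
  have h1' : δ * (1 + s0) ≤ G := by
    apply le_of_sq_le_sq _ hG.le
    rw [hG2]
    have : 0 ≤ w0 ^ 2 := by positivity
    linarith [mul_pow δ (1 + s0) 2]
  have h2 : |w0 * (2 * w2)| ≤ G * (2 * s2) := by
    rw [abs_mul, abs_mul, abs_of_pos (by norm_num : (0 : ℝ) < 2)]
    exact mul_le_mul h1 (by linarith) (by positivity) hG.le
  have h3 : w0 * (2 * w2) ≤ G * (2 * s2) := (abs_le.1 h2).2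
  have h4 : δ ^ 2 * (1 + s0) * (2 * s2) ≤ G * (2 * s2) := by
    refine mul_le_mul_of_nonneg_right ?_ (by positivity)
    have : δ ^ 2 * (1 + s0) = δ * (δ * (1 + s0)) := by ring
    rw [this]
    have h5 : δ * (δ * (1 + s0)) ≤ 1 * G := mul_le_mul (by linarith) h1' (by positivity) (by norm_num)
    linarith
  have hδ2 : δ ^ 2 ≤ 1 := by nlinarith
  have h6 : (2 * w1) ^ 2 + δ ^ 2 * (2 * s1) ^ 2 ≤ 8 * (s0 * s2) := by
    have h7 : δ ^ 2 * (2 * s1) ^ 2 ≤ 1 * (4 * (s0 * s2)) :=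
      mul_le_mul hδ2 (by nlinarith) (by positivity) (by norm_num)
    nlinarith
  have h8 : 8 * (s0 * s2) ≤ G * (8 / δ * s2) := by
    have h9 : δ * s0 ≤ G := by nlinarith
    have h10 : 8 * (s0 * s2) = δ * s0 * (8 / δ * s2) := by
      field_simp
    rw [h10]
    exact mul_le_mul_of_nonneg_right h9 (by positivity)
  have h11 : X ≤ 8 / δ * s2 + 4 * s2 := by
    have h12 : 0 ≤ (w0 * (2 * w1) + δ ^ 2 * (1 + s0) * (2 * s1)) ^ 2 / G ^ 3 := by positivity
    have h13 : ((2 * w1) ^ 2 + w0 * (2 * w2) + δ ^ 2 * (2 * s1) ^ 2 +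
      δ ^ 2 * (1 + s0) * (2 * s2)) / G ≤ 8 / δ * s2 + 4 * s2 := by
      rw [div_le_iff₀ hG]
      linarith
    rw [hX]
    linarith
  have h14 : 1 ≤ 1 / δ := by
    rw [le_div_iff₀ hδ]
    linarith
  have h15 : 100 / δ * s2 = 1 / δ * (100 * s2) := by ring
  have h16 : 8 / δ * s2 = 1 / δ * (8 * s2) := by ring
  have h17 : 1 * (6 * s2) ≤ 1 / δ * (6 * s2) := mul_le_mul_of_nonneg_right h14 (by positivity)
  have h18 : 0 ≤ δ * (2 * s2) := by positivity
  have h19 : 0 ≤ 1 / δ * s2 := by positivity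
  rw [h15]
  rw [h16] at h11
  nlinarith

/-- A2: Hessian bounds -/
theorem aHess : ASmooth → AHess := by
  intro hsm δ hδ hδ1
  refine ⟨100 / δ, by positivity, fun p ξ => ?_⟩
  have hΛ : ContDiff ℝ 2 (Lam4 δ) :=
    (hsm δ hδ).of_le (WithTop.coe_le_coe.2 (le_top : (2 : ℕ∞) ≤ ⊤))
  set s0 : ℝ := sq p with hs0
  set s1 : ℝ := dot p ξ with hs1
  set s2 : ℝ := sq ξ with hs2
  set w0 : ℝ := A1 p - A2 p with hw0
  set w1 : ℝ := p 0 * ξ 0 + p 1 * ξ 1 - p 2 * ξ 2 - p 3 * ξ 3 with hw1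
  set w2 : ℝ := A1 ξ - A2 ξ with hw2
  have e0 : s0 = p 0 ^ 2 + p 1 ^ 2 + p 2 ^ 2 + p 3 ^ 2 := by
    simp [hs0, sq, Fin.sum_univ_four]
  have e1 : s1 = p 0 * ξ 0 + p 1 * ξ 1 + p 2 * ξ 2 + p 3 * ξ 3 := by
    simp [hs1, dot, Fin.sum_univ_four]
  have e2 : s2 = ξ 0 ^ 2 + ξ 1 ^ 2 + ξ 2 ^ 2 + ξ 3 ^ 2 := by
    simp [hs2, sq, Fin.sum_univ_four]
  have b0 : 0 ≤ s0 := by rw [e0]; positivity
  have b2 : 0 ≤ s2 := by rw [e2]; positivity
  have bw2 : |w2| ≤ s2 := by
    rw [hw2, e2, A1, A2, abs_le]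
    constructor <;> nlinarith [sq_nonneg (ξ 0), sq_nonneg (ξ 1), sq_nonneg (ξ 2), sq_nonneg (ξ 3)]
  have bs1 : s1 ^ 2 ≤ s0 * s2 := by
    rw [e0, e1, e2]
    have h : (p 0 ^ 2 + p 1 ^ 2 + p 2 ^ 2 + p 3 ^ 2) * (ξ 0 ^ 2 + ξ 1 ^ 2 + ξ 2 ^ 2 + ξ 3 ^ 2) -
      (p 0 * ξ 0 + p 1 * ξ 1 + p 2 * ξ 2 + p 3 * ξ 3) ^ 2 =
      (p 0 * ξ 1 - p 1 * ξ 0) ^ 2 + (p 0 * ξ 2 - p 2 * ξ 0) ^ 2 + (p 0 * ξ 3 - p 3 * ξ 0) ^ 2 +
      (p 1 * ξ 2 - p 2 * ξ 1) ^ 2 + (p 1 * ξ 3 - p 3 * ξ 1) ^ 2 + (p 2 * ξ 3 - p 3 * ξ 2) ^ 2 := by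
      ring
    have h' : 0 ≤ (p 0 * ξ 1 - p 1 * ξ 0) ^ 2 + (p 0 * ξ 2 - p 2 * ξ 0) ^ 2 +
      (p 0 * ξ 3 - p 3 * ξ 0) ^ 2 + (p 1 * ξ 2 - p 2 * ξ 1) ^ 2 + (p 1 * ξ 3 - p 3 * ξ 1) ^ 2 +
      (p 2 * ξ 3 - p 3 * ξ 2) ^ 2 := by positivity
    linarith
  have bw1 : w1 ^ 2 ≤ s0 * s2 := by
    rw [e0, hw1, e2]
    have h : (p 0 ^ 2 + p 1 ^ 2 + p 2 ^ 2 + p 3 ^ 2) * (ξ 0 ^ 2 + ξ 1 ^ 2 + ξ 2 ^ 2 + ξ 3 ^ 2) -
      (p 0 * ξ 0 + p 1 * ξ 1 - p 2 * ξ 2 - p 3 * ξ 3) ^ 2 =
      (p 0 * ξ 1 - p 1 * ξ 0) ^ 2 + (p 0 * ξ 2 + p 2 * ξ 0) ^ 2 + (p 0 * ξ 3 + p 3 * ξ 0) ^ 2 +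
      (p 1 * ξ 2 + p 2 * ξ 1) ^ 2 + (p 1 * ξ 3 + p 3 * ξ 1) ^ 2 + (p 2 * ξ 3 - p 3 * ξ 2) ^ 2 := by
      ring
    have h' : 0 ≤ (p 0 * ξ 1 - p 1 * ξ 0) ^ 2 + (p 0 * ξ 2 + p 2 * ξ 0) ^ 2 +
      (p 0 * ξ 3 + p 3 * ξ 0) ^ 2 + (p 1 * ξ 2 + p 2 * ξ 1) ^ 2 + (p 1 * ξ 3 + p 3 * ξ 1) ^ 2 +
      (p 2 * ξ 3 - p 3 * ξ 2) ^ 2 := by positivity
    linarith
  have ha : ∀ t : ℝ, A1 (p + t • ξ) + A2 (p + t • ξ) = s0 + 2 * s1 * t + s2 * t ^ 2 := by
    intro t
    rw [e0, e1, e2]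
    simp only [A1, A2, Pi.add_apply, Pi.smul_apply, smul_eq_mul]
    ring
  have hW : ∀ t : ℝ, A1 (p + t • ξ) - A2 (p + t • ξ) = w0 + 2 * w1 * t + w2 * t ^ 2 := by
    intro t
    rw [hw0, hw1, hw2]
    simp only [A1, A2, Pi.add_apply, Pi.smul_apply, smul_eq_mul]
    ring
  have hpos : ∀ t : ℝ, 0 < 1 + (s0 + 2 * s1 * t + s2 * t ^ 2) := by
    intro t
    rw [← ha t]
    have h3 : 0 ≤ A1 (p + t • ξ) := by unfold A1; positivity
    have h4 : 0 ≤ A2 (p + t • ξ) := by unfold A2; positivity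
    linarith
  obtain ⟨G, X, hG, hG2, hX, ψ1, h1, h2⟩ := a2_scal (w0 := w0) (w1 := w1) (w2 := w2) hδ b0 hpos
  have key : Hs (Lam4 δ) p ξ = 2 * s2 / 4 + 99 / 400 * (X - δ * (2 * s2)) := by
    refine a2_line hΛ p ξ (fun t => ?_) h1 h2
    unfold Lam4
    rw [hW t, add_assoc 1 (A1 (p + t • ξ)) (A2 (p + t • ξ)), ha t]
  rw [key]
  exact ⟨a2_lo hδ hδ1 b0 b2 bw2 hG hG2 hX, a2_up hδ hδ1 b0 b2 bw2 bw1 bs1 hG hG2 hX⟩

end Pool.Agent.Work.MP_85f2da_an

end

section

set_option autoImplicit false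

/-!
# A1: the Lagrangian is smooth (helper26)
-/

open scoped ContDiff

namespace Pool.Agent.Work.MP_85f2da_an

theorem a1_A1 : ContDiff ℝ ((⊤ : ℕ∞) : WithTop ℕ∞) A1 := by
  unfold A1
  fun_prop

theorem a1_A2 : ContDiff ℝ ((⊤ : ℕ∞) : WithTop ℕ∞) A2 := by
  unfold A2
  fun_prop

theorem aSmooth : ASmooth := by
  intro δ hδ
  have h1 := a1_A1
  have h2 := a1_A2
  have hA1 : ∀ p, 0 ≤ A1 p := fun p => by unfold A1; positivity
  have hA2 : ∀ p, 0 ≤ A2 p := fun p => by unfold A2; positivity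
  have h3 : ContDiff ℝ ((⊤ : ℕ∞) : WithTop ℕ∞)
      (fun p : Fin 4 → ℝ => (A1 p - A2 p) ^ 2 + δ ^ 2 * (1 + A1 p + A2 p) ^ 2) := by
    fun_prop
  have h4 : ∀ p : Fin 4 → ℝ, (A1 p - A2 p) ^ 2 + δ ^ 2 * (1 + A1 p + A2 p) ^ 2 ≠ 0 := by
    intro p
    have : 0 < 1 + A1 p + A2 p := by linarith [hA1 p, hA2 p]
    positivity
  have h5 := h3.sqrt h4
  unfold Lam4
  fun_prop

end Pool.Agent.Work.MP_85f2da_an

end

section

set_option autoImplicit false

/-!
# MP_85f2da_an: item B5, bounds of the level functions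
-/

namespace Pool.Agent.Work.MP_85f2da_an

theorem b5_scale (h e v C : ℝ) (hh0 : 0 < h) (he : |e| ≤ C * v) : |h * e| ≤ C * h * v := by
  rw [abs_mul, abs_of_pos hh0]
  nlinarith [abs_nonneg e]

theorem bBd (hH : BHh) (hC : BCoef) : BBd := by
  refine ⟨20, by norm_num, fun i t => ?_, fun t => ?_⟩
  · obtain ⟨hpos, -⟩ := hH t
    obtain ⟨x0, x1, -, b1, c0, c1⟩ := hC t
    have hu : 0 ≤ |t| := abs_nonneg t
    have ht : |t| ^ 2 = t ^ 2 := sq_abs t
    have hcube : 1 + 3 * |t| + 3 * |t| ^ 2 ≤ (1 + |t|) ^ 3 := by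
      nlinarith [pow_nonneg hu 3]
    have hb := abs_le.mp b1
    have h1 : -|t| ≤ t := neg_abs_le t
    have h2 : t ≤ |t| := le_abs_self t
    have hu2 : 0 ≤ |t| ^ 2 := sq_nonneg _
    have hxt : |xx t * t| ≤ 7 / 6 * |t| := by
      rw [abs_mul, abs_of_nonneg x0]
      exact mul_le_mul_of_nonneg_right x1 hu
    have hxt' := abs_le.mp hxt
    have hbt : |bb t * t| ≤ 2 / 3 * |t| := by
      rw [abs_mul]
      exact mul_le_mul_of_nonneg_right b1 hu
    have hbt' := abs_le.mp hbt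
    have hx2 : xx t * t ^ 2 ≤ 7 / 6 * t ^ 2 := mul_le_mul_of_nonneg_right x1 (sq_nonneg t)
    have hx20 : 0 ≤ xx t * t ^ 2 := mul_nonneg x0 (sq_nonneg t)
    unfold kt
    apply b5_scale _ _ _ _ hpos
    fin_cases i
    · simp only [Fin.zero_eta, Matrix.cons_val]
      rw [abs_one]
      linarith
    · simp only [Fin.mk_one, Matrix.cons_val]
      rw [abs_of_nonneg x0]
      linarith
    · simp only [Fin.reduceFinMk, Matrix.cons_val]
      rw [abs_le]
      constructor <;> linarith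
    · simp only [Fin.reduceFinMk, Matrix.cons_val]
      rw [abs_le]
      constructor <;> linarith
    · simp only [Fin.reduceFinMk, Matrix.cons_val]
      rw [abs_le]
      constructor <;> linarith
    · simp only [Fin.reduceFinMk, Matrix.cons_val]
      rw [abs_le]
      constructor <;> linarith
  · obtain ⟨hpos, -⟩ := hH t
    obtain ⟨x0, x1, -, b1, c0, c1⟩ := hC t
    have hu : 0 ≤ |t| := abs_nonneg t
    have ht : |t| ^ 2 = t ^ 2 := sq_abs t
    have hp2 : 0 < hh t ^ 2 := by positivity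
    have hbt : |bb t * t| ≤ 2 / 3 * |t| := by
      rw [abs_mul]
      exact mul_le_mul_of_nonneg_right b1 hu
    have hbt' := abs_le.mp hbt
    have hct : |cc t * t| ≤ 2 * (1 + 2 * |t|) * |t| := by
      rw [abs_mul, abs_of_nonneg c0]
      exact mul_le_mul_of_nonneg_right c1 hu
    have hct' := abs_le.mp hct
    have hb2 : |bb t * t ^ 2| ≤ 2 / 3 * t ^ 2 := by
      rw [abs_mul, abs_of_nonneg (sq_nonneg t)]
      exact mul_le_mul_of_nonneg_right b1 (sq_nonneg t)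
    have hb2' := abs_le.mp hb2
    refine ⟨?_, ?_, ?_⟩
    · have h : |hh t ^ 2 * (-(3 / 4) * bb t)| ≤ 20 * hh t ^ 2 * 1 := by
        apply b5_scale _ _ _ _ hp2
        have hb := abs_le.mp b1
        rw [abs_le]
        constructor <;> linarith
      have h2 : KD t = hh t ^ 2 * (-(3 / 4) * bb t) := by
        unfold KD
        ring
      rw [h2]
      linarith
    · unfold K4
      apply b5_scale _ _ _ _ hp2
      rw [abs_le]
      constructor <;> linarith
    · unfold K5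
      apply b5_scale _ _ _ _ hp2
      have hv : (1 + |t|) ^ 2 = 1 + 2 * |t| + t ^ 2 := by
        rw [← ht]
        ring
      have hw : 2 * (1 + 2 * |t|) * |t| = 2 * |t| + 4 * t ^ 2 := by
        rw [← ht]
        ring
      rw [hw] at hct'
      have ht2 : 0 ≤ t ^ 2 := sq_nonneg t
      rw [hv, abs_le]
      constructor <;> linarith

end Pool.Agent.Work.MP_85f2da_an

end

section

set_option autoImplicit false

/-!
# MP_85f2da_an: item B2, bounds for `xx`, `bb`, `cc`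
-/

namespace Pool.Agent.Work.MP_85f2da_an

theorem b2_tanh_sq (t : ℝ) : 1 - Real.tanh t ^ 2 = 1 / Real.cosh t ^ 2 := by
  have hc : 0 < Real.cosh t := Real.cosh_pos t
  rw [Real.tanh_eq_sinh_div_cosh]
  field_simp
  have := Real.cosh_sq t
  linarith

theorem b2_tanh_lt (t : ℝ) : |Real.tanh t| < 1 := by
  have h := b2_tanh_sq t
  have hc : 0 < 1 / Real.cosh t ^ 2 := by
    have := Real.cosh_pos t
    positivity
  rw [← h] at hc
  rw [abs_lt]
  constructor <;> nlinarith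

theorem b2_log_nonneg (t : ℝ) :
    Real.log (2 * Real.cosh t) - t * Real.tanh t =
      Real.log (1 + Real.exp (-2 * t)) + 2 * t * Real.exp (-2 * t) / (1 + Real.exp (-2 * t)) := by
  have hE : 0 < Real.exp t := Real.exp_pos t
  have hq : Real.exp (-2 * t) = (Real.exp t)⁻¹ ^ 2 := by
    rw [← Real.exp_neg, ← Real.exp_nat_mul]
    congr 1
    push_cast
    ring
  have h1 : 2 * Real.cosh t = Real.exp t * (1 + Real.exp (-2 * t)) := by
    rw [Real.cosh_eq, hq, Real.exp_neg]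
    field_simp
  have h2 : Real.tanh t = (1 - Real.exp (-2 * t)) / (1 + Real.exp (-2 * t)) := by
    rw [Real.tanh_eq_sinh_div_cosh, Real.sinh_eq, Real.cosh_eq, hq, Real.exp_neg]
    field_simp
  have hpos : 0 < 1 + Real.exp (-2 * t) := by
    have := Real.exp_pos (-2 * t)
    linarith
  rw [h1, Real.log_mul hE.ne' hpos.ne', Real.log_exp, h2]
  field_simp
  ring

theorem b2_Q (t : ℝ) (ht : 0 ≤ t) :
    0 ≤ Real.log (2 * Real.cosh t) - t * Real.tanh t ∧
    Real.log (2 * Real.cosh t) - t * Real.tanh t ≤ Real.exp (-2 * t) * (1 + 2 * t) := by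
  rw [b2_log_nonneg t]
  have hq : 0 < Real.exp (-2 * t) := Real.exp_pos _
  set q := Real.exp (-2 * t) with hqdef
  have hpos : 0 < 1 + q := by linarith
  constructor
  · have h1 : 0 ≤ Real.log (1 + q) := Real.log_nonneg (by linarith)
    positivity
  · have h1 : Real.log (1 + q) ≤ q := by
      have := Real.log_le_sub_one_of_pos hpos
      linarith
    have h2 : 2 * t * q / (1 + q) ≤ 2 * t * q := by
      apply div_le_self (by positivity)
      linarith
    nlinarith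

theorem b2_cc_even (t : ℝ) : cc |t| = cc t := by
  unfold cc
  rcases le_total 0 t with h | h
  · rw [abs_of_nonneg h]
  · rw [abs_of_nonpos h, Real.cosh_neg, Real.tanh_neg]
    ring

theorem bCoef : BCoef := by
  intro t
  have hT := b2_tanh_sq t
  have hTl := b2_tanh_lt t
  have hc : 0 < Real.cosh t := Real.cosh_pos t
  have hpi : 0 < Real.pi := Real.pi_pos
  have hs : 0 < 1 - Real.tanh t ^ 2 := by
    rw [hT]
    positivity
  have hx : xx t = 7 / 6 * ((1 - Real.tanh t ^ 2) *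
      (1 + Real.tanh t ^ 2 + Real.tanh t ^ 4)) := by
    unfold xx
    ring
  have hT2 : 0 ≤ Real.tanh t ^ 2 := sq_nonneg _
  have hT4 : Real.tanh t ^ 4 = (Real.tanh t ^ 2) ^ 2 := by ring
  have hT6 : Real.tanh t ^ 6 = (Real.tanh t ^ 2) ^ 3 := by ring
  refine ⟨?_, ?_, ?_, ?_, ?_, ?_⟩
  · rw [hx]
    positivity
  · unfold xx
    have : 0 ≤ Real.tanh t ^ 6 := by
      rw [hT6]
      positivity
    linarith
  · have h1 : xx t ≤ 7 / 2 * (1 - Real.tanh t ^ 2) := by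
      have h3 : 1 + Real.tanh t ^ 2 + Real.tanh t ^ 4 ≤ 3 := by
        rw [hT4]
        nlinarith
      have h4 := mul_le_mul_of_nonneg_left h3 hs.le
      rw [hx]
      linarith
    have h2 : 7 / 2 * (1 - Real.tanh t ^ 2) = 7 / 2 * Real.pi ^ 2 * hh t ^ 2 := by
      rw [hT]
      unfold hh
      field_simp
    have h3 : Real.pi ^ 2 ≤ 10 := by
      have := Real.pi_lt_d2
      nlinarith
    have h4 : 0 ≤ hh t ^ 2 := sq_nonneg _
    rw [h2] at h1
    nlinarith
  · unfold bb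
    rw [abs_mul, abs_mul]
    have h1 : |(2 / 9 : ℝ)| = 2 / 9 := abs_of_pos (by norm_num)
    have h2 : |1 + Real.tanh t ^ 2 + Real.tanh t ^ 4| ≤ 3 := by
      rw [abs_of_nonneg (by positivity), hT4]
      nlinarith
    rw [h1]
    have h0 := abs_nonneg (Real.tanh t)
    have h00 := abs_nonneg (1 + Real.tanh t ^ 2 + Real.tanh t ^ 4)
    nlinarith
  · rw [← b2_cc_even]
    have h := (b2_Q |t| (abs_nonneg t)).1
    unfold cc
    have := Real.cosh_pos |t|
    positivity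
  · rw [← b2_cc_even]
    have h := (b2_Q |t| (abs_nonneg t)).2
    have h0 := (b2_Q |t| (abs_nonneg t)).1
    unfold cc
    have hu : 0 ≤ |t| := abs_nonneg t
    have hcu : Real.cosh |t| ≤ Real.exp |t| := by
      rw [Real.cosh_eq]
      have : Real.exp (-|t|) ≤ Real.exp |t| := by
        apply Real.exp_le_exp.mpr
        linarith
      linarith
    have hcu0 : 0 < Real.cosh |t| := Real.cosh_pos _
    have hsq : Real.cosh |t| ^ 2 ≤ Real.exp |t| ^ 2 := by
      apply pow_le_pow_left₀ hcu0.le hcu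
    have he : Real.exp |t| ^ 2 * Real.exp (-2 * |t|) = 1 := by
      rw [← Real.exp_nat_mul, ← Real.exp_add]
      have : ((2 : ℕ) : ℝ) * |t| + -2 * |t| = 0 := by
        push_cast
        ring
      rw [this, Real.exp_zero]
    calc 2 * Real.cosh |t| ^ 2 * (Real.log (2 * Real.cosh |t|) - |t| * Real.tanh |t|)
        ≤ 2 * Real.exp |t| ^ 2 * (Real.exp (-2 * |t|) * (1 + 2 * |t|)) := by
          apply mul_le_mul (by linarith) h h0 (by positivity)
      _ = 2 * (1 + 2 * |t|) * (Real.exp |t| ^ 2 * Real.exp (-2 * |t|)) := by ring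
      _ = 2 * (1 + 2 * |t|) := by rw [he]; ring

end Pool.Agent.Work.MP_85f2da_an

end

section

set_option autoImplicit false

/-!
# MP_85f2da_an, B6: continuity of the level densities
-/

open MeasureTheory Filter Set Metric
open scoped ENNReal Topology ContDiff

namespace Pool.Agent.Work.MP_85f2da_an

theorem b6_hh : Continuous hh := by
  unfold hh
  refine continuous_const.div (continuous_const.mul Real.continuous_cosh) fun t => ?_
  have := Real.cosh_pos t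
  have := Real.pi_pos
  positivity

theorem b6_tanh : Continuous Real.tanh := by
  have : Real.tanh = fun x => Real.sinh x / Real.cosh x := by
    funext x
    exact Real.tanh_eq_sinh_div_cosh x
  rw [this]
  exact Real.continuous_sinh.div Real.continuous_cosh fun x => (Real.cosh_pos x).ne'

theorem b6_xx : Continuous xx := by
  unfold xx
  exact continuous_const.mul (continuous_const.sub (b6_tanh.pow 6))

theorem b6_bb : Continuous bb := by
  unfold bb
  exact (continuous_const.mul b6_tanh).mul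
    ((continuous_const.add (b6_tanh.pow 2)).add (b6_tanh.pow 4))

theorem b6_cc : Continuous cc := by
  unfold cc
  refine (continuous_const.mul (Real.continuous_cosh.pow 2)).mul ?_
  refine Continuous.sub ?_ (continuous_id.mul b6_tanh)
  refine Continuous.log (continuous_const.mul Real.continuous_cosh) fun t => ?_
  have := Real.cosh_pos t
  positivity

theorem b6_kt (i : Fin 6) : Continuous (kt i) := by
  have hx := b6_xx
  have hb := b6_bb
  have hc := b6_cc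
  unfold kt
  refine b6_hh.mul ?_
  fin_cases i
  · exact continuous_const
  · exact hx
  · show Continuous fun t => 8 / 3 * xx t * t
    fun_prop
  · show Continuous fun t => -(t ^ 2 * (4 / 3 * xx t + 1))
    fun_prop
  · show Continuous fun t => -2 * bb t + 8 / 3 * t * (1 - xx t) - 2 * t
    fun_prop
  · show Continuous fun t => -cc t + 2 * t ^ 2 + 2 * t * bb t - 4 / 3 * t ^ 2 * (1 - xx t)
    fun_prop

theorem b6_cube {x : ℝ} (hx : 0 ≤ x) :
    (1 + x) ^ 3 ≤ 48 * Real.exp (1 / 2) * Real.exp (x / 2) := by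
  have h := Real.pow_div_factorial_le_exp ((1 + x) / 2) (by positivity) 3
  have e : Real.exp ((1 + x) / 2) = Real.exp (1 / 2) * Real.exp (x / 2) := by
    rw [← Real.exp_add]
    congr 1
    ring
  rw [e] at h
  have h2 : ((1 + x) / 2) ^ 3 / (Nat.factorial 3 : ℝ) = (1 + x) ^ 3 / 48 := by
    rw [show (Nat.factorial 3 : ℝ) = 6 by norm_num [Nat.factorial]]
    ring
  rw [h2] at h
  linarith

theorem bCont (h1 : BHh) (h2 : BBd) (h3 : BProf) : BCont := by
  intro i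
  obtain ⟨C, hC, hCb, -⟩ := h2
  obtain ⟨-, -, -, htau, hhv, hcont, -⟩ := h3
  have hpi := Real.pi_pos
  -- the bound
  have hbd : ∀ t : ℝ, |kt i t| ≤ C * (48 * Real.exp (1 / 2)) * Real.sqrt (hh t) := by
    intro t
    obtain ⟨p, -, q, -⟩ := h1 t
    have hs : Real.sqrt (hh t) ≤ Real.exp (-(|t| / 2)) := by
      rw [Real.sqrt_le_iff]
      refine ⟨(Real.exp_pos _).le, ?_⟩
      rw [← Real.exp_nat_mul]
      refine q.trans ?_
      have e : ((2 : ℕ) : ℝ) * -(|t| / 2) = -|t| := by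
        push_cast
        ring
      rw [e]
      have : 2 / Real.pi ≤ 1 := by
        rw [div_le_one hpi]
        linarith [Real.pi_gt_three]
      have := Real.exp_pos (-|t|)
      nlinarith
    have hc := b6_cube (abs_nonneg t)
    have hsn : 0 ≤ Real.sqrt (hh t) := Real.sqrt_nonneg _
    have hh2 : hh t = Real.sqrt (hh t) * Real.sqrt (hh t) := (Real.mul_self_sqrt p.le).symm
    have h5 : Real.sqrt (hh t) * (1 + |t|) ^ 3 ≤ 48 * Real.exp (1 / 2) := by
      calc Real.sqrt (hh t) * (1 + |t|) ^ 3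
          ≤ Real.exp (-(|t| / 2)) * (48 * Real.exp (1 / 2) * Real.exp (|t| / 2)) :=
            mul_le_mul hs hc (by positivity) (Real.exp_pos _).le
        _ = 48 * Real.exp (1 / 2) * (Real.exp (-(|t| / 2)) * Real.exp (|t| / 2)) := by ring
        _ = 48 * Real.exp (1 / 2) := by
            rw [← Real.exp_add, neg_add_cancel, Real.exp_zero, mul_one]
    calc |kt i t| ≤ C * hh t * (1 + |t|) ^ 3 := hCb i t
      _ = C * Real.sqrt (hh t) * (Real.sqrt (hh t) * (1 + |t|) ^ 3) := by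
          rw [show C * hh t * (1 + |t|) ^ 3 =
            C * (Real.sqrt (hh t) * Real.sqrt (hh t)) * (1 + |t|) ^ 3 by rw [← hh2]]
          ring
      _ ≤ C * Real.sqrt (hh t) * (48 * Real.exp (1 / 2)) :=
          mul_le_mul_of_nonneg_left h5 (by positivity)
      _ = _ := by ring
  set C' := C * (48 * Real.exp (1 / 2)) with hC'
  have hC'0 : 0 ≤ C' := by positivity
  have hbk : ∀ v : ℝ, |kp i v| ≤ C' * Real.sqrt |hv v| := by
    intro v
    unfold kp
    split_ifs with h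
    · refine (hbd (tauv v)).trans ?_
      refine mul_le_mul_of_nonneg_left (Real.sqrt_le_sqrt ?_) hC'0
      rw [← hhv (tauv v), htau v h.1 h.2]
      exact le_abs_self _
    · rw [abs_zero]
      positivity
  have hvc : Continuous fun v => C' * Real.sqrt |hv v| := by
    unfold hv
    fun_prop
  -- continuity at the end points
  have hend : ∀ v : ℝ, hv v = 0 → kp i v = 0 → ContinuousAt (kp i) v := by
    intro v hv0 hk0
    unfold ContinuousAt
    rw [hk0]
    refine squeeze_zero_norm (a := fun w => C' * Real.sqrt |hv w|) (fun w => ?_) ?_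
    · rw [Real.norm_eq_abs]
      exact hbk w
    · have := hvc.tendsto v
      simp only [hv0, abs_zero, Real.sqrt_zero, mul_zero] at this
      exact this
  rw [continuous_iff_continuousAt]
  intro v
  by_cases hin : 0 < v ∧ v < 1
  · have hev : kp i =ᶠ[𝓝 v] fun w => kt i (tauv w) := by
      filter_upwards [isOpen_Ioo.mem_nhds (show v ∈ Ioo (0 : ℝ) 1 from hin)] with w hw
      unfold kp
      exact if_pos ⟨hw.1, hw.2⟩
    refine ContinuousAt.congr ?_ hev.symm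
    have ht : ContinuousAt tauv v := hcont.continuousAt (isOpen_Ioo.mem_nhds hin)
    exact (b6_kt i).continuousAt.comp ht
  · have hk0 : kp i v = 0 := by
      unfold kp
      rw [if_neg hin]
    by_cases hv0 : v = 0
    · refine hend v ?_ hk0
      rw [hv0]
      unfold hv
      simp
    by_cases hv1 : v = 1
    · refine hend v ?_ hk0
      rw [hv1]
      unfold hv
      simp
    -- outside the closed interval
    have hev : kp i =ᶠ[𝓝 v] fun _ => 0 := by
      rcases lt_or_ge v 0 with h | h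
      · filter_upwards [isOpen_Iio.mem_nhds (show v ∈ Iio (0 : ℝ) from h)] with w hw
        unfold kp
        rw [if_neg]
        intro hh
        exact lt_asymm hh.1 hw
      · have h' : 1 < v := by
          have h0 : 0 < v := lt_of_le_of_ne h (Ne.symm hv0)
          by_contra hcon
          push Not at hcon
          exact hin ⟨h0, lt_of_le_of_ne hcon hv1⟩
        filter_upwards [isOpen_Ioi.mem_nhds (show v ∈ Ioi (1 : ℝ) from h')] with w hw
        unfold kp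
        rw [if_neg]
        intro hh
        exact lt_asymm hh.2 hw
    exact (continuousAt_const).congr hev.symm

end Pool.Agent.Work.MP_85f2da_an

end
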