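import Pool.Agent.Work.MP_85f2da_an.Defs

/-! Bundle of small proof modules (one section per former module). -/

section

set_option autoImplicit false

/-!
# MP_85f2da_an: statements of part D (Sobolev pairs, De Giorgi, minimisers), general dimension
-/

open MeasureTheory Filter Set Metric
open scoped ENNReal Topology ContDiff

namespace Pool.Agent.Work.MP_85f2da_an

variable {d : ℕ}

/-! ### Sobolev calculus -/

/-- S1 -/
def SLip : Prop := ∀ (d : ℕ) (u : (Fin d → ℝ) → ℝ), Lip u → LSP u (gr u)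

/-- S2 -/
def SShift : Prop := ∀ (d : ℕ) (u : (Fin d → ℝ) → ℝ) (g : (Fin d → ℝ) → (Fin d → ℝ))
  (h : Fin d → ℝ), LSP u g → LSP (fun x => u (x + h)) (fun x => g (x + h))

/-- S3 -/
def SLin : Prop := ∀ (d : ℕ) (u u' : (Fin d → ℝ) → ℝ) (g g' : (Fin d → ℝ) → (Fin d → ℝ))
  (a b : ℝ), LSP u g → LSP u' g' →
  LSP (fun x => a * u x + b * u' x) (fun x => a • g x + b • g' x)

/-- S4 -/
def SCut : Prop := ∀ (d : ℕ) (u η : (Fin d → ℝ) → ℝ) (g : (Fin d → ℝ) → (Fin d → ℝ)),
  LSP u g → Lip η → HasCompactSupport η →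
  LSP (fun x => η x * u x) (fun x => η x • g x + u x • gr η x)

/-- S5 -/
def SChain : Prop := ∀ (d : ℕ) (u : (Fin d → ℝ) → ℝ) (g : (Fin d → ℝ) → (Fin d → ℝ))
  (Φ Φ' : ℝ → ℝ), (∀ v, HasDerivAt Φ (Φ' v) v) → Continuous Φ' → (∃ C, ∀ v, |Φ' v| ≤ C) →
  LSP u g → LSP (fun x => Φ (u x)) (fun x => Φ' (u x) • g x)

/-- S6 -/
def SPos : Prop := ∀ (d : ℕ) (u : (Fin d → ℝ) → ℝ) (g : (Fin d → ℝ) → (Fin d → ℝ)) (k : ℝ),
  LSP u g → LSP (fun x => max (u x - k) 0) (fun x => if k < u x then g x else 0)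

/-- S8 -/
def SInt : Prop := ∀ (d : ℕ) (u : (Fin d → ℝ) → ℝ) (g : (Fin d → ℝ) → (Fin d → ℝ)),
  LSP u g → ∀ (z : Fin d → ℝ) (R : ℝ), IntegrableOn (fun x => u x ^ 2) (closedBall z R) ∧
    IntegrableOn (fun x => sq (g x)) (closedBall z R)

/-- S9 -/
def SUniq : Prop := ∀ (d : ℕ) (u : (Fin d → ℝ) → ℝ) (g g' : (Fin d → ℝ) → (Fin d → ℝ)),
  LSP u g → LSP u g' → g =ᵐ[volume] g'

/-- S10 -/
def SComplete : Prop := ∀ (d : ℕ) (u : ℕ → (Fin d → ℝ) → ℝ)
  (g : ℕ → (Fin d → ℝ) → (Fin d → ℝ)), (∀ j, LSP (u j) (g j)) →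
  (∀ R ε : ℝ, 0 < ε → ∃ N, ∀ i j, N ≤ i → N ≤ j →
    ∫⁻ x in closedBall 0 R, ENNReal.ofReal ((u i x - u j x) ^ 2 + sq (g i x - g j x))
      ≤ ENNReal.ofReal ε) →
  ∃ (u' : (Fin d → ℝ) → ℝ) (g' : (Fin d → ℝ) → (Fin d → ℝ)), LSP u' g' ∧ ∀ R : ℝ,
    Tendsto (fun j => ∫⁻ x in closedBall 0 R,
      ENNReal.ofReal ((u j x - u' x) ^ 2 + sq (g j x - g' x))) atTop (𝓝 0)

/-- S11 -/
def SDiff : Prop := ∀ (d : ℕ) (u : (Fin d → ℝ) → ℝ) (g : (Fin d → ℝ) → (Fin d → ℝ)),
  LSP u g → ∀ (z h : Fin d → ℝ) (r : ℝ), 0 ≤ r →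
  ∫ x in closedBall z r, (u (x + h) - u x) ^ 2
    ≤ sq h * ∫ x in closedBall z (r + ‖h‖), sq (g x)

/-- S12: Nash inequality -/
def SNash : Prop := ∀ (d : ℕ) (u : (Fin d → ℝ) → ℝ) (g : (Fin d → ℝ) → (Fin d → ℝ)),
  LSP u g → ∀ R : ℝ, (∀ᵐ x, x ∉ closedBall 0 R → u x = 0 ∧ g x = 0) → ∀ ε : ℝ, 0 < ε →
  ε ^ d * ∫ x, u x ^ 2 ≤ (2 * ε) ^ d * (d * ε ^ 2) * (∫ x, sq (g x)) + (∫ x, |u x|) ^ 2

/-- S13: Rellich -/
def SRellich : Prop := ∀ (d : ℕ) (w : (Fin d → ℝ) → ℝ) (ρ C : ℝ)
  (U : ℕ → (Fin d → ℝ) → ℝ), (∀ j, Comp w ρ (U j)) →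
  (∀ j, ∫ x in closedBall 0 ρ, sq (gr (U j) x) ≤ C) →
  ∃ φ : ℕ → ℕ, StrictMono φ ∧ ∀ ε : ℝ, 0 < ε → ∃ N, ∀ i j, N ≤ i → N ≤ j →
    ∫ x in closedBall 0 ρ, (U (φ i) x - U (φ j) x) ^ 2 ≤ ε

/-- S14: if a function has Lipschitz differences almost everywhere in a cube, it is almost
everywhere equal to a Lipschitz function -/
def SRep : Prop := ∀ (d : ℕ) (u : (Fin d → ℝ) → ℝ) (C r : ℝ), 0 ≤ C → 1 < r →
  AEStronglyMeasurable u volume → (∀ x, 0 ≤ u x ∧ u x ≤ 1) →
  (∀ h : Fin d → ℝ, ‖h‖ ≤ 1 → ∀ᵐ x, x ∈ closedBall 0 r → |u (x + h) - u x| ≤ C * ‖h‖) →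
  ∃ v : (Fin d → ℝ) → ℝ, LipschitzWith (Real.toNNReal (C + 1)) v ∧ (∀ x, 0 ≤ v x ∧ v x ≤ 1) ∧
    ∀ᵐ x, x ∈ closedBall 0 (r - 1) → u x = v x

/-- S15: Arzela-Ascoli -/
def SArz : Prop := ∀ (d : ℕ) (K : NNReal) (v : ℕ → (Fin d → ℝ) → ℝ),
  (∀ j, LipschitzWith K (v j)) → (∀ j x, 0 ≤ v j x ∧ v j x ≤ 1) →
  ∃ (φ : ℕ → ℕ) (u : (Fin d → ℝ) → ℝ), StrictMono φ ∧ LipschitzWith K u ∧
    (∀ x, 0 ≤ u x ∧ u x ≤ 1) ∧
    ∀ R ε : ℝ, 0 < ε → ∃ N, ∀ j, N ≤ j → ∀ x ∈ closedBall (0 : Fin d → ℝ) R,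
      |v (φ j) x - u x| ≤ ε

/-! ### Minimisers -/

/-- D1: strong convexity makes minimising sequences Cauchy -/
def DCauchy : Prop := ∀ (d : ℕ) (D : Dat d) (w : (Fin d → ℝ) → ℝ) (ρ m : ℝ), Lip w →
  (∀ U, Comp w ρ U → m ≤ ∫ x in closedBall 0 ρ, D.L (U x) (gr U x)) →
  ∀ U U', Comp w ρ U → Comp w ρ U' →
  D.m0 / 8 * ∫ x in closedBall 0 ρ, sq (gr U x - gr U' x)
    ≤ ((∫ x in closedBall 0 ρ, D.L (U x) (gr U x)) - m) / 2
      + ((∫ x in closedBall 0 ρ, D.L (U' x) (gr U' x)) - m) / 2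
      + D.M0 / 8 * ∫ x in closedBall 0 ρ, (U x - U' x) ^ 2

/-- D2: existence of minimisers -/
def DExist : Prop := ∀ (d : ℕ) (D : Dat d) (w : (Fin d → ℝ) → ℝ) (ρ : ℝ), Lip w →
  (∀ x, 0 ≤ w x ∧ w x ≤ 1) → 0 < ρ → ∃ u g, BMin D w ρ u g

/-- D3: Euler-Lagrange equation -/
def DEL : Prop := ∀ (d : ℕ) (D : Dat d) (w : (Fin d → ℝ) → ℝ) (ρ : ℝ)
  (u : (Fin d → ℝ) → ℝ) (g : (Fin d → ℝ) → (Fin d → ℝ)), BMin D w ρ u g →
  ∀ (φ : (Fin d → ℝ) → ℝ) (ψ : (Fin d → ℝ) → (Fin d → ℝ)) (r : ℝ), r < ρ → LSP φ ψ →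
  (∀ x, x ∉ closedBall 0 r → φ x = 0 ∧ ψ x = 0) →
  Integrable (fun x => dot (D.dL (g x)) (ψ x) + D.dF (u x) * φ x) ∧
  ∫ x, (dot (D.dL (g x)) (ψ x) + D.dF (u x) * φ x) = 0

/-- D4: interior energy bound -/
def DCacc : Prop := ∀ (d : ℕ) (D : Dat d) (r : ℝ), 0 < r → ∃ C : ℝ,
  ∀ (w : (Fin d → ℝ) → ℝ) (ρ : ℝ) (u : (Fin d → ℝ) → ℝ) (g : (Fin d → ℝ) → (Fin d → ℝ)),
  BMin D w ρ u g → ∀ z : Fin d → ℝ, ‖z‖ + r + 2 ≤ ρ →
  ∫ x in closedBall z r, sq (g x) ≤ C

/-- the structure condition for the linearised equation on the cube `closedBall z 2` -/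
structure DGEq (m0 M0 : ℝ) (z : Fin d → ℝ) (w : (Fin d → ℝ) → ℝ)
    (G a : (Fin d → ℝ) → (Fin d → ℝ)) (b : (Fin d → ℝ) → ℝ) : Prop where
  lsp : LSP w G
  ma : AEStronglyMeasurable a volume
  mb : AEStronglyMeasurable b volume
  ell : ∀ᵐ x, x ∈ closedBall z 2 → m0 * sq (G x) ≤ dot (a x) (G x) ∧
    sq (a x) ≤ M0 ^ 2 * sq (G x) ∧ |b x| ≤ M0 * |w x|
  eq : ∀ k : ℝ, 0 ≤ k → ∀ η : (Fin d → ℝ) → ℝ, Lip η → (∀ x, 0 ≤ η x ∧ η x ≤ 1) →
    (∀ x, x ∉ closedBall z 2 → η x = 0) →
    Integrable (fun x => dot (a x) (η x ^ 2 • (if k < w x then G x else 0)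
      + (2 * η x * max (w x - k) 0) • gr η x) + b x * (η x ^ 2 * max (w x - k) 0)) ∧
    ∫ x, (dot (a x) (η x ^ 2 • (if k < w x then G x else 0)
      + (2 * η x * max (w x - k) 0) • gr η x) + b x * (η x ^ 2 * max (w x - k) 0)) ≤ 0

/-- D5: Caccioppoli inequality on level sets -/
def DLevel : Prop := ∀ (d : ℕ) (m0 M0 : ℝ), 0 < m0 → 0 < M0 → ∃ C : ℝ, 0 < C ∧
  ∀ (z : Fin d → ℝ) (w : (Fin d → ℝ) → ℝ) (G a : (Fin d → ℝ) → (Fin d → ℝ))
  (b : (Fin d → ℝ) → ℝ), DGEq m0 M0 z w G a b →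
  ∀ (k B : ℝ), 0 ≤ k → 1 ≤ B → ∀ η : (Fin d → ℝ) → ℝ, Lip η → (∀ x, 0 ≤ η x ∧ η x ≤ 1) →
  (∀ x, sq (gr η x) ≤ B) → ∀ R : ℝ, R ≤ 2 → (∀ x, x ∉ closedBall z R → η x = 0) →
  ∫ x, sq (η x • (if k < w x then G x else 0) + max (w x - k) 0 • gr η x)
    ≤ C * (B * ∫ x in closedBall z R, max (w x - k) 0 ^ 2)
      + C * (k ^ 2 * (volume (closedBall z R ∩ {x | k < w x})).toReal)

/-- D6: one step of the De Giorgi iteration; `l < k` levels, cubes of half sides `r < R` -/
def DStep : Prop := ∀ (d : ℕ) (m0 M0 : ℝ), 0 < d → 0 < m0 → 0 < M0 → ∃ C : ℝ, 0 < C ∧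
  ∀ (z : Fin d → ℝ) (w : (Fin d → ℝ) → ℝ) (G a : (Fin d → ℝ) → (Fin d → ℝ))
  (b : (Fin d → ℝ) → ℝ), DGEq m0 M0 z w G a b →
  ∀ (K l k r R : ℝ), 0 < K → 0 ≤ l → l < k → k ≤ K → 1 ≤ r → r < R → R ≤ 2 →
  ∫ x in closedBall z r, max (w x - k) 0 ^ 2
    ≤ C * ((∫ x in closedBall z R, max (w x - l) 0 ^ 2) / (k - l) ^ 2) ^ ((2 : ℝ) / d)
      * ((1 / (R - r) ^ 2 + K ^ 2 / (k - l) ^ 2) * ∫ x in closedBall z R, max (w x - l) 0 ^ 2)

/-- D7: local boundedness -/
def DSup : Prop := ∀ (d : ℕ) (m0 M0 : ℝ), 0 < d → 0 < m0 → 0 < M0 → ∃ C : ℝ, 0 < C ∧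
  ∀ (z : Fin d → ℝ) (w : (Fin d → ℝ) → ℝ) (G a : (Fin d → ℝ) → (Fin d → ℝ))
  (b : (Fin d → ℝ) → ℝ), DGEq m0 M0 z w G a b →
  ∀ᵐ x, x ∈ closedBall z 1 → w x ≤ C * Real.sqrt (∫ y in closedBall z 2, w y ^ 2)

/-- D8: the difference quotients satisfy the linearised equation -/
def DQuot : Prop := ∀ (d : ℕ) (D : Dat d) (w : (Fin d → ℝ) → ℝ) (ρ : ℝ)
  (u : (Fin d → ℝ) → ℝ) (g : (Fin d → ℝ) → (Fin d → ℝ)), BMin D w ρ u g →
  ∀ (z h : Fin d → ℝ) (s : ℝ), ‖h‖ ≤ 1 → ‖z‖ + 4 ≤ ρ → (s = 1 ∨ s = -1) → h ≠ 0 →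
  DGEq D.m0 D.M0 z (fun x => s * (u (x + h) - u x) / ‖h‖)
    (fun x => (s / ‖h‖) • (g (x + h) - g x))
    (fun x => (s / ‖h‖) • (D.dL (g (x + h)) - D.dL (g x)))
    (fun x => s * (D.dF (u (x + h)) - D.dF (u x)) / ‖h‖)

/-- D9: uniform Lipschitz bound for the differences -/
def DDiff : Prop := ∀ (d : ℕ) (D : Dat d), 0 < d → ∃ C : ℝ, 0 ≤ C ∧
  ∀ (w : (Fin d → ℝ) → ℝ) (ρ : ℝ) (u : (Fin d → ℝ) → ℝ) (g : (Fin d → ℝ) → (Fin d → ℝ)),
  BMin D w ρ u g → ∀ (z h : Fin d → ℝ), ‖h‖ ≤ 1 → ‖z‖ + 8 ≤ ρ →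
  ∀ᵐ x, x ∈ closedBall z 1 → |u (x + h) - u x| ≤ C * ‖h‖

/-- D10: a BMin function is Lipschitz inside -/
def DLipIn : Prop := ∀ (d : ℕ) (D : Dat d), 0 < d → ∃ K : NNReal,
  ∀ (w : (Fin d → ℝ) → ℝ) (ρ : ℝ) (u : (Fin d → ℝ) → ℝ) (g : (Fin d → ℝ) → (Fin d → ℝ)),
  BMin D w ρ u g → 20 ≤ ρ → ∃ v : (Fin d → ℝ) → ℝ, LipschitzWith K v ∧
    (∀ x, 0 ≤ v x ∧ v x ≤ 1) ∧ ∀ᵐ x, x ∈ closedBall 0 (ρ - 12) → u x = v x

/-- D11: differences of the gradients of two minimisers in different cubes -/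
def DGrad : Prop := ∀ (d : ℕ) (D : Dat d) (r : ℝ), 0 < r → ∃ C : ℝ,
  ∀ (w : (Fin d → ℝ) → ℝ) (ρ ρ' : ℝ) (u u' : (Fin d → ℝ) → ℝ)
  (g g' : (Fin d → ℝ) → (Fin d → ℝ)), BMin D w ρ u g → BMin D w ρ' u' g' →
  r + 4 ≤ ρ → r + 4 ≤ ρ' →
  ∫ x in closedBall 0 r, sq (g x - g' x)
    ≤ C * Real.sqrt (∫ x in closedBall 0 (r + 1), (u x - u' x) ^ 2)

/-- D12: convergence of a subsequence of minimisers -/
def DConv : Prop := ∀ (d : ℕ) (D : Dat d) (w : (Fin d → ℝ) → ℝ) (ρ : ℕ → ℝ)
  (u : ℕ → (Fin d → ℝ) → ℝ) (g : ℕ → (Fin d → ℝ) → (Fin d → ℝ)), 0 < d →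
  Tendsto ρ atTop atTop → (∀ j, BMin D w (ρ j) (u j) (g j)) →
  ∃ (φ : ℕ → ℕ) (v : (Fin d → ℝ) → ℝ), StrictMono φ ∧ Lip v ∧ (∀ x, 0 ≤ v x ∧ v x ≤ 1) ∧
    ∀ R : ℝ, Tendsto (fun j => ∫ x in closedBall 0 R, (u (φ j) x - v x) ^ 2) atTop (𝓝 0) ∧
      Tendsto (fun j => ∫ x in closedBall 0 R, sq (g (φ j) x - gr v x)) atTop (𝓝 0)

/-- D13: the limit is minimal -/
def DLimMin : Prop := ∀ (d : ℕ) (D : Dat d) (w : (Fin d → ℝ) → ℝ) (ρ : ℕ → ℝ)
  (u : ℕ → (Fin d → ℝ) → ℝ) (g : ℕ → (Fin d → ℝ) → (Fin d → ℝ)) (v : (Fin d → ℝ) → ℝ),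
  Tendsto ρ atTop atTop → (∀ j, BMin D w (ρ j) (u j) (g j)) → Lip v →
  (∀ R : ℝ, Tendsto (fun j => ∫ x in closedBall 0 R, (u j x - v x) ^ 2) atTop (𝓝 0) ∧
      Tendsto (fun j => ∫ x in closedBall 0 R, sq (g j x - gr v x)) atTop (𝓝 0)) →
  MinAut D v

/-- D14: the result of part D -/
def PartD : Prop := ∀ (d : ℕ) (D : Dat d) (w : (Fin d → ℝ) → ℝ), 0 < d → Lip w →
  (∀ x, 0 ≤ w x ∧ w x ≤ 1) →
  ∃ (v : (Fin d → ℝ) → ℝ) (ρ : ℕ → ℝ) (U : ℕ → (Fin d → ℝ) → ℝ), Lip v ∧
    (∀ x, 0 ≤ v x ∧ v x ≤ 1) ∧ MinAut D v ∧ (∀ j, Comp w (ρ j) (U j)) ∧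
    (∀ j, ∫ x in closedBall 0 (ρ j), D.L (U j x) (gr (U j) x)
      ≤ (∫ x in closedBall 0 (ρ j), D.L (w x) (gr w x)) + 1) ∧
    ∀ R : ℝ, Tendsto (fun j => ∫ x in closedBall 0 R, (U j x - v x) ^ 2) atTop (𝓝 0)

end Pool.Agent.Work.MP_85f2da_an

end

section

set_option autoImplicit false

/-!
# MP_85f2da_an, D5: Caccioppoli inequality on level sets
-/

open MeasureTheory Filter Set Metric
open scoped ENNReal Topology ContDiff

namespace Pool.Agent.Work.MP_85f2da_an

variable {d : ℕ}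

theorem d5_sq_nonneg (a : Fin d → ℝ) : 0 ≤ sq a := Finset.sum_nonneg fun _ _ => sq_nonneg _

theorem d5_sq_zero : sq (0 : Fin d → ℝ) = 0 := by simp [sq]

theorem d5_dot_zero (a : Fin d → ℝ) : dot a 0 = 0 := by simp [dot]

/-- `|dot a b| ≤ |a| |b|`, in the form with a parameter. -/
theorem d5_dot_le (a b : Fin d → ℝ) (s : ℝ) (hs : 0 < s) :
    2 * |dot a b| ≤ s * sq a + sq b / s := by
  have h1 : ∀ c : ℝ, c = 1 ∨ c = -1 → 2 * (c * dot a b) ≤ s * sq a + sq b / s := by
    intro c hc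
    have hc2 : c ^ 2 = 1 := by rcases hc with rfl | rfl <;> norm_num
    unfold dot sq
    rw [Finset.mul_sum, Finset.mul_sum, Finset.mul_sum, Finset.sum_div, ← Finset.sum_add_distrib]
    refine Finset.sum_le_sum fun i _ => ?_
    have h2 : 0 ≤ (s * a i - c * b i) ^ 2 / s := by positivity
    have h3 : (s * a i - c * b i) ^ 2 / s = s * a i ^ 2 - 2 * (c * (a i * b i)) + b i ^ 2 / s := by
      field_simp
      linear_combination (b i) ^ 2 * hc2
    linarith
  rcases abs_cases (dot a b) with ⟨h, _⟩ | ⟨h, _⟩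
  · rw [h]
    have := h1 1 (Or.inl rfl)
    linarith
  · rw [h]
    have := h1 (-1) (Or.inr rfl)
    linarith

theorem d5_dot_add (a b c : Fin d → ℝ) : dot a (b + c) = dot a b + dot a c := by
  unfold dot
  rw [← Finset.sum_add_distrib]
  refine Finset.sum_congr rfl fun i _ => ?_
  rw [Pi.add_apply]
  ring

theorem d5_dot_smul (a b : Fin d → ℝ) (t : ℝ) : dot a (t • b) = t * dot a b := by
  unfold dot
  rw [Finset.mul_sum]
  refine Finset.sum_congr rfl fun i _ => ?_
  rw [Pi.smul_apply, smul_eq_mul]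
  ring

theorem d5_sq_smul (b : Fin d → ℝ) (t : ℝ) : sq (t • b) = t ^ 2 * sq b := by
  unfold sq
  rw [Finset.mul_sum]
  refine Finset.sum_congr rfl fun i _ => ?_
  rw [Pi.smul_apply, smul_eq_mul]
  ring

theorem d5_sq_add (a b : Fin d → ℝ) : sq (a + b) ≤ 2 * sq a + 2 * sq b := by
  unfold sq
  rw [Finset.mul_sum, Finset.mul_sum, ← Finset.sum_add_distrib]
  refine Finset.sum_le_sum fun i _ => ?_
  rw [Pi.add_apply]
  nlinarith [sq_nonneg (a i - b i)]

theorem d5_final {c1 c2 c3 A X S W2 B k2 : ℝ} (p1 : 0 ≤ c1) (p2 : 0 ≤ c2) (p3 : 0 ≤ c3)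
    (hB : 1 ≤ B) (hqB : W2 ^ 2 * S ≤ W2 ^ 2 * B) (hWB : W2 ^ 2 ≤ B * W2 ^ 2)
    (h : 2 * X ≤ A + c1 * (W2 ^ 2 * S) + c2 * W2 ^ 2 + c3 * k2 ^ 2) :
    2 * X + 2 * (W2 ^ 2 * S) ≤ A + (c1 + c2 + 2 + c3) * (B * W2 ^ 2 + k2 ^ 2) := by
  have q1 := mul_le_mul_of_nonneg_left hqB p1
  have q2 := mul_le_mul_of_nonneg_left hWB p2
  have q3 : 0 ≤ c3 * (B * W2 ^ 2) := by positivity
  have q4 : 0 ≤ (c1 + c2 + 2) * k2 ^ 2 := by positivity
  linarith

/-- The pointwise inequality. -/
theorem d5_point {m0 M0 : ℝ} (hm : 0 < m0) (hM : 0 < M0) {G a q : Fin d → ℝ} {b w k e B : ℝ}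
    (h1 : m0 * sq G ≤ dot a G) (h2 : sq a ≤ M0 ^ 2 * sq G) (h3 : |b| ≤ M0 * |w|) (hk : 0 ≤ k)
    (hw : k < w) (he0 : 0 ≤ e) (he1 : e ≤ 1) (hB : 1 ≤ B) (hq : sq q ≤ B) :
    sq (e • G + (w - k) • q) ≤ 4 / m0 * (dot a (e ^ 2 • G + (2 * e * (w - k)) • q) +
      b * (e ^ 2 * (w - k))) + (8 * M0 ^ 2 / m0 ^ 2 + 8 * M0 / m0 + 2 + 4 * M0 / m0) *
        (B * (w - k) ^ 2 + k ^ 2) := by
  set W := w - k with hW
  have hW0 : 0 < W := sub_pos.2 hw
  have hsG := d5_sq_nonneg G
  have hsa := d5_sq_nonneg a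
  have hsq := d5_sq_nonneg q
  rw [d5_dot_add, d5_dot_smul, d5_dot_smul]
  -- the cross term
  have hc : 2 * |dot a q| * (e * W) ≤ m0 / 2 * (e ^ 2 * sq G) + 2 * M0 ^ 2 / m0 * (W ^ 2 * sq q) := by
    rcases he0.eq_or_lt with h0 | hpos
    · rw [← h0]
      have : 0 ≤ 2 * M0 ^ 2 / m0 * (W ^ 2 * sq q) := by positivity
      simpa using this
    · have hs : 0 < m0 * e / (2 * M0 ^ 2 * W) := by positivity
      have := d5_dot_le a q _ hs
      have h5 := mul_le_mul_of_nonneg_right this (mul_nonneg he0 hW0.le)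
      refine h5.trans ?_
      have e1 : (m0 * e / (2 * M0 ^ 2 * W) * sq a + sq q / (m0 * e / (2 * M0 ^ 2 * W))) * (e * W) =
          m0 / 2 * (e ^ 2 * (sq a / M0 ^ 2)) + 2 * M0 ^ 2 / m0 * (W ^ 2 * sq q) := by
        field_simp
      rw [e1]
      have e2 : sq a / M0 ^ 2 ≤ sq G := by
        rw [div_le_iff₀ (by positivity)]
        linarith
      have e3 : m0 / 2 * (e ^ 2 * (sq a / M0 ^ 2)) ≤ m0 / 2 * (e ^ 2 * sq G) := by gcongr
      linarith
  have hc' : -(2 * e * W) * dot a q ≤ m0 / 2 * (e ^ 2 * sq G) + 2 * M0 ^ 2 / m0 * (W ^ 2 * sq q) := by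
    refine le_trans ?_ hc
    have : -dot a q ≤ |dot a q| := neg_le_abs _
    have h6 : 0 ≤ 2 * (e * W) := by positivity
    nlinarith [mul_le_mul_of_nonneg_left this h6]
  -- the zero order term
  have hwabs : |w| = W + k := by
    rw [abs_of_pos (lt_of_le_of_lt hk hw)]
    ring
  have hb : -(b * (e ^ 2 * W)) ≤ M0 * (2 * W ^ 2 + k ^ 2) := by
    have h7 : -b ≤ M0 * (W + k) := (neg_le_abs b).trans (by rwa [hwabs] at h3)
    have he2 : e ^ 2 ≤ 1 := pow_le_one₀ he0 he1
    have h8 : 0 ≤ e ^ 2 * W := by positivity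
    have h9 : -b * (e ^ 2 * W) ≤ M0 * (W + k) * (e ^ 2 * W) := mul_le_mul_of_nonneg_right h7 h8
    have h10 : M0 * (W + k) * (e ^ 2 * W) ≤ M0 * (W + k) * W := by
      have : e ^ 2 * W ≤ W := by nlinarith
      exact mul_le_mul_of_nonneg_left this (by positivity)
    have h11 : (W + k) * W ≤ 2 * W ^ 2 + k ^ 2 := by nlinarith [sq_nonneg (W - k)]
    have h12 : M0 * (W + k) * W ≤ M0 * (2 * W ^ 2 + k ^ 2) := by
      rw [mul_assoc]
      exact mul_le_mul_of_nonneg_left h11 hM.le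
    linarith
  have hG : e ^ 2 * (m0 * sq G) ≤ e ^ 2 * dot a G := mul_le_mul_of_nonneg_left h1 (by positivity)
  have hE : m0 / 2 * (e ^ 2 * sq G) ≤ (e ^ 2 * dot a G + 2 * e * W * dot a q + b * (e ^ 2 * W)) +
      2 * M0 ^ 2 / m0 * (W ^ 2 * sq q) + M0 * (2 * W ^ 2 + k ^ 2) := by
    linarith
  have hqB : W ^ 2 * sq q ≤ W ^ 2 * B := mul_le_mul_of_nonneg_left hq (by positivity)
  have hWB : W ^ 2 ≤ B * W ^ 2 := by nlinarith [sq_nonneg W]
  refine (d5_sq_add _ _).trans ?_
  rw [d5_sq_smul, d5_sq_smul]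
  set E := e ^ 2 * dot a G + 2 * e * W * dot a q + b * (e ^ 2 * W) with hEdef
  have h13 : 2 * (e ^ 2 * sq G) ≤ 4 / m0 * (E + 2 * M0 ^ 2 / m0 * (W ^ 2 * sq q) +
      M0 * (2 * W ^ 2 + k ^ 2)) := by
    have := mul_le_mul_of_nonneg_left hE (by positivity : 0 ≤ 4 / m0)
    refine le_trans (le_of_eq ?_) this
    field_simp
    ring
  have h14 : 4 / m0 * (E + 2 * M0 ^ 2 / m0 * (W ^ 2 * sq q) + M0 * (2 * W ^ 2 + k ^ 2)) =
      4 / m0 * E + 8 * M0 ^ 2 / m0 ^ 2 * (W ^ 2 * sq q) + 8 * M0 / m0 * W ^ 2 +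
        4 * M0 / m0 * k ^ 2 := by
    field_simp
    ring
  rw [h14] at h13
  have p1 : 0 ≤ 8 * M0 ^ 2 / m0 ^ 2 := by positivity
  have p2 : 0 ≤ 8 * M0 / m0 := by positivity
  have p3 : 0 ≤ 4 * M0 / m0 := by positivity
  exact d5_final p1 p2 p3 hB hqB hWB h13

theorem d5_gr_zero {η : (Fin d → ℝ) → ℝ} {z : Fin d → ℝ} {R : ℝ}
    (h : ∀ x, x ∉ closedBall z R → η x = 0) {x : Fin d → ℝ} (hx : x ∉ closedBall z R) :
    gr η x = 0 := by
  have h1 : η =ᶠ[𝓝 x] fun _ => (0 : ℝ) := by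
    filter_upwards [isClosed_closedBall.isOpen_compl.mem_nhds hx] with y hy using h y hy
  funext i
  unfold gr
  rw [h1.fderiv_eq]
  simp

theorem dLevel (hI : SInt) : DLevel := by
  intro d m0 M0 hm hM
  refine ⟨8 * M0 ^ 2 / m0 ^ 2 + 8 * M0 / m0 + 2 + 4 * M0 / m0, by positivity, ?_⟩
  intro z w G a b hE k B hk hB η hη hη01 hηB R hR hηR
  set C := 8 * M0 ^ 2 / m0 ^ 2 + 8 * M0 / m0 + 2 + 4 * M0 / m0 with hC
  have hC0 : 0 ≤ C := by positivity
  have hsub : closedBall z R ⊆ closedBall z 2 := closedBall_subset_closedBall hR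
  obtain ⟨hint, hle⟩ := hE.eq k hk η hη hη01 (fun x hx => hηR x fun h => hx (hsub h))
  set E : (Fin d → ℝ) → ℝ := fun x => dot (a x) (η x ^ 2 • (if k < w x then G x else 0)
      + (2 * η x * max (w x - k) 0) • gr η x) + b x * (η x ^ 2 * max (w x - k) 0) with hEd
  have hmw : AEStronglyMeasurable w volume := hE.lsp.mu
  have hS : NullMeasurableSet {x | k < w x} volume :=
    nullMeasurableSet_lt aemeasurable_const hmw.aemeasurable
  have hW2 : IntegrableOn (fun x => max (w x - k) 0 ^ 2) (closedBall z R) := by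
    refine Integrable.mono' (hI d w G hE.lsp z R).1 ?_ ?_
    · have h1 : AEStronglyMeasurable (fun x => max (w x - k) 0) volume :=
        ((hmw.sub aestronglyMeasurable_const).sup aestronglyMeasurable_const)
      exact (h1.pow 2).restrict
    · refine ae_of_all _ fun x => ?_
      rw [Real.norm_eq_abs, abs_of_nonneg (sq_nonneg _)]
      rcases le_total (w x - k) 0 with h | h
      · rw [max_eq_right h]
        nlinarith [sq_nonneg (w x)]
      · rw [max_eq_left h]
        nlinarith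
  have hfin : volume (closedBall z R ∩ {x | k < w x}) ≠ ⊤ :=
    ne_top_of_le_ne_top measure_closedBall_lt_top.ne (measure_mono inter_subset_left)
  have hT : NullMeasurableSet (closedBall z R ∩ {x | k < w x}) volume :=
    measurableSet_closedBall.nullMeasurableSet.inter hS
  let g : (Fin d → ℝ) → ℝ := fun x => 4 / m0 * E x +
    C * (B * (closedBall z R).indicator (fun x => max (w x - k) 0 ^ 2) x) +
    C * (k ^ 2 * (closedBall z R ∩ {x | k < w x}).indicator (fun _ => (1 : ℝ)) x)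
  have i1 : Integrable (fun x => 4 / m0 * E x) := hint.const_mul _
  have i2 : Integrable (fun x => C * (B * (closedBall z R).indicator
      (fun x => max (w x - k) 0 ^ 2) x)) :=
    ((integrable_indicator_iff measurableSet_closedBall).2 hW2).const_mul _ |>.const_mul _
  have i3' : Integrable ((closedBall z R ∩ {x | k < w x}).indicator (fun _ => (1 : ℝ))) :=
    (integrableOn_const hfin).integrable_indicator₀ hT
  have i3 : Integrable (fun x => C * (k ^ 2 * (closedBall z R ∩ {x | k < w x}).indicator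
      (fun _ => (1 : ℝ)) x)) := (i3'.const_mul _).const_mul _
  have hgint : Integrable g := (i1.add i2).add i3
  have hmain : (fun x => sq (η x • (if k < w x then G x else 0) + max (w x - k) 0 • gr η x))
      ≤ᵐ[volume] g := by
    filter_upwards [hE.ell] with x hx
    show sq (η x • (if k < w x then G x else 0) + max (w x - k) 0 • gr η x) ≤ g x
    by_cases hxR : x ∈ closedBall z R
    · by_cases hkw : k < w x
      · have hx2 := hx (hsub hxR)
        have hmax : max (w x - k) 0 = w x - k := max_eq_left (by linarith)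
        have := d5_point hm hM hx2.1 hx2.2.1 hx2.2.2 hk hkw (hη01 x).1 (hη01 x).2 hB (hηB x)
        show _ ≤ 4 / m0 * E x + C * (B * (closedBall z R).indicator
          (fun x => max (w x - k) 0 ^ 2) x) +
          C * (k ^ 2 * (closedBall z R ∩ {x | k < w x}).indicator (fun _ => (1 : ℝ)) x)
        rw [indicator_of_mem hxR, indicator_of_mem (show x ∈ closedBall z R ∩ {x | k < w x} from
          ⟨hxR, hkw⟩)]
        simp only [hEd, if_pos hkw, hmax]
        refine this.trans (le_of_eq ?_)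
        ring
      · have hmax : max (w x - k) 0 = 0 := max_eq_right (by push Not at hkw; linarith)
        show _ ≤ 4 / m0 * E x + C * (B * (closedBall z R).indicator
          (fun x => max (w x - k) 0 ^ 2) x) +
          C * (k ^ 2 * (closedBall z R ∩ {x | k < w x}).indicator (fun _ => (1 : ℝ)) x)
        rw [indicator_of_mem hxR, indicator_of_notMem (show x ∉ closedBall z R ∩ {x | k < w x} from
          fun h => hkw h.2)]
        simp only [hEd, if_neg hkw, hmax]
        simp [d5_sq_zero, d5_dot_zero]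
    · have h0 : η x = 0 := hηR x hxR
      have h1 : gr η x = 0 := d5_gr_zero hηR hxR
      show _ ≤ 4 / m0 * E x + C * (B * (closedBall z R).indicator
          (fun x => max (w x - k) 0 ^ 2) x) +
          C * (k ^ 2 * (closedBall z R ∩ {x | k < w x}).indicator (fun _ => (1 : ℝ)) x)
      rw [indicator_of_notMem hxR, indicator_of_notMem (show x ∉ closedBall z R ∩ {x | k < w x} from
          fun h => hxR h.1)]
      simp only [hEd, h0, h1]
      simp [d5_sq_zero, d5_dot_zero]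
  have hres := integral_mono_of_nonneg (ae_of_all _ fun x => d5_sq_nonneg _) hgint hmain
  refine hres.trans ?_
  have e0 : ∫ x, g x = (∫ x, (4 / m0 * E x + C * (B * (closedBall z R).indicator
      (fun x => max (w x - k) 0 ^ 2) x))) + ∫ x, C * (k ^ 2 *
        (closedBall z R ∩ {x | k < w x}).indicator (fun _ => (1 : ℝ)) x) :=
    integral_add (i1.add i2) i3
  have e00 : ∫ x, (4 / m0 * E x + C * (B * (closedBall z R).indicator
      (fun x => max (w x - k) 0 ^ 2) x)) = (∫ x, 4 / m0 * E x) +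
      ∫ x, C * (B * (closedBall z R).indicator (fun x => max (w x - k) 0 ^ 2) x) :=
    integral_add i1 i2
  have e1 : ∫ x, g x = 4 / m0 * (∫ x, E x) +
      C * (B * ∫ x in closedBall z R, max (w x - k) 0 ^ 2) +
      C * (k ^ 2 * (volume (closedBall z R ∩ {x | k < w x})).toReal) := by
    rw [e0, e00, integral_const_mul, integral_const_mul,
      integral_const_mul, integral_const_mul, integral_const_mul,
      integral_indicator measurableSet_closedBall, integral_indicator₀ hT]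
    simp [Measure.real]
  rw [e1]
  have : 4 / m0 * (∫ x, E x) ≤ 0 := mul_nonpos_of_nonneg_of_nonpos (by positivity) hle
  linarith

end Pool.Agent.Work.MP_85f2da_an

end

section

set_option autoImplicit false

/-!
# MP_85f2da_an, D6: one step of the De Giorgi iteration
-/

open MeasureTheory Filter Set Metric
open scoped ENNReal Topology ContDiff

namespace Pool.Agent.Work.MP_85f2da_an

variable {d : ℕ}

theorem d6_sq_nonneg (a : Fin d → ℝ) : 0 ≤ sq a := Finset.sum_nonneg fun _ _ => sq_nonneg _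

theorem d6_gr_zero {η : (Fin d → ℝ) → ℝ} {z : Fin d → ℝ} {R : ℝ}
    (h : ∀ x, x ∉ closedBall z R → η x = 0) {x : Fin d → ℝ} (hx : x ∉ closedBall z R) :
    gr η x = 0 := by
  have h1 : η =ᶠ[𝓝 x] fun _ => (0 : ℝ) := by
    filter_upwards [isClosed_closedBall.isOpen_compl.mem_nhds hx] with y hy using h y hy
  funext i
  unfold gr
  rw [h1.fderiv_eq]
  simp

/-- The gradient of a Lipschitz function for the sup norm. -/
theorem d6_sq_gr_le {f : (Fin d → ℝ) → ℝ} {L : NNReal} (hf : LipschitzWith L f) (x : Fin d → ℝ) :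
    sq (gr f x) ≤ (L : ℝ) ^ 2 := by
  have h1 : ∑ i, |gr f x i| ≤ L := by
    have h2 : ∑ i, |gr f x i| = fderiv ℝ f x (fun i => SignType.sign (gr f x i)) := by
      have h3 : (fun i => ((SignType.sign (gr f x i) : SignType) : ℝ)) =
          ∑ i, (SignType.sign (gr f x i) : ℝ) • Pi.single i (1 : ℝ) := by
        funext j
        rw [Finset.sum_apply]
        simp [Pi.single_apply]
      rw [h3, map_sum]
      refine Finset.sum_congr rfl fun i _ => ?_
      rw [map_smul, smul_eq_mul]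
      exact (sign_mul_self (gr f x i)).symm
    rw [h2]
    have h4 : ‖(fun i => ((SignType.sign (gr f x i) : SignType) : ℝ))‖ ≤ 1 := by
      refine (pi_norm_le_iff_of_nonneg zero_le_one).2 fun i => ?_
      rcases lt_trichotomy (gr f x i) 0 with h | h | h
      · simp [h]
      · simp [h]
      · simp [h]
    have h5 := (fderiv ℝ f x).le_opNorm (fun i => ((SignType.sign (gr f x i) : SignType) : ℝ))
    have h6 : ‖fderiv ℝ f x‖ ≤ L := norm_fderiv_le_of_lipschitz ℝ hf
    calc _ ≤ ‖fderiv ℝ f x (fun i => ((SignType.sign (gr f x i) : SignType) : ℝ))‖ :=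
          Real.le_norm_self _
      _ ≤ _ := h5
      _ ≤ L * 1 := mul_le_mul h6 h4 (norm_nonneg _) L.2
      _ = L := mul_one _
  have h7 : sq (gr f x) ≤ (∑ i, |gr f x i|) ^ 2 := by
    unfold sq
    have := Finset.sum_sq_le_sq_sum_of_nonneg (s := Finset.univ) (f := fun i => |gr f x i|)
      (fun i _ => abs_nonneg _)
    simpa [sq_abs] using this
  exact h7.trans (pow_le_pow_left₀ (Finset.sum_nonneg fun _ _ => abs_nonneg _) h1 2)

/-- The cut-off function. -/
noncomputable def d6_eta (z : Fin d → ℝ) (r R : ℝ) (x : Fin d → ℝ) : ℝ :=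
  max 0 (min 1 ((R - ‖x - z‖) / (R - r)))

theorem d6_eta_lip (z : Fin d → ℝ) {r R : ℝ} (h : r < R) :
    LipschitzWith (Real.toNNReal (1 / (R - r))) (d6_eta z r R) := by
  have hd : 0 < R - r := sub_pos.2 h
  have h1 : LipschitzWith (Real.toNNReal (1 / (R - r)))
      (fun x : Fin d → ℝ => (R - ‖x - z‖) / (R - r)) := by
    refine LipschitzWith.of_dist_le_mul fun x y => ?_
    rw [Real.coe_toNNReal _ (by positivity), Real.dist_eq, dist_eq_norm]
    rw [← sub_div, abs_div, abs_of_pos hd]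
    rw [div_le_iff₀ hd]
    have : |R - ‖x - z‖ - (R - ‖y - z‖)| ≤ ‖x - y‖ := by
      have h2 := abs_norm_sub_norm_le (y - z) (x - z)
      rw [show y - z - (x - z) = -(x - y) by abel, norm_neg] at h2
      rwa [show R - ‖x - z‖ - (R - ‖y - z‖) = ‖y - z‖ - ‖x - z‖ by ring]
    calc _ ≤ ‖x - y‖ := this
      _ = _ := by field_simp
  exact (h1.const_min 1).const_max 0

theorem d6_eta_zero {z : Fin d → ℝ} {r R : ℝ} (h : r < R) {x : Fin d → ℝ}
    (hx : x ∉ closedBall z R) : d6_eta z r R x = 0 := by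
  have hd : 0 < R - r := sub_pos.2 h
  rw [mem_closedBall, dist_eq_norm, not_le] at hx
  unfold d6_eta
  refine max_eq_left ((min_le_right _ _).trans ?_)
  exact div_nonpos_of_nonpos_of_nonneg (by linarith) hd.le

theorem d6_eta_one {z : Fin d → ℝ} {r R : ℝ} (h : r < R) {x : Fin d → ℝ}
    (hx : x ∈ closedBall z r) : d6_eta z r R x = 1 := by
  have hd : 0 < R - r := sub_pos.2 h
  rw [mem_closedBall, dist_eq_norm] at hx
  have : 1 ≤ (R - ‖x - z‖) / (R - r) := by
    rw [le_div_iff₀ hd]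
    linarith
  unfold d6_eta
  rw [min_eq_left this]
  exact max_eq_right zero_le_one

theorem d6_eta_01 (z : Fin d → ℝ) (r R : ℝ) (x : Fin d → ℝ) :
    0 ≤ d6_eta z r R x ∧ d6_eta z r R x ≤ 1 :=
  ⟨le_max_left _ _, max_le zero_le_one (min_le_left _ _)⟩

/-- Cauchy-Schwarz on a set of finite measure. -/
theorem d6_cs {v : (Fin d → ℝ) → ℝ} {T : Set (Fin d → ℝ)} (hT : NullMeasurableSet T volume)
    (hfin : volume T ≠ ⊤)
    (hv2 : Integrable (fun x => v x ^ 2)) (h0 : ∀ x, x ∉ T → v x = 0) :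
    (∫ x, |v x|) ^ 2 ≤ (volume T).toReal * ∫ x, v x ^ 2 := by
  have hTi : Integrable (T.indicator (fun _ => (1 : ℝ))) :=
    (integrableOn_const hfin).integrable_indicator₀ hT
  have hTint : ∫ x, T.indicator (fun _ => (1 : ℝ)) x = (volume T).toReal := by
    rw [integral_indicator₀ hT]
    simp [Measure.real]
  set m := (volume T).toReal with hm
  set J := ∫ x, v x ^ 2 with hJ
  have hJ0 : 0 ≤ J := integral_nonneg fun x => sq_nonneg _
  have hA0 : 0 ≤ ∫ x, |v x| := integral_nonneg fun x => abs_nonneg _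
  have hm0 : 0 ≤ m := ENNReal.toReal_nonneg
  have hpt : ∀ s : ℝ, 0 < s → ∀ x, |v x| ≤ s / 2 * T.indicator (fun _ => (1 : ℝ)) x +
      1 / (2 * s) * v x ^ 2 := by
    intro s hs x
    by_cases hx : x ∈ T
    · rw [indicator_of_mem hx]
      have h1 : 0 ≤ (s - |v x|) ^ 2 / (2 * s) := by positivity
      have h2 : (s - |v x|) ^ 2 / (2 * s) = s / 2 * 1 + 1 / (2 * s) * v x ^ 2 - |v x| := by
        have : v x ^ 2 = |v x| ^ 2 := (sq_abs _).symm
        rw [this]
        field_simp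
        ring
      linarith
    · rw [indicator_of_notMem hx, h0 x hx]
      simp
  have hint : ∀ s : ℝ, 0 < s → ∫ x, |v x| ≤ s / 2 * m + 1 / (2 * s) * J := by
    intro s hs
    have hi : Integrable (fun x => s / 2 * T.indicator (fun _ => (1 : ℝ)) x +
      1 / (2 * s) * v x ^ 2) := (hTi.const_mul _).add (hv2.const_mul _)
    calc ∫ x, |v x| ≤ ∫ x, (s / 2 * T.indicator (fun _ => (1 : ℝ)) x + 1 / (2 * s) * v x ^ 2) :=
          integral_mono_of_nonneg (ae_of_all _ fun x => abs_nonneg _) hi (ae_of_all _ (hpt s hs))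
      _ = (∫ x, s / 2 * T.indicator (fun _ => (1 : ℝ)) x) + ∫ x, 1 / (2 * s) * v x ^ 2 :=
          integral_add (hTi.const_mul _) (hv2.const_mul _)
      _ = _ := by rw [integral_const_mul, integral_const_mul, hTint]
  -- optimise
  have key : ∀ e : ℝ, 0 < e → (∫ x, |v x|) ^ 2 ≤ (m + e) * (J + e) := by
    intro e he
    have hs : 0 < Real.sqrt ((J + e) / (m + e)) := Real.sqrt_pos.2 (by positivity)
    have h1 := hint _ hs
    have h2 : ∫ x, |v x| ≤ Real.sqrt ((m + e) * (J + e)) := by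
      refine h1.trans ?_
      have e1 : Real.sqrt ((J + e) / (m + e)) = Real.sqrt (J + e) / Real.sqrt (m + e) :=
        Real.sqrt_div (by positivity) _
      have e2 : Real.sqrt ((m + e) * (J + e)) = Real.sqrt (m + e) * Real.sqrt (J + e) :=
        Real.sqrt_mul (by positivity) _
      have pm : 0 < Real.sqrt (m + e) := Real.sqrt_pos.2 (by positivity)
      have pJ : 0 < Real.sqrt (J + e) := Real.sqrt_pos.2 (by positivity)
      have sm : Real.sqrt (m + e) ^ 2 = m + e := Real.sq_sqrt (by positivity)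
      have sJ : Real.sqrt (J + e) ^ 2 = J + e := Real.sq_sqrt (by positivity)
      rw [e1, e2]
      have h3 : Real.sqrt (J + e) / Real.sqrt (m + e) / 2 * m +
          1 / (2 * (Real.sqrt (J + e) / Real.sqrt (m + e))) * J ≤
          Real.sqrt (J + e) / Real.sqrt (m + e) / 2 * (m + e) +
          1 / (2 * (Real.sqrt (J + e) / Real.sqrt (m + e))) * (J + e) := by
        gcongr <;> linarith
      refine h3.trans (le_of_eq ?_)
      rw [← sm, ← sJ]
      rw [Real.sqrt_sq pm.le, Real.sqrt_sq pJ.le]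
      field_simp
      ring
    calc (∫ x, |v x|) ^ 2 ≤ Real.sqrt ((m + e) * (J + e)) ^ 2 := pow_le_pow_left₀ hA0 h2 2
      _ = _ := Real.sq_sqrt (by positivity)
  have ht : Tendsto (fun n : ℕ => (m + 1 / ((n : ℝ) + 1)) * (J + 1 / ((n : ℝ) + 1))) atTop
      (𝓝 ((m + 0) * (J + 0))) :=
    (tendsto_const_nhds.add tendsto_one_div_add_atTop_nhds_zero_nat).mul
      (tendsto_const_nhds.add tendsto_one_div_add_atTop_nhds_zero_nat)
  rw [add_zero, add_zero] at ht
  exact ge_of_tendsto' ht fun n => key _ (by positivity)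

theorem dStep (hL : DLevel) (hN : SNash) (hP : SPos) (hCu : SCut) (hI : SInt) : DStep := by
  intro d m0 M0 hd hm hM
  obtain ⟨C1, hC1, hC1s⟩ := hL d m0 M0 hm hM
  have hdR : (0 : ℝ) < d := by exact_mod_cast hd
  refine ⟨2 ^ (d + 1) * d * 2 ^ ((2 : ℝ) / d) * C1, by positivity, ?_⟩
  intro z w G a b hE K l k r R hK hl hlk hkK hr hrR hR
  have hRr : 0 < R - r := sub_pos.2 hrR
  have hRr1 : R - r ≤ 1 := by linarith
  have hk : 0 ≤ k := hl.trans hlk.le
  set η : (Fin d → ℝ) → ℝ := d6_eta z r R with hη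
  have hηlip := d6_eta_lip z hrR
  have hη0 : ∀ x, x ∉ closedBall z R → η x = 0 := fun x hx => d6_eta_zero hrR hx
  have hηg : ∀ x, x ∉ closedBall z R → gr η x = 0 := fun x hx => d6_gr_zero hη0 hx
  have hηB : ∀ x, sq (gr η x) ≤ 1 / (R - r) ^ 2 := by
    intro x
    have := d6_sq_gr_le hηlip x
    rw [Real.coe_toNNReal _ (by positivity), div_pow, one_pow] at this
    exact this
  have hB1 : 1 ≤ 1 / (R - r) ^ 2 := by
    rw [le_div_iff₀ (by positivity)]
    nlinarith
  have hηc : HasCompactSupport η := by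
    refine HasCompactSupport.intro (isCompact_closedBall z R) hη0
  -- the function v
  set W : (Fin d → ℝ) → ℝ := fun x => max (w x - k) 0 with hW
  set G1 : (Fin d → ℝ) → (Fin d → ℝ) := fun x => if k < w x then G x else 0 with hG1
  have hv : LSP (fun x => η x * W x) (fun x => η x • G1 x + W x • gr η x) :=
    hCu d W η G1 (hP d w G k hE.lsp) ⟨_, hηlip⟩ hηc
  set v : (Fin d → ℝ) → ℝ := fun x => η x * W x with hvdef
  set Gv : (Fin d → ℝ) → (Fin d → ℝ) := fun x => η x • G1 x + W x • gr η x with hGv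
  have hmw : AEStronglyMeasurable w volume := hE.lsp.mu
  have htr : ∀ k' R' : ℝ, 0 ≤ k' →
      IntegrableOn (fun x => max (w x - k') 0 ^ 2) (closedBall z R') := by
    intro k' R' hk'
    refine Integrable.mono' (hI d w G hE.lsp z R').1 ?_ ?_
    · have h1 : AEStronglyMeasurable (fun x => max (w x - k') 0) volume :=
        ((hmw.sub aestronglyMeasurable_const).sup aestronglyMeasurable_const)
      exact (h1.pow 2).restrict
    · refine ae_of_all _ fun x => ?_
      rw [Real.norm_eq_abs, abs_of_nonneg (sq_nonneg _)]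
      rcases le_total (w x - k') 0 with h | h
      · rw [max_eq_right h]
        nlinarith [sq_nonneg (w x)]
      · rw [max_eq_left h]
        nlinarith
  set J : ℝ := ∫ x in closedBall z R, max (w x - l) 0 ^ 2 with hJ
  have hJ0 : 0 ≤ J := integral_nonneg fun x => sq_nonneg _
  set T : Set (Fin d → ℝ) := closedBall z R ∩ {x | k < w x} with hT
  have hTm : NullMeasurableSet T volume := measurableSet_closedBall.nullMeasurableSet.inter
    (nullMeasurableSet_lt aemeasurable_const hmw.aemeasurable)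
  have hTfin : volume T ≠ ⊤ :=
    ne_top_of_le_ne_top measure_closedBall_lt_top.ne (measure_mono inter_subset_left)
  set μ : ℝ := (volume T).toReal with hμ
  have hμ0 : 0 ≤ μ := ENNReal.toReal_nonneg
  -- Chebyshev
  have hkl : 0 < k - l := sub_pos.2 hlk
  have hcheb : μ ≤ J / (k - l) ^ 2 := by
    rw [le_div_iff₀ (by positivity)]
    have h1 : μ * (k - l) ^ 2 = ∫ x in T, (k - l) ^ 2 := by
      rw [setIntegral_const, smul_eq_mul]
      rfl
    rw [h1]
    have hJi := htr l R hl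
    calc ∫ x in T, (k - l) ^ 2 ≤ ∫ x in T, max (w x - l) 0 ^ 2 := by
          refine setIntegral_mono_on₀ (integrableOn_const hTfin)
            (hJi.mono_set inter_subset_left) hTm fun x hx => ?_
          refine pow_le_pow_left₀ hkl.le ?_ 2
          refine le_max_of_le_left ?_
          have : k < w x := hx.2
          linarith
      _ ≤ J := setIntegral_mono_set hJi (ae_of_all _ fun x => sq_nonneg _)
          inter_subset_left.eventuallyLE
  -- square integrability of v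
  have hvball : IntegrableOn (fun x => v x ^ 2) (closedBall z R) := (hI d v Gv hv z R).1
  have hv2 : Integrable (fun x => v x ^ 2) := by
    refine (integrableOn_iff_integrable_of_support_subset ?_).1 hvball
    intro x hx
    by_contra hxn
    refine hx ?_
    show (η x * W x) ^ 2 = 0
    rw [hη0 x hxn]
    ring
  have hvT : ∀ x, x ∉ T → v x = 0 := by
    intro x hx
    show η x * W x = 0
    by_cases h1 : x ∈ closedBall z R
    · have h2 : ¬ k < w x := fun h => hx ⟨h1, h⟩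
      have h3 : W x = 0 := max_eq_right (by push Not at h2; linarith)
      rw [h3, mul_zero]
    · rw [hη0 x h1, zero_mul]
  have hcs := d6_cs hTm hTfin hv2 hvT
  -- the left side
  have hleft : ∫ x in closedBall z r, max (w x - k) 0 ^ 2 ≤ ∫ x, v x ^ 2 := by
    have e1 : ∫ x in closedBall z r, max (w x - k) 0 ^ 2 = ∫ x in closedBall z r, v x ^ 2 := by
      refine setIntegral_congr_fun measurableSet_closedBall fun x hx => ?_
      show max (w x - k) 0 ^ 2 = (η x * W x) ^ 2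
      rw [hη, d6_eta_one hrR hx, one_mul]
    rw [e1]
    exact setIntegral_le_integral hv2 (ae_of_all _ fun x => sq_nonneg _)
  -- energy of v
  have hen : ∫ x, sq (Gv x) ≤ C1 * ((1 / (R - r) ^ 2 + K ^ 2 / (k - l) ^ 2) * J) := by
    have h1 := hC1s z w G a b hE k (1 / (R - r) ^ 2) hk hB1 η ⟨_, hηlip⟩ (d6_eta_01 z r R) hηB R hR
      hη0
    have h2 : ∫ x in closedBall z R, max (w x - k) 0 ^ 2 ≤ J := by
      refine integral_mono (htr k R hk) (htr l R hl) fun x => ?_
      refine pow_le_pow_left₀ (le_max_right _ _) ?_ 2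
      exact max_le_max (by linarith) le_rfl
    have h3 : k ^ 2 * μ ≤ K ^ 2 * (J / (k - l) ^ 2) :=
      mul_le_mul (pow_le_pow_left₀ hk hkK 2) hcheb hμ0 (by positivity)
    refine h1.trans ?_
    have h4 := mul_le_mul_of_nonneg_left h2 (by positivity : 0 ≤ C1 * (1 / (R - r) ^ 2))
    have h5 := mul_le_mul_of_nonneg_left h3 hC1.le
    have h6 : C1 * ((1 / (R - r) ^ 2 + K ^ 2 / (k - l) ^ 2) * J) =
        C1 * (1 / (R - r) ^ 2) * J + C1 * (K ^ 2 * (J / (k - l) ^ 2)) := by ring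
    rw [h6]
    have h7 : C1 * (1 / (R - r) ^ 2 * ∫ x in closedBall z R, max (w x - k) 0 ^ 2) =
        C1 * (1 / (R - r) ^ 2) * ∫ x in closedBall z R, max (w x - k) 0 ^ 2 := by ring
    linarith
  have henn : 0 ≤ ∫ x, sq (Gv x) := integral_nonneg fun x => d6_sq_nonneg _
  have hvnn : 0 ≤ ∫ x, v x ^ 2 := integral_nonneg fun x => sq_nonneg _
  -- Nash
  have hnash : ∫ x, v x ^ 2 ≤ 2 ^ (d + 1) * d * (2 * μ) ^ ((2 : ℝ) / d) * ∫ x, sq (Gv x) := by
    rcases hμ0.eq_or_lt with h0 | hμp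
    · -- μ = 0
      have h1 : volume T = 0 := by
        rcases (ENNReal.toReal_eq_zero_iff _).1 h0.symm with h | h
        · exact h
        · exact absurd h hTfin
      have h2 : ∫ x, v x ^ 2 = 0 := by
        refine integral_eq_zero_of_ae ?_
        have h3 : ∀ᵐ x, x ∉ T := measure_eq_zero_iff_ae_notMem.1 h1
        filter_upwards [h3] with x hx
        rw [hvT x hx]
        simp
      rw [h2]
      positivity
    · set ε : ℝ := (2 * μ) ^ ((1 : ℝ) / d) with hε
      have hε0 : 0 < ε := Real.rpow_pos_of_pos (by positivity) _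
      have hεd : ε ^ d = 2 * μ := by
        rw [hε, ← Real.rpow_natCast, ← Real.rpow_mul (by positivity)]
        rw [show 1 / (d : ℝ) * d = 1 by field_simp, Real.rpow_one]
      have hε2 : ε ^ 2 = (2 * μ) ^ ((2 : ℝ) / d) := by
        rw [hε, ← Real.rpow_natCast, ← Real.rpow_mul (by positivity)]
        congr 1
        push_cast
        ring
      have hz : ∀ᵐ x, x ∉ closedBall (0 : Fin d → ℝ) (‖z‖ + R) → v x = 0 ∧ Gv x = 0 := by
        refine ae_of_all _ fun x hx => ?_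
        have hx' : x ∉ closedBall z R := by
          intro h
          refine hx ?_
          rw [mem_closedBall, dist_zero_right]
          rw [mem_closedBall, dist_eq_norm] at h
          have := norm_le_norm_add_norm_sub' x z
          linarith
        refine ⟨?_, ?_⟩
        · show η x * W x = 0
          rw [hη0 x hx', zero_mul]
        · show η x • G1 x + W x • gr η x = 0
          rw [hη0 x hx', hηg x hx', zero_smul, smul_zero, add_zero]
      have h1 := hN d v Gv hv (‖z‖ + R) hz ε hε0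
      rw [mul_pow, hεd, hε2] at h1
      have h2 : 2 * μ * ∫ x, v x ^ 2 ≤ 2 ^ d * (2 * μ) * (d * (2 * μ) ^ ((2 : ℝ) / d)) *
          (∫ x, sq (Gv x)) + μ * ∫ x, v x ^ 2 := h1.trans (by linarith [hcs])
      have h3 : μ * ∫ x, v x ^ 2 ≤ μ * (2 ^ (d + 1) * d * (2 * μ) ^ ((2 : ℝ) / d) *
          ∫ x, sq (Gv x)) := by
        rw [pow_succ]
        linarith
      exact le_of_mul_le_mul_left h3 hμp
  -- conclusion
  refine hleft.trans (hnash.trans ?_)
  have hq : (2 * μ) ^ ((2 : ℝ) / d) ≤ 2 ^ ((2 : ℝ) / d) * (J / (k - l) ^ 2) ^ ((2 : ℝ) / d) := by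
    rw [← Real.mul_rpow (by norm_num) (by positivity)]
    exact Real.rpow_le_rpow (by positivity) (mul_le_mul_of_nonneg_left hcheb (by norm_num))
      (by positivity)
  calc 2 ^ (d + 1) * d * (2 * μ) ^ ((2 : ℝ) / d) * ∫ x, sq (Gv x)
      ≤ 2 ^ (d + 1) * d * (2 ^ ((2 : ℝ) / d) * (J / (k - l) ^ 2) ^ ((2 : ℝ) / d)) *
        (C1 * ((1 / (R - r) ^ 2 + K ^ 2 / (k - l) ^ 2) * J)) := by
        refine mul_le_mul ?_ hen henn (by positivity)
        exact mul_le_mul_of_nonneg_left hq (by positivity)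
    _ = _ := by ring

end Pool.Agent.Work.MP_85f2da_an

end

section

set_option autoImplicit false

/-!
# MP_85f2da_an, D7: local boundedness from the De Giorgi iteration
-/

open MeasureTheory Filter Set Metric
open scoped ENNReal Topology ContDiff

namespace Pool.Agent.Work.MP_85f2da_an

/-- The scalar iteration. -/
theorem d7_iter {p C : ℝ} (hp : 0 < p) (hC : 0 < C) : ∃ θ lam : ℝ, 0 < θ ∧ 0 < lam ∧ lam < 1 ∧
    ∀ y : ℕ → ℝ, (∀ j, 0 ≤ y j) →
      (∀ j, y (j + 1) ≤ C * ((4 : ℝ) ^ (j + 1) * y j) ^ p * (2 * 4 ^ (j + 1) * y j)) →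
      y 0 ≤ θ → ∀ j, y j ≤ θ * lam ^ j := by
  set b : ℝ := 4 ^ (1 + p) with hb
  have hb1 : 1 < b := Real.one_lt_rpow (by norm_num) (by linarith)
  have hb0 : 0 < b := by linarith
  set lam : ℝ := b ^ (-(1 / p)) with hlam
  have hlam0 : 0 < lam := Real.rpow_pos_of_pos hb0 _
  have hlam1 : lam < 1 := Real.rpow_lt_one_of_one_lt_of_neg hb1 (by
    have : 0 < 1 / p := by positivity
    linarith)
  have hlamp : lam ^ p = b⁻¹ := by
    rw [hlam, ← Real.rpow_mul hb0.le]
    rw [show -(1 / p) * p = -1 by field_simp, Real.rpow_neg_one]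
  set θ : ℝ := (lam / (2 * C * b)) ^ (1 / p) with hθ
  have hq : 0 < lam / (2 * C * b) := by positivity
  have hθ0 : 0 < θ := Real.rpow_pos_of_pos hq _
  have hθp : θ ^ p = lam / (2 * C * b) := by
    rw [hθ, ← Real.rpow_mul hq.le, show 1 / p * p = 1 by field_simp, Real.rpow_one]
  refine ⟨θ, lam, hθ0, hlam0, hlam1, ?_⟩
  intro y hy hrec h0 j
  induction j with
  | zero => simpa using h0
  | succ j ih =>
    have hx : 0 ≤ (4 : ℝ) ^ (j + 1) * y j := mul_nonneg (by positivity) (hy j)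
    have hy' : 0 ≤ θ * lam ^ j := by positivity
    have h1 : ((4 : ℝ) ^ (j + 1) * y j) ^ p ≤ ((4 : ℝ) ^ (j + 1) * (θ * lam ^ j)) ^ p :=
      Real.rpow_le_rpow hx (mul_le_mul_of_nonneg_left ih (by positivity)) hp.le
    have h2 : ((4 : ℝ) ^ (j + 1) * (θ * lam ^ j)) ^ p =
        ((4 : ℝ) ^ p) ^ (j + 1) * (θ ^ p * (b⁻¹) ^ j) := by
      rw [Real.mul_rpow (by positivity) hy', Real.mul_rpow hθ0.le (by positivity), ← hlamp]
      congr 1
      · rw [← Real.rpow_natCast, ← Real.rpow_natCast, ← Real.rpow_mul (by norm_num),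
          ← Real.rpow_mul (by norm_num), mul_comm]
      · congr 1
        rw [← Real.rpow_natCast, ← Real.rpow_natCast, ← Real.rpow_mul hlam0.le,
          ← Real.rpow_mul hlam0.le, mul_comm]
    have h3 : b = 4 * 4 ^ p := by
      rw [hb, Real.rpow_add (by norm_num), Real.rpow_one]
    have h4 : ((4 : ℝ) ^ p) ^ (j + 1) * (2 * 4 ^ (j + 1)) = 2 * b ^ (j + 1) := by
      rw [h3, mul_pow]
      ring
    calc y (j + 1) ≤ C * ((4 : ℝ) ^ (j + 1) * y j) ^ p * (2 * 4 ^ (j + 1) * y j) := hrec j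
      _ ≤ C * (((4 : ℝ) ^ p) ^ (j + 1) * (θ ^ p * (b⁻¹) ^ j)) *
          (2 * 4 ^ (j + 1) * (θ * lam ^ j)) := by
          rw [← h2]
          refine mul_le_mul (mul_le_mul_of_nonneg_left h1 hC.le) ?_ ?_ ?_
          · exact mul_le_mul_of_nonneg_left ih (by positivity)
          · exact mul_nonneg (by positivity) (hy j)
          · exact mul_nonneg hC.le (Real.rpow_nonneg (by positivity) _)
      _ = C * (((4 : ℝ) ^ p) ^ (j + 1) * (2 * 4 ^ (j + 1))) * (θ ^ p * (b⁻¹) ^ j) *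
          (θ * lam ^ j) := by ring
      _ = θ * lam ^ (j + 1) := by
          rw [h4, hθp, pow_succ, pow_succ]
          have : b ^ j * (b⁻¹) ^ j = 1 := by
            rw [← mul_pow, mul_inv_cancel₀ hb0.ne', one_pow]
          have e : C * (2 * (b ^ j * b)) * (lam / (2 * C * b) * b⁻¹ ^ j) * (θ * lam ^ j) =
              (b ^ j * b⁻¹ ^ j) * (C * 2 * b * (lam / (2 * C * b))) * (θ * lam ^ j) := by ring
          rw [e, this]
          field_simp

theorem d7_tend {θ lam : ℝ} (h0 : 0 < lam) (h1 : lam < 1) :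
    Tendsto (fun j : ℕ => θ * lam ^ j) atTop (𝓝 0) := by
  have := (tendsto_pow_atTop_nhds_zero_of_lt_one h0.le h1).const_mul θ
  simpa using this

theorem dSup (hSt : DStep) (hI : SInt) : DSup := by
  intro d m0 M0 hd hm0 hM0
  obtain ⟨C, hC, hCs⟩ := hSt d m0 M0 hd hm0 hM0
  have hp : (0 : ℝ) < 2 / d := by
    have : (0 : ℝ) < d := by exact_mod_cast hd
    positivity
  obtain ⟨θ, lam, hθ, hlam0, hlam1, hit⟩ := d7_iter hp hC
  refine ⟨1 / Real.sqrt θ, by positivity, ?_⟩
  intro z w G a b hE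
  set I : ℝ := ∫ y in closedBall z 2, w y ^ 2 with hIdef
  have hInn : 0 ≤ I := integral_nonneg fun x => sq_nonneg _
  -- integrability of the truncations
  have hmw : AEStronglyMeasurable w volume := hE.lsp.mu
  have htr : ∀ k R : ℝ, 0 ≤ k → IntegrableOn (fun x => max (w x - k) 0 ^ 2) (closedBall z R) := by
    intro k R hk
    refine Integrable.mono' (hI d w G hE.lsp z R).1 ?_ ?_
    · have h1 : AEStronglyMeasurable (fun x => max (w x - k) 0) volume :=
        ((hmw.sub aestronglyMeasurable_const).sup aestronglyMeasurable_const)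
      exact (h1.pow 2).restrict
    · refine ae_of_all _ fun x => ?_
      rw [Real.norm_eq_abs, abs_of_nonneg (sq_nonneg _)]
      rcases le_total (w x - k) 0 with h | h
      · rw [max_eq_right h]
        nlinarith [sq_nonneg (w x)]
      · rw [max_eq_left h]
        nlinarith
  have main : ∀ K : ℝ, 0 < K → I ≤ θ * K ^ 2 → ∀ᵐ x, x ∈ closedBall z 1 → w x ≤ K := by
    intro K hK hIK
    let k : ℕ → ℝ := fun j => K * (1 - (1 / 2) ^ j)
    let r : ℕ → ℝ := fun j => 1 + (1 / 2) ^ j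
    let Y : ℕ → ℝ := fun j => ∫ x in closedBall z (r j), max (w x - k j) 0 ^ 2
    have hpow : ∀ j : ℕ, (0 : ℝ) < (1 / 2) ^ j := fun j => by positivity
    have hpow1 : ∀ j : ℕ, ((1 : ℝ) / 2) ^ j ≤ 1 := fun j => pow_le_one₀ (by norm_num) (by norm_num)
    have hk0 : ∀ j, 0 ≤ k j := fun j => mul_nonneg hK.le (by linarith [hpow1 j])
    have hkK : ∀ j, k j ≤ K := fun j => by
      show K * (1 - (1 / 2) ^ j) ≤ K
      nlinarith [hpow j]
    have hkd : ∀ j, k (j + 1) - k j = K * (1 / 2) ^ (j + 1) := fun j => by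
      show K * (1 - (1 / 2) ^ (j + 1)) - K * (1 - (1 / 2) ^ j) = _
      rw [pow_succ]
      ring
    have hrd : ∀ j, r j - r (j + 1) = (1 / 2) ^ (j + 1) := fun j => by
      show 1 + (1 / 2) ^ j - (1 + (1 / 2) ^ (j + 1)) = _
      rw [pow_succ]
      ring
    have hYnn : ∀ j, 0 ≤ Y j := fun j => integral_nonneg fun x => sq_nonneg _
    have h4 : ∀ j : ℕ, ((1 / 2 : ℝ) ^ j) ^ 2 * 4 ^ j = 1 := fun j => by
      rw [← pow_mul, mul_comm j 2, pow_mul, ← mul_pow]
      norm_num
    have hy := hit (fun j => Y j / K ^ 2) (fun j => by have := hYnn j; positivity) ?_ ?_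
    · -- conclusion
      have hlim : ∀ j, ∫ x in closedBall z 1, max (w x - K) 0 ^ 2 ≤ K ^ 2 * (θ * lam ^ j) := by
        intro j
        have h1 : ∫ x in closedBall z 1, max (w x - K) 0 ^ 2 ≤ Y j := by
          calc ∫ x in closedBall z 1, max (w x - K) 0 ^ 2
              ≤ ∫ x in closedBall z 1, max (w x - k j) 0 ^ 2 := by
                refine integral_mono (htr K 1 hK.le) (htr (k j) 1 (hk0 j)) fun x => ?_
                refine pow_le_pow_left₀ (le_max_right _ _) ?_ 2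
                exact max_le_max (by linarith [hkK j]) le_rfl
            _ ≤ Y j := by
                refine setIntegral_mono_set (htr (k j) (r j) (hk0 j))
                  (ae_of_all _ fun x => sq_nonneg _) ?_
                refine (closedBall_subset_closedBall ?_).eventuallyLE
                show (1 : ℝ) ≤ 1 + (1 / 2) ^ j
                linarith [hpow j]
        have h2 := hy j
        rw [div_le_iff₀ (by positivity)] at h2
        linarith
      have hz : ∫ x in closedBall z 1, max (w x - K) 0 ^ 2 = 0 := by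
        refine le_antisymm ?_ (integral_nonneg fun x => sq_nonneg _)
        have ht := (d7_tend (θ := θ) hlam0 hlam1).const_mul (K ^ 2)
        rw [mul_zero] at ht
        exact ge_of_tendsto' ht hlim
      rw [setIntegral_eq_zero_iff_of_nonneg_ae (ae_of_all _ fun x => sq_nonneg _)
        (htr K 1 hK.le)] at hz
      have hz' := (ae_restrict_iff' measurableSet_closedBall).1 hz
      filter_upwards [hz'] with x hx hxm
      have h5 : max (w x - K) 0 ^ 2 = 0 := hx hxm
      have h6 : max (w x - K) 0 = 0 := by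
        exact pow_eq_zero_iff (two_ne_zero) |>.1 h5
      have := le_max_left (w x - K) 0
      linarith
    · -- the recursion
      intro j
      have hst := hCs z w G a b hE K (k j) (k (j + 1)) (r (j + 1)) (r j) hK (hk0 j)
        (by have := hkd j; have := mul_pos hK (hpow (j + 1)); linarith) (hkK _)
        (by show (1 : ℝ) ≤ 1 + (1 / 2) ^ (j + 1); linarith [hpow (j + 1)])
        (by have := hrd j; linarith [hpow (j + 1)])
        (by show 1 + (1 / 2 : ℝ) ^ j ≤ 2; linarith [hpow1 j])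
      rw [hkd, hrd] at hst
      show Y (j + 1) / K ^ 2 ≤ C * (4 ^ (j + 1) * (Y j / K ^ 2)) ^ ((2 : ℝ) / d) *
        (2 * 4 ^ (j + 1) * (Y j / K ^ 2))
      have e1 : Y j / (K * (1 / 2) ^ (j + 1)) ^ 2 = 4 ^ (j + 1) * (Y j / K ^ 2) := by
        rw [mul_pow]
        have h := h4 (j + 1)
        have h' : ((1 / 2 : ℝ) ^ (j + 1)) ^ 2 ≠ 0 := by positivity
        field_simp
        rw [mul_assoc, h, mul_one]
      have e2 : (1 / ((1 / 2 : ℝ) ^ (j + 1)) ^ 2 + K ^ 2 / (K * (1 / 2) ^ (j + 1)) ^ 2) =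
          2 * 4 ^ (j + 1) := by
        rw [mul_pow]
        have h := h4 (j + 1)
        have h' : ((1 / 2 : ℝ) ^ (j + 1)) ^ 2 ≠ 0 := by positivity
        field_simp
        linarith [h]
      change Y (j + 1) ≤ C * (Y j / (K * (1 / 2) ^ (j + 1)) ^ 2) ^ ((2 : ℝ) / d) *
        ((1 / ((1 / 2 : ℝ) ^ (j + 1)) ^ 2 + K ^ 2 / (K * (1 / 2) ^ (j + 1)) ^ 2) * Y j) at hst
      rw [e1, e2] at hst
      rw [div_le_iff₀ (by positivity)]
      refine hst.trans (le_of_eq ?_)
      field_simp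
    · -- the start
      show Y 0 / K ^ 2 ≤ θ
      rw [div_le_iff₀ (by positivity)]
      refine le_trans ?_ hIK
      have e0 : Y 0 = ∫ x in closedBall z 2, max (w x - 0) 0 ^ 2 := by
        show ∫ x in closedBall z (1 + (1 / 2) ^ 0), max (w x - K * (1 - (1 / 2) ^ 0)) 0 ^ 2 = _
        norm_num
      rw [e0]
      refine integral_mono (htr 0 2 le_rfl) (hI d w G hE.lsp z 2).1 fun x => ?_
      show max (w x - 0) 0 ^ 2 ≤ w x ^ 2
      rw [sub_zero]
      rcases le_total (w x) 0 with h | h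
      · rw [max_eq_right h]
        nlinarith [sq_nonneg (w x)]
      · rw [max_eq_left h]
  have hall : ∀ n : ℕ, ∀ᵐ x, x ∈ closedBall z 1 →
      w x ≤ 1 / Real.sqrt θ * Real.sqrt I + 1 / ((n : ℝ) + 1) := by
    intro n
    have hn : (0 : ℝ) < 1 / ((n : ℝ) + 1) := by positivity
    refine main _ (by positivity) ?_
    have h1 : 1 / Real.sqrt θ * Real.sqrt I ≤ 1 / Real.sqrt θ * Real.sqrt I + 1 / ((n : ℝ) + 1) := by
      linarith
    have h2 : (1 / Real.sqrt θ * Real.sqrt I) ^ 2 ≤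
        (1 / Real.sqrt θ * Real.sqrt I + 1 / ((n : ℝ) + 1)) ^ 2 :=
      pow_le_pow_left₀ (by positivity) h1 2
    have h3 : (1 / Real.sqrt θ * Real.sqrt I) ^ 2 = I / θ := by
      rw [mul_pow, div_pow, Real.sq_sqrt hθ.le, Real.sq_sqrt hInn]
      ring
    rw [h3] at h2
    calc I = θ * (I / θ) := by field_simp
      _ ≤ _ := mul_le_mul_of_nonneg_left h2 hθ.le
  filter_upwards [ae_all_iff.2 hall] with x hx hxm
  have ht : Tendsto (fun n : ℕ => 1 / Real.sqrt θ * Real.sqrt I + 1 / ((n : ℝ) + 1)) atTop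
      (𝓝 (1 / Real.sqrt θ * Real.sqrt I + 0)) :=
    tendsto_const_nhds.add tendsto_one_div_add_atTop_nhds_zero_nat
  rw [add_zero] at ht
  exact ge_of_tendsto' ht fun n => hx n hxm

end Pool.Agent.Work.MP_85f2da_an

end

section

set_option autoImplicit false

/-!
# MP_85f2da_an: elementary lemmas used for D8, D11, D13
-/

open MeasureTheory Filter Set Metric
open scoped ENNReal Topology ContDiff

namespace Pool.Agent.Work.MP_85f2da_an

variable {d : ℕ}

lemma q41_sq_nonneg (a : Fin d → ℝ) : 0 ≤ sq a := by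
  unfold sq; positivity

lemma q41_sq_add_le (a b : Fin d → ℝ) : sq (a + b) ≤ 2 * sq a + 2 * sq b := by
  unfold sq
  rw [Finset.mul_sum, Finset.mul_sum, ← Finset.sum_add_distrib]
  apply Finset.sum_le_sum
  intro i _
  simp only [Pi.add_apply]
  nlinarith [sq_nonneg (a i - b i)]

lemma q41_sq_sub_le (a b : Fin d → ℝ) : sq (a - b) ≤ 2 * sq a + 2 * sq b := by
  unfold sq
  rw [Finset.mul_sum, Finset.mul_sum, ← Finset.sum_add_distrib]
  apply Finset.sum_le_sum
  intro i _
  simp only [Pi.sub_apply]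
  nlinarith [sq_nonneg (a i + b i)]

lemma q41_sq_smul (c : ℝ) (a : Fin d → ℝ) : sq (c • a) = c ^ 2 * sq a := by
  unfold sq
  rw [Finset.mul_sum]
  apply Finset.sum_congr rfl
  intro i _
  simp only [Pi.smul_apply, smul_eq_mul]
  ring

lemma q41_sq_zero : sq (0 : Fin d → ℝ) = 0 := by
  unfold sq; simp

lemma q41_dot_le (a b : Fin d → ℝ) (ε : ℝ) (hε : 0 < ε) :
    |dot a b| ≤ ε / 2 * sq a + 1 / (2 * ε) * sq b := by
  unfold dot sq
  calc |∑ i, a i * b i| ≤ ∑ i, |a i * b i| := Finset.abs_sum_le_sum_abs _ _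
    _ ≤ ∑ i, (ε / 2 * a i ^ 2 + 1 / (2 * ε) * b i ^ 2) := by
        apply Finset.sum_le_sum
        intro i _
        have h1 : 0 ≤ (ε * a i - b i) ^ 2 / (2 * ε) := by positivity
        have h2 : 0 ≤ (ε * a i + b i) ^ 2 / (2 * ε) := by positivity
        have e1 : (ε * a i - b i) ^ 2 / (2 * ε)
            = ε / 2 * a i ^ 2 + 1 / (2 * ε) * b i ^ 2 - a i * b i := by
          field_simp; ring
        have e2 : (ε * a i + b i) ^ 2 / (2 * ε)
            = ε / 2 * a i ^ 2 + 1 / (2 * ε) * b i ^ 2 + a i * b i := by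
          field_simp; ring
        rw [abs_le]
        constructor <;> linarith
    _ = _ := by rw [Finset.sum_add_distrib, Finset.mul_sum, Finset.mul_sum]

lemma q41_dot_add (a b c : Fin d → ℝ) : dot a (b + c) = dot a b + dot a c := by
  unfold dot
  rw [← Finset.sum_add_distrib]
  apply Finset.sum_congr rfl
  intro i _
  simp only [Pi.add_apply]; ring

lemma q41_dot_sub_left (a b c : Fin d → ℝ) : dot (a - b) c = dot a c - dot b c := by
  unfold dot
  rw [← Finset.sum_sub_distrib]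
  apply Finset.sum_congr rfl
  intro i _
  simp only [Pi.sub_apply]; ring

lemma q41_dot_smul (t : ℝ) (a b : Fin d → ℝ) : dot a (t • b) = t * dot a b := by
  unfold dot
  rw [Finset.mul_sum]
  apply Finset.sum_congr rfl
  intro i _
  simp only [Pi.smul_apply, smul_eq_mul]; ring

lemma q41_dot_smul_left (t : ℝ) (a b : Fin d → ℝ) : dot (t • a) b = t * dot a b := by
  unfold dot
  rw [Finset.mul_sum]
  apply Finset.sum_congr rfl
  intro i _
  simp only [Pi.smul_apply, smul_eq_mul]; ring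

lemma q41_dot_zero (a : Fin d → ℝ) : dot a 0 = 0 := by
  unfold dot; simp

lemma q41_sq_cont : Continuous (sq : (Fin d → ℝ) → ℝ) := by
  unfold sq; fun_prop

lemma q41_dot_cont : Continuous (fun p : (Fin d → ℝ) × (Fin d → ℝ) => dot p.1 p.2) := by
  unfold dot; fun_prop

lemma q41_gr_meas (u : (Fin d → ℝ) → ℝ) : Measurable (gr u) := by
  rw [measurable_pi_iff]
  intro i
  exact measurable_fderiv_apply_const ℝ u (Pi.single i (1 : ℝ))

lemma q41_gr_abs_le (u : (Fin d → ℝ) → ℝ) (K : NNReal) (hu : LipschitzWith K u)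
    (x : Fin d → ℝ) (i : Fin d) : |gr u x i| ≤ K := by
  have h1 : ‖fderiv ℝ u x‖ ≤ K := norm_fderiv_le_of_lipschitz ℝ hu
  have h2 : ‖fderiv ℝ u x (Pi.single i (1 : ℝ))‖ ≤ ‖fderiv ℝ u x‖ * ‖(Pi.single i (1 : ℝ) : Fin d → ℝ)‖ :=
    (fderiv ℝ u x).le_opNorm _
  have h3 : ‖(Pi.single i (1 : ℝ) : Fin d → ℝ)‖ = 1 := by
    rw [Pi.norm_single]; simp
  rw [h3, mul_one] at h2
  exact (Real.norm_eq_abs _ ▸ h2).trans h1

lemma q41_gr_sq_le (u : (Fin d → ℝ) → ℝ) (hu : Lip u) :
    ∃ C : ℝ, 0 ≤ C ∧ ∀ x, sq (gr u x) ≤ C := by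
  obtain ⟨K, hK⟩ := hu
  refine ⟨∑ _i : Fin d, (K : ℝ) ^ 2, by positivity, fun x => ?_⟩
  unfold sq
  apply Finset.sum_le_sum
  intro i _
  have h := q41_gr_abs_le u K hK x i
  rw [← sq_abs]
  exact pow_le_pow_left₀ (abs_nonneg _) h 2

lemma q41_gr_zero (u : (Fin d → ℝ) → ℝ) (S : Set (Fin d → ℝ)) (hS : IsClosed S)
    (hu : ∀ x, x ∉ S → u x = 0) (x : Fin d → ℝ) (hx : x ∉ S) : gr u x = 0 := by
  have h1 : u =ᶠ[𝓝 x] fun _ => (0 : ℝ) := by
    filter_upwards [hS.isOpen_compl.mem_nhds hx] with y hy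
    exact hu y hy
  funext i
  unfold gr
  rw [h1.fderiv_eq]
  simp

lemma q41_gr_add (u φ : (Fin d → ℝ) → ℝ) (hu : Lip u) (hφ : Lip φ) :
    ∀ᵐ x, gr (fun y => u y + φ y) x = gr u x + gr φ x := by
  obtain ⟨K, hK⟩ := hu
  obtain ⟨K', hK'⟩ := hφ
  filter_upwards [hK.ae_differentiableAt, hK'.ae_differentiableAt] with x h1 h2
  funext i
  unfold gr
  rw [fderiv_fun_add h1 h2]
  rfl

lemma q41_lam_diff (D : Dat d) (p ξ : Fin d → ℝ) (ε : ℝ) (hε : 0 < ε) :
    |D.Lam (p + ξ) - D.Lam p|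
      ≤ ε / 2 * (D.M0 ^ 2 * sq p) + (1 / (2 * ε) + D.M0 / 2) * sq ξ := by
  have h1 := D.Lam_taylor p ξ
  have h2 := q41_dot_le (D.dL p) ξ ε hε
  have h3 : sq (D.dL p) ≤ D.M0 ^ 2 * sq p := by
    have := D.dL_lip p 0
    rwa [D.dL_zero, sub_zero, sub_zero] at this
  have h4 : |D.Lam (p + ξ) - D.Lam p| ≤ |D.Lam (p + ξ) - D.Lam p - dot (D.dL p) ξ|
      + |dot (D.dL p) ξ| := by
    have := abs_add_le (D.Lam (p + ξ) - D.Lam p - dot (D.dL p) ξ) (dot (D.dL p) ξ)
    simpa using this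
  have h5 : ε / 2 * sq (D.dL p) ≤ ε / 2 * (D.M0 ^ 2 * sq p) :=
    mul_le_mul_of_nonneg_left h3 (by positivity)
  nlinarith [q41_sq_nonneg ξ]

lemma q41_F_diff (D : Dat d) (v s : ℝ) (ε : ℝ) (hε : 0 < ε) :
    |D.F (v + s) - D.F v| ≤ ε / 2 * D.M0 + (1 / (2 * ε) + 1 / 2) * D.M0 * s ^ 2 := by
  have h1 := D.F_taylor v s
  have h2 : |D.dF v * s| ≤ D.M0 * |s| := by
    rw [abs_mul]
    exact mul_le_mul_of_nonneg_right (D.dF_le v) (abs_nonneg _)
  have h4 : |D.F (v + s) - D.F v| ≤ |D.F (v + s) - D.F v - D.dF v * s| + |D.dF v * s| := by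
    have := abs_add_le (D.F (v + s) - D.F v - D.dF v * s) (D.dF v * s)
    simpa using this
  have h5 : |s| ≤ ε / 2 + 1 / (2 * ε) * s ^ 2 := by
    have h1 : 0 ≤ (ε - |s|) ^ 2 / (2 * ε) := by positivity
    have e1 : (ε - |s|) ^ 2 / (2 * ε) = ε / 2 + 1 / (2 * ε) * |s| ^ 2 - |s| := by
      field_simp; ring
    rw [sq_abs] at e1
    linarith
  have h6 := mul_le_mul_of_nonneg_left h5 D.M0_pos.le
  nlinarith

lemma q41_lam_nonneg (D : Dat d) (p : Fin d → ℝ) : 0 ≤ D.Lam p := by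
  have h := D.Lam_lower p
  have h2 : 0 ≤ D.m0 / 2 * sq p := mul_nonneg (by have := D.m0_pos; positivity) (q41_sq_nonneg p)
  linarith

lemma q41_L_abs_le (D : Dat d) (v : ℝ) (p : Fin d → ℝ) :
    |D.L v p| ≤ D.M0 / 2 * sq p + D.M0 := by
  unfold Dat.L
  rw [abs_of_nonneg (add_nonneg (q41_lam_nonneg D p) (D.F_nonneg v))]
  exact add_le_add (D.Lam_upper p) (D.F_le v)

lemma q41_L_meas (D : Dat d) (u : (Fin d → ℝ) → ℝ) (g : (Fin d → ℝ) → (Fin d → ℝ))
    (hu : AEStronglyMeasurable u volume) (hg : AEStronglyMeasurable g volume) :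
    AEStronglyMeasurable (fun x => D.L (u x) (g x)) volume := by
  unfold Dat.L
  exact (D.Lam_cont.comp_aestronglyMeasurable hg).add (D.F_cont.comp_aestronglyMeasurable hu)

lemma q41_L_int (D : Dat d) (u : (Fin d → ℝ) → ℝ) (g : (Fin d → ℝ) → (Fin d → ℝ))
    (hu : AEStronglyMeasurable u volume) (hg : AEStronglyMeasurable g volume)
    (z : Fin d → ℝ) (R : ℝ) (hi : IntegrableOn (fun x => sq (g x)) (closedBall z R)) :
    IntegrableOn (fun x => D.L (u x) (g x)) (closedBall z R) := by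
  have hc : IntegrableOn (fun _ : Fin d → ℝ => D.M0) (closedBall z R) :=
    integrableOn_const (measure_closedBall_lt_top.ne)
  refine Integrable.mono' ((hi.const_mul (D.M0 / 2)).add hc) (q41_L_meas D u g hu hg).restrict ?_
  filter_upwards with x
  rw [Real.norm_eq_abs]
  exact q41_L_abs_le D (u x) (g x)

lemma q41_sq_gr_int (u : (Fin d → ℝ) → ℝ) (hu : Lip u) (z : Fin d → ℝ) (R : ℝ) :
    IntegrableOn (fun x => sq (gr u x)) (closedBall z R) := by
  obtain ⟨C, _, hC⟩ := q41_gr_sq_le u hu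
  have hc : IntegrableOn (fun _ : Fin d → ℝ => C) (closedBall z R) :=
    integrableOn_const (measure_closedBall_lt_top.ne)
  refine Integrable.mono' hc ?_ ?_
  · exact (q41_sq_cont.measurable.comp (q41_gr_meas u)).aestronglyMeasurable
  · filter_upwards with x
    rw [Real.norm_eq_abs, abs_of_nonneg (q41_sq_nonneg _)]
    exact hC x

lemma q41_sq_add_int (g g' : (Fin d → ℝ) → (Fin d → ℝ))
    (hg : AEStronglyMeasurable g volume) (hg' : AEStronglyMeasurable g' volume)
    (z : Fin d → ℝ) (R : ℝ)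
    (hi : IntegrableOn (fun x => sq (g x)) (closedBall z R))
    (hi' : IntegrableOn (fun x => sq (g' x)) (closedBall z R)) :
    IntegrableOn (fun x => sq (g x + g' x)) (closedBall z R) := by
  refine Integrable.mono' ((hi.const_mul 2).add (hi'.const_mul 2))
    (q41_sq_cont.comp_aestronglyMeasurable (hg.add hg')).restrict ?_
  filter_upwards with x
  rw [Real.norm_eq_abs, abs_of_nonneg (q41_sq_nonneg _)]
  exact q41_sq_add_le _ _

lemma q41_sq_sub_int (g g' : (Fin d → ℝ) → (Fin d → ℝ))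
    (hg : AEStronglyMeasurable g volume) (hg' : AEStronglyMeasurable g' volume)
    (z : Fin d → ℝ) (R : ℝ)
    (hi : IntegrableOn (fun x => sq (g x)) (closedBall z R))
    (hi' : IntegrableOn (fun x => sq (g' x)) (closedBall z R)) :
    IntegrableOn (fun x => sq (g x - g' x)) (closedBall z R) := by
  refine Integrable.mono' ((hi.const_mul 2).add (hi'.const_mul 2))
    (q41_sq_cont.comp_aestronglyMeasurable (hg.sub hg')).restrict ?_
  filter_upwards with x
  rw [Real.norm_eq_abs, abs_of_nonneg (q41_sq_nonneg _)]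
  exact q41_sq_sub_le _ _

lemma q41_pow_sub_int (u u' : (Fin d → ℝ) → ℝ)
    (hu : AEStronglyMeasurable u volume) (hu' : AEStronglyMeasurable u' volume)
    (z : Fin d → ℝ) (R : ℝ)
    (hi : IntegrableOn (fun x => u x ^ 2) (closedBall z R))
    (hi' : IntegrableOn (fun x => u' x ^ 2) (closedBall z R)) :
    IntegrableOn (fun x => (u x - u' x) ^ 2) (closedBall z R) := by
  refine Integrable.mono' ((hi.const_mul 2).add (hi'.const_mul 2))
    ((hu.sub hu').pow 2).restrict ?_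
  filter_upwards with x
  rw [Real.norm_eq_abs, abs_of_nonneg (by positivity)]
  simp only [Pi.add_apply]
  nlinarith [sq_nonneg (u x + u' x)]

end Pool.Agent.Work.MP_85f2da_an

end

section

set_option autoImplicit false

/-!
# D4: interior energy bound (helper59)
-/

open MeasureTheory Filter Set Metric
open scoped ENNReal Topology ContDiff

namespace Pool.Agent.Work.MP_85f2da_an

variable {d : ℕ}

/-- the cut off function -/
private noncomputable def eta (z : Fin d → ℝ) (r : ℝ) (x : Fin d → ℝ) : ℝ :=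
  max 0 (min 1 (r + 1 - dist x z))

private theorem eta_lip (z : Fin d → ℝ) (r : ℝ) : LipschitzWith 1 (eta z r) := by
  have h1 : LipschitzWith 1 fun x : Fin d → ℝ => r + 1 - dist x z := by
    refine LipschitzWith.of_dist_le_mul fun x y => ?_
    rw [Real.dist_eq]
    have h2 : r + 1 - dist x z - (r + 1 - dist y z) = -(dist x z - dist y z) := by ring
    rw [h2, abs_neg]
    have := abs_dist_sub_le x y z
    simpa using this
  exact (h1.const_min 1).const_max 0

private theorem eta_nonneg (z : Fin d → ℝ) (r : ℝ) (x : Fin d → ℝ) : 0 ≤ eta z r x :=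
  le_max_left _ _

private theorem eta_le (z : Fin d → ℝ) (r : ℝ) (x : Fin d → ℝ) : eta z r x ≤ 1 :=
  max_le zero_le_one (min_le_left _ _)

private theorem eta_one (z : Fin d → ℝ) (r : ℝ) {x : Fin d → ℝ} (hx : x ∈ closedBall z r) :
    eta z r x = 1 := by
  rw [mem_closedBall] at hx
  unfold eta
  rw [min_eq_left (by linarith), max_eq_right zero_le_one]

private theorem eta_zero (z : Fin d → ℝ) (r : ℝ) {x : Fin d → ℝ}
    (hx : x ∉ closedBall z (r + 1)) : eta z r x = 0 := by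
  rw [mem_closedBall, not_le] at hx
  unfold eta
  rw [max_eq_left]
  exact (min_le_right _ _).trans (by linarith)

private theorem gr_le {U : (Fin d → ℝ) → ℝ} (h : LipschitzWith 1 U) (x : Fin d → ℝ) :
    sq (gr U x) ≤ d := by
  unfold sq
  refine (Finset.sum_le_sum fun i _ => (?_ : gr U x i ^ 2 ≤ 1)).trans (by simp)
  have h1 : |gr U x i| ≤ 1 := by
    unfold gr
    rw [← Real.norm_eq_abs]
    refine ((fderiv ℝ U x).le_opNorm _).trans ?_
    have h1 : ‖(Pi.single i (1 : ℝ) : Fin d → ℝ)‖ = 1 := by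
      rw [Pi.norm_single]
      simp
    rw [h1, mul_one]
    exact norm_fderiv_le_of_lipschitz ℝ h
  rw [← sq_abs]
  exact pow_le_one₀ (abs_nonneg _) h1

private theorem sq_nn (a : Fin d → ℝ) : 0 ≤ sq a := Finset.sum_nonneg fun i _ => sq_nonneg _

private theorem dot_exp (a g b : Fin d → ℝ) (e u : ℝ) :
    dot a (e • (e • g + u • b) + (e * u) • b) = e ^ 2 * dot a g + 2 * (e * u * dot a b) := by
  unfold dot
  simp only [Pi.add_apply, Pi.smul_apply, smul_eq_mul, Finset.mul_sum]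
  rw [← Finset.sum_add_distrib]
  refine Finset.sum_congr rfl fun i _ => ?_
  ring

private theorem young (a b : Fin d → ℝ) (e u k : ℝ) (hk : 0 < k) (hu : 0 ≤ u) (hu1 : u ≤ 1) :
    -(k * (e ^ 2 * sq a)) - 1 / k * sq b ≤ 2 * (e * u * dot a b) := by
  have h : ∀ i, 0 ≤ k * (e ^ 2 * a i ^ 2) + 1 / k * b i ^ 2 + 2 * (e * u * (a i * b i)) := by
    intro i
    have h1 : k * (e ^ 2 * a i ^ 2) + 1 / k * b i ^ 2 + 2 * (e * u * (a i * b i)) =
        k * (e * a i + u * b i / k) ^ 2 + (1 - u ^ 2) * (b i ^ 2 / k) := by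
      field_simp
      ring
    rw [h1]
    have h2 : u ^ 2 ≤ 1 := pow_le_one₀ hu hu1
    have h3 : 0 ≤ (1 - u ^ 2) * (b i ^ 2 / k) := mul_nonneg (by linarith) (by positivity)
    positivity
  have h1 := Finset.sum_nonneg fun i (_ : i ∈ Finset.univ) => h i
  rw [Finset.sum_add_distrib, Finset.sum_add_distrib, ← Finset.mul_sum, ← Finset.mul_sum,
    ← Finset.mul_sum, ← Finset.mul_sum, ← Finset.mul_sum] at h1
  unfold sq dot
  linarith

theorem dCacc (hEL : DEL) (hcut : SCut) (hint : SInt) : DCacc := by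
  intro d D r hr
  have hM := D.M0_pos
  have hm := D.m0_pos
  set C0 : ℝ := 2 * D.M0 ^ 2 / D.m0 * d + D.M0 with hC0
  refine ⟨2 / D.m0 * (C0 * (volume (closedBall (0 : Fin d → ℝ) (r + 1))).toReal), ?_⟩
  intro w ρ u g hb z hz
  have he := eta_lip z r
  have hcs : HasCompactSupport (eta z r) := by
    refine HasCompactSupport.intro (isCompact_closedBall z (r + 1)) fun x hx => ?_
    exact eta_zero z r hx
  have L1 := hcut d u (eta z r) g hb.lsp ⟨1, he⟩ hcs
  have L2 := hcut d _ (eta z r) _ L1 ⟨1, he⟩ hcs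
  obtain ⟨hI, hE⟩ := hEL d D w ρ u g hb _ _ (‖z‖ + r + 1) (by linarith) L2 (by
    intro x hx
    have h1 : x ∉ closedBall z (r + 1) := by
      intro h
      apply hx
      rw [mem_closedBall, dist_zero_right]
      rw [mem_closedBall, dist_eq_norm] at h
      calc ‖x‖ = ‖(x - z) + z‖ := by rw [sub_add_cancel]
        _ ≤ ‖x - z‖ + ‖z‖ := norm_add_le _ _
        _ ≤ ‖z‖ + r + 1 := by linarith
    have h2 := eta_zero z r h1
    rw [h2]
    simp)
  set f : (Fin d → ℝ) → ℝ := fun x => dot (D.dL (g x)) (eta z r x • (eta z r x • g x +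
    u x • gr (eta z r) x) + (eta z r x * u x) • gr (eta z r) x) +
    D.dF (u x) * (eta z r x * (eta z r x * u x)) with hf
  have hE' : ∫ x, f x = 0 := hE
  have hI' : Integrable f := hI
  have hf0 : ∀ x, x ∉ closedBall z (r + 1) → f x = 0 := by
    intro x hx
    have h2 := eta_zero z r hx
    simp only [hf, h2]
    simp [dot]
  have hS : ∫ x in closedBall z (r + 1), f x = 0 := by
    rw [setIntegral_eq_integral_of_forall_compl_eq_zero hf0, hE']
  -- pointwise
  have hpt : ∀ x, D.m0 / 2 * (eta z r x ^ 2 * sq (g x)) ≤ f x + C0 := by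
    intro x
    have e0 := eta_nonneg z r x
    have e1 := eta_le z r x
    have u0 := hb.nonneg x
    have u1 := hb.le_one x
    have h1 := D.mono (g x) 0
    rw [D.dL_zero, sub_zero, sub_zero] at h1
    have h2 := D.dL_lip (g x) 0
    rw [D.dL_zero, sub_zero, sub_zero] at h2
    have h3 := young (D.dL (g x)) (gr (eta z r) x) (eta z r x) (u x) (D.m0 / (2 * D.M0 ^ 2))
      (by positivity) u0 u1
    have h4 := gr_le he x
    have h5 := D.dF_le (u x)
    have h6 : D.m0 / (2 * D.M0 ^ 2) * (eta z r x ^ 2 * sq (D.dL (g x))) ≤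
        D.m0 / 2 * (eta z r x ^ 2 * sq (g x)) := by
      calc D.m0 / (2 * D.M0 ^ 2) * (eta z r x ^ 2 * sq (D.dL (g x)))
          ≤ D.m0 / (2 * D.M0 ^ 2) * (eta z r x ^ 2 * (D.M0 ^ 2 * sq (g x))) := by
            refine mul_le_mul_of_nonneg_left (mul_le_mul_of_nonneg_left h2 (by positivity))
              (by positivity)
        _ = D.m0 / 2 * (eta z r x ^ 2 * sq (g x)) := by
            field_simp
    have h7 : 1 / (D.m0 / (2 * D.M0 ^ 2)) * sq (gr (eta z r) x) ≤
        2 * D.M0 ^ 2 / D.m0 * d := by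
      rw [one_div_div]
      exact mul_le_mul_of_nonneg_left h4 (by positivity)
    have h8 : -D.M0 ≤ D.dF (u x) * (eta z r x * (eta z r x * u x)) := by
      have h9 : |D.dF (u x) * (eta z r x * (eta z r x * u x))| ≤ D.M0 * 1 := by
        rw [abs_mul]
        refine mul_le_mul h5 ?_ (abs_nonneg _) hM.le
        rw [abs_of_nonneg (by positivity)]
        exact mul_le_one₀ e1 (by positivity) (mul_le_one₀ e1 u0 u1)
      rw [abs_le] at h9
      linarith [h9.1]
    have h10 : D.m0 * (eta z r x ^ 2 * sq (g x)) ≤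
        eta z r x ^ 2 * dot (D.dL (g x)) (g x) := by
      calc D.m0 * (eta z r x ^ 2 * sq (g x)) = eta z r x ^ 2 * (D.m0 * sq (g x)) := by ring
        _ ≤ eta z r x ^ 2 * dot (D.dL (g x)) (g x) :=
            mul_le_mul_of_nonneg_left h1 (by positivity)
    simp only [hf, dot_exp]
    linarith
  have iG := (hint d u g hb.lsp z (r + 1)).2
  have iE : IntegrableOn (fun x => eta z r x ^ 2 * sq (g x)) (closedBall z (r + 1)) volume := by
    refine Integrable.mono iG ?_ ?_
    · exact (he.continuous.pow 2).aestronglyMeasurable.mul iG.1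
    · refine Eventually.of_forall fun x => ?_
      have e0 := eta_nonneg z r x
      have e1 : eta z r x ^ 2 ≤ 1 := pow_le_one₀ e0 (eta_le z r x)
      have s0 := sq_nn (g x)
      rw [Real.norm_eq_abs, Real.norm_eq_abs, abs_of_nonneg (by positivity), abs_of_nonneg s0]
      calc eta z r x ^ 2 * sq (g x) ≤ 1 * sq (g x) := mul_le_mul_of_nonneg_right e1 s0
        _ = sq (g x) := one_mul _
  have iC : IntegrableOn (fun _ : Fin d → ℝ => C0) (closedBall z (r + 1)) volume :=
    integrableOn_const measure_closedBall_lt_top.ne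
  have h1 : ∫ x in closedBall z (r + 1), D.m0 / 2 * (eta z r x ^ 2 * sq (g x)) ≤
      ∫ x in closedBall z (r + 1), (f x + C0) :=
    setIntegral_mono (iE.const_mul _) (hI'.integrableOn.add iC) hpt
  rw [integral_add hI'.integrableOn iC, hS, zero_add, integral_const_mul, setIntegral_const,
    smul_eq_mul] at h1
  have h2 : (volume.real (closedBall z (r + 1))) =
      (volume (closedBall (0 : Fin d → ℝ) (r + 1))).toReal := by
    unfold Measure.real
    rw [Measure.addHaar_closedBall_center]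
  rw [h2] at h1
  have h3 : ∫ x in closedBall z r, sq (g x) ≤
      ∫ x in closedBall z (r + 1), eta z r x ^ 2 * sq (g x) := by
    have h4 : ∫ x in closedBall z r, sq (g x) =
        ∫ x in closedBall z r, eta z r x ^ 2 * sq (g x) := by
      refine setIntegral_congr_fun measurableSet_closedBall fun x hx => ?_
      show sq (g x) = eta z r x ^ 2 * sq (g x)
      rw [eta_one z r hx]
      ring
    rw [h4]
    refine setIntegral_mono_set iE (Eventually.of_forall fun x => ?_)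
      (closedBall_subset_closedBall (by linarith)).eventuallyLE
    exact mul_nonneg (sq_nonneg _) (sq_nn _)
  refine h3.trans ?_
  have h5 : ∫ x in closedBall z (r + 1), eta z r x ^ 2 * sq (g x) =
      2 / D.m0 * (D.m0 / 2 * ∫ x in closedBall z (r + 1), eta z r x ^ 2 * sq (g x)) := by
    field_simp
  rw [h5]
  refine mul_le_mul_of_nonneg_left ?_ (by positivity)
  linarith

end Pool.Agent.Work.MP_85f2da_an

end

section

set_option autoImplicit false

/-!
# D1: strong convexity makes minimising sequences Cauchy (helper59)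
-/

open MeasureTheory Filter Set Metric
open scoped ENNReal Topology ContDiff

namespace Pool.Agent.Work.MP_85f2da_an

variable {d : ℕ}

theorem d1_gr_meas (U : (Fin d → ℝ) → ℝ) : Measurable (gr U) :=
  measurable_pi_lambda _ fun _ => measurable_fderiv_apply_const ℝ U _

theorem d1_gr_le {K : NNReal} {U : (Fin d → ℝ) → ℝ} (h : LipschitzWith K U) (x : Fin d → ℝ)
    (i : Fin d) : |gr U x i| ≤ K := by
  unfold gr
  rw [← Real.norm_eq_abs]
  refine ((fderiv ℝ U x).le_opNorm _).trans ?_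
  have h1 : ‖(Pi.single i (1 : ℝ) : Fin d → ℝ)‖ = 1 := by
    rw [Pi.norm_single]
    simp
  rw [h1, mul_one]
  exact norm_fderiv_le_of_lipschitz ℝ h

theorem d1_sq_le {K : NNReal} {U : (Fin d → ℝ) → ℝ} (h : LipschitzWith K U) (x : Fin d → ℝ) :
    sq (gr U x) ≤ d * (K : ℝ) ^ 2 := by
  unfold sq
  refine (Finset.sum_le_sum fun i _ => (?_ : gr U x i ^ 2 ≤ (K : ℝ) ^ 2)).trans ?_
  · exact sq_le_sq' (by have := d1_gr_le h x i; rw [abs_le] at this; linarith [this.1])
      (by have := d1_gr_le h x i; rw [abs_le] at this; exact this.2)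
  · simp

theorem d1_sq_nonneg (a : Fin d → ℝ) : 0 ≤ sq a := Finset.sum_nonneg fun i _ => sq_nonneg _

theorem d1_sq_cont : Continuous (sq : (Fin d → ℝ) → ℝ) := by
  unfold sq
  fun_prop

theorem d1_int {f : (Fin d → ℝ) → ℝ} (hf : AEStronglyMeasurable f volume) (C : ℝ)
    (hC : ∀ x, |f x| ≤ C) (R : ℝ) : IntegrableOn f (closedBall 0 R) volume :=
  Measure.integrableOn_of_bounded (M := C) measure_closedBall_lt_top.ne hf
    (Eventually.of_forall fun x => by rw [Real.norm_eq_abs]; exact hC x)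

theorem d1_L_int (D : Dat d) {U : (Fin d → ℝ) → ℝ} (hU : Lip U) (R : ℝ) :
    IntegrableOn (fun x => D.L (U x) (gr U x)) (closedBall 0 R) volume := by
  obtain ⟨K, hK⟩ := hU
  have hM := D.M0_pos
  have hm := D.m0_pos
  refine d1_int ?_ (D.M0 / 2 * (d * (K : ℝ) ^ 2) + D.M0) (fun x => ?_) R
  · have h1 : Measurable fun x => D.Lam (gr U x) + D.F (U x) :=
      (D.Lam_cont.measurable.comp (d1_gr_meas U)).add
        (D.F_cont.measurable.comp hK.continuous.measurable)
    exact h1.aestronglyMeasurable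
  · have h1 := D.Lam_lower (gr U x)
    have h2 := D.Lam_upper (gr U x)
    have h3 := D.F_nonneg (U x)
    have h4 := D.F_le (U x)
    have h5 := d1_sq_nonneg (gr U x)
    have h6 := d1_sq_le hK x
    have h7 : 0 ≤ D.m0 / 2 * sq (gr U x) := by positivity
    have h8 : D.M0 / 2 * sq (gr U x) ≤ D.M0 / 2 * (d * (K : ℝ) ^ 2) :=
      mul_le_mul_of_nonneg_left h6 (by positivity)
    show |D.Lam (gr U x) + D.F (U x)| ≤ _
    rw [abs_le]
    constructor <;> linarith

theorem d1_gr_ae {U U' : (Fin d → ℝ) → ℝ} (hU : Lip U) (hU' : Lip U') :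
    ∀ᵐ x, gr (fun x => (1 / 2 : ℝ) * (U x + U' x)) x = (1 / 2 : ℝ) • (gr U x + gr U' x) := by
  obtain ⟨K, hK⟩ := hU
  obtain ⟨K', hK'⟩ := hU'
  filter_upwards [hK.ae_differentiableAt, hK'.ae_differentiableAt] with x h1 h2
  funext i
  have h3 := ((h1.hasFDerivAt.add h2.hasFDerivAt).const_mul (1 / 2 : ℝ)).fderiv
  have h4 : fderiv ℝ (fun x => (1 / 2 : ℝ) * (U x + U' x)) x =
      (1 / 2 : ℝ) • (fderiv ℝ U x + fderiv ℝ U' x) := h3
  show fderiv ℝ (fun x => (1 / 2 : ℝ) * (U x + U' x)) x (Pi.single i (1 : ℝ)) = _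
  rw [h4]
  rfl

theorem d1_four {μ : Measure (Fin d → ℝ)} {f1 f2 f3 f4 : (Fin d → ℝ) → ℝ}
    (h1 : Integrable f1 μ) (h2 : Integrable f2 μ) (h3 : Integrable f3 μ) (h4 : Integrable f4 μ)
    (c e : ℝ) : ∫ x, (1 / 2 * f1 x + 1 / 2 * f2 x + c * f3 x - e * f4 x) ∂μ =
      1 / 2 * (∫ x, f1 x ∂μ) + 1 / 2 * (∫ x, f2 x ∂μ) + c * (∫ x, f3 x ∂μ) -
        e * ∫ x, f4 x ∂μ := by
  have i12 : Integrable (fun x => 1 / 2 * f1 x + 1 / 2 * f2 x) μ :=
    (h1.const_mul _).add (h2.const_mul _)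
  have i123 : Integrable (fun x => 1 / 2 * f1 x + 1 / 2 * f2 x + c * f3 x) μ :=
    i12.add (h3.const_mul _)
  rw [integral_sub i123 (h4.const_mul _), integral_add i12 (h3.const_mul _),
    integral_add (h1.const_mul _) (h2.const_mul _), integral_const_mul, integral_const_mul,
    integral_const_mul, integral_const_mul]

theorem dCauchy : DCauchy := by
  intro d D w ρ m _ hm U U' hU hU'
  have hM := D.M0_pos
  set V : (Fin d → ℝ) → ℝ := fun x => (1 / 2 : ℝ) * (U x + U' x) with hV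
  have hVL : Lip V := by
    obtain ⟨K, hK⟩ := hU.lip
    obtain ⟨K', hK'⟩ := hU'.lip
    refine ⟨K + K', LipschitzWith.of_dist_le_mul fun x y => ?_⟩
    have h1 := hK.dist_le_mul x y
    have h2 := hK'.dist_le_mul x y
    rw [Real.dist_eq] at h1 h2 ⊢
    have h3 : V x - V y = 1 / 2 * ((U x - U y) + (U' x - U' y)) := by
      simp only [hV]
      ring
    rw [h3, abs_mul, abs_of_pos (by norm_num : (0 : ℝ) < 1 / 2)]
    have h4 := abs_add_le (U x - U y) (U' x - U' y)
    push_cast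
    have h5 := dist_nonneg (x := x) (y := y)
    have h6 := mul_nonneg K.2 h5
    have h7 := mul_nonneg K'.2 h5
    have h8 : (0 : ℝ) ≤ K * dist x y := h6
    have h9 : (0 : ℝ) ≤ K' * dist x y := h7
    nlinarith [abs_nonneg ((U x - U y) + (U' x - U' y))]
  have hVC : Comp w ρ V := by
    refine ⟨hVL, fun x => ?_, fun x => ?_, fun x hx => ?_⟩
    · have h1 := hU.nonneg x
      have h2 := hU'.nonneg x
      simp only [hV]
      linarith
    · have h1 := hU.le_one x
      have h2 := hU'.le_one x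
      simp only [hV]
      linarith
    · have h1 := hU.out x hx
      have h2 := hU'.out x hx
      simp only [hV]
      linarith
  have h0 := hm V hVC
  -- the pointwise inequality
  have hpt : ∀ᵐ x ∂(volume.restrict (closedBall 0 ρ)), D.L (V x) (gr V x) ≤
      (1 / 2 * D.L (U x) (gr U x) + 1 / 2 * D.L (U' x) (gr U' x) +
        D.M0 / 8 * (U x - U' x) ^ 2) - D.m0 / 8 * sq (gr U x - gr U' x) := by
    refine ae_restrict_of_ae ?_
    filter_upwards [d1_gr_ae hU.lip hU'.lip] with x hx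
    have h1 := D.Lam_mid (gr U x) (gr U' x)
    have h2 := D.F_taylor (V x) ((U x - U' x) / 2)
    have h3 := D.F_taylor (V x) (-((U x - U' x) / 2))
    have h4 : V x + (U x - U' x) / 2 = U x := by simp only [hV]; ring
    have h5 : V x + -((U x - U' x) / 2) = U' x := by simp only [hV]; ring
    rw [h4] at h2
    rw [h5] at h3
    rw [abs_le] at h2 h3
    have h6 : gr V x = (1 / 2 : ℝ) • (gr U x + gr U' x) := hx
    show D.Lam (gr V x) + D.F (V x) ≤ (1 / 2 * (D.Lam (gr U x) + D.F (U x)) +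
      1 / 2 * (D.Lam (gr U' x) + D.F (U' x)) + D.M0 / 8 * (U x - U' x) ^ 2) -
      D.m0 / 8 * sq (gr U x - gr U' x)
    rw [h6]
    nlinarith [h2.1, h3.1]
  have iL := d1_L_int D hU.lip ρ
  have iL' := d1_L_int D hU'.lip ρ
  have iV := d1_L_int D hVL ρ
  have iU : IntegrableOn (fun x => (U x - U' x) ^ 2) (closedBall 0 ρ) volume := by
    obtain ⟨K, hK⟩ := hU.lip
    obtain ⟨K', hK'⟩ := hU'.lip
    refine d1_int ((hK.continuous.sub hK'.continuous).pow 2).aestronglyMeasurable 1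
      (fun x => ?_) ρ
    have h1 : |U x - U' x| ≤ 1 := by
      rw [abs_le]
      constructor <;> linarith [hU.nonneg x, hU'.nonneg x, hU.le_one x, hU'.le_one x]
    show |(U x - U' x) ^ 2| ≤ 1
    rw [abs_pow]
    exact pow_le_one₀ (abs_nonneg _) h1
  have iG : IntegrableOn (fun x => sq (gr U x - gr U' x)) (closedBall 0 ρ) volume := by
    obtain ⟨K, hK⟩ := hU.lip
    obtain ⟨K', hK'⟩ := hU'.lip
    refine d1_int (d1_sq_cont.measurable.comp
      ((d1_gr_meas U).sub (d1_gr_meas U'))).aestronglyMeasurable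
      (∑ _i : Fin d, ((K : ℝ) + K') ^ 2) (fun x => ?_) ρ
    show |sq (gr U x - gr U' x)| ≤ _
    rw [abs_of_nonneg (d1_sq_nonneg _)]
    unfold sq
    refine Finset.sum_le_sum fun i _ => ?_
    have h1 := d1_gr_le hK x i
    have h2 := d1_gr_le hK' x i
    rw [abs_le] at h1 h2
    exact sq_le_sq' (by rw [Pi.sub_apply]; linarith [h1.1, h2.2])
      (by rw [Pi.sub_apply]; linarith [h1.2, h2.1])
  have h1 := integral_mono_ae iV ((((iL.const_mul (1 / 2)).add (iL'.const_mul (1 / 2))).add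
    (iU.const_mul (D.M0 / 8))).sub (iG.const_mul (D.m0 / 8))) hpt
  have h2 : ∫ x in closedBall 0 ρ, ((1 / 2 * D.L (U x) (gr U x) + 1 / 2 * D.L (U' x) (gr U' x) +
        D.M0 / 8 * (U x - U' x) ^ 2) - D.m0 / 8 * sq (gr U x - gr U' x)) =
      1 / 2 * (∫ x in closedBall 0 ρ, D.L (U x) (gr U x)) +
      1 / 2 * (∫ x in closedBall 0 ρ, D.L (U' x) (gr U' x)) +
      D.M0 / 8 * (∫ x in closedBall 0 ρ, (U x - U' x) ^ 2) -
      D.m0 / 8 * ∫ x in closedBall 0 ρ, sq (gr U x - gr U' x) := by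
    exact d1_four iL iL' iU iG _ _
  have h3 : ∫ x in closedBall 0 ρ, D.L (V x) (gr V x) ≤ ∫ x in closedBall 0 ρ,
      ((1 / 2 * D.L (U x) (gr U x) + 1 / 2 * D.L (U' x) (gr U' x) +
        D.M0 / 8 * (U x - U' x) ^ 2) - D.m0 / 8 * sq (gr U x - gr U' x)) := h1
  rw [h2] at h3
  linarith

end Pool.Agent.Work.MP_85f2da_an

end

section

set_option autoImplicit false

/-!
# D12: compactness of a sequence of minimisers
-/

open MeasureTheory Filter Set Metric
open scoped ENNReal Topology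

namespace Pool.Agent.Work.MP_85f2da_an

theorem d12_sq_nonneg {d : ℕ} (a : Fin d → ℝ) : 0 ≤ sq a :=
  Finset.sum_nonneg fun i _ => sq_nonneg _

theorem d12_sq_sub {d : ℕ} (a b : Fin d → ℝ) : sq (a - b) ≤ 2 * sq a + 2 * sq b := by
  unfold sq
  rw [Finset.mul_sum, Finset.mul_sum, ← Finset.sum_add_distrib]
  refine Finset.sum_le_sum fun i _ => ?_
  simp only [Pi.sub_apply]
  nlinarith [sq_nonneg (a i + b i)]

theorem d12_sq_meas {d : ℕ} {g : (Fin d → ℝ) → (Fin d → ℝ)} (hg : AEStronglyMeasurable g volume) :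
    AEStronglyMeasurable (fun x => sq (g x)) volume := by
  have hc : Continuous (fun a : Fin d → ℝ => sq a) := by
    unfold sq
    fun_prop
  exact hc.comp_aestronglyMeasurable hg

/-- integrals over a ball of a function bounded almost everywhere -/
theorem d12_int_le {d : ℕ} {f : (Fin d → ℝ) → ℝ} {R c : ℝ}
    (h : ∀ᵐ x, x ∈ closedBall (0 : Fin d → ℝ) R → |f x| ≤ c) :
    |∫ x in closedBall (0 : Fin d → ℝ) R, f x| ≤ c * volume.real (closedBall (0 : Fin d → ℝ) R) := by
  have h1 : volume (closedBall (0 : Fin d → ℝ) R) < ⊤ := measure_closedBall_lt_top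
  rw [← Real.norm_eq_abs]
  refine norm_setIntegral_le_of_norm_le_const_ae' h1 ?_
  filter_upwards [h] with x hx hxR
  rw [Real.norm_eq_abs]
  exact hx hxR

theorem d12_conv {d : ℕ} (hLip : DLipIn) (hArz : SArz) (D : Dat d) (w : (Fin d → ℝ) → ℝ)
    (ρ : ℕ → ℝ) (u : ℕ → (Fin d → ℝ) → ℝ) (g : ℕ → (Fin d → ℝ) → (Fin d → ℝ)) (hd : 0 < d)
    (hρ : Tendsto ρ atTop atTop) (hB : ∀ j, BMin D w (ρ j) (u j) (g j)) :
    ∃ (φ : ℕ → ℕ) (v : (Fin d → ℝ) → ℝ), StrictMono φ ∧ Lip v ∧ (∀ x, 0 ≤ v x ∧ v x ≤ 1) ∧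
      ∀ R δ : ℝ, 0 < δ → ∃ N, ∀ j, N ≤ j → ∀ᵐ x, x ∈ closedBall (0 : Fin d → ℝ) R →
        |u (φ j) x - v x| ≤ δ := by
  obtain ⟨K, hK⟩ := hLip d D hd
  have h1 : ∀ j, ∃ v : (Fin d → ℝ) → ℝ, LipschitzWith K v ∧ (∀ x, 0 ≤ v x ∧ v x ≤ 1) ∧
      (20 ≤ ρ j → ∀ᵐ x, x ∈ closedBall 0 (ρ j - 12) → u j x = v x) := by
    intro j
    by_cases h : 20 ≤ ρ j
    · obtain ⟨v, a1, a2, a3⟩ := hK w (ρ j) (u j) (g j) (hB j) h
      exact ⟨v, a1, a2, fun _ => a3⟩
    · exact ⟨fun _ => 0, (LipschitzWith.const 0).weaken bot_le, fun _ => ⟨le_rfl, zero_le_one⟩,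
        fun h' => absurd h' h⟩
  choose v hv1 hv2 hv3 using h1
  obtain ⟨φ, V, hφ, hV1, hV2, hV3⟩ := hArz d K v hv1 hv2
  refine ⟨φ, V, hφ, ⟨K, hV1⟩, hV2, fun R δ hδ => ?_⟩
  obtain ⟨N1, hN1⟩ := hV3 R δ hδ
  have h2 : ∀ᶠ j in atTop, max 20 (R + 12) ≤ ρ (φ j) :=
    (hρ.comp hφ.tendsto_atTop).eventually_ge_atTop _
  obtain ⟨N2, hN2⟩ := eventually_atTop.1 h2
  refine ⟨max N1 N2, fun j hj => ?_⟩
  have a1 := hN2 j (le_trans (le_max_right _ _) hj)
  have a2 := hN1 j (le_trans (le_max_left _ _) hj)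
  filter_upwards [hv3 (φ j) (le_trans (le_max_left _ _) a1)] with x hx hxR
  rw [hx (closedBall_subset_closedBall (by have := le_max_right (20 : ℝ) (R + 12); linarith) hxR)]
  exact a2 x hxR

theorem dConv : DLipIn → SArz → DGrad → SComplete → SUniq → SLip → SInt → DConv := by
  intro hLip hArz hGrad hCompl hUniq hSLip hInt d D w ρ u g hd hρ hB
  obtain ⟨φ, V, hφ, hVL, hV01, hcv⟩ := d12_conv hLip hArz D w ρ u g hd hρ hB
  set A : ℝ → ℝ := fun R => volume.real (closedBall (0 : Fin d → ℝ) R) with hA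
  have hA0 : ∀ R, 0 ≤ A R := fun R => measureReal_nonneg
  have hρφ : Tendsto (fun j => ρ (φ j)) atTop atTop := hρ.comp hφ.tendsto_atTop
  -- convergence of the functions
  have c1 : ∀ R : ℝ, Tendsto (fun j => ∫ x in closedBall 0 R, (u (φ j) x - V x) ^ 2) atTop
      (𝓝 0) := by
    intro R
    have hlim : Tendsto (fun δ : ℝ => δ ^ 2 * A R) (𝓝[>] 0) (𝓝 0) := by
      have : Continuous fun δ : ℝ => δ ^ 2 * A R := by fun_prop
      have h := (this.tendsto 0).mono_left (nhdsWithin_le_nhds (s := Ioi 0))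
      simpa using h
    rw [Metric.tendsto_atTop]
    intro ε hε
    obtain ⟨δ, hδ1, hδ2⟩ := ((hlim.eventually (Iio_mem_nhds hε)).and self_mem_nhdsWithin).exists
    have hδ2' : 0 < δ := hδ2
    obtain ⟨N, hN⟩ := hcv R δ hδ2'
    refine ⟨N, fun j hj => ?_⟩
    rw [Real.dist_eq, sub_zero]
    refine lt_of_le_of_lt (d12_int_le (c := δ ^ 2) ?_) hδ1
    filter_upwards [hN j hj] with x hx hxR
    rw [abs_of_nonneg (sq_nonneg _), ← sq_abs]
    exact pow_le_pow_left₀ (abs_nonneg _) (hx hxR) 2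
  -- differences
  have c2 : ∀ R δ : ℝ, 0 < δ → ∃ N, ∀ i j, N ≤ i → N ≤ j →
      ∫ x in closedBall 0 R, (u (φ i) x - u (φ j) x) ^ 2 ≤ 4 * δ ^ 2 * A R := by
    intro R δ hδ
    obtain ⟨N, hN⟩ := hcv R δ hδ
    refine ⟨N, fun i j hi hj => ?_⟩
    refine (le_abs_self _).trans (d12_int_le (c := 4 * δ ^ 2) ?_)
    filter_upwards [hN i hi, hN j hj] with x h1 h2 hxR
    have e : |u (φ i) x - u (φ j) x| ≤ 2 * δ := by
      have := abs_sub_le (u (φ i) x) (V x) (u (φ j) x)
      have h3 := h1 hxR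
      have h4 := h2 hxR
      rw [abs_sub_comm] at h4
      linarith
    rw [abs_of_nonneg (sq_nonneg _), ← sq_abs]
    calc |u (φ i) x - u (φ j) x| ^ 2 ≤ (2 * δ) ^ 2 := pow_le_pow_left₀ (abs_nonneg _) e 2
      _ = 4 * δ ^ 2 := by ring
  -- integrability
  have i1 : ∀ i j R, IntegrableOn (fun x => (u (φ i) x - u (φ j) x) ^ 2)
      (closedBall (0 : Fin d → ℝ) R) := by
    intro i j R
    refine Measure.integrableOn_of_bounded (M := 1) measure_closedBall_lt_top.ne
      (((hB _).lsp.mu.sub (hB _).lsp.mu).pow 2) ?_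
    refine Eventually.of_forall fun x => ?_
    have h1 := (hB (φ i)).nonneg x
    have h2 := (hB (φ i)).le_one x
    have h3 := (hB (φ j)).nonneg x
    have h4 := (hB (φ j)).le_one x
    rw [Real.norm_eq_abs, abs_of_nonneg (sq_nonneg _)]
    nlinarith
  have i2 : ∀ i j R, IntegrableOn (fun x => sq (g (φ i) x - g (φ j) x))
      (closedBall (0 : Fin d → ℝ) R) := by
    intro i j R
    have h1 := (hInt d _ _ (hB (φ i)).lsp 0 R).2
    have h2 := (hInt d _ _ (hB (φ j)).lsp 0 R).2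
    refine ((h1.const_mul 2).add (h2.const_mul 2)).mono'
      (d12_sq_meas ((hB _).lsp.mg.sub (hB _).lsp.mg)).restrict ?_
    refine Eventually.of_forall fun x => ?_
    rw [Real.norm_eq_abs, abs_of_nonneg (d12_sq_nonneg _)]
    exact d12_sq_sub _ _
  -- the sequence is Cauchy
  have c3 : ∀ R ε : ℝ, 0 < ε → ∃ N, ∀ i j, N ≤ i → N ≤ j →
      ∫⁻ x in closedBall 0 R, ENNReal.ofReal ((u (φ i) x - u (φ j) x) ^ 2 +
        sq (g (φ i) x - g (φ j) x)) ≤ ENNReal.ofReal ε := by
    intro R ε hε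
    set r : ℝ := max R 1 with hr
    have hr0 : 0 < r := lt_of_lt_of_le one_pos (le_max_right _ _)
    obtain ⟨C, hC⟩ := hGrad d D r hr0
    have hlim : Tendsto (fun δ : ℝ => 4 * δ ^ 2 * A R + |C| * Real.sqrt (4 * δ ^ 2 * A (r + 1)))
        (𝓝[>] 0) (𝓝 0) := by
      have : Continuous fun δ : ℝ => 4 * δ ^ 2 * A R + |C| * Real.sqrt (4 * δ ^ 2 * A (r + 1)) := by
        fun_prop
      have h := (this.tendsto 0).mono_left (nhdsWithin_le_nhds (s := Ioi 0))
      simpa using h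
    obtain ⟨δ, hδ1, hδ2⟩ := ((hlim.eventually (Iio_mem_nhds hε)).and self_mem_nhdsWithin).exists
    have hδ2' : 0 < δ := hδ2
    obtain ⟨N1, hN1⟩ := c2 R δ hδ2'
    obtain ⟨N2, hN2⟩ := c2 (r + 1) δ hδ2'
    obtain ⟨N3, hN3⟩ := eventually_atTop.1 (hρφ.eventually_ge_atTop (r + 4))
    refine ⟨max N1 (max N2 N3), fun i j hi hj => ?_⟩
    have hi1 : N1 ≤ i := (le_max_left _ _).trans hi
    have hj1 : N1 ≤ j := (le_max_left _ _).trans hj
    have hi2 : N2 ≤ i := ((le_max_left _ _).trans (le_max_right _ _)).trans hi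
    have hj2 : N2 ≤ j := ((le_max_left _ _).trans (le_max_right _ _)).trans hj
    have hi3 : N3 ≤ i := ((le_max_right _ _).trans (le_max_right _ _)).trans hi
    have hj3 : N3 ≤ j := ((le_max_right _ _).trans (le_max_right _ _)).trans hj
    have hint : IntegrableOn (fun x => (u (φ i) x - u (φ j) x) ^ 2 +
        sq (g (φ i) x - g (φ j) x)) (closedBall (0 : Fin d → ℝ) R) := (i1 i j R).add (i2 i j R)
    rw [← ofReal_integral_eq_lintegral_ofReal hint
      (Eventually.of_forall fun x => add_nonneg (sq_nonneg _) (d12_sq_nonneg _))]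
    refine ENNReal.ofReal_le_ofReal (le_trans ?_ hδ1.le)
    rw [integral_add (i1 i j R) (i2 i j R)]
    refine add_le_add (hN1 i j hi1 hj1) ?_
    have g1 : ∫ x in closedBall 0 R, sq (g (φ i) x - g (φ j) x) ≤
        ∫ x in closedBall 0 r, sq (g (φ i) x - g (φ j) x) := by
      refine setIntegral_mono_set (i2 i j r)
        (Eventually.of_forall fun x => d12_sq_nonneg _) ?_
      exact (closedBall_subset_closedBall (le_max_left _ _)).eventuallyLE
    refine g1.trans ((hC w (ρ (φ i)) (ρ (φ j)) _ _ _ _ (hB _) (hB _) (hN3 i hi3)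
      (hN3 j hj3)).trans ?_)
    refine mul_le_mul (le_abs_self C) (Real.sqrt_le_sqrt (hN2 i j hi2 hj2)) (Real.sqrt_nonneg _)
      (abs_nonneg C)
  obtain ⟨u', g', hL', hlim'⟩ := hCompl d (fun j => u (φ j)) (fun j => g (φ j))
    (fun j => (hB _).lsp) c3
  -- the limit function is `V`
  have hVm : AEStronglyMeasurable V volume := by
    obtain ⟨K, hK⟩ := hVL
    exact hK.continuous.aestronglyMeasurable
  have e1 : ∀ n : ℕ, ∀ᵐ x, x ∈ closedBall (0 : Fin d → ℝ) n → V x = u' x := by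
    intro n
    have hz : ∫⁻ x in closedBall (0 : Fin d → ℝ) n, ENNReal.ofReal ((V x - u' x) ^ 2) = 0 := by
      have hb : ∀ δ : ℝ, 0 < δ → ∫⁻ x in closedBall (0 : Fin d → ℝ) n,
          ENNReal.ofReal ((V x - u' x) ^ 2) ≤
          ENNReal.ofReal (2 * δ ^ 2) * volume (closedBall (0 : Fin d → ℝ) n) := by
        intro δ hδ
        have ht : Tendsto (fun j => ENNReal.ofReal (2 * δ ^ 2) *
            volume (closedBall (0 : Fin d → ℝ) n) + ENNReal.ofReal 2 *
            ∫⁻ x in closedBall (0 : Fin d → ℝ) n, ENNReal.ofReal ((u (φ j) x - u' x) ^ 2 +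
              sq (g (φ j) x - g' x))) atTop (𝓝 (ENNReal.ofReal (2 * δ ^ 2) *
            volume (closedBall (0 : Fin d → ℝ) n) + ENNReal.ofReal 2 * 0)) :=
          tendsto_const_nhds.add (ENNReal.Tendsto.const_mul (hlim' n)
            (Or.inr ENNReal.ofReal_ne_top))
        rw [mul_zero, add_zero] at ht
        refine ge_of_tendsto ht ?_
        obtain ⟨N, hN⟩ := hcv n δ hδ
        filter_upwards [eventually_ge_atTop N] with j hj
        rw [← lintegral_const_mul' _ _ ENNReal.ofReal_ne_top]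
        have e2 : ENNReal.ofReal (2 * δ ^ 2) * volume (closedBall (0 : Fin d → ℝ) n) =
            ∫⁻ _ in closedBall (0 : Fin d → ℝ) n, ENNReal.ofReal (2 * δ ^ 2) := by
          rw [setLIntegral_const]
        rw [e2, ← lintegral_add_left measurable_const]
        refine lintegral_mono_ae ?_
        rw [ae_restrict_iff' measurableSet_closedBall]
        filter_upwards [hN j hj] with x hx hxR
        have a1 : (u (φ j) x - V x) ^ 2 ≤ δ ^ 2 := by
          rw [← sq_abs]
          exact pow_le_pow_left₀ (abs_nonneg _) (hx hxR) 2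
        rw [← ENNReal.ofReal_mul (by norm_num), ← ENNReal.ofReal_add (by positivity)
          (mul_nonneg (by norm_num) (add_nonneg (sq_nonneg _) (d12_sq_nonneg _)))]
        refine ENNReal.ofReal_le_ofReal ?_
        have a2 := d12_sq_nonneg (g (φ j) x - g' x)
        nlinarith [sq_nonneg ((u (φ j) x - V x) + (u (φ j) x - u' x))]
      have ht : Tendsto (fun δ : ℝ => ENNReal.ofReal (2 * δ ^ 2) *
          volume (closedBall (0 : Fin d → ℝ) n)) (𝓝[>] 0)
          (𝓝 (0 * volume (closedBall (0 : Fin d → ℝ) n))) := by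
        refine ENNReal.Tendsto.mul_const ?_ (Or.inr measure_closedBall_lt_top.ne)
        have hc : Continuous fun δ : ℝ => ENNReal.ofReal (2 * δ ^ 2) :=
          ENNReal.continuous_ofReal.comp (by fun_prop)
        have h := (hc.tendsto 0).mono_left (nhdsWithin_le_nhds (s := Ioi 0))
        simpa using h
      rw [zero_mul] at ht
      refine le_antisymm (ge_of_tendsto ht ?_) bot_le
      filter_upwards [self_mem_nhdsWithin] with δ hδ
      exact hb δ hδ
    have hmm : AEMeasurable (fun x => ENNReal.ofReal ((V x - u' x) ^ 2))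
        (volume.restrict (closedBall (0 : Fin d → ℝ) n)) :=
      ((hVm.sub hL'.mu).pow 2).aemeasurable.restrict.ennreal_ofReal
    rw [lintegral_eq_zero_iff' hmm] at hz
    have hz2 := (ae_restrict_iff' measurableSet_closedBall).1 hz
    filter_upwards [hz2] with x hx hxR
    have h := hx hxR
    simp only [Pi.zero_apply, ENNReal.ofReal_eq_zero] at h
    have h3 : (V x - u' x) ^ 2 = 0 := le_antisymm h (sq_nonneg _)
    have h4 : V x - u' x = 0 := by simpa using h3
    linarith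
  have e2 : u' =ᵐ[volume] V := by
    have := ae_all_iff.2 e1
    filter_upwards [this] with x hx
    obtain ⟨n, hn⟩ := exists_nat_ge ‖x‖
    exact (hx n (by rw [mem_closedBall, dist_zero_right]; exact hn)).symm
  have hLV : LSP V g' := by
    obtain ⟨h1, h2, U, h3, h4⟩ := hL'
    refine ⟨hVm, h2, U, h3, fun R => ?_⟩
    refine (h4 R).congr fun j => ?_
    refine lintegral_congr_ae (ae_restrict_of_ae ?_)
    filter_upwards [e2] with x hx
    rw [hx]
  have e3 : g' =ᵐ[volume] gr V := hUniq d V g' (gr V) hLV (hSLip d V hVL)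
  refine ⟨φ, V, hφ, hVL, hV01, fun R => ⟨c1 R, ?_⟩⟩
  have hgV : AEStronglyMeasurable (gr V) volume := (hSLip d V hVL).mg
  have e4 : ∀ j, ∫ x in closedBall 0 R, sq (g (φ j) x - gr V x) =
      (∫⁻ x in closedBall 0 R, ENNReal.ofReal (sq (g (φ j) x - gr V x))).toReal := fun j =>
    integral_eq_lintegral_of_nonneg_ae (Eventually.of_forall fun x => d12_sq_nonneg _)
      (d12_sq_meas ((hB _).lsp.mg.sub hgV)).restrict
  simp only [e4]
  have e5 : Tendsto (fun j => ∫⁻ x in closedBall 0 R, ENNReal.ofReal (sq (g (φ j) x - gr V x)))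
      atTop (𝓝 0) := by
    refine tendsto_of_tendsto_of_tendsto_of_le_of_le tendsto_const_nhds (hlim' R)
      (fun j => bot_le) fun j => ?_
    refine lintegral_mono_ae (ae_restrict_of_ae ?_)
    filter_upwards [e3] with x hx
    rw [← hx]
    exact ENNReal.ofReal_le_ofReal (le_add_of_nonneg_left (sq_nonneg _))
  have := (ENNReal.tendsto_toReal ENNReal.zero_ne_top).comp e5
  rw [ENNReal.toReal_zero] at this
  exact this

end Pool.Agent.Work.MP_85f2da_an

end

section

set_option autoImplicit false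

/-!
# MP_85f2da_an, D9: uniform Lipschitz bound for the differences
-/

open MeasureTheory Filter Set Metric
open scoped ENNReal Topology ContDiff

namespace Pool.Agent.Work.MP_85f2da_an

theorem d9_sq_le {d : ℕ} (h : Fin d → ℝ) : sq h ≤ d * ‖h‖ ^ 2 := by
  unfold sq
  calc ∑ i, h i ^ 2 ≤ ∑ _i : Fin d, ‖h‖ ^ 2 := by
        refine Finset.sum_le_sum fun i _ => ?_
        rw [← sq_abs]
        have := norm_le_pi_norm h i
        rw [Real.norm_eq_abs] at this
        exact pow_le_pow_left₀ (abs_nonneg _) this 2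
    _ = d * ‖h‖ ^ 2 := by simp

theorem dDiff (hS : DSup) (hQ : DQuot) (hCa : DCacc) (hDi : SDiff) (hI : SInt) : DDiff := by
  intro d D hd
  obtain ⟨C1, hC1, hC1s⟩ := hS d D.m0 D.M0 hd D.m0_pos D.M0_pos
  obtain ⟨C2, hC2⟩ := hCa d D 3 (by norm_num)
  refine ⟨C1 * Real.sqrt (d * max C2 0), by positivity, ?_⟩
  intro w ρ u g hB z h hh hz
  by_cases h0 : h = 0
  · subst h0
    filter_upwards with x _
    simp
  have hpos : 0 < ‖h‖ := norm_pos_iff.2 h0
  have hcacc : ∫ x in closedBall z 3, sq (g x) ≤ C2 := hC2 w ρ u g hB z (by linarith)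
  have hsqnn : ∀ x, 0 ≤ sq (g x) := fun x => Finset.sum_nonneg fun i _ => sq_nonneg _
  have hdiff : ∫ x in closedBall z 2, (u (x + h) - u x) ^ 2 ≤ sq h * max C2 0 := by
    refine (hDi d u g hB.lsp z h 2 (by norm_num)).trans ?_
    refine mul_le_mul_of_nonneg_left ?_ (Finset.sum_nonneg fun i _ => sq_nonneg _)
    refine le_trans (le_trans ?_ hcacc) (le_max_left _ _)
    refine setIntegral_mono_set (hI d u g hB.lsp z 3).2 (ae_of_all _ hsqnn) ?_
    exact (closedBall_subset_closedBall (by linarith)).eventuallyLE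
  have hI2 : ∀ s : ℝ, (s = 1 ∨ s = -1) →
      ∫ x in closedBall z 2, (s * (u (x + h) - u x) / ‖h‖) ^ 2 ≤ d * max C2 0 := by
    intro s hs
    have hs2 : s ^ 2 = 1 := by rcases hs with rfl | rfl <;> norm_num
    have e : (fun x => (s * (u (x + h) - u x) / ‖h‖) ^ 2) =
        fun x => (‖h‖ ^ 2)⁻¹ * (u (x + h) - u x) ^ 2 := by
      funext x
      rw [div_pow, mul_pow, hs2, one_mul]
      field_simp
    rw [e, integral_const_mul]
    calc (‖h‖ ^ 2)⁻¹ * ∫ x in closedBall z 2, (u (x + h) - u x) ^ 2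
        ≤ (‖h‖ ^ 2)⁻¹ * (sq h * max C2 0) := mul_le_mul_of_nonneg_left hdiff (by positivity)
      _ ≤ (‖h‖ ^ 2)⁻¹ * ((d * ‖h‖ ^ 2) * max C2 0) := by
          refine mul_le_mul_of_nonneg_left ?_ (by positivity)
          exact mul_le_mul_of_nonneg_right (d9_sq_le h) (le_max_right _ _)
      _ = d * max C2 0 := by field_simp
  have hb : ∀ s : ℝ, (s = 1 ∨ s = -1) → ∀ᵐ x, x ∈ closedBall z 1 →
      s * (u (x + h) - u x) / ‖h‖ ≤ C1 * Real.sqrt (d * max C2 0) := by
    intro s hs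
    filter_upwards [hC1s z _ _ _ _ (hQ d D w ρ u g hB z h s hh (by linarith) hs h0)] with x hx hxm
    refine (hx hxm).trans ?_
    exact mul_le_mul_of_nonneg_left (Real.sqrt_le_sqrt (hI2 s hs)) hC1.le
  filter_upwards [hb 1 (Or.inl rfl), hb (-1) (Or.inr rfl)] with x h1 h2 hxm
  have h1' := h1 hxm
  have h2' := h2 hxm
  rw [div_le_iff₀ hpos] at h1' h2'
  rw [abs_le]
  constructor <;> linarith

end Pool.Agent.Work.MP_85f2da_an

end

section

set_option autoImplicit false

/-!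
# MP_85f2da_an, item D3: the Euler-Lagrange equation of a minimiser
-/

open MeasureTheory Filter Set Metric
open scoped ENNReal Topology ContDiff

namespace Pool.Agent.Work.MP_85f2da_an

variable {d : ℕ}

theorem d3_measurable_gr (u : (Fin d → ℝ) → ℝ) : Measurable (gr u) :=
  measurable_pi_lambda _ fun _ => measurable_fderiv_apply_const ℝ u _

theorem d3_sq_nonneg (a : Fin d → ℝ) : 0 ≤ sq a := Finset.sum_nonneg fun _ _ => sq_nonneg _

theorem d3_continuous_sq : Continuous (sq : (Fin d → ℝ) → ℝ) := by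
  unfold sq
  fun_prop

theorem d3_continuous_dot : Continuous (fun p : (Fin d → ℝ) × (Fin d → ℝ) => dot p.1 p.2) := by
  unfold dot
  fun_prop

theorem d3_sq_smul (t : ℝ) (a : Fin d → ℝ) : sq (t • a) = t ^ 2 * sq a := by
  unfold sq
  rw [Finset.mul_sum]
  refine Finset.sum_congr rfl fun i _ => ?_
  simp [mul_pow]

theorem d3_dot_smul (t : ℝ) (a b : Fin d → ℝ) : dot a (t • b) = t * dot a b := by
  unfold dot
  rw [Finset.mul_sum]
  refine Finset.sum_congr rfl fun i _ => ?_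
  simp only [Pi.smul_apply, smul_eq_mul]
  ring

theorem d3_dot_sub (a b c : Fin d → ℝ) : dot a (b - c) = dot a b - dot a c := by
  unfold dot
  rw [← Finset.sum_sub_distrib]
  refine Finset.sum_congr rfl fun i _ => ?_
  simp only [Pi.sub_apply]
  ring

theorem d3_dot_zero (a : Fin d → ℝ) : dot a 0 = 0 := by
  simp [dot]

theorem d3_sq_add_le (a b : Fin d → ℝ) : sq (a + b) ≤ 2 * sq a + 2 * sq b := by
  unfold sq
  rw [Finset.mul_sum, Finset.mul_sum, ← Finset.sum_add_distrib]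
  refine Finset.sum_le_sum fun i _ => ?_
  simp only [Pi.add_apply]
  nlinarith [sq_nonneg (a i - b i)]

theorem d3_abs_dot_le (a b : Fin d → ℝ) (ε : ℝ) (hε : 0 < ε) :
    |dot a b| ≤ ε / 2 * sq a + 1 / (2 * ε) * sq b := by
  unfold dot sq
  rw [Finset.mul_sum, Finset.mul_sum, ← Finset.sum_add_distrib]
  refine (Finset.abs_sum_le_sum_abs _ _).trans (Finset.sum_le_sum fun i _ => ?_)
  rw [abs_mul]
  have h1 : ε / 2 * a i ^ 2 + 1 / (2 * ε) * b i ^ 2 - |a i| * |b i|
      = 1 / (2 * ε) * (ε * |a i| - |b i|) ^ 2 := by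
    rw [← sq_abs (a i), ← sq_abs (b i)]
    field_simp
    ring
  have h2 : 0 ≤ 1 / (2 * ε) * (ε * |a i| - |b i|) ^ 2 := by positivity
  linarith

theorem d3_abs_mul_le (a b : ℝ) (ε : ℝ) (hε : 0 < ε) :
    |a * b| ≤ ε / 2 * a ^ 2 + 1 / (2 * ε) * b ^ 2 := by
  rw [abs_mul]
  have h1 : ε / 2 * a ^ 2 + 1 / (2 * ε) * b ^ 2 - |a| * |b|
      = 1 / (2 * ε) * (ε * |a| - |b|) ^ 2 := by
    rw [← sq_abs a, ← sq_abs b]
    field_simp
    ring
  have h2 : 0 ≤ 1 / (2 * ε) * (ε * |a| - |b|) ^ 2 := by positivity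
  linarith

theorem d3_abs_gr_le {u : (Fin d → ℝ) → ℝ} {K : NNReal} (hK : LipschitzWith K u)
    (x : Fin d → ℝ) (i : Fin d) : |gr u x i| ≤ K := by
  have h1 := (fderiv ℝ u x).le_opNorm (Pi.single i (1 : ℝ))
  rw [Pi.norm_single, norm_one, mul_one] at h1
  exact h1.trans (norm_fderiv_le_of_lipschitz ℝ hK)

theorem d3_sq_gr_bdd {u : (Fin d → ℝ) → ℝ} (hu : Lip u) : ∃ C : ℝ, 0 ≤ C ∧ ∀ x, sq (gr u x) ≤ C := by
  obtain ⟨K, hK⟩ := hu
  refine ⟨∑ i : Fin d, (K : ℝ) ^ 2, by positivity, fun x => Finset.sum_le_sum fun i _ => ?_⟩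
  rw [← sq_abs]
  exact pow_le_pow_left₀ (abs_nonneg _) (d3_abs_gr_le hK x i) 2

theorem d3_gr_const_mul (t : ℝ) (u : (Fin d → ℝ) → ℝ) (x : Fin d → ℝ) :
    gr (fun y => t * u y) x = t • gr u x := by
  have h : (fun y => t * u y) = t • u := by
    funext y
    simp
  funext i
  unfold gr
  rw [h, fderiv_const_smul_field]
  simp

theorem d3_lip_const_mul (t : ℝ) {u : (Fin d → ℝ) → ℝ} (hu : Lip u) : Lip (fun y => t * u y) := by
  obtain ⟨K, hK⟩ := hu
  refine ⟨‖t‖₊ * K, LipschitzWith.of_dist_le_mul fun x y => ?_⟩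
  have h1 := hK.dist_le_mul x y
  rw [Real.dist_eq] at h1 ⊢
  rw [← mul_sub, abs_mul]
  push_cast
  rw [Real.norm_eq_abs, mul_assoc]
  exact mul_le_mul_of_nonneg_left h1 (abs_nonneg t)

theorem d3_quad {I A : ℝ} (h : ∀ t : ℝ, 0 ≤ t * I + t ^ 2 * A) : I = 0 := by
  by_contra hI
  have hpos : 0 < |A| + 1 := by positivity
  have h1 := h (-(I / (2 * (|A| + 1))))
  have h2 : A ≤ |A| := le_abs_self A
  have h3 : 0 < I ^ 2 := by positivity
  have h4 : -(I / (2 * (|A| + 1))) * I + (-(I / (2 * (|A| + 1)))) ^ 2 * A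
      = I ^ 2 / (2 * (|A| + 1)) * (-1 + A / (2 * (|A| + 1))) := by
    field_simp
  rw [h4] at h1
  have h5 : A / (2 * (|A| + 1)) ≤ 1 / 2 := by
    rw [div_le_iff₀ (by positivity)]
    linarith
  have h6 : 0 < I ^ 2 / (2 * (|A| + 1)) := by positivity
  nlinarith

/-- integrability of the first variation -/
theorem d3_integrable {μ : Measure (Fin d → ℝ)} {a b : (Fin d → ℝ) → (Fin d → ℝ)}
    {c s : (Fin d → ℝ) → ℝ} (ha : AEStronglyMeasurable a μ) (hb : AEStronglyMeasurable b μ)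
    (hc : AEStronglyMeasurable c μ) (hs : AEStronglyMeasurable s μ)
    (ia : Integrable (fun x => sq (a x)) μ) (ib : Integrable (fun x => sq (b x)) μ)
    (ic : Integrable (fun x => c x ^ 2) μ) (is : Integrable (fun x => s x ^ 2) μ) :
    Integrable (fun x => dot (a x) (b x) + c x * s x) μ ∧
    ∀ ε : ℝ, 0 < ε → |∫ x, (dot (a x) (b x) + c x * s x) ∂μ|
      ≤ ε / 2 * ∫ x, (sq (a x) + c x ^ 2) ∂μ + 1 / (2 * ε) * ∫ x, (sq (b x) + s x ^ 2) ∂μ := by
  have hpt : ∀ ε : ℝ, 0 < ε → ∀ x, ‖dot (a x) (b x) + c x * s x‖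
      ≤ ε / 2 * (sq (a x) + c x ^ 2) + 1 / (2 * ε) * (sq (b x) + s x ^ 2) := by
    intro ε hε x
    rw [Real.norm_eq_abs]
    have h1 := abs_add_le (dot (a x) (b x)) (c x * s x)
    have h2 := d3_abs_dot_le (a x) (b x) ε hε
    have h3 := d3_abs_mul_le (c x) (s x) ε hε
    linarith
  have iac : Integrable (fun x => sq (a x) + c x ^ 2) μ := ia.add ic
  have ibs : Integrable (fun x => sq (b x) + s x ^ 2) μ := ib.add is
  have hdom : ∀ ε : ℝ, Integrable (fun x => ε / 2 * (sq (a x) + c x ^ 2)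
      + 1 / (2 * ε) * (sq (b x) + s x ^ 2)) μ := fun ε =>
    (iac.const_mul _).add (ibs.const_mul _)
  have hmeas : AEStronglyMeasurable (fun x => dot (a x) (b x) + c x * s x) μ :=
    (d3_continuous_dot.comp_aestronglyMeasurable (ha.prodMk hb)).add (hc.mul hs)
  refine ⟨(hdom 1).mono' hmeas (Eventually.of_forall (hpt 1 one_pos)), fun ε hε => ?_⟩
  rw [← Real.norm_eq_abs]
  refine (norm_integral_le_integral_norm _).trans ?_
  rw [← integral_const_mul, ← integral_const_mul,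
    ← integral_add (iac.const_mul _) (ibs.const_mul _)]
  refine integral_mono_of_nonneg (Eventually.of_forall fun x => norm_nonneg _) (hdom ε)
    (Eventually.of_forall (hpt ε hε))

/-- the facts on a minimiser used below -/
theorem d3_facts (D : Dat d) {u : (Fin d → ℝ) → ℝ} {g : (Fin d → ℝ) → (Fin d → ℝ)}
    {ρ : ℝ} (mu : AEStronglyMeasurable u volume) (mg : AEStronglyMeasurable g volume)
    (ig : IntegrableOn (fun x => sq (g x)) (closedBall 0 ρ)) :
    IntegrableOn (fun x => sq (D.dL (g x))) (closedBall 0 ρ) ∧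
    IntegrableOn (fun x => D.dF (u x) ^ 2) (closedBall 0 ρ) := by
  have hfin : volume (closedBall (0 : Fin d → ℝ) ρ) ≠ ⊤ := measure_closedBall_lt_top.ne
  constructor
  · refine (ig.const_mul (D.M0 ^ 2)).mono'
      ((d3_continuous_sq.comp D.dL_cont).comp_aestronglyMeasurable mg.restrict)
      (Eventually.of_forall fun x => ?_)
    rw [Real.norm_eq_abs, abs_of_nonneg (d3_sq_nonneg _)]
    have := D.dL_lip (g x) 0
    simpa [D.dL_zero] using this
  · refine Integrable.mono' (g := fun _ => D.M0 ^ 2)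
      (integrableOn_const (C := D.M0 ^ 2) hfin (by simp))
      ((D.dF_cont.pow 2).comp_aestronglyMeasurable mu.restrict)
      (Eventually.of_forall fun x => ?_)
    rw [Real.norm_eq_abs, abs_of_nonneg (sq_nonneg _), ← sq_abs]
    exact pow_le_pow_left₀ (abs_nonneg _) (D.dF_le _) 2

theorem d3_lag_int (D : Dat d) {v : (Fin d → ℝ) → ℝ} {g : (Fin d → ℝ) → (Fin d → ℝ)}
    {ρ : ℝ} (mv : AEStronglyMeasurable v volume) (mg : AEStronglyMeasurable g volume)
    (ig : IntegrableOn (fun x => sq (g x)) (closedBall 0 ρ)) :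
    IntegrableOn (fun x => D.L (v x) (g x)) (closedBall 0 ρ) := by
  have hfin : volume (closedBall (0 : Fin d → ℝ) ρ) ≠ ⊤ := measure_closedBall_lt_top.ne
  refine Integrable.add ?_ ?_
  · refine (ig.const_mul (D.M0 / 2)).mono' (D.Lam_cont.comp_aestronglyMeasurable mg.restrict)
      (Eventually.of_forall fun x => ?_)
    have h1 := D.Lam_lower (g x)
    have h2 : 0 ≤ D.m0 / 2 * sq (g x) := mul_nonneg (by linarith [D.m0_pos]) (d3_sq_nonneg _)
    rw [Real.norm_eq_abs, abs_of_nonneg (h2.trans h1)]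
    exact D.Lam_upper _
  · refine Integrable.mono' (g := fun _ => D.M0)
      (integrableOn_const (C := D.M0) hfin (by simp))
      (D.F_cont.comp_aestronglyMeasurable mv.restrict) (Eventually.of_forall fun x => ?_)
    rw [Real.norm_eq_abs, abs_of_nonneg (D.F_nonneg _)]
    exact D.F_le _

/-- step (i): Lipschitz test functions vanishing outside the cube -/
theorem d3_lip (hSInt : SInt) {D : Dat d} {w : (Fin d → ℝ) → ℝ} {ρ : ℝ}
    {u : (Fin d → ℝ) → ℝ} {g : (Fin d → ℝ) → (Fin d → ℝ)} (hB : BMin D w ρ u g)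
    {φ : (Fin d → ℝ) → ℝ} (hφ : Lip φ) (hφ0 : ∀ x, x ∉ closedBall 0 ρ → φ x = 0) :
    IntegrableOn (fun x => sq (gr φ x)) (closedBall 0 ρ) ∧
    IntegrableOn (fun x => φ x ^ 2) (closedBall 0 ρ) ∧
    ∫ x in closedBall 0 ρ, (dot (D.dL (g x)) (gr φ x) + D.dF (u x) * φ x) = 0 := by
  have hfin : volume (closedBall (0 : Fin d → ℝ) ρ) ≠ ⊤ := measure_closedBall_lt_top.ne
  obtain ⟨K, hK⟩ := hφ
  obtain ⟨C, hC0, hC⟩ := d3_sq_gr_bdd ⟨K, hK⟩
  have hig : IntegrableOn (fun x => sq (g x)) (closedBall 0 ρ) := (hSInt d u g hB.lsp 0 ρ).2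
  have hiu := (hSInt d u g hB.lsp 0 ρ).1
  obtain ⟨iL, iF⟩ := d3_facts D hB.lsp.mu hB.lsp.mg hig
  have hmgr : AEStronglyMeasurable (gr φ) volume := (d3_measurable_gr φ).aestronglyMeasurable
  have igr : IntegrableOn (fun x => sq (gr φ x)) (closedBall 0 ρ) := by
    refine Integrable.mono' (g := fun _ => C) (integrableOn_const (C := C) hfin (by simp))
      (d3_continuous_sq.comp_aestronglyMeasurable hmgr.restrict)
      (Eventually.of_forall fun x => ?_)
    rw [Real.norm_eq_abs, abs_of_nonneg (d3_sq_nonneg _)]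
    exact hC x
  have iφ : IntegrableOn (fun x => φ x ^ 2) (closedBall 0 ρ) :=
    (hK.continuous.pow 2).continuousOn.integrableOn_compact (isCompact_closedBall 0 ρ)
  refine ⟨igr, iφ, ?_⟩
  have hint := (d3_integrable (D.dL_cont.comp_aestronglyMeasurable hB.lsp.mg.restrict)
    hmgr.restrict (D.dF_cont.comp_aestronglyMeasurable hB.lsp.mu.restrict)
    hK.continuous.aestronglyMeasurable.restrict iL igr iF iφ).1
  refine d3_quad (A := D.M0 / 2 * ∫ x in closedBall 0 ρ, (sq (gr φ x) + φ x ^ 2)) fun t => ?_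
  have igφ : IntegrableOn (fun x => sq (gr φ x) + φ x ^ 2) (closedBall 0 ρ) := igr.add iφ
  have hmin := hB.min (fun x => t * φ x) (d3_lip_const_mul t ⟨K, hK⟩)
    (fun x hx => by rw [hφ0 x hx, mul_zero])
  have i0 := d3_lag_int D hB.lsp.mu hB.lsp.mg hig
  have hpt : ∀ x, D.L (u x + t * φ x) (g x + gr (fun y => t * φ y) x)
      ≤ D.L (u x) (g x) + (t * (dot (D.dL (g x)) (gr φ x) + D.dF (u x) * φ x)
        + t ^ 2 * (D.M0 / 2 * (sq (gr φ x) + φ x ^ 2))) := by
    intro x
    rw [d3_gr_const_mul]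
    unfold Dat.L
    have h1 := (abs_le.1 (D.Lam_taylor (g x) (t • gr φ x))).2
    have h2 := (abs_le.1 (D.F_taylor (u x) (t * φ x))).2
    rw [d3_dot_smul, d3_sq_smul] at h1
    nlinarith
  have hle : ∫ x in closedBall 0 ρ, D.L (u x + t * φ x) (g x + gr (fun y => t * φ y) x)
      ≤ ∫ x in closedBall 0 ρ, (D.L (u x) (g x)
        + (t * (dot (D.dL (g x)) (gr φ x) + D.dF (u x) * φ x)
        + t ^ 2 * (D.M0 / 2 * (sq (gr φ x) + φ x ^ 2)))) := by
    refine integral_mono_of_nonneg (Eventually.of_forall fun x => ?_)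
      (i0.add ((hint.const_mul t).add ((igφ.const_mul (D.M0 / 2)).const_mul (t ^ 2))))
      (Eventually.of_forall hpt)
    have h1 := D.Lam_lower (g x + gr (fun y => t * φ y) x)
    have h2 : 0 ≤ D.m0 / 2 * sq (g x + gr (fun y => t * φ y) x) :=
      mul_nonneg (by linarith [D.m0_pos]) (d3_sq_nonneg _)
    have h3 := D.F_nonneg (u x + t * φ x)
    have h4 : D.L (u x + t * φ x) (g x + gr (fun y => t * φ y) x)
      = D.Lam (g x + gr (fun y => t * φ y) x) + D.F (u x + t * φ x) := rfl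
    show 0 ≤ D.L (u x + t * φ x) (g x + gr (fun y => t * φ y) x)
    rw [h4]
    linarith
  have hJ : Integrable (fun x => t ^ 2 * (D.M0 / 2 * (sq (gr φ x) + φ x ^ 2)))
      (volume.restrict (closedBall 0 ρ)) := (igφ.const_mul (D.M0 / 2)).const_mul (t ^ 2)
  have hJ2 : Integrable (fun x => t * (dot (D.dL (g x)) (gr φ x) + D.dF (u x) * φ x)
      + t ^ 2 * (D.M0 / 2 * (sq (gr φ x) + φ x ^ 2)))
      (volume.restrict (closedBall 0 ρ)) := (hint.const_mul t).add hJ
  rw [integral_add i0 hJ2, integral_add (hint.const_mul t) hJ,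
    integral_const_mul, integral_const_mul, integral_const_mul] at hle
  linarith

theorem d3_gr_mul {η Φ : (Fin d → ℝ) → ℝ} (hη : Lip η) (hΦ : Lip Φ) :
    ∀ᵐ x, gr (fun y => η y * Φ y) x = η x • gr Φ x + Φ x • gr η x := by
  obtain ⟨K, hK⟩ := hη
  obtain ⟨K', hK'⟩ := hΦ
  filter_upwards [hK.ae_differentiableAt (μ := (volume : Measure (Fin d → ℝ))),
    hK'.ae_differentiableAt (μ := (volume : Measure (Fin d → ℝ)))] with x h1 h2
  funext i
  unfold gr
  rw [fderiv_fun_mul h1 h2]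
  simp

theorem d3_lip_mul {η Φ : (Fin d → ℝ) → ℝ} {ρ : ℝ} (hη : Lip η) (hΦ : Lip Φ)
    (h01 : ∀ x, 0 ≤ η x ∧ η x ≤ 1) (h0 : ∀ x, x ∉ closedBall 0 ρ → η x = 0) :
    Lip (fun y => η y * Φ y) := by
  obtain ⟨K, hK⟩ := hη
  obtain ⟨K', hK'⟩ := hΦ
  obtain ⟨M, hM⟩ := (isCompact_closedBall (0 : Fin d → ℝ) ρ).exists_bound_of_continuousOn
    hK'.continuous.continuousOn
  have key : ∀ x y, y ∈ closedBall (0 : Fin d → ℝ) ρ →
      |η x * Φ x - η y * Φ y| ≤ (K' + max M 0 * K) * dist x y := by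
    intro x y hy
    have e1 : η x * Φ x - η y * Φ y = η x * (Φ x - Φ y) + Φ y * (η x - η y) := by ring
    rw [e1]
    refine (abs_add_le _ _).trans ?_
    rw [abs_mul, abs_mul, abs_of_nonneg (h01 x).1]
    have h1 := hK'.dist_le_mul x y
    have h2 := hK.dist_le_mul x y
    rw [Real.dist_eq] at h1 h2
    have h3 : |Φ y| ≤ max M 0 := (hM y hy).trans (le_max_left _ _)
    have h4 : η x * |Φ x - Φ y| ≤ 1 * |Φ x - Φ y| :=
      mul_le_mul_of_nonneg_right (h01 x).2 (abs_nonneg _)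
    have h5 : |Φ y| * |η x - η y| ≤ max M 0 * (K * dist x y) :=
      mul_le_mul h3 h2 (abs_nonneg _) (le_max_right _ _)
    linarith
  refine ⟨K' + Real.toNNReal (max M 0) * K, LipschitzWith.of_dist_le_mul fun x y => ?_⟩
  rw [Real.dist_eq]
  push_cast
  rw [Real.coe_toNNReal _ (le_max_right _ _)]
  by_cases hy : y ∈ closedBall (0 : Fin d → ℝ) ρ
  · exact key x y hy
  · by_cases hx : x ∈ closedBall (0 : Fin d → ℝ) ρ
    · rw [abs_sub_comm, dist_comm]
      exact key y x hx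
    · rw [h0 x hx, h0 y hy]
      simp only [zero_mul, sub_self, abs_zero]
      have h1 : 0 ≤ max M 0 := le_max_right _ _
      positivity

/-- the cut-off function -/
theorem d3_cutoff (r ρ : ℝ) (hr : r < ρ) : ∃ η : (Fin d → ℝ) → ℝ, Lip η ∧
    (∀ x, 0 ≤ η x ∧ η x ≤ 1) ∧ (∀ x, x ∉ closedBall 0 ρ → η x = 0) ∧
    (∀ x, x ∈ closedBall 0 r → η x = 1 ∧ gr η x = 0) := by
  set r' : ℝ := (r + ρ) / 2 with hr'
  have hr1 : r < r' := by rw [hr']; linarith
  have hr2 : r' < ρ := by rw [hr']; linarith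
  have hpos : 0 < ρ - r' := by linarith
  refine ⟨fun x => max 0 (min 1 ((ρ - ‖x‖) / (ρ - r'))), ?_, ?_, ?_, ?_⟩
  · have h1 : LipschitzWith (Real.toNNReal (1 / (ρ - r')))
        (fun x : Fin d → ℝ => (ρ - ‖x‖) / (ρ - r')) := by
      refine LipschitzWith.of_dist_le_mul fun x y => ?_
      rw [Real.dist_eq, Real.coe_toNNReal _ (by positivity), ← sub_div, abs_div, abs_of_pos hpos,
        div_mul_eq_mul_div, one_mul]
      refine div_le_div_of_nonneg_right ?_ hpos.le
      have e : ρ - ‖x‖ - (ρ - ‖y‖) = ‖y‖ - ‖x‖ := by ring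
      rw [e, dist_comm, dist_eq_norm]
      exact abs_norm_sub_norm_le y x
    exact ⟨_, (h1.const_min 1).const_max 0⟩
  · intro x
    exact ⟨le_max_left _ _, max_le zero_le_one (min_le_left _ _)⟩
  · intro x hx
    rw [mem_closedBall_zero_iff, not_le] at hx
    refine max_eq_left ((min_le_right _ _).trans ?_)
    exact div_nonpos_of_nonpos_of_nonneg (by linarith) hpos.le
  · intro x hx
    rw [mem_closedBall_zero_iff] at hx
    have h1 : ∀ y : Fin d → ℝ, ‖y‖ < r' → max 0 (min 1 ((ρ - ‖y‖) / (ρ - r'))) = 1 := by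
      intro y hy
      have h2 : 1 ≤ (ρ - ‖y‖) / (ρ - r') := by
        rw [le_div_iff₀ hpos]
        linarith
      rw [min_eq_left h2]
      exact max_eq_right zero_le_one
    refine ⟨h1 x (hx.trans_lt hr1), ?_⟩
    have h3 : (fun y : Fin d → ℝ => max 0 (min 1 ((ρ - ‖y‖) / (ρ - r')))) =ᶠ[𝓝 x]
        fun _ => (1 : ℝ) := by
      have h4 : ∀ᶠ y : Fin d → ℝ in 𝓝 x, ‖y‖ < r' :=
        (continuous_norm.tendsto x).eventually (gt_mem_nhds (hx.trans_lt hr1))
      filter_upwards [h4] with y hy using h1 y hy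
    funext i
    unfold gr
    rw [h3.fderiv_eq]
    simp

/-- item D3: the Euler-Lagrange equation -/
theorem dEL (_hSCut : SCut) (hSInt : SInt) : DEL := by
  intro d D w ρ u g hB φ ψ r hr hφψ h0
  obtain ⟨Φ, hΦ, hlim⟩ := hφψ.app
  obtain ⟨η, hηL, hη01, hη0, hη1⟩ := d3_cutoff (d := d) r ρ hr
  obtain ⟨C, hC0, hC⟩ := d3_sq_gr_bdd hηL
  have hig : IntegrableOn (fun x => sq (g x)) (closedBall 0 ρ) := (hSInt d u g hB.lsp 0 ρ).2
  obtain ⟨iL, iF⟩ := d3_facts D hB.lsp.mu hB.lsp.mg hig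
  obtain ⟨iφ, iψ⟩ := hSInt d φ ψ hφψ 0 ρ
  have hmL : AEStronglyMeasurable (fun x => D.dL (g x)) (volume.restrict (closedBall 0 ρ)) :=
    D.dL_cont.comp_aestronglyMeasurable hB.lsp.mg.restrict
  have hmF : AEStronglyMeasurable (fun x => D.dF (u x)) (volume.restrict (closedBall 0 ρ)) :=
    D.dF_cont.comp_aestronglyMeasurable hB.lsp.mu.restrict
  have hint := (d3_integrable hmL hφψ.mg.restrict hmF hφψ.mu.restrict iL iψ iF iφ).1
  have hsub : closedBall (0 : Fin d → ℝ) r ⊆ closedBall 0 ρ := closedBall_subset_closedBall hr.le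
  have hout : ∀ x, x ∉ closedBall (0 : Fin d → ℝ) ρ →
      dot (D.dL (g x)) (ψ x) + D.dF (u x) * φ x = 0 := by
    intro x hx
    obtain ⟨h1, h2⟩ := h0 x (fun h => hx (hsub h))
    rw [h1, h2, d3_dot_zero]
    ring
  have hsupp : Function.support (fun x => dot (D.dL (g x)) (ψ x) + D.dF (u x) * φ x)
      ⊆ closedBall 0 ρ := by
    intro x hx
    by_contra h
    exact hx (hout x h)
  refine ⟨(integrableOn_iff_integrable_of_support_subset hsupp).1 hint, ?_⟩
  rw [← setIntegral_eq_integral_of_forall_compl_eq_zero hout]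
  set I : ℝ := ∫ x in closedBall 0 ρ, (dot (D.dL (g x)) (ψ x) + D.dF (u x) * φ x) with hI
  set A : ℝ := ∫ x in closedBall 0 ρ, (sq (D.dL (g x)) + D.dF (u x) ^ 2) with hA
  have hA0 : 0 ≤ A := integral_nonneg fun x => add_nonneg (d3_sq_nonneg _) (sq_nonneg _)
  -- the pointwise estimate
  have hpt : ∀ j, ∀ᵐ x, (η x * Φ j x - φ x) ^ 2 + sq (gr (fun y => η y * Φ j y) x - ψ x)
      ≤ (2 + 2 * C) * ((Φ j x - φ x) ^ 2 + sq (gr (Φ j) x - ψ x)) := by
    intro j
    filter_upwards [d3_gr_mul hηL (hΦ j)] with x hx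
    have e1 : η x * Φ j x - φ x = η x * (Φ j x - φ x) := by
      by_cases hxr : x ∈ closedBall (0 : Fin d → ℝ) r
      · rw [(hη1 x hxr).1]; ring
      · rw [(h0 x hxr).1]; ring
    have e2 : gr (fun y => η y * Φ j y) x - ψ x
        = η x • (gr (Φ j) x - ψ x) + (Φ j x - φ x) • gr η x := by
      rw [hx]
      by_cases hxr : x ∈ closedBall (0 : Fin d → ℝ) r
      · rw [(hη1 x hxr).1, (hη1 x hxr).2]; simp
      · rw [(h0 x hxr).1, (h0 x hxr).2]; simp
    rw [e1, e2]
    have h1 := d3_sq_add_le (η x • (gr (Φ j) x - ψ x)) ((Φ j x - φ x) • gr η x)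
    rw [d3_sq_smul, d3_sq_smul] at h1
    have h2 : η x ^ 2 ≤ 1 := by
      have := hη01 x
      nlinarith
    have h3 : η x ^ 2 * sq (gr (Φ j) x - ψ x) ≤ 1 * sq (gr (Φ j) x - ψ x) :=
      mul_le_mul_of_nonneg_right h2 (d3_sq_nonneg _)
    have h4 : (Φ j x - φ x) ^ 2 * sq (gr η x) ≤ (Φ j x - φ x) ^ 2 * C :=
      mul_le_mul_of_nonneg_left (hC x) (sq_nonneg _)
    have h5 : η x ^ 2 * (Φ j x - φ x) ^ 2 ≤ 1 * (Φ j x - φ x) ^ 2 :=
      mul_le_mul_of_nonneg_right h2 (sq_nonneg _)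
    have h6 : 0 ≤ C * sq (gr (Φ j) x - ψ x) := mul_nonneg hC0 (d3_sq_nonneg _)
    have h7 := sq_nonneg (Φ j x - φ x)
    rw [mul_pow]
    nlinarith
  have hmG : ∀ j, AEStronglyMeasurable (fun x => gr (fun y => η y * Φ j y) x - ψ x)
      (volume.restrict (closedBall 0 ρ)) := fun j =>
    (d3_measurable_gr _).aestronglyMeasurable.sub hφψ.mg.restrict
  have hχL : ∀ j, Lip (fun y => η y * Φ j y) := fun j => d3_lip_mul hηL (hΦ j) hη01 hη0
  have hmχ : ∀ j, AEStronglyMeasurable (fun x => η x * Φ j x - φ x)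
      (volume.restrict (closedBall 0 ρ)) := fun j => by
    obtain ⟨K, hK⟩ := hχL j
    exact hK.continuous.aestronglyMeasurable.restrict.sub hφψ.mu.restrict
  -- the errors tend to zero
  set G : ℕ → (Fin d → ℝ) → ℝ := fun j x =>
    sq (gr (fun y => η y * Φ j y) x - ψ x) + (η x * Φ j x - φ x) ^ 2 with hG
  have hG0 : ∀ j x, 0 ≤ G j x := fun j x => add_nonneg (d3_sq_nonneg _) (sq_nonneg _)
  have hGm : ∀ j, AEStronglyMeasurable (G j) (volume.restrict (closedBall 0 ρ)) := fun j =>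
    (d3_continuous_sq.comp_aestronglyMeasurable (hmG j)).add ((hmχ j).pow 2)
  have hle : ∀ j, ∫⁻ x in closedBall 0 ρ, ENNReal.ofReal (G j x)
      ≤ ENNReal.ofReal (2 + 2 * C) * ∫⁻ x in closedBall 0 ρ,
        ENNReal.ofReal ((Φ j x - φ x) ^ 2 + sq (gr (Φ j) x - ψ x)) := by
    intro j
    rw [← lintegral_const_mul' _ _ ENNReal.ofReal_ne_top]
    refine lintegral_mono_ae ((ae_restrict_of_ae (hpt j)).mono fun x hx => ?_)
    rw [← ENNReal.ofReal_mul (by positivity)]
    refine ENNReal.ofReal_le_ofReal ?_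
    rw [hG]
    show sq (gr (fun y => η y * Φ j y) x - ψ x) + (η x * Φ j x - φ x) ^ 2 ≤ _
    linarith
  have hlimG : Tendsto (fun j => ∫⁻ x in closedBall 0 ρ, ENNReal.ofReal (G j x)) atTop (𝓝 0) := by
    have h1 := ENNReal.Tendsto.const_mul (a := ENNReal.ofReal (2 + 2 * C)) (hlim ρ)
      (Or.inr ENNReal.ofReal_ne_top)
    rw [mul_zero] at h1
    exact tendsto_of_tendsto_of_tendsto_of_le_of_le tendsto_const_nhds h1 (fun _ => zero_le)
      hle
  have hlimI : Tendsto (fun j => ∫ x in closedBall 0 ρ, G j x) atTop (𝓝 0) := by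
    have h1 : ∀ j, ∫ x in closedBall 0 ρ, G j x
        = (∫⁻ x in closedBall 0 ρ, ENNReal.ofReal (G j x)).toReal := fun j =>
      integral_eq_lintegral_of_nonneg_ae (Eventually.of_forall (hG0 j)) (hGm j)
    simp_rw [h1]
    have := (ENNReal.tendsto_toReal ENNReal.zero_ne_top).comp hlimG
    simpa [Function.comp_def] using this
  have hfinite : ∀ᶠ j in atTop, ∫⁻ x in closedBall 0 ρ, ENNReal.ofReal (G j x) < ⊤ :=
    hlimG.eventually (gt_mem_nhds ENNReal.zero_lt_top)
  have hest : ∀ ε : ℝ, 0 < ε → ∀ᶠ j in atTop,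
      |I| ≤ ε / 2 * A + 1 / (2 * ε) * ∫ x in closedBall 0 ρ, G j x := by
    intro ε hε
    filter_upwards [hfinite] with j hj
    have hGi : IntegrableOn (G j) (closedBall 0 ρ) := by
      refine ⟨hGm j, ?_⟩
      rw [hasFiniteIntegral_iff_ofReal (Eventually.of_forall (hG0 j))]
      exact hj
    have i1 : IntegrableOn (fun x => sq (gr (fun y => η y * Φ j y) x - ψ x)) (closedBall 0 ρ) := by
      refine Integrable.mono' hGi (d3_continuous_sq.comp_aestronglyMeasurable (hmG j))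
        (Eventually.of_forall fun x => ?_)
      rw [Real.norm_eq_abs, abs_of_nonneg (d3_sq_nonneg _)]
      exact le_add_of_nonneg_right (sq_nonneg _)
    have i2 : IntegrableOn (fun x => (η x * Φ j x - φ x) ^ 2) (closedBall 0 ρ) := by
      refine Integrable.mono' hGi ((hmχ j).pow 2) (Eventually.of_forall fun x => ?_)
      rw [Real.norm_eq_abs, abs_of_nonneg (sq_nonneg _)]
      exact le_add_of_nonneg_left (d3_sq_nonneg _)
    obtain ⟨i3, h3⟩ := d3_integrable hmL (hmG j) hmF (hmχ j) iL i1 iF i2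
    have h4 := h3 ε hε
    have hzero := (d3_lip hSInt hB (hχL j) (fun x hx => by rw [hη0 x hx, zero_mul])).2.2
    have e : I = - ∫ x in closedBall 0 ρ, (dot (D.dL (g x)) (gr (fun y => η y * Φ j y) x - ψ x)
        + D.dF (u x) * (η x * Φ j x - φ x)) := by
      have h5 : ∫ x in closedBall 0 ρ, (dot (D.dL (g x)) (gr (fun y => η y * Φ j y) x)
          + D.dF (u x) * (η x * Φ j x)) = I + ∫ x in closedBall 0 ρ,
          (dot (D.dL (g x)) (gr (fun y => η y * Φ j y) x - ψ x)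
          + D.dF (u x) * (η x * Φ j x - φ x)) := by
        rw [hI, ← integral_add hint i3]
        refine integral_congr_ae (Eventually.of_forall fun x => ?_)
        simp only [d3_dot_sub]
        ring
      rw [hzero] at h5
      linarith
    rw [e, abs_neg]
    exact h4
  have hI2 : ∀ ε : ℝ, 0 < ε → |I| ≤ ε / 2 * A := by
    intro ε hε
    have h1 : Tendsto (fun j => ε / 2 * A + 1 / (2 * ε) * ∫ x in closedBall 0 ρ, G j x) atTop
        (𝓝 (ε / 2 * A + 1 / (2 * ε) * 0)) := (hlimI.const_mul _).const_add _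
    rw [mul_zero, add_zero] at h1
    exact ge_of_tendsto h1 (hest ε hε)
  by_contra hne
  have hIpos : 0 < |I| := abs_pos.2 hne
  have h1 := hI2 (|I| / (A + 1)) (by positivity)
  have h2 : |I| / (A + 1) / 2 * A = |I| * (A / (2 * (A + 1))) := by
    field_simp
  have h3 : A / (2 * (A + 1)) ≤ 1 / 2 := by
    rw [div_le_iff₀ (by positivity)]
    linarith
  rw [h2] at h1
  nlinarith

end Pool.Agent.Work.MP_85f2da_an

end

section

set_option autoImplicit false

/-!
# MP_85f2da_an, item D2: existence of minimisers in cubes (helper57)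
-/

open MeasureTheory Filter Set Metric
open scoped ENNReal Topology ContDiff

namespace Pool.Agent.Work.MP_85f2da_an

variable {d : ℕ}

/-! ### algebra of `sq`, `dot` -/

private theorem d2_sq_nonneg (a : Fin d → ℝ) : 0 ≤ sq a :=
  Finset.sum_nonneg fun _ _ => sq_nonneg _

private theorem d2_sq_add_le (a b : Fin d → ℝ) : sq (a + b) ≤ 2 * sq a + 2 * sq b := by
  unfold sq
  rw [Finset.mul_sum, Finset.mul_sum, ← Finset.sum_add_distrib]
  refine Finset.sum_le_sum fun i _ => ?_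
  rw [Pi.add_apply]
  nlinarith [sq_nonneg (a i - b i)]

private theorem d2_dot_le (a b : Fin d → ℝ) (t : ℝ) (ht : 0 < t) :
    |dot a b| ≤ t / 2 * sq a + 1 / (2 * t) * sq b := by
  unfold dot sq
  rw [Finset.mul_sum, Finset.mul_sum, ← Finset.sum_add_distrib]
  refine (Finset.abs_sum_le_sum_abs _ _).trans (Finset.sum_le_sum fun i _ => ?_)
  rw [abs_mul]
  have h1 : 0 ≤ (t * |a i| - |b i|) ^ 2 / (2 * t) := by positivity
  have h2 : (t * |a i| - |b i|) ^ 2 / (2 * t) =
      t / 2 * |a i| ^ 2 + 1 / (2 * t) * |b i| ^ 2 - |a i| * |b i| := by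
    field_simp
    ring
  rw [sq_abs, sq_abs] at h2
  linarith

private theorem d2_continuous_sq : Continuous (sq : (Fin d → ℝ) → ℝ) := by
  unfold sq
  fun_prop

/-! ### the Lagrangian -/

private theorem d2_Lam_nonneg (D : Dat d) (p : Fin d → ℝ) : 0 ≤ D.Lam p := by
  have h1 := D.Lam_lower p
  have h2 := D.m0_pos
  have h3 := d2_sq_nonneg p
  have : 0 ≤ D.m0 / 2 * sq p := by positivity
  linarith

private theorem d2_L_nonneg (D : Dat d) (v : ℝ) (p : Fin d → ℝ) : 0 ≤ D.L v p :=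
  add_nonneg (d2_Lam_nonneg D p) (D.F_nonneg v)

private theorem d2_L_le (D : Dat d) (v : ℝ) (p : Fin d → ℝ) :
    D.L v p ≤ D.M0 / 2 * sq p + D.M0 :=
  add_le_add (D.Lam_upper p) (D.F_le v)

/-- continuity estimate for the Lagrangian -/
private theorem d2_L_diff (D : Dat d) (v s : ℝ) (h ξ : Fin d → ℝ) (t : ℝ) (ht : 0 < t) :
    |D.L (v + s) (h + ξ) - D.L v h| ≤ t * (D.M0 ^ 2 * sq h + D.M0) +
      (1 / t + D.M0) * (1 + D.M0) * (s ^ 2 + sq ξ) := by
  have hM := D.M0_pos
  have h0 := d2_sq_nonneg h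
  have hx := d2_sq_nonneg ξ
  have h1 : |D.Lam (h + ξ) - D.Lam h| ≤ t / 2 * (D.M0 ^ 2 * sq h) + 1 / (2 * t) * sq ξ +
      D.M0 / 2 * sq ξ := by
    have e1 := D.Lam_taylor h ξ
    have e2 := d2_dot_le (D.dL h) ξ t ht
    have e3 : sq (D.dL h) ≤ D.M0 ^ 2 * sq h := by
      have := D.dL_lip h 0
      rwa [D.dL_zero, sub_zero, sub_zero] at this
    have e4 : D.Lam (h + ξ) - D.Lam h =
        (D.Lam (h + ξ) - D.Lam h - dot (D.dL h) ξ) + dot (D.dL h) ξ := by ring
    rw [e4]
    refine (abs_add_le _ _).trans ?_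
    have e5 : t / 2 * sq (D.dL h) ≤ t / 2 * (D.M0 ^ 2 * sq h) := by gcongr
    linarith
  have h2 : |D.F (v + s) - D.F v| ≤ D.M0 * (t / 2 + 1 / (2 * t) * s ^ 2) + D.M0 / 2 * s ^ 2 := by
    have e1 := D.F_taylor v s
    have e2 := D.dF_le v
    have e3 : |D.dF v * s| ≤ D.M0 * (t / 2 + 1 / (2 * t) * s ^ 2) := by
      rw [abs_mul]
      have e4 : |s| ≤ t / 2 + 1 / (2 * t) * s ^ 2 := by
        have h1 : 0 ≤ (t - |s|) ^ 2 / (2 * t) := by positivity
        have h2 : (t - |s|) ^ 2 / (2 * t) = t / 2 + 1 / (2 * t) * |s| ^ 2 - |s| := by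
          field_simp
          ring
        rw [sq_abs] at h2
        linarith
      exact mul_le_mul e2 e4 (abs_nonneg _) hM.le
    have e4 : D.F (v + s) - D.F v = (D.F (v + s) - D.F v - D.dF v * s) + D.dF v * s := by ring
    rw [e4]
    refine (abs_add_le _ _).trans ?_
    linarith
  have h3 : D.L (v + s) (h + ξ) - D.L v h =
      (D.Lam (h + ξ) - D.Lam h) + (D.F (v + s) - D.F v) := by
    unfold Dat.L; ring
  rw [h3]
  refine (abs_add_le _ _).trans ?_
  have hs : 0 ≤ s ^ 2 := sq_nonneg s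
  have ht' : 0 < 1 / t := by positivity
  have e0 : 1 / (2 * t) = (1 / t) / 2 := by field_simp
  rw [e0] at h1 h2
  have k1 : 0 ≤ (1 / t) * D.M0 * sq ξ := by positivity
  have k2 : 0 ≤ (1 / t) * s ^ 2 := by positivity
  have k3 : 0 ≤ D.M0 * s ^ 2 := by positivity
  have k4 : 0 ≤ D.M0 * sq ξ := by positivity
  have k5 : 0 ≤ D.M0 * D.M0 * sq ξ := by positivity
  have k6 : 0 ≤ D.M0 * D.M0 * s ^ 2 := by positivity
  have k7 : 0 ≤ (1 / t) * D.M0 * s ^ 2 := by positivity
  have k8 : 0 ≤ (1 / t) * sq ξ := by positivity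
  have k9 : 0 ≤ t * (D.M0 ^ 2 * sq h) := by positivity
  have k10 : 0 ≤ t * D.M0 := by positivity
  nlinarith

/-- clamping to `[0,1]` -/
private noncomputable def d2_cl (v : ℝ) : ℝ := max 0 (min v 1)

private theorem d2_cl_nonneg (v : ℝ) : 0 ≤ d2_cl v := le_max_left _ _

private theorem d2_cl_le (v : ℝ) : d2_cl v ≤ 1 := max_le zero_le_one (min_le_right _ _)

private theorem d2_cl_eq {v : ℝ} (h0 : 0 ≤ v) (h1 : v ≤ 1) : d2_cl v = v := by
  unfold d2_cl
  rw [min_eq_left h1, max_eq_right h0]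

private theorem d2_cl_neg {v : ℝ} (h0 : v ≤ 0) : d2_cl v = 0 := by
  unfold d2_cl
  rw [max_eq_left ((min_le_left _ _).trans h0)]

private theorem d2_cl_one {v : ℝ} (h0 : 1 ≤ v) : d2_cl v = 1 := by
  unfold d2_cl
  rw [min_eq_right h0, max_eq_right zero_le_one]

private theorem d2_cl_lip : LipschitzWith 1 d2_cl :=
  (LipschitzWith.id.min_const 1).const_max 0

private theorem d2_cl_abs (v a : ℝ) (h0 : 0 ≤ a) (h1 : a ≤ 1) : |d2_cl v - v| ≤ |a - v| := by
  rcases le_total v 0 with hv | hv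
  · rw [d2_cl_neg hv, zero_sub, abs_neg, abs_of_nonpos hv, abs_of_nonneg (by linarith)]
    linarith
  · rcases le_total v 1 with hv1 | hv1
    · rw [d2_cl_eq hv hv1, sub_self, abs_zero]
      exact abs_nonneg _
    · rw [d2_cl_one hv1, abs_of_nonpos (by linarith), abs_of_nonpos (by linarith)]
      linarith

/-- truncation decreases the Lagrangian (at every point) -/
private theorem d2_trunc (D : Dat d) (f : (Fin d → ℝ) → ℝ) (hf : Continuous f) (x : Fin d → ℝ) :
    D.L (d2_cl (f x)) (gr (fun y => d2_cl (f y)) x) ≤ D.L (f x) (gr f x) := by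
  rcases le_or_gt (f x) 0 with h | h
  · have hm : IsLocalMin (fun y => d2_cl (f y)) x := by
      refine Eventually.of_forall fun y => ?_
      show d2_cl (f x) ≤ d2_cl (f y)
      rw [d2_cl_neg h]
      exact d2_cl_nonneg _
    have h0 : gr (fun y => d2_cl (f y)) x = 0 := by
      unfold gr
      rw [hm.fderiv_eq_zero]
      rfl
    rw [h0, d2_cl_neg h]
    have : D.L 0 0 = 0 := by
      unfold Dat.L
      rw [D.Lam_zero, D.F_zero, add_zero]
    rw [this]
    exact d2_L_nonneg D _ _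
  · rcases le_or_gt 1 (f x) with h1 | h1
    · have hm : IsLocalMax (fun y => d2_cl (f y)) x := by
        refine Eventually.of_forall fun y => ?_
        show d2_cl (f y) ≤ d2_cl (f x)
        rw [d2_cl_one h1]
        exact d2_cl_le _
      have h0 : gr (fun y => d2_cl (f y)) x = 0 := by
        unfold gr
        rw [hm.fderiv_eq_zero]
        rfl
      rw [h0, d2_cl_one h1]
      have : D.L 1 0 = 0 := by
        unfold Dat.L
        rw [D.Lam_zero, D.F_one, add_zero]
      rw [this]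
      exact d2_L_nonneg D _ _
    · have he : (fun y => d2_cl (f y)) =ᶠ[𝓝 x] f := by
        have h2 : ∀ᶠ y in 𝓝 x, f y ∈ Ioo 0 1 := hf.continuousAt.eventually (Ioo_mem_nhds h h1)
        filter_upwards [h2] with y hy
        exact d2_cl_eq hy.1.le hy.2.le
      have h0 : gr (fun y => d2_cl (f y)) x = gr f x := by
        unfold gr
        rw [he.fderiv_eq]
      rw [h0, d2_cl_eq h.le h1.le]

/-! ### measurability and integrability -/

private theorem d2_gr_meas (u : (Fin d → ℝ) → ℝ) : Measurable (gr u) := by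
  refine measurable_pi_lambda _ fun i => ?_
  exact measurable_fderiv_apply_const ℝ u _

private theorem d2_gr_bdd {u : (Fin d → ℝ) → ℝ} (hu : Lip u) : ∃ C : ℝ, ∀ x, sq (gr u x) ≤ C := by
  obtain ⟨K, hK⟩ := hu
  refine ⟨∑ _i : Fin d, (K : ℝ) ^ 2, fun x => ?_⟩
  unfold sq
  refine Finset.sum_le_sum fun i _ => ?_
  have h1 : ‖gr u x i‖ ≤ K := by
    unfold gr
    refine (ContinuousLinearMap.le_opNorm _ _).trans ?_
    have h2 : ‖fderiv ℝ u x‖ ≤ K := norm_fderiv_le_of_lipschitz ℝ hK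
    have h3 : ‖(Pi.single i (1 : ℝ) : Fin d → ℝ)‖ = 1 := by
      rw [Pi.norm_single, norm_one]
    rw [h3, mul_one]
    exact h2
  rw [← sq_abs]
  exact pow_le_pow_left₀ (abs_nonneg _) h1 2

private theorem d2_lip_cont {u : (Fin d → ℝ) → ℝ} (hu : Lip u) : Continuous u := by
  obtain ⟨K, hK⟩ := hu
  exact hK.continuous

section meas

variable {μ : Measure (Fin d → ℝ)} [IsFiniteMeasure μ]

private theorem d2_int_bdd {f : (Fin d → ℝ) → ℝ} (hf : AEStronglyMeasurable f μ) {C : ℝ}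
    (hC : ∀ x, |f x| ≤ C) : Integrable f μ :=
  Integrable.of_bound hf C (Eventually.of_forall hC)

private theorem d2_L_int (D : Dat d) {v : (Fin d → ℝ) → ℝ} {h : (Fin d → ℝ) → (Fin d → ℝ)}
    (hv : AEStronglyMeasurable v μ) (hh : AEStronglyMeasurable h μ)
    (hi : Integrable (fun x => sq (h x)) μ) : Integrable (fun x => D.L (v x) (h x)) μ := by
  have hm : AEStronglyMeasurable (fun x => D.L (v x) (h x)) μ :=
    (D.Lam_cont.comp_aestronglyMeasurable hh).add (D.F_cont.comp_aestronglyMeasurable hv)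
  refine Integrable.mono' ((hi.const_mul (D.M0 / 2)).add (integrable_const D.M0)) hm
    (Eventually.of_forall fun x => ?_)
  rw [Real.norm_eq_abs, abs_of_nonneg (d2_L_nonneg D _ _)]
  exact d2_L_le D _ _

omit [IsFiniteMeasure μ] in
private theorem d2_sq_int {h h' : (Fin d → ℝ) → (Fin d → ℝ)}
    (hh' : AEStronglyMeasurable h' μ)
    (hi : Integrable (fun x => sq (h x)) μ) (hi' : Integrable (fun x => sq (h' x - h x)) μ) :
    Integrable (fun x => sq (h' x)) μ := by
  refine Integrable.mono' ((hi.const_mul 2).add (hi'.const_mul 2))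
    (d2_continuous_sq.comp_aestronglyMeasurable hh') (Eventually.of_forall fun x => ?_)
  rw [Real.norm_eq_abs, abs_of_nonneg (d2_sq_nonneg _)]
  have := d2_sq_add_le (h x) (h' x - h x)
  rwa [add_sub_cancel] at this

private theorem d2_conv (D : Dat d) {v v' : (Fin d → ℝ) → ℝ} {h h' : (Fin d → ℝ) → (Fin d → ℝ)}
    (hv : AEStronglyMeasurable v μ) (hh : AEStronglyMeasurable h μ)
    (hv' : AEStronglyMeasurable v' μ) (hh' : AEStronglyMeasurable h' μ)
    (hi : Integrable (fun x => sq (h x)) μ)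
    (hi' : Integrable (fun x => (v' x - v x) ^ 2 + sq (h' x - h x)) μ) (t : ℝ) (ht : 0 < t) :
    |(∫ x, D.L (v' x) (h' x) ∂μ) - ∫ x, D.L (v x) (h x) ∂μ| ≤
      t * (D.M0 ^ 2 * (∫ x, sq (h x) ∂μ) + D.M0 * μ.real univ) +
      (1 / t + D.M0) * (1 + D.M0) * ∫ x, ((v' x - v x) ^ 2 + sq (h' x - h x)) ∂μ := by
  have hm2 : Integrable (fun x => sq (h' x - h x)) μ := by
    refine Integrable.mono' hi' (d2_continuous_sq.comp_aestronglyMeasurable (hh'.sub hh))
      (Eventually.of_forall fun x => ?_)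
    rw [Real.norm_eq_abs, abs_of_nonneg (d2_sq_nonneg _)]
    have := sq_nonneg (v' x - v x)
    linarith
  have hL' : Integrable (fun x => D.L (v' x) (h' x)) μ :=
    d2_L_int D hv' hh' (d2_sq_int hh' hi hm2)
  have hL : Integrable (fun x => D.L (v x) (h x)) μ := d2_L_int D hv hh hi
  rw [← integral_sub hL' hL]
  refine (abs_integral_le_integral_abs).trans ?_
  have hb : ∀ x, |D.L (v' x) (h' x) - D.L (v x) (h x)| ≤ t * (D.M0 ^ 2 * sq (h x) + D.M0) +
      (1 / t + D.M0) * (1 + D.M0) * ((v' x - v x) ^ 2 + sq (h' x - h x)) := by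
    intro x
    have := d2_L_diff D (v x) (v' x - v x) (h x) (h' x - h x) t ht
    rwa [add_sub_cancel, add_sub_cancel] at this
  have hI1 : Integrable (fun x => t * (D.M0 ^ 2 * sq (h x) + D.M0)) μ :=
    ((hi.const_mul (D.M0 ^ 2)).add (integrable_const D.M0)).const_mul t
  have hI2 : Integrable (fun x => (1 / t + D.M0) * (1 + D.M0) *
      ((v' x - v x) ^ 2 + sq (h' x - h x))) μ := hi'.const_mul _
  refine (integral_mono (hL'.sub hL).abs (hI1.add hI2) hb).trans (le_of_eq ?_)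
  show ∫ x, (t * (D.M0 ^ 2 * sq (h x) + D.M0) + (1 / t + D.M0) * (1 + D.M0) *
      ((v' x - v x) ^ 2 + sq (h' x - h x))) ∂μ = _
  rw [integral_add hI1 hI2, integral_const_mul, integral_const_mul,
    integral_add (hi.const_mul (D.M0 ^ 2)) (integrable_const D.M0), integral_const_mul,
    integral_const, smul_eq_mul]
  ring

private theorem d2_conv_lim (D : Dat d) {v : (Fin d → ℝ) → ℝ} {h : (Fin d → ℝ) → (Fin d → ℝ)}
    {v' : ℕ → (Fin d → ℝ) → ℝ} {h' : ℕ → (Fin d → ℝ) → (Fin d → ℝ)}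
    (hv : AEStronglyMeasurable v μ) (hh : AEStronglyMeasurable h μ)
    (hv' : ∀ j, AEStronglyMeasurable (v' j) μ) (hh' : ∀ j, AEStronglyMeasurable (h' j) μ)
    (hi : Integrable (fun x => sq (h x)) μ)
    (hc : ∀ ε : ℝ, 0 < ε → ∃ N, ∀ j, N ≤ j →
      Integrable (fun x => (v' j x - v x) ^ 2 + sq (h' j x - h x)) μ ∧
      ∫ x, ((v' j x - v x) ^ 2 + sq (h' j x - h x)) ∂μ ≤ ε) :
    Tendsto (fun j => ∫ x, D.L (v' j x) (h' j x) ∂μ) atTop (𝓝 (∫ x, D.L (v x) (h x) ∂μ)) := by
  have hM := D.M0_pos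
  set A := D.M0 ^ 2 * (∫ x, sq (h x) ∂μ) + D.M0 * μ.real univ with hA
  have hA0 : 0 ≤ A := by
    have h1 : 0 ≤ ∫ x, sq (h x) ∂μ := integral_nonneg fun x => d2_sq_nonneg _
    have h2 : 0 ≤ μ.real univ := measureReal_nonneg
    positivity
  rw [Metric.tendsto_atTop]
  intro ε hε
  set t := ε / (4 * (A + 1)) with ht
  have ht0 : 0 < t := by positivity
  set C := (1 / t + D.M0) * (1 + D.M0) with hC
  have hC0 : 0 < C := by positivity
  obtain ⟨N, hN⟩ := hc (ε / (4 * C)) (by positivity)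
  refine ⟨N, fun j hj => ?_⟩
  obtain ⟨h1, h2⟩ := hN j hj
  have h3 := d2_conv D hv hh (hv' j) (hh' j) hi h1 t ht0
  rw [Real.dist_eq]
  refine lt_of_le_of_lt h3 ?_
  have h4 : t * A ≤ ε / 4 := by
    rw [ht, div_mul_eq_mul_div, div_le_div_iff₀ (by positivity) (by norm_num)]
    nlinarith
  have h5 : C * ∫ x, ((v' j x - v x) ^ 2 + sq (h' j x - h x)) ∂μ ≤ ε / 4 := by
    calc C * ∫ x, ((v' j x - v x) ^ 2 + sq (h' j x - h x)) ∂μ ≤ C * (ε / (4 * C)) := by gcongr
      _ = ε / 4 := by field_simp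
  linarith

omit [IsFiniteMeasure μ] in
private theorem d2_toInt {f : (Fin d → ℝ) → ℝ} (hf : AEStronglyMeasurable f μ)
    (h0 : ∀ x, 0 ≤ f x) {ε : ℝ} (hε : 0 ≤ ε)
    (h : ∫⁻ x, ENNReal.ofReal (f x) ∂μ ≤ ENNReal.ofReal ε) :
    Integrable f μ ∧ ∫ x, f x ∂μ ≤ ε := by
  have h1 : Integrable f μ := by
    refine ⟨hf, ?_⟩
    rw [hasFiniteIntegral_iff_ofReal (Eventually.of_forall h0)]
    exact lt_of_le_of_lt h ENNReal.ofReal_lt_top
  refine ⟨h1, ?_⟩
  rw [integral_eq_lintegral_of_nonneg_ae (Eventually.of_forall h0) hf]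
  exact ENNReal.toReal_le_of_le_ofReal hε h

end meas

private theorem d2_lsp {u : (Fin d → ℝ) → ℝ} (hu : Lip u) : LSP u (gr u) := by
  refine ⟨(d2_lip_cont hu).aestronglyMeasurable, (d2_gr_meas u).aestronglyMeasurable,
    fun _ => u, fun _ => hu, fun R => ?_⟩
  have h0 : ∀ x, ENNReal.ofReal ((u x - u x) ^ 2 + sq (gr u x - gr u x)) = 0 := by
    intro x
    rw [sub_self, sub_self]
    simp [sq]
  simp only [h0, lintegral_zero]
  exact tendsto_const_nhds

private theorem d2_gr_out {w U : (Fin d → ℝ) → ℝ} {ρ : ℝ}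
    (h : ∀ x, x ∉ closedBall (0 : Fin d → ℝ) ρ → U x = w x) {x : Fin d → ℝ}
    (hx : x ∉ closedBall (0 : Fin d → ℝ) ρ) : gr U x = gr w x := by
  have he : U =ᶠ[𝓝 x] w := by
    filter_upwards [isClosed_closedBall.isOpen_compl.mem_nhds hx] with y hy
    exact h y hy
  unfold gr
  rw [he.fderiv_eq]

private theorem d2_sq_sub_comm (a b : Fin d → ℝ) : sq (a - b) = sq (b - a) := by
  unfold sq
  refine Finset.sum_congr rfl fun i _ => ?_
  rw [Pi.sub_apply, Pi.sub_apply]
  ring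

/-- if nonnegative integrals bound a fixed one and tend to zero, the function vanishes -/
private theorem d2_ae_zero {μ : Measure (Fin d → ℝ)} {f : (Fin d → ℝ) → ℝ}
    (hf : AEMeasurable f μ) (h0 : ∀ x, 0 ≤ f x) {a : ℕ → ℝ≥0∞} (ha : Tendsto a atTop (𝓝 0))
    (hle : ∀ j, ∫⁻ x, ENNReal.ofReal (f x) ∂μ ≤ a j) : ∀ᵐ x ∂μ, f x = 0 := by
  have h1 : ∫⁻ x, ENNReal.ofReal (f x) ∂μ = 0 :=
    le_antisymm (ge_of_tendsto' ha hle) bot_le
  rw [lintegral_eq_zero_iff' hf.ennreal_ofReal] at h1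
  filter_upwards [h1] with x hx
  exact le_antisymm (ENNReal.ofReal_eq_zero.1 hx) (h0 x)

theorem dExist (hCauchy : DCauchy) (hRellich : SRellich) (hComplete : SComplete) : DExist := by
  intro d D w ρ hw hw01 hρ
  classical
  set B : Set (Fin d → ℝ) := closedBall 0 ρ with hB
  have hBm : MeasurableSet B := isClosed_closedBall.measurableSet
  have hfin : IsFiniteMeasure (volume.restrict B) :=
    isFiniteMeasure_restrict.2 (isCompact_closedBall _ _).measure_lt_top.ne
  have hm0 := D.m0_pos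
  have hM0 := D.M0_pos
  set En : ((Fin d → ℝ) → ℝ) → ℝ := fun U => ∫ x in B, D.L (U x) (gr U x) with hEn
  have hEn0 : ∀ U, 0 ≤ En U := fun U => integral_nonneg fun x => d2_L_nonneg D _ _
  -- the infimum
  set S : Set ℝ := En '' {U | Comp w ρ U} with hS
  have hwc : Comp w ρ w := ⟨hw, fun x => (hw01 x).1, fun x => (hw01 x).2, fun _ _ => rfl⟩
  have hSne : S.Nonempty := ⟨En w, w, hwc, rfl⟩
  have hSb : BddBelow S := ⟨0, by rintro _ ⟨U, -, rfl⟩; exact hEn0 U⟩
  set m := sInf S with hm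
  have hmle : ∀ U, Comp w ρ U → m ≤ En U := fun U hU => csInf_le hSb ⟨U, hU, rfl⟩
  have hex : ∀ j : ℕ, ∃ U, Comp w ρ U ∧ En U < m + 1 / ((j : ℝ) + 1) := by
    intro j
    have : sInf S < m + 1 / ((j : ℝ) + 1) := by
      have : (0 : ℝ) < 1 / ((j : ℝ) + 1) := by positivity
      linarith
    obtain ⟨_, ⟨U, hU, rfl⟩, hlt⟩ := exists_lt_of_csInf_lt hSne this
    exact ⟨U, hU, hlt⟩
  choose U hU hUE using hex
  -- integrability of the gradients
  have hgi : ∀ V, Lip V → IntegrableOn (fun x => sq (gr V x)) B := by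
    intro V hV
    obtain ⟨C, hC⟩ := d2_gr_bdd hV
    refine d2_int_bdd (d2_continuous_sq.comp_aestronglyMeasurable
      (d2_gr_meas V).aestronglyMeasurable) (C := C) fun x => ?_
    rw [abs_of_nonneg (d2_sq_nonneg _)]
    exact hC x
  have hLi : ∀ V, Lip V → IntegrableOn (fun x => D.L (V x) (gr V x)) B := fun V hV =>
    d2_L_int D (d2_lip_cont hV).aestronglyMeasurable (d2_gr_meas V).aestronglyMeasurable (hgi V hV)
  have hgC : ∀ j, ∫ x in B, sq (gr (U j) x) ≤ 2 / D.m0 * (m + 1) := by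
    intro j
    have h1 : D.m0 / 2 * ∫ x in B, sq (gr (U j) x) ≤ En (U j) := by
      rw [← integral_const_mul]
      refine integral_mono ((hgi _ (hU j).lip).const_mul _) (hLi _ (hU j).lip) fun x => ?_
      show D.m0 / 2 * sq (gr (U j) x) ≤ D.Lam (gr (U j) x) + D.F (U j x)
      have := D.Lam_lower (gr (U j) x)
      have := D.F_nonneg (U j x)
      linarith
    have h2 : (1 : ℝ) / ((j : ℝ) + 1) ≤ 1 := by
      rw [div_le_one (by positivity)]
      have : (0 : ℝ) ≤ j := Nat.cast_nonneg j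
      linarith
    have h3 := hUE j
    calc ∫ x in B, sq (gr (U j) x) = 2 / D.m0 * (D.m0 / 2 * ∫ x in B, sq (gr (U j) x)) := by
          field_simp
      _ ≤ 2 / D.m0 * (m + 1) := by
          gcongr
          linarith
  obtain ⟨φ, hφ, hφc⟩ := hRellich d w ρ _ U hU hgC
  set V : ℕ → (Fin d → ℝ) → ℝ := fun j => U (φ j) with hV
  have hVc : ∀ j, Comp w ρ (V j) := fun j => hU _
  have hVE : ∀ j : ℕ, En (V j) ≤ m + 1 / ((j : ℝ) + 1) := by
    intro j
    refine (hUE (φ j)).le.trans ?_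
    have h1 : (j : ℝ) ≤ φ j := by exact_mod_cast hφ.le_apply
    gcongr
  have hVm : ∀ j, AEStronglyMeasurable (V j) (volume.restrict B) := fun j =>
    (d2_lip_cont (hVc j).lip).aestronglyMeasurable
  have hGm : ∀ j, AEStronglyMeasurable (gr (V j)) (volume.restrict B) := fun j =>
    (d2_gr_meas _).aestronglyMeasurable
  -- Cauchy
  have hFi : ∀ i j, IntegrableOn (fun x => (V i x - V j x) ^ 2 + sq (gr (V i) x - gr (V j) x)) B := by
    intro i j
    obtain ⟨Ci, hCi⟩ := d2_gr_bdd (hVc i).lip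
    obtain ⟨Cj, hCj⟩ := d2_gr_bdd (hVc j).lip
    refine d2_int_bdd (C := 1 + (2 * Ci + 2 * Cj)) ?_ ?_
    · exact (((hVm i).sub (hVm j)).pow 2).add
        (d2_continuous_sq.comp_aestronglyMeasurable ((hGm i).sub (hGm j)))
    · intro x
      have h1 : (V i x - V j x) ^ 2 ≤ 1 := by
        have a1 := (hVc i).nonneg x
        have a2 := (hVc i).le_one x
        have a3 := (hVc j).nonneg x
        have a4 := (hVc j).le_one x
        rw [sq_le_one_iff_abs_le_one, abs_le]
        constructor <;> linarith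
      have h2 := d2_sq_add_le (gr (V i) x) (-(gr (V j) x))
      have h3 : sq (-(gr (V j) x)) = sq (gr (V j) x) := by
        unfold sq
        refine Finset.sum_congr rfl fun k _ => ?_
        rw [Pi.neg_apply, neg_sq]
      rw [h3, ← sub_eq_add_neg] at h2
      have h4 := hCi x
      have h5 := hCj x
      rw [abs_of_nonneg (add_nonneg (sq_nonneg _) (d2_sq_nonneg _))]
      linarith
  have hCau : ∀ ε : ℝ, 0 < ε → ∃ N, ∀ i j, N ≤ i → N ≤ j →
      ∫ x in B, ((V i x - V j x) ^ 2 + sq (gr (V i) x - gr (V j) x)) ≤ ε := by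
    intro ε hε
    set e1 := min (ε / 2) (D.m0 * ε / (4 * D.M0)) with he1
    have he1p : 0 < e1 := lt_min (by positivity) (by positivity)
    obtain ⟨N1, hN1⟩ := hφc e1 he1p
    obtain ⟨N2, hN2⟩ := exists_nat_one_div_lt (show (0 : ℝ) < D.m0 * ε / 32 by positivity)
    refine ⟨max N1 N2, fun i j hi hj => ?_⟩
    have h1 := hN1 i j ((le_max_left _ _).trans hi) ((le_max_left _ _).trans hj)
    have h2 := hCauchy d D w ρ m hw hmle (V i) (V j) (hVc i) (hVc j)
    have hsi : IntegrableOn (fun x => (V i x - V j x) ^ 2) B := by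
      refine Integrable.mono' (hFi i j) (((hVm i).sub (hVm j)).pow 2)
        (Eventually.of_forall fun x => ?_)
      rw [Real.norm_eq_abs, abs_of_nonneg (sq_nonneg _)]
      have := d2_sq_nonneg (gr (V i) x - gr (V j) x)
      linarith
    have hgi' : IntegrableOn (fun x => sq (gr (V i) x - gr (V j) x)) B := by
      refine Integrable.mono' (hFi i j)
        (d2_continuous_sq.comp_aestronglyMeasurable ((hGm i).sub (hGm j)))
        (Eventually.of_forall fun x => ?_)
      rw [Real.norm_eq_abs, abs_of_nonneg (d2_sq_nonneg _)]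
      have := sq_nonneg (V i x - V j x)
      linarith
    rw [integral_add hsi hgi']
    have hE : ∀ k, N2 ≤ k → En (V k) - m ≤ D.m0 * ε / 32 := by
      intro k hk
      have a1 := hVE k
      have a2 : 1 / ((k : ℝ) + 1) ≤ 1 / ((N2 : ℝ) + 1) := by
        have : (N2 : ℝ) ≤ k := by exact_mod_cast hk
        gcongr
      linarith
    have a1 := hE i ((le_max_right _ _).trans hi)
    have a2 := hE j ((le_max_right _ _).trans hj)
    have b1 : ∫ x in B, (V i x - V j x) ^ 2 ≤ ε / 2 := h1.trans (min_le_left _ _)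
    have b2 : D.M0 / 8 * ∫ x in B, (V i x - V j x) ^ 2 ≤ D.m0 * ε / 32 := by
      calc D.M0 / 8 * ∫ x in B, (V i x - V j x) ^ 2 ≤ D.M0 / 8 * (D.m0 * ε / (4 * D.M0)) := by
            gcongr
            exact h1.trans (min_le_right _ _)
        _ = D.m0 * ε / 32 := by
            field_simp
            ring
    have b3 : D.m0 / 8 * ∫ x in B, sq (gr (V i) x - gr (V j) x) ≤ D.m0 * ε / 16 := by
      have h2' : D.m0 / 8 * ∫ x in B, sq (gr (V i) x - gr (V j) x) ≤ (En (V i) - m) / 2 +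
        (En (V j) - m) / 2 + D.M0 / 8 * ∫ x in B, (V i x - V j x) ^ 2 := h2
      linarith
    have b4 : ∫ x in B, sq (gr (V i) x - gr (V j) x) ≤ ε / 2 := by
      have : D.m0 / 8 * ∫ x in B, sq (gr (V i) x - gr (V j) x) ≤ D.m0 / 8 * (ε / 2) := by
        linarith
      exact le_of_mul_le_mul_left this (by positivity)
    linarith
  have hzero : ∀ i j x, x ∉ B → (V i x - V j x) ^ 2 + sq (gr (V i) x - gr (V j) x) = 0 := by
    intro i j x hx
    rw [(hVc i).out x hx, (hVc j).out x hx, d2_gr_out (hVc i).out hx, d2_gr_out (hVc j).out hx]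
    simp [sq]
  obtain ⟨u', g', hlsp', hconv⟩ := hComplete d V (fun j => gr (V j))
    (fun j => d2_lsp (hVc j).lip) (by
      intro R ε hε
      obtain ⟨N, hN⟩ := hCau ε hε
      refine ⟨N, fun i j hi hj => ?_⟩
      refine (setLIntegral_le_lintegral _ _).trans ?_
      have h1 : (fun x => ENNReal.ofReal ((V i x - V j x) ^ 2 + sq (gr (V i) x - gr (V j) x))) =
          B.indicator (fun x => ENNReal.ofReal ((V i x - V j x) ^ 2 +
            sq (gr (V i) x - gr (V j) x))) := by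
        funext x
        by_cases hx : x ∈ B
        · rw [indicator_of_mem hx]
        · rw [indicator_of_notMem hx, hzero i j x hx, ENNReal.ofReal_zero]
      rw [h1, lintegral_indicator hBm, ← ofReal_integral_eq_lintegral_ofReal (hFi i j)
        (Eventually.of_forall fun x => add_nonneg (sq_nonneg _) (d2_sq_nonneg _))]
      exact ENNReal.ofReal_le_ofReal (hN i j hi hj))
  -- the limit inside and outside the cube
  have hum' : AEStronglyMeasurable u' volume := hlsp'.mu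
  have hgm' : AEStronglyMeasurable g' volume := hlsp'.mg
  have hin : ∀ᵐ x, x ∈ B → d2_cl (u' x) = u' x := by
    have hmeas : AEMeasurable (fun x => (d2_cl (u' x) - u' x) ^ 2) (volume.restrict B) :=
      (((d2_cl_lip.continuous.comp_aestronglyMeasurable hum'.restrict).sub
        hum'.restrict).pow 2).aemeasurable
    have h1 := d2_ae_zero hmeas (fun x => sq_nonneg _) (hconv ρ) (fun j => by
      refine lintegral_mono fun x => ENNReal.ofReal_le_ofReal ?_
      have h2 := d2_cl_abs (u' x) (V j x) ((hVc j).nonneg x) ((hVc j).le_one x)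
      have h3 : (d2_cl (u' x) - u' x) ^ 2 ≤ (V j x - u' x) ^ 2 := sq_le_sq.2 h2
      have h4 := d2_sq_nonneg (gr (V j) x - g' x)
      linarith)
    rw [ae_restrict_iff' hBm] at h1
    filter_upwards [h1] with x hx hxB
    have := hx hxB
    rw [sq_eq_zero_iff, sub_eq_zero] at this
    exact this
  have hout : ∀ᵐ x, x ∉ B → w x = u' x ∧ gr w x = g' x := by
    have h0 : ∀ R : ℕ, ∀ᵐ x, x ∈ closedBall (0 : Fin d → ℝ) (R : ℝ) ∩ Bᶜ →
        (w x - u' x) ^ 2 + sq (gr w x - g' x) = 0 := by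
      intro R
      have hms : MeasurableSet (closedBall (0 : Fin d → ℝ) (R : ℝ) ∩ Bᶜ) :=
        isClosed_closedBall.measurableSet.inter hBm.compl
      have hmeas : AEMeasurable (fun x => (w x - u' x) ^ 2 + sq (gr w x - g' x))
          (volume.restrict (closedBall (0 : Fin d → ℝ) (R : ℝ) ∩ Bᶜ)) := by
        have h1 : AEStronglyMeasurable w volume := (d2_lip_cont hw).aestronglyMeasurable
        have h2 : AEStronglyMeasurable (gr w) volume := (d2_gr_meas w).aestronglyMeasurable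
        exact (((h1.sub hum').pow 2).add
          (d2_continuous_sq.comp_aestronglyMeasurable (h2.sub hgm'))).restrict.aemeasurable
      have h1 := d2_ae_zero hmeas (fun x => add_nonneg (sq_nonneg _) (d2_sq_nonneg _))
        (hconv R) (fun j => by
          calc ∫⁻ x in closedBall (0 : Fin d → ℝ) (R : ℝ) ∩ Bᶜ,
                ENNReal.ofReal ((w x - u' x) ^ 2 + sq (gr w x - g' x))
              = ∫⁻ x in closedBall (0 : Fin d → ℝ) (R : ℝ) ∩ Bᶜ,
                ENNReal.ofReal ((V j x - u' x) ^ 2 + sq (gr (V j) x - g' x)) := by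
                refine setLIntegral_congr_fun hms fun x hx => ?_
                rw [(hVc j).out x hx.2, d2_gr_out (hVc j).out hx.2]
            _ ≤ _ := lintegral_mono_set inter_subset_left)
      rwa [ae_restrict_iff' hms] at h1
    filter_upwards [ae_all_iff.2 h0] with x hx hxB
    obtain ⟨R, hR⟩ := exists_nat_ge ‖x‖
    have h1 := hx R ⟨mem_closedBall_zero_iff.2 hR, hxB⟩
    have h2 := sq_nonneg (w x - u' x)
    have h3 := d2_sq_nonneg (gr w x - g' x)
    have h4 : (w x - u' x) ^ 2 = 0 := by linarith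
    have h5 : sq (gr w x - g' x) = 0 := by linarith
    refine ⟨sub_eq_zero.1 (pow_eq_zero_iff (two_ne_zero)|>.1 h4), ?_⟩
    unfold sq at h5
    rw [Finset.sum_eq_zero_iff_of_nonneg fun i _ => sq_nonneg _] at h5
    funext i
    have h6 := h5 i (Finset.mem_univ i)
    rw [sq_eq_zero_iff, Pi.sub_apply, sub_eq_zero] at h6
    exact h6
  set u : (Fin d → ℝ) → ℝ := fun x => if x ∈ B then d2_cl (u' x) else w x with hu
  have huu' : u =ᵐ[volume] u' := by
    filter_upwards [hin, hout] with x h1 h2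
    by_cases hx : x ∈ B
    · simp only [hu, if_pos hx]
      exact h1 hx
    · simp only [hu, if_neg hx]
      exact (h2 hx).1
  have hlsp : LSP u g' := by
    refine ⟨hum'.congr huu'.symm, hgm', ?_⟩
    obtain ⟨W, hW1, hW2⟩ := hlsp'.app
    refine ⟨W, hW1, fun R => ?_⟩
    refine (hW2 R).congr fun j => ?_
    refine lintegral_congr_ae ?_
    filter_upwards [ae_restrict_of_ae huu'] with x hx
    rw [hx]
  have hum : AEStronglyMeasurable u (volume.restrict B) := hlsp.mu.restrict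
  have hgm : AEStronglyMeasurable g' (volume.restrict B) := hgm'.restrict
  -- convergence in the cube
  have hlim : ∀ ε : ℝ, 0 < ε → ∃ N, ∀ j, N ≤ j →
      Integrable (fun x => (V j x - u x) ^ 2 + sq (gr (V j) x - g' x)) (volume.restrict B) ∧
      ∫ x in B, ((V j x - u x) ^ 2 + sq (gr (V j) x - g' x)) ≤ ε := by
    intro ε hε
    have h1 := (ENNReal.tendsto_nhds_zero.1 (hconv ρ)) (ENNReal.ofReal ε)
      (ENNReal.ofReal_pos.2 hε)
    obtain ⟨N, hN⟩ := eventually_atTop.1 h1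
    refine ⟨N, fun j hj => ?_⟩
    refine d2_toInt ?_ (fun x => add_nonneg (sq_nonneg _) (d2_sq_nonneg _)) hε.le ?_
    · exact (((hVm j).sub hum).pow 2).add
        (d2_continuous_sq.comp_aestronglyMeasurable ((hGm j).sub hgm))
    · refine le_trans (le_of_eq ?_) (hN j hj)
      refine lintegral_congr_ae ?_
      filter_upwards [ae_restrict_of_ae huu'] with x hx
      rw [hx]
  have hgi2 : Integrable (fun x => sq (g' x)) (volume.restrict B) := by
    obtain ⟨N, hN⟩ := hlim 1 one_pos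
    have h1 := (hN N le_rfl).1
    refine d2_sq_int hgm (hgi _ (hVc N).lip) ?_
    refine Integrable.mono' h1 (d2_continuous_sq.comp_aestronglyMeasurable (hgm.sub (hGm N)))
      (Eventually.of_forall fun x => ?_)
    rw [Real.norm_eq_abs, abs_of_nonneg (d2_sq_nonneg _), d2_sq_sub_comm]
    have := sq_nonneg (V N x - u x)
    linarith
  have hE1 : Tendsto (fun j => En (V j)) atTop (𝓝 (∫ x in B, D.L (u x) (g' x))) :=
    d2_conv_lim D hum hgm hVm hGm hgi2 hlim
  have hE2 : Tendsto (fun j => En (V j)) atTop (𝓝 m) := by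
    have h1 : Tendsto (fun j : ℕ => m + 1 / ((j : ℝ) + 1)) atTop (𝓝 (m + 0)) :=
      tendsto_const_nhds.add tendsto_one_div_add_atTop_nhds_zero_nat
    rw [add_zero] at h1
    exact tendsto_of_tendsto_of_tendsto_of_le_of_le tendsto_const_nhds h1
      (fun j => hmle _ (hVc j)) hVE
  have hEm : ∫ x in B, D.L (u x) (g' x) = m := tendsto_nhds_unique hE1 hE2
  refine ⟨u, g', hlsp, ?_, ?_, ?_, ?_, ?_, ?_⟩
  · intro x
    by_cases hx : x ∈ B
    · simp only [hu, if_pos hx]
      exact d2_cl_nonneg _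
    · simp only [hu, if_neg hx]
      exact (hw01 x).1
  · intro x
    by_cases hx : x ∈ B
    · simp only [hu, if_pos hx]
      exact d2_cl_le _
    · simp only [hu, if_neg hx]
      exact (hw01 x).2
  · intro x hx
    exact if_neg hx
  · filter_upwards [hout] with x hx hxB
    exact (hx hxB).2.symm
  · intro ψ hψ hψ0
    show ∫ x in B, D.L (u x) (g' x) ≤ ∫ x in B, D.L (u x + ψ x) (g' x + gr ψ x)
    rw [hEm]
    have hψm : AEStronglyMeasurable ψ (volume.restrict B) := (d2_lip_cont hψ).aestronglyMeasurable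
    have hψg : AEStronglyMeasurable (gr ψ) (volume.restrict B) :=
      (d2_gr_meas ψ).aestronglyMeasurable
    have hgi3 : Integrable (fun x => sq (g' x + gr ψ x)) (volume.restrict B) := by
      refine d2_sq_int (h := g') (hgm.add hψg) hgi2 ?_
      simp only [add_sub_cancel_left]
      exact hgi ψ hψ
    have hlim2 : Tendsto (fun j => ∫ x in B, D.L (V j x + ψ x) (gr (V j) x + gr ψ x)) atTop
        (𝓝 (∫ x in B, D.L (u x + ψ x) (g' x + gr ψ x))) := by
      refine d2_conv_lim D (hum.add hψm) (hgm.add hψg) (fun j => (hVm j).add hψm)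
        (fun j => (hGm j).add hψg) hgi3 ?_
      simp only [add_sub_add_right_eq_sub]
      exact hlim
    refine ge_of_tendsto' hlim2 fun j => ?_
    obtain ⟨Kj, hKj⟩ := (hVc j).lip
    obtain ⟨Kψ, hKψ⟩ := hψ
    have hsum : LipschitzWith (Kj + Kψ) (fun y => V j y + ψ y) := hKj.add hKψ
    have hcomp : Comp w ρ (fun y => d2_cl (V j y + ψ y)) := by
      refine ⟨⟨_, d2_cl_lip.comp hsum⟩, fun x => d2_cl_nonneg _, fun x => d2_cl_le _, ?_⟩
      intro x hx
      show d2_cl (V j x + ψ x) = w x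
      rw [(hVc j).out x hx, hψ0 x hx, add_zero]
      exact d2_cl_eq (hw01 x).1 (hw01 x).2
    refine (hmle _ hcomp).trans ?_
    have h1 : En (fun y => d2_cl (V j y + ψ y)) ≤
        ∫ x in B, D.L (V j x + ψ x) (gr (fun y => V j y + ψ y) x) :=
      integral_mono (hLi _ hcomp.lip) (hLi _ ⟨_, hsum⟩) fun x =>
        d2_trunc D (fun y => V j y + ψ y) hsum.continuous x
    refine h1.trans (le_of_eq ?_)
    refine integral_congr_ae ?_
    filter_upwards [ae_restrict_of_ae hKj.ae_differentiableAt,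
      ae_restrict_of_ae hKψ.ae_differentiableAt] with x hx1 hx2
    have h2 : gr (fun y => V j y + ψ y) x = gr (V j) x + gr ψ x := by
      unfold gr
      funext i
      rw [fderiv_fun_add hx1 hx2]
      rfl
    rw [h2]
  · intro ε hε
    obtain ⟨N1, hN1⟩ := hlim ε hε
    obtain ⟨N2, hN2⟩ := exists_nat_one_div_lt hε
    set N := max N1 N2 with hN
    obtain ⟨h1, h2⟩ := hN1 N (le_max_left _ _)
    refine ⟨V N, hVc N, ?_, ?_⟩
    · refine le_trans (integral_mono_of_nonneg (Eventually.of_forall fun x => sq_nonneg _) h1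
        (Eventually.of_forall fun x => ?_)) h2
      have := d2_sq_nonneg (gr (V N) x - g' x)
      show (V N x - u x) ^ 2 ≤ (V N x - u x) ^ 2 + sq (gr (V N) x - g' x)
      linarith
    · show En (V N) ≤ En w + ε
      have h3 := hVE N
      have h4 := hmle w hwc
      have h5 : 1 / ((N : ℝ) + 1) ≤ 1 / ((N2 : ℝ) + 1) := by
        have : (N2 : ℝ) ≤ N := by exact_mod_cast le_max_right _ _
        gcongr
      linarith

end Pool.Agent.Work.MP_85f2da_an

end

section

set_option autoImplicit false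

/-!
# MP_85f2da_an, D10: a minimiser is Lipschitz inside
-/

open MeasureTheory Filter Set Metric
open scoped ENNReal Topology ContDiff

namespace Pool.Agent.Work.MP_85f2da_an

theorem dLipIn (hD : DDiff) (hR : SRep) : DLipIn := by
  intro d D hd
  obtain ⟨C, hC, hCd⟩ := hD d D hd
  refine ⟨Real.toNNReal (C + 1), ?_⟩
  intro w ρ u g hB hρ
  have key : ∀ h : Fin d → ℝ, ‖h‖ ≤ 1 →
      ∀ᵐ x, x ∈ closedBall (0 : Fin d → ℝ) (ρ - 8) → |u (x + h) - u x| ≤ C * ‖h‖ := by
    intro h hh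
    have hne : Nonempty (closedBall (0 : Fin d → ℝ) (ρ - 8)) :=
      ⟨⟨0, by simp; linarith⟩⟩
    have hall : ∀ n : ℕ, ∀ᵐ x, x ∈ closedBall
        ((TopologicalSpace.denseSeq (closedBall (0 : Fin d → ℝ) (ρ - 8)) n : Fin d → ℝ)) 1 →
        |u (x + h) - u x| ≤ C * ‖h‖ := by
      intro n
      refine hCd w ρ u g hB _ h hh ?_
      have := (TopologicalSpace.denseSeq (closedBall (0 : Fin d → ℝ) (ρ - 8)) n).2
      rw [mem_closedBall, dist_zero_right] at this
      linarith
    filter_upwards [ae_all_iff.2 hall] with x hx hxm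
    obtain ⟨n, hn⟩ := (TopologicalSpace.denseRange_denseSeq
      (closedBall (0 : Fin d → ℝ) (ρ - 8))).exists_dist_lt ⟨x, hxm⟩ one_pos
    refine hx n ?_
    rw [mem_closedBall]
    exact hn.le
  obtain ⟨v, hv1, hv2, hv3⟩ := hR d u C (ρ - 8) hC (by linarith) hB.lsp.mu
    (fun x => ⟨hB.nonneg x, hB.le_one x⟩) key
  refine ⟨v, hv1, hv2, ?_⟩
  filter_upwards [hv3] with x hx hxm
  refine hx (closedBall_subset_closedBall (by linarith) hxm)

end Pool.Agent.Work.MP_85f2da_an

end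

section

set_option autoImplicit false

/-!
# D14: the result of part D (helper59)
-/

open MeasureTheory Filter Set Metric
open scoped ENNReal Topology ContDiff

namespace Pool.Agent.Work.MP_85f2da_an

variable {d : ℕ}

theorem d14_int {f : (Fin d → ℝ) → ℝ} (hf : AEStronglyMeasurable f volume) (C : ℝ)
    (hC : ∀ x, |f x| ≤ C) (R : ℝ) : IntegrableOn f (closedBall 0 R) volume :=
  Measure.integrableOn_of_bounded (M := C) measure_closedBall_lt_top.ne hf
    (Eventually.of_forall fun x => by rw [Real.norm_eq_abs]; exact hC x)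

theorem d14_sq {f g : (Fin d → ℝ) → ℝ} (hf : AEStronglyMeasurable f volume)
    (hg : AEStronglyMeasurable g volume) (hf1 : ∀ x, 0 ≤ f x ∧ f x ≤ 1)
    (hg1 : ∀ x, 0 ≤ g x ∧ g x ≤ 1) (R : ℝ) :
    IntegrableOn (fun x => (f x - g x) ^ 2) (closedBall 0 R) volume := by
  refine d14_int ((hf.sub hg).pow 2) 1 (fun x => ?_) R
  have h1 := hf1 x
  have h2 := hg1 x
  have h3 : |f x - g x| ≤ 1 := by
    rw [abs_le]
    constructor <;> linarith
  show |(f x - g x) ^ 2| ≤ 1
  rw [abs_pow]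
  exact pow_le_one₀ (abs_nonneg _) h3

theorem partD (hE : DExist) (hC : DConv) (hM : DLimMin) : PartD := by
  intro d D w hd hw hw01
  have h1 : ∀ j : ℕ, ∃ (u : (Fin d → ℝ) → ℝ) (g : (Fin d → ℝ) → (Fin d → ℝ)),
      BMin D w ((j : ℝ) + 20) u g := fun j => hE d D w _ hw hw01 (by positivity)
  choose u g hb using h1
  have hρ : Tendsto (fun j : ℕ => (j : ℝ) + 20) atTop atTop :=
    tendsto_atTop_add_const_right _ _ tendsto_natCast_atTop_atTop
  obtain ⟨φ, v, hφ, hv, hv01, hconv⟩ := hC d D w (fun j : ℕ => (j : ℝ) + 20) u g hd hρ hb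
  have hρφ : Tendsto (fun j : ℕ => ((φ j : ℕ) : ℝ) + 20) atTop atTop :=
    hρ.comp hφ.tendsto_atTop
  have hmin : MinAut D v := hM d D w (fun j : ℕ => ((φ j : ℕ) : ℝ) + 20) (fun j => u (φ j))
    (fun j => g (φ j)) v hρφ (fun j => hb (φ j)) hv hconv
  have h2 : ∀ j : ℕ, ∃ U, Comp w ((φ j : ℝ) + 20) U ∧
      (∫ x in closedBall 0 ((φ j : ℝ) + 20), (U x - u (φ j) x) ^ 2) ≤ 1 / ((j : ℝ) + 1) ∧
      (∫ x in closedBall 0 ((φ j : ℝ) + 20), D.L (U x) (gr U x)) ≤
        (∫ x in closedBall 0 ((φ j : ℝ) + 20), D.L (w x) (gr w x)) + 1 / ((j : ℝ) + 1) :=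
    fun j => (hb (φ j)).app _ (by positivity)
  choose U hUc hUu hUe using h2
  refine ⟨v, fun j => (φ j : ℝ) + 20, U, hv, hv01, hmin, hUc, fun j => ?_, fun R => ?_⟩
  · refine (hUe j).trans ?_
    have : 1 / ((j : ℝ) + 1) ≤ 1 := by
      rw [div_le_one (by positivity)]
      have : (0 : ℝ) ≤ j := Nat.cast_nonneg j
      linarith
    linarith
  · have hvm : AEStronglyMeasurable v volume := by
      obtain ⟨K, hK⟩ := hv
      exact hK.continuous.aestronglyMeasurable
    have h3 : Tendsto (fun j : ℕ => 2 * (1 / ((j : ℝ) + 1)) +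
        2 * ∫ x in closedBall 0 R, (u (φ j) x - v x) ^ 2) atTop (𝓝 0) := by
      have h4 := (tendsto_one_div_add_atTop_nhds_zero_nat (𝕜 := ℝ)).const_mul 2
      have h5 := ((hconv R).1).const_mul 2
      have h6 := h4.add h5
      simpa using h6
    refine squeeze_zero' (Eventually.of_forall fun j => integral_nonneg fun x => by positivity)
      ?_ h3
    filter_upwards [hρφ.eventually_ge_atTop R] with j hj
    have hUm : AEStronglyMeasurable (U j) volume := by
      obtain ⟨K, hK⟩ := (hUc j).lip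
      exact hK.continuous.aestronglyMeasurable
    have hum := (hb (φ j)).lsp.mu
    have i1 := d14_sq hUm hum (fun x => ⟨(hUc j).nonneg x, (hUc j).le_one x⟩)
      (fun x => ⟨(hb (φ j)).nonneg x, (hb (φ j)).le_one x⟩)
    have i2 := d14_sq hum hvm (fun x => ⟨(hb (φ j)).nonneg x, (hb (φ j)).le_one x⟩) hv01
    have i3 := d14_sq hUm hvm (fun x => ⟨(hUc j).nonneg x, (hUc j).le_one x⟩) hv01
    have e1 : ∫ x in closedBall 0 R, (U j x - v x) ^ 2 ≤
        ∫ x in closedBall 0 R, (2 * (U j x - u (φ j) x) ^ 2 + 2 * (u (φ j) x - v x) ^ 2) := by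
      refine setIntegral_mono (i3 R) (((i1 R).const_mul 2).add ((i2 R).const_mul 2)) fun x => ?_
      nlinarith [sq_nonneg ((U j x - u (φ j) x) - (u (φ j) x - v x))]
    refine e1.trans ?_
    rw [integral_add ((i1 R).const_mul 2) ((i2 R).const_mul 2), integral_const_mul,
      integral_const_mul]
    refine add_le_add_left ?_ _ |>.trans (le_refl _)
    refine mul_le_mul_of_nonneg_left ?_ (by norm_num)
    refine le_trans ?_ (hUu j)
    exact setIntegral_mono_set (i1 _) (Eventually.of_forall fun x => by positivity)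
      (closedBall_subset_closedBall hj).eventuallyLE

end Pool.Agent.Work.MP_85f2da_an

end

section

set_option autoImplicit false

/-!
# S15: Arzela-Ascoli (helper59)
-/

open MeasureTheory Filter Set Metric
open scoped ENNReal Topology ContDiff

namespace Pool.Agent.Work.MP_85f2da_an

theorem sArz : SArz := by
  intro d K v hK h01
  have hlip : ∀ j x y, |v j x - v j y| ≤ K * dist x y := fun j x y => by
    rw [← Real.dist_eq]
    exact (hK j).dist_le_mul x y
  -- subsequence on a countable dense set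
  let s : ℕ → (Fin d → ℝ) := TopologicalSpace.denseSeq (Fin d → ℝ)
  have hs : DenseRange s := TopologicalSpace.denseRange_denseSeq _
  have hcomp : IsCompact (Set.pi Set.univ fun _ : ℕ => Icc (0 : ℝ) 1) :=
    isCompact_univ_pi fun _ => isCompact_Icc
  obtain ⟨a, -, φ, hφ, ha⟩ := hcomp.tendsto_subseq (x := fun j i => v j (s i))
    (fun j => by
      intro i _
      exact h01 j (s i))
  have ha' : ∀ i, Tendsto (fun j => v (φ j) (s i)) atTop (𝓝 (a i)) := by
    intro i
    exact (tendsto_pi_nhds.1 ha) i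
  -- Cauchy at every point
  have hcau : ∀ x, CauchySeq fun j => v (φ j) x := by
    intro x
    rw [Metric.cauchySeq_iff']
    intro ε hε
    have hδ : 0 < ε / (3 * ((K : ℝ) + 1)) := by positivity
    obtain ⟨i, hi⟩ := hs.exists_dist_lt x hδ
    obtain ⟨N, hN⟩ := Metric.cauchySeq_iff'.1 (ha' i).cauchySeq (ε / 3) (by positivity)
    refine ⟨N, fun n hn => ?_⟩
    have h1 := hlip (φ n) x (s i)
    have h2 := hlip (φ N) x (s i)
    have h3 := hN n hn
    rw [Real.dist_eq] at h3 ⊢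
    have h4 : (K : ℝ) * dist x (s i) < ε / 3 := by
      calc (K : ℝ) * dist x (s i) ≤ ((K : ℝ) + 1) * dist x (s i) :=
            mul_le_mul_of_nonneg_right (by linarith) dist_nonneg
        _ < ((K : ℝ) + 1) * (ε / (3 * ((K : ℝ) + 1))) :=
            mul_lt_mul_of_pos_left hi (by positivity)
        _ = ε / 3 := by
            have : (K : ℝ) + 1 ≠ 0 := by positivity
            field_simp
    have h5 : v (φ n) x - v (φ N) x = (v (φ n) x - v (φ n) (s i)) +
        (v (φ n) (s i) - v (φ N) (s i)) - (v (φ N) x - v (φ N) (s i)) := by ring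
    rw [h5]
    rw [abs_le] at h1 h2
    rw [abs_lt] at h3 ⊢
    constructor <;> linarith [h1.1, h1.2, h2.1, h2.2, h3.1, h3.2]
  choose u hu using fun x => cauchySeq_tendsto_of_complete (hcau x)
  have hulip : LipschitzWith K u := by
    refine LipschitzWith.of_dist_le_mul fun x y => ?_
    have h1 : Tendsto (fun j => dist (v (φ j) x) (v (φ j) y)) atTop (𝓝 (dist (u x) (u y))) :=
      (hu x).dist (hu y)
    exact le_of_tendsto' h1 fun j => (hK (φ j)).dist_le_mul x y
  refine ⟨φ, u, hφ, hulip, fun x => ⟨?_, ?_⟩, ?_⟩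
  · exact ge_of_tendsto' (hu x) fun j => (h01 (φ j) x).1
  · exact le_of_tendsto' (hu x) fun j => (h01 (φ j) x).2
  · intro R ε hε
    have hδ : 0 < ε / (3 * ((K : ℝ) + 1)) := by positivity
    obtain ⟨t, -, htf, hcov⟩ := (isCompact_closedBall (0 : Fin d → ℝ) R).finite_cover_balls hδ
    have h1 : ∀ᶠ j in atTop, ∀ y ∈ t, |v (φ j) y - u y| < ε / 3 := by
      rw [htf.eventually_all]
      intro y _
      have := Metric.tendsto_nhds.1 (hu y) (ε / 3) (by positivity)
      simpa only [Real.dist_eq] using this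
    obtain ⟨N, hN⟩ := eventually_atTop.1 h1
    refine ⟨N, fun j hj x hx => ?_⟩
    obtain ⟨y, hy, hxy⟩ := mem_iUnion₂.1 (hcov hx)
    rw [mem_ball] at hxy
    have h2 := hlip (φ j) x y
    have h3 : |u x - u y| ≤ K * dist x y := by
      rw [← Real.dist_eq]
      exact hulip.dist_le_mul x y
    have h4 : (K : ℝ) * dist x y < ε / 3 := by
      calc (K : ℝ) * dist x y ≤ ((K : ℝ) + 1) * dist x y :=
            mul_le_mul_of_nonneg_right (by linarith) dist_nonneg
        _ < ((K : ℝ) + 1) * (ε / (3 * ((K : ℝ) + 1))) :=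
            mul_lt_mul_of_pos_left hxy (by positivity)
        _ = ε / 3 := by
            have : (K : ℝ) + 1 ≠ 0 := by positivity
            field_simp
    have h5 := hN j hj y hy
    rw [abs_le] at h2 h3 ⊢
    rw [abs_lt] at h5
    constructor <;> linarith [h2.1, h2.2, h3.1, h3.2, h5.1, h5.2]

end Pool.Agent.Work.MP_85f2da_an

end

section

set_option autoImplicit false

/-!
# MP_85f2da_an, item S10: completeness of the local Sobolev pairs
-/

open MeasureTheory Filter Set Metric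
open scoped ENNReal Topology ContDiff

namespace Pool.Agent.Work.MP_85f2da_an

private lemma s10_sq_nonneg {d : ℕ} (a : Fin d → ℝ) : 0 ≤ sq a :=
  Finset.sum_nonneg (fun _ _ => sq_nonneg _)

private lemma s10_sq_cont {d : ℕ} : Continuous (fun a : Fin d → ℝ => sq a) := by
  unfold sq
  fun_prop

private lemma s10_tri {d : ℕ} (a b c : ℝ) (p q r : Fin d → ℝ) :
    (a - c) ^ 2 + sq (p - r) ≤ 2 * ((a - b) ^ 2 + sq (p - q)) + 2 * ((b - c) ^ 2 + sq (q - r)) := by
  have h1 : (a - c) ^ 2 ≤ 2 * (a - b) ^ 2 + 2 * (b - c) ^ 2 := by nlinarith [sq_nonneg (a - b - (b - c))]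
  have h2 : sq (p - r) ≤ 2 * sq (p - q) + 2 * sq (q - r) := by
    unfold sq
    rw [Finset.mul_sum, Finset.mul_sum, ← Finset.sum_add_distrib]
    apply Finset.sum_le_sum
    intro i _
    simp only [Pi.sub_apply]
    nlinarith [sq_nonneg (p i - q i - (q i - r i))]
  linarith

private lemma s10_tri' {d : ℕ} (a b c : ℝ) (p q r : Fin d → ℝ) :
    ENNReal.ofReal ((a - c) ^ 2 + sq (p - r)) ≤
      2 * ENNReal.ofReal ((a - b) ^ 2 + sq (p - q))
        + 2 * ENNReal.ofReal ((b - c) ^ 2 + sq (q - r)) := by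
  have h0 : (2 : ℝ≥0∞) = ENNReal.ofReal 2 := by norm_num
  rw [h0, ← ENNReal.ofReal_mul (by norm_num), ← ENNReal.ofReal_mul (by norm_num),
    ← ENNReal.ofReal_add (by have := s10_sq_nonneg (p - q); positivity)
      (by have := s10_sq_nonneg (q - r); positivity)]
  exact ENNReal.ofReal_le_ofReal (s10_tri a b c p q r)

private lemma s10_norm {d : ℕ} (a : ℝ) (p : Fin d → ℝ) :
    ‖((a, p) : ℝ × (Fin d → ℝ))‖ ^ 2 ≤ a ^ 2 + sq p := by
  have hs := s10_sq_nonneg p
  have h1 : ‖p‖ ≤ Real.sqrt (sq p) := by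
    rw [pi_norm_le_iff_of_nonneg (Real.sqrt_nonneg _)]
    intro i
    rw [Real.norm_eq_abs]
    apply Real.abs_le_sqrt
    exact Finset.single_le_sum (f := fun i => p i ^ 2) (fun j _ => sq_nonneg (p j)) (Finset.mem_univ i)
  have h2 : ‖p‖ ^ 2 ≤ sq p := by
    calc ‖p‖ ^ 2 ≤ Real.sqrt (sq p) ^ 2 := by gcongr
      _ = sq p := Real.sq_sqrt hs
  have h3 : ‖a‖ ^ 2 = a ^ 2 := by rw [Real.norm_eq_abs, sq_abs]
  rw [Prod.norm_def]
  rcases max_cases ‖a‖ ‖p‖ with h | h
  · simp only [h.1, h3]; linarith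
  · simp only [h.1]; nlinarith [sq_nonneg a]

private lemma s10_meas {d : ℕ} {u v : (Fin d → ℝ) → ℝ} {g h : (Fin d → ℝ) → (Fin d → ℝ)}
    (hu : AEStronglyMeasurable u volume) (hv : AEStronglyMeasurable v volume)
    (hg : AEStronglyMeasurable g volume) (hh : AEStronglyMeasurable h volume) :
    AEMeasurable (fun x => ENNReal.ofReal ((u x - v x) ^ 2 + sq (g x - h x))) volume := by
  have h1 : AEStronglyMeasurable (fun x => (u x - v x) ^ 2 + sq (g x - h x)) volume :=
    ((hu.sub hv).pow 2).add (s10_sq_cont.comp_aestronglyMeasurable (hg.sub hh))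
  exact h1.aemeasurable.ennreal_ofReal

/-- S10 -/
theorem sComplete : SComplete := by
  intro d u g hL hC
  have hpos : ∀ n : ℕ, (0 : ℝ) < (1 / 4) ^ n := fun n => by positivity
  choose N0 hN0 using fun n : ℕ => hC n ((1 / 4) ^ n) (hpos n)
  set φ : ℕ → ℕ := fun n => ∑ i ∈ Finset.range (n + 1), N0 i + n with hφ
  have hφ1 : ∀ n, N0 n ≤ φ n := by
    intro n
    have := Finset.single_le_sum (f := N0) (fun i _ => Nat.zero_le _)
      (Finset.self_mem_range_succ n)
    simp only [hφ]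
    omega
  have hφm : Monotone φ := by
    intro a b hab
    simp only [hφ]
    have : ∑ i ∈ Finset.range (a + 1), N0 i ≤ ∑ i ∈ Finset.range (b + 1), N0 i :=
      Finset.sum_le_sum_of_subset (Finset.range_mono (by omega))
    omega
  have hφt : ∀ n, n ≤ φ n := fun n => by simp only [hφ]; omega
  set f : ℕ → (Fin d → ℝ) → ℝ × (Fin d → ℝ) := fun n x => (u (φ n) x, g (φ n) x) with hf
  have hfm : ∀ n, AEStronglyMeasurable (f n) volume := fun n =>
    (hL (φ n)).mu.prodMk (hL (φ n)).mg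
  -- almost everywhere convergence on cubes
  have hae1 : ∀ M : ℕ, ∀ᵐ x ∂(volume.restrict (closedBall (0 : Fin d → ℝ) M)),
      ∃ l, Tendsto (fun n => f n x) atTop (𝓝 l) := by
    intro M
    have key := MeasureTheory.Lp.ae_tendsto_of_cauchy_eLpNorm (μ := volume.restrict (closedBall (0 : Fin d → ℝ) M))
      (f := fun n => f (n + M)) (p := 2) (fun n => (hfm (n + M)).restrict) (by norm_num)
      (B := fun N => ENNReal.ofReal (2 * (1 / 2) ^ N)) ?_ ?_
    · filter_upwards [key] with x hx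
      obtain ⟨l, hl⟩ := hx
      exact ⟨l, (tendsto_add_atTop_iff_nat M).mp hl⟩
    · have hs : Summable (fun N : ℕ => (2 : ℝ) * (1 / 2) ^ N) :=
        (summable_geometric_two).mul_left 2
      rw [← ENNReal.ofReal_tsum_of_nonneg (fun n => by positivity) hs]
      exact ENNReal.ofReal_ne_top
    · intro N n m hn hm
      have hb : ∫⁻ x in closedBall (0 : Fin d → ℝ) ((N + M : ℕ) : ℝ),
          ENNReal.ofReal ((u (φ (n + M)) x - u (φ (m + M)) x) ^ 2
            + sq (g (φ (n + M)) x - g (φ (m + M)) x)) ≤ ENNReal.ofReal ((1 / 4) ^ (N + M)) :=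
        hN0 (N + M) _ _ ((hφ1 _).trans (hφm (by omega))) ((hφ1 _).trans (hφm (by omega)))
      have hsub : closedBall (0 : Fin d → ℝ) (M : ℝ) ⊆ closedBall 0 ((N + M : ℕ) : ℝ) :=
        closedBall_subset_closedBall (by push_cast; linarith [(Nat.cast_nonneg N : (0 : ℝ) ≤ N)])
      have h2 : ∫⁻ x in closedBall (0 : Fin d → ℝ) M, ‖(f (n + M) - f (m + M)) x‖ₑ ^ (2 : ℝ)
          ≤ ENNReal.ofReal ((1 / 4) ^ (N + M)) := by
        refine le_trans ?_ (le_trans (lintegral_mono_set hsub) hb)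
        apply lintegral_mono
        intro x
        have h3 : ‖(f (n + M) - f (m + M)) x‖ ^ 2 ≤ (u (φ (n + M)) x - u (φ (m + M)) x) ^ 2
            + sq (g (φ (n + M)) x - g (φ (m + M)) x) := s10_norm _ _
        calc ‖(f (n + M) - f (m + M)) x‖ₑ ^ (2 : ℝ)
            = ENNReal.ofReal (‖(f (n + M) - f (m + M)) x‖ ^ 2) := by
              rw [← ofReal_norm, ENNReal.ofReal_rpow_of_nonneg (norm_nonneg _) (by norm_num)]
              norm_num
          _ ≤ _ := ENNReal.ofReal_le_ofReal h3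
      have h4 : eLpNorm (f (n + M) - f (m + M)) 2 (volume.restrict (closedBall (0 : Fin d → ℝ) M))
          ≤ ENNReal.ofReal ((1 / 2) ^ (N + M)) := by
        rw [eLpNorm_eq_lintegral_rpow_enorm_toReal (by norm_num) (by norm_num)]
        simp only [ENNReal.toReal_ofNat]
        calc (∫⁻ x in closedBall (0 : Fin d → ℝ) M, ‖(f (n + M) - f (m + M)) x‖ₑ ^ (2 : ℝ)) ^ (1 / (2:ℝ))
            ≤ (ENNReal.ofReal ((1 / 4) ^ (N + M))) ^ (1 / (2:ℝ)) := by gcongr
          _ = ENNReal.ofReal ((1 / 2) ^ (N + M)) := by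
            rw [ENNReal.ofReal_rpow_of_nonneg (by positivity) (by norm_num)]
            congr 1
            rw [← Real.sqrt_eq_rpow]
            have : (1 / 4 : ℝ) ^ (N + M) = ((1 / 2) ^ (N + M)) ^ 2 := by
              rw [← pow_mul, mul_comm, pow_mul]; norm_num
            rw [this, Real.sqrt_sq (by positivity)]
      refine lt_of_le_of_lt h4 ?_
      rw [ENNReal.ofReal_lt_ofReal_iff (by positivity)]
      have h5 : (1 / 2 : ℝ) ^ (N + M) ≤ (1 / 2) ^ N :=
        pow_le_pow_of_le_one (by norm_num) (by norm_num) (by omega)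
      have h6 : (0 : ℝ) < (1 / 2) ^ N := by positivity
      linarith
  have hae : ∀ᵐ x ∂(volume : Measure (Fin d → ℝ)), ∃ l, Tendsto (fun n => f n x) atTop (𝓝 l) := by
    have h1 : ∀ M : ℕ, ∀ᵐ x ∂(volume : Measure (Fin d → ℝ)), x ∈ closedBall (0 : Fin d → ℝ) M →
        ∃ l, Tendsto (fun n => f n x) atTop (𝓝 l) := fun M =>
      (ae_restrict_iff' measurableSet_closedBall).mp (hae1 M)
    rw [← ae_all_iff] at h1
    filter_upwards [h1] with x hx
    obtain ⟨M, hM⟩ := exists_nat_ge ‖x‖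
    exact hx M (by simpa [mem_closedBall, dist_zero_right] using hM)
  obtain ⟨F, hFm, hF⟩ := exists_stronglyMeasurable_limit_of_tendsto_ae hfm hae
  have hF1m : AEStronglyMeasurable (fun x => (F x).1) volume :=
    (continuous_fst.comp_stronglyMeasurable hFm).aestronglyMeasurable
  have hF2m : AEStronglyMeasurable (fun x => (F x).2) volume :=
    (continuous_snd.comp_stronglyMeasurable hFm).aestronglyMeasurable
  have hmain : ∀ R ε : ℝ, 0 < ε → ∃ N, ∀ j, N ≤ j →
      ∫⁻ x in closedBall 0 R, ENNReal.ofReal ((u j x - (F x).1) ^ 2 + sq (g j x - (F x).2))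
        ≤ ENNReal.ofReal ε := by
    intro R ε hε
    obtain ⟨N, hN⟩ := hC R ε hε
    refine ⟨N, fun j hj => ?_⟩
    calc ∫⁻ x in closedBall 0 R, ENNReal.ofReal ((u j x - (F x).1) ^ 2 + sq (g j x - (F x).2))
        ≤ ∫⁻ x in closedBall 0 R, liminf (fun n => ENNReal.ofReal
            ((u j x - u (φ n) x) ^ 2 + sq (g j x - g (φ n) x))) atTop := by
          apply lintegral_mono_ae
          apply ae_restrict_of_ae
          filter_upwards [hF] with x hx
          have h1 : Tendsto (fun n => u (φ n) x) atTop (𝓝 (F x).1) :=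
            (continuous_fst.tendsto _).comp hx
          have h2 : Tendsto (fun n => g (φ n) x) atTop (𝓝 (F x).2) :=
            (continuous_snd.tendsto _).comp hx
          have h3 : Tendsto (fun n => ENNReal.ofReal
            ((u j x - u (φ n) x) ^ 2 + sq (g j x - g (φ n) x))) atTop
            (𝓝 (ENNReal.ofReal ((u j x - (F x).1) ^ 2 + sq (g j x - (F x).2)))) := by
            apply (ENNReal.continuous_ofReal.tendsto _).comp
            exact ((tendsto_const_nhds.sub h1).pow 2).add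
              ((s10_sq_cont.tendsto _).comp (tendsto_const_nhds.sub h2))
          rw [h3.liminf_eq]
      _ ≤ liminf (fun n => ∫⁻ x in closedBall 0 R, ENNReal.ofReal
            ((u j x - u (φ n) x) ^ 2 + sq (g j x - g (φ n) x))) atTop :=
          lintegral_liminf_le' (fun n =>
            (s10_meas (hL j).mu (hL (φ n)).mu (hL j).mg (hL (φ n)).mg).restrict)
      _ ≤ ENNReal.ofReal ε := by
          apply liminf_le_of_frequently_le'
          apply Eventually.frequently
          filter_upwards [eventually_ge_atTop N] with n hn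
          exact hN j (φ n) hj (hn.trans (hφt n))
  have htend : ∀ R : ℝ, Tendsto (fun j => ∫⁻ x in closedBall 0 R,
      ENNReal.ofReal ((u j x - (F x).1) ^ 2 + sq (g j x - (F x).2))) atTop (𝓝 0) := by
    intro R
    rw [ENNReal.tendsto_atTop_zero]
    intro ε hε
    obtain ⟨δ, hδ0, hδ⟩ : ∃ δ : ℝ, 0 < δ ∧ ENNReal.ofReal δ ≤ ε := by
      refine ⟨(min ε 1).toReal, ENNReal.toReal_pos (by simp [hε.ne']) (by simp), ?_⟩
      rw [ENNReal.ofReal_toReal (by simp)]
      exact min_le_left _ _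
    obtain ⟨N, hN⟩ := hmain R δ hδ0
    exact ⟨N, fun j hj => (hN j hj).trans hδ⟩
  refine ⟨fun x => (F x).1, fun x => (F x).2, ⟨hF1m, hF2m, ?_⟩, htend⟩
  -- the diagonal sequence
  have hV : ∀ n : ℕ, ∃ V : (Fin d → ℝ) → ℝ, Lip V ∧ ∫⁻ x in closedBall (0 : Fin d → ℝ) n,
      ENNReal.ofReal ((V x - u n x) ^ 2 + sq (gr V x - g n x)) ≤ ENNReal.ofReal ((1 / 2) ^ n) := by
    intro n
    obtain ⟨U, hU, hUt⟩ := (hL n).app
    have h1 := (ENNReal.tendsto_atTop_zero.mp (hUt n)) (ENNReal.ofReal ((1 / 2) ^ n))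
      (by rw [gt_iff_lt, ENNReal.ofReal_pos]; positivity)
    obtain ⟨N, hN⟩ := h1
    exact ⟨U N, hU N, hN N le_rfl⟩
  choose V hVL hVb using hV
  refine ⟨V, hVL, fun R => ?_⟩
  have hz : Tendsto (fun n : ℕ => 2 * ENNReal.ofReal ((1 / 2) ^ n) + 2 * ∫⁻ x in closedBall 0 R,
      ENNReal.ofReal ((u n x - (F x).1) ^ 2 + sq (g n x - (F x).2))) atTop (𝓝 0) := by
    have h1 : Tendsto (fun n : ℕ => ENNReal.ofReal ((1 / 2) ^ n)) atTop (𝓝 0) := by
      rw [← ENNReal.ofReal_zero]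
      exact (ENNReal.continuous_ofReal.tendsto _).comp
        (tendsto_pow_atTop_nhds_zero_of_lt_one (by norm_num) (by norm_num))
    have h2 := (ENNReal.Tendsto.const_mul (a := 2) h1 (Or.inr (by norm_num))).add
      (ENNReal.Tendsto.const_mul (a := 2) (htend R) (Or.inr (by norm_num)))
    simpa using h2
  apply tendsto_of_tendsto_of_tendsto_of_le_of_le' tendsto_const_nhds hz
  · exact Eventually.of_forall (fun n => zero_le)
  · obtain ⟨M, hM⟩ := exists_nat_ge R
    filter_upwards [eventually_ge_atTop M] with n hn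
    have hRn : R ≤ (n : ℝ) := hM.trans (by exact_mod_cast hn)
    calc ∫⁻ x in closedBall 0 R, ENNReal.ofReal ((V n x - (F x).1) ^ 2 + sq (gr (V n) x - (F x).2))
        ≤ ∫⁻ x in closedBall 0 R, (2 * ENNReal.ofReal ((V n x - u n x) ^ 2 + sq (gr (V n) x - g n x))
          + 2 * ENNReal.ofReal ((u n x - (F x).1) ^ 2 + sq (g n x - (F x).2))) :=
          lintegral_mono (fun x => s10_tri' _ _ _ _ _ _)
      _ = (∫⁻ x in closedBall 0 R, 2 * ENNReal.ofReal ((V n x - u n x) ^ 2 + sq (gr (V n) x - g n x)))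
          + ∫⁻ x in closedBall 0 R, 2 * ENNReal.ofReal ((u n x - (F x).1) ^ 2 + sq (g n x - (F x).2)) :=
          lintegral_add_right' _ (((s10_meas (hL n).mu hF1m (hL n).mg hF2m).const_mul 2).restrict)
      _ = 2 * (∫⁻ x in closedBall 0 R, ENNReal.ofReal ((V n x - u n x) ^ 2 + sq (gr (V n) x - g n x)))
          + 2 * ∫⁻ x in closedBall 0 R, ENNReal.ofReal ((u n x - (F x).1) ^ 2 + sq (g n x - (F x).2)) := by
          rw [lintegral_const_mul' _ _ (by norm_num), lintegral_const_mul' _ _ (by norm_num)]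
      _ ≤ _ := by
          gcongr
          exact (lintegral_mono_set (closedBall_subset_closedBall hRn)).trans (hVb n)

end Pool.Agent.Work.MP_85f2da_an

end

section

set_option autoImplicit false

/-!
# MP_85f2da_an: S11, difference quotients
-/

open MeasureTheory Filter Set Metric
open scoped ENNReal Topology ContDiff

namespace Pool.Agent.Work.MP_85f2da_an

variable {d : ℕ}

theorem s11_meas_gr (U : (Fin d → ℝ) → ℝ) : Measurable (gr U) :=
  measurable_pi_lambda _ fun _ => measurable_fderiv_apply_const ℝ U _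

theorem s11_fderiv (U : (Fin d → ℝ) → ℝ) (x h : Fin d → ℝ) :
    fderiv ℝ U x h = dot (gr U x) h := by
  unfold dot gr
  conv_lhs => rw [← Finset.univ_sum_single h]
  rw [map_sum]
  refine Finset.sum_congr rfl fun i _ => ?_
  have h1 : (Pi.single i (h i) : Fin d → ℝ) = h i • Pi.single i (1 : ℝ) := by
    ext j
    by_cases hj : j = i
    · subst hj; simp
    · simp [Pi.single_eq_of_ne hj]
  rw [h1, map_smul, smul_eq_mul, mul_comm]

theorem s11_cs (a b : Fin d → ℝ) : dot a b ^ 2 ≤ sq a * sq b := by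
  unfold dot sq
  exact Finset.sum_mul_sq_le_sq_mul_sq _ _ _

theorem s11_sq_nonneg (a : Fin d → ℝ) : 0 ≤ sq a := by
  unfold sq; positivity

theorem s11_sq_cont : Continuous (sq : (Fin d → ℝ) → ℝ) := by
  unfold sq; fun_prop

theorem s11_sq_add (a b : Fin d → ℝ) {ε : ℝ} (hε : 0 < ε) :
    sq (a + b) ≤ (1 + ε) * sq a + (1 + 1 / ε) * sq b := by
  unfold sq
  rw [Finset.mul_sum, Finset.mul_sum, ← Finset.sum_add_distrib]
  refine Finset.sum_le_sum fun i _ => ?_
  have h1 : (a + b) i = a i + b i := rfl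
  rw [h1]
  have h2 : 0 ≤ (ε * a i - b i) ^ 2 / ε := by positivity
  have h3 : (ε * a i - b i) ^ 2 / ε = ε * a i ^ 2 - 2 * a i * b i + 1 / ε * b i ^ 2 := by
    field_simp
    ring
  nlinarith

/-- Cauchy-Schwarz on the unit interval -/
theorem s11_jensen (f : ℝ → ℝ) (hm : Measurable f) (C : ℝ) (hC : ∀ t, |f t| ≤ C) :
    (∫ t in (0 : ℝ)..1, f t) ^ 2 ≤ ∫ t in (0 : ℝ)..1, f t ^ 2 := by
  have hi : IntervalIntegrable f volume 0 1 := by
    rw [intervalIntegrable_iff_integrableOn_Ioc_of_le zero_le_one]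
    refine Measure.integrableOn_of_bounded (M := C) (by simp) hm.aestronglyMeasurable ?_
    exact Filter.Eventually.of_forall hC
  have hi2 : IntervalIntegrable (fun t => f t ^ 2) volume 0 1 := by
    rw [intervalIntegrable_iff_integrableOn_Ioc_of_le zero_le_one]
    refine Measure.integrableOn_of_bounded (M := C ^ 2) (by simp)
      (hm.pow_const 2).aestronglyMeasurable ?_
    refine Filter.Eventually.of_forall fun t => ?_
    rw [Real.norm_eq_abs, abs_pow]
    have := hC t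
    gcongr
  set A : ℝ := ∫ t in (0 : ℝ)..1, f t with hA
  have h0 : 0 ≤ ∫ t in (0 : ℝ)..1, (f t - A) ^ 2 :=
    intervalIntegral.integral_nonneg zero_le_one fun t _ => sq_nonneg _
  have h1 : ∫ t in (0 : ℝ)..1, (f t - A) ^ 2
      = (∫ t in (0 : ℝ)..1, f t ^ 2) - 2 * A * A + A ^ 2 := by
    have h2 : ∀ t, (f t - A) ^ 2 = f t ^ 2 - 2 * A * f t + A ^ 2 := fun t => by ring
    simp_rw [h2]
    rw [intervalIntegral.integral_add (hi2.sub (hi.const_mul _)) (by simp),
      intervalIntegral.integral_sub hi2 (hi.const_mul _), intervalIntegral.integral_const_mul]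
    simp [hA]
  nlinarith

/-- the estimate for almost every point, Lipschitz functions -/
theorem s11_point (U : (Fin d → ℝ) → ℝ) (hU : Lip U) (h : Fin d → ℝ) :
    ∀ᵐ x, ENNReal.ofReal ((U (x + h) - U x) ^ 2)
      ≤ ENNReal.ofReal (sq h) * ∫⁻ t in Ioc (0 : ℝ) 1, ENNReal.ofReal (sq (gr U (x + t • h))) := by
  obtain ⟨K, hK⟩ := hU
  have hmeas : MeasurableSet {p : (Fin d → ℝ) × ℝ | DifferentiableAt ℝ U (p.1 + p.2 • h)} := by
    have h1 : Measurable fun p : (Fin d → ℝ) × ℝ => p.1 + p.2 • h := by fun_prop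
    exact h1 (measurableSet_of_differentiableAt ℝ U)
  have h1 : ∀ᵐ x : Fin d → ℝ, ∀ᵐ t : ℝ, DifferentiableAt ℝ U (x + t • h) := by
    rw [Measure.ae_ae_comm hmeas]
    refine Filter.Eventually.of_forall fun t => ?_
    have h2 := hK.ae_differentiableAt (μ := (volume : Measure (Fin d → ℝ)))
    have h3 := (measurePreserving_add_right (volume : Measure (Fin d → ℝ)) (t • h)).quasiMeasurePreserving.ae h2
    exact h3
  filter_upwards [h1] with x hx
  have hφ : LipschitzWith (K * ‖h‖₊) fun t : ℝ => U (x + t • h) := by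
    refine hK.comp (g := fun t : ℝ => x + t • h) ?_
    refine LipschitzWith.of_dist_le_mul fun s t => ?_
    rw [dist_eq_norm, dist_eq_norm]
    have : x + s • h - (x + t • h) = (s - t) • h := by rw [sub_smul]; abel
    rw [this, norm_smul, coe_nnnorm, mul_comm]
  have hftc := (hφ.lipschitzOnWith (s := uIcc 0 1)).absolutelyContinuousOnInterval.integral_deriv_eq_sub
  simp only [one_smul, zero_smul, add_zero] at hftc
  have hm : Measurable fun t : ℝ => dot (gr U (x + t • h)) h := by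
    have h2 : Measurable fun t : ℝ => gr U (x + t • h) := (s11_meas_gr U).comp (by fun_prop)
    unfold dot
    exact Finset.measurable_sum _ fun i _ => ((measurable_pi_apply i).comp h2).mul_const _
  have hb : ∀ t : ℝ, |dot (gr U (x + t • h)) h| ≤ K * ‖h‖ := by
    intro t
    rw [← s11_fderiv, ← Real.norm_eq_abs]
    exact (ContinuousLinearMap.le_opNorm _ _).trans
      (mul_le_mul_of_nonneg_right (norm_fderiv_le_of_lipschitz ℝ hK) (norm_nonneg _))
  have hE : ∫ t in (0 : ℝ)..1, deriv (fun t : ℝ => U (x + t • h)) t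
      = ∫ t in (0 : ℝ)..1, dot (gr U (x + t • h)) h := by
    refine intervalIntegral.integral_congr_ae ?_
    filter_upwards [hx] with t ht _
    rw [← s11_fderiv]
    have h3 : HasDerivAt (fun t : ℝ => x + t • h) h t := by
      have := ((hasDerivAt_id t).smul_const h).const_add x
      simpa using this
    exact (ht.hasFDerivAt.comp_hasDerivAt t h3).deriv
  have hJ := s11_jensen _ hm _ hb
  rw [← hE, hftc] at hJ
  have hbd : ∀ t : ℝ, sq (gr U (x + t • h)) ≤ d * (K : ℝ) ^ 2 := by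
    intro t
    unfold sq gr
    have : ∀ i ∈ Finset.univ, (fderiv ℝ U (x + t • h) (Pi.single i (1 : ℝ))) ^ 2 ≤ (K : ℝ) ^ 2 := by
      intro i _
      rw [← sq_abs, ← Real.norm_eq_abs]
      have h4 : ‖fderiv ℝ U (x + t • h) (Pi.single i (1 : ℝ))‖ ≤ K := by
        refine (ContinuousLinearMap.le_opNorm _ _).trans ?_
        have h5 : ‖(Pi.single i (1 : ℝ) : Fin d → ℝ)‖ = 1 := by
          rw [Pi.norm_single, norm_one]
        rw [h5, mul_one]
        exact norm_fderiv_le_of_lipschitz ℝ hK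
      gcongr
    refine (Finset.sum_le_sum this).trans ?_
    simp
  have hm2 : Measurable fun t : ℝ => sq (gr U (x + t • h)) :=
    s11_sq_cont.measurable.comp ((s11_meas_gr U).comp (by fun_prop))
  have hint : IntegrableOn (fun t : ℝ => sq (gr U (x + t • h))) (Ioc 0 1) := by
    refine Measure.integrableOn_of_bounded (M := d * (K : ℝ) ^ 2) (by simp)
      hm2.aestronglyMeasurable ?_
    refine Filter.Eventually.of_forall fun t => ?_
    rw [Real.norm_of_nonneg (s11_sq_nonneg _)]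
    exact hbd t
  have hint2 : IntegrableOn (fun t : ℝ => dot (gr U (x + t • h)) h ^ 2) (Ioc 0 1) := by
    refine Measure.integrableOn_of_bounded (M := ((K : ℝ) * ‖h‖) ^ 2) (by simp)
      (hm.pow_const 2).aestronglyMeasurable ?_
    refine Filter.Eventually.of_forall fun t => ?_
    rw [Real.norm_eq_abs, abs_pow]
    have := hb t
    gcongr
  have h6 : ∫ t in (0 : ℝ)..1, dot (gr U (x + t • h)) h ^ 2
      ≤ sq h * ∫ t in Ioc (0 : ℝ) 1, sq (gr U (x + t • h)) := by
    rw [intervalIntegral.integral_of_le zero_le_one, ← integral_const_mul]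
    refine integral_mono hint2 (hint.const_mul _) fun t => ?_
    rw [mul_comm]
    exact s11_cs _ _
  have h7 := hJ.trans h6
  refine (ENNReal.ofReal_le_ofReal h7).trans ?_
  rw [ENNReal.ofReal_mul (s11_sq_nonneg _), ofReal_integral_eq_lintegral_ofReal hint
    (Filter.Eventually.of_forall fun t => s11_sq_nonneg _)]

/-- the estimate for Lipschitz functions -/
theorem s11_lip (U : (Fin d → ℝ) → ℝ) (hU : Lip U) (z h : Fin d → ℝ) (r : ℝ) :
    ∫⁻ x in closedBall z r, ENNReal.ofReal ((U (x + h) - U x) ^ 2)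
      ≤ ENNReal.ofReal (sq h) * ∫⁻ x in closedBall z (r + ‖h‖), ENNReal.ofReal (sq (gr U x)) := by
  have hm : Measurable fun p : (Fin d → ℝ) × ℝ =>
      ENNReal.ofReal (sq (gr U (p.1 + p.2 • h))) :=
    (s11_sq_cont.measurable.comp ((s11_meas_gr U).comp (by fun_prop))).ennreal_ofReal
  calc ∫⁻ x in closedBall z r, ENNReal.ofReal ((U (x + h) - U x) ^ 2)
      ≤ ∫⁻ x in closedBall z r, ENNReal.ofReal (sq h) *
          ∫⁻ t in Ioc (0 : ℝ) 1, ENNReal.ofReal (sq (gr U (x + t • h))) :=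
        lintegral_mono_ae (ae_restrict_of_ae (s11_point U hU h))
    _ = ENNReal.ofReal (sq h) * ∫⁻ x in closedBall z r,
          ∫⁻ t in Ioc (0 : ℝ) 1, ENNReal.ofReal (sq (gr U (x + t • h))) :=
        lintegral_const_mul' _ _ ENNReal.ofReal_ne_top
    _ = ENNReal.ofReal (sq h) * ∫⁻ t in Ioc (0 : ℝ) 1,
          ∫⁻ x in closedBall z r, ENNReal.ofReal (sq (gr U (x + t • h))) := by
        congr 1
        exact lintegral_lintegral_swap hm.aemeasurable
    _ ≤ ENNReal.ofReal (sq h) * ∫⁻ _t in Ioc (0 : ℝ) 1,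
          ∫⁻ x in closedBall z (r + ‖h‖), ENNReal.ofReal (sq (gr U x)) := by
        gcongr ENNReal.ofReal (sq h) * ?_
        refine setLIntegral_mono' measurableSet_Ioc fun t ht => ?_
        have h1 := (measurePreserving_add_right (volume : Measure (Fin d → ℝ)) (t • h))
        have h2 : closedBall z r ⊆ (fun x => x + t • h) ⁻¹' closedBall z (r + ‖h‖) := by
          intro x hx
          rw [mem_preimage, mem_closedBall, dist_eq_norm] at *
          have h3 : x + t • h - z = (x - z) + t • h := by abel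
          rw [h3]
          refine (norm_add_le _ _).trans ?_
          rw [norm_smul, Real.norm_eq_abs, abs_of_pos ht.1]
          have h4 : t * ‖h‖ ≤ 1 * ‖h‖ := by
            have := ht.2
            gcongr
          linarith
        refine (lintegral_mono_set h2).trans (le_of_eq ?_)
        exact h1.setLIntegral_comp_preimage measurableSet_closedBall
          (s11_sq_cont.measurable.comp (s11_meas_gr U)).ennreal_ofReal
    _ = ENNReal.ofReal (sq h) * ∫⁻ x in closedBall z (r + ‖h‖), ENNReal.ofReal (sq (gr U x)) := by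
        rw [lintegral_const]
        simp

theorem s11_split (a b : ℝ) {ε : ℝ} (hε : 0 < ε) :
    (a + b) ^ 2 ≤ (1 + ε) * a ^ 2 + (1 + 1 / ε) * b ^ 2 := by
  have h2 : 0 ≤ (ε * a - b) ^ 2 / ε := by positivity
  have h3 : (ε * a - b) ^ 2 / ε = ε * a ^ 2 - 2 * a * b + 1 / ε * b ^ 2 := by
    field_simp
    ring
  nlinarith

theorem s11_enn (p q A B C : ℝ) (hp : 0 ≤ p) (hq : 0 ≤ q) (hA : 0 ≤ A) (hB : 0 ≤ B)
    (hC : 0 ≤ C) : ENNReal.ofReal (p * A + q * (2 * B + 2 * C))
      = ENNReal.ofReal p * ENNReal.ofReal A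
        + ENNReal.ofReal q * (2 * ENNReal.ofReal B + 2 * ENNReal.ofReal C) := by
  have h2 : (2 : ℝ≥0∞) = ENNReal.ofReal 2 := by norm_num
  rw [ENNReal.ofReal_add (by positivity) (by positivity), ENNReal.ofReal_mul hp,
    ENNReal.ofReal_mul hq, ENNReal.ofReal_add (by positivity) (by positivity),
    ENNReal.ofReal_mul (by norm_num), ENNReal.ofReal_mul (by norm_num), h2]

/-- S11: difference quotients of Sobolev functions -/
theorem sDiff : SInt → SDiff := by
  intro hSInt d u g hug z h r _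
  have hI := (hSInt d u g hug z (r + ‖h‖)).2
  obtain ⟨mu, mg, U, hU, hlim⟩ := hug
  set R : ℝ := ‖z‖ + (r + ‖h‖) with hR
  have hsub : closedBall z (r + ‖h‖) ⊆ closedBall (0 : Fin d → ℝ) R := by
    intro x hx
    rw [mem_closedBall, dist_eq_norm] at *
    rw [sub_zero]
    calc ‖x‖ = ‖(x - z) + z‖ := by rw [sub_add_cancel]
      _ ≤ ‖x - z‖ + ‖z‖ := norm_add_le _ _
      _ ≤ R := by rw [hR]; linarith
  have hsub2 : closedBall z r ⊆ closedBall z (r + ‖h‖) :=
    closedBall_subset_closedBall (by linarith [norm_nonneg h])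
  set δ : ℕ → ℝ≥0∞ := fun j => ∫⁻ x in closedBall 0 R,
    ENNReal.ofReal ((U j x - u x) ^ 2 + sq (gr (U j) x - g x)) with hδ
  have hδ0 : Tendsto δ atTop (𝓝 0) := hlim R
  set G : ℝ≥0∞ := ∫⁻ x in closedBall z (r + ‖h‖), ENNReal.ofReal (sq (g x)) with hG
  set H : ℝ≥0∞ := ENNReal.ofReal (sq h) with hH
  set L : ℝ≥0∞ := ∫⁻ x in closedBall z r, ENNReal.ofReal ((u (x + h) - u x) ^ 2) with hL
  have hGtop : G ≠ ⊤ := by
    have h1 := hI.lintegral_lt_top
    exact h1.ne
  have hshift := measurePreserving_add_right (volume : Measure (Fin d → ℝ)) h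
  have hemb := measurableEmbedding_addRight h
  have hmsq : ∀ _j : ℕ, AEMeasurable (fun x => ENNReal.ofReal (sq (g x)))
      (volume.restrict (closedBall z (r + ‖h‖))) := fun _ =>
    (s11_sq_cont.measurable.comp_aemeasurable mg.aemeasurable.restrict).ennreal_ofReal
  -- the two error terms
  have e1 : ∀ j, ∫⁻ x in closedBall z r, ENNReal.ofReal ((U j x - u x) ^ 2) ≤ δ j := by
    intro j
    refine (lintegral_mono_set (hsub2.trans hsub)).trans (lintegral_mono fun x => ?_)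
    exact ENNReal.ofReal_le_ofReal (by linarith [s11_sq_nonneg (gr (U j) x - g x)])
  have e2 : ∀ j, ∫⁻ x in closedBall z r, ENNReal.ofReal ((U j (x + h) - u (x + h)) ^ 2)
      ≤ δ j := by
    intro j
    have h2 : closedBall z r ⊆ (fun x => x + h) ⁻¹' closedBall z (r + ‖h‖) := by
      intro x hx
      rw [mem_preimage, mem_closedBall, dist_eq_norm]
      rw [mem_closedBall, dist_eq_norm] at hx
      have h3 : x + h - z = (x - z) + h := by abel
      rw [h3]
      exact (norm_add_le _ _).trans (by linarith)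
    refine (lintegral_mono_set h2).trans ?_
    rw [hshift.setLIntegral_comp_preimage_emb hemb
      (fun x => ENNReal.ofReal ((U j x - u x) ^ 2)) (closedBall z (r + ‖h‖))]
    refine (lintegral_mono_set hsub).trans (lintegral_mono fun x => ?_)
    exact ENNReal.ofReal_le_ofReal (by linarith [s11_sq_nonneg (gr (U j) x - g x)])
  have e3 : ∀ j, ∫⁻ x in closedBall z (r + ‖h‖), ENNReal.ofReal (sq (gr (U j) x - g x))
      ≤ δ j := by
    intro j
    refine (lintegral_mono_set hsub).trans (lintegral_mono fun x => ?_)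
    exact ENNReal.ofReal_le_ofReal (by linarith [sq_nonneg (U j x - u x)])
  have key : ∀ ε : ℝ, 0 < ε → ∀ j, L ≤ ENNReal.ofReal (1 + ε) * (H *
      (ENNReal.ofReal (1 + ε) * G + ENNReal.ofReal (1 + 1 / ε) * δ j))
      + ENNReal.ofReal (1 + 1 / ε) * (2 * δ j + 2 * δ j) := by
    intro ε hε j
    have hc1 : 0 ≤ 1 + ε := by linarith
    have hc2 : 0 ≤ 1 + 1 / ε := by positivity
    obtain ⟨K, hK⟩ := hU j
    have hUc : Continuous (U j) := hK.continuous
    have hm1 : Measurable fun x => ENNReal.ofReal (1 + ε) *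
        ENNReal.ofReal ((U j (x + h) - U j x) ^ 2) := by
      refine Measurable.const_mul ?_ _
      exact (Continuous.measurable (by fun_prop)).ennreal_ofReal
    have hm2 : AEMeasurable (fun x => 2 * ENNReal.ofReal ((U j x - u x) ^ 2))
        (volume.restrict (closedBall z r)) := by
      refine AEMeasurable.const_mul ?_ _
      have h1 : AEMeasurable (fun x => (U j x - u x) ^ 2) (volume.restrict (closedBall z r)) :=
        ((hUc.measurable.aemeasurable).sub mu.aemeasurable.restrict).pow_const 2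
      exact h1.ennreal_ofReal
    have hpt : ∀ x, ENNReal.ofReal ((u (x + h) - u x) ^ 2)
        ≤ ENNReal.ofReal (1 + ε) * ENNReal.ofReal ((U j (x + h) - U j x) ^ 2)
          + ENNReal.ofReal (1 + 1 / ε) * (2 * ENNReal.ofReal ((U j x - u x) ^ 2)
            + 2 * ENNReal.ofReal ((U j (x + h) - u (x + h)) ^ 2)) := by
      intro x
      rw [← s11_enn _ _ _ _ _ hc1 hc2 (sq_nonneg _) (sq_nonneg _) (sq_nonneg _)]
      refine ENNReal.ofReal_le_ofReal ?_
      have h3 := s11_split (U j (x + h) - U j x)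
        ((U j x - u x) - (U j (x + h) - u (x + h))) hε
      have h4 : U j (x + h) - U j x + ((U j x - u x) - (U j (x + h) - u (x + h)))
          = u (x + h) - u x := by ring
      rw [h4] at h3
      have h5 : ((U j x - u x) - (U j (x + h) - u (x + h))) ^ 2
          ≤ 2 * (U j x - u x) ^ 2 + 2 * (U j (x + h) - u (x + h)) ^ 2 := by
        nlinarith [sq_nonneg ((U j x - u x) + (U j (x + h) - u (x + h)))]
      have h6 := mul_le_mul_of_nonneg_left h5 hc2
      linarith
    calc L ≤ ∫⁻ x in closedBall z r,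
          (ENNReal.ofReal (1 + ε) * ENNReal.ofReal ((U j (x + h) - U j x) ^ 2)
          + ENNReal.ofReal (1 + 1 / ε) * (2 * ENNReal.ofReal ((U j x - u x) ^ 2)
            + 2 * ENNReal.ofReal ((U j (x + h) - u (x + h)) ^ 2))) := lintegral_mono hpt
      _ = ENNReal.ofReal (1 + ε) * (∫⁻ x in closedBall z r,
            ENNReal.ofReal ((U j (x + h) - U j x) ^ 2))
          + ENNReal.ofReal (1 + 1 / ε) * (2 * (∫⁻ x in closedBall z r,
              ENNReal.ofReal ((U j x - u x) ^ 2))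
            + 2 * ∫⁻ x in closedBall z r, ENNReal.ofReal ((U j (x + h) - u (x + h)) ^ 2)) := by
          rw [lintegral_add_left hm1, lintegral_const_mul' _ _ ENNReal.ofReal_ne_top,
            lintegral_const_mul' _ _ ENNReal.ofReal_ne_top, lintegral_add_left' hm2,
            lintegral_const_mul' _ _ (by norm_num), lintegral_const_mul' _ _ (by norm_num)]
      _ ≤ ENNReal.ofReal (1 + ε) * (H *
            (ENNReal.ofReal (1 + ε) * G + ENNReal.ofReal (1 + 1 / ε) * δ j))
          + ENNReal.ofReal (1 + 1 / ε) * (2 * δ j + 2 * δ j) := by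
          gcongr
          · refine (s11_lip (U j) ⟨K, hK⟩ z h r).trans ?_
            gcongr
            calc ∫⁻ x in closedBall z (r + ‖h‖), ENNReal.ofReal (sq (gr (U j) x))
                ≤ ∫⁻ x in closedBall z (r + ‖h‖), (ENNReal.ofReal (1 + ε) *
                    ENNReal.ofReal (sq (g x)) + ENNReal.ofReal (1 + 1 / ε) *
                    ENNReal.ofReal (sq (gr (U j) x - g x))) := by
                  refine lintegral_mono fun x => ?_
                  rw [← ENNReal.ofReal_mul hc1, ← ENNReal.ofReal_mul hc2,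
                    ← ENNReal.ofReal_add (mul_nonneg hc1 (s11_sq_nonneg _))
                      (mul_nonneg hc2 (s11_sq_nonneg _))]
                  refine ENNReal.ofReal_le_ofReal ?_
                  have h7 := s11_sq_add (g x) (gr (U j) x - g x) hε
                  rwa [add_sub_cancel] at h7
              _ = ENNReal.ofReal (1 + ε) * G + ENNReal.ofReal (1 + 1 / ε) *
                    ∫⁻ x in closedBall z (r + ‖h‖), ENNReal.ofReal (sq (gr (U j) x - g x)) := by
                  rw [lintegral_add_left' ((hmsq j).const_mul _),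
                    lintegral_const_mul' _ _ ENNReal.ofReal_ne_top,
                    lintegral_const_mul' _ _ ENNReal.ofReal_ne_top]
              _ ≤ ENNReal.ofReal (1 + ε) * G + ENNReal.ofReal (1 + 1 / ε) * δ j := by
                  gcongr
                  exact e3 j
          · exact e1 j
          · exact e2 j
  have key2 : ∀ ε : ℝ, 0 < ε → L ≤ ENNReal.ofReal (1 + ε) * (H * (ENNReal.ofReal (1 + ε) * G)) := by
    intro ε hε
    have h1 : Tendsto (fun j => ENNReal.ofReal (1 + ε) * (H *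
        (ENNReal.ofReal (1 + ε) * G + ENNReal.ofReal (1 + 1 / ε) * δ j))
        + ENNReal.ofReal (1 + 1 / ε) * (2 * δ j + 2 * δ j)) atTop
        (𝓝 (ENNReal.ofReal (1 + ε) * (H *
        (ENNReal.ofReal (1 + ε) * G + ENNReal.ofReal (1 + 1 / ε) * 0))
        + ENNReal.ofReal (1 + 1 / ε) * (2 * 0 + 2 * 0))) := by
      have h2 : Tendsto (fun j => ENNReal.ofReal (1 + 1 / ε) * δ j) atTop
          (𝓝 (ENNReal.ofReal (1 + 1 / ε) * 0)) :=
        ENNReal.Tendsto.const_mul hδ0 (Or.inr ENNReal.ofReal_ne_top)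
      have h3 : Tendsto (fun j => 2 * δ j) atTop (𝓝 (2 * 0)) :=
        ENNReal.Tendsto.const_mul hδ0 (Or.inr (by norm_num))
      refine Tendsto.add ?_ ?_
      · refine ENNReal.Tendsto.const_mul ?_ (Or.inr ENNReal.ofReal_ne_top)
        refine ENNReal.Tendsto.const_mul ?_ (Or.inr ENNReal.ofReal_ne_top)
        exact tendsto_const_nhds.add h2
      · exact ENNReal.Tendsto.const_mul (h3.add h3) (Or.inr ENNReal.ofReal_ne_top)
    have h4 := ge_of_tendsto' h1 (key ε hε)
    simpa using h4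
  have key3 : L ≤ H * G := by
    have hH' : H ≠ ⊤ := ENNReal.ofReal_ne_top
    have h1 : Tendsto (fun ε : ℝ => ENNReal.ofReal (1 + ε)) (𝓝[>] (0 : ℝ)) (𝓝 1) := by
      have h2 : Tendsto (fun ε : ℝ => ENNReal.ofReal (1 + ε)) (𝓝 (0 : ℝ))
          (𝓝 (ENNReal.ofReal (1 + 0))) :=
        (ENNReal.continuous_ofReal.comp (continuous_const.add continuous_id)).tendsto 0
      rw [add_zero, ENNReal.ofReal_one] at h2
      exact h2.mono_left nhdsWithin_le_nhds
    have h3 : Tendsto (fun ε : ℝ => ENNReal.ofReal (1 + ε) * (H * (ENNReal.ofReal (1 + ε) * G)))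
        (𝓝[>] (0 : ℝ)) (𝓝 (1 * (H * (1 * G)))) := by
      refine ENNReal.Tendsto.mul h1 (Or.inl one_ne_zero) ?_ (Or.inr ENNReal.one_ne_top)
      refine ENNReal.Tendsto.const_mul ?_ (Or.inr hH')
      exact ENNReal.Tendsto.mul_const h1 (Or.inr hGtop)
    rw [one_mul, one_mul] at h3
    refine ge_of_tendsto h3 ?_
    filter_upwards [self_mem_nhdsWithin] with ε hε
    exact key2 ε hε
  -- back to real integrals
  have hmeasL : AEStronglyMeasurable (fun x => (u (x + h) - u x) ^ 2)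
      (volume.restrict (closedBall z r)) := by
    have h1 : AEStronglyMeasurable (fun x => u (x + h)) volume :=
      mu.comp_measurePreserving hshift
    exact ((h1.sub mu).pow 2).restrict
  rw [integral_eq_lintegral_of_nonneg_ae (Filter.Eventually.of_forall fun x => sq_nonneg _) hmeasL,
    integral_eq_lintegral_of_nonneg_ae (Filter.Eventually.of_forall fun x => s11_sq_nonneg _)
      hI.aestronglyMeasurable]
  have h1 : (H * G).toReal = sq h * G.toReal := by
    rw [ENNReal.toReal_mul, hH, ENNReal.toReal_ofReal (s11_sq_nonneg _)]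
  rw [← h1]
  exact ENNReal.toReal_mono (ENNReal.mul_ne_top ENNReal.ofReal_ne_top hGtop) key3

end Pool.Agent.Work.MP_85f2da_an

end
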