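import Pool.Agent.Work.MP_85f2da_an.StmtsB
import Pool.Agent.Work.MP_85f2da_an.Bd.B01

/-! Bundle of small proof modules (one section per former module). -/

section

set_option autoImplicit false

/-!
# MP_85f2da_an: item B4, derivatives of `KD`, `K4`, `K5`
-/

namespace Pool.Agent.Work.MP_85f2da_an

theorem b4_tanh_sq (t : ℝ) : 1 / Real.cosh t ^ 2 = 1 - Real.tanh t ^ 2 := by
  have hc : 0 < Real.cosh t := Real.cosh_pos t
  rw [Real.tanh_eq_sinh_div_cosh]
  field_simp
  have := Real.cosh_sq t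
  linarith

theorem b4_tanh (t : ℝ) : HasDerivAt Real.tanh (1 - Real.tanh t ^ 2) t := by
  have hc : 0 < Real.cosh t := Real.cosh_pos t
  have h : HasDerivAt (fun t => Real.sinh t / Real.cosh t)
      ((Real.cosh t * Real.cosh t - Real.sinh t * Real.sinh t) / Real.cosh t ^ 2) t :=
    (Real.hasDerivAt_sinh t).div (Real.hasDerivAt_cosh t) hc.ne'
  have h2 : (fun t => Real.sinh t / Real.cosh t) = Real.tanh := by
    funext s
    rw [Real.tanh_eq_sinh_div_cosh]
  rw [h2] at h
  have h3 : 1 - Real.tanh t ^ 2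
      = (Real.cosh t * Real.cosh t - Real.sinh t * Real.sinh t) / Real.cosh t ^ 2 := by
    rw [Real.tanh_eq_sinh_div_cosh]
    field_simp
  rw [h3]
  exact h

theorem b4_hh (t : ℝ) : HasDerivAt hh (-(hh t * Real.tanh t)) t := by
  have hc : 0 < Real.cosh t := Real.cosh_pos t
  have hpi : 0 < Real.pi := Real.pi_pos
  have h1 : HasDerivAt (fun t => Real.pi * Real.cosh t) (Real.pi * Real.sinh t) t :=
    (Real.hasDerivAt_cosh t).const_mul Real.pi
  have h2 : HasDerivAt (fun t => (Real.pi * Real.cosh t)⁻¹)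
      (-(Real.pi * Real.sinh t) / (Real.pi * Real.cosh t) ^ 2) t :=
    h1.inv (by positivity)
  have h3 : (fun t => (Real.pi * Real.cosh t)⁻¹) = hh := by
    funext s
    unfold hh
    rw [one_div]
  rw [h3] at h2
  have h4 : -(hh t * Real.tanh t) = -(Real.pi * Real.sinh t) / (Real.pi * Real.cosh t) ^ 2 := by
    unfold hh
    rw [Real.tanh_eq_sinh_div_cosh]
    field_simp
  rw [h4]
  exact h2

theorem b4_bb (t : ℝ) : HasDerivAt bb
    (2 / 9 * (1 + 3 * Real.tanh t ^ 2 + 5 * Real.tanh t ^ 4) * (1 - Real.tanh t ^ 2)) t := by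
  have h0 := b4_tanh t
  have h1 : HasDerivAt (fun t => 2 / 9 * (Real.tanh t + Real.tanh t ^ 3 + Real.tanh t ^ 5))
      (2 / 9 * ((1 - Real.tanh t ^ 2)
        + ((3 : ℕ) : ℝ) * Real.tanh t ^ (3 - 1) * (1 - Real.tanh t ^ 2)
        + ((5 : ℕ) : ℝ) * Real.tanh t ^ (5 - 1) * (1 - Real.tanh t ^ 2))) t :=
    ((h0.add (h0.pow 3)).add (h0.pow 5)).const_mul (2 / 9)
  have h2 : (fun t => 2 / 9 * (Real.tanh t + Real.tanh t ^ 3 + Real.tanh t ^ 5)) = bb := by
    funext s
    unfold bb
    ring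
  rw [h2] at h1
  have h3 : 2 / 9 * (1 + 3 * Real.tanh t ^ 2 + 5 * Real.tanh t ^ 4) * (1 - Real.tanh t ^ 2)
      = 2 / 9 * ((1 - Real.tanh t ^ 2)
        + ((3 : ℕ) : ℝ) * Real.tanh t ^ (3 - 1) * (1 - Real.tanh t ^ 2)
        + ((5 : ℕ) : ℝ) * Real.tanh t ^ (5 - 1) * (1 - Real.tanh t ^ 2)) := by
    push_cast
    ring
  rw [h3]
  exact h1

/-- `hh^2 bb` -/
noncomputable def b4_P (t : ℝ) : ℝ := hh t ^ 2 * bb t

theorem b4_P_der (t : ℝ) : HasDerivAt b4_P (-(4 / 3 * hh t ^ 2 * (1 - xx t))) t := by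
  have h1 : HasDerivAt b4_P (((2 : ℕ) : ℝ) * hh t ^ (2 - 1) * (-(hh t * Real.tanh t)) * bb t
      + hh t ^ 2 * (2 / 9 * (1 + 3 * Real.tanh t ^ 2 + 5 * Real.tanh t ^ 4)
        * (1 - Real.tanh t ^ 2))) t :=
    ((b4_hh t).pow 2).mul (b4_bb t)
  have h2 : -(4 / 3 * hh t ^ 2 * (1 - xx t))
      = ((2 : ℕ) : ℝ) * hh t ^ (2 - 1) * (-(hh t * Real.tanh t)) * bb t
      + hh t ^ 2 * (2 / 9 * (1 + 3 * Real.tanh t ^ 2 + 5 * Real.tanh t ^ 4)
        * (1 - Real.tanh t ^ 2)) := by
    unfold xx bb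
    push_cast
    ring
  rw [h2]
  exact h1

/-- `log (2 cosh t) - t tanh t` -/
noncomputable def b4_Q (t : ℝ) : ℝ := Real.log (2 * Real.cosh t) - t * Real.tanh t

theorem b4_Q_der (t : ℝ) : HasDerivAt b4_Q (-(t * (1 - Real.tanh t ^ 2))) t := by
  have hc : 0 < Real.cosh t := Real.cosh_pos t
  have h1 : HasDerivAt (fun t => Real.log (2 * Real.cosh t))
      ((2 * Real.sinh t) / (2 * Real.cosh t)) t :=
    ((Real.hasDerivAt_cosh t).const_mul 2).log (by positivity)
  have h2 : HasDerivAt (fun t => t * Real.tanh t)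
      (1 * Real.tanh t + t * (1 - Real.tanh t ^ 2)) t :=
    (hasDerivAt_id t).mul (b4_tanh t)
  have h3 : HasDerivAt b4_Q ((2 * Real.sinh t) / (2 * Real.cosh t)
      - (1 * Real.tanh t + t * (1 - Real.tanh t ^ 2))) t := h1.sub h2
  have h4 : -(t * (1 - Real.tanh t ^ 2)) = (2 * Real.sinh t) / (2 * Real.cosh t)
      - (1 * Real.tanh t + t * (1 - Real.tanh t ^ 2)) := by
    rw [Real.tanh_eq_sinh_div_cosh]
    field_simp
    ring
  rw [h4]
  exact h3

theorem b4_hc (t : ℝ) : hh t ^ 2 * cc t = 2 / Real.pi ^ 2 * b4_Q t := by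
  have hc : 0 < Real.cosh t := Real.cosh_pos t
  have hpi : 0 < Real.pi := Real.pi_pos
  unfold hh cc b4_Q
  field_simp

theorem b4_hsq (t : ℝ) : (1 - Real.tanh t ^ 2) / Real.pi ^ 2 = hh t ^ 2 := by
  have hc : 0 < Real.cosh t := Real.cosh_pos t
  have hpi : 0 < Real.pi := Real.pi_pos
  rw [← b4_tanh_sq]
  unfold hh
  field_simp

theorem bDer : BDer := by
  refine ⟨fun t => ?_, fun t => ?_, fun t => ?_⟩
  · have h1 : HasDerivAt (fun t => -(3 / 4) * b4_P t)
        (-(3 / 4) * (-(4 / 3 * hh t ^ 2 * (1 - xx t)))) t := (b4_P_der t).const_mul (-(3 / 4))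
    have h2 : (fun t => -(3 / 4) * b4_P t) = KD := by
      funext s
      unfold KD b4_P
      ring
    rw [h2] at h1
    have h3 : hh t * (kt 0 t - kt 1 t) = -(3 / 4) * (-(4 / 3 * hh t ^ 2 * (1 - xx t))) := by
      simp only [kt, Matrix.cons_val]
      ring
    rw [h3]
    exact h1
  · have h1 : HasDerivAt (fun t => -2 * (t * b4_P t) + 2 / Real.pi ^ 2 * b4_Q t)
        (-2 * (1 * b4_P t + t * (-(4 / 3 * hh t ^ 2 * (1 - xx t))))
          + 2 / Real.pi ^ 2 * (-(t * (1 - Real.tanh t ^ 2)))) t :=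
      (((hasDerivAt_id t).mul (b4_P_der t)).const_mul (-2)).add
        ((b4_Q_der t).const_mul (2 / Real.pi ^ 2))
    have h2 : (fun t => -2 * (t * b4_P t) + 2 / Real.pi ^ 2 * b4_Q t) = K4 := by
      funext s
      rw [← b4_hc]
      unfold K4 b4_P
      ring
    rw [h2] at h1
    have h3 : hh t * kt 4 t = -2 * (1 * b4_P t + t * (-(4 / 3 * hh t ^ 2 * (1 - xx t))))
          + 2 / Real.pi ^ 2 * (-(t * (1 - Real.tanh t ^ 2))) := by
      have h4 : 2 / Real.pi ^ 2 * (-(t * (1 - Real.tanh t ^ 2))) = -(2 * t * hh t ^ 2) := by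
        rw [← b4_hsq]
        ring
      rw [h4]
      simp only [kt, Matrix.cons_val, b4_P]
      ring
    rw [h3]
    exact h1
  · have h1 : HasDerivAt (fun t => -(2 / Real.pi ^ 2) * (t * b4_Q t) + t ^ 2 * b4_P t)
        (-(2 / Real.pi ^ 2) * (1 * b4_Q t + t * (-(t * (1 - Real.tanh t ^ 2))))
          + (((2 : ℕ) : ℝ) * t ^ (2 - 1) * 1 * b4_P t
            + t ^ 2 * (-(4 / 3 * hh t ^ 2 * (1 - xx t))))) t :=
      (((hasDerivAt_id t).mul (b4_Q_der t)).const_mul (-(2 / Real.pi ^ 2))).add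
        (((hasDerivAt_id t).pow 2).mul (b4_P_der t))
    have h2 : (fun t => -(2 / Real.pi ^ 2) * (t * b4_Q t) + t ^ 2 * b4_P t) = K5 := by
      funext s
      have h5 := b4_hc s
      have h6 : -(2 / Real.pi ^ 2) * (s * b4_Q s) = -(s * (2 / Real.pi ^ 2 * b4_Q s)) := by ring
      rw [h6, ← h5]
      unfold K5 b4_P
      ring
    rw [h2] at h1
    have h3 : hh t * kt 5 t
        = -(2 / Real.pi ^ 2) * (1 * b4_Q t + t * (-(t * (1 - Real.tanh t ^ 2))))
          + (((2 : ℕ) : ℝ) * t ^ (2 - 1) * 1 * b4_P t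
            + t ^ 2 * (-(4 / 3 * hh t ^ 2 * (1 - xx t)))) := by
      have h5 := b4_hc t
      have h4 : -(2 / Real.pi ^ 2) * (1 * b4_Q t + t * (-(t * (1 - Real.tanh t ^ 2))))
          = -(2 / Real.pi ^ 2 * b4_Q t) + 2 * t ^ 2 * ((1 - Real.tanh t ^ 2) / Real.pi ^ 2) := by
        ring
      rw [h4, ← h5, b4_hsq]
      simp only [kt, Matrix.cons_val, b4_P]
      push_cast
      ring
    rw [h3]
    exact h1

end Pool.Agent.Work.MP_85f2da_an

end

section

set_option autoImplicit false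

/-!
# MP_85f2da_an: item B1, bounds for `hh`
-/

namespace Pool.Agent.Work.MP_85f2da_an

theorem b1_cosh_le (t : ℝ) : Real.cosh t ≤ Real.exp |t| := by
  rw [← Real.cosh_abs, Real.cosh_eq]
  have h : Real.exp (-|t|) ≤ Real.exp |t| := by
    apply Real.exp_le_exp.mpr
    have := abs_nonneg t
    linarith
  linarith

theorem b1_le_cosh (t : ℝ) : Real.exp |t| / 2 ≤ Real.cosh t := by
  rw [← Real.cosh_abs, Real.cosh_eq]
  have h : 0 < Real.exp (-|t|) := Real.exp_pos _
  linarith

theorem bHh : BHh := by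
  intro t
  have hpi : 0 < Real.pi := Real.pi_pos
  have hc : 0 < Real.cosh t := Real.cosh_pos t
  have hc1 : 1 ≤ Real.cosh t := Real.one_le_cosh t
  have hle := b1_cosh_le t
  have hge := b1_le_cosh t
  have he : 0 < Real.exp |t| := Real.exp_pos _
  unfold hh
  refine ⟨by positivity, ?_, ?_, ?_⟩
  · rw [Real.exp_neg, div_le_div_iff₀ hpi (by positivity)]
    rw [inv_mul_le_iff₀ he]
    nlinarith
  · rw [Real.exp_neg, div_le_iff₀ (by positivity)]
    have : 2 / Real.pi * (Real.exp |t|)⁻¹ * (Real.pi * Real.cosh t)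
        = 2 * Real.cosh t / Real.exp |t| := by
      field_simp
    rw [this, le_div_iff₀ he]
    linarith
  · rw [div_le_div_iff₀ (by positivity) hpi]
    nlinarith

end Pool.Agent.Work.MP_85f2da_an

end

section

set_option autoImplicit false

/-!
# MP_85f2da_an, item B7: the primitives of the level densities
-/

open MeasureTheory Filter Set Metric
open scoped ENNReal Topology ContDiff

namespace Pool.Agent.Work.MP_85f2da_an

theorem b7_exp_top : Tendsto (fun t : ℝ => Real.exp (-|t|)) atTop (𝓝 0) :=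
  Real.tendsto_exp_atBot.comp (tendsto_neg_atTop_atBot.comp tendsto_abs_atTop_atTop)

theorem b7_exp_bot : Tendsto (fun t : ℝ => Real.exp (-|t|)) atBot (𝓝 0) :=
  Real.tendsto_exp_atBot.comp (tendsto_neg_atTop_atBot.comp tendsto_abs_atBot_atTop)

theorem b7_lim {l : Filter ℝ} (hl : Tendsto (fun t : ℝ => Real.exp (-|t|)) l (𝓝 0))
    {K : ℝ → ℝ} {C : ℝ} (hb : ∀ t, |K t| ≤ C * Real.exp (-|t|)) : Tendsto K l (𝓝 0) := by
  have h : Tendsto (fun t : ℝ => C * Real.exp (-|t|)) l (𝓝 0) := by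
    simpa using hl.const_mul C
  exact squeeze_zero_norm (fun t => by rw [Real.norm_eq_abs]; exact hb t) h

theorem b7_main (hP : BProf) {k k' K : ℝ → ℝ} {C : ℝ} (hk : ∀ v, HasDerivAt k (k' v) v)
    (hk0 : k 0 = 0) (hK : ∀ t, HasDerivAt K (hh t * k' (gv t)) t)
    (hb : ∀ t, |K t| ≤ C * Real.exp (-|t|)) : (∀ t, k (gv t) = K t) ∧ k 1 = 0 := by
  obtain ⟨hg, -, -, -, -, -, hbot, htop, -, -⟩ := hP
  have hd : ∀ t, HasDerivAt (fun t => k (gv t) - K t) 0 t := by
    intro t
    have h1 : HasDerivAt (fun t => k (gv t)) (k' (gv t) * hh t) t := (hk (gv t)).comp t (hg t)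
    have h2 := h1.sub (hK t)
    have e : k' (gv t) * hh t - hh t * k' (gv t) = 0 := by ring
    rw [e] at h2
    exact h2
  have hdiff : Differentiable ℝ (fun t => k (gv t) - K t) := fun t => (hd t).differentiableAt
  have hconst : ∀ t s, k (gv t) - K t = k (gv s) - K s := by
    intro t s
    exact is_const_of_deriv_eq_zero hdiff (fun x => (hd x).deriv) t s
  have hkc : ∀ v, ContinuousAt k v := fun v => (hk v).continuousAt
  have hlim0 : Tendsto (fun t => k (gv t) - K t) atBot (𝓝 0) := by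
    have h1 : Tendsto (fun t => k (gv t)) atBot (𝓝 (k 0)) := (hkc 0).tendsto.comp hbot
    rw [hk0] at h1
    simpa using h1.sub (b7_lim b7_exp_bot hb)
  have hz : ∀ t, k (gv t) - K t = 0 := by
    intro t
    have h1 : Tendsto (fun s => k (gv s) - K s) atBot (𝓝 (k (gv t) - K t)) := by
      have e : (fun s => k (gv s) - K s) = fun _ => k (gv t) - K t := by
        funext s
        exact hconst s t
      rw [e]
      exact tendsto_const_nhds
    exact tendsto_nhds_unique h1 hlim0
  refine ⟨fun t => by linarith [hz t], ?_⟩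
  have h1 : Tendsto (fun t => k (gv t)) atTop (𝓝 (k 1)) := (hkc 1).tendsto.comp htop
  have h2 : Tendsto (fun t => k (gv t)) atTop (𝓝 0) := by
    have e : (fun t => k (gv t)) = K := by
      funext t
      linarith [hz t]
    rw [e]
    exact b7_lim b7_exp_top hb
  exact tendsto_nhds_unique h1 h2

theorem b7_deriv (hC : BCont) (i : Fin 6) (v : ℝ) : HasDerivAt (kk i) (kp i v) v :=
  ((hC i).integral_hasStrictDerivAt 0 v).hasDerivAt

theorem b7_kp_neg (i : Fin 6) {v : ℝ} (hv : v ≤ 0) : kp i v = 0 := by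
  unfold kp
  rw [if_neg]
  rintro ⟨h1, -⟩
  linarith

theorem b7_kp_one (i : Fin 6) {v : ℝ} (hv : 1 ≤ v) : kp i v = 0 := by
  unfold kp
  rw [if_neg]
  rintro ⟨-, h1⟩
  linarith

theorem b7_kk_neg (i : Fin 6) {v : ℝ} (hv : v ≤ 0) : kk i v = 0 := by
  unfold kk
  have h : ∀ y ∈ uIcc 0 v, kp i y = (fun _ => (0 : ℝ)) y := by
    intro y hy
    rw [uIcc_of_ge hv] at hy
    exact b7_kp_neg i hy.2
  rw [intervalIntegral.integral_congr h]
  simp

theorem b7_kk_one (hC : BCont) (i : Fin 6) {v : ℝ} (hv : 1 ≤ v) : kk i v = kk i 1 := by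
  unfold kk
  have h0 : IntervalIntegrable (kp i) volume 0 1 := (hC i).intervalIntegrable _ _
  have h1 : IntervalIntegrable (kp i) volume 1 v := (hC i).intervalIntegrable _ _
  rw [← intervalIntegral.integral_add_adjacent_intervals h0 h1]
  have h : ∀ y ∈ uIcc 1 v, kp i y = (fun _ => (0 : ℝ)) y := by
    intro y hy
    rw [uIcc_of_le hv] at hy
    exact b7_kp_one i hy.1
  rw [intervalIntegral.integral_congr h]
  simp

theorem b7_bd (hC : BCont) (i : Fin 6) : ∃ C : ℝ, 0 ≤ C ∧ ∀ v, |kk i v| ≤ C ∧ |kp i v| ≤ C := by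
  obtain ⟨C, hCb⟩ := (isCompact_Icc (a := (0 : ℝ)) (b := 1)).exists_bound_of_continuousOn
    (hC i).continuousOn
  have hC0 : 0 ≤ C := le_trans (norm_nonneg _) (hCb 0 ⟨le_refl _, by norm_num⟩)
  have hkp : ∀ v, |kp i v| ≤ C := by
    intro v
    by_cases h0 : v ≤ 0
    · rw [b7_kp_neg i h0]; simpa using hC0
    by_cases h1 : 1 ≤ v
    · rw [b7_kp_one i h1]; simpa using hC0
    · exact hCb v ⟨by linarith, by linarith⟩
  have hI : ∀ v, 0 ≤ v → v ≤ 1 → |kk i v| ≤ C := by
    intro v hv0 hv1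
    have h := intervalIntegral.norm_integral_le_of_norm_le_const (a := 0) (b := v) (f := kp i)
      (C := C) (fun x _ => hkp x)
    rw [Real.norm_eq_abs] at h
    have e : |v - 0| = v := by rw [sub_zero, abs_of_nonneg hv0]
    rw [e] at h
    unfold kk
    nlinarith
  refine ⟨C, hC0, fun v => ⟨?_, hkp v⟩⟩
  by_cases h0 : v ≤ 0
  · rw [b7_kk_neg i h0]; simpa using hC0
  by_cases h1 : 1 ≤ v
  · rw [b7_kk_one hC i h1]; exact hI 1 (by norm_num) le_rfl
  · exact hI v (by linarith) (by linarith)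

theorem b7_sq (hH : BHh) (t : ℝ) : hh t ^ 2 * (1 + |t|) ^ 2 ≤ 4 * Real.exp (-|t|) := by
  obtain ⟨h0, -, h1, -⟩ := hH t
  have hpi : 2 / Real.pi ≤ 1 := by
    rw [div_le_one Real.pi_pos]
    linarith [Real.pi_gt_three]
  have h2 : hh t ≤ Real.exp (-|t|) := by
    refine le_trans h1 ?_
    have := Real.exp_pos (-|t|)
    nlinarith
  have h3 : 1 + |t| ≤ 2 * Real.exp (|t| / 2) := by
    have := Real.add_one_le_exp (|t| / 2)
    linarith
  have h4 : (1 + |t|) ^ 2 ≤ 4 * Real.exp |t| := by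
    have h5 : (2 * Real.exp (|t| / 2)) ^ 2 = 4 * Real.exp |t| := by
      rw [mul_pow, ← Real.exp_nat_mul]
      norm_num
      ring
    rw [← h5]
    exact pow_le_pow_left₀ (by positivity) h3 2
  have h6 : hh t ^ 2 ≤ Real.exp (-|t|) ^ 2 := pow_le_pow_left₀ h0.le h2 2
  calc hh t ^ 2 * (1 + |t|) ^ 2 ≤ Real.exp (-|t|) ^ 2 * (4 * Real.exp |t|) :=
        mul_le_mul h6 h4 (by positivity) (by positivity)
    _ = 4 * Real.exp (-|t|) * (Real.exp (-|t|) * Real.exp |t|) := by ring
    _ = 4 * Real.exp (-|t|) := by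
        rw [← Real.exp_add]
        simp

theorem bPrim (hC : BCont) (hP : BProf) (hD : BDer) (hB : BBd) (hH : BHh) : BPrim := by
  obtain ⟨C0, hC0, -, hK⟩ := hB
  have hkt : ∀ (i : Fin 6) (t : ℝ), kp i (gv t) = kt i t := by
    intro i t
    unfold kp
    rw [if_pos (hP.2.1 t), hP.2.2.1 t]
  have hT1 : ∀ t : ℝ, 1 ≤ 1 + |t| := fun t => by linarith [abs_nonneg t]
  have hc : ∀ t, 0 ≤ C0 * hh t ^ 2 := fun t => by positivity
  have b5 : ∀ t, C0 * hh t ^ 2 * (1 + |t|) ^ 2 ≤ 4 * C0 * Real.exp (-|t|) := by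
    intro t
    have := b7_sq hH t
    nlinarith
  have bD : ∀ t, |KD t| ≤ 4 * C0 * Real.exp (-|t|) := fun t => by
    refine le_trans (hK t).1 (le_trans ?_ (b5 t))
    exact le_mul_of_one_le_right (hc t) (one_le_pow₀ (hT1 t))
  have b4 : ∀ t, |K4 t| ≤ 4 * C0 * Real.exp (-|t|) := fun t => by
    refine le_trans (hK t).2.1 (le_trans ?_ (b5 t))
    exact mul_le_mul_of_nonneg_left (le_self_pow₀ (hT1 t) (by norm_num)) (hc t)
  have b5' : ∀ t, |K5 t| ≤ 4 * C0 * Real.exp (-|t|) := fun t => le_trans (hK t).2.2 (b5 t)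
  have hz : ∀ i, kk i 0 = 0 := fun i => b7_kk_neg i le_rfl
  have mD := b7_main hP (k := fun v => kk 0 v - kk 1 v) (k' := fun v => kp 0 v - kp 1 v)
    (K := KD) (C := 4 * C0) (fun v => (b7_deriv hC 0 v).sub (b7_deriv hC 1 v))
    (by simp [hz]) (fun t => by
      have := hD.1 t
      simp only [hkt]
      exact this) bD
  have m4 := b7_main hP (k := kk 4) (k' := kp 4)
    (K := K4) (C := 4 * C0) (fun v => b7_deriv hC 4 v) (hz 4) (fun t => by
      have := hD.2.1 t
      simp only [hkt]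
      exact this) b4
  have m5 := b7_main hP (k := kk 5) (k' := kp 5)
    (K := K5) (C := 4 * C0) (fun v => b7_deriv hC 5 v) (hz 5) (fun t => by
      have := hD.2.2 t
      simp only [hkt]
      exact this) b5'
  refine ⟨b7_deriv hC, fun i v hv => b7_kk_neg i hv, mD.1, m4.1, m5.1, ?_, ?_⟩
  · intro v hv
    refine ⟨?_, ?_, ?_⟩
    · rw [b7_kk_one hC 0 hv, b7_kk_one hC 1 hv]
      exact mD.2
    · rw [b7_kk_one hC 4 hv]
      exact m4.2
    · rw [b7_kk_one hC 5 hv]
      exact m5.2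
  · choose C hC1 hC2 using b7_bd hC
    refine ⟨∑ i, C i, fun i v => ?_⟩
    have hle : C i ≤ ∑ i, C i := Finset.single_le_sum (fun j _ => hC1 j) (Finset.mem_univ i)
    exact ⟨le_trans (hC2 i v).1 hle, le_trans (hC2 i v).2 hle⟩

end Pool.Agent.Work.MP_85f2da_an

end

section

set_option autoImplicit false

/-!
# MP_85f2da_an: item B3, the profile `gv` and its inverse `tauv`
-/

open Filter Set
open scoped Topology

namespace Pool.Agent.Work.MP_85f2da_an

theorem b3_arctan_le (x : ℝ) (hx : 0 ≤ x) : Real.arctan x ≤ x := by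
  have h0 : 0 ≤ Real.arctan x := Real.arctan_nonneg.mpr hx
  have h := Real.le_tan h0 (Real.arctan_lt_pi_div_two x)
  rwa [Real.tan_arctan] at h

theorem b3_hh (t : ℝ) : hh t = 2 / Real.pi * (Real.exp t / (1 + Real.exp t ^ 2)) := by
  unfold hh
  have hE : 0 < Real.exp t := Real.exp_pos t
  have hpi : 0 < Real.pi := Real.pi_pos
  rw [Real.cosh_eq, Real.exp_neg]
  field_simp
  ring

theorem b3_deriv (t : ℝ) : HasDerivAt gv (hh t) t := by
  have h1 : HasDerivAt (fun t => Real.arctan (Real.exp t))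
      (1 / (1 + Real.exp t ^ 2) * Real.exp t) t :=
    (Real.hasDerivAt_exp t).arctan
  have h2 : HasDerivAt gv (2 / Real.pi * (1 / (1 + Real.exp t ^ 2) * Real.exp t)) t :=
    h1.const_mul (2 / Real.pi)
  have h3 : hh t = 2 / Real.pi * (1 / (1 + Real.exp t ^ 2) * Real.exp t) := by
    rw [b3_hh]
    ring
  rw [h3]
  exact h2

theorem b3_bd (t : ℝ) : 0 < gv t ∧ gv t < 1 := by
  have hE : 0 < Real.exp t := Real.exp_pos t
  have hpi : 0 < Real.pi := Real.pi_pos
  have h0 : 0 < Real.arctan (Real.exp t) := Real.arctan_pos.mpr hE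
  have h1 := Real.arctan_lt_pi_div_two (Real.exp t)
  unfold gv
  constructor
  · positivity
  · have : 2 / Real.pi * Real.arctan (Real.exp t) < 2 / Real.pi * (Real.pi / 2) := by
      apply mul_lt_mul_of_pos_left h1 (by positivity)
    have h2 : 2 / Real.pi * (Real.pi / 2) = 1 := by field_simp
    linarith

theorem b3_half (t : ℝ) : Real.pi * gv t / 2 = Real.arctan (Real.exp t) := by
  have hpi : 0 < Real.pi := Real.pi_pos
  unfold gv
  field_simp

theorem b3_tauv_gv (t : ℝ) : tauv (gv t) = t := by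
  unfold tauv
  rw [b3_half, Real.tan_arctan, Real.log_exp]

theorem b3_gv_tauv (v : ℝ) (h0 : 0 < v) (h1 : v < 1) : gv (tauv v) = v := by
  have hpi : 0 < Real.pi := Real.pi_pos
  have ha : 0 < Real.pi * v / 2 := by positivity
  have hb : Real.pi * v / 2 < Real.pi / 2 := by nlinarith
  have ht : 0 < Real.tan (Real.pi * v / 2) := Real.tan_pos_of_pos_of_lt_pi_div_two ha hb
  unfold gv tauv
  rw [Real.exp_log ht, Real.arctan_tan (by linarith) hb]
  field_simp

theorem b3_hv (t : ℝ) : hv (gv t) = hh t := by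
  have hpi : 0 < Real.pi := Real.pi_pos
  have h : Real.pi * gv t = 2 * Real.arctan (Real.exp t) := by
    have := b3_half t
    linarith
  unfold hv
  rw [h, Real.sin_two_mul, Real.sin_arctan, Real.cos_arctan, b3_hh]
  have hs : 0 < 1 + Real.exp t ^ 2 := by positivity
  have hq : Real.sqrt (1 + Real.exp t ^ 2) ^ 2 = 1 + Real.exp t ^ 2 := Real.sq_sqrt hs.le
  have hq0 : 0 < Real.sqrt (1 + Real.exp t ^ 2) := Real.sqrt_pos.mpr hs
  have : 2 * (Real.exp t / Real.sqrt (1 + Real.exp t ^ 2)) * (1 / Real.sqrt (1 + Real.exp t ^ 2))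
      = 2 * Real.exp t / Real.sqrt (1 + Real.exp t ^ 2) ^ 2 := by
    field_simp
  rw [this, hq]
  field_simp

theorem b3_cont : ContinuousOn tauv (Ioo 0 1) := by
  intro v hv
  have hpi : 0 < Real.pi := Real.pi_pos
  have ha : 0 < Real.pi * v / 2 := by
    have := hv.1
    positivity
  have hb : Real.pi * v / 2 < Real.pi / 2 := by
    have := hv.2
    nlinarith
  have ht : 0 < Real.tan (Real.pi * v / 2) := Real.tan_pos_of_pos_of_lt_pi_div_two ha hb
  have hc : Real.cos (Real.pi * v / 2) ≠ 0 := by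
    apply ne_of_gt
    exact Real.cos_pos_of_mem_Ioo ⟨by linarith, hb⟩
  apply ContinuousAt.continuousWithinAt
  unfold tauv
  apply ContinuousAt.log
  · apply ContinuousAt.comp (f := fun v : ℝ => Real.pi * v / 2) (g := Real.tan)
    · exact Real.continuousAt_tan.mpr hc
    · fun_prop
  · exact ht.ne'

theorem b3_bot : Tendsto gv atBot (𝓝 0) := by
  have h1 : Tendsto (fun t => Real.arctan (Real.exp t)) atBot (𝓝 (Real.arctan 0)) :=
    (Real.continuous_arctan.tendsto 0).comp Real.tendsto_exp_atBot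
  have h2 := h1.const_mul (2 / Real.pi)
  rw [Real.arctan_zero, mul_zero] at h2
  exact h2

theorem b3_top : Tendsto gv atTop (𝓝 1) := by
  have h1 : Tendsto (fun t => Real.arctan (Real.exp t)) atTop (𝓝 (Real.pi / 2)) :=
    (tendsto_nhds_of_tendsto_nhdsWithin Real.tendsto_arctan_atTop).comp Real.tendsto_exp_atTop
  have h2 := h1.const_mul (2 / Real.pi)
  have hpi : 0 < Real.pi := Real.pi_pos
  have h3 : 2 / Real.pi * (Real.pi / 2) = 1 := by field_simp
  rw [h3] at h2
  exact h2

theorem b3_one_sub (t : ℝ) : 1 - gv t ≤ Real.exp (-t) := by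
  have hpi : 0 < Real.pi := Real.pi_pos
  have hE : 0 < Real.exp t := Real.exp_pos t
  have h1 : Real.arctan (Real.exp (-t)) = Real.pi / 2 - Real.arctan (Real.exp t) := by
    rw [Real.exp_neg, Real.arctan_inv_of_pos hE]
  have h2 : 1 - gv t = 2 / Real.pi * Real.arctan (Real.exp (-t)) := by
    rw [h1]
    unfold gv
    field_simp
  have h3 := b3_arctan_le (Real.exp (-t)) (Real.exp_pos _).le
  have h4 : 2 / Real.pi ≤ 1 := by
    rw [div_le_one hpi]
    have := Real.pi_gt_three
    linarith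
  have h5 : 0 ≤ Real.arctan (Real.exp (-t)) := Real.arctan_nonneg.mpr (Real.exp_pos _).le
  rw [h2]
  nlinarith

theorem b3_le_exp (t : ℝ) : gv t ≤ Real.exp t := by
  have hpi : 0 < Real.pi := Real.pi_pos
  have hE : 0 < Real.exp t := Real.exp_pos t
  have h3 := b3_arctan_le (Real.exp t) hE.le
  have h4 : 2 / Real.pi ≤ 1 := by
    rw [div_le_one hpi]
    have := Real.pi_gt_three
    linarith
  have h5 : 0 ≤ Real.arctan (Real.exp t) := Real.arctan_nonneg.mpr hE.le
  unfold gv
  nlinarith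

theorem bProf : BProf :=
  ⟨b3_deriv, b3_bd, b3_tauv_gv, b3_gv_tauv, b3_hv, b3_cont, b3_bot, b3_top,
    fun t => ⟨by linarith [(b3_bd t).2], b3_one_sub t⟩, b3_le_exp⟩

end Pool.Agent.Work.MP_85f2da_an

end

section

set_option autoImplicit false

/-!
# MP_85f2da_an, item C10: total variation bound in the sector (helper57)
-/

open MeasureTheory Filter Set Metric
open scoped ENNReal Topology ContDiff

namespace Pool.Agent.Work.MP_85f2da_an

private theorem c10_gr_meas {d : ℕ} (u : (Fin d → ℝ) → ℝ) : Measurable (gr u) := by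
  refine measurable_pi_lambda _ fun i => ?_
  exact measurable_fderiv_apply_const ℝ u _

private theorem c10_gr_bdd {d : ℕ} {u : (Fin d → ℝ) → ℝ} (hu : Lip u) :
    ∃ K : ℝ, ∀ x, gr u x ∈ closedBall (0 : Fin d → ℝ) K := by
  obtain ⟨K, hK⟩ := hu
  refine ⟨K, fun x => ?_⟩
  rw [mem_closedBall_zero_iff]
  refine (pi_norm_le_iff_of_nonneg K.coe_nonneg).2 fun i => ?_
  unfold gr
  refine (ContinuousLinearMap.le_opNorm _ _).trans ?_
  have h2 : ‖fderiv ℝ u x‖ ≤ K := norm_fderiv_le_of_lipschitz ℝ hK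
  have h3 : ‖(Pi.single i (1 : ℝ) : Fin d → ℝ)‖ = 1 := by
    rw [Pi.norm_single, norm_one]
  rw [h3, mul_one]
  exact h2

private theorem c10_lip_cont {d : ℕ} {u : (Fin d → ℝ) → ℝ} (hu : Lip u) : Continuous u := by
  obtain ⟨K, hK⟩ := hu
  exact hK.continuous

private theorem c10_gr_out {d : ℕ} {w U : (Fin d → ℝ) → ℝ} {ρ : ℝ}
    (h : ∀ x, x ∉ closedBall (0 : Fin d → ℝ) ρ → U x = w x) {x : Fin d → ℝ}
    (hx : x ∉ closedBall (0 : Fin d → ℝ) ρ) : gr U x = gr w x := by
  have he : U =ᶠ[𝓝 x] w := by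
    filter_upwards [isClosed_closedBall.isOpen_compl.mem_nhds hx] with y hy
    exact h y hy
  unfold gr
  rw [he.fderiv_eq]

private theorem c10_Lam_cont (δ : ℝ) : Continuous (Lam4 δ) := by
  unfold Lam4 A1 A2
  fun_prop

private theorem c10_hv_cont : Continuous hv := by
  unfold hv
  fun_prop

private theorem c10_Fv_cont : Continuous Fv := by
  unfold Fv
  exact (c10_hv_cont.pow 2).div_const 2

private theorem c10_nx_cont : Continuous nx := by
  unfold nx
  fun_prop

private theorem c10_ny_cont : Continuous ny := by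
  unfold ny
  fun_prop

private theorem c10_Rz_cont : Continuous Rz := c10_nx_cont.add c10_ny_cont

private theorem c10_az_cont : Continuous az := c10_nx_cont.sub c10_ny_cont

private theorem c10_Zs_meas : MeasurableSet Zs := by
  have h1 : MeasurableSet {z | 2 < Rz z} := measurableSet_lt measurable_const c10_Rz_cont.measurable
  have h2 : Measurable fun z => |az z| / Rz z :=
    (continuous_abs.comp c10_az_cont).measurable.div c10_Rz_cont.measurable
  have h3 : MeasurableSet {z | 1 / 4 ≤ |az z| / Rz z} := measurableSet_le measurable_const h2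
  have h4 : MeasurableSet {z | |az z| / Rz z ≤ 1 / 3} := measurableSet_le h2 measurable_const
  exact h1.inter (h3.inter h4)

private theorem c10_norm_le_Rz (z : Fin 4 → ℝ) : ‖z‖ ≤ Rz z := by
  have hx : 0 ≤ nx z := Real.sqrt_nonneg _
  have hy : 0 ≤ ny z := Real.sqrt_nonneg _
  have h0 : |z 0| ≤ nx z := by
    unfold nx
    exact Real.abs_le_sqrt (by nlinarith [sq_nonneg (z 1)])
  have h1 : |z 1| ≤ nx z := by
    unfold nx
    exact Real.abs_le_sqrt (by nlinarith [sq_nonneg (z 0)])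
  have h2 : |z 2| ≤ ny z := by
    unfold ny
    exact Real.abs_le_sqrt (by nlinarith [sq_nonneg (z 3)])
  have h3 : |z 3| ≤ ny z := by
    unfold ny
    exact Real.abs_le_sqrt (by nlinarith [sq_nonneg (z 2)])
  rw [pi_norm_le_iff_of_nonneg (show 0 ≤ Rz z from add_nonneg hx hy)]
  intro i
  rw [Real.norm_eq_abs]
  unfold Rz
  fin_cases i
  · show |z 0| ≤ _
    linarith
  · show |z 1| ≤ _
    linarith
  · show |z 2| ≤ _
    linarith
  · show |z 3| ≤ _
    linarith

/-- the error function of `Cal` -/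
private noncomputable def c10_err (z : Fin 4 → ℝ) : ℝ := if 2 < Rz z then VV z else 1

private theorem c10_err_nonneg (z : Fin 4 → ℝ) : 0 ≤ c10_err z := by
  unfold c10_err VV
  split_ifs
  · positivity
  · exact zero_le_one

private theorem c10_err_int (h : CInt) : Integrable c10_err := by
  have hm : MeasurableSet {z | 2 < Rz z} := measurableSet_lt measurable_const c10_Rz_cont.measurable
  have h1 : Integrable ({z | 2 < Rz z}.indicator VV) := by
    rw [integrable_indicator_iff hm]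
    exact h
  have h2 : Integrable ({z | 2 < Rz z}ᶜ.indicator (fun _ : Fin 4 → ℝ => (1 : ℝ))) := by
    rw [integrable_indicator_iff hm.compl]
    refine integrableOn_const ?_
    have hsub : {z | 2 < Rz z}ᶜ ⊆ closedBall (0 : Fin 4 → ℝ) 2 := by
      intro z hz
      rw [mem_compl_iff, mem_ofPred_eq, not_lt] at hz
      rw [mem_closedBall_zero_iff]
      exact (c10_norm_le_Rz z).trans hz
    exact (lt_of_le_of_lt (measure_mono hsub) (isCompact_closedBall _ _).measure_lt_top).ne
  have h3 : c10_err = fun z => {z | 2 < Rz z}.indicator VV z +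
      {z | 2 < Rz z}ᶜ.indicator (fun _ : Fin 4 → ℝ => (1 : ℝ)) z := by
    funext z
    unfold c10_err
    by_cases hz : 2 < Rz z
    · rw [if_pos hz, indicator_of_mem (show z ∈ {z | 2 < Rz z} from hz),
        indicator_of_notMem (show z ∉ {z | 2 < Rz z}ᶜ from fun h => h hz), add_zero]
    · rw [if_neg hz, indicator_of_notMem (show z ∉ {z | 2 < Rz z} from hz),
        indicator_of_mem (show z ∈ {z | 2 < Rz z}ᶜ from hz), zero_add]
  rw [h3]
  exact h1.add h2

private theorem c10_exp_int : Integrable (fun z : Fin 4 → ℝ => Real.exp (-‖z‖ / 4)) := by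
  have h1 : Integrable (fun z : Fin 4 → ℝ => (1 + ‖z‖) ^ (-(5 : ℝ))) := by
    refine integrable_one_add_norm ?_
    rw [Module.finrank_fin_fun]
    norm_num
  refine (h1.const_mul (Real.exp (1 / 4) * (120 * 4 ^ 5))).mono'
    (by fun_prop) (Eventually.of_forall fun z => ?_)
  rw [Real.norm_eq_abs, abs_of_pos (Real.exp_pos _)]
  have hs : 0 ≤ ‖z‖ := norm_nonneg z
  have h2 := Real.pow_div_factorial_le_exp ((1 + ‖z‖) / 4) (by positivity) 5
  have h3 : (1 + ‖z‖) ^ (-(5 : ℝ)) = ((1 + ‖z‖) ^ 5)⁻¹ := by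
    rw [Real.rpow_neg (by positivity)]
    norm_cast
  rw [h3]
  have h4 : Real.exp (-‖z‖ / 4) = Real.exp (1 / 4) * (Real.exp ((1 + ‖z‖) / 4))⁻¹ := by
    rw [← Real.exp_neg, ← Real.exp_add]
    congr 1
    ring
  rw [h4, mul_assoc]
  gcongr
  have h5 : (((1 + ‖z‖) / 4) ^ 5 / (Nat.factorial 5 : ℝ))⁻¹ = 120 * 4 ^ 5 * ((1 + ‖z‖) ^ 5)⁻¹ := by
    have : (Nat.factorial 5 : ℝ) = 120 := by norm_num [Nat.factorial]
    rw [this, div_pow]
    field_simp
  rw [← h5]
  exact inv_anti₀ (by positivity) h2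

/-- the gradient of the boundary function in the sector -/
private theorem c10_w_bound (hW : CW) (hH : BHh) {z : Fin 4 → ℝ} (hx : 0 < nx z) (hy : 0 < ny z)
    (hz : z ∈ Zs) : Real.sqrt (sq (gr wz z)) ≤ Real.exp (-‖z‖ / 4) := by
  rw [hW.2.2 z hx hy]
  have hxx : nx z ^ 2 = z 0 ^ 2 + z 1 ^ 2 := by
    unfold nx
    exact Real.sq_sqrt (by positivity)
  have hyy : ny z ^ 2 = z 2 ^ 2 + z 3 ^ 2 := by
    unfold ny
    exact Real.sq_sqrt (by positivity)
  have h1 : sq (hh (az z) • (![z 0 / nx z, z 1 / nx z, -(z 2 / ny z), -(z 3 / ny z)] :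
      Fin 4 → ℝ)) = 2 * hh (az z) ^ 2 := by
    unfold sq
    rw [Fin.sum_univ_four]
    simp only [Pi.smul_apply, smul_eq_mul, Matrix.cons_val_zero, Matrix.cons_val_one,
      Matrix.cons_val]
    have e1 : (hh (az z) * (z 0 / nx z)) ^ 2 + (hh (az z) * (z 1 / nx z)) ^ 2 +
        (hh (az z) * -(z 2 / ny z)) ^ 2 + (hh (az z) * -(z 3 / ny z)) ^ 2 =
        hh (az z) ^ 2 * ((z 0 ^ 2 + z 1 ^ 2) / nx z ^ 2 + (z 2 ^ 2 + z 3 ^ 2) / ny z ^ 2) := by
      field_simp
      ring
    rw [e1, ← hxx, ← hyy, div_self (by positivity), div_self (by positivity)]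
    ring
  rw [h1]
  obtain ⟨g0, -, g2, -⟩ := hH (az z)
  have h2 : |az z| ≥ ‖z‖ / 4 := by
    have h3 := hz.2.1
    have h4 : 0 < Rz z := by linarith [hz.1]
    rw [le_div_iff₀ h4] at h3
    have := c10_norm_le_Rz z
    linarith
  have h3 : Real.exp (-|az z|) ≤ Real.exp (-‖z‖ / 4) := by
    apply Real.exp_le_exp.2
    linarith
  refine le_trans ?_ h3
  rw [Real.sqrt_le_left (Real.exp_pos _).le]
  have hpi := Real.pi_gt_three
  have h4 : hh (az z) ≤ 2 / 3 * Real.exp (-|az z|) := by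
    refine g2.trans ?_
    gcongr
  have h5 : hh (az z) ^ 2 ≤ (2 / 3 * Real.exp (-|az z|)) ^ 2 :=
    pow_le_pow_left₀ g0.le h4 2
  nlinarith [sq_nonneg (Real.exp (-|az z|))]

theorem cMain (hNL : CNullLag) (hL : CLip) (_ : CCal) (hN : CNull) (hI : CInt) (hW : CW)
    (hP : BPrim) (hC : BCont) (hH : BHh) : CMain := by
  intro δ hδ hδ1 hCal
  obtain ⟨C, c3, hC0, hc3, hcal⟩ := hCal
  have hei := c10_err_int hI
  set I := ∫ z, c10_err z with hIdef
  set J := ∫ z : Fin 4 → ℝ, Real.exp (-‖z‖ / 4) with hJdef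
  refine ⟨c3⁻¹ * (2 * (C * I) + 1) + J, fun ρ U hU => ?_⟩
  have hI0 : 0 ≤ I := integral_nonneg c10_err_nonneg
  have hJ0 : 0 ≤ J := integral_nonneg fun z => (Real.exp_pos _).le
  set B : Set (Fin 4 → ℝ) := closedBall 0 ρ with hB
  have hBm : MeasurableSet B := isClosed_closedBall.measurableSet
  have hfin : IsFiniteMeasure (volume.restrict B) :=
    isFiniteMeasure_restrict.2 (isCompact_closedBall _ _).measure_lt_top.ne
  -- integrability of the energy
  have hen : ∀ V : (Fin 4 → ℝ) → ℝ, Lip V →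
      IntegrableOn (fun x => Lam4 δ (gr V x) + Fv (V x)) B := by
    intro V hV
    obtain ⟨K, hK⟩ := c10_gr_bdd hV
    obtain ⟨M, hM⟩ := (isCompact_closedBall (0 : Fin 4 → ℝ) K).exists_bound_of_continuousOn
      (c10_Lam_cont δ).continuousOn
    have h1 : Integrable (fun x => Lam4 δ (gr V x)) (volume.restrict B) :=
      Integrable.of_bound ((c10_Lam_cont δ).measurable.comp
        (c10_gr_meas V)).aestronglyMeasurable M (Eventually.of_forall fun x => hM _ (hK x))
    have h2 : Integrable (fun x => Fv (V x)) (volume.restrict B) :=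
      (c10_Fv_cont.comp (c10_lip_cont hV)).continuousOn.integrableOn_compact
        (isCompact_closedBall _ _)
    exact h1.add h2
  have hUl := hU.comp.lip
  have hWl := hW.1
  -- null Lagrangian
  have hnl : ∀ i : Fin 6, _ := fun i => hNL 4 (kk i) (kp i) (Ec i) U wz ρ (hP.1 i) (hC i)
    (hL i) hUl hWl hU.comp.out
  have hnlw : ∀ i : Fin 6, _ := fun i => hNL 4 (kk i) (kp i) (Ec i) wz wz ρ (hP.1 i) (hC i)
    (hL i) hWl hWl (fun _ _ => rfl)
  have hNNU : IntegrableOn (fun x => NN x (U x) (gr U x)) B := by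
    unfold NN
    exact integrable_finsetSum _ fun i _ => (hnl i).1
  have hNNw : IntegrableOn (fun x => NN x (wz x) (gr wz x)) B := by
    unfold NN
    exact integrable_finsetSum _ fun i _ => (hnlw i).1
  have hNN : ∫ x in B, NN x (U x) (gr U x) = ∫ x in B, NN x (wz x) (gr wz x) := by
    unfold NN
    rw [integral_finsetSum _ fun i _ => (hnl i).1, integral_finsetSum _ fun i _ => (hnlw i).1]
    exact Finset.sum_congr rfl fun i _ => (hnl i).2
  -- the excess
  set eU : (Fin 4 → ℝ) → ℝ := fun x => Lam4 δ (gr U x) + Fv (U x) - NN x (U x) (gr U x) with heU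
  set ew : (Fin 4 → ℝ) → ℝ := fun x => Lam4 δ (gr wz x) + Fv (wz x) - NN x (wz x) (gr wz x)
    with hew
  have heUi : IntegrableOn eU B := (hen U hUl).sub hNNU
  have hewi : IntegrableOn ew B := (hen wz hWl).sub hNNw
  have h1 : ∫ x in B, eU x ≤ (∫ x in B, ew x) + 1 := by
    rw [heU, hew, integral_sub (hen U hUl) hNNU, integral_sub (hen wz hWl) hNNw, hNN]
    have := hU.en
    linarith
  have hCe : ∫ x in B, C * c10_err x ≤ C * I := by
    rw [integral_const_mul]
    gcongr
    exact setIntegral_le_integral hei (Eventually.of_forall c10_err_nonneg)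
  have hCei : IntegrableOn (fun x => C * c10_err x) B := (hei.const_mul C).integrableOn
  have h2 : ∫ x in B, ew x ≤ C * I := by
    refine le_trans (integral_mono_ae hewi hCei ?_) hCe
    refine ae_restrict_of_ae ?_
    filter_upwards [hN] with x hx
    exact (le_abs_self _).trans ((hcal x hx.1 hx.2).2.2)
  set FF : (Fin 4 → ℝ) → ℝ := fun x => eU x + C * c10_err x with hFF
  have hFFi : IntegrableOn FF B := heUi.add hCei
  have hFFle : ∫ x in B, FF x ≤ 2 * (C * I) + 1 := by
    rw [hFF, integral_add heUi hCei]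
    linarith
  have hFF0 : ∀ᵐ x, 0 ≤ FF x := by
    filter_upwards [hN] with x hx
    have := (hcal x hx.1 hx.2).1 (U x) (gr U x) (hU.comp.nonneg x) (hU.comp.le_one x)
    have h3 : c10_err x = if 2 < Rz x then VV x else 1 := rfl
    show 0 ≤ Lam4 δ (gr U x) + Fv (U x) - NN x (U x) (gr U x) + C * c10_err x
    rw [h3]
    linarith
  have hFFZ : ∀ᵐ x, x ∈ Zs → c3 * (hv (U x) * Real.sqrt (sq (gr U x))) ≤ FF x := by
    filter_upwards [hN] with x hx hxZ
    have := (hcal x hx.1 hx.2).2.1 (U x) (gr U x) (hU.comp.nonneg x) (hU.comp.le_one x) hxZ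
    have h3 : c10_err x = VV x := if_pos hxZ.1
    show _ ≤ Lam4 δ (gr U x) + Fv (U x) - NN x (U x) (gr U x) + C * c10_err x
    rw [h3]
    linarith
  -- split
  rw [← lintegral_inter_add_sdiff _ Zs hBm, ENNReal.ofReal_add (by positivity) hJ0]
  refine add_le_add ?_ ?_
  · have h3 : ∀ x, ENNReal.ofReal (hv (U x) * Real.sqrt (sq (gr U x))) =
        ENNReal.ofReal c3⁻¹ * ENNReal.ofReal (c3 * (hv (U x) * Real.sqrt (sq (gr U x)))) := by
      intro x
      rw [← ENNReal.ofReal_mul (by positivity), ← mul_assoc, inv_mul_cancel₀ hc3.ne', one_mul]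
    simp only [h3]
    rw [lintegral_const_mul' _ _ ENNReal.ofReal_ne_top, ENNReal.ofReal_mul (by positivity)]
    gcongr
    calc ∫⁻ x in Zs ∩ B, ENNReal.ofReal (c3 * (hv (U x) * Real.sqrt (sq (gr U x))))
        ≤ ∫⁻ x in Zs ∩ B, ENNReal.ofReal (FF x) := by
          refine lintegral_mono_ae ?_
          refine (ae_restrict_iff' (c10_Zs_meas.inter hBm)).2 ?_
          filter_upwards [hFFZ] with x hx hxZ
          exact ENNReal.ofReal_le_ofReal (hx hxZ.1)
      _ ≤ ∫⁻ x in B, ENNReal.ofReal (FF x) := lintegral_mono_set inter_subset_right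
      _ = ENNReal.ofReal (∫ x in B, FF x) :=
          (ofReal_integral_eq_lintegral_ofReal hFFi (ae_restrict_of_ae hFF0)).symm
      _ ≤ _ := ENNReal.ofReal_le_ofReal hFFle
  · calc ∫⁻ x in Zs \ B, ENNReal.ofReal (hv (U x) * Real.sqrt (sq (gr U x)))
        ≤ ∫⁻ x in Zs \ B, ENNReal.ofReal (Real.exp (-‖x‖ / 4)) := by
          refine lintegral_mono_ae ?_
          refine (ae_restrict_iff' (c10_Zs_meas.diff hBm)).2 ?_
          filter_upwards [hN] with x hx hxZ
          refine ENNReal.ofReal_le_ofReal ?_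
          rw [c10_gr_out hU.comp.out hxZ.2]
          have h3 := c10_w_bound hW hH hx.1 hx.2 hxZ.1
          have h4 : hv (U x) ≤ 1 := by
            unfold hv
            rw [div_le_one Real.pi_pos]
            have := Real.sin_le_one (Real.pi * U x)
            have := Real.pi_gt_three
            linarith
          calc hv (U x) * Real.sqrt (sq (gr wz x)) ≤ 1 * Real.sqrt (sq (gr wz x)) := by
                gcongr
            _ ≤ _ := by rw [one_mul]; exact h3
      _ ≤ ∫⁻ x, ENNReal.ofReal (Real.exp (-‖x‖ / 4)) := setLIntegral_le_lintegral _ _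
      _ = ENNReal.ofReal J :=
          (ofReal_integral_eq_lintegral_ofReal c10_exp_int
            (Eventually.of_forall fun x => (Real.exp_pos _).le)).symm

end Pool.Agent.Work.MP_85f2da_an

end

section

set_option autoImplicit false

/-!
# MP_85f2da_an: D11, gradients of two minimisers
-/

open MeasureTheory Filter Set Metric
open scoped ENNReal Topology ContDiff

namespace Pool.Agent.Work.MP_85f2da_an

variable {d : ℕ}

/-- the cut-off -/
private noncomputable def d11_eta (r : ℝ) (x : Fin d → ℝ) : ℝ := max 0 (min 1 (r + 1 - ‖x‖))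

private lemma d11_eta_lip (r : ℝ) : LipschitzWith 1 (d11_eta r : (Fin d → ℝ) → ℝ) := by
  have h1 : LipschitzWith 1 (fun x : Fin d → ℝ => r + 1 - ‖x‖) := by
    have := (LipschitzWith.const (α := Fin d → ℝ) (r + 1)).sub lipschitzWith_one_norm
    simpa using this
  exact (h1.const_min 1).const_max 0

private lemma d11_eta_nonneg (r : ℝ) (x : Fin d → ℝ) : 0 ≤ d11_eta r x := le_max_left _ _

private lemma d11_eta_le (r : ℝ) (x : Fin d → ℝ) : d11_eta r x ≤ 1 :=
  max_le zero_le_one (min_le_left _ _)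

private lemma d11_eta_one (r : ℝ) (x : Fin d → ℝ) (hx : x ∈ closedBall (0 : Fin d → ℝ) r) :
    d11_eta r x = 1 := by
  have h : ‖x‖ ≤ r := by simpa using hx
  unfold d11_eta
  rw [min_eq_left (by linarith), max_eq_right zero_le_one]

private lemma d11_eta_zero (r : ℝ) (x : Fin d → ℝ)
    (hx : x ∉ closedBall (0 : Fin d → ℝ) (r + 1)) : d11_eta r x = 0 := by
  have h : r + 1 < ‖x‖ := by simpa using hx
  unfold d11_eta
  apply max_eq_left
  exact (min_le_right _ _).trans (by linarith)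

/-- pointwise estimate -/
private lemma d11_point (D : Dat d) (u u' η t N : ℝ) (g g' n : Fin d → ℝ) (ht : 0 < t)
    (h0 : 0 ≤ η) (h1 : η ≤ 1) (hn : sq n ≤ N) :
    D.m0 * (η * sq (g - g')) ≤ (dot (D.dL g - D.dL g') (η • (g - g') + (u - u') • n)
      + (D.dF u - D.dF u') * (η * (u - u')))
      + (t / 2 * D.M0 ^ 2 * sq (g - g') + (N / (2 * t) + D.M0) * (u - u') ^ 2) := by
  have hM0 := D.M0_pos
  have a1 := mul_le_mul_of_nonneg_left (D.mono g g') h0
  rw [q41_dot_add, q41_dot_smul]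
  have a2 := q41_dot_le (D.dL g - D.dL g') ((u - u') • n) t ht
  have a3 := mul_le_mul_of_nonneg_left (D.dL_lip g g') (show 0 ≤ t / 2 by positivity)
  rw [q41_sq_smul] at a2
  have a4 := neg_abs_le (dot (D.dL g - D.dL g') ((u - u') • n))
  have a5 : 1 / (2 * t) * ((u - u') ^ 2 * sq n) ≤ 1 / (2 * t) * ((u - u') ^ 2 * N) := by
    gcongr
  have a6 : |(D.dF u - D.dF u') * (η * (u - u'))| ≤ D.M0 * (u - u') ^ 2 := by
    rw [abs_mul, abs_mul, abs_of_nonneg h0]
    calc |D.dF u - D.dF u'| * (η * |u - u'|) ≤ (D.M0 * |u - u'|) * (1 * |u - u'|) := by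
          apply mul_le_mul (D.dF_lip u u') _ (by positivity)
            (mul_nonneg hM0.le (abs_nonneg _))
          exact mul_le_mul_of_nonneg_right h1 (abs_nonneg _)
      _ = D.M0 * |u - u'| ^ 2 := by ring
      _ = _ := by rw [sq_abs]
  have a7 := neg_abs_le ((D.dF u - D.dF u') * (η * (u - u')))
  have e : N / (2 * t) = 1 / (2 * t) * N := by ring
  rw [e]
  nlinarith

/-- D11 -/
theorem dGrad : DEL → DCacc → SCut → SLin → SInt → DGrad := by
  intro hEL hCacc hCut hLin hI d D r hr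
  obtain ⟨C0, hC0⟩ := hCacc d D (r + 1) (by linarith)
  have hηlip : Lip (d11_eta r : (Fin d → ℝ) → ℝ) := ⟨1, d11_eta_lip r⟩
  obtain ⟨N, hN0, hN⟩ := q41_gr_sq_le (d11_eta r : (Fin d → ℝ) → ℝ) hηlip
  set E : ℝ := max C0 0 with hE
  have hE0 : 0 ≤ E := le_max_right _ _
  set B : Set (Fin d → ℝ) := closedBall 0 (r + 1) with hB
  have hBm : MeasurableSet B := measurableSet_closedBall
  have hBf : volume B ≠ ⊤ := measure_closedBall_lt_top.ne
  set V : ℝ := volume.real B with hV
  have hV0 : 0 ≤ V := measureReal_nonneg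
  have hm0 := D.m0_pos
  have hM0 := D.M0_pos
  refine ⟨(N / 2 + 2 * D.M0 ^ 2 * E + D.M0 * Real.sqrt V) / D.m0, ?_⟩
  intro w ρ ρ' u u' g g' hb hb' hρ hρ'
  set S : ℝ := ∫ x in B, (u x - u' x) ^ 2 with hS
  have hS0 : 0 ≤ S := integral_nonneg (fun x => sq_nonneg _)
  -- the test pair
  have hUG : LSP (fun x => u x - u' x) (fun x => g x - g' x) := by
    have h := hLin d u u' g g' 1 (-1) hb.lsp hb'.lsp
    have e1 : (fun x => 1 * u x + (-1) * u' x) = fun x => u x - u' x := by
      funext x; ring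
    have e2 : (fun x => (1 : ℝ) • g x + (-1 : ℝ) • g' x) = fun x => g x - g' x := by
      funext x; rw [one_smul, neg_one_smul, sub_eq_add_neg]
    rwa [e1, e2] at h
  have hcs : HasCompactSupport (d11_eta r : (Fin d → ℝ) → ℝ) := by
    apply HasCompactSupport.of_support_subset_isCompact (isCompact_closedBall 0 (r + 1))
    intro x hx
    by_contra hcon
    exact hx (d11_eta_zero r x hcon)
  have hφψ := hCut d (fun x => u x - u' x) (d11_eta r) (fun x => g x - g' x) hUG hηlip hcs
  have hz : ∀ x, x ∉ B → d11_eta r x * (u x - u' x) = 0 ∧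
      d11_eta r x • (g x - g' x) + (u x - u' x) • gr (d11_eta r) x = 0 := by
    intro x hx
    have h1 := d11_eta_zero r x hx
    have h2 : gr (d11_eta r) x = 0 :=
      q41_gr_zero (d11_eta r) B isClosed_closedBall (fun y hy => d11_eta_zero r y hy) x hx
    rw [h1, h2]
    simp
  obtain ⟨i1, z1⟩ := hEL d D w ρ u g hb _ _ (r + 1) (by linarith) hφψ hz
  obtain ⟨i2, z2⟩ := hEL d D w ρ' u' g' hb' _ _ (r + 1) (by linarith) hφψ hz
  set J : (Fin d → ℝ) → ℝ := fun x =>
    dot (D.dL (g x) - D.dL (g' x)) (d11_eta r x • (g x - g' x) + (u x - u' x) • gr (d11_eta r) x)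
      + (D.dF (u x) - D.dF (u' x)) * (d11_eta r x * (u x - u' x)) with hJ
  have hJeq : J = fun x => (dot (D.dL (g x)) (d11_eta r x • (g x - g' x)
        + (u x - u' x) • gr (d11_eta r) x) + D.dF (u x) * (d11_eta r x * (u x - u' x)))
      - (dot (D.dL (g' x)) (d11_eta r x • (g x - g' x)
        + (u x - u' x) • gr (d11_eta r) x) + D.dF (u' x) * (d11_eta r x * (u x - u' x))) := by
    funext x
    rw [hJ]
    simp only [q41_dot_sub_left]
    ring
  have iJ : Integrable J := by rw [hJeq]; exact i1.sub i2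
  have zJ : ∫ x, J x = 0 := by
    rw [hJeq, integral_sub i1 i2, z1, z2, sub_zero]
  have zJB : ∫ x in B, J x = 0 := by
    rw [setIntegral_eq_integral_of_forall_compl_eq_zero, zJ]
    intro x hx
    obtain ⟨h1, h2⟩ := hz x hx
    rw [hJ]
    simp only [h1, h2, q41_dot_zero, mul_zero, add_zero]
  -- integrability
  have hu2 := hI d u g hb.lsp 0 (r + 1)
  have hu2' := hI d u' g' hb'.lsp 0 (r + 1)
  have iU : IntegrableOn (fun x => (u x - u' x) ^ 2) B :=
    q41_pow_sub_int _ _ hb.lsp.mu hb'.lsp.mu 0 (r + 1) hu2.1 hu2'.1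
  have iG : IntegrableOn (fun x => sq (g x - g' x)) B :=
    q41_sq_sub_int _ _ hb.lsp.mg hb'.lsp.mg 0 (r + 1) hu2.2 hu2'.2
  have iηG : IntegrableOn (fun x => d11_eta r x * sq (g x - g' x)) B := by
    refine Integrable.mono' iG ?_ ?_
    · exact ((d11_eta_lip r).continuous.aestronglyMeasurable.mul
        (q41_sq_cont.comp_aestronglyMeasurable (hb.lsp.mg.sub hb'.lsp.mg))).restrict
    · filter_upwards with x
      rw [Real.norm_eq_abs, abs_of_nonneg (mul_nonneg (d11_eta_nonneg r x) (q41_sq_nonneg _))]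
      exact mul_le_of_le_one_left (q41_sq_nonneg _) (d11_eta_le r x)
  -- energies
  have hGE : ∫ x in B, sq (g x - g' x) ≤ 4 * E := by
    have h1 := hC0 w ρ u g hb 0 (by rw [norm_zero]; linarith)
    have h2 := hC0 w ρ' u' g' hb' 0 (by rw [norm_zero]; linarith)
    calc ∫ x in B, sq (g x - g' x) ≤ ∫ x in B, (2 * sq (g x) + 2 * sq (g' x)) :=
          setIntegral_mono iG ((hu2.2.const_mul 2).add (hu2'.2.const_mul 2))
            (fun x => q41_sq_sub_le _ _)
      _ = 2 * (∫ x in B, sq (g x)) + 2 * (∫ x in B, sq (g' x)) := by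
          rw [integral_add (hu2.2.const_mul 2) (hu2'.2.const_mul 2), integral_const_mul,
            integral_const_mul]
      _ ≤ 2 * C0 + 2 * C0 := by linarith
      _ ≤ 4 * E := by have := le_max_left C0 0; rw [← hE] at this; linarith
  -- S ≤ V
  have hSV : S ≤ V := by
    have ic : IntegrableOn (fun _ : Fin d → ℝ => (1 : ℝ)) B := integrableOn_const hBf
    calc S ≤ ∫ x in B, (1 : ℝ) := by
          apply setIntegral_mono iU ic
          intro x
          have h1 := hb.nonneg x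
          have h2 := hb.le_one x
          have h3 := hb'.nonneg x
          have h4 := hb'.le_one x
          simp only
          nlinarith
      _ = V := by rw [setIntegral_const, smul_eq_mul, mul_one]
  have hSs : S ≤ Real.sqrt V * Real.sqrt S := by
    have h1 : S = Real.sqrt S * Real.sqrt S := (Real.mul_self_sqrt hS0).symm
    have h2 : Real.sqrt S ≤ Real.sqrt V := Real.sqrt_le_sqrt hSV
    calc S = Real.sqrt S * Real.sqrt S := h1
      _ ≤ Real.sqrt V * Real.sqrt S := by gcongr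
  -- main inequality with a parameter
  have hmain : ∀ t : ℝ, 0 < t → D.m0 * ∫ x in closedBall 0 r, sq (g x - g' x)
      ≤ t / 2 * D.M0 ^ 2 * (4 * E) + (N / (2 * t) + D.M0) * S := by
    intro t ht
    have hsub : closedBall (0 : Fin d → ℝ) r ⊆ B := closedBall_subset_closedBall (by linarith)
    have s1 : ∫ x in closedBall 0 r, sq (g x - g' x)
        ≤ ∫ x in B, d11_eta r x * sq (g x - g' x) := by
      have e : ∫ x in closedBall 0 r, sq (g x - g' x)
          = ∫ x in closedBall 0 r, d11_eta r x * sq (g x - g' x) := by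
        apply setIntegral_congr_fun measurableSet_closedBall
        intro x hx
        simp only [d11_eta_one r x hx, one_mul]
      rw [e]
      apply setIntegral_mono_set iηG
      · filter_upwards with x
        exact mul_nonneg (d11_eta_nonneg r x) (q41_sq_nonneg _)
      · exact hsub.eventuallyLE
    have j1 : IntegrableOn (fun x => t / 2 * D.M0 ^ 2 * sq (g x - g' x)) B := iG.const_mul _
    have j2 : IntegrableOn (fun x => (N / (2 * t) + D.M0) * (u x - u' x) ^ 2) B :=
      iU.const_mul _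
    have j3 : IntegrableOn (fun x => t / 2 * D.M0 ^ 2 * sq (g x - g' x)
        + (N / (2 * t) + D.M0) * (u x - u' x) ^ 2) B := j1.add j2
    have s2 : ∫ x in B, D.m0 * (d11_eta r x * sq (g x - g' x))
        ≤ ∫ x in B, (J x + (t / 2 * D.M0 ^ 2 * sq (g x - g' x)
        + (N / (2 * t) + D.M0) * (u x - u' x) ^ 2)) := by
      apply setIntegral_mono (iηG.const_mul _) (iJ.integrableOn.add j3)
      intro x
      exact d11_point D (u x) (u' x) (d11_eta r x) t N (g x) (g' x) (gr (d11_eta r) x) ht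
        (d11_eta_nonneg r x) (d11_eta_le r x) (hN x)
    rw [integral_const_mul, integral_add iJ.integrableOn j3, zJB, zero_add,
      integral_add j1 j2, integral_const_mul, integral_const_mul] at s2
    have s3 := mul_le_mul_of_nonneg_left s1 hm0.le
    have s4 : t / 2 * D.M0 ^ 2 * (∫ x in B, sq (g x - g' x)) ≤ t / 2 * D.M0 ^ 2 * (4 * E) := by
      gcongr
    linarith
  have hfin : D.m0 * ∫ x in closedBall 0 r, sq (g x - g' x)
      ≤ (N / 2 + 2 * D.M0 ^ 2 * E + D.M0 * Real.sqrt V) * Real.sqrt S := by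
    apply le_of_forall_pos_le_add
    intro δ hδ
    set κ : ℝ := 2 * D.M0 ^ 2 * E with hκ
    have hκ0 : 0 ≤ κ := by positivity
    have ht : 0 < Real.sqrt S + δ / (κ + 1) := by positivity
    have h := hmain (Real.sqrt S + δ / (κ + 1)) ht
    set t := Real.sqrt S + δ / (κ + 1) with htdef
    have h1 : N / (2 * t) * S ≤ N / 2 * Real.sqrt S := by
      have h2 : S ≤ t * Real.sqrt S := by
        calc S = Real.sqrt S * Real.sqrt S := (Real.mul_self_sqrt hS0).symm
          _ ≤ t * Real.sqrt S := by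
            gcongr
            rw [htdef]
            have : 0 ≤ δ / (κ + 1) := by positivity
            linarith
      calc N / (2 * t) * S ≤ N / (2 * t) * (t * Real.sqrt S) := by gcongr
        _ = N / 2 * Real.sqrt S := by field_simp
    have h3 : D.M0 * S ≤ D.M0 * (Real.sqrt V * Real.sqrt S) := by gcongr
    have h4 : t / 2 * D.M0 ^ 2 * (4 * E) = κ * Real.sqrt S + κ * (δ / (κ + 1)) := by
      rw [htdef, hκ]; ring
    have h5 : κ * (δ / (κ + 1)) ≤ δ := by
      rw [mul_div_assoc', div_le_iff₀ (by positivity)]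
      nlinarith
    nlinarith
  rw [div_mul_eq_mul_div, le_div_iff₀ hm0]
  linarith

end Pool.Agent.Work.MP_85f2da_an

end

section

set_option autoImplicit false

/-!
# MP_85f2da_an: D13, the limit of minimisers is minimal
-/

open MeasureTheory Filter Set Metric
open scoped ENNReal Topology ContDiff

namespace Pool.Agent.Work.MP_85f2da_an

variable {d : ℕ}

/-- pointwise comparison -/
private lemma d13_point (D : Dat d) (v φ s : ℝ) (p q ξ : Fin d → ℝ) (C : ℝ)
    (hp : sq p ≤ C) (hq : sq q ≤ C) (ε : ℝ) (hε : 0 < ε) :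
    D.L (v + s + φ) (p + ξ + q) - D.L (v + s) (p + ξ)
      ≤ (D.L (v + φ) (p + q) - D.L v p)
        + ε * (3 * D.M0 ^ 2 * C + D.M0) + (1 / ε + 1) * (1 + D.M0) * (s ^ 2 + sq ξ) := by
  have h1 := q41_lam_diff D p ξ ε hε
  have h2 := q41_lam_diff D (p + q) ξ ε hε
  have h3 := q41_F_diff D v s ε hε
  have h4 := q41_F_diff D (v + φ) s ε hε
  have h5 : sq (p + q) ≤ 4 * C := by
    have := q41_sq_add_le p q
    linarith
  have h6 := q41_sq_nonneg ξ
  have hM := D.M0_pos
  have e1 : v + s + φ = v + φ + s := by ring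
  have e2 : p + ξ + q = p + q + ξ := by abel
  unfold Dat.L
  rw [e1, e2]
  have a1 := neg_abs_le (D.Lam (p + ξ) - D.Lam p)
  have a2 := le_abs_self (D.Lam (p + q + ξ) - D.Lam (p + q))
  have a3 := neg_abs_le (D.F (v + s) - D.F v)
  have a4 := le_abs_self (D.F (v + φ + s) - D.F (v + φ))
  have b1 : ε / 2 * (D.M0 ^ 2 * sq p) ≤ ε / 2 * (D.M0 ^ 2 * C) := by gcongr
  have b2 : ε / 2 * (D.M0 ^ 2 * sq (p + q)) ≤ ε / 2 * (D.M0 ^ 2 * (4 * C)) := by gcongr
  have hC : 0 ≤ C := (q41_sq_nonneg p).trans hp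
  have b3 : 0 ≤ 1 / ε := by positivity
  have e3 : 1 / (2 * ε) = 1 / ε / 2 := by field_simp
  rw [e3] at h1 h2 h3 h4
  have c1 : (1 / ε / 2 + D.M0 / 2) * sq ξ ≤ (1 / ε + 1) * (1 + D.M0) * sq ξ / 2 := by
    have : 0 ≤ ((1 / ε + 1) * (1 + D.M0) / 2 - (1 / ε / 2 + D.M0 / 2)) * sq ξ := by
      apply mul_nonneg _ h6
      nlinarith [mul_nonneg b3 hM.le]
    nlinarith
  have c2 : (1 / ε / 2 + 1 / 2) * D.M0 * s ^ 2 ≤ (1 / ε + 1) * (1 + D.M0) * s ^ 2 / 2 := by
    have : 0 ≤ ((1 / ε + 1) * (1 + D.M0) / 2 - (1 / ε / 2 + 1 / 2) * D.M0) * s ^ 2 := by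
      apply mul_nonneg _ (sq_nonneg _)
      nlinarith [mul_nonneg b3 hM.le]
    nlinarith
  have d1 : 0 ≤ ε * (D.M0 ^ 2 * C) := by positivity
  nlinarith

/-- D13 -/
theorem dLimMin : SInt → DLimMin := by
  intro hI d D w ρ u g v hρ hB hv hconv φ hφ r hr
  -- data
  set B : Set (Fin d → ℝ) := closedBall 0 r with hBdef
  have hBm : MeasurableSet B := measurableSet_closedBall
  have hBf : volume B ≠ ⊤ := measure_closedBall_lt_top.ne
  obtain ⟨C1, hC10, hC1⟩ := q41_gr_sq_le v hv
  obtain ⟨C2, hC20, hC2⟩ := q41_gr_sq_le φ hφ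
  set C : ℝ := max C1 C2 with hCdef
  have hvc : Continuous v := by obtain ⟨K, hK⟩ := hv; exact hK.continuous
  have hφc : Continuous φ := by obtain ⟨K, hK⟩ := hφ; exact hK.continuous
  have hvm : AEStronglyMeasurable v volume := hvc.aestronglyMeasurable
  have hφm : AEStronglyMeasurable φ volume := hφc.aestronglyMeasurable
  have hgvm : AEStronglyMeasurable (gr v) volume := (q41_gr_meas v).aestronglyMeasurable
  have hgφm : AEStronglyMeasurable (gr φ) volume := (q41_gr_meas φ).aestronglyMeasurable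
  have hv2 : IntegrableOn (fun x => v x ^ 2) B :=
    (hvc.pow 2).continuousOn.integrableOn_compact (isCompact_closedBall 0 r)
  have hgv2 : IntegrableOn (fun x => sq (gr v x)) B := q41_sq_gr_int v hv 0 r
  have hgφ2 : IntegrableOn (fun x => sq (gr φ x)) B := q41_sq_gr_int φ hφ 0 r
  have hiv : IntegrableOn (fun x => D.L (v x) (gr v x)) B := q41_L_int D v (gr v) hvm hgvm 0 r hgv2
  have hivφ : IntegrableOn (fun x => D.L (v x + φ x) (gr v x + gr φ x)) B :=
    q41_L_int D (fun x => v x + φ x) (fun x => gr v x + gr φ x) (hvm.add hφm) (hgvm.add hgφm) 0 r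
      (q41_sq_add_int _ _ hgvm hgφm 0 r hgv2 hgφ2)
  -- replace the gradient of the sum
  have hrep : ∫ x in B, D.L (v x + φ x) (gr (fun y => v y + φ y) x)
      = ∫ x in B, D.L (v x + φ x) (gr v x + gr φ x) := by
    apply integral_congr_ae
    filter_upwards [ae_restrict_of_ae (q41_gr_add v φ hv hφ)] with x hx
    rw [hx]
  rw [hrep]
  -- key: the inequality on B for large j
  have hkey : ∀ j, r ≤ ρ j →
      0 ≤ ∫ x in B, (D.L (u j x + φ x) (g j x + gr φ x) - D.L (u j x) (g j x)) := by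
    intro j hj
    have hsub : B ⊆ closedBall 0 (ρ j) := closedBall_subset_closedBall hj
    have hb := (hB j).min φ hφ (fun x hx => hr x (fun h => hx (hsub h)))
    have hum := (hB j).lsp.mu
    have hgm := (hB j).lsp.mg
    have hg2 := (hI d (u j) (g j) (hB j).lsp 0 (ρ j)).2
    have i1 : IntegrableOn (fun x => D.L (u j x) (g j x)) (closedBall 0 (ρ j)) :=
      q41_L_int D (u j) (g j) hum hgm 0 (ρ j) hg2
    have i2 : IntegrableOn (fun x => D.L (u j x + φ x) (g j x + gr φ x)) (closedBall 0 (ρ j)) :=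
      q41_L_int D (fun x => u j x + φ x) (fun x => g j x + gr φ x) (hum.add hφm) (hgm.add hgφm)
        0 (ρ j) (q41_sq_add_int _ _ hgm hgφm 0 (ρ j) hg2 (q41_sq_gr_int φ hφ 0 (ρ j)))
    have h0 : 0 ≤ ∫ x in closedBall 0 (ρ j),
        (D.L (u j x + φ x) (g j x + gr φ x) - D.L (u j x) (g j x)) := by
      rw [integral_sub i2 i1]; linarith
    rw [setIntegral_eq_of_subset_of_forall_sdiff_eq_zero measurableSet_closedBall hsub] at h0
    · exact h0
    · intro x hx
      have h1 : φ x = 0 := hr x hx.2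
      have h2 : gr φ x = 0 := q41_gr_zero φ B isClosed_closedBall hr x hx.2
      rw [h1, h2, add_zero, add_zero, sub_self]
  -- error estimate
  set V : ℝ := (volume B).toReal with hV
  have hfin : ∀ ε : ℝ, 0 < ε → 0 ≤ (∫ x in B, (D.L (v x + φ x) (gr v x + gr φ x)
      - D.L (v x) (gr v x))) + ε * (3 * D.M0 ^ 2 * C + D.M0) * V := by
    intro ε hε
    have hlim : Tendsto (fun j => (∫ x in B, (D.L (v x + φ x) (gr v x + gr φ x)
        - D.L (v x) (gr v x))) + ε * (3 * D.M0 ^ 2 * C + D.M0) * V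
        + (1 / ε + 1) * (1 + D.M0) * ((∫ x in B, (u j x - v x) ^ 2)
          + ∫ x in B, sq (g j x - gr v x))) atTop
        (𝓝 ((∫ x in B, (D.L (v x + φ x) (gr v x + gr φ x)
        - D.L (v x) (gr v x))) + ε * (3 * D.M0 ^ 2 * C + D.M0) * V
        + (1 / ε + 1) * (1 + D.M0) * (0 + 0))) :=
      ((((hconv r).1.add (hconv r).2).const_mul _).const_add _)
    rw [add_zero, mul_zero, add_zero] at hlim
    refine ge_of_tendsto hlim ?_
    filter_upwards [hρ.eventually_ge_atTop r] with j hj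
    have h0 := hkey j hj
    have hum := (hB j).lsp.mu
    have hgm := (hB j).lsp.mg
    have hu2 := (hI d (u j) (g j) (hB j).lsp 0 r).1
    have hg2 := (hI d (u j) (g j) (hB j).lsp 0 r).2
    have i1 : IntegrableOn (fun x => D.L (u j x) (g j x)) B :=
      q41_L_int D (u j) (g j) hum hgm 0 r hg2
    have i2 : IntegrableOn (fun x => D.L (u j x + φ x) (g j x + gr φ x)) B :=
      q41_L_int D (fun x => u j x + φ x) (fun x => g j x + gr φ x) (hum.add hφm) (hgm.add hgφm)
        0 r (q41_sq_add_int _ _ hgm hgφm 0 r hg2 hgφ2)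
    have i3 : IntegrableOn (fun x => (u j x - v x) ^ 2) B :=
      q41_pow_sub_int _ _ hum hvm 0 r hu2 hv2
    have i4 : IntegrableOn (fun x => sq (g j x - gr v x)) B :=
      q41_sq_sub_int _ _ hgm hgvm 0 r hg2 hgv2
    have i5 : IntegrableOn (fun _ : Fin d → ℝ => ε * (3 * D.M0 ^ 2 * C + D.M0)) B :=
      integrableOn_const hBf
    have hle : ∫ x in B, (D.L (u j x + φ x) (g j x + gr φ x) - D.L (u j x) (g j x))
        ≤ ∫ x in B, (((D.L (v x + φ x) (gr v x + gr φ x) - D.L (v x) (gr v x))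
          + ε * (3 * D.M0 ^ 2 * C + D.M0))
          + (1 / ε + 1) * (1 + D.M0) * ((u j x - v x) ^ 2 + sq (g j x - gr v x))) := by
      apply setIntegral_mono (i2.sub i1)
        (((hivφ.sub hiv).add i5).add ((i3.add i4).const_mul _))
      intro x
      have hx := d13_point D (v x) (φ x) (u j x - v x) (gr v x) (gr φ x) (g j x - gr v x) C
        ((hC1 x).trans (le_max_left _ _)) ((hC2 x).trans (le_max_right _ _)) ε hε
      have e1 : v x + (u j x - v x) = u j x := by ring
      have e2 : gr v x + (g j x - gr v x) = g j x := by abel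
      rw [e1, e2] at hx
      exact hx
    have heq : ∫ x in B, (((D.L (v x + φ x) (gr v x + gr φ x) - D.L (v x) (gr v x))
          + ε * (3 * D.M0 ^ 2 * C + D.M0))
          + (1 / ε + 1) * (1 + D.M0) * ((u j x - v x) ^ 2 + sq (g j x - gr v x)))
        = (∫ x in B, (D.L (v x + φ x) (gr v x + gr φ x)
        - D.L (v x) (gr v x))) + ε * (3 * D.M0 ^ 2 * C + D.M0) * V
        + (1 / ε + 1) * (1 + D.M0) * ((∫ x in B, (u j x - v x) ^ 2)
          + ∫ x in B, sq (g j x - gr v x)) := by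
      have j1 : IntegrableOn (fun x => D.L (v x + φ x) (gr v x + gr φ x)
          - D.L (v x) (gr v x)) B := hivφ.sub hiv
      have j2 : IntegrableOn (fun x => D.L (v x + φ x) (gr v x + gr φ x)
          - D.L (v x) (gr v x) + ε * (3 * D.M0 ^ 2 * C + D.M0)) B := j1.add i5
      have j3 : IntegrableOn (fun x => (u j x - v x) ^ 2 + sq (g j x - gr v x)) B := i3.add i4
      rw [integral_add j2 (j3.const_mul _),
        integral_add j1 i5, setIntegral_const, smul_eq_mul, integral_const_mul,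
        integral_add i3 i4]
      have : volume.real B = V := rfl
      rw [this]
      ring
    linarith
  have hV0 : 0 ≤ V := ENNReal.toReal_nonneg
  have hcoef : 0 ≤ (3 * D.M0 ^ 2 * C + D.M0) * V := by
    have := D.M0_pos
    have hC0 : 0 ≤ C := hC10.trans (le_max_left _ _)
    positivity
  have hlast : 0 ≤ ∫ x in B, (D.L (v x + φ x) (gr v x + gr φ x) - D.L (v x) (gr v x)) := by
    by_contra hneg
    push Not at hneg
    set I := ∫ x in B, (D.L (v x + φ x) (gr v x + gr φ x) - D.L (v x) (gr v x)) with hIdef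
    have h1 := hfin (-I / (2 * ((3 * D.M0 ^ 2 * C + D.M0) * V + 1))) (by
      apply div_pos (by linarith); positivity)
    have h2 : -I / (2 * ((3 * D.M0 ^ 2 * C + D.M0) * V + 1)) * (3 * D.M0 ^ 2 * C + D.M0) * V
        ≤ -I / 2 := by
      have e : -I / (2 * ((3 * D.M0 ^ 2 * C + D.M0) * V + 1)) * (3 * D.M0 ^ 2 * C + D.M0) * V
          = (-I / 2) * (((3 * D.M0 ^ 2 * C + D.M0) * V) / ((3 * D.M0 ^ 2 * C + D.M0) * V + 1)) := by
        have : (3 * D.M0 ^ 2 * C + D.M0) * V + 1 ≠ 0 := by positivity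
        field_simp
      rw [e]
      have h3 : ((3 * D.M0 ^ 2 * C + D.M0) * V) / ((3 * D.M0 ^ 2 * C + D.M0) * V + 1) ≤ 1 := by
        rw [div_le_one (by positivity)]; linarith
      have h4 : 0 ≤ -I / 2 := by linarith
      nlinarith
    linarith
  rw [integral_sub hivφ hiv] at hlast
  linarith

end Pool.Agent.Work.MP_85f2da_an

end

section

set_option autoImplicit false

/-!
# MP_85f2da_an: D8, difference quotients satisfy the linearised equation
-/

open MeasureTheory Filter Set Metric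
open scoped ENNReal Topology ContDiff

namespace Pool.Agent.Work.MP_85f2da_an

variable {d : ℕ}

private lemma d8_gr_sq (η : (Fin d → ℝ) → ℝ) (hη : Lip η) :
    ∀ᵐ x, gr (fun y => η y ^ 2) x = (2 * η x) • gr η x := by
  obtain ⟨K, hK⟩ := hη
  filter_upwards [hK.ae_differentiableAt] with x h1
  funext i
  unfold gr
  have h2 : HasFDerivAt (fun y => η y ^ 2) ((2 * η x) • fderiv ℝ η x) x := by
    have := h1.hasFDerivAt.pow 2
    simpa using this
  rw [h2.fderiv]
  rfl

private lemma d8_lip_sq (η : (Fin d → ℝ) → ℝ) (hη : Lip η) (h01 : ∀ x, 0 ≤ η x ∧ η x ≤ 1) :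
    Lip (fun y => η y ^ 2) := by
  obtain ⟨K, hK⟩ := hη
  refine ⟨2 * K, LipschitzWith.of_dist_le_mul fun x y => ?_⟩
  have h1 := hK.dist_le_mul x y
  rw [Real.dist_eq] at h1 ⊢
  have h2 : η x ^ 2 - η y ^ 2 = (η x + η y) * (η x - η y) := by ring
  rw [h2, abs_mul]
  have h3 : |η x + η y| ≤ 2 := by
    rw [abs_le]
    have := h01 x
    have := h01 y
    constructor <;> linarith
  calc |η x + η y| * |η x - η y| ≤ 2 * (K * dist x y) :=
        mul_le_mul h3 h1 (abs_nonneg _) (by norm_num)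
    _ = _ := by push_cast; ring

/-- D8 -/
theorem dQuot : DEL → SPos → SCut → SShift → SLin → SLip → SInt → DQuot := by
  intro hEL hPos hCut hShift hLin _ _ d D w ρ u g hb z h s hh hz hs hh0
  have hn : 0 < ‖h‖ := norm_pos_iff.mpr hh0
  have hs2 : s ^ 2 = 1 := by rcases hs with rfl | rfl <;> norm_num
  set W : (Fin d → ℝ) → ℝ := fun x => s * (u (x + h) - u x) / ‖h‖ with hW
  set G : (Fin d → ℝ) → (Fin d → ℝ) := fun x => (s / ‖h‖) • (g (x + h) - g x) with hG
  set a : (Fin d → ℝ) → (Fin d → ℝ) :=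
    fun x => (s / ‖h‖) • (D.dL (g (x + h)) - D.dL (g x)) with ha
  set b : (Fin d → ℝ) → ℝ := fun x => s * (D.dF (u (x + h)) - D.dF (u x)) / ‖h‖ with hbdef
  have hsh := hShift d u g h hb.lsp
  have hWG : LSP W G := by
    have h1 := hLin d _ _ _ _ (s / ‖h‖) (-(s / ‖h‖)) hsh hb.lsp
    have e1 : (fun x => s / ‖h‖ * u (x + h) + -(s / ‖h‖) * u x) = W := by
      funext x; rw [hW]; simp only; ring
    have e2 : (fun x => (s / ‖h‖) • g (x + h) + (-(s / ‖h‖)) • g x) = G := by
      funext x; rw [hG]; simp only; rw [smul_sub, neg_smul, sub_eq_add_neg]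
    rwa [e1, e2] at h1
  have hma : AEStronglyMeasurable a volume :=
    ((D.dL_cont.comp_aestronglyMeasurable hsh.mg).sub
      (D.dL_cont.comp_aestronglyMeasurable hb.lsp.mg)).const_smul (s / ‖h‖)
  have hmb : AEStronglyMeasurable b volume := by
    have h1 := ((D.dF_cont.comp_aestronglyMeasurable hsh.mu).sub
      (D.dF_cont.comp_aestronglyMeasurable hb.lsp.mu)).const_mul (s / ‖h‖)
    have e : b = fun x => s / ‖h‖ * ((D.dF ∘ fun x => u (x + h)) - D.dF ∘ u) x := by
      funext x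
      rw [hbdef]
      simp only [Pi.sub_apply, Function.comp]
      ring
    rw [e]
    exact h1
  refine ⟨hWG, hma, hmb, ?_, ?_⟩
  · filter_upwards with x _
    have hc : (s / ‖h‖) ^ 2 = 1 / ‖h‖ ^ 2 := by rw [div_pow, hs2]
    have hc0 : 0 ≤ (s / ‖h‖) ^ 2 := sq_nonneg _
    refine ⟨?_, ?_, ?_⟩
    · rw [ha, hG]
      simp only
      rw [q41_sq_smul, q41_dot_smul, q41_dot_smul_left]
      have h1 := mul_le_mul_of_nonneg_left (D.mono (g (x + h)) (g x)) hc0
      nlinarith
    · rw [ha, hG]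
      simp only
      rw [q41_sq_smul, q41_sq_smul]
      have h1 := mul_le_mul_of_nonneg_left (D.dL_lip (g (x + h)) (g x)) hc0
      nlinarith
    · rw [hbdef, hW]
      simp only
      rw [abs_div, abs_div, abs_mul, abs_mul]
      have h1 := D.dF_lip (u (x + h)) (u x)
      have hsabs : |s| = 1 := by rcases hs with rfl | rfl <;> simp
      rw [hsabs, one_mul, one_mul, abs_of_pos hn, mul_div_assoc', div_le_div_iff_of_pos_right hn]
      exact h1
  · intro k hk η hη h01 hη0
    have hP := hPos d W G k hWG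
    have hcs : HasCompactSupport (fun y => η y ^ 2) := by
      apply HasCompactSupport.of_support_subset_isCompact (isCompact_closedBall z 2)
      intro x hx
      by_contra hcon
      apply hx
      simp only [hη0 x hcon]
      norm_num
    have hC := hCut d (fun x => max (W x - k) 0) (fun y => η y ^ 2)
      (fun x => if k < W x then G x else 0) hP (d8_lip_sq η hη h01) hcs
    set φ : (Fin d → ℝ) → ℝ := fun x => η x ^ 2 * max (W x - k) 0 with hφ
    set ψ : (Fin d → ℝ) → (Fin d → ℝ) := fun x => η x ^ 2 • (if k < W x then G x else 0)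
      + max (W x - k) 0 • gr (fun y => η y ^ 2) x with hψ
    have hzero : ∀ x, x ∉ closedBall z 2 → φ x = 0 ∧ ψ x = 0 := by
      intro x hx
      have h1 := hη0 x hx
      have h2 : gr (fun y => η y ^ 2) x = 0 := by
        apply q41_gr_zero (fun y => η y ^ 2) (closedBall z 2) isClosed_closedBall _ x hx
        intro y hy
        simp only [hη0 y hy]
        norm_num
      constructor
      · rw [hφ]; simp only [h1]; ring
      · rw [hψ]; simp only [h1, h2]; simp
    have hsub : closedBall z 2 ⊆ closedBall (0 : Fin d → ℝ) (‖z‖ + 2) := by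
      apply closedBall_subset_closedBall'
      rw [dist_zero_right]; linarith
    have hz1 : ∀ x, x ∉ closedBall (0 : Fin d → ℝ) (‖z‖ + 2) → φ x = 0 ∧ ψ x = 0 :=
      fun x hx => hzero x (fun hc => hx (hsub hc))
    have hz2 : ∀ x, x ∉ closedBall (0 : Fin d → ℝ) (‖z‖ + 3) →
        φ (x + -h) = 0 ∧ ψ (x + -h) = 0 := by
      intro x hx
      apply hz1
      intro hc
      apply hx
      rw [mem_closedBall_zero_iff] at hc ⊢
      have : ‖x‖ ≤ ‖x + -h‖ + ‖h‖ := by
        calc ‖x‖ = ‖(x + -h) + h‖ := by congr 1; abel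
          _ ≤ _ := norm_add_le _ _
      linarith
    obtain ⟨i1, e1⟩ := hEL d D w ρ u g hb φ ψ (‖z‖ + 2) (by linarith) hC hz1
    obtain ⟨i2, e2⟩ := hEL d D w ρ u g hb _ _ (‖z‖ + 3) (by linarith) (hShift d φ ψ (-h) hC) hz2
    have i3 := i2.comp_add_right h
    have e3 := integral_add_right_eq_self (μ := (volume : Measure (Fin d → ℝ)))
      (fun x => dot (D.dL (g x)) (ψ (x + -h)) + D.dF (u x) * φ (x + -h)) h
    rw [e2] at e3
    simp only [add_neg_cancel_right] at i3 e3
    have hJ : ∀ᵐ x, dot (a x) (η x ^ 2 • (if k < W x then G x else 0)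
          + (2 * η x * max (W x - k) 0) • gr η x) + b x * (η x ^ 2 * max (W x - k) 0)
        = s / ‖h‖ * ((dot (D.dL (g (x + h))) (ψ x) + D.dF (u (x + h)) * φ x)
          - (dot (D.dL (g x)) (ψ x) + D.dF (u x) * φ x)) := by
      filter_upwards [d8_gr_sq η hη] with x hx
      have hψx : ψ x = η x ^ 2 • (if k < W x then G x else 0)
          + (2 * η x * max (W x - k) 0) • gr η x := by
        rw [hψ]
        simp only [hx]
        rw [smul_smul]
        congr 2
        ring
      rw [← hψx, ha, hbdef, hφ]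
      simp only
      rw [q41_dot_smul_left, q41_dot_sub_left]
      ring
    constructor
    · exact ((i3.sub i1).const_mul (s / ‖h‖)).congr (hJ.mono fun x hx => hx.symm)
    · rw [integral_congr_ae hJ, integral_const_mul, integral_sub i3 i1, e3, e1, sub_zero,
        mul_zero]

end Pool.Agent.Work.MP_85f2da_an

end

section

set_option autoImplicit false

/-!
# MP_85f2da_an, item C8: the null Lagrangian lemma
-/

open MeasureTheory Filter Set Metric
open scoped ENNReal Topology ContDiff NNReal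

namespace Pool.Agent.Work.MP_85f2da_an

section

variable {d : ℕ}

private lemma c8_single (i : Fin d) : ‖(Pi.single i (1 : ℝ) : Fin d → ℝ)‖ = 1 := by
  rw [Pi.norm_single]
  simp

private lemma c8_intOn {f : (Fin d → ℝ) → ℝ} {ρ C : ℝ} (hf : AEStronglyMeasurable f volume)
    (hb : ∀ x ∈ closedBall (0 : Fin d → ℝ) ρ, ‖f x‖ ≤ C) : IntegrableOn f (closedBall 0 ρ) := by
  refine Measure.integrableOn_of_bounded (M := C) measure_closedBall_lt_top.ne hf ?_
  exact (ae_restrict_iff' measurableSet_closedBall).mpr (Eventually.of_forall hb)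

private lemma c8_cont {E : (Fin d → ℝ) → (Fin d → ℝ)}
    (hE : ∀ r, ∃ K, LipschitzOnWith K E (closedBall 0 r)) : Continuous E := by
  rw [continuous_iff_continuousAt]
  intro x
  obtain ⟨K, hK⟩ := hE (‖x‖ + 1)
  refine hK.continuousOn.continuousAt ?_
  apply mem_of_superset (ball_mem_nhds x one_pos)
  intro y hy
  rw [mem_ball, dist_eq_norm] at hy
  rw [mem_closedBall, dist_zero_right]
  have := norm_sub_norm_le y x
  linarith

private lemma c8_nhds {ρ : ℝ} {x : Fin d → ℝ} (hx : x ∈ closedBall (0 : Fin d → ℝ) ρ) :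
    closedBall (0 : Fin d → ℝ) (|ρ| + 1) ∈ 𝓝 x := by
  apply mem_of_superset (ball_mem_nhds x one_pos)
  intro y hy
  rw [mem_ball, dist_eq_norm] at hy
  rw [mem_closedBall, dist_zero_right] at *
  have := norm_sub_norm_le y x
  linarith [le_abs_self ρ]

private lemma c8_gr_bd {U : (Fin d → ℝ) → ℝ} {K : NNReal} (hU : LipschitzWith K U)
    (i : Fin d) (x : Fin d → ℝ) : ‖gr U x i‖ ≤ K := by
  unfold gr
  refine ((fderiv ℝ U x).le_opNorm _).trans ?_
  rw [c8_single, mul_one]
  exact norm_fderiv_le_of_lipschitz ℝ hU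

private lemma c8_dE_bd {E : (Fin d → ℝ) → (Fin d → ℝ)} {K : NNReal} {ρ : ℝ}
    (hK : LipschitzOnWith K E (closedBall 0 (|ρ| + 1))) (i : Fin d) {x : Fin d → ℝ}
    (hx : x ∈ closedBall (0 : Fin d → ℝ) ρ) :
    ‖fderiv ℝ (fun y => E y i) x (Pi.single i (1 : ℝ))‖ ≤ K := by
  refine ((fderiv ℝ (fun y => E y i) x).le_opNorm _).trans ?_
  rw [c8_single, mul_one]
  have h1 : LipschitzOnWith (1 * K) (fun y => E y i) (closedBall 0 (|ρ| + 1)) :=
    (LipschitzWith.eval i).comp_lipschitzOnWith hK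
  rw [one_mul] at h1
  exact norm_fderiv_le_of_lipschitzOn ℝ (c8_nhds hx) h1

private lemma c8_fd_meas (U : (Fin d → ℝ) → ℝ) (i : Fin d) :
    Measurable (fun x => fderiv ℝ U x (Pi.single i (1 : ℝ))) :=
  measurable_fderiv_apply_const ℝ U _

/-- bounds on the cube -/
private lemma c8_bd {f : (Fin d → ℝ) → ℝ} (hf : Continuous f) (ρ : ℝ) :
    ∃ C : ℝ, 0 ≤ C ∧ ∀ x ∈ closedBall (0 : Fin d → ℝ) ρ, ‖f x‖ ≤ C := by
  obtain ⟨C, hC⟩ := (isCompact_closedBall (0 : Fin d → ℝ) ρ).exists_bound_of_continuousOn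
    hf.continuousOn
  exact ⟨max C 0, le_max_right _ _, fun x hx => (hC x hx).trans (le_max_left _ _)⟩

private lemma c8_term1 {g : (Fin d → ℝ) → ℝ} {E : (Fin d → ℝ) → (Fin d → ℝ)} {K : NNReal} {ρ : ℝ}
    (hg : Continuous g) (hK : LipschitzOnWith K E (closedBall 0 (|ρ| + 1))) (i : Fin d) :
    IntegrableOn (fun x => g x * fderiv ℝ (fun y => E y i) x (Pi.single i (1 : ℝ)))
      (closedBall 0 ρ) := by
  obtain ⟨C, hC0, hC⟩ := c8_bd hg ρ
  refine c8_intOn (C := C * K)
    (hg.aestronglyMeasurable.mul (c8_fd_meas _ i).aestronglyMeasurable) (fun x hx => ?_)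
  rw [norm_mul]
  exact mul_le_mul (hC x hx) (c8_dE_bd hK i hx) (norm_nonneg _) hC0

private lemma c8_term2 {g U : (Fin d → ℝ) → ℝ} {K : NNReal} {ρ : ℝ}
    (hg : Continuous g) (hU : LipschitzWith K U) (i : Fin d) :
    IntegrableOn (fun x => g x * gr U x i) (closedBall 0 ρ) := by
  obtain ⟨C, hC0, hC⟩ := c8_bd hg ρ
  refine c8_intOn (C := C * K)
    (hg.aestronglyMeasurable.mul (c8_fd_meas _ i).aestronglyMeasurable) (fun x hx => ?_)
  rw [norm_mul]
  exact mul_le_mul (hC x hx) (c8_gr_bd hU i x) (norm_nonneg _) hC0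

private lemma c8_full {k k' : ℝ → ℝ} {E : (Fin d → ℝ) → (Fin d → ℝ)} {u : (Fin d → ℝ) → ℝ}
    {K K' : NNReal} {ρ : ℝ} (hk : Continuous k) (hk' : Continuous k') (hEc : Continuous E)
    (hK : LipschitzOnWith K E (closedBall 0 (|ρ| + 1))) (hu : LipschitzWith K' u) :
    IntegrableOn (fun x => k' (u x) * dot (E x) (gr u x) + k (u x) * dv E x)
      (closedBall 0 ρ) := by
  have h1 : (fun x => k' (u x) * dot (E x) (gr u x) + k (u x) * dv E x) =
      fun x => ∑ i, ((k' (u x) * E x i) * gr u x i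
        + k (u x) * fderiv ℝ (fun y => E y i) x (Pi.single i (1 : ℝ))) := by
    funext x
    rw [Finset.sum_add_distrib, dot, dv, Finset.mul_sum, Finset.mul_sum]
    congr 1
    apply Finset.sum_congr rfl
    intro i _
    ring
  rw [h1]
  refine integrable_finset_sum _ (fun i _ => ?_)
  refine Integrable.add (c8_term2 ?_ hu i) (c8_term1 (hk.comp hu.continuous) hK i)
  exact (hk'.comp hu.continuous).mul ((continuous_apply i).comp hEc)

end

/-- C8 -/
theorem cNullLag : CNullLag := by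
  intro d k k' E u w ρ hk hk' hE hu hw hout
  obtain ⟨Ku, hKu⟩ := hu
  obtain ⟨Kw, hKw⟩ := hw
  obtain ⟨KE, hKE⟩ := hE (|ρ| + 1)
  have hkc : Continuous k := continuous_iff_continuousAt.mpr (fun v => (hk v).continuousAt)
  have hEc := c8_cont hE
  have hIu := c8_full (ρ := ρ) hkc hk' hEc hKE hKu
  have hIw := c8_full (ρ := ρ) hkc hk' hEc hKE hKw
  refine ⟨hIu, ?_⟩
  -- the difference of the densities
  set A : (Fin d → ℝ) → ℝ := fun x => k (u x) - k (w x) with hA
  have hA0 : ∀ x, x ∉ closedBall (0 : Fin d → ℝ) ρ → A x = 0 := by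
    intro x hx
    simp only [hA, hout x hx, sub_self]
  have hAc : HasCompactSupport A := HasCompactSupport.intro (isCompact_closedBall 0 ρ) hA0
  -- A is Lipschitz
  have hAL : ∃ KA, LipschitzWith KA A := by
    obtain ⟨Cu, hCu0, hCu⟩ := c8_bd hKu.continuous ρ
    obtain ⟨Cw, hCw0, hCw⟩ := c8_bd hKw.continuous ρ
    set m := Cu + Cw with hm
    have hm0 : -m ≤ m := by linarith
    obtain ⟨D, hD⟩ := (isCompact_Icc (a := -m) (b := m)).exists_bound_of_continuousOn
      hk'.continuousOn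
    have hkl : LipschitzOnWith (Real.toNNReal D) k (Icc (-m) m) := by
      apply Convex.lipschitzOnWith_of_nnnorm_deriv_le (𝕜 := ℝ)
      · intro x _
        exact (hk x).differentiableAt
      · intro x hx
        rw [(hk x).deriv, ← NNReal.coe_le_coe, coe_nnnorm]
        exact (hD x hx).trans (Real.le_coe_toNNReal D)
      · exact convex_Icc _ _
    have hkt : LipschitzWith (Real.toNNReal D * 1) (fun x : ℝ => k (projIcc (-m) m hm0 x : ℝ)) :=
      hkl.to_restrict.comp (LipschitzWith.projIcc hm0)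
    have hAe : A = fun x => k (projIcc (-m) m hm0 (u x) : ℝ) - k (projIcc (-m) m hm0 (w x) : ℝ) := by
      funext x
      by_cases hx : x ∈ closedBall (0 : Fin d → ℝ) ρ
      · have h1 : u x ∈ Icc (-m) m := by
          have := abs_le.mp (Real.norm_eq_abs (u x) ▸ hCu x hx)
          exact ⟨by linarith [this.1], by linarith [this.2]⟩
        have h2 : w x ∈ Icc (-m) m := by
          have := abs_le.mp (Real.norm_eq_abs (w x) ▸ hCw x hx)
          exact ⟨by linarith [this.1], by linarith [this.2]⟩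
        rw [projIcc_of_mem hm0 h1, projIcc_of_mem hm0 h2]
      · rw [hA0 x hx]
        simp only [hout x hx, sub_self]
    rw [hAe]
    exact ⟨_, (hkt.comp hKu).sub (hkt.comp hKw)⟩
  obtain ⟨KA, hKA⟩ := hAL
  have hAcont : Continuous A := hKA.continuous
  -- extension of the components of E
  have hG : ∀ i, ∃ G : (Fin d → ℝ) → ℝ, LipschitzWith KE G ∧
      EqOn (fun x => E x i) G (closedBall 0 (|ρ| + 1)) := by
    intro i
    have h1 : LipschitzOnWith (1 * KE) (fun y => E y i) (closedBall 0 (|ρ| + 1)) :=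
      (LipschitzWith.eval i).comp_lipschitzOnWith hKE
    rw [one_mul] at h1
    exact h1.extend_real
  choose G hGL hGE using hG
  have hsub : closedBall (0 : Fin d → ℝ) ρ ⊆ closedBall 0 (|ρ| + 1) :=
    closedBall_subset_closedBall (by linarith [le_abs_self ρ])
  -- integration by parts for one component
  have part : ∀ i, ∫ x in closedBall (0 : Fin d → ℝ) ρ,
      (A x * fderiv ℝ (fun y => E y i) x (Pi.single i (1 : ℝ))
        + ((k' (u x) * E x i) * gr u x i - (k' (w x) * E x i) * gr w x i)) = 0 := by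
    intro i
    have ibp := (hGL i).integral_lineDeriv_mul_eq (μ := volume) hKA hAc (Pi.single i (1 : ℝ))
    have e1 : ∫ x, lineDeriv ℝ (G i) x (Pi.single i (1 : ℝ)) * A x =
        ∫ x in closedBall (0 : Fin d → ℝ) ρ,
          A x * fderiv ℝ (fun y => E y i) x (Pi.single i (1 : ℝ)) := by
      rw [← integral_indicator measurableSet_closedBall]
      apply integral_congr_ae
      filter_upwards [(hGL i).ae_differentiableAt] with x hx
      by_cases hxB : x ∈ closedBall (0 : Fin d → ℝ) ρ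
      · rw [indicator_of_mem hxB, hx.lineDeriv_eq_fderiv, mul_comm]
        have h1 : G i =ᶠ[𝓝 x] fun y => E y i :=
          Filter.eventuallyEq_of_mem (c8_nhds hxB) (fun y hy => (hGE i hy).symm)
        rw [h1.fderiv_eq]
      · rw [indicator_of_notMem hxB, hA0 x hxB, mul_zero]
    have e2 : ∫ x, lineDeriv ℝ A x (-Pi.single i (1 : ℝ)) * G i x =
        ∫ x in closedBall (0 : Fin d → ℝ) ρ,
          -((k' (u x) * E x i) * gr u x i - (k' (w x) * E x i) * gr w x i) := by
      rw [← integral_indicator measurableSet_closedBall]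
      apply integral_congr_ae
      filter_upwards [hKA.ae_differentiableAt, hKu.ae_differentiableAt, hKw.ae_differentiableAt]
        with x hx hxu hxw
      by_cases hxB : x ∈ closedBall (0 : Fin d → ℝ) ρ
      · rw [indicator_of_mem hxB, hx.lineDeriv_eq_fderiv]
        have h1 : HasFDerivAt A (k' (u x) • fderiv ℝ u x - k' (w x) • fderiv ℝ w x) x :=
          ((hk (u x)).comp_hasFDerivAt x hxu.hasFDerivAt).sub
            ((hk (w x)).comp_hasFDerivAt x hxw.hasFDerivAt)
        rw [h1.fderiv, ← hGE i (hsub hxB)]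
        simp only [gr, map_neg, ContinuousLinearMap.sub_apply, ContinuousLinearMap.smul_apply,
          smul_eq_mul]
        ring
      · rw [indicator_of_notMem hxB, hx.lineDeriv_eq_fderiv]
        have h1 : A =ᶠ[𝓝 x] fun _ => (0 : ℝ) :=
          Filter.eventuallyEq_of_mem (isClosed_closedBall.isOpen_compl.mem_nhds hxB)
            (fun y hy => hA0 y hy)
        rw [h1.fderiv_eq]
        simp
    rw [e1, e2, integral_neg] at ibp
    have i1 : IntegrableOn (fun x => A x * fderiv ℝ (fun y => E y i) x (Pi.single i (1 : ℝ)))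
      (closedBall 0 ρ) := c8_term1 hAcont hKE i
    have i2 : IntegrableOn (fun x => (k' (u x) * E x i) * gr u x i - (k' (w x) * E x i) * gr w x i)
      (closedBall 0 ρ) :=
      (c8_term2 ((hk'.comp hKu.continuous).mul ((continuous_apply i).comp hEc)) hKu i).sub
        (c8_term2 ((hk'.comp hKw.continuous).mul ((continuous_apply i).comp hEc)) hKw i)
    rw [integral_add i1 i2, ibp]
    ring
  have hsum : ∫ x in closedBall (0 : Fin d → ℝ) ρ,
      ((k' (u x) * dot (E x) (gr u x) + k (u x) * dv E x)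
        - (k' (w x) * dot (E x) (gr w x) + k (w x) * dv E x)) = 0 := by
    have h1 : (fun x => (k' (u x) * dot (E x) (gr u x) + k (u x) * dv E x)
        - (k' (w x) * dot (E x) (gr w x) + k (w x) * dv E x)) =
        fun x => ∑ i, (A x * fderiv ℝ (fun y => E y i) x (Pi.single i (1 : ℝ))
          + ((k' (u x) * E x i) * gr u x i - (k' (w x) * E x i) * gr w x i)) := by
      funext x
      rw [Finset.sum_add_distrib, Finset.sum_sub_distrib, dot, dot, dv, Finset.mul_sum,
        Finset.mul_sum, Finset.mul_sum, Finset.mul_sum]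
      simp only [hA, sub_mul, Finset.sum_sub_distrib, mul_assoc]
      ring
    rw [h1, integral_finset_sum]
    · exact Finset.sum_eq_zero (fun i _ => part i)
    · intro i _
      have i1 : IntegrableOn (fun x => A x * fderiv ℝ (fun y => E y i) x (Pi.single i (1 : ℝ)))
        (closedBall 0 ρ) := c8_term1 hAcont hKE i
      have i2 : IntegrableOn (fun x => (k' (u x) * E x i) * gr u x i
          - (k' (w x) * E x i) * gr w x i) (closedBall 0 ρ) :=
        (c8_term2 ((hk'.comp hKu.continuous).mul ((continuous_apply i).comp hEc)) hKu i).sub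
          (c8_term2 ((hk'.comp hKw.continuous).mul ((continuous_apply i).comp hEc)) hKw i)
      exact i1.add i2
  rw [integral_sub hIu hIw] at hsum
  linarith

end Pool.Agent.Work.MP_85f2da_an

end

section

set_option autoImplicit false

/-!
# MP_85f2da_an, E1: phases pass to the limit
-/

open MeasureTheory Filter Set Metric
open scoped ENNReal Topology ContDiff

namespace Pool.Agent.Work.MP_85f2da_an

theorem e1_Hv_lip (a b : ℝ) : |Hv a - Hv b| ≤ |a - b| := by
  have hpi := Real.pi_pos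
  have h3 := Real.pi_gt_three
  have e : Hv a - Hv b = (Real.cos (Real.pi * b) - Real.cos (Real.pi * a)) / Real.pi ^ 2 := by
    unfold Hv
    ring
  rw [e, abs_div, abs_of_pos (by positivity : 0 < Real.pi ^ 2), div_le_iff₀ (by positivity)]
  refine (Real.abs_cos_sub_cos_le _ _).trans ?_
  rw [← mul_sub, abs_mul, abs_of_pos hpi, abs_sub_comm b a]
  have : Real.pi ≤ Real.pi ^ 2 := by nlinarith
  nlinarith [abs_nonneg (a - b)]

theorem e1_Hv_cont : Continuous Hv := by
  unfold Hv
  fun_prop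

/-- The limit argument for one cube and one sign. -/
theorem e1_lim {d : ℕ} {u : (Fin d → ℝ) → ℝ} {U : ℕ → (Fin d → ℝ) → ℝ} (hu : Continuous u)
    (hU : ∀ j, Continuous (U j)) (c : Fin d → ℝ) (r B : ℝ) (a b : ℝ) (hb : |b| = 1)
    (h : ∀ j, ∫ z in closedBall c r, (a + b * Hv (U j z)) ≤ B)
    (hl : ∀ R : ℝ, Tendsto (fun j => ∫ x in closedBall 0 R, (U j x - u x) ^ 2) atTop (𝓝 0)) :
    ∫ z in closedBall c r, (a + b * Hv (u z)) ≤ B := by
  set R := ‖c‖ + r with hR
  have hsub : closedBall c r ⊆ closedBall 0 R := by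
    intro x hx
    rw [mem_closedBall, dist_zero_right]
    rw [mem_closedBall, dist_eq_norm] at hx
    have := norm_le_norm_add_norm_sub' x c
    linarith
  have hfin : volume (closedBall c r) ≠ ⊤ := measure_closedBall_lt_top.ne
  set m := (volume (closedBall c r)).toReal with hm
  have ci : ∀ {f : (Fin d → ℝ) → ℝ}, Continuous f → ∀ c' r', IntegrableOn f (closedBall c' r') :=
    fun hf c' r' => hf.continuousOn.integrableOn_compact (isCompact_closedBall c' r')
  have key : ∀ e : ℝ, 0 < e → ∫ z in closedBall c r, (a + b * Hv (u z)) ≤ B + e * m := by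
    intro e he
    have hj : ∀ j, ∫ z in closedBall c r, (a + b * Hv (u z)) ≤
        B + (e * m + 1 / e * ∫ x in closedBall 0 R, (U j x - u x) ^ 2) := by
      intro j
      have hp : ∀ z, a + b * Hv (u z) ≤ (a + b * Hv (U j z)) + (e + 1 / e * (U j z - u z) ^ 2) := by
        intro z
        have h1 : b * Hv (u z) - b * Hv (U j z) ≤ |U j z - u z| := by
          rw [← mul_sub]
          refine (le_abs_self _).trans ?_
          rw [abs_mul, hb, one_mul, abs_sub_comm (U j z)]
          exact e1_Hv_lip _ _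
        have h2 : |U j z - u z| ≤ e + 1 / e * (U j z - u z) ^ 2 := by
          rw [← sq_abs (U j z - u z)]
          set x := |U j z - u z|
          have h3 : 0 ≤ (x - e) ^ 2 / e := by positivity
          have h4 : (x - e) ^ 2 / e = 1 / e * x ^ 2 - 2 * x + e := by
            field_simp
            ring
          have : 0 ≤ x := abs_nonneg _
          linarith
        linarith
      have c1 : Continuous fun z => a + b * Hv (u z) :=
        continuous_const.add (continuous_const.mul (e1_Hv_cont.comp hu))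
      have c2 : Continuous fun z => a + b * Hv (U j z) :=
        continuous_const.add (continuous_const.mul (e1_Hv_cont.comp (hU j)))
      have c3 : Continuous fun z => (U j z - u z) ^ 2 := ((hU j).sub hu).pow 2
      have c4 : Continuous fun z => e + 1 / e * (U j z - u z) ^ 2 :=
        continuous_const.add (continuous_const.mul c3)
      have h5 : ∫ z in closedBall c r, (a + b * Hv (u z)) ≤
          ∫ z in closedBall c r, ((a + b * Hv (U j z)) + (e + 1 / e * (U j z - u z) ^ 2)) :=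
        integral_mono (ci c1 _ _) (ci (c2.add c4) _ _) hp
      have h6 : ∫ z in closedBall c r, ((a + b * Hv (U j z)) + (e + 1 / e * (U j z - u z) ^ 2)) =
          (∫ z in closedBall c r, (a + b * Hv (U j z))) +
            ∫ z in closedBall c r, (e + 1 / e * (U j z - u z) ^ 2) :=
        integral_add (ci c2 _ _) (ci c4 _ _)
      have h7 : ∫ z in closedBall c r, (e + 1 / e * (U j z - u z) ^ 2) =
          (∫ z in closedBall c r, e) + ∫ z in closedBall c r, 1 / e * (U j z - u z) ^ 2 :=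
        integral_add (ci continuous_const _ _) (ci (continuous_const.mul c3) _ _)
      have h8 : ∫ z in closedBall c r, e = e * m := by
        rw [setIntegral_const, smul_eq_mul, mul_comm]
        rfl
      have h9 : ∫ z in closedBall c r, (U j z - u z) ^ 2 ≤
          ∫ x in closedBall 0 R, (U j x - u x) ^ 2 :=
        setIntegral_mono_set (ci c3 _ _) (ae_of_all _ fun x => sq_nonneg _) hsub.eventuallyLE
      rw [integral_const_mul] at h7
      have h10 := mul_le_mul_of_nonneg_left h9 (by positivity : 0 ≤ 1 / e)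
      have h11 := h j
      linarith
    have ht : Tendsto (fun j => B + (e * m + 1 / e * ∫ x in closedBall 0 R, (U j x - u x) ^ 2))
        atTop (𝓝 (B + (e * m + 1 / e * 0))) :=
      tendsto_const_nhds.add (tendsto_const_nhds.add ((hl R).const_mul _))
    rw [mul_zero, add_zero] at ht
    exact ge_of_tendsto' ht hj
  have ht : Tendsto (fun n : ℕ => B + 1 / ((n : ℝ) + 1) * m) atTop (𝓝 (B + 0 * m)) :=
    tendsto_const_nhds.add (tendsto_one_div_add_atTop_nhds_zero_nat.mul_const m)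
  rw [zero_mul, add_zero] at ht
  exact ge_of_tendsto' ht fun n => key _ (by positivity)

theorem eLim : ELim := by
  intro C U u hU hu hP hl r s hr hs
  have hu' : Continuous u := by
    obtain ⟨K, hK⟩ := hu
    exact hK.continuous
  have hU' : ∀ j, Continuous (U j) := by
    intro j
    obtain ⟨K, hK⟩ := hU j
    exact hK.continuous
  constructor
  · have := e1_lim hu' hU' (r • (![s * (36 / 25), 0, 4 / 5, 0] : Fin 4 → ℝ)) (r / 100) (C * r)
      (Hv 1) (-1) (by norm_num) (fun j => ?_) hl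
    · refine le_trans (le_of_eq ?_) this
      refine integral_congr_ae (ae_of_all _ fun z => ?_)
      show Hv 1 - Hv (u z) = Hv 1 + -1 * Hv (u z)
      ring
    · refine le_trans (le_of_eq ?_) (hP j r s hr hs).1
      refine integral_congr_ae (ae_of_all _ fun z => ?_)
      show Hv 1 + -1 * Hv (U j z) = Hv 1 - Hv (U j z)
      ring
  · have := e1_lim hu' hU' (r • (![s * (11 / 25), 0, 4 / 5, 0] : Fin 4 → ℝ)) (r / 100) (C * r)
      0 1 (by norm_num) (fun j => ?_) hl
    · refine le_trans (le_of_eq ?_) this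
      refine integral_congr_ae (ae_of_all _ fun z => ?_)
      show Hv (u z) = 0 + 1 * Hv (u z)
      ring
    · refine le_trans (le_of_eq ?_) (hP j r s hr hs).2
      refine integral_congr_ae (ae_of_all _ fun z => ?_)
      show 0 + 1 * Hv (U j z) = Hv (U j z)
      ring

end Pool.Agent.Work.MP_85f2da_an

end

section

set_option autoImplicit false

/-!
# P2: the polynomial inequality far from the cone (helper90)
-/

open Set

namespace Pool.Agent.Work.MP_85f2da_an

private theorem p2_scale (w σ x b e c y : ℝ) :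
    sl w σ x b e c y = sl w σ x (b * e) 1 (c * e ^ 2) y := by
  unfold sl
  have h1 : sN w σ x b e c = sN w σ x (b * e) 1 (c * e ^ 2) := by
    unfold sN
    ring
  have h2 : s0 w σ b e c = s0 w σ (b * e) 1 (c * e ^ 2) := by
    unfold s0
    ring
  rw [h1, h2]

private theorem p2_zero (w x y : ℝ) : sl w 0 x 0 1 0 y = sl w 0 x 0 0 0 y := by
  rw [p2_scale w 0 x 0 0 0 y, p2_scale w 0 x 0 1 0 y]
  norm_num

private theorem p2_symm (w σ x b e c y : ℝ) :
    sl (-w) (-σ) x (-b) e c (-y) = sl w σ x b e c y := by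
  unfold sl
  have h1 : sN (-w) (-σ) x (-b) e c = sN w σ x b e c := by
    unfold sN
    ring
  have h2 : s0 (-w) (-σ) (-b) e c = s0 w σ b e c := by
    unfold s0
    ring
  have h3 : sT (-w) (-σ) x = -sT w σ x := by
    unfold sT
    ring
  rw [h1, h2, h3, neg_sq]
  congr 3
  ring

/-- the reduced slack as a function on `ℝ^6` -/
private noncomputable def p2_F (p : ℝ × ℝ × ℝ × ℝ × ℝ × ℝ) : ℝ :=
  sl p.1 p.2.1 p.2.2.1 p.2.2.2.1 1 p.2.2.2.2.1 p.2.2.2.2.2

private def p2_K : Set (ℝ × ℝ × ℝ × ℝ × ℝ × ℝ) :=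
  Icc (-1) 1 ×ˢ Icc (-1) 1 ×ˢ Icc 0 (7 / 6) ×ˢ Icc (-1) 1 ×ˢ Icc (-1) 1 ×ˢ
    Icc (-(19 / 20)) (19 / 20)

private theorem p2_compact : IsCompact p2_K :=
  isCompact_Icc.prod (isCompact_Icc.prod (isCompact_Icc.prod (isCompact_Icc.prod
    (isCompact_Icc.prod isCompact_Icc))))

private theorem p2_cont : ContinuousOn p2_F p2_K := by
  have h1 : ∀ p ∈ p2_K, 2 * (1 - p.2.2.2.2.2 ^ 2) ≠ 0 := by
    intro p hp
    have h2 := hp.2.2.2.2.2
    have h3 : p.2.2.2.2.2 ^ 2 ≤ (19 / 20) ^ 2 := sq_le_sq' h2.1 h2.2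
    have : (0 : ℝ) < 2 * (1 - p.2.2.2.2.2 ^ 2) := by
      have h4 : ((19 : ℝ) / 20) ^ 2 < 1 := by norm_num
      linarith
    exact this.ne'
  have hN : Continuous fun p : ℝ × ℝ × ℝ × ℝ × ℝ × ℝ =>
      sN p.1 p.2.1 p.2.2.1 p.2.2.2.1 1 p.2.2.2.2.1 := by
    unfold sN
    fun_prop
  have hT : Continuous fun p : ℝ × ℝ × ℝ × ℝ × ℝ × ℝ => sT p.1 p.2.1 p.2.2.1 := by
    unfold sT
    fun_prop
  have h0 : Continuous fun p : ℝ × ℝ × ℝ × ℝ × ℝ × ℝ =>
      s0 p.1 p.2.1 p.2.2.2.1 1 p.2.2.2.2.1 := by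
    unfold s0
    fun_prop
  unfold p2_F sl
  refine ContinuousOn.sub (ContinuousOn.sub ?_ (ContinuousOn.div ?_ ?_ h1)) h0.continuousOn
  · exact (by fun_prop : Continuous _).continuousOn
  · exact (by fun_prop : Continuous _).continuousOn
  · exact (by fun_prop : Continuous _).continuousOn

private theorem p2_pos (hM : PMac) (w0 : ℝ) (hw0 : 0 < w0) : ∃ η : ℝ, 0 < η ∧
    ∀ w σ x b e c : ℝ, w0 ≤ w → w ≤ 1 → |σ| ≤ η → 0 < e → e ≤ η → 0 ≤ x → x ≤ 7 / 6 →
    |b| ≤ 2 / 3 → 0 ≤ c → c * e ≤ 2 * e + 4 * |σ| →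
    ∃ y : ℝ, |y| ≤ 19 / 20 ∧ |y| ≤ 3 * x * |w - σ| ∧ 1 / 4 * (w - σ) ^ 2 ≤ sl w σ x b e c y := by
  have hu := p2_compact.uniformContinuousOn_of_continuous p2_cont
  rw [Metric.uniformContinuousOn_iff] at hu
  obtain ⟨δ, hδ, hF⟩ := hu (w0 ^ 2 / 40) (by positivity)
  refine ⟨min (min (w0 / 9) (1 / 6)) (min (δ / 2) (w0 ^ 2 / 30)), by positivity, ?_⟩
  intro w σ x b e c hw hw1 hσ he heη hx hx1 hb hc hce
  set η := min (min (w0 / 9) (1 / 6)) (min (δ / 2) (w0 ^ 2 / 30)) with hη
  have η1 : η ≤ w0 / 9 := (min_le_left _ _).trans (min_le_left _ _)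
  have η2 : η ≤ 1 / 6 := (min_le_left _ _).trans (min_le_right _ _)
  have η3 : η ≤ δ / 2 := (min_le_right _ _).trans (min_le_left _ _)
  have η4 : η ≤ w0 ^ 2 / 30 := (min_le_right _ _).trans (min_le_right _ _)
  have hη0 : 0 < η := he.trans_le heη
  have hwp : 0 < w := hw0.trans_le hw
  set ρ : ℝ := 8 * w / (3 + 5 * w ^ 2) with hρ
  have hd : 0 < 3 + 5 * w ^ 2 := by positivity
  have hρ0 : 0 ≤ ρ := by positivity
  have hρ1 : ρ ≤ 8 / 3 * w := by
    rw [hρ, div_le_iff₀ hd]
    have : 0 ≤ w * w ^ 2 := by positivity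
    linarith
  set y := min (x * ρ) (19 / 20) with hy
  have hy0 : 0 ≤ y := le_min (by positivity) (by norm_num)
  have hy1 : y ≤ 19 / 20 := min_le_right _ _
  have hy2 : y ≤ x * ρ := min_le_left _ _
  have hσ1 := abs_le.1 hσ
  refine ⟨y, by rw [abs_of_nonneg hy0]; exact hy1, ?_, ?_⟩
  · rw [abs_of_nonneg hy0, abs_of_nonneg (by linarith)]
    have h1 : x * ρ ≤ x * (8 / 3 * w) := mul_le_mul_of_nonneg_left hρ1 hx
    have h2 : x * (8 / 3 * w) ≤ x * (3 * (w - σ)) := mul_le_mul_of_nonneg_left (by linarith) hx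
    linarith
  have hmac : 3 / 10 * w ^ 2 ≤ sl w 0 x 0 0 0 y := hM w x hwp.le hw1 hx hx1
  have hB : |b * e| ≤ η := by
    rw [abs_mul, abs_of_pos he]
    exact (mul_le_mul_of_nonneg_right hb he.le).trans (by linarith)
  have hg0 : 0 ≤ c * e ^ 2 := by positivity
  have hg : c * e ^ 2 ≤ η := by
    have h1 : c * e ^ 2 = (c * e) * e := by ring
    have h2 : (c * e) * e ≤ (6 * η) * e := mul_le_mul_of_nonneg_right (by linarith) he.le
    have h3 : (6 * η) * e ≤ 1 * e := mul_le_mul_of_nonneg_right (by linarith) he.le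
    linarith
  have hBa := abs_le.1 hB
  have hq : ((w, 0, x, 0, 0, y) : ℝ × ℝ × ℝ × ℝ × ℝ × ℝ) ∈ p2_K := by
    refine ⟨⟨?_, ?_⟩, ⟨?_, ?_⟩, ⟨?_, ?_⟩, ⟨?_, ?_⟩, ⟨?_, ?_⟩, ⟨?_, ?_⟩⟩ <;> simp only <;> linarith
  have hp : ((w, σ, x, b * e, c * e ^ 2, y) : ℝ × ℝ × ℝ × ℝ × ℝ × ℝ) ∈ p2_K := by
    refine ⟨⟨?_, ?_⟩, ⟨?_, ?_⟩, ⟨?_, ?_⟩, ⟨?_, ?_⟩, ⟨?_, ?_⟩, ⟨?_, ?_⟩⟩ <;> simp only <;> linarith
  have hdist : dist ((w, σ, x, b * e, c * e ^ 2, y) : ℝ × ℝ × ℝ × ℝ × ℝ × ℝ)
      (w, 0, x, 0, 0, y) < δ := by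
    have hδη : η < δ := by linarith
    simp only [Prod.dist_eq, dist_self, Real.dist_eq, sub_zero, max_lt_iff]
    rw [abs_of_nonneg hg0]
    exact ⟨hδ, hσ.trans_lt hδη, hδ, hB.trans_lt hδη, hg.trans_lt hδη, hδ⟩
  have h1 := hF _ hp _ hq hdist
  rw [Real.dist_eq] at h1
  have e1 : p2_F (w, σ, x, b * e, c * e ^ 2, y) = sl w σ x b e c y := (p2_scale _ _ _ _ _ _ _).symm
  have e2 : p2_F (w, 0, x, 0, 0, y) = sl w 0 x 0 0 0 y := p2_zero w x y
  rw [e1, e2] at h1
  have h2 := (abs_lt.1 h1).1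
  have h3 : (w - σ) ^ 2 ≤ w ^ 2 + 3 * η := by
    have h4 : (w - σ) ^ 2 = w ^ 2 - 2 * (w * σ) + σ * σ := by ring
    have h5 : |w * σ| ≤ 1 * η := by
      rw [abs_mul]
      exact mul_le_mul (by rw [abs_of_pos hwp]; exact hw1) hσ (abs_nonneg _) zero_le_one
    have h6 : |σ * σ| ≤ 1 * η := by
      rw [abs_mul]
      exact mul_le_mul (by linarith) hσ (abs_nonneg _) zero_le_one
    have h7 := (abs_le.1 h5).1
    have h8 := (abs_le.1 h6).2
    rw [h4]
    linarith
  have h4 : w0 ^ 2 ≤ w ^ 2 := pow_le_pow_left₀ hw0.le hw 2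
  linarith

theorem pFar (hM : PMac) : PFar := by
  intro w0 hw0
  obtain ⟨η, hη, h⟩ := p2_pos hM w0 hw0
  refine ⟨η, hη, ?_⟩
  intro w σ x b e c hw hw1 hσ he heη hx hx1 hb hc hce
  rcases le_or_gt 0 w with h0 | h0
  · rw [abs_of_nonneg h0] at hw hw1
    exact h w σ x b e c hw hw1 hσ he heη hx hx1 hb hc hce
  · rw [abs_of_neg h0] at hw hw1
    obtain ⟨y, h1, h2, h3⟩ := h (-w) (-σ) x (-b) e c hw hw1 (by rwa [abs_neg]) he heη hx hx1
      (by rwa [abs_neg]) hc (by rwa [abs_neg])
    refine ⟨-y, by rwa [abs_neg], ?_, ?_⟩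
    · rw [abs_neg]
      have : |(-w) - (-σ)| = |w - σ| := by
        rw [← abs_neg]
        congr 1
        ring
      rwa [this] at h2
    · have e1 := p2_symm w σ x b e c (-y)
      rw [neg_neg] at e1
      rw [← e1]
      have : ((-w) - (-σ)) ^ 2 = (w - σ) ^ 2 := by ring
      rwa [this] at h3

end Pool.Agent.Work.MP_85f2da_an

end

section

set_option autoImplicit false

/-!
# A4: the potential `F(v) = sin(pi v)^2 / (2 pi^2)`
-/

open MeasureTheory Filter Set Metric
open scoped ENNReal Topology ContDiff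

namespace Pool.Agent.Work.MP_85f2da_an

private theorem a4_eq (v : ℝ) : Fv v = (1 - Real.cos (2 * Real.pi * v)) / (4 * Real.pi ^ 2) := by
  have hpi : Real.pi ≠ 0 := Real.pi_ne_zero
  unfold Fv hv
  have h1 : Real.cos (2 * Real.pi * v) = 1 - 2 * Real.sin (Real.pi * v) ^ 2 := by
    rw [mul_assoc, Real.cos_two_mul, Real.cos_sq']
    ring
  rw [h1]
  field_simp
  ring

private theorem a4_hasDeriv (v : ℝ) :
    HasDerivAt Fv (Real.sin (2 * Real.pi * v) / (2 * Real.pi)) v := by
  have hpi : Real.pi ≠ 0 := Real.pi_ne_zero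
  have h0 : Fv = fun v => (1 - Real.cos (2 * Real.pi * v)) / (4 * Real.pi ^ 2) := funext a4_eq
  rw [h0]
  have h1 : HasDerivAt (fun v : ℝ => 2 * Real.pi * v) (2 * Real.pi) v := by
    simpa using (hasDerivAt_id v).const_mul (2 * Real.pi)
  have h2 := ((h1.cos.const_sub 1).div_const (4 * Real.pi ^ 2))
  have e : -(-Real.sin (2 * Real.pi * v) * (2 * Real.pi)) / (4 * Real.pi ^ 2) =
      Real.sin (2 * Real.pi * v) / (2 * Real.pi) := by
    field_simp
    ring
  rw [e] at h2
  exact h2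

private theorem a4_deriv : deriv Fv = fun v => Real.sin (2 * Real.pi * v) / (2 * Real.pi) :=
  funext fun v => (a4_hasDeriv v).deriv

private theorem a4_hasDeriv2 (v : ℝ) : HasDerivAt (deriv Fv) (Real.cos (2 * Real.pi * v)) v := by
  have hpi : Real.pi ≠ 0 := Real.pi_ne_zero
  rw [a4_deriv]
  have h1 : HasDerivAt (fun v : ℝ => 2 * Real.pi * v) (2 * Real.pi) v := by
    simpa using (hasDerivAt_id v).const_mul (2 * Real.pi)
  have h2 := (h1.sin.div_const (2 * Real.pi))
  have e : Real.cos (2 * Real.pi * v) * (2 * Real.pi) / (2 * Real.pi) =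
      Real.cos (2 * Real.pi * v) := by
    field_simp
  rw [e] at h2
  exact h2

private theorem a4_lip (v w : ℝ) : |deriv Fv v - deriv Fv w| ≤ |v - w| := by
  have h := Convex.norm_image_sub_le_of_norm_hasDerivWithin_le (f := deriv Fv)
    (f' := fun v => Real.cos (2 * Real.pi * v)) (C := 1) (s := Set.univ) (x := w) (y := v)
    (fun x _ => (a4_hasDeriv2 x).hasDerivWithinAt)
    (fun x _ => by rw [Real.norm_eq_abs]; exact Real.abs_cos_le_one _) convex_univ
    (Set.mem_univ _) (Set.mem_univ _)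
  simpa [Real.norm_eq_abs] using h

private theorem a4_taylor (v s : ℝ) : |Fv (v + s) - Fv v - deriv Fv v * s| ≤ 1 / 2 * s ^ 2 := by
  have hder : ∀ t : ℝ, HasDerivAt (fun t => Fv (v + t * s) - Fv v - deriv Fv v * (t * s))
      (deriv Fv (v + t * s) * s - deriv Fv v * s) t := by
    intro t
    have h1 : HasDerivAt (fun t : ℝ => t * s) s t := by
      simpa using (hasDerivAt_id t).mul_const s
    have h2 : HasDerivAt (fun t : ℝ => v + t * s) s t := h1.const_add v
    have h3 : HasDerivAt Fv (deriv Fv (v + t * s)) (v + t * s) := by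
      have := a4_hasDeriv (v + t * s)
      rwa [← this.deriv] at this
    exact ((h3.comp t h2).sub_const (Fv v)).sub (h1.const_mul (deriv Fv v))
  have hB : ∀ t : ℝ, HasDerivAt (fun t : ℝ => 1 / 2 * s ^ 2 * t ^ 2) (s ^ 2 * t) t := by
    intro t
    have h7 := (hasDerivAt_pow 2 t).const_mul (1 / 2 * s ^ 2)
    have e : 1 / 2 * s ^ 2 * (((2 : ℕ) : ℝ) * t ^ (2 - 1)) = s ^ 2 * t := by
      norm_num
      ring
    rw [e] at h7
    exact h7
  have h := image_norm_le_of_norm_deriv_right_le_deriv_boundary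
    (f := fun t => Fv (v + t * s) - Fv v - deriv Fv v * (t * s)) (a := 0) (b := 1)
    (f' := fun t => deriv Fv (v + t * s) * s - deriv Fv v * s)
    (B := fun t : ℝ => 1 / 2 * s ^ 2 * t ^ 2) (B' := fun t => s ^ 2 * t)
    (fun t _ => (hder t).continuousAt.continuousWithinAt)
    (fun t _ => (hder t).hasDerivWithinAt) (by simp) hB
    (fun t ht => by
      rw [Real.norm_eq_abs, ← sub_mul, abs_mul]
      have h5 := a4_lip (v + t * s) v
      have h6 : |v + t * s - v| = t * |s| := by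
        rw [add_sub_cancel_left, abs_mul, abs_of_nonneg ht.1]
      rw [h6] at h5
      calc |deriv Fv (v + t * s) - deriv Fv v| * |s| ≤ (t * |s|) * |s| :=
            mul_le_mul_of_nonneg_right h5 (abs_nonneg s)
        _ = s ^ 2 * t := by rw [mul_assoc, ← pow_two, sq_abs]; ring)
    (Set.right_mem_Icc.2 zero_le_one)
  simpa [Real.norm_eq_abs] using h

theorem aPot : APot := by
  have hpi : 3 < Real.pi := Real.pi_gt_three
  refine ⟨fun v => ?_, fun v => ?_, ?_, ?_, ?_, fun v => ?_, a4_taylor, a4_lip, fun v => ?_,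
    fun v => ?_⟩
  · unfold Fv
    positivity
  · rw [a4_eq, div_le_one (by positivity)]
    have := Real.neg_one_le_cos (2 * Real.pi * v)
    nlinarith
  · simp [Fv, hv]
  · simp [Fv, hv]
  · unfold Fv hv
    fun_prop
  · rw [a4_eq, a4_eq, mul_add, mul_one, Real.cos_add_two_pi]
  · rw [a4_deriv]
    show |Real.sin (2 * Real.pi * v) / (2 * Real.pi)| ≤ 1
    rw [abs_div, div_le_one (by positivity), abs_of_pos (by positivity : 0 < 2 * Real.pi)]
    have := Real.abs_sin_le_one (2 * Real.pi * v)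
    linarith
  · rw [(a4_hasDeriv2 v).deriv]
    exact Real.abs_cos_le_one _

end Pool.Agent.Work.MP_85f2da_an

end
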