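import Pool.Agent.Work.MP_85f2da_an.StmtsB

/-! Bundle of small proof modules (one section per former module). -/

section

set_option autoImplicit false

/-!
# P1: macroscopic polynomial inequality in one variable (helper90)
-/

namespace Pool.Agent.Work.MP_85f2da_an

/-- Bernstein certificate on `[3/8, 1]`. -/
private theorem p1_poly (w : ℝ) (hw : 3 / 8 ≤ w) (hw1 : w ≤ 1) :
    (1 - w ^ 2) ^ 4 * ((1 + 5 / 3 * w ^ 2) ^ 2 +
      400 / 39 * (28 / 9 * w - 19 / 20 * (1 + 5 / 3 * w ^ 2)) ^ 2) ≤ 1 - 3 / 5 * w ^ 2 := by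
  have t0 : 0 ≤ 8 * w - 3 := by linarith
  have v0 : 0 ≤ 8 - 8 * w := by linarith
  have key : (1 - 3 / 5 * w ^ 2) - (1 - w ^ 2) ^ 4 * ((1 + 5 / 3 * w ^ 2) ^ 2 +
      400 / 39 * (28 / 9 * w - 19 / 20 * (1 + 5 / 3 * w ^ 2)) ^ 2) =
      (1 / 16562257920000000000000) * (5724136775043 * (8 * w - 3) ^ 0 * (8 - 8 * w) ^ 12 +
      106746505864176 * (8 * w - 3) ^ 1 * (8 - 8 * w) ^ 11 +
      292766056843648 * (8 * w - 3) ^ 2 * (8 - 8 * w) ^ 10 +
      95607140853760 * (8 * w - 3) ^ 3 * (8 - 8 * w) ^ 9 +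
      1039901783490560 * (8 * w - 3) ^ 4 * (8 - 8 * w) ^ 8 +
      8255706398457856 * (8 * w - 3) ^ 5 * (8 - 8 * w) ^ 7 +
      20737831995441152 * (8 * w - 3) ^ 6 * (8 - 8 * w) ^ 6 +
      26368068158488576 * (8 * w - 3) ^ 7 * (8 - 8 * w) ^ 5 +
      19366880959528960 * (8 * w - 3) ^ 8 * (8 - 8 * w) ^ 4 +
      8609194164879360 * (8 * w - 3) ^ 9 * (8 - 8 * w) ^ 3 +
      2334721874853888 * (8 * w - 3) ^ 10 * (8 - 8 * w) ^ 2 +
      376506496843776 * (8 * w - 3) ^ 11 * (8 - 8 * w) ^ 1 +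
      27135603376128 * (8 * w - 3) ^ 12 * (8 - 8 * w) ^ 0) := by
    ring
  have pos : 0 ≤ (1 / 16562257920000000000000 : ℝ) * (5724136775043 * (8 * w - 3) ^ 0 * (8 - 8 * w) ^ 12 +
      106746505864176 * (8 * w - 3) ^ 1 * (8 - 8 * w) ^ 11 +
      292766056843648 * (8 * w - 3) ^ 2 * (8 - 8 * w) ^ 10 +
      95607140853760 * (8 * w - 3) ^ 3 * (8 - 8 * w) ^ 9 +
      1039901783490560 * (8 * w - 3) ^ 4 * (8 - 8 * w) ^ 8 +
      8255706398457856 * (8 * w - 3) ^ 5 * (8 - 8 * w) ^ 7 +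
      20737831995441152 * (8 * w - 3) ^ 6 * (8 - 8 * w) ^ 6 +
      26368068158488576 * (8 * w - 3) ^ 7 * (8 - 8 * w) ^ 5 +
      19366880959528960 * (8 * w - 3) ^ 8 * (8 - 8 * w) ^ 4 +
      8609194164879360 * (8 * w - 3) ^ 9 * (8 - 8 * w) ^ 3 +
      2334721874853888 * (8 * w - 3) ^ 10 * (8 - 8 * w) ^ 2 +
      376506496843776 * (8 * w - 3) ^ 11 * (8 - 8 * w) ^ 1 +
      27135603376128 * (8 * w - 3) ^ 12 * (8 - 8 * w) ^ 0) := by
    positivity
  linarith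

private theorem p1_sN (w x : ℝ) : sN w 0 x 0 0 0 = (1 - w ^ 2) ^ 2 * (1 + 5 / 3 * w ^ 2) := by
  unfold sN
  ring

private theorem p1_sT (w x : ℝ) : sT w 0 x = 8 / 3 * x * w * (1 - w ^ 2) ^ 2 := by
  unfold sT
  ring

private theorem p1_s0 (w : ℝ) : s0 w 0 0 0 0 = 0 := by
  unfold s0
  ring

theorem pMac : PMac := by
  intro w x hw hw1 hx hx1
  set ρ : ℝ := 8 * w / (3 + 5 * w ^ 2) with hρ
  have hd : 0 < 3 + 5 * w ^ 2 := by positivity
  have hρ0 : 0 ≤ ρ := by positivity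
  set N : ℝ := (1 - w ^ 2) ^ 2 * (1 + 5 / 3 * w ^ 2) with hN
  have hw2 : w ^ 2 ≤ 1 := by
    have := mul_le_mul hw1 hw1 hw zero_le_one
    nlinarith
  have hw20 : 0 ≤ w ^ 2 := sq_nonneg w
  have hN0 : 0 ≤ N := by positivity
  have hNρ : N * ρ = 8 / 3 * w * (1 - w ^ 2) ^ 2 := by
    rw [hN, hρ]
    field_simp
  have hT : sT w 0 x = N * (x * ρ) := by
    rw [p1_sT]
    have : N * (x * ρ) = x * (N * ρ) := by ring
    rw [this, hNρ]
    ring
  unfold sl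
  rw [p1_s0, p1_sN, ← hN, hT]
  rcases le_or_gt (x * ρ) (19 / 20) with h | h
  · rw [min_eq_left h]
    have h1 : N * (x * ρ) - x * ρ * N = 0 := by ring
    rw [h1]
    have hM : N ≤ 1 - w ^ 2 / 3 - 2 / 3 * (w ^ 2 * w ^ 2) := by
      have h3 : N = 1 - w ^ 2 / 3 - 7 / 3 * (w ^ 2 * w ^ 2) + 5 / 3 * (w ^ 2 * w ^ 2) * w ^ 2 := by
        rw [hN]
        ring
      have h4 : (w ^ 2 * w ^ 2) * w ^ 2 ≤ (w ^ 2 * w ^ 2) * 1 :=
        mul_le_mul_of_nonneg_left hw2 (by positivity)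
      rw [h3]
      linarith
    have hN2 : N ^ 2 ≤ 1 - 3 / 5 * w ^ 2 := by
      set u := w ^ 2 with hu
      have h5 : N ^ 2 ≤ (1 - u / 3 - 2 / 3 * (u * u)) ^ 2 := pow_le_pow_left₀ hN0 hM 2
      refine h5.trans ?_
      have h6 : (1 - u / 3 - 2 / 3 * (u * u)) ^ 2 =
          1 - 2 / 3 * u - 4 / 3 * (u * u) + u * u * (1 / 3 + 2 / 3 * u) ^ 2 := by ring
      have h7 : (1 / 3 + 2 / 3 * u) ^ 2 ≤ 1 := by
        have : (1 / 3 + 2 / 3 * u) ^ 2 ≤ 1 ^ 2 := pow_le_pow_left₀ (by positivity) (by linarith) 2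
        linarith
      have h8 : u * u * (1 / 3 + 2 / 3 * u) ^ 2 ≤ u * u * 1 :=
        mul_le_mul_of_nonneg_left h7 (by positivity)
      have h9 : 0 ≤ u * u := by positivity
      rw [h6]
      linarith
    simp only [ne_eq, OfNat.ofNat_ne_zero, not_false_eq_true, zero_pow, zero_div, sub_zero]
    linarith
  · rw [min_eq_right h.le]
    have hρ1 : x * ρ ≤ 7 / 6 * ρ := mul_le_mul_of_nonneg_right hx1 hρ0
    have hw3 : 3 / 8 ≤ w := by
      by_contra hcon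
      push Not at hcon
      have h1 : 57 / 70 < ρ := by linarith
      rw [hρ, lt_div_iff₀ hd] at h1
      nlinarith [mul_pos (sub_pos.2 hcon) (by linarith : (0 : ℝ) < 560 - 285 * (w + 3 / 8))]
    have hp := p1_poly w hw3 hw1
    have h2 : 0 ≤ N * (x * ρ) - 19 / 20 * N := by
      have : N * (19 / 20) ≤ N * (x * ρ) := mul_le_mul_of_nonneg_left h.le hN0
      linarith
    have h3 : N * (x * ρ) - 19 / 20 * N ≤
        (1 - w ^ 2) ^ 2 * (28 / 9 * w - 19 / 20 * (1 + 5 / 3 * w ^ 2)) := by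
      have h4 : N * (x * ρ) ≤ N * (7 / 6 * ρ) := mul_le_mul_of_nonneg_left hρ1 hN0
      have h5 : N * (7 / 6 * ρ) = 7 / 6 * (N * ρ) := by ring
      rw [h5, hNρ] at h4
      rw [hN] at h4 ⊢
      linarith
    have h4 : (N * (x * ρ) - 19 / 20 * N) ^ 2 ≤
        ((1 - w ^ 2) ^ 2 * (28 / 9 * w - 19 / 20 * (1 + 5 / 3 * w ^ 2))) ^ 2 :=
      pow_le_pow_left₀ h2 h3 2
    have h5 : (N * (x * ρ) - 19 / 20 * N) ^ 2 / (2 * (1 - (19 / 20) ^ 2)) ≤
        200 / 39 * ((1 - w ^ 2) ^ 2 * (28 / 9 * w - 19 / 20 * (1 + 5 / 3 * w ^ 2))) ^ 2 := by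
      have h6 : (2 * (1 - (19 / 20) ^ 2) : ℝ) = 39 / 200 := by norm_num
      rw [h6, div_eq_mul_inv, inv_div, mul_comm]
      exact mul_le_mul_of_nonneg_left h4 (by norm_num)
    have h7 : N ^ 2 / 2 + 200 / 39 * ((1 - w ^ 2) ^ 2 *
        (28 / 9 * w - 19 / 20 * (1 + 5 / 3 * w ^ 2))) ^ 2 =
        ((1 - w ^ 2) ^ 4 * ((1 + 5 / 3 * w ^ 2) ^ 2 +
          400 / 39 * (28 / 9 * w - 19 / 20 * (1 + 5 / 3 * w ^ 2)) ^ 2)) / 2 := by
      rw [hN]
      ring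
    linarith

end Pool.Agent.Work.MP_85f2da_an

end

section

set_option autoImplicit false

/-!
# P3: the polynomial inequality near the cone (helper90)
-/

namespace Pool.Agent.Work.MP_85f2da_an

/-- `(sN - (1 - l^2/3 - 2 B l - g)) / w^2` -/
private noncomputable def p3_Z (w σ x B g : ℝ) : ℝ :=
  -(7 / 3 * w ^ 2) + 5 / 3 * w ^ 2 * w ^ 2
    + 8 / 3 * x * (σ * w) * (4 - 5 * w ^ 2)
    - (4 / 3 * x + 1) * σ ^ 2 * (4 - 5 * w ^ 2)
    + (-2 + w ^ 2) * (w * (-2 * B + 8 / 3 * σ * (1 - x) - 2 * σ))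
    + (-2 + w ^ 2) * (-g + 2 * σ ^ 2 + 2 * σ * B - 4 / 3 * σ ^ 2 * (1 - x))

/-- fourth order part of `s0` -/
private noncomputable def p3_Y (w σ B g : ℝ) : ℝ :=
  w ^ 2 * (2 * B * w * (4 - 5 * w ^ 2) + (-2 * σ * B + g) * (-8 + 7 * w ^ 2))
    - 6 * (w * σ) * (1 - w ^ 2) * (-g + σ * B)

/-- third order part of `sT` -/
private noncomputable def p3_X (w σ x : ℝ) : ℝ :=
  8 / 3 * x * w * (w ^ 2 * (-2 + w ^ 2)) - 8 / 3 * x * σ * (w ^ 2 * (-8 + 7 * w ^ 2))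
    - 6 * w * (1 - w ^ 2) * σ ^ 2 * (4 / 3 * x + 1)

theorem p3_sN (w σ x b e c : ℝ) : sN w σ x b e c =
    1 - ((w - σ) ^ 2 / 3 + 2 * (b * e) * (w - σ) + c * e ^ 2)
      + w ^ 2 * p3_Z w σ x (b * e) (c * e ^ 2) := by
  unfold sN p3_Z
  ring

theorem p3_s0 (w σ b e c : ℝ) : s0 w σ b e c =
    2 * (b * e) * (w - σ) + c * e ^ 2 + p3_Y w σ (b * e) (c * e ^ 2) := by
  unfold s0 p3_Y
  ring

theorem p3_sT (w σ x : ℝ) : sT w σ x = 8 / 3 * x * (w - σ) + p3_X w σ x := by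
  unfold sT p3_X
  ring

/-- bound of a product -/
private theorem p3_mul {a b A B : ℝ} (ha : |a| ≤ A) (hb : |b| ≤ B) : |a * b| ≤ A * B := by
  rw [abs_mul]
  exact mul_le_mul ha hb (abs_nonneg _) ((abs_nonneg _).trans ha)

theorem p3_Z_le {w σ x B g r : ℝ} (hw : |w| ≤ r) (hw1 : |w| ≤ 1) (hσ : |σ| ≤ r) (hB : |B| ≤ r)
    (hg0 : 0 ≤ g) (hg : g ≤ 6 * r ^ 2) (hx : 0 ≤ x) (hx1 : x ≤ 7 / 6) :
    |p3_Z w σ x B g| ≤ 100 * r ^ 2 := by
  have hr : 0 ≤ r := (abs_nonneg _).trans hw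
  have hr2 : 0 ≤ r ^ 2 := sq_nonneg r
  have w2 : 0 ≤ w ^ 2 := sq_nonneg w
  have w2r : w ^ 2 ≤ r ^ 2 := sq_le_sq' (by linarith [neg_abs_le w]) ((le_abs_self w).trans hw)
  have w21 : w ^ 2 ≤ 1 := by
    have := sq_le_sq' (by linarith [neg_abs_le w] : -1 ≤ w) ((le_abs_self w).trans hw1)
    linarith
  have s2r : σ ^ 2 ≤ r ^ 2 := sq_le_sq' (by linarith [neg_abs_le σ]) ((le_abs_self σ).trans hσ)
  have s2 : 0 ≤ σ ^ 2 := sq_nonneg σ
  have t1 : |7 / 3 * w ^ 2| ≤ 7 / 3 * r ^ 2 := by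
    rw [abs_of_nonneg (by positivity)]
    linarith
  have t2 : |5 / 3 * w ^ 2 * w ^ 2| ≤ 5 / 3 * r ^ 2 * 1 :=
    p3_mul (by rw [abs_of_nonneg (by positivity)]; linarith) (by rw [abs_of_nonneg w2]; exact w21)
  have q1 : |4 - 5 * w ^ 2| ≤ 4 := by
    rw [abs_le]; constructor <;> linarith
  have q2 : |-2 + w ^ 2| ≤ 2 := by
    rw [abs_le]; constructor <;> linarith
  have q3 : |1 - x| ≤ 1 := by
    rw [abs_le]; constructor <;> linarith
  have q4 : |σ * w| ≤ r * r := p3_mul hσ hw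
  have q5 : |8 / 3 * x| ≤ 28 / 9 := by
    rw [abs_of_nonneg (by positivity)]; linarith
  have t3 : |8 / 3 * x * (σ * w) * (4 - 5 * w ^ 2)| ≤ 28 / 9 * (r * r) * 4 :=
    p3_mul (p3_mul q5 q4) q1
  have q6 : |σ ^ 2| ≤ r ^ 2 := by rw [abs_of_nonneg s2]; exact s2r
  have q7 : |4 / 3 * x + 1| ≤ 23 / 9 := by
    rw [abs_of_nonneg (by positivity)]; linarith
  have t4 : |(4 / 3 * x + 1) * σ ^ 2 * (4 - 5 * w ^ 2)| ≤ 23 / 9 * r ^ 2 * 4 :=
    p3_mul (p3_mul q7 q6) q1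
  have q8 : |8 / 3 * σ * (1 - x)| ≤ 8 / 3 * r * 1 :=
    p3_mul (p3_mul (by norm_num) hσ) q3
  have q9 : |-2 * B + 8 / 3 * σ * (1 - x) - 2 * σ| ≤ 20 / 3 * r := by
    rw [abs_le] at q8 hB hσ ⊢
    constructor <;> linarith [q8.1, q8.2, hB.1, hB.2, hσ.1, hσ.2]
  have t5 : |(-2 + w ^ 2) * (w * (-2 * B + 8 / 3 * σ * (1 - x) - 2 * σ))| ≤
      2 * (r * (20 / 3 * r)) := p3_mul q2 (p3_mul hw q9)
  have q10 : |2 * σ * B| ≤ 2 * r * r := p3_mul (p3_mul (by norm_num) hσ) hB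
  have q11 : |4 / 3 * σ ^ 2 * (1 - x)| ≤ 4 / 3 * r ^ 2 * 1 :=
    p3_mul (p3_mul (by norm_num) q6) q3
  have q12 : |-g + 2 * σ ^ 2 + 2 * σ * B - 4 / 3 * σ ^ 2 * (1 - x)| ≤ 12 * r ^ 2 := by
    rw [abs_le] at q10 q11 ⊢
    constructor <;> linarith [q10.1, q10.2, q11.1, q11.2]
  have t6 : |(-2 + w ^ 2) * (-g + 2 * σ ^ 2 + 2 * σ * B - 4 / 3 * σ ^ 2 * (1 - x))| ≤
      2 * (12 * r ^ 2) := p3_mul q2 q12
  unfold p3_Z
  rw [abs_le] at t1 t2 t3 t4 t5 t6 ⊢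
  constructor <;> linarith [t1.1, t2.1, t3.1, t4.1, t5.1, t6.1, t1.2, t2.2, t3.2, t4.2, t5.2, t6.2]

theorem p3_E1_le {w σ x B g r : ℝ} (hw : |w| ≤ r) (hw1 : |w| ≤ 1) (hσ : |σ| ≤ r) (hB : |B| ≤ r)
    (hg0 : 0 ≤ g) (hg : g ≤ 6 * r ^ 2) (hx : 0 ≤ x) (hx1 : x ≤ 7 / 6) :
    |w ^ 2 * p3_Z w σ x B g| ≤ 100 * r ^ 4 := by
  have h1 := p3_Z_le hw hw1 hσ hB hg0 hg hx hx1
  have h2 : |w ^ 2| ≤ r ^ 2 := by
    rw [abs_of_nonneg (sq_nonneg w)]
    exact sq_le_sq' (by linarith [neg_abs_le w]) ((le_abs_self w).trans hw)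
  have h3 := p3_mul h2 h1
  calc _ ≤ _ := h3
    _ = _ := by ring

theorem p3_Y_le {w σ B g r : ℝ} (hw : |w| ≤ r) (hw1 : |w| ≤ 1) (hσ : |σ| ≤ r) (hB : |B| ≤ r)
    (hg0 : 0 ≤ g) (hg : g ≤ 6 * r ^ 2) : |p3_Y w σ B g| ≤ 200 * r ^ 4 := by
  have hr : 0 ≤ r := (abs_nonneg _).trans hw
  have w2 : 0 ≤ w ^ 2 := sq_nonneg w
  have w2r : w ^ 2 ≤ r ^ 2 := sq_le_sq' (by linarith [neg_abs_le w]) ((le_abs_self w).trans hw)
  have w21 : w ^ 2 ≤ 1 := by
    have := sq_le_sq' (by linarith [neg_abs_le w] : -1 ≤ w) ((le_abs_self w).trans hw1)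
    linarith
  have q0 : |w ^ 2| ≤ r ^ 2 := by rw [abs_of_nonneg w2]; exact w2r
  have q1 : |4 - 5 * w ^ 2| ≤ 4 := by
    rw [abs_le]; constructor <;> linarith
  have q2 : |-8 + 7 * w ^ 2| ≤ 8 := by
    rw [abs_le]; constructor <;> linarith
  have q3 : |1 - w ^ 2| ≤ 1 := by
    rw [abs_le]; constructor <;> linarith
  have q4 : |2 * B * w * (4 - 5 * w ^ 2)| ≤ 2 * r * r * 4 :=
    p3_mul (p3_mul (p3_mul (by norm_num) hB) hw) q1
  have q5 : |σ * B| ≤ r * r := p3_mul hσ hB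
  have q6 : |-2 * σ * B + g| ≤ 8 * r ^ 2 := by
    rw [abs_le] at q5 ⊢
    constructor <;> linarith [q5.1, q5.2]
  have q7 : |(-2 * σ * B + g) * (-8 + 7 * w ^ 2)| ≤ 8 * r ^ 2 * 8 := p3_mul q6 q2
  have q8 : |2 * B * w * (4 - 5 * w ^ 2) + (-2 * σ * B + g) * (-8 + 7 * w ^ 2)| ≤ 72 * r ^ 2 := by
    rw [abs_le] at q4 q7 ⊢
    constructor <;> linarith [q4.1, q4.2, q7.1, q7.2]
  have t1 := p3_mul q0 q8
  have q9 : |-g + σ * B| ≤ 7 * r ^ 2 := by
    rw [abs_le] at q5 ⊢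
    constructor <;> linarith [q5.1, q5.2]
  have t2 : |6 * (w * σ) * (1 - w ^ 2) * (-g + σ * B)| ≤ 6 * (r * r) * 1 * (7 * r ^ 2) :=
    p3_mul (p3_mul (p3_mul (by norm_num) (p3_mul hw hσ)) q3) q9
  have hr4 : 0 ≤ r ^ 4 := by positivity
  unfold p3_Y
  rw [abs_le] at t1 t2 ⊢
  constructor <;> linarith [t1.1, t1.2, t2.1, t2.2]

theorem p3_X_le {w σ x r : ℝ} (hw : |w| ≤ r) (hw1 : |w| ≤ 1) (hσ : |σ| ≤ r)
    (hx : 0 ≤ x) (hx1 : x ≤ 7 / 6) : |p3_X w σ x| ≤ 60 * r ^ 3 := by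
  have hr : 0 ≤ r := (abs_nonneg _).trans hw
  have w2 : 0 ≤ w ^ 2 := sq_nonneg w
  have w2r : w ^ 2 ≤ r ^ 2 := sq_le_sq' (by linarith [neg_abs_le w]) ((le_abs_self w).trans hw)
  have w21 : w ^ 2 ≤ 1 := by
    have := sq_le_sq' (by linarith [neg_abs_le w] : -1 ≤ w) ((le_abs_self w).trans hw1)
    linarith
  have s2 : 0 ≤ σ ^ 2 := sq_nonneg σ
  have s2r : |σ ^ 2| ≤ r ^ 2 := by
    rw [abs_of_nonneg s2]
    exact sq_le_sq' (by linarith [neg_abs_le σ]) ((le_abs_self σ).trans hσ)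
  have q0 : |w ^ 2| ≤ r ^ 2 := by rw [abs_of_nonneg w2]; exact w2r
  have q1 : |-2 + w ^ 2| ≤ 2 := by
    rw [abs_le]; constructor <;> linarith
  have q2 : |-8 + 7 * w ^ 2| ≤ 8 := by
    rw [abs_le]; constructor <;> linarith
  have q3 : |1 - w ^ 2| ≤ 1 := by
    rw [abs_le]; constructor <;> linarith
  have q5 : |8 / 3 * x| ≤ 28 / 9 := by
    rw [abs_of_nonneg (by positivity)]; linarith
  have q7 : |4 / 3 * x + 1| ≤ 23 / 9 := by
    rw [abs_of_nonneg (by positivity)]; linarith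
  have t1 : |8 / 3 * x * w * (w ^ 2 * (-2 + w ^ 2))| ≤ 28 / 9 * r * (r ^ 2 * 2) :=
    p3_mul (p3_mul q5 hw) (p3_mul q0 q1)
  have t2 : |8 / 3 * x * σ * (w ^ 2 * (-8 + 7 * w ^ 2))| ≤ 28 / 9 * r * (r ^ 2 * 8) :=
    p3_mul (p3_mul q5 hσ) (p3_mul q0 q2)
  have t3 : |6 * w * (1 - w ^ 2) * σ ^ 2 * (4 / 3 * x + 1)| ≤ 6 * r * 1 * r ^ 2 * (23 / 9) :=
    p3_mul (p3_mul (p3_mul (p3_mul (by norm_num) hw) q3) s2r) q7
  have hr3 : 0 ≤ r ^ 3 := by positivity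
  unfold p3_X
  rw [abs_le] at t1 t2 t3 ⊢
  constructor <;> linarith [t1.1, t1.2, t2.1, t2.2, t3.1, t3.2]

/-- the bound of `c e^2` -/
theorem p3_g_le {e c σ r : ℝ} (he : 0 < e) (her : e ≤ r) (hσ : |σ| ≤ r)
    (hce : c * e ≤ 2 * e + 4 * |σ|) : c * e ^ 2 ≤ 6 * r ^ 2 := by
  have h1 : c * e ^ 2 = (c * e) * e := by ring
  have h2 : (c * e) * e ≤ (6 * r) * e := by
    refine mul_le_mul_of_nonneg_right ?_ he.le
    linarith
  have h3 : (6 * r) * e ≤ (6 * r) * r := mul_le_mul_of_nonneg_left her (by linarith)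
  rw [h1]
  linarith

theorem pNear : PNear := by
  refine ⟨1 / 10000, 2 * 10 ^ 6, by norm_num, by norm_num, ?_⟩
  intro w σ x b e c hw hσ he heη hx hx1 hb hc hce
  set l := w - σ with hl
  set B := b * e with hB
  set g := c * e ^ 2 with hg
  set r := |l| + |σ| + e with hr
  have hl2 : |l| ≤ 2 / 10000 := by
    rw [hl]
    refine (abs_sub _ _).trans ?_
    linarith
  have hr0 : 0 ≤ r := by positivity
  have hr1 : r ≤ 4 / 10000 := by linarith
  have hlr : |l| ≤ r := by linarith [abs_nonneg σ]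
  have hσr : |σ| ≤ r := by linarith [abs_nonneg l]
  have her : e ≤ r := by linarith [abs_nonneg l, abs_nonneg σ]
  have hwr : |w| ≤ r := by
    have : w = l + σ := by rw [hl]; ring
    rw [this]
    exact (abs_add_le _ _).trans (by linarith)
  have hw1 : |w| ≤ 1 := by linarith
  have hBr : |B| ≤ r := by
    rw [hB, abs_mul, abs_of_pos he]
    exact (mul_le_mul_of_nonneg_right hb he.le).trans (by linarith)
  have hg0 : 0 ≤ g := by positivity
  have hgr : g ≤ 6 * r ^ 2 := p3_g_le he her hσr hce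
  set y := 8 / 3 * x * l with hy
  have hyr : |y| ≤ 28 / 9 * r := by
    rw [hy]
    exact p3_mul (by rw [abs_of_nonneg (by positivity)]; linarith) hlr
  refine ⟨y, by linarith, ?_, ?_⟩
  · rw [hy, abs_mul, abs_of_nonneg (by positivity)]
    have : 0 ≤ x * |l| := by positivity
    linarith
  set A := l ^ 2 / 3 + 2 * B * l + g with hA
  have hAr : |A| ≤ 9 * r ^ 2 := by
    have h1 : |l ^ 2| ≤ r ^ 2 := by
      rw [abs_of_nonneg (sq_nonneg l)]
      exact sq_le_sq' (by linarith [neg_abs_le l]) ((le_abs_self l).trans hlr)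
    have h2 : |2 * B * l| ≤ 2 * r * r := p3_mul (p3_mul (by norm_num) hBr) hlr
    rw [hA]
    rw [abs_le] at h1 h2 ⊢
    constructor <;> linarith [h1.1, h1.2, h2.1, h2.2]
  have e1 := p3_E1_le hwr hw1 hσr hBr hg0 hgr hx hx1
  have e0 := p3_Y_le hwr hw1 hσr hBr hg0 hgr
  have e2 := p3_X_le hwr hw1 hσr hx hx1
  set E1 := w ^ 2 * p3_Z w σ x B g with hE1
  set E0 := p3_Y w σ B g with hE0
  set E2 := p3_X w σ x with hE2
  have hsN : sN w σ x b e c = 1 - A + E1 := p3_sN w σ x b e c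
  have hs0 : s0 w σ b e c = 2 * B * l + g + E0 := p3_s0 w σ b e c
  have hsT : sT w σ x = y + E2 := p3_sT w σ x
  have hAE : |A - E1| ≤ 10 * r ^ 2 := by
    have h1 : 100 * r ^ 4 ≤ r ^ 2 := by
      have h3 : r ^ 2 ≤ 1 / 100 := (pow_le_pow_left₀ hr0 hr1 2).trans (by norm_num)
      have h4 : r ^ 4 = r ^ 2 * r ^ 2 := by ring
      have h5 := mul_le_mul_of_nonneg_left h3 (sq_nonneg r)
      rw [h4]
      linarith
    refine (abs_sub _ _).trans ?_
    linarith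
  have hq : |sT w σ x - y * sN w σ x b e c| ≤ 100 * r ^ 3 := by
    have h1 : sT w σ x - y * sN w σ x b e c = E2 + y * (A - E1) := by
      rw [hsN, hsT]
      ring
    rw [h1]
    have h2 := p3_mul hyr hAE
    refine (abs_add_le _ _).trans ?_
    have hr3 : 0 ≤ r ^ 3 := by positivity
    linarith
  have hq2 : (sT w σ x - y * sN w σ x b e c) ^ 2 ≤ r ^ 4 := by
    have h1 := sq_le_sq' (by linarith [neg_abs_le (sT w σ x - y * sN w σ x b e c)])
      ((le_abs_self _).trans hq)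
    have h2 : (100 * r ^ 3) ^ 2 = 10000 * r ^ 2 * r ^ 4 := by ring
    rw [h2] at h1
    refine h1.trans ?_
    have h3 : 10000 * r ^ 2 ≤ 1 := by
      have := pow_le_pow_left₀ hr0 hr1 2
      have h6 : (4 / 10000 : ℝ) ^ 2 ≤ 1 / 10000 := by norm_num
      linarith
    have hr4 : 0 ≤ r ^ 4 := by positivity
    have h7 := mul_le_mul_of_nonneg_right h3 hr4
    linarith
  have hy2 : 1 ≤ 2 * (1 - y ^ 2) := by
    have h1 : |y| ≤ 1 / 2 := by linarith
    have h2 := sq_le_sq' (by linarith [neg_abs_le y]) ((le_abs_self y).trans h1)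
    have h3 : (1 / 2 : ℝ) ^ 2 = 1 / 4 := by norm_num
    linarith
  have hfrac : (sT w σ x - y * sN w σ x b e c) ^ 2 / (2 * (1 - y ^ 2)) ≤ r ^ 4 :=
    (div_le_self (sq_nonneg _) hy2).trans hq2
  have hmain : l ^ 2 / 3 - 1000 * r ^ 4 ≤ sl w σ x b e c y := by
    unfold sl
    have h1 : (A - E1) ^ 2 ≤ 100 * r ^ 4 := by
      have := sq_le_sq' (by linarith [neg_abs_le (A - E1)]) ((le_abs_self _).trans hAE)
      refine this.trans (le_of_eq ?_)
      ring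
    have h2 : 1 / 2 - sN w σ x b e c ^ 2 / 2 - s0 w σ b e c =
        l ^ 2 / 3 - E1 - E0 - (A - E1) ^ 2 / 2 := by
      rw [hsN, hs0, hA]
      ring
    have h3 := (abs_le.1 e1).2
    have h4 := (abs_le.1 e0).2
    have hr4 : 0 ≤ r ^ 4 := by positivity
    linarith
  refine le_trans ?_ hmain
  -- `r^4 <= 27 (l^4 + σ^4 + e^4)`
  have hr4 : r ^ 4 ≤ 9 * (l ^ 2 + (e ^ 2 + σ ^ 2)) ^ 2 := by
    have h1 : r ^ 2 ≤ 3 * (l ^ 2 + (e ^ 2 + σ ^ 2)) := by
      rw [hr]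
      have e1 : |l| ^ 2 = l ^ 2 := sq_abs l
      have e2 : |σ| ^ 2 = σ ^ 2 := sq_abs σ
      have a1 := sq_nonneg (|l| - |σ|)
      have a2 := sq_nonneg (|l| - e)
      have a3 := sq_nonneg (|σ| - e)
      have a4 : (|l| + |σ| + e) ^ 2 = 3 * (|l| ^ 2 + (e ^ 2 + |σ| ^ 2)) - (|l| - |σ|) ^ 2 -
        (|l| - e) ^ 2 - (|σ| - e) ^ 2 := by ring
      rw [a4, e1, e2]
      linarith
    have h2 : r ^ 4 = (r ^ 2) ^ 2 := by ring
    rw [h2]
    have h3 := pow_le_pow_left₀ (sq_nonneg r) h1 2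
    refine h3.trans (le_of_eq ?_)
    ring
  have hl4 : l ^ 2 ≤ 1 / 10 ^ 7 := by
    have := sq_le_sq' (by linarith [neg_abs_le l]) ((le_abs_self l).trans hl2)
    refine this.trans ?_
    norm_num
  have h5 : (l ^ 2 + (e ^ 2 + σ ^ 2)) ^ 2 ≤ 2 * (l ^ 2 * l ^ 2) + 2 * (e ^ 2 + σ ^ 2) ^ 2 := by
    have a1 := sq_nonneg (l ^ 2 - (e ^ 2 + σ ^ 2))
    have a2 : (l ^ 2 + (e ^ 2 + σ ^ 2)) ^ 2 = 2 * (l ^ 2 * l ^ 2) + 2 * (e ^ 2 + σ ^ 2) ^ 2 -
      (l ^ 2 - (e ^ 2 + σ ^ 2)) ^ 2 := by ring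
    rw [a2]
    linarith
  have h6 : l ^ 2 * l ^ 2 ≤ 1 / 10 ^ 7 * l ^ 2 := mul_le_mul_of_nonneg_right hl4 (sq_nonneg l)
  have h7 : 0 ≤ (e ^ 2 + σ ^ 2) ^ 2 := sq_nonneg _
  have h8 : 0 ≤ l ^ 2 := sq_nonneg l
  linarith

end Pool.Agent.Work.MP_85f2da_an

end

section

set_option autoImplicit false

/-!
# MP_85f2da_an, item Q3: crude bound
-/

open MeasureTheory Filter Set Metric
open scoped ENNReal Topology ContDiff

namespace Pool.Agent.Work.MP_85f2da_an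

theorem q3_mul {x y A B : ℝ} (hx : |x| ≤ A) (hy : |y| ≤ B) : |x * y| ≤ A * B := by
  rw [abs_mul]
  exact mul_le_mul hx hy (abs_nonneg _) (le_trans (abs_nonneg _) hx)

theorem q3_add {x y A B : ℝ} (hx : |x| ≤ A) (hy : |y| ≤ B) : |x + y| ≤ A + B :=
  le_trans (abs_add_le _ _) (add_le_add hx hy)

theorem q3_sub {x y A B : ℝ} (hx : |x| ≤ A) (hy : |y| ≤ B) : |x - y| ≤ A + B := by
  rw [sub_eq_add_neg]
  exact q3_add hx (by rwa [abs_neg])

theorem q3_neg {x A : ℝ} (hx : |x| ≤ A) : |-x| ≤ A := by rwa [abs_neg]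

theorem q3_pow {x A : ℝ} (n : ℕ) (hx : |x| ≤ A) : |x ^ n| ≤ A ^ n := by
  rw [abs_pow]
  exact pow_le_pow_left₀ (abs_nonneg _) hx n

theorem q3_inv (x R : ℝ) (n : ℕ) : x / R ^ n = x * (1 / R) ^ n := by
  rw [div_pow, one_pow, mul_one_div]

theorem q3_cst (c : ℝ) (hc : 0 ≤ c) : |c| ≤ c := le_of_eq (abs_of_nonneg hc)

section bounds

variable {R a : ℝ}

theorem q3_w (hR : 2 ≤ R) (ha : |a| ≤ R) : |a / R| ≤ 1 := by
  have hR0 : 0 < R := by linarith
  rw [abs_div, abs_of_pos hR0, div_le_one hR0]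
  exact ha

theorem q3_e (hR : 2 ≤ R) : |1 / R| ≤ 1 := by
  have hR0 : 0 < R := by linarith
  rw [abs_of_pos (by positivity), div_le_one hR0]
  linarith

theorem q3_q (hR : 2 ≤ R) (ha : |a| ≤ R) : |1 - (a / R) ^ 2| ≤ 1 := by
  have h := q3_w hR ha
  have h2 : (a / R) ^ 2 ≤ 1 := by
    rw [← sq_abs]
    exact pow_le_one₀ (abs_nonneg _) h
  rw [abs_le]
  constructor <;> nlinarith [sq_nonneg (a / R)]

theorem q3_fN (hR : 2 ≤ R) (ha : |a| ≤ R) (i : Fin 6) : |fN i R a| ≤ 100 := by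
  have hR0 : R ≠ 0 := by
    have : 0 < R := by linarith
    exact this.ne'
  have hw := q3_w hR ha
  have hq := q3_q hR ha
  have he := q3_e hR
  have e1 : a / R ^ 2 = (a / R) * (1 / R) := by field_simp
  have e2 : (6 * (1 - (a / R) ^ 2) - 5 * (1 - (a / R) ^ 2) ^ 2) / R ^ 2
      = (6 * (1 - (a / R) ^ 2) - 5 * (1 - (a / R) ^ 2) ^ 2) * (1 / R) ^ 2 := q3_inv _ _ _
  have e3 : (1 - (a / R) ^ 2) ^ 2 / R ^ 2 = (1 - (a / R) ^ 2) ^ 2 * (1 / R) ^ 2 :=
    q3_inv _ _ _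
  unfold fN
  rw [e1, e2, e3]
  generalize 1 - (a / R) ^ 2 = q at hq ⊢
  generalize a / R = w at hw ⊢
  generalize 1 / R = e at he ⊢
  have h6 : |6 * q - 5 * q ^ 2| ≤ 6 * 1 + 5 * 1 ^ 2 :=
    q3_sub (q3_mul (q3_cst 6 (by norm_num)) hq) (q3_mul (q3_cst 5 (by norm_num)) (q3_pow 2 hq))
  fin_cases i
  · have h : |(8 * q ^ 2 - 5 * q ^ 3) / 3| ≤ (8 * 1 ^ 2 + 5 * 1 ^ 3) / 3 := by
      rw [abs_div, abs_of_pos (by norm_num : (0 : ℝ) < 3)]
      refine div_le_div_of_nonneg_right ?_ (by norm_num)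
      exact q3_sub (q3_mul (q3_cst 8 (by norm_num)) (q3_pow 2 hq))
        (q3_mul (q3_cst 5 (by norm_num)) (q3_pow 3 hq))
    exact le_trans h (by norm_num)
  · simp
  · exact le_trans (q3_mul (q3_mul hw he) h6) (by norm_num)
  · exact le_trans (q3_mul h6 (q3_pow 2 he)) (by norm_num)
  · exact le_trans (q3_mul (q3_mul hw he) (q3_pow 2 hq)) (by norm_num)
  · exact le_trans (q3_mul (q3_pow 2 hq) (q3_pow 2 he)) (by norm_num)

theorem q3_fT (hR : 2 ≤ R) (ha : |a| ≤ R) (i : Fin 6) : |fT i R a| ≤ 100 := by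
  have hR0 : R ≠ 0 := by
    have : 0 < R := by linarith
    exact this.ne'
  have hw := q3_w hR ha
  have hq := q3_q hR ha
  have he := q3_e hR
  have e1 : -((1 - (a / R) ^ 2) ^ 2 - 6 * (a / R) ^ 2 * (1 - (a / R) ^ 2)) / R
      = -((1 - (a / R) ^ 2) ^ 2 - 6 * (a / R) ^ 2 * (1 - (a / R) ^ 2)) * (1 / R) := by
    rw [mul_one_div]
  have e2 : 6 * a / R ^ 3 * (1 - (a / R) ^ 2)
      = 6 * (a / R) * (1 / R) ^ 2 * (1 - (a / R) ^ 2) := by
    field_simp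
  unfold fT
  rw [e1, e2]
  generalize 1 - (a / R) ^ 2 = q at hq ⊢
  generalize a / R = w at hw ⊢
  generalize 1 / R = e at he ⊢
  fin_cases i
  · simp
  · refine le_trans (q3_mul (q3_mul (q3_cst (8 / 3) (by norm_num)) hw) (q3_pow 2 hq))
      (by norm_num)
  · refine le_trans (q3_mul (q3_neg (q3_sub (q3_pow 2 hq) (q3_mul (q3_mul (q3_cst 6 (by norm_num))
      (q3_pow 2 hw)) hq))) he) (by norm_num)
  · exact le_trans (q3_mul (q3_mul (q3_mul (q3_cst 6 (by norm_num)) hw) (q3_pow 2 he)) hq)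
      (by norm_num)
  · simp
  · simp

theorem q3_fD0 (hR : 2 ≤ R) (ha : |a| ≤ R) : |fD 0 R a| ≤ 100 := by
  have hR0 : R ≠ 0 := by
    have : 0 < R := by linarith
    exact this.ne'
  have hw := q3_w hR ha
  have hq := q3_q hR ha
  have he := q3_e hR
  have e1 : a / R ^ 2 = (a / R) * (1 / R) := by field_simp
  have e : fD 0 R a = 8 / 3 * ((a / R) * (1 / R)) * (1 - (a / R) ^ 2)
      * (5 * (1 - (a / R) ^ 2) - 6) := by
    rw [← e1]; rfl
  rw [e]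
  generalize 1 - (a / R) ^ 2 = q at hq ⊢
  generalize a / R = w at hw ⊢
  generalize 1 / R = e at he ⊢
  exact le_trans (q3_mul (q3_mul (q3_mul (q3_cst (8 / 3) (by norm_num)) (q3_mul hw he)) hq)
    (q3_sub (q3_mul (q3_cst 5 (by norm_num)) hq) (q3_cst 6 (by norm_num)))) (by norm_num)

theorem q3_fD4 (hR : 2 ≤ R) (ha : |a| ≤ R) : |fD 4 R a| ≤ 100 := by
  have hw := q3_w hR ha
  have hq := q3_q hR ha
  have he := q3_e hR
  have e : fD 4 R a = ((1 - (a / R) ^ 2) ^ 2 - 6 * (a / R) ^ 2 * (1 - (a / R) ^ 2))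
      * (1 / R) ^ 2 := by
    rw [← q3_inv]
    simp [fD]
  rw [e]
  generalize 1 - (a / R) ^ 2 = q at hq ⊢
  generalize a / R = w at hw ⊢
  generalize 1 / R = e at he ⊢
  exact le_trans (q3_mul (q3_sub (q3_pow 2 hq) (q3_mul (q3_mul (q3_cst 6 (by norm_num))
      (q3_pow 2 hw)) hq)) (q3_pow 2 he)) (by norm_num)

theorem q3_fD5 (hR : 2 ≤ R) (ha : |a| ≤ R) : |fD 5 R a| ≤ 100 := by
  have hR0 : R ≠ 0 := by
    have : 0 < R := by linarith
    exact this.ne'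
  have hw := q3_w hR ha
  have hq := q3_q hR ha
  have he := q3_e hR
  have e : fD 5 R a = -(6 * (a / R) * (1 / R) ^ 3 * (1 - (a / R) ^ 2)) := by
    have e1 : fD 5 R a = -(6 * a / R ^ 4 * (1 - (a / R) ^ 2)) := by
      simp [fD]
    rw [e1]
    field_simp
  rw [e]
  generalize 1 - (a / R) ^ 2 = q at hq ⊢
  generalize a / R = w at hw ⊢
  generalize 1 / R = e at he ⊢
  exact le_trans (q3_neg (q3_mul (q3_mul (q3_mul (q3_cst 6 (by norm_num)) hw) (q3_pow 3 he)) hq))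
    (by norm_num)

end bounds

theorem qCrude (hA : ADual) (hB : BBd) (hH : BHh) : QCrude := by
  obtain ⟨C0, hC0, hk, hK⟩ := hB
  refine ⟨2 * (600 * C0 + 1) ^ 2 + 300 * C0, by positivity, ?_⟩
  intro δ R a t ζ α β hδ hδ1 hR ha hζ hζ1 hα hβ
  have hh0 : 0 < hh t := (hH t).1
  set T : ℝ := 1 + |t| with hT
  have hT1 : 1 ≤ T := by rw [hT]; linarith [abs_nonneg t]
  have hT0 : 0 < T := by linarith
  have hT3 : 1 ≤ T ^ 3 := one_le_pow₀ hT1
  -- bounds of the sums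
  have hsum : ∀ f : Fin 6 → ℝ, (∀ i, |f i| ≤ 100) →
      |∑ i, kt i t * f i| ≤ 600 * C0 * (hh t * T ^ 3) := by
    intro f hf
    calc |∑ i, kt i t * f i| ≤ ∑ i, |kt i t * f i| := Finset.abs_sum_le_sum_abs _ _
      _ ≤ ∑ _i : Fin 6, C0 * hh t * T ^ 3 * 100 :=
          Finset.sum_le_sum fun i _ => q3_mul (hk i t) (hf i)
      _ = 600 * C0 * (hh t * T ^ 3) := by
          simp only [Finset.sum_const, Finset.card_univ, Fintype.card_fin, nsmul_eq_mul]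
          push_cast
          ring
  have hSN : |SN R a t| ≤ 600 * C0 * (hh t * T ^ 3) := hsum _ (q3_fN hR ha)
  have hST : |ST R a t| ≤ 600 * C0 * (hh t * T ^ 3) := hsum _ (q3_fT hR ha)
  have hS0 : S0 R a t ≤ 300 * C0 * (hh t ^ 2 * T ^ 6) := by
    obtain ⟨k1, k2, k3⟩ := hK t
    have b1 := q3_mul k1 (q3_fD0 hR ha)
    have b2 := q3_mul k2 (q3_fD4 hR ha)
    have b3 := q3_mul k3 (q3_fD5 hR ha)
    have hb : S0 R a t ≤ C0 * hh t ^ 2 * 100 + C0 * hh t ^ 2 * T * 100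
        + C0 * hh t ^ 2 * T ^ 2 * 100 := by
      unfold S0
      exact le_trans (le_abs_self _) (q3_add (q3_add b1 b2) b3)
    refine le_trans hb ?_
    have p1 : 1 ≤ T ^ 6 := one_le_pow₀ hT1
    have p2 : T ≤ T ^ 6 := le_self_pow₀ hT1 (by norm_num)
    have p3 : T ^ 2 ≤ T ^ 6 := pow_le_pow_right₀ hT1 (by norm_num)
    have hc : 0 ≤ C0 * hh t ^ 2 * 100 := by positivity
    nlinarith [mul_le_mul_of_nonneg_left p1 hc, mul_le_mul_of_nonneg_left p2 hc,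
      mul_le_mul_of_nonneg_left p3 hc]
  have hg : 0 < hh t * T ^ 3 := by positivity
  have hζh : ζ * hh t ≤ hh t * T ^ 3 := by nlinarith
  have hζ0 : 0 ≤ ζ * hh t := by positivity
  have hP : |SN R a t + ST R a t| / 2 + ζ * hh t ≤ (600 * C0 + 1) * (hh t * T ^ 3) := by
    have := abs_add_le (SN R a t) (ST R a t)
    linarith
  have hQ : |SN R a t - ST R a t| / 2 + ζ * hh t ≤ (600 * C0 + 1) * (hh t * T ^ 3) := by
    have := abs_sub (SN R a t) (ST R a t)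
    linarith
  have hP0 : 0 ≤ |SN R a t + ST R a t| / 2 + ζ * hh t := by positivity
  have hQ0 : 0 ≤ |SN R a t - ST R a t| / 2 + ζ * hh t := by positivity
  have hd := hA δ 0 (|SN R a t + ST R a t| / 2 + ζ * hh t)
    (|SN R a t - ST R a t| / 2 + ζ * hh t) α β hδ hδ1 (by norm_num) hα hβ
  rw [abs_of_nonneg hP0, abs_of_nonneg hQ0] at hd
  have hd' : (|SN R a t + ST R a t| / 2 + ζ * hh t) * α
      + (|SN R a t - ST R a t| / 2 + ζ * hh t) * β ≤ lamr δ α β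
      + ((|SN R a t + ST R a t| / 2 + ζ * hh t) ^ 2
        + (|SN R a t - ST R a t| / 2 + ζ * hh t) ^ 2) := by
    refine le_trans hd (le_of_eq ?_)
    simp
  have hP2 := pow_le_pow_left₀ hP0 hP 2
  have hQ2 := pow_le_pow_left₀ hQ0 hQ 2
  have he : ((600 * C0 + 1) * (hh t * T ^ 3)) ^ 2 = (600 * C0 + 1) ^ 2 * (hh t ^ 2 * T ^ 6) := by
    ring
  rw [he] at hP2 hQ2
  have hh2 : 0 ≤ hh t ^ 2 / 2 := by positivity
  nlinarith

end Pool.Agent.Work.MP_85f2da_an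

end

section

set_option autoImplicit false

/-!
# MP_85f2da_an: Q5, the pointwise inequalities with integrable error
-/

open MeasureTheory Filter Set Metric
open scoped ENNReal Topology ContDiff

namespace Pool.Agent.Work.MP_85f2da_an

/-- Q5 -/
theorem qFinP : QCrude → QScal → QRed → PDiag → BCoef → BHh → QFinP := by
  intro hCr hSc hRed hDi hCo hB δ hδ hδ' hM
  obtain ⟨η, C, hη, hη8, hC, main⟩ := hM
  obtain ⟨C1, hC1, crude⟩ := hCr
  obtain ⟨C2, hC2, diag⟩ := hDi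
  obtain ⟨D1, hD1, s1⟩ := hSc C η hC hη
  obtain ⟨D2, hD2, s2⟩ := hSc C1 η hC1 hη
  obtain ⟨D3, hD3, s3⟩ := hSc C (1 / 640) hC (by norm_num)
  obtain ⟨D5, hD5, s5⟩ := hSc C2 η hC2 hη
  obtain ⟨c3, hc3⟩ : ∃ c : ℝ, c = min 1 (1 / (1280 * C)) := ⟨_, rfl⟩
  have c3p : 0 < c3 := by rw [hc3]; positivity
  have c31 : c3 ≤ 1 := by rw [hc3]; exact min_le_left _ _
  have c3C : C * c3 ≤ 1 / 1280 := by
    have h1 : c3 ≤ 1 / (1280 * C) := by rw [hc3]; exact min_le_right _ _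
    calc C * c3 ≤ C * (1 / (1280 * C)) := mul_le_mul_of_nonneg_left h1 hC.le
      _ = 1 / 1280 := by field_simp
  obtain ⟨E, hE⟩ : ∃ E : ℝ, E = D2 + C1 * D1 / η ^ 8 := ⟨_, rfl⟩
  have hEp : 0 < E := by rw [hE]; positivity
  -- the crude cases
  have cr : ∀ R a t : ℝ, 2 ≤ R → |a| ≤ R → ¬ (1 ≤ η * R ∧ |t| ≤ η * R) →
      C1 * (hh t ^ 2 * (1 + |t|) ^ 6) ≤ E * (1 / R ^ 8) := by
    intro R a t hR ha hn
    have hR0 : 0 < R := by linarith
    have i0 : 0 ≤ 1 / R ^ 8 := by positivity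
    by_cases h1 : 1 ≤ η * R
    · have h2 : η * R < |t| := by
        by_contra h; push Not at h; exact hn ⟨h1, h⟩
      have h3 := (s2 R a t hR ha).2.1 h2
      refine h3.trans (mul_le_mul_of_nonneg_right ?_ i0)
      rw [hE]
      have : 0 < C1 * D1 / η ^ 8 := by positivity
      linarith
    · push Not at h1
      have h3 := (s1 R a t hR ha).2.2.2.1
      have h4 : C1 * (hh t ^ 2 * (1 + |t|) ^ 6) ≤ C1 * D1 :=
        mul_le_mul_of_nonneg_left h3 hC1.le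
      have h5 : (η * R) ^ 8 ≤ 1 := pow_le_one₀ (by positivity) h1.le
      have h6 : C1 * D1 ≤ C1 * D1 / η ^ 8 * (1 / R ^ 8) := by
        have e1 : C1 * D1 / η ^ 8 * (1 / R ^ 8) = C1 * D1 / (η * R) ^ 8 := by
          field_simp
        rw [e1, le_div_iff₀ (by positivity)]
        have : 0 ≤ C1 * D1 := by positivity
        nlinarith
      refine h4.trans (h6.trans (mul_le_mul_of_nonneg_right ?_ i0))
      rw [hE]
      linarith
  refine ⟨D1 + E + D3 + D5, c3, by positivity, c3p, ?_⟩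
  intro R a t α β hR ha hα hβ
  have hR0 : 0 < R := by linarith
  have i0 : 0 ≤ 1 / R ^ 8 := by positivity
  have i1 : 0 ≤ Real.exp (-|a|) / R ^ 4 := by positivity
  refine ⟨?_, ?_, ?_⟩
  · -- first
    by_cases hc : 1 ≤ η * R ∧ |t| ≤ η * R
    · have h1 := main R a t 0 α β hc.1 ha hc.2 le_rfl zero_le_one hα hβ
      have h2 := (s1 R a t hR ha).1
      have h3 : D1 * (Real.exp (-|a|) / R ^ 4 + 1 / R ^ 8)
          ≤ (D1 + E + D3 + D5) * (Real.exp (-|a|) / R ^ 4 + 1 / R ^ 8) :=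
        mul_le_mul_of_nonneg_right (by linarith) (by linarith)
      simp only [zero_mul, add_zero, mul_zero, sub_zero] at h1
      have e1 : hh t ^ 2 * (1 / 5 * ((a - t) / R) ^ 2 - C * ((1 + t ^ 2) / R ^ 2) ^ 2)
          = -(hh t ^ 2 * (C * ((1 + t ^ 2) / R ^ 2) ^ 2 - 1 / 5 * ((a - t) / R) ^ 2)) := by ring
      rw [e1] at h1
      linarith
    · have h1 := crude δ R a t 0 α β hδ hδ' hR ha le_rfl zero_le_one hα hβ
      have h2 := cr R a t hR ha hc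
      simp only [zero_mul, add_zero] at h1
      have h3 : E * (1 / R ^ 8)
          ≤ (D1 + E + D3 + D5) * (Real.exp (-|a|) / R ^ 4 + 1 / R ^ 8) :=
        mul_le_mul (by linarith) (by linarith) i0 (by positivity)
      linarith
  · -- second
    intro ha1 ha2
    by_cases hc : 1 ≤ η * R ∧ |t| ≤ η * R
    · have h1 := main R a t c3 α β hc.1 ha hc.2 c3p.le c31 hα hβ
      have h2 := (s3 R a t hR ha).2.2.1
      have hat : 1 / 8 ≤ |(a - t) / R| := by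
        rw [abs_div, abs_of_pos hR0, le_div_iff₀ hR0]
        rw [le_div_iff₀ hR0] at ha1
        have h5 : |a| - |t| ≤ |a - t| := abs_sub_abs_le_abs_sub a t
        have h6 : η * R ≤ 1 / 8 * R := mul_le_mul_of_nonneg_right hη8 hR0.le
        linarith [hc.2]
      have hat2 : 1 / 64 ≤ ((a - t) / R) ^ 2 := by
        rw [← sq_abs]
        nlinarith
      have h4 : hh t ^ 2 * (C * ((1 + t ^ 2) / R ^ 2) ^ 2 + C * c3 - 1 / 5 * ((a - t) / R) ^ 2)
          ≤ hh t ^ 2 * (C * ((1 + t ^ 2) / R ^ 2) ^ 2 - 1 / 640) := by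
        apply mul_le_mul_of_nonneg_left _ (sq_nonneg _)
        linarith
      have h3 : D3 * (1 / R ^ 8) ≤ (D1 + E + D3 + D5) * (1 / R ^ 8) :=
        mul_le_mul_of_nonneg_right (by linarith) i0
      have e1 : hh t ^ 2 * (1 / 5 * ((a - t) / R) ^ 2 - C * ((1 + t ^ 2) / R ^ 2) ^ 2 - C * c3)
          = -(hh t ^ 2 * (C * ((1 + t ^ 2) / R ^ 2) ^ 2 + C * c3 - 1 / 5 * ((a - t) / R) ^ 2)) := by
        ring
      rw [e1] at h1
      linarith
    · have h1 := crude δ R a t c3 α β hδ hδ' hR ha c3p.le c31 hα hβ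
      have h2 := cr R a t hR ha hc
      have h3 : E * (1 / R ^ 8) ≤ (D1 + E + D3 + D5) * (1 / R ^ 8) :=
        mul_le_mul_of_nonneg_right (by linarith) i0
      linarith
  · -- third
    obtain ⟨r1, -, r3⟩ := hRed R a a hR0
    obtain ⟨x0, x1, -, b1, c0, c1⟩ := hCo a
    have hw : |a / R| ≤ 1 := by
      rw [abs_div, abs_of_pos hR0, div_le_one hR0]; exact ha
    have he : (0 : ℝ) < 1 / R := by positivity
    have he1 : 1 / R ≤ 1 := by
      rw [div_le_one hR0]; linarith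
    have hce : cc a * (1 / R) ≤ 2 * (1 / R) + 4 * |a / R| := by
      rw [abs_div, abs_of_pos hR0]
      have h1 : cc a * (1 / R) ≤ 2 * (1 + 2 * |a|) * (1 / R) :=
        mul_le_mul_of_nonneg_right c1 he.le
      have h2 : 2 * (1 + 2 * |a|) * (1 / R) = 2 * (1 / R) + 4 * (|a| / R) := by ring
      linarith
    have h1 := diag (a / R) (xx a) (bb a) (1 / R) (cc a) hw he he1 x0 x1 b1 c0 hce
    have h2 := (s5 R a a hR ha).2.2.2.2
    have e1 : hh a ^ 2 - hh a * SN R a a - S0 R a a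
        = hh a ^ 2 * (1 - sN (a / R) (a / R) (xx a) (bb a) (1 / R) (cc a)
          - s0 (a / R) (a / R) (bb a) (1 / R) (cc a)) := by
      rw [r1, r3]; ring
    have e2 : (1 / R) ^ 2 + (a / R) ^ 2 = (1 + a ^ 2) / R ^ 2 := by
      rw [div_pow, div_pow, one_pow, add_div]
    rw [e2] at h1
    rw [e1, abs_mul, abs_of_nonneg (sq_nonneg (hh a))]
    have h3 : hh a ^ 2 * |1 - sN (a / R) (a / R) (xx a) (bb a) (1 / R) (cc a)
          - s0 (a / R) (a / R) (bb a) (1 / R) (cc a)|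
        ≤ hh a ^ 2 * (C2 * ((1 + a ^ 2) / R ^ 2) ^ 2) :=
      mul_le_mul_of_nonneg_left h1 (sq_nonneg _)
    have h4 : hh a ^ 2 * (C2 * ((1 + a ^ 2) / R ^ 2) ^ 2)
        = C2 * (hh a ^ 2 * ((1 + a ^ 2) / R ^ 2) ^ 2) := by ring
    have h5 : D5 * (Real.exp (-|a|) / R ^ 4)
        ≤ (D1 + E + D3 + D5) * (Real.exp (-|a|) / R ^ 4 + 1 / R ^ 8) :=
      mul_le_mul (by linarith) (by linarith) i1 (by positivity)
    linarith

end Pool.Agent.Work.MP_85f2da_an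

end

section

set_option autoImplicit false

open MeasureTheory Filter Set Metric
open scoped ENNReal Topology ContDiff

namespace Pool.Agent.Work.MP_85f2da_an

/-- the measurable equivalence from `ℂ × ℂ` onto `Fin 4 → ℝ` -/
noncomputable def c7e : ℂ × ℂ ≃ᵐ (Fin 4 → ℝ) :=
  ((Complex.measurableEquivPi.prodCongr Complex.measurableEquivPi).trans
    (MeasurableEquiv.sumPiEquivProdPi (fun _ : Fin 2 ⊕ Fin 2 => ℝ)).symm).trans
    (MeasurableEquiv.piCongrLeft (fun _ : Fin 4 => ℝ) (finSumFinEquiv (m := 2) (n := 2)))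

theorem c7e_mp : MeasurePreserving c7e := by
  have h1 := volume_measurePreserving_piCongrLeft (fun _ : Fin 4 => ℝ)
      (finSumFinEquiv (m := 2) (n := 2))
  have h2 := volume_measurePreserving_sumPiEquivProdPi_symm (fun _ : Fin 2 ⊕ Fin 2 => ℝ)
  have h3 : MeasurePreserving (Complex.measurableEquivPi.prodCongr Complex.measurableEquivPi)
      (volume : Measure (ℂ × ℂ)) volume :=
    Complex.volume_preserving_equiv_pi.prod Complex.volume_preserving_equiv_pi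
  have h4 : MeasurePreserving
      ((Complex.measurableEquivPi.prodCongr Complex.measurableEquivPi).trans
        (MeasurableEquiv.sumPiEquivProdPi (fun _ : Fin 2 ⊕ Fin 2 => ℝ)).symm)
      (volume : Measure (ℂ × ℂ)) volume := h3.trans h2
  exact h4.trans h1

theorem c7e_apply (p : ℂ × ℂ) : c7e p = ![p.1.re, p.1.im, p.2.re, p.2.im] := by
  funext i
  have h : ∀ j : Fin 2 ⊕ Fin 2, c7e p (finSumFinEquiv j)
      = Sum.elim (Complex.measurableEquivPi p.1) (Complex.measurableEquivPi p.2) j := by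
    intro j
    unfold c7e
    simp only [MeasurableEquiv.trans_apply]
    rw [MeasurableEquiv.piCongrLeft_apply_apply]
    cases j <;> rfl
  fin_cases i
  · exact h (Sum.inl 0)
  · exact h (Sum.inl 1)
  · exact h (Sum.inr 0)
  · exact h (Sum.inr 1)

theorem c7_nx (p : ℂ × ℂ) : nx (c7e p) = ‖p.1‖ := by
  rw [c7e_apply, nx, Complex.norm_eq_sqrt_sq_add_sq]
  simp

theorem c7_ny (p : ℂ × ℂ) : ny (c7e p) = ‖p.2‖ := by
  rw [c7e_apply, ny, Complex.norm_eq_sqrt_sq_add_sq]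
  simp

theorem c7_exp (u : ℝ) (hu : 0 ≤ u) : Real.exp (-u) ≤ 6 * (1 + u) ^ (-3 : ℝ) := by
  have h1 : 1 + u + u ^ 2 / 2 + u ^ 3 / 6 ≤ Real.exp u := by
    have := Real.sum_le_exp_of_nonneg hu 4
    simp [Finset.sum_range_succ, Nat.factorial] at this
    linarith
  have h2 : (1 + u) ^ 3 ≤ 6 * Real.exp u := by nlinarith
  rw [Real.exp_neg, Real.rpow_neg (by linarith), ← div_eq_mul_inv, le_div_iff₀ (by positivity),
    inv_mul_le_iff₀ (Real.exp_pos u)]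
  rw [show ((3 : ℝ)) = ((3 : ℕ) : ℝ) by norm_num, Real.rpow_natCast]
  linarith

theorem c7_r : Integrable (fun t : ℝ => (1 + ‖t‖) ^ (-2 : ℝ)) :=
  integrable_one_add_norm (by simp)

/-- the inner integral -/
theorem c7_inner (s : ℝ) (hs : 0 ≤ s) :
    Integrable (fun y : ℂ => Real.exp (-|s - ‖y‖|)) ∧
    ∫ y : ℂ, Real.exp (-|s - ‖y‖|) ≤
      2 * (volume : Measure ℂ).real (ball 0 1) * (6 * ∫ t : ℝ, (1 + ‖t‖) ^ (-2 : ℝ)) * (1 + s) := by
  have hfin : Module.finrank ℝ ℂ = 2 := Complex.finrank_real_complex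
  have hb : ∀ t : ℝ, t ^ (Module.finrank ℝ ℂ - 1) * Real.exp (-|s - t|) ≤
      (6 * (1 + s)) * (1 + ‖t - s‖) ^ (-2 : ℝ) := by
    intro t
    rw [hfin]
    have hu : (0 : ℝ) ≤ |t - s| := abs_nonneg _
    have h1 := c7_exp |t - s| hu
    have h2 : t ≤ (1 + s) * (1 + |t - s|) := by
      have : t - s ≤ |t - s| := le_abs_self _
      nlinarith
    have h3 : (1 + |t - s|) ^ (-2 : ℝ) = (1 + |t - s|) * (1 + |t - s|) ^ (-3 : ℝ) := by
      rw [show (-2 : ℝ) = 1 + (-3 : ℝ) by norm_num, Real.rpow_add (by linarith), Real.rpow_one]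
    rw [abs_sub_comm, Real.norm_eq_abs, h3]
    have h4 : (0 : ℝ) ≤ (1 + |t - s|) ^ (-3 : ℝ) := by positivity
    have h5 : 0 < Real.exp (-|t - s|) := Real.exp_pos _
    calc t ^ (2 - 1) * Real.exp (-|t - s|) = t * Real.exp (-|t - s|) := by norm_num
      _ ≤ ((1 + s) * (1 + |t - s|)) * Real.exp (-|t - s|) := by gcongr
      _ ≤ ((1 + s) * (1 + |t - s|)) * (6 * (1 + |t - s|) ^ (-3 : ℝ)) := by gcongr
      _ = _ := by ring
  have hI : Integrable (fun t : ℝ => (6 * (1 + s)) * (1 + ‖t - s‖) ^ (-2 : ℝ)) :=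
    (c7_r.comp_sub_right s).const_mul _
  have hI2 : IntegrableOn (fun t : ℝ => t ^ (Module.finrank ℝ ℂ - 1) • Real.exp (-|s - t|))
      (Ioi 0) := by
    refine Integrable.mono' hI.integrableOn ?_ ?_
    · apply Continuous.aestronglyMeasurable
      fun_prop
    · refine (ae_restrict_iff' measurableSet_Ioi).2 (Eventually.of_forall ?_)
      intro t ht
      have ht' : (0 : ℝ) < t := ht
      rw [smul_eq_mul, Real.norm_of_nonneg (by positivity)]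
      exact hb t
  constructor
  · exact (integrable_fun_norm_addHaar (volume : Measure ℂ)
      (f := fun t => Real.exp (-|s - t|))).2 hI2
  · rw [integral_fun_norm_addHaar (volume : Measure ℂ) (fun t => Real.exp (-|s - t|)), hfin]
    have h6 : ∫ t in Ioi (0 : ℝ), t ^ (2 - 1) • Real.exp (-|s - t|)
        ≤ (6 * (1 + s)) * ∫ t : ℝ, (1 + ‖t‖) ^ (-2 : ℝ) := by
      calc ∫ t in Ioi (0 : ℝ), t ^ (2 - 1) • Real.exp (-|s - t|)
          ≤ ∫ t in Ioi (0 : ℝ), (6 * (1 + s)) * (1 + ‖t - s‖) ^ (-2 : ℝ) := by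
            apply setIntegral_mono_on _ hI.integrableOn measurableSet_Ioi
            · intro t _
              have := hb t
              rw [hfin] at this
              exact this
            · rw [hfin] at hI2
              exact hI2
        _ ≤ ∫ t : ℝ, (6 * (1 + s)) * (1 + ‖t - s‖) ^ (-2 : ℝ) := by
            apply setIntegral_le_integral hI
            refine Eventually.of_forall ?_
            intro t
            show 0 ≤ (6 * (1 + s)) * (1 + ‖t - s‖) ^ (-2 : ℝ)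
            positivity
        _ = _ := by
            rw [integral_const_mul]
            congr 1
            exact integral_sub_right_eq_self (fun t : ℝ => (1 + ‖t‖) ^ (-2 : ℝ)) s
    have h7 : 0 ≤ (volume : Measure ℂ).real (ball 0 1) := measureReal_nonneg
    calc 2 • (volume : Measure ℂ).real (ball 0 1) •
          ∫ t in Ioi (0 : ℝ), t ^ (2 - 1) • Real.exp (-|s - t|)
        = 2 * ((volume : Measure ℂ).real (ball 0 1) *
          ∫ t in Ioi (0 : ℝ), t ^ (2 - 1) • Real.exp (-|s - t|)) := by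
          rw [nsmul_eq_mul, smul_eq_mul]; norm_num
      _ ≤ 2 * ((volume : Measure ℂ).real (ball 0 1) *
          ((6 * (1 + s)) * ∫ t : ℝ, (1 + ‖t‖) ^ (-2 : ℝ))) := by gcongr
      _ = _ := by ring

theorem c7_cx (r : ℝ) (hr : 2 < r) : Integrable (fun x : ℂ => (1 + ‖x‖) ^ (-r)) :=
  integrable_one_add_norm (by rw [Complex.finrank_real_complex]; exact_mod_cast hr)

theorem c7_G : Integrable (fun p : ℂ × ℂ =>
    (1 + ‖p.1‖) ^ (-4 : ℝ) * Real.exp (-|‖p.1‖ - ‖p.2‖|)) := by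
  have hc : Continuous (fun p : ℂ × ℂ =>
      (1 + ‖p.1‖) ^ (-4 : ℝ) * Real.exp (-|‖p.1‖ - ‖p.2‖|)) := by
    apply Continuous.mul
    · apply Continuous.rpow_const
      · fun_prop
      · intro p
        left
        positivity
    · fun_prop
  rw [Measure.volume_eq_prod, integrable_prod_iff hc.aestronglyMeasurable]
  constructor
  · refine Eventually.of_forall ?_
    intro x
    exact ((c7_inner ‖x‖ (norm_nonneg x)).1).const_mul ((1 + ‖x‖) ^ (-4 : ℝ))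
  · have hK := (c7_cx 3 (by norm_num)).const_mul
      (2 * (volume : Measure ℂ).real (ball 0 1) * (6 * ∫ t : ℝ, (1 + ‖t‖) ^ (-2 : ℝ)))
    refine Integrable.mono' hK ?_ ?_
    · exact (hc.norm.aestronglyMeasurable
        (μ := (volume : Measure ℂ).prod (volume : Measure ℂ))).integral_prod_right'
    · refine Eventually.of_forall ?_
      intro x
      have h0 : (0 : ℝ) < 1 + ‖x‖ := by positivity
      rw [Real.norm_of_nonneg (integral_nonneg (fun y => norm_nonneg _))]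
      have h1 : ∀ y : ℂ, ‖(1 + ‖x‖) ^ (-4 : ℝ) * Real.exp (-|‖x‖ - ‖y‖|)‖
          = (1 + ‖x‖) ^ (-4 : ℝ) * Real.exp (-|‖x‖ - ‖y‖|) := by
        intro y
        exact Real.norm_of_nonneg (by positivity)
      simp only [h1]
      rw [integral_const_mul]
      have h2 := (c7_inner ‖x‖ (norm_nonneg x)).2
      have h3 : (1 + ‖x‖) ^ (-3 : ℝ) = (1 + ‖x‖) ^ (-4 : ℝ) * (1 + ‖x‖) := by
        rw [show (-3 : ℝ) = -4 + 1 by norm_num, Real.rpow_add h0, Real.rpow_one]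
      rw [h3]
      calc (1 + ‖x‖) ^ (-4 : ℝ) * ∫ y : ℂ, Real.exp (-|‖x‖ - ‖y‖|)
          ≤ (1 + ‖x‖) ^ (-4 : ℝ) * (2 * (volume : Measure ℂ).real (ball 0 1) *
            (6 * ∫ t : ℝ, (1 + ‖t‖) ^ (-2 : ℝ)) * (1 + ‖x‖)) := by gcongr
        _ = _ := by ring

theorem c7_H : Integrable (fun p : ℂ × ℂ =>
    (1 + ‖p.1‖) ^ (-4 : ℝ) * (1 + ‖p.2‖) ^ (-4 : ℝ)) := by
  rw [Measure.volume_eq_prod]
  exact (c7_cx 4 (by norm_num)).mul_prod (c7_cx 4 (by norm_num))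

theorem c7_meas : Measurable VV := by
  unfold VV Rz az nx ny
  fun_prop

theorem cInt : CInt := by
  unfold CInt
  have hI := ((c7_G.const_mul 16).add (c7_H.const_mul 256))
  rw [← integrable_indicator_iff (by
    apply measurableSet_lt measurable_const
    unfold Rz nx ny
    fun_prop)]
  rw [← c7e_mp.integrable_comp_emb c7e.measurableEmbedding]
  refine Integrable.mono' hI ?_ ?_
  · apply Measurable.aestronglyMeasurable
    apply Measurable.comp _ c7e.measurable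
    apply c7_meas.indicator
    apply measurableSet_lt measurable_const
    unfold Rz nx ny
    fun_prop
  · refine Eventually.of_forall ?_
    intro p
    simp only [Function.comp_apply, Pi.add_apply]
    by_cases h : 2 < Rz (c7e p)
    · rw [indicator_of_mem (by exact h)]
      have hR : Rz (c7e p) = ‖p.1‖ + ‖p.2‖ := by rw [Rz, c7_nx, c7_ny]
      have ha : az (c7e p) = ‖p.1‖ - ‖p.2‖ := by rw [az, c7_nx, c7_ny]
      rw [hR] at h
      unfold VV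
      rw [hR, ha]
      set s := ‖p.1‖ with hs
      set t := ‖p.2‖ with ht
      have hs0 : 0 ≤ s := norm_nonneg _
      have ht0 : 0 ≤ t := norm_nonneg _
      have hR0 : 0 < s + t := by linarith
      have e4 : ∀ u : ℝ, 0 ≤ u → (1 + u) ^ (-4 : ℝ) = 1 / (1 + u) ^ 4 := by
        intro u hu
        rw [Real.rpow_neg (by linarith), show ((4 : ℝ)) = ((4 : ℕ) : ℝ) by norm_num,
          Real.rpow_natCast, one_div]
      rw [e4 s hs0, e4 t ht0, Real.norm_of_nonneg (by positivity)]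
      have h1 : (1 + s) / 2 ≤ s + t := by linarith
      have h2 : (1 + t) / 2 ≤ s + t := by linarith
      have h3 : Real.exp (-|s - t|) / (s + t) ^ 4 ≤ 16 * (1 / (1 + s) ^ 4 * Real.exp (-|s - t|)) := by
        have h4 : ((1 + s) / 2) ^ 4 ≤ (s + t) ^ 4 := by gcongr
        calc Real.exp (-|s - t|) / (s + t) ^ 4 ≤ Real.exp (-|s - t|) / ((1 + s) / 2) ^ 4 := by
              gcongr
          _ = _ := by field_simp; norm_num
      have h5 : 1 / (s + t) ^ 8 ≤ 256 * (1 / (1 + s) ^ 4 * (1 / (1 + t) ^ 4)) := by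
        have h6 : ((1 + s) / 2) ^ 4 * ((1 + t) / 2) ^ 4 ≤ (s + t) ^ 4 * (s + t) ^ 4 := by gcongr
        calc 1 / (s + t) ^ 8 = 1 / ((s + t) ^ 4 * (s + t) ^ 4) := by ring
          _ ≤ 1 / (((1 + s) / 2) ^ 4 * ((1 + t) / 2) ^ 4) := by gcongr
          _ = _ := by field_simp; norm_num
      linarith
    · rw [indicator_of_notMem (by exact h), norm_zero]
      positivity

end Pool.Agent.Work.MP_85f2da_an

end
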