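import Pool.Agent.Work.MP_85f2da_an.StmtsB
import Pool.Agent.Work.MP_85f2da_an.Bd.B02
import Pool.Agent.Work.MP_2cde6c_an.Nash
import Pool.Agent.Work.MP_85f2da_an.Bd.B03
import Pool.Agent.Work.MP_85f2da_an.Bd.B05
import Pool.Agent.Work.MP_85f2da_an.Bd.B01
import Pool.Agent.Work.MP_85f2da_an.Bd.B04

/-! Bundle of small proof modules (one section per former module). -/

section

set_option autoImplicit false

/-!
# MP_85f2da_an, item Q1: reduction to the polynomials
-/

open MeasureTheory Filter Set Metric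
open scoped ENNReal Topology ContDiff

namespace Pool.Agent.Work.MP_85f2da_an

theorem q1_SN (R a t : ℝ) (hR : 0 < R) :
    SN R a t = hh t * sN (a / R) (t / R) (xx t) (bb t) (1 / R) (cc t) := by
  have hR' : R ≠ 0 := hR.ne'
  unfold SN sN
  generalize hx : xx t = x
  generalize hb : bb t = b
  generalize hc : cc t = c
  simp only [Fin.sum_univ_six, kt, fN, hx, hb, hc, Matrix.cons_val]
  generalize hh t = h
  field_simp
  ring

theorem q1_ST (R a t : ℝ) (hR : 0 < R) :
    ST R a t = hh t * sT (a / R) (t / R) (xx t) := by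
  have hR' : R ≠ 0 := hR.ne'
  unfold ST sT
  generalize hx : xx t = x
  generalize hb : bb t = b
  generalize hc : cc t = c
  simp only [Fin.sum_univ_six, kt, fT, hx, hb, hc, Matrix.cons_val]
  generalize hh t = h
  field_simp
  ring

theorem q1_S0 (R a t : ℝ) (hR : 0 < R) :
    S0 R a t = hh t ^ 2 * s0 (a / R) (t / R) (bb t) (1 / R) (cc t) := by
  have hR' : R ≠ 0 := hR.ne'
  unfold S0 s0 KD K4 K5
  generalize hb : bb t = b
  generalize hc : cc t = c
  simp only [fD, Matrix.cons_val]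
  generalize hh t = h
  field_simp
  ring

theorem qRed : QRed := fun R a t hR => ⟨q1_SN R a t hR, q1_ST R a t hR, q1_S0 R a t hR⟩

end Pool.Agent.Work.MP_85f2da_an

end

section

set_option autoImplicit false

/-!
# MP_85f2da_an: S5, chain rule for local Sobolev functions
-/

open MeasureTheory Filter Set Metric
open scoped ENNReal Topology ContDiff

namespace Pool.Agent.Work.MP_85f2da_an

variable {d : ℕ}

/-- a sequence of functions whose integrals tend to zero has a subsequence tending to zero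
almost everywhere -/
theorem s5_subseq {α : Type*} [MeasurableSpace α] (μ : Measure α) (f : ℕ → α → ℝ≥0∞)
    (hf : ∀ n, AEMeasurable (f n) μ) (h : Tendsto (fun n => ∫⁻ x, f n x ∂μ) atTop (𝓝 0)) :
    ∃ φ : ℕ → ℕ, StrictMono φ ∧ ∀ᵐ x ∂μ, Tendsto (fun n => f (φ n) x) atTop (𝓝 0) := by
  have h1 : ∀ n : ℕ, ∀ᶠ k in atTop, ∫⁻ x, f k x ∂μ < (1 / 2 : ℝ≥0∞) ^ n := fun n =>
    h.eventually (gt_mem_nhds (ENNReal.pow_pos (by norm_num) n))
  obtain ⟨φ, hφ, h2⟩ := extraction_forall_of_eventually h1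
  refine ⟨φ, hφ, ?_⟩
  have h3 : ∫⁻ x, ∑' n, f (φ n) x ∂μ ≠ ⊤ := by
    rw [lintegral_tsum fun n => hf (φ n)]
    refine ne_top_of_le_ne_top ?_ (ENNReal.tsum_le_tsum fun n => (h2 n).le)
    rw [ENNReal.tsum_geometric]
    simp
  filter_upwards [ae_lt_top' (AEMeasurable.tsum fun n => hf (φ n)) h3] with x hx
  exact ENNReal.tendsto_atTop_zero_of_tsum_ne_top hx.ne

theorem s5_lip {Φ Φ' : ℝ → ℝ} {C : ℝ} (hΦ : ∀ v, HasDerivAt Φ (Φ' v) v)
    (hC : ∀ v, |Φ' v| ≤ C) : LipschitzWith (Real.toNNReal C) Φ := by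
  refine lipschitzWith_of_nnnorm_deriv_le (fun v => (hΦ v).differentiableAt) fun v => ?_
  rw [(hΦ v).deriv, ← NNReal.coe_le_coe, coe_nnnorm, Real.norm_eq_abs,
    Real.coe_toNNReal _ ((abs_nonneg _).trans (hC v))]
  exact hC v

theorem s5_gr {Φ Φ' : ℝ → ℝ} (hΦ : ∀ v, HasDerivAt Φ (Φ' v) v) {U : (Fin d → ℝ) → ℝ}
    (hU : Lip U) : ∀ᵐ x, gr (fun y => Φ (U y)) x = Φ' (U x) • gr U x := by
  obtain ⟨K, hK⟩ := hU
  filter_upwards [hK.ae_differentiableAt] with x hx
  have := (hΦ (U x)).comp_hasFDerivAt x hx.hasFDerivAt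
  funext i
  have h2 : fderiv ℝ (fun y => Φ (U y)) x = Φ' (U x) • fderiv ℝ U x := this.fderiv
  simp [gr, h2]

theorem s5_sq_split (a b : ℝ) (p q : Fin d → ℝ) :
    sq (a • p - b • q) ≤ 2 * a ^ 2 * sq (p - q) + 2 * ((a - b) ^ 2 * sq q) := by
  simp only [sq, Finset.mul_sum, ← Finset.sum_add_distrib, Pi.sub_apply, Pi.smul_apply,
    smul_eq_mul]
  refine Finset.sum_le_sum fun i _ => ?_
  nlinarith [sq_nonneg (a * (p i - q i) - (a - b) * q i)]

theorem sChain : SChain := by
  intro d u g Φ Φ' hΦ hc ⟨C, hC⟩ hug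
  have hL := s5_lip hΦ hC
  have hint := sInt d u g hug
  obtain ⟨mu, mg, U, hU, hlim⟩ := hug
  have hΦc : Continuous Φ := hL.continuous
  have mu' : AEStronglyMeasurable (fun x => Φ (u x)) volume :=
    hΦc.comp_aestronglyMeasurable mu
  have mg' : AEStronglyMeasurable (fun x => Φ' (u x) • g x) volume :=
    (hc.comp_aestronglyMeasurable mu).smul mg
  have hC0 : 0 ≤ C := (abs_nonneg _).trans (hC 0)
  refine ⟨mu', mg', fun j x => Φ (U j x), fun j => ?_, fun R => ?_⟩
  · obtain ⟨K, hK⟩ := hU j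
    exact ⟨_, hL.comp hK⟩
  -- the two terms
  have key : ∀ j, ∫⁻ x in closedBall 0 R, ENNReal.ofReal ((Φ (U j x) - Φ (u x)) ^ 2
      + sq (gr (fun y => Φ (U j y)) x - Φ' (u x) • g x))
      ≤ ENNReal.ofReal (2 * C ^ 2) * (∫⁻ x in closedBall 0 R,
          ENNReal.ofReal ((U j x - u x) ^ 2 + sq (gr (U j) x - g x)))
        + ∫⁻ x in closedBall 0 R,
          ENNReal.ofReal (2 * ((Φ' (U j x) - Φ' (u x)) ^ 2 * sq (g x))) := by
    intro j
    have hm := (s8_measurable_app mu mg (hU j)).restrict (s := closedBall 0 R)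
    rw [← lintegral_const_mul'' _ hm.aemeasurable.ennreal_ofReal,
      ← lintegral_add_left' (hm.aemeasurable.ennreal_ofReal.const_mul _)]
    refine lintegral_mono_ae ?_
    filter_upwards [ae_restrict_of_ae (s5_gr hΦ (hU j))] with x hx
    rw [← ENNReal.ofReal_mul (by positivity), ← ENNReal.ofReal_add
      (mul_nonneg (by positivity) (add_nonneg (sq_nonneg _) (s8_sq_nonneg _)))
      (mul_nonneg zero_le_two (mul_nonneg (sq_nonneg _) (s8_sq_nonneg _)))]
    refine ENNReal.ofReal_le_ofReal ?_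
    rw [hx]
    have h1 := s5_sq_split (Φ' (U j x)) (Φ' (u x)) (gr (U j) x) (g x)
    have h2 : (Φ (U j x) - Φ (u x)) ^ 2 ≤ C ^ 2 * (U j x - u x) ^ 2 := by
      have := hL.dist_le_mul (U j x) (u x)
      rw [Real.dist_eq, Real.dist_eq, Real.coe_toNNReal _ hC0] at this
      calc (Φ (U j x) - Φ (u x)) ^ 2 = |Φ (U j x) - Φ (u x)| ^ 2 := (sq_abs _).symm
        _ ≤ (C * |U j x - u x|) ^ 2 := by gcongr
        _ = C ^ 2 * (U j x - u x) ^ 2 := by rw [mul_pow, sq_abs]
    have h3 : Φ' (U j x) ^ 2 ≤ C ^ 2 := by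
      have := hC (U j x)
      exact sq_le_sq' (by linarith [(abs_le.1 this).1]) (abs_le.1 this).2
    have h4 := s8_sq_nonneg (gr (U j) x - g x)
    nlinarith [mul_le_mul_of_nonneg_right h3 h4, sq_nonneg (U j x - u x),
      mul_nonneg (sq_nonneg C) (sq_nonneg (U j x - u x))]
  refine tendsto_of_tendsto_of_tendsto_of_le_of_le tendsto_const_nhds ?_ (fun j => zero_le) key
  have hA : Tendsto (fun j => ENNReal.ofReal (2 * C ^ 2) * (∫⁻ x in closedBall 0 R,
      ENNReal.ofReal ((U j x - u x) ^ 2 + sq (gr (U j) x - g x)))) atTop (𝓝 0) := by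
    have := ENNReal.Tendsto.const_mul (a := ENNReal.ofReal (2 * C ^ 2)) (hlim R)
      (Or.inr ENNReal.ofReal_ne_top)
    simpa using this
  have hB : Tendsto (fun j => ∫⁻ x in closedBall 0 R,
      ENNReal.ofReal (2 * ((Φ' (U j x) - Φ' (u x)) ^ 2 * sq (g x)))) atTop (𝓝 0) := by
    refine tendsto_of_subseq_tendsto fun ns hns => ?_
    obtain ⟨φ, -, hφ⟩ := s5_subseq (volume.restrict (closedBall (0 : Fin d → ℝ) R))
      (fun n x => ENNReal.ofReal ((U (ns n) x - u x) ^ 2 + sq (gr (U (ns n)) x - g x)))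
      (fun n => (s8_measurable_app mu mg (hU (ns n))).restrict.aemeasurable.ennreal_ofReal)
      ((hlim R).comp hns)
    refine ⟨φ, ?_⟩
    have := tendsto_lintegral_of_dominated_convergence'
      (μ := volume.restrict (closedBall (0 : Fin d → ℝ) R))
      (F := fun n x => ENNReal.ofReal
        (2 * ((Φ' (U (ns (φ n)) x) - Φ' (u x)) ^ 2 * sq (g x))))
      (f := fun _ => 0)
      (fun x => ENNReal.ofReal (8 * C ^ 2 * sq (g x))) ?_ ?_ ?_ ?_
    · simpa using this
    · intro n
      obtain ⟨K, hK⟩ := hU (ns (φ n))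
      have h1 : AEStronglyMeasurable (fun x => Φ' (U (ns (φ n)) x)) volume :=
        (hc.comp hK.continuous).aestronglyMeasurable
      have h2 : AEStronglyMeasurable (fun x => Φ' (u x)) volume :=
        hc.comp_aestronglyMeasurable mu
      have h3 : AEStronglyMeasurable (fun x => sq (g x)) volume :=
        s8_continuous_sq.comp_aestronglyMeasurable mg
      exact ((((h1.sub h2).pow 2).mul h3).const_mul 2).restrict.aemeasurable.ennreal_ofReal
    · intro n
      refine Eventually.of_forall fun x => ENNReal.ofReal_le_ofReal ?_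
      have h1 := abs_le.1 (hC (U (ns (φ n)) x))
      have h2 := abs_le.1 (hC (u x))
      have h3 : (Φ' (U (ns (φ n)) x) - Φ' (u x)) ^ 2 ≤ (2 * C) ^ 2 :=
        sq_le_sq' (by linarith) (by linarith)
      nlinarith [mul_le_mul_of_nonneg_right h3 (s8_sq_nonneg (g x))]
    · have h1 := ((hint 0 R).2.const_mul (8 * C ^ 2))
      have h2 := (lintegral_ofReal_ne_top_iff_integrable h1.aestronglyMeasurable
        (Eventually.of_forall fun x => mul_nonneg (by positivity) (s8_sq_nonneg _))).2 h1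
      exact h2
    · filter_upwards [hφ] with x hx
      have h1 : Tendsto (fun n => ENNReal.ofReal ((U (ns (φ n)) x - u x) ^ 2)) atTop (𝓝 0) :=
        tendsto_of_tendsto_of_tendsto_of_le_of_le tendsto_const_nhds hx (fun n => zero_le)
          (fun n => ENNReal.ofReal_le_ofReal (le_add_of_nonneg_right (s8_sq_nonneg _)))
      have h2 : Tendsto (fun n => (U (ns (φ n)) x - u x) ^ 2) atTop (𝓝 0) := by
        have := (ENNReal.tendsto_toReal ENNReal.zero_ne_top).comp h1
        simpa [Function.comp_def, ENNReal.toReal_ofReal (sq_nonneg _)] using this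
      have h3 : Tendsto (fun n => U (ns (φ n)) x - u x) atTop (𝓝 0) := by
        have := (Real.continuous_sqrt.tendsto 0).comp h2
        rw [Real.sqrt_zero] at this
        refine (tendsto_zero_iff_abs_tendsto_zero _).2 ?_
        refine this.congr fun n => ?_
        simp [Real.sqrt_sq_eq_abs]
      have h4 : Tendsto (fun n => U (ns (φ n)) x) atTop (𝓝 (u x)) := by
        simpa using h3.add_const (u x)
      have h5 : Tendsto (fun n => Φ' (U (ns (φ n)) x)) atTop (𝓝 (Φ' (u x))) :=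
        (hc.tendsto _).comp h4
      have h6 : Tendsto (fun n => 2 * ((Φ' (U (ns (φ n)) x) - Φ' (u x)) ^ 2 * sq (g x)))
          atTop (𝓝 0) := by
        have := (((h5.sub_const (Φ' (u x))).pow 2).mul_const (sq (g x))).const_mul 2
        simpa using this
      have := ENNReal.tendsto_ofReal h6
      simpa using this
  simpa using hA.add hB

end Pool.Agent.Work.MP_85f2da_an

end

section

set_option autoImplicit false

/-!
# MP_85f2da_an, S4: products with compactly supported Lipschitz functions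
-/

open MeasureTheory Filter Set Metric
open scoped ENNReal Topology ContDiff

namespace Pool.Agent.Work.MP_85f2da_an

variable {d : ℕ}

/-- bounds for a compactly supported Lipschitz function -/
theorem s4_data {η : (Fin d → ℝ) → ℝ} (hη : Lip η) (hc : HasCompactSupport η) :
    ∃ (A R : ℝ), 0 ≤ A ∧ 0 ≤ R ∧ (∀ x, |η x| ≤ A) ∧ ∀ x, R < ‖x‖ → η x = 0 := by
  obtain ⟨A, hA⟩ := hc.exists_bound_of_continuous (s1_lip_cont hη)
  obtain ⟨R, hR⟩ := hc.isCompact.isBounded.subset_closedBall (0 : Fin d → ℝ)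
  refine ⟨max A 0, max R 0, le_max_right _ _, le_max_right _ _, fun x => ?_, fun x hx => ?_⟩
  · exact (hA x).trans (le_max_left _ _)
  · by_contra h
    have h1 : x ∈ tsupport η := subset_tsupport _ h
    have h2 := hR h1
    rw [mem_closedBall_zero_iff] at h2
    linarith [le_max_left R 0]

theorem s4_lip {η u : (Fin d → ℝ) → ℝ} (hη : Lip η) (hc : HasCompactSupport η) (hu : Lip u) :
    Lip (fun x => η x * u x) := by
  obtain ⟨A, R, hA0, hR0, hA, hR⟩ := s4_data hη hc
  obtain ⟨K, hK⟩ := hη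
  obtain ⟨L, hL⟩ := hu
  -- `u` is bounded on the ball
  set B : ℝ := |u 0| + L * R with hB
  have hB0 : 0 ≤ B := by positivity
  have hub : ∀ x : Fin d → ℝ, ‖x‖ ≤ R → |u x| ≤ B := by
    intro x hx
    have h := hL.dist_le_mul x 0
    rw [Real.dist_eq, dist_zero_right] at h
    have h2 : |u x| ≤ |u x - u 0| + |u 0| := by
      have := abs_add_le (u x - u 0) (u 0)
      simpa using this
    have h3 : (L : ℝ) * ‖x‖ ≤ L * R := by gcongr
    linarith
  have key : ∀ x y : Fin d → ℝ, ‖x‖ ≤ R →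
      |η x * u x - η y * u y| ≤ (A * L + B * K) * dist x y := by
    intro x y hx
    have h1 := hK.dist_le_mul x y
    have h2 := hL.dist_le_mul x y
    rw [Real.dist_eq] at h1 h2
    have e : η x * u x - η y * u y = η y * (u x - u y) + u x * (η x - η y) := by ring
    rw [e]
    calc |η y * (u x - u y) + u x * (η x - η y)|
        ≤ |η y * (u x - u y)| + |u x * (η x - η y)| := abs_add_le _ _
      _ = |η y| * |u x - u y| + |u x| * |η x - η y| := by rw [abs_mul, abs_mul]
      _ ≤ A * (L * dist x y) + B * (K * dist x y) := by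
          gcongr
          · exact hA y
          · exact hub x hx
      _ = (A * L + B * K) * dist x y := by ring
  refine ⟨Real.toNNReal (A * L + B * K), LipschitzWith.of_dist_le_mul fun x y => ?_⟩
  rw [Real.coe_toNNReal _ (by positivity), Real.dist_eq]
  by_cases hx : ‖x‖ ≤ R
  · exact key x y hx
  · by_cases hy : ‖y‖ ≤ R
    · have := key y x hy
      rw [abs_sub_comm, dist_comm]
      exact this
    · rw [hR x (not_le.1 hx), hR y (not_le.1 hy)]
      simp only [zero_mul, sub_self, abs_zero]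
      positivity

theorem s4_gr {η u : (Fin d → ℝ) → ℝ} {x : Fin d → ℝ}
    (hη : DifferentiableAt ℝ η x) (hu : DifferentiableAt ℝ u x) :
    gr (fun x => η x * u x) x = η x • gr u x + u x • gr η x := by
  funext i
  simp only [gr]
  rw [fderiv_fun_mul hη hu]
  simp [gr]

theorem s4_gr_le {η : (Fin d → ℝ) → ℝ} {K : NNReal} (hK : LipschitzWith K η) (x : Fin d → ℝ)
    (i : Fin d) : |gr η x i| ≤ K := by
  have h1 : ‖fderiv ℝ η x‖ ≤ K := norm_fderiv_le_of_lipschitz ℝ hK
  have h2 := (fderiv ℝ η x).le_opNorm (Pi.single i (1 : ℝ))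
  have h3 : ‖(Pi.single i (1 : ℝ) : Fin d → ℝ)‖ = 1 := by
    rw [Pi.norm_single]
    simp
  rw [h3, mul_one] at h2
  exact h2.trans h1

theorem s4_pt (A K e t : ℝ) (p q : Fin d → ℝ) (he : |e| ≤ A) (hq : ∀ i, |q i| ≤ K)
    (s : ℝ) (hs : s = t) :
    (e * s) ^ 2 + sq (e • p + t • q) ≤ (2 * A ^ 2 + 2 * (d * K ^ 2)) * (s ^ 2 + sq p) := by
  subst hs
  have hA : e ^ 2 ≤ A ^ 2 := by
    rw [← sq_abs e]
    exact pow_le_pow_left₀ (abs_nonneg _) he 2
  have hq2 : sq q ≤ d * K ^ 2 := by
    unfold sq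
    calc ∑ i, q i ^ 2 ≤ ∑ _i : Fin d, K ^ 2 := by
          refine Finset.sum_le_sum fun i _ => ?_
          rw [← sq_abs (q i)]
          exact pow_le_pow_left₀ (abs_nonneg _) (hq i) 2
      _ = d * K ^ 2 := by simp
  have h2 : sq (e • p + s • q) ≤ 2 * e ^ 2 * sq p + 2 * s ^ 2 * sq q := by
    unfold sq
    rw [Finset.mul_sum, Finset.mul_sum, ← Finset.sum_add_distrib]
    refine Finset.sum_le_sum fun i _ => ?_
    simp only [Pi.add_apply, Pi.smul_apply, smul_eq_mul]
    nlinarith [sq_nonneg (e * p i - s * q i)]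
  have hp := s1_sq_nonneg p
  have hK : (0 : ℝ) ≤ d * K ^ 2 := by positivity
  have hs2 := sq_nonneg s
  have h3 : e ^ 2 * sq p ≤ A ^ 2 * sq p := mul_le_mul_of_nonneg_right hA hp
  have h4 : s ^ 2 * sq q ≤ s ^ 2 * (d * K ^ 2) := mul_le_mul_of_nonneg_left hq2 hs2
  have h5 : (e * s) ^ 2 ≤ A ^ 2 * s ^ 2 := by
    rw [mul_pow]
    exact mul_le_mul_of_nonneg_right hA hs2
  have h6 : 0 ≤ A ^ 2 * s ^ 2 := by positivity
  have h7 : 0 ≤ d * K ^ 2 * sq p := mul_nonneg hK hp
  nlinarith

theorem sCut : SCut := by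
  intro d u η g h hη hc
  obtain ⟨A, R0, hA0, hR0, hA, hR⟩ := s4_data hη hc
  obtain ⟨U, hU, hUt⟩ := h.app
  have hηc := s1_lip_cont hη
  obtain ⟨K, hK⟩ := id hη
  refine ⟨?_, ?_, fun j x => η x * U j x, fun j => s4_lip hη hc (hU j), fun R => ?_⟩
  · exact hηc.aestronglyMeasurable.mul h.mu
  · exact (hηc.aestronglyMeasurable.smul h.mg).add
      (h.mu.smul (s1_gr_meas η).aestronglyMeasurable)
  · have hb : ∀ j, (∫⁻ x in closedBall (0 : Fin d → ℝ) R, ENNReal.ofReal
        ((η x * U j x - η x * u x) ^ 2 +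
          sq (gr (fun x => η x * U j x) x - (η x • g x + u x • gr η x)))) ≤
        ENNReal.ofReal (2 * A ^ 2 + 2 * (d * (K : ℝ) ^ 2)) *
          (∫⁻ x in closedBall (0 : Fin d → ℝ) R,
          ENNReal.ofReal ((U j x - u x) ^ 2 + sq (gr (U j) x - g x))) := by
      intro j
      have m1 := (s1_meas h.mu h.mg (hU j)).restrict (s := closedBall (0 : Fin d → ℝ) R)
      rw [← lintegral_const_mul'' _ m1]
      refine lintegral_mono_ae ?_
      filter_upwards [ae_restrict_of_ae (s1_lip_diff (hU j)),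
        ae_restrict_of_ae (s1_lip_diff hη)] with x hx hx'
      rw [s4_gr hx' hx, ← ENNReal.ofReal_mul (by positivity)]
      refine ENNReal.ofReal_le_ofReal ?_
      have e1 : η x * U j x - η x * u x = η x * (U j x - u x) := by ring
      have e2 : η x • gr (U j) x + U j x • gr η x - (η x • g x + u x • gr η x) =
          η x • (gr (U j) x - g x) + (U j x - u x) • gr η x := by
        rw [smul_sub, sub_smul]; abel
      rw [e1, e2]
      exact s4_pt A K (η x) (U j x - u x) _ _ (hA x) (s4_gr_le hK x) _ rfl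
    have ht : Tendsto (fun j => ENNReal.ofReal (2 * A ^ 2 + 2 * (d * (K : ℝ) ^ 2)) *
        (∫⁻ x in closedBall (0 : Fin d → ℝ) R,
          ENNReal.ofReal ((U j x - u x) ^ 2 + sq (gr (U j) x - g x)))) atTop (𝓝 0) := by
      have t1 := ENNReal.Tendsto.const_mul (a := ENNReal.ofReal (2 * A ^ 2 + 2 * (d * (K : ℝ) ^ 2)))
        (hUt R) (Or.inr ENNReal.ofReal_ne_top)
      simpa using t1
    exact tendsto_of_tendsto_of_tendsto_of_le_of_le tendsto_const_nhds ht
      (fun _ => bot_le) hb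

end Pool.Agent.Work.MP_85f2da_an

end

section

set_option autoImplicit false

/-!
# MP_85f2da_an, S3: linear combinations of local Sobolev functions
-/

open MeasureTheory Filter Set Metric
open scoped ENNReal Topology ContDiff

namespace Pool.Agent.Work.MP_85f2da_an

variable {d : ℕ}

theorem s3_lip {u v : (Fin d → ℝ) → ℝ} (a b : ℝ) (hu : Lip u) (hv : Lip v) :
    Lip (fun x => a * u x + b * v x) := by
  obtain ⟨K, hK⟩ := hu
  obtain ⟨L, hL⟩ := hv
  refine ⟨‖a‖₊ * K + ‖b‖₊ * L, ?_⟩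
  refine LipschitzWith.of_dist_le_mul fun x y => ?_
  have h1 := hK.dist_le_mul x y
  have h2 := hL.dist_le_mul x y
  rw [Real.dist_eq] at h1 h2 ⊢
  have e : a * u x + b * v x - (a * u y + b * v y) = a * (u x - u y) + b * (v x - v y) := by ring
  rw [e]
  calc |a * (u x - u y) + b * (v x - v y)|
      ≤ |a * (u x - u y)| + |b * (v x - v y)| := abs_add_le _ _
    _ = |a| * |u x - u y| + |b| * |v x - v y| := by rw [abs_mul, abs_mul]
    _ ≤ |a| * (K * dist x y) + |b| * (L * dist x y) := by gcongr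
    _ = ((‖a‖₊ * K + ‖b‖₊ * L : NNReal) : ℝ) * dist x y := by
        push_cast
        rw [Real.norm_eq_abs, Real.norm_eq_abs]
        ring

theorem s3_gr {u v : (Fin d → ℝ) → ℝ} (a b : ℝ) {x : Fin d → ℝ}
    (hu : DifferentiableAt ℝ u x) (hv : DifferentiableAt ℝ v x) :
    gr (fun x => a * u x + b * v x) x = a • gr u x + b • gr v x := by
  funext i
  have h : HasFDerivAt (fun x => a * u x + b * v x) (a • fderiv ℝ u x + b • fderiv ℝ v x) x :=
    (hu.hasFDerivAt.const_mul a).add (hv.hasFDerivAt.const_mul b)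
  simp only [gr]
  rw [h.fderiv]
  simp [gr]

theorem s3_pt (a b s t : ℝ) (p q : Fin d → ℝ) :
    (a * s + b * t) ^ 2 + sq (a • p + b • q) ≤
      2 * a ^ 2 * (s ^ 2 + sq p) + 2 * b ^ 2 * (t ^ 2 + sq q) := by
  have key : ∀ y z : ℝ, (a * y + b * z) ^ 2 ≤ 2 * a ^ 2 * y ^ 2 + 2 * b ^ 2 * z ^ 2 := by
    intro y z
    nlinarith [sq_nonneg (a * y - b * z)]
  have h2 : sq (a • p + b • q) ≤ 2 * a ^ 2 * sq p + 2 * b ^ 2 * sq q := by
    unfold sq
    rw [Finset.mul_sum, Finset.mul_sum, ← Finset.sum_add_distrib]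
    refine Finset.sum_le_sum fun i _ => ?_
    have := key (p i) (q i)
    simpa [Pi.add_apply, Pi.smul_apply, smul_eq_mul] using this
  have h1 := key s t
  linarith

theorem sLin : SLin := by
  intro d u u' g g' a b h h'
  obtain ⟨U, hU, hUt⟩ := h.app
  obtain ⟨U', hU', hUt'⟩ := h'.app
  refine ⟨?_, ?_, fun j x => a * U j x + b * U' j x, fun j => s3_lip a b (hU j) (hU' j),
    fun R => ?_⟩
  · exact (h.mu.const_mul a).add (h'.mu.const_mul b)
  · exact (h.mg.const_smul a).add (h'.mg.const_smul b)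
  · have hb : ∀ j, (∫⁻ x in closedBall (0 : Fin d → ℝ) R, ENNReal.ofReal
        ((a * U j x + b * U' j x - (a * u x + b * u' x)) ^ 2 +
          sq (gr (fun x => a * U j x + b * U' j x) x - (a • g x + b • g' x)))) ≤
        ENNReal.ofReal (2 * a ^ 2) * (∫⁻ x in closedBall (0 : Fin d → ℝ) R,
          ENNReal.ofReal ((U j x - u x) ^ 2 + sq (gr (U j) x - g x))) +
        ENNReal.ofReal (2 * b ^ 2) * (∫⁻ x in closedBall (0 : Fin d → ℝ) R,
          ENNReal.ofReal ((U' j x - u' x) ^ 2 + sq (gr (U' j) x - g' x))) := by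
      intro j
      have m1 := (s1_meas h.mu h.mg (hU j)).restrict (s := closedBall (0 : Fin d → ℝ) R)
      have m2 := (s1_meas h'.mu h'.mg (hU' j)).restrict (s := closedBall (0 : Fin d → ℝ) R)
      rw [← lintegral_const_mul'' _ m1, ← lintegral_const_mul'' _ m2,
        ← lintegral_add_left' (m1.const_mul _)]
      refine lintegral_mono_ae ?_
      filter_upwards [ae_restrict_of_ae (s1_lip_diff (hU j)),
        ae_restrict_of_ae (s1_lip_diff (hU' j))] with x hx hx'
      rw [s3_gr a b hx hx', ← ENNReal.ofReal_mul (by positivity),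
        ← ENNReal.ofReal_mul (by positivity), ← ENNReal.ofReal_add]
      · refine ENNReal.ofReal_le_ofReal ?_
        have e1 : a * U j x + b * U' j x - (a * u x + b * u' x) =
          a * (U j x - u x) + b * (U' j x - u' x) := by ring
        have e2 : a • gr (U j) x + b • gr (U' j) x - (a • g x + b • g' x) =
          a • (gr (U j) x - g x) + b • (gr (U' j) x - g' x) := by
          rw [smul_sub, smul_sub]; abel
        rw [e1, e2]
        exact s3_pt a b _ _ _ _
      · have := s1_sq_nonneg (gr (U j) x - g x)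
        positivity
      · have := s1_sq_nonneg (gr (U' j) x - g' x)
        positivity
    have ht : Tendsto (fun j => ENNReal.ofReal (2 * a ^ 2) *
        (∫⁻ x in closedBall (0 : Fin d → ℝ) R,
          ENNReal.ofReal ((U j x - u x) ^ 2 + sq (gr (U j) x - g x))) +
        ENNReal.ofReal (2 * b ^ 2) * (∫⁻ x in closedBall (0 : Fin d → ℝ) R,
          ENNReal.ofReal ((U' j x - u' x) ^ 2 + sq (gr (U' j) x - g' x)))) atTop (𝓝 0) := by
      have t1 := ENNReal.Tendsto.const_mul (a := ENNReal.ofReal (2 * a ^ 2)) (hUt R)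
        (Or.inr ENNReal.ofReal_ne_top)
      have t2 := ENNReal.Tendsto.const_mul (a := ENNReal.ofReal (2 * b ^ 2)) (hUt' R)
        (Or.inr ENNReal.ofReal_ne_top)
      have t3 := t1.add t2
      simpa using t3
    exact tendsto_of_tendsto_of_tendsto_of_le_of_le tendsto_const_nhds ht
      (fun _ => bot_le) hb

end Pool.Agent.Work.MP_85f2da_an

end

section

set_option autoImplicit false

/-!
# MP_85f2da_an, S12: Nash inequality for LSP
-/

open MeasureTheory Filter Set Metric
open scoped ENNReal Topology ContDiff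

namespace Pool.Agent.Work.MP_85f2da_an

theorem s12_lim {d : ℕ} {f ψ : (Fin d → ℝ) → ℝ} {F : ℕ → (Fin d → ℝ) → ℝ}
    (hψ : Continuous ψ) (hψc : HasCompactSupport ψ)
    (hF : ∀ j, AEStronglyMeasurable (F j) volume) (hf : AEStronglyMeasurable f volume)
    (hB : ∀ R : ℝ, Tendsto (fun j => ∫⁻ x in closedBall (0 : Fin d → ℝ) R,
      ENNReal.ofReal ((F j x - f x) ^ 2)) atTop (𝓝 0))
    (hFi : ∀ j, Integrable (fun x => F j x * ψ x)) (hfi : Integrable (fun x => f x * ψ x)) :
    Tendsto (fun j => ∫ x, F j x * ψ x) atTop (𝓝 (∫ x, f x * ψ x)) := by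
  obtain ⟨R, hR⟩ := hψc.isCompact.isBounded.subset_closedBall (0 : Fin d → ℝ)
  refine tendsto_integral_of_L1 _ hfi.1 (Eventually.of_forall hFi) ?_
  set c : ℝ≥0∞ := (∫⁻ x in closedBall (0 : Fin d → ℝ) R, ‖ψ x‖ₑ ^ (2 : ℝ)) ^ (1 / (2 : ℝ)) with hc
  have hcfin : c ≠ ⊤ := by
    have h1 : MemLp ψ 2 volume := hψ.memLp_of_hasCompactSupport hψc
    rw [hc]
    refine ENNReal.rpow_ne_top_of_nonneg (by norm_num) ?_
    have h2 := h1.2
    rw [eLpNorm_eq_lintegral_rpow_enorm_toReal (by norm_num) (by norm_num)] at h2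
    have h3 : (∫⁻ x, ‖ψ x‖ₑ ^ (2 : ℝ)) ≠ ⊤ := by
      intro hcon
      simp only [ENNReal.toReal_ofNat] at h2
      rw [hcon, ENNReal.top_rpow_of_pos (by norm_num)] at h2
      exact lt_irrefl _ h2
    exact ((setLIntegral_le_lintegral _ _).trans_lt (lt_top_iff_ne_top.2 h3)).ne
  have hle : ∀ j, ∫⁻ x, ‖F j x * ψ x - f x * ψ x‖ₑ
      ≤ (∫⁻ x in closedBall (0 : Fin d → ℝ) R, ENNReal.ofReal ((F j x - f x) ^ 2)) ^ (1 / (2 : ℝ))
        * c := by
    intro j
    have e1 : ∫⁻ x, ‖F j x * ψ x - f x * ψ x‖ₑ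
        = ∫⁻ x in closedBall (0 : Fin d → ℝ) R, ‖F j x - f x‖ₑ * ‖ψ x‖ₑ := by
      rw [← lintegral_indicator isClosed_closedBall.measurableSet]
      congr 1
      ext x
      by_cases hx : x ∈ closedBall (0 : Fin d → ℝ) R
      · rw [indicator_of_mem hx, ← enorm_mul, sub_mul]
      · have : ψ x = 0 := by
          by_contra hne
          exact hx (hR (subset_tsupport _ hne))
        rw [indicator_of_notMem hx, this]
        simp
    rw [e1]
    have hol := ENNReal.lintegral_mul_le_Lp_mul_Lq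
      (volume.restrict (closedBall (0 : Fin d → ℝ) R)) (p := 2) (q := 2)
      (by constructor <;> norm_num)
      (f := fun x => ‖F j x - f x‖ₑ) (g := fun x => ‖ψ x‖ₑ)
      (((hF j).sub hf).restrict.enorm) (hψ.aestronglyMeasurable.restrict.enorm)
    refine hol.trans (le_of_eq ?_)
    congr 3
    ext x
    rw [ENNReal.rpow_two, ← ofReal_norm, ← ENNReal.ofReal_pow (norm_nonneg _)]
    simp
  refine tendsto_of_tendsto_of_tendsto_of_le_of_le tendsto_const_nhds ?_ (fun _ => zero_le) hle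
  have h1 := (hB R).ennrpow_const (1 / (2 : ℝ))
  rw [ENNReal.zero_rpow_of_pos (by norm_num)] at h1
  simpa using ENNReal.Tendsto.mul_const h1 (Or.inr hcfin)

theorem s12_WP {d : ℕ} {u : (Fin d → ℝ) → ℝ} {g : (Fin d → ℝ) → (Fin d → ℝ)} (hS : SInt)
    (h : LSP u g) {R : ℝ} (h0 : ∀ᵐ x, x ∉ closedBall (0 : Fin d → ℝ) R → u x = 0 ∧ g x = 0) :
    MP_2cde6c_an.WP u (fun i x => g x i) := by
  have hgm : ∀ i, AEStronglyMeasurable (fun x => g x i) volume := fun i =>
    (continuous_apply i).comp_aestronglyMeasurable h.mg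
  obtain ⟨hu2, hg2⟩ := hS d u g h 0 R
  have hu : MemLp u 2 volume := by
    rw [memLp_two_iff_integrable_sq h.mu]
    refine hu2.integrable_of_ae_notMem_eq_zero ?_
    filter_upwards [h0] with x hx hxn
    rw [(hx hxn).1]; simp
  have hsq : Integrable (fun x => sq (g x)) volume := by
    refine hg2.integrable_of_ae_notMem_eq_zero ?_
    filter_upwards [h0] with x hx hxn
    rw [(hx hxn).2]; simp [sq]
  have hg : ∀ i, MemLp (fun x => g x i) 2 volume := by
    intro i
    rw [memLp_two_iff_integrable_sq (hgm i)]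
    refine Integrable.mono' hsq ((hgm i).pow 2) ?_
    filter_upwards with x
    rw [Real.norm_of_nonneg (sq_nonneg _)]
    exact Finset.single_le_sum (f := fun i => g x i ^ 2) (fun i _ => sq_nonneg _)
      (Finset.mem_univ i)
  refine ⟨hu, hg, ?_⟩
  intro i φ hφ
  obtain ⟨U, hU, ht⟩ := h.app
  have hUc : ∀ j, Continuous (U j) := fun j => by
    obtain ⟨K, hK⟩ := hU j; exact hK.continuous
  have t1 : Tendsto (fun j => ∫ x, U j x * fderiv ℝ φ x (Pi.single i (1 : ℝ))) atTop
      (𝓝 (∫ x, u x * fderiv ℝ φ x (Pi.single i (1 : ℝ)))) := by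
    refine s12_lim (hφ.fderiv_continuous _) (hφ.fderiv_hasCompactSupport _)
      (fun j => (hUc j).aestronglyMeasurable) h.mu ?_ ?_
      (MP_2cde6c_an.integrable_mul hu (hφ.memLp_fderiv _ 2))
    · intro R'
      refine tendsto_of_tendsto_of_tendsto_of_le_of_le tendsto_const_nhds (ht R')
        (fun _ => zero_le) ?_
      intro j
      refine lintegral_mono fun x => ENNReal.ofReal_le_ofReal ?_
      have := s13_sq_nonneg (gr (U j) x - g x)
      linarith
    · intro j
      exact ((hUc j).mul (hφ.fderiv_continuous _)).integrable_of_hasCompactSupport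
        ((hφ.fderiv_hasCompactSupport _).mul_left)
  have t2 : Tendsto (fun j => ∫ x, gr (U j) x i * φ x) atTop (𝓝 (∫ x, g x i * φ x)) := by
    refine s12_lim hφ.1.continuous hφ.2
      (fun j => (s13_gr_meas (U j) i).aestronglyMeasurable) (hgm i) ?_ ?_
      (MP_2cde6c_an.integrable_mul (hg i) (hφ.memLp 2))
    · intro R'
      refine tendsto_of_tendsto_of_tendsto_of_le_of_le tendsto_const_nhds (ht R')
        (fun _ => zero_le) ?_
      intro j
      refine lintegral_mono fun x => ENNReal.ofReal_le_ofReal ?_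
      have : (gr (U j) x - g x) i ^ 2 ≤ sq (gr (U j) x - g x) :=
        Finset.single_le_sum (f := fun i => (gr (U j) x - g x) i ^ 2) (fun i _ => sq_nonneg _)
          (Finset.mem_univ i)
      simp only [Pi.sub_apply] at this
      have h3 := sq_nonneg (U j x - u x)
      linarith
    · intro j
      obtain ⟨K, hK⟩ := hU j
      exact (hφ.1.continuous.integrable_of_hasCompactSupport hφ.2).bdd_mul (c := (K : ℝ))
        (s13_gr_meas (U j) i).aestronglyMeasurable
        (Eventually.of_forall fun x => s13_gr_le hK x i)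
  have e : ∀ j, ∫ x, U j x * fderiv ℝ φ x (Pi.single i (1 : ℝ)) = - ∫ x, gr (U j) x i * φ x :=
    fun j => s13_wk (hU j) i hφ
  simp only [e] at t1
  exact tendsto_nhds_unique t1 t2.neg

theorem s12_nash (hS : SInt) {d : ℕ} {u : (Fin d → ℝ) → ℝ} {g : (Fin d → ℝ) → (Fin d → ℝ)}
    (h : LSP u g) {R : ℝ} (h0 : ∀ᵐ x, x ∉ closedBall (0 : Fin d → ℝ) R → u x = 0 ∧ g x = 0)
    {ε : ℝ} (hε : 0 < ε) :
    ε ^ d * (∫ x, u x ^ 2)
      ≤ (2 * ε) ^ d * (d * ε ^ 2) * (∫ x, sq (g x)) + (∫ x, |u x|) ^ 2 := by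
  have hW := s12_WP hS h h0
  obtain ⟨hu2, hg2⟩ := hS d u g h 0 R
  have hsq : Integrable (fun x => sq (g x)) volume := by
    refine hg2.integrable_of_ae_notMem_eq_zero ?_
    filter_upwards [h0] with x hx hxn
    rw [(hx hxn).2]; simp [sq]
  have hui : Integrable u volume := by
    haveI : IsFiniteMeasure (volume.restrict (closedBall (0 : Fin d → ℝ) R)) :=
      ⟨by rw [Measure.restrict_apply_univ]; exact measure_closedBall_lt_top⟩
    have h1 : IntegrableOn u (closedBall (0 : Fin d → ℝ) R) volume :=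
      (hW.mu.restrict _).integrable (by norm_num)
    refine h1.integrable_of_ae_notMem_eq_zero ?_
    filter_upwards [h0] with x hx hxn
    exact (hx hxn).1
  have key := MP_2cde6c_an.nash hW hε
  have e1 : ∑ i, MP_2cde6c_an.nsq (fun x => g x i) = ENNReal.ofReal (∫ x, sq (g x)) := by
    have h2 : ∀ i, MP_2cde6c_an.nsq (fun x => g x i) = ENNReal.ofReal (∫ x, g x i ^ 2) :=
      fun i => MP_2cde6c_an.nsq_ofReal (hW.mg i)
    simp only [h2]
    rw [← ENNReal.ofReal_sum_of_nonneg fun i _ => integral_nonneg fun x => sq_nonneg _]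
    congr 1
    unfold sq
    rw [integral_finsetSum]
    intro i _
    exact (hW.mg i).integrable_sq
  have e2 : ∫⁻ x, ENNReal.ofReal |u x| = ENNReal.ofReal (∫ x, |u x|) :=
    (ofReal_integral_eq_lintegral_ofReal hui.abs (Eventually.of_forall fun x => abs_nonneg _)).symm
  have hA : 0 ≤ ∫ x, sq (g x) := integral_nonneg fun x => s13_sq_nonneg _
  have hB : 0 ≤ ∫ x, |u x| := integral_nonneg fun x => abs_nonneg _
  have hC : 0 ≤ (2 * ε) ^ d * (d * ε ^ 2) := by positivity
  rw [e1, e2, MP_2cde6c_an.nsq_ofReal hW.mu, ← ENNReal.ofReal_mul (by positivity),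
    ← ENNReal.ofReal_mul hC, ← ENNReal.ofReal_pow hB, ← ENNReal.ofReal_add (mul_nonneg hC hA)
      (by positivity)] at key
  refine (ENNReal.ofReal_le_ofReal_iff ?_).1 key
  exact add_nonneg (mul_nonneg hC hA) (by positivity)

theorem sNash : SInt → SNash := fun hS _ _ _ h _ h0 _ hε => s12_nash hS h h0 hε

end Pool.Agent.Work.MP_85f2da_an

end

section

set_option autoImplicit false

/-!
# MP_85f2da_an: the final theorem with a bounded minimal function and an autonomous Lagrangian
-/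

open MeasureTheory Filter Set Metric
open scoped ENNReal Topology ContDiff

namespace Pool.Agent.Work.MP_85f2da_an

/-- the four-dimensional result, with the bounds of `u` -/
def EFourB : Prop := ∃ (δ : ℝ) (D : Dat 4) (u : (Fin 4 → ℝ) → ℝ), 0 < δ ∧ δ ≤ 1 / 1000 ∧
  D.Lam = Lam4 δ ∧ D.F = Fv ∧ Lip u ∧ MinAut D u ∧ (∀ x, 0 ≤ u x ∧ u x ≤ 1) ∧
  (∃ z, u (z + Pi.single 0 1) < u z) ∧ ∃ z, u z < u (z + Pi.single 0 1)

theorem eFourB : ADatEx → QMainEx → QFinP → CCal → CMain → CDecay → CW → PartD → ELim → ECross →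
    EFourB := by
  intro hA hQ hQF hC hM hD hW hP hL hX
  obtain ⟨δ, hδ0, hδ1, hQM⟩ := hQ
  obtain ⟨D, hDL, hDF⟩ := hA δ hδ0 hδ1
  obtain ⟨C, hCM⟩ := hM δ hδ0 hδ1 (hC δ hδ0 hδ1 (hQF δ hδ0 hδ1 hQM))
  obtain ⟨C', hC'⟩ := hD δ C hδ0
  obtain ⟨v, ρ, U, hv, hv01, hmin, hcomp, hen, hlim⟩ := hP 4 D wz (by norm_num) hW.1 hW.2.1
  have hadm : ∀ j, Adm δ (ρ j) (U j) := fun j => ⟨hcomp j, by
    have := hen j
    simp only [Dat.L, hDL, hDF] at this
    exact this⟩
  have hph : ∀ j, Phases C' (U j) := fun j => hC' (ρ j) (U j) (hadm j) (hCM (ρ j) (U j) (hadm j))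
  have hphv : Phases C' v := hL C' U v (fun j => (hcomp j).lip) hv hph hlim
  obtain ⟨h1, h2⟩ := hX C' v hv hv01 hphv
  exact ⟨δ, D, v, hδ0, hδ1, hDL, hDF, hv, hmin, hv01, h1, h2⟩

/-- the final statement -/
def NFinalB : Prop := ∀ n : ℕ, 4 ≤ n → ∃ (L : (Fin n → ℝ) → ℝ → (Fin n → ℝ) → ℝ)
  (u : (Fin n → ℝ) → ℝ), BLag L ∧ (∀ x y v p, L x v p = L y v p) ∧ IsMinimal L u ∧
  (∀ x, 0 ≤ u x ∧ u x ≤ 1) ∧ (∃ K, LipschitzWith K u) ∧
  ∃ (k : Fin n → ℤ) (l : ℤ), (∃ x, u (fun i => x i + k i) + l - u x = 0) ∧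
    ∃ x, u (fun i => x i + k i) + l - u x ≠ 0

theorem nFinalB (hE : EFourB) (hL : NLag) (hM : NMin) : NFinalB := by
  intro n hn
  obtain ⟨m, rfl⟩ := Nat.exists_eq_add_of_le hn
  obtain ⟨δ, D, u, hδ, hδ1, hDL, hDF, hu, hmin, h01, ⟨z1, hz1⟩, ⟨z2, hz2⟩⟩ := hE
  have hcont : Continuous u := by
    obtain ⟨K, hK⟩ := hu
    exact hK.continuous
  let k : Fin (4 + m) → ℤ := fun i => if i = Fin.castAdd m 0 then 1 else 0
  have key : ∀ x : Fin 4 → ℝ, ∃ y : Fin (4 + m) → ℝ,
      (fun i => y (Fin.castAdd m i)) = x ∧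
      (fun i => (fun i => y i + (k i : ℝ)) (Fin.castAdd m i)) = x + Pi.single 0 1 := by
    intro x
    refine ⟨fun i => Fin.addCases (motive := fun _ => ℝ) x (fun _ => 0) i, ?_, ?_⟩
    · funext i
      exact Fin.addCases_left i
    · funext i
      show Fin.addCases (motive := fun _ => ℝ) x (fun _ => 0) (Fin.castAdd m i) +
        ((if Fin.castAdd m i = Fin.castAdd m 0 then (1 : ℤ) else 0 : ℤ) : ℝ) = _
      rw [Fin.addCases_left, Pi.add_apply]
      congr 1
      by_cases hi : i = 0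
      · subst hi
        simp
      · rw [if_neg (fun h => hi (Fin.castAdd_injective 4 m h)), Pi.single_eq_of_ne hi]
        simp
  have hval : ∀ x : Fin 4 → ℝ, ∃ y : Fin (4 + m) → ℝ,
      (fun x : Fin (4 + m) → ℝ => u (fun i => x (Fin.castAdd m i))) (fun i => y i + (k i : ℝ)) +
        ((0 : ℤ) : ℝ) - (fun x : Fin (4 + m) → ℝ => u (fun i => x (Fin.castAdd m i))) y =
        u (x + Pi.single 0 1) - u x := by
    intro x
    obtain ⟨y, h1, h2⟩ := key x
    refine ⟨y, ?_⟩
    show u (fun i => (fun i => y i + (k i : ℝ)) (Fin.castAdd m i)) + ((0 : ℤ) : ℝ) -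
      u (fun i => y (Fin.castAdd m i)) = _
    rw [h1, h2]
    simp
  refine ⟨Ln δ m, fun x => u (fun i => x (Fin.castAdd m i)), hL δ m hδ hδ1,
    fun _ _ _ _ => rfl, hM δ m D u hδ hDL hDF hu hmin, fun x => h01 _, ?_, k, 0, ?_, ?_⟩
  · obtain ⟨K, hK⟩ := hu
    refine ⟨K * 1, hK.comp ?_⟩
    refine LipschitzWith.of_dist_le_mul fun x y => ?_
    rw [NNReal.coe_one, one_mul]
    refine (dist_pi_le_iff dist_nonneg).2 fun i => ?_
    exact dist_le_pi_dist x y (Fin.castAdd m i)
  · have hf : Continuous fun x : Fin 4 → ℝ => u (x + Pi.single 0 1) - u x :=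
      (hcont.comp (continuous_id.add continuous_const)).sub hcont
    obtain ⟨x, hx⟩ := mem_range_of_exists_le_of_exists_ge hf (c := 0) ⟨z1, by linarith⟩
      ⟨z2, by linarith⟩
    obtain ⟨y, hy⟩ := hval x
    exact ⟨y, hy.trans hx⟩
  · obtain ⟨y, hy⟩ := hval z1
    refine ⟨y, ?_⟩
    rw [hy]
    exact (by linarith : u (z1 + Pi.single 0 1) - u z1 < 0).ne

end Pool.Agent.Work.MP_85f2da_an

end

section

set_option autoImplicit false

/-!
# P4: the polynomial identity on the diagonal (helper90)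
-/

namespace Pool.Agent.Work.MP_85f2da_an

theorem pDiag : PDiag := by
  refine ⟨1200, by norm_num, ?_⟩
  intro w x b e c hw he he1 hx hx1 hb hc hce
  set r := |w| + e with hr
  have hr0 : 0 ≤ r := by positivity
  have hwr : |w| ≤ r := by linarith
  have her : e ≤ r := by linarith [abs_nonneg w]
  have hBr : |b * e| ≤ r := by
    rw [abs_mul, abs_of_pos he]
    exact (mul_le_mul_of_nonneg_right hb he.le).trans (by linarith)
  have hg0 : 0 ≤ c * e ^ 2 := by positivity
  have hgr : c * e ^ 2 ≤ 6 * r ^ 2 := p3_g_le he her hwr hce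
  have e1 := p3_E1_le hwr hw hwr hBr hg0 hgr hx hx1
  have e0 := p3_Y_le hwr hw hwr hBr hg0 hgr
  rw [p3_sN, p3_s0, sub_self]
  have h2 : ∀ E1 E0 : ℝ, 1 - (1 - (0 ^ 2 / 3 + 2 * (b * e) * 0 + c * e ^ 2) + E1) -
      (2 * (b * e) * 0 + c * e ^ 2 + E0) = -E1 - E0 := by
    intro E1 E0
    ring
  rw [h2]
  have h3 : r ^ 4 ≤ 4 * (e ^ 2 + w ^ 2) ^ 2 := by
    have h4 : r ^ 2 ≤ 2 * (e ^ 2 + w ^ 2) := by
      have a1 := sq_nonneg (|w| - e)
      have a2 : r ^ 2 = 2 * (e ^ 2 + |w| ^ 2) - (|w| - e) ^ 2 := by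
        rw [hr]
        ring
      rw [a2, sq_abs]
      linarith
    have h5 : r ^ 4 = (r ^ 2) ^ 2 := by ring
    rw [h5]
    refine (pow_le_pow_left₀ (sq_nonneg r) h4 2).trans (le_of_eq ?_)
    ring
  have h4 := abs_le.1 e1
  have h5 := abs_le.1 e0
  rw [abs_le]
  constructor <;> linarith [h4.1, h4.2, h5.1, h5.2]

end Pool.Agent.Work.MP_85f2da_an

end

section

set_option autoImplicit false

/-!
# MP_85f2da_an: S6, positive part of a local Sobolev function
-/

open MeasureTheory Filter Set Metric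
open scoped ENNReal Topology ContDiff

namespace Pool.Agent.Work.MP_85f2da_an

variable {d : ℕ}

/-- the regularised positive part -/
noncomputable def s6_Phi (δ k v : ℝ) : ℝ := Real.sqrt ((max (v - k) 0) ^ 2 + δ ^ 2) - δ

/-- its derivative -/
noncomputable def s6_Phi' (δ k v : ℝ) : ℝ :=
  max (v - k) 0 / Real.sqrt ((max (v - k) 0) ^ 2 + δ ^ 2)

theorem s6_hasDerivAt_sq (s : ℝ) :
    HasDerivAt (fun t : ℝ => (max t 0) ^ 2) (2 * max s 0) s := by
  rcases lt_trichotomy s 0 with h | h | h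
  · have h1 : HasDerivAt (fun _ : ℝ => (0 : ℝ)) 0 s := hasDerivAt_const _ _
    have h2 : (fun t : ℝ => (max t 0) ^ 2) =ᶠ[𝓝 s] fun _ => 0 := by
      filter_upwards [Iio_mem_nhds h] with t ht
      rw [max_eq_right (le_of_lt ht)]
      simp
    rw [max_eq_right h.le, mul_zero]
    exact h1.congr_of_eventuallyEq h2
  · subst h
    rw [max_self, mul_zero, hasDerivAt_iff_isLittleO]
    have h1 : (fun x' : ℝ => (max x' 0) ^ 2 - (max (0 : ℝ) 0) ^ 2 - (x' - 0) • (0 : ℝ))
        =O[𝓝 0] fun x' => x' ^ 2 := by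
      refine Asymptotics.IsBigO.of_bound 1 (Eventually.of_forall fun x => ?_)
      simp only [max_self, ne_eq, OfNat.ofNat_ne_zero, not_false_eq_true, zero_pow, sub_zero,
        smul_eq_mul, mul_zero, one_mul, Real.norm_eq_abs, abs_pow]
      refine pow_le_pow_left₀ (abs_nonneg _) ?_ 2
      rw [abs_of_nonneg (le_max_right x 0)]
      exact max_le (le_abs_self x) (abs_nonneg x)
    refine h1.trans_isLittleO ?_
    simpa using Asymptotics.isLittleO_pow_id (one_lt_two)
  · have h1 : HasDerivAt (fun t : ℝ => t ^ 2) (2 * s) s := by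
      simpa using hasDerivAt_pow 2 s
    have h2 : (fun t : ℝ => (max t 0) ^ 2) =ᶠ[𝓝 s] fun t => t ^ 2 := by
      filter_upwards [Ioi_mem_nhds h] with t ht
      rw [max_eq_left (le_of_lt ht)]
    rw [max_eq_left h.le]
    exact h1.congr_of_eventuallyEq h2

theorem s6_hasDerivAt {δ : ℝ} (hδ : 0 < δ) (k v : ℝ) :
    HasDerivAt (s6_Phi δ k) (s6_Phi' δ k v) v := by
  have h1 : HasDerivAt (fun t : ℝ => (max (t - k) 0) ^ 2 + δ ^ 2) (2 * max (v - k) 0) v := by
    have := (s6_hasDerivAt_sq (v - k)).comp v ((hasDerivAt_id v).sub_const k)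
    simpa [Function.comp_def] using this.add_const (δ ^ 2)
  have h2 : (max (v - k) 0) ^ 2 + δ ^ 2 ≠ 0 := by positivity
  have h3 := (h1.sqrt h2).sub_const δ
  refine h3.congr_deriv ?_
  rw [s6_Phi', mul_div_mul_left _ _ two_ne_zero]

theorem s6_continuous {δ : ℝ} (hδ : 0 < δ) (k : ℝ) : Continuous (s6_Phi' δ k) := by
  unfold s6_Phi'
  refine Continuous.div (by fun_prop) (by fun_prop) fun v => ?_
  have : 0 < (max (v - k) 0) ^ 2 + δ ^ 2 := by positivity
  exact (Real.sqrt_pos.2 this).ne'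

theorem s6_bounds {δ : ℝ} (hδ : 0 < δ) (k v : ℝ) : 0 ≤ s6_Phi' δ k v ∧ s6_Phi' δ k v ≤ 1 := by
  have h0 : 0 ≤ max (v - k) 0 := le_max_right _ _
  have h1 : 0 < (max (v - k) 0) ^ 2 + δ ^ 2 := by positivity
  have h2 := Real.sqrt_pos.2 h1
  refine ⟨div_nonneg h0 h2.le, (div_le_one h2).2 ?_⟩
  exact Real.le_sqrt_of_sq_le (by nlinarith [sq_nonneg δ])

theorem s6_Phi_close {δ : ℝ} (hδ : 0 < δ) (k v : ℝ) : |s6_Phi δ k v - max (v - k) 0| ≤ δ := by
  have h0 : 0 ≤ max (v - k) 0 := le_max_right _ _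
  have h1 : max (v - k) 0 ≤ Real.sqrt ((max (v - k) 0) ^ 2 + δ ^ 2) :=
    Real.le_sqrt_of_sq_le (by nlinarith [sq_nonneg δ])
  have h2 : Real.sqrt ((max (v - k) 0) ^ 2 + δ ^ 2) ≤ max (v - k) 0 + δ := by
    refine Real.sqrt_le_iff.2 ⟨by positivity, ?_⟩
    nlinarith
  unfold s6_Phi
  exact abs_le.2 ⟨by linarith, by linarith⟩

theorem s6_lim (k v : ℝ) :
    Tendsto (fun n : ℕ => s6_Phi' (1 / ((n : ℝ) + 1)) k v) atTop (𝓝 (if k < v then 1 else 0)) := by
  split_ifs with h
  · have h0 : 0 < v - k := by linarith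
    have h1 : max (v - k) 0 = v - k := max_eq_left h0.le
    have h2 : Tendsto (fun n : ℕ => (v - k) /
        Real.sqrt ((v - k) ^ 2 + (1 / ((n : ℝ) + 1)) ^ 2)) atTop (𝓝 ((v - k) /
        Real.sqrt ((v - k) ^ 2 + 0 ^ 2))) := by
      refine Tendsto.div tendsto_const_nhds ?_ ?_
      · refine (Real.continuous_sqrt.tendsto _).comp ?_
        exact tendsto_const_nhds.add (tendsto_one_div_add_atTop_nhds_zero_nat.pow 2)
      · rw [zero_pow two_ne_zero, add_zero, Real.sqrt_sq h0.le]
        exact h0.ne'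
    rw [zero_pow two_ne_zero, add_zero, Real.sqrt_sq h0.le, div_self h0.ne'] at h2
    simpa [s6_Phi', h1] using h2
  · have h1 : max (v - k) 0 = 0 := max_eq_right (by linarith)
    simp [s6_Phi', h1]

theorem s6_congr {u u' : (Fin d → ℝ) → ℝ} {g g' : (Fin d → ℝ) → (Fin d → ℝ)} (h : LSP u g)
    (mu' : AEStronglyMeasurable u' volume) (mg' : AEStronglyMeasurable g' volume)
    (hu : u =ᵐ[volume] u') (hg : g =ᵐ[volume] g') : LSP u' g' := by
  obtain ⟨_, _, U, hU, hlim⟩ := h
  refine ⟨mu', mg', U, hU, fun R => (hlim R).congr fun j => ?_⟩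
  refine lintegral_congr_ae ?_
  filter_upwards [ae_restrict_of_ae hu, ae_restrict_of_ae hg] with x h1 h2
  rw [h1, h2]

theorem s6_tri (a b c : ℝ) (p q r : Fin d → ℝ) :
    (a - b) ^ 2 + sq (p - q) ≤
      2 * ((a - c) ^ 2 + sq (p - r)) + 2 * ((b - c) ^ 2 + sq (q - r)) := by
  have h1 : (a - b) ^ 2 ≤ 2 * (a - c) ^ 2 + 2 * (b - c) ^ 2 := by
    nlinarith [sq_nonneg (a - c + (b - c))]
  have h2 : sq (p - q) ≤ 2 * sq (p - r) + 2 * sq (q - r) := by
    simp only [sq, Finset.mul_sum, ← Finset.sum_add_distrib, Pi.sub_apply]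
    exact Finset.sum_le_sum fun i _ => by nlinarith [sq_nonneg (p i - r i + (q i - r i))]
  linarith

theorem sPos : SChain → SComplete → SPos := by
  intro hchain hcomp d u g k hug
  have hint := sInt d u g hug
  have mu := hug.mu
  have mg := hug.mg
  set δ : ℕ → ℝ := fun n => 1 / ((n : ℝ) + 1) with hδdef
  have hδ : ∀ n, 0 < δ n := fun n => Nat.one_div_pos_of_nat
  have hδ1 : ∀ n, δ n ≤ 1 := fun n => by
    rw [hδdef]; simp only; rw [div_le_one (by positivity)]
    have : (0 : ℝ) ≤ n := Nat.cast_nonneg n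
    linarith
  set V : ℕ → (Fin d → ℝ) → ℝ := fun n x => s6_Phi (δ n) k (u x) with hV
  set G : ℕ → (Fin d → ℝ) → (Fin d → ℝ) := fun n x => s6_Phi' (δ n) k (u x) • g x with hG
  have hVG : ∀ n, LSP (V n) (G n) := fun n =>
    hchain d u g (s6_Phi (δ n) k) (s6_Phi' (δ n) k) (s6_hasDerivAt (hδ n) k)
      (s6_continuous (hδ n) k) ⟨1, fun v => abs_le.2 ⟨by linarith [(s6_bounds (hδ n) k v).1],
        (s6_bounds (hδ n) k v).2⟩⟩ hug
  -- the limit
  set v : (Fin d → ℝ) → ℝ := fun x => max (u x - k) 0 with hv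
  set w : (Fin d → ℝ) → (Fin d → ℝ) := fun x => if k < u x then g x else 0 with hw
  have mv : AEStronglyMeasurable v volume := by
    have hc : Continuous fun t : ℝ => max (t - k) 0 := by fun_prop
    exact hc.comp_aestronglyMeasurable mu
  have mw : AEStronglyMeasurable w volume := by
    refine aestronglyMeasurable_of_tendsto_ae atTop (fun n => (hVG n).mg)
      (Eventually.of_forall fun x => ?_)
    have h1 := (s6_lim k (u x)).smul_const (g x)
    have h2 : (if k < u x then (1 : ℝ) else 0) • g x = w x := by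
      rw [hw]; simp only; split_ifs <;> simp
    rw [h2] at h1
    exact h1
  have hlimw : ∀ x, Tendsto (fun n => G n x) atTop (𝓝 (w x)) := fun x => by
    have h1 := (s6_lim k (u x)).smul_const (g x)
    have h2 : (if k < u x then (1 : ℝ) else 0) • g x = w x := by
      rw [hw]; simp only; split_ifs <;> simp
    rw [h2] at h1
    exact h1
  have hmeas : ∀ n, AEStronglyMeasurable (fun x => (V n x - v x) ^ 2 + sq (G n x - w x))
      volume := fun n =>
    (((hVG n).mu.sub mv).pow 2).add (s8_continuous_sq.comp_aestronglyMeasurable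
      ((hVG n).mg.sub mw))
  have hconv : ∀ R : ℝ, Tendsto (fun n => ∫⁻ x in closedBall 0 R,
      ENNReal.ofReal ((V n x - v x) ^ 2 + sq (G n x - w x))) atTop (𝓝 0) := by
    intro R
    have := tendsto_lintegral_of_dominated_convergence'
      (μ := volume.restrict (closedBall (0 : Fin d → ℝ) R))
      (F := fun n x => ENNReal.ofReal ((V n x - v x) ^ 2 + sq (G n x - w x)))
      (f := fun _ => 0)
      (fun x => ENNReal.ofReal (1 + sq (g x)))
      (fun n => (hmeas n).restrict.aemeasurable.ennreal_ofReal) ?_ ?_ ?_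
    · simpa using this
    · intro n
      refine Eventually.of_forall fun x => ENNReal.ofReal_le_ofReal (add_le_add ?_ ?_)
      · have h1 := abs_le.1 (s6_Phi_close (hδ n) k (u x))
        have h2 : -1 ≤ V n x - v x := by linarith [h1.1, hδ1 n]
        have h3 : V n x - v x ≤ 1 := by linarith [h1.2, hδ1 n]
        nlinarith
      · have h1 := s6_bounds (hδ n) k (u x)
        rw [hG, hw]
        simp only [sq]
        refine Finset.sum_le_sum fun i _ => ?_
        split_ifs with h
        · simp only [Pi.sub_apply, Pi.smul_apply, smul_eq_mul]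
          have h3 : (s6_Phi' (δ n) k (u x) * g x i - g x i) ^ 2
              = (1 - s6_Phi' (δ n) k (u x)) ^ 2 * g x i ^ 2 := by ring
          rw [h3]
          have h4 : (1 - s6_Phi' (δ n) k (u x)) ^ 2 ≤ 1 := by nlinarith [h1.1, h1.2]
          nlinarith [mul_le_mul_of_nonneg_right h4 (sq_nonneg (g x i))]
        · simp only [Pi.sub_apply, Pi.smul_apply, smul_eq_mul, Pi.zero_apply, sub_zero]
          rw [mul_pow]
          have h4 : (s6_Phi' (δ n) k (u x)) ^ 2 ≤ 1 := by nlinarith [h1.1, h1.2]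
          nlinarith [mul_le_mul_of_nonneg_right h4 (sq_nonneg (g x i))]
    · have hc : IntegrableOn (fun _ : Fin d → ℝ => (1 : ℝ)) (closedBall 0 R) :=
        continuous_const.continuousOn.integrableOn_compact (isCompact_closedBall _ _)
      have h1 : IntegrableOn (fun x => 1 + sq (g x)) (closedBall 0 R) := hc.add (hint 0 R).2
      exact (lintegral_ofReal_ne_top_iff_integrable h1.aestronglyMeasurable
        (Eventually.of_forall fun x => add_nonneg zero_le_one (s8_sq_nonneg _))).2 h1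
    · refine Eventually.of_forall fun x => ?_
      have h1 : Tendsto (fun n => V n x) atTop (𝓝 (v x)) := by
        rw [tendsto_iff_norm_sub_tendsto_zero]
        refine squeeze_zero (fun n => norm_nonneg _) (fun n => ?_)
          tendsto_one_div_add_atTop_nhds_zero_nat
        exact s6_Phi_close (hδ n) k (u x)
      have h2 : Tendsto (fun n => (V n x - v x) ^ 2 + sq (G n x - w x)) atTop
          (𝓝 ((v x - v x) ^ 2 + sq (w x - w x))) :=
        ((h1.sub_const _).pow 2).add ((s8_continuous_sq.tendsto _).comp ((hlimw x).sub_const _))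
      have h3 : (v x - v x) ^ 2 + sq (w x - w x) = 0 := by simp [sq]
      rw [h3] at h2
      have := ENNReal.tendsto_ofReal h2
      simpa using this
  -- Cauchy
  obtain ⟨v', w', hvw', hconv'⟩ := hcomp d V G hVG (by
    intro R ε hε
    have h4 : 0 < ENNReal.ofReal (ε / 4) := ENNReal.ofReal_pos.2 (by positivity)
    obtain ⟨N, hN⟩ := eventually_atTop.1 ((hconv R).eventually (gt_mem_nhds h4))
    refine ⟨N, fun i j hi hj => ?_⟩
    calc ∫⁻ x in closedBall 0 R, ENNReal.ofReal ((V i x - V j x) ^ 2 + sq (G i x - G j x))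
        ≤ ∫⁻ x in closedBall 0 R,
          (2 * ENNReal.ofReal ((V i x - v x) ^ 2 + sq (G i x - w x))
            + 2 * ENNReal.ofReal ((V j x - v x) ^ 2 + sq (G j x - w x))) := by
          refine lintegral_mono fun x => ?_
          rw [← ENNReal.ofReal_ofNat 2, ← ENNReal.ofReal_mul (by norm_num),
            ← ENNReal.ofReal_mul (by norm_num), ← ENNReal.ofReal_add
              (mul_nonneg (by norm_num) (add_nonneg (sq_nonneg _) (s8_sq_nonneg _)))
              (mul_nonneg (by norm_num) (add_nonneg (sq_nonneg _) (s8_sq_nonneg _)))]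
          exact ENNReal.ofReal_le_ofReal (s6_tri _ _ _ _ _ _)
      _ = 2 * (∫⁻ x in closedBall 0 R, ENNReal.ofReal ((V i x - v x) ^ 2 + sq (G i x - w x)))
          + 2 * ∫⁻ x in closedBall 0 R, ENNReal.ofReal ((V j x - v x) ^ 2 + sq (G j x - w x)) := by
          have hmi := (hmeas i).restrict (s := closedBall 0 R) |>.aemeasurable.ennreal_ofReal
          have hmj := (hmeas j).restrict (s := closedBall 0 R) |>.aemeasurable.ennreal_ofReal
          rw [lintegral_add_left' (hmi.const_mul _), lintegral_const_mul'' _ hmi,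
            lintegral_const_mul'' _ hmj]
      _ ≤ 2 * ENNReal.ofReal (ε / 4) + 2 * ENNReal.ofReal (ε / 4) := by
          gcongr
          · exact (hN i hi).le
          · exact (hN j hj).le
      _ = ENNReal.ofReal ε := by
          rw [← ENNReal.ofReal_ofNat 2, ← ENNReal.ofReal_mul (by norm_num),
            ← ENNReal.ofReal_add (by positivity) (by positivity)]
          congr 1
          ring)
  -- identification of the limit
  have hae : ∀ᵐ x, v' x = v x ∧ w' x = w x := by
    have hm : AEStronglyMeasurable (fun x => (v' x - v x) ^ 2 + sq (w' x - w x)) volume :=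
      ((hvw'.mu.sub mv).pow 2).add (s8_continuous_sq.comp_aestronglyMeasurable
        (hvw'.mg.sub mw))
    have hzero : ∀ m : ℕ, ∫⁻ x in closedBall 0 (m : ℝ),
        ENNReal.ofReal ((v' x - v x) ^ 2 + sq (w' x - w x)) = 0 := by
      intro m
      have hsum : Tendsto (fun n => 2 * (∫⁻ x in closedBall 0 (m : ℝ),
          ENNReal.ofReal ((V n x - v' x) ^ 2 + sq (G n x - w' x)))
          + 2 * ∫⁻ x in closedBall 0 (m : ℝ),
          ENNReal.ofReal ((V n x - v x) ^ 2 + sq (G n x - w x))) atTop (𝓝 0) := by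
        have h1 := ENNReal.Tendsto.const_mul (a := 2) (hconv' m) (Or.inr (by norm_num))
        have h2 := ENNReal.Tendsto.const_mul (a := 2) (hconv m) (Or.inr (by norm_num))
        simpa using h1.add h2
      refine le_antisymm (ge_of_tendsto' hsum fun n => ?_) (zero_le)
      have hm1 : AEStronglyMeasurable (fun x => (V n x - v' x) ^ 2 + sq (G n x - w' x))
          volume := (((hVG n).mu.sub hvw'.mu).pow 2).add
            (s8_continuous_sq.comp_aestronglyMeasurable ((hVG n).mg.sub hvw'.mg))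
      have hmi := hm1.restrict (s := closedBall 0 (m : ℝ)) |>.aemeasurable.ennreal_ofReal
      have hmj := (hmeas n).restrict (s := closedBall 0 (m : ℝ)) |>.aemeasurable.ennreal_ofReal
      rw [← lintegral_const_mul'' _ hmi, ← lintegral_const_mul'' _ hmj,
        ← lintegral_add_left' (hmi.const_mul _)]
      refine lintegral_mono fun x => ?_
      rw [← ENNReal.ofReal_ofNat 2, ← ENNReal.ofReal_mul (by norm_num),
        ← ENNReal.ofReal_mul (by norm_num), ← ENNReal.ofReal_add
          (mul_nonneg (by norm_num) (add_nonneg (sq_nonneg _) (s8_sq_nonneg _)))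
          (mul_nonneg (by norm_num) (add_nonneg (sq_nonneg _) (s8_sq_nonneg _)))]
      refine ENNReal.ofReal_le_ofReal ?_
      have h1 := s6_tri (v' x) (v x) (V n x) (w' x) (w x) (G n x)
      have h2 : (V n x - v' x) ^ 2 = (v' x - V n x) ^ 2 := by ring
      have h3 : (V n x - v x) ^ 2 = (v x - V n x) ^ 2 := by ring
      have h4 : ∀ p q : Fin d → ℝ, sq (p - q) = sq (q - p) := fun p q => by
        simp only [sq, Pi.sub_apply]
        exact Finset.sum_congr rfl fun i _ => by ring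
      rw [h2, h3, h4 (G n x) (w' x), h4 (G n x) (w x)]
      exact h1
    have hball : ∀ m : ℕ, ∀ᵐ x, x ∈ closedBall (0 : Fin d → ℝ) (m : ℝ) →
        ENNReal.ofReal ((v' x - v x) ^ 2 + sq (w' x - w x)) = 0 := fun m =>
      (ae_restrict_iff' isClosed_closedBall.measurableSet).1
        ((lintegral_eq_zero_iff' (hm.restrict.aemeasurable.ennreal_ofReal)).1 (hzero m))
    filter_upwards [ae_all_iff.2 hball] with x hx
    obtain ⟨m, hm'⟩ := exists_nat_ge ‖x‖
    have h1 := ENNReal.ofReal_eq_zero.1 (hx m (mem_closedBall_zero_iff.2 hm'))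
    have h2 := sq_nonneg (v' x - v x)
    have h3 := s8_sq_nonneg (w' x - w x)
    have h4 : (v' x - v x) ^ 2 = 0 := by linarith
    have h5 : sq (w' x - w x) = 0 := by linarith
    refine ⟨by have := pow_eq_zero_iff (two_ne_zero) |>.1 h4; linarith, ?_⟩
    funext i
    have h6 := (Finset.sum_eq_zero_iff_of_nonneg fun i _ => sq_nonneg _).1 h5 i
      (Finset.mem_univ i)
    have h7 := pow_eq_zero_iff (two_ne_zero) |>.1 h6
    simp only [Pi.sub_apply] at h7
    linarith
  exact s6_congr hvw' mv mw (hae.mono fun x h => h.1) (hae.mono fun x h => h.2)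

end Pool.Agent.Work.MP_85f2da_an

end

section

set_option autoImplicit false

/-!
# MP_85f2da_an: part D, assembled
-/

namespace Pool.Agent.Work.MP_85f2da_an

theorem sPosAll : SPos := sPos sChain sComplete

theorem dELAll : DEL := dEL sCut sInt

theorem dCaccAll : DCacc := dCacc dELAll sCut sInt

theorem dSupAll : DSup := dSup (dStep (dLevel sInt) (sNash sInt) sPosAll sCut sInt) sInt

theorem dQuotAll : DQuot := dQuot dELAll sPosAll sCut sShift sLin sLip sInt

theorem dDiffAll : DDiff := dDiff dSupAll dQuotAll dCaccAll (sDiff sInt) sInt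

theorem dLipInAll : DLipIn := dLipIn dDiffAll sRep

theorem dGradAll : DGrad := dGrad dELAll dCaccAll sCut sLin sInt

theorem dConvAll : DConv := dConv dLipInAll sArz dGradAll sComplete sUniq sLip sInt

theorem dExistAll : DExist := dExist dCauchy sRellich sComplete

theorem partDAll : PartD := partD dExistAll dConvAll (dLimMin sInt)

end Pool.Agent.Work.MP_85f2da_an

end
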